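import Mathlib

set_option autoImplicit false

namespace Pool.Agent.H18.Adm

open Finset

/-- sums of `r` distinct terms with indices in `I` -/
def Sums (a : ℕ → ℕ) (I : Set ℕ) (r : ℕ) : Set ℕ :=
  {x | ∃ T : Finset ℕ, ↑T ⊆ I ∧ T.card = r ∧ x = ∑ i ∈ T, a i}

/-- at least `N` sums of a common length inside a window of size `y` -/
def Cnt (a : ℕ → ℕ) (I : Set ℕ) (y N : ℝ) : Prop :=
  ∃ r, ∃ F : Finset ℕ, (∀ x ∈ F, x ∈ Sums a I r) ∧ (∀ x ∈ F, ∀ x' ∈ F, (x : ℝ) ≤ x' + y) ∧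
    N ≤ F.card

/-- sums of a common length are `Y`-dense in an interval of length `σ` -/
def Den (a : ℕ → ℕ) (I : Set ℕ) (Y σ : ℝ) : Prop :=
  ∃ r, ∃ s0 : ℝ, ∀ z : ℝ, s0 - Y ≤ z → z < s0 + σ →
    ∃ x ∈ Sums a I r, z < x ∧ (x : ℝ) ≤ z + Y ∧ s0 ≤ x

lemma Sums.map {a : ℕ → ℕ} {φ : ℕ → ℕ} (hφ : Function.Injective φ) {I : Set ℕ} {r x : ℕ}
    (h : x ∈ Sums (fun i => a (φ i)) I r) : x ∈ Sums a (φ '' I) r := by
  obtain ⟨T, h1, h2, h3⟩ := h
  refine ⟨T.image φ, ?_, ?_, ?_⟩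
  · rw [coe_image]; exact Set.image_mono h1
  · rw [card_image_of_injective _ hφ, h2]
  · rw [sum_image (fun x _ y _ h => hφ h)]; exact h3

lemma Sums.add {a : ℕ → ℕ} {I J : Set ℕ} (hd : Disjoint I J) {r s x y : ℕ}
    (h : x ∈ Sums a I r) (h' : y ∈ Sums a J s) : x + y ∈ Sums a (I ∪ J) (r + s) := by
  obtain ⟨T, h1, h2, h3⟩ := h
  obtain ⟨U, k1, k2, k3⟩ := h'
  have : Disjoint T U := Finset.disjoint_left.2 fun i hi hj =>
    Set.disjoint_left.1 hd (h1 hi) (k1 hj)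
  refine ⟨T ∪ U, ?_, ?_, ?_⟩
  · rw [coe_union]; exact Set.union_subset_union h1 k1
  · rw [card_union_of_disjoint this, h2, k2]
  · rw [sum_union this, h3, k3]

lemma Cnt.map {a : ℕ → ℕ} {φ : ℕ → ℕ} (hφ : Function.Injective φ) {I : Set ℕ} {y N : ℝ}
    (h : Cnt (fun i => a (φ i)) I y N) : Cnt a (φ '' I) y N := by
  obtain ⟨r, F, h1, h2⟩ := h
  exact ⟨r, F, fun x hx => Sums.map hφ (h1 x hx), h2⟩

lemma Den.map {a : ℕ → ℕ} {φ : ℕ → ℕ} (hφ : Function.Injective φ) {I : Set ℕ} {y N : ℝ}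
    (h : Den (fun i => a (φ i)) I y N) : Den a (φ '' I) y N := by
  obtain ⟨r, s0, h1⟩ := h
  refine ⟨r, s0, fun z h2 h3 => ?_⟩
  obtain ⟨x, hx, h4⟩ := h1 z h2 h3
  exact ⟨x, Sums.map hφ hx, h4⟩

lemma Cnt.mono {a : ℕ → ℕ} {I J : Set ℕ} {y N y' N' : ℝ} (h : Cnt a I y N) (hI : I ⊆ J)
    (hy : y ≤ y') (hN : N' ≤ N) : Cnt a J y' N' := by
  obtain ⟨r, F, h1, h2, h3⟩ := h
  refine ⟨r, F, fun x hx => ?_, fun x hx x' hx' => by linarith [h2 x hx x' hx'], hN.trans h3⟩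
  obtain ⟨T, k1, k2⟩ := h1 x hx
  exact ⟨T, k1.trans hI, k2⟩

lemma Cnt.one (a : ℕ → ℕ) (I : Set ℕ) {y N : ℝ} (hy : 0 ≤ y) (hN : N ≤ 1) : Cnt a I y N :=
  ⟨0, {0}, by simpa using ⟨∅, by simp, by simp, by simp⟩, by simpa using hy, by simpa using hN⟩

lemma Cnt.ext {a : ℕ → ℕ} {I J : Set ℕ} (hd : Disjoint I J) {Y σ N z : ℝ} (hY : 0 < Y)
    (hN : 0 ≤ N) (h : Cnt a I Y N) (h' : Den a J Y σ) (h1 : Y ≤ z) (h2 : z ≤ σ) :
    Cnt a (I ∪ J) (2 * z) (N * z / (2 * Y)) := by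
  classical
  obtain ⟨r, F, f1, f2, f3⟩ := h
  obtain ⟨s, s0, g⟩ := h'
  set p := ⌊z / (2 * Y)⌋₊ with hp
  have hp1 : (p : ℝ) * (2 * Y) ≤ z := by
    have := Nat.floor_le (show 0 ≤ z / (2 * Y) by apply div_nonneg <;> linarith)
    rwa [le_div_iff₀ (by linarith)] at this
  have hp2 : z / (2 * Y) < p + 1 := Nat.lt_floor_add_one _
  have : ∀ i : ℕ, ∃ x, i ≤ p → x ∈ Sums a J s ∧ s0 + (2 * i - 1) * Y < x ∧
      (x : ℝ) ≤ s0 + 2 * i * Y ∧ s0 ≤ x := by
    intro i
    by_cases hi : i ≤ p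
    · have hi' : (i : ℝ) ≤ p := by exact_mod_cast hi
      have hi0 : (0 : ℝ) ≤ i := Nat.cast_nonneg _
      obtain ⟨x, k1, k2, k3, k4⟩ := g (s0 + (2 * i - 1) * Y) (by nlinarith) (by nlinarith)
      exact ⟨x, fun _ => ⟨k1, k2, by linarith, k4⟩⟩
    · exact ⟨0, fun h => absurd h hi⟩
  choose q hq using this
  refine ⟨r + s, (range (p + 1)).biUnion fun i => F.image (· + q i), ?_, ?_, ?_⟩
  · intro x hx
    obtain ⟨i, hi, hx⟩ := mem_biUnion.1 hx
    obtain ⟨w, hw, rfl⟩ := mem_image.1 hx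
    exact Sums.add hd (f1 w hw) (hq i (Nat.lt_succ_iff.1 (mem_range.1 hi))).1
  · intro x hx x' hx'
    obtain ⟨i, hi, hx⟩ := mem_biUnion.1 hx
    obtain ⟨w, hw, rfl⟩ := mem_image.1 hx
    obtain ⟨j, hj, hx'⟩ := mem_biUnion.1 hx'
    obtain ⟨w', hw', rfl⟩ := mem_image.1 hx'
    have hi := Nat.lt_succ_iff.1 (mem_range.1 hi)
    have a1 := (hq i hi).2.2.1
    have a2 := (hq j (Nat.lt_succ_iff.1 (mem_range.1 hj))).2.2.2
    have a3 := f2 w hw w' hw'
    have hi' : (i : ℝ) ≤ p := by exact_mod_cast hi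
    push_cast
    nlinarith
  · have key : ∀ i j, i ≤ p → j ≤ p → i < j → ∀ w ∈ F, ∀ w' ∈ F, w + q i ≠ w' + q j := by
      intro i j hi hj hij w hw w' hw' he
      have a1 := (hq i hi).2.2.1
      have a2 := (hq j hj).2.1
      have a3 := f2 w hw w' hw'
      have a4 : (i : ℝ) + 1 ≤ j := by exact_mod_cast hij
      have a5 : (w : ℝ) + q i = w' + q j := by exact_mod_cast he
      nlinarith
    rw [card_biUnion]
    · rw [sum_congr rfl (g := fun _ => F.card)
        (fun i _ => card_image_of_injective _ (add_left_injective _)), sum_const, card_range,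
        smul_eq_mul]
      push_cast
      rw [mul_div_assoc]
      nlinarith
    · intro i hi j hj hij
      have hi := Nat.lt_succ_iff.1 (mem_range.1 (mem_coe.1 hi))
      have hj := Nat.lt_succ_iff.1 (mem_range.1 (mem_coe.1 hj))
      rw [Function.onFun, Finset.disjoint_left]
      intro x hx hx'
      obtain ⟨w, hw, rfl⟩ := mem_image.1 hx
      obtain ⟨w', hw', he⟩ := mem_image.1 hx'
      rcases lt_or_gt_of_ne hij with h3 | h3
      · exact key i j hi hj h3 w hw w' hw' he.symm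
      · exact key j i hj hi h3 w' hw' w hw he

lemma den_switch (b : ℕ → ℕ) (P : Finset ℕ) (h : ℕ) (u Y : ℝ)
    (hd : ∀ i ∈ P, i + h ∉ P) (hY : 0 ≤ Y) (hu : 0 ≤ u)
    (hb : ∀ i ∈ P, (b i : ℝ) + u ≤ b (i + h) ∧ (b (i + h) : ℝ) ≤ b i + Y) :
    Den b (↑P ∪ ↑(P.image (· + h))) Y (P.card * u) := by
  classical
  let f : Finset ℕ → ℕ := fun T => ∑ i ∈ P \ T, b i + ∑ i ∈ T, b (i + h)
  have hf : ∀ T ⊆ P, f T ∈ Sums b (↑P ∪ ↑(P.image (· + h))) P.card := by
    intro T hT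
    have hdis : Disjoint (P \ T) (T.image (· + h)) := by
      rw [Finset.disjoint_left]
      intro x hx hx'
      obtain ⟨i, hi, rfl⟩ := mem_image.1 hx'
      exact hd i (hT hi) (mem_sdiff.1 hx).1
    refine ⟨P \ T ∪ T.image (· + h), ?_, ?_, ?_⟩
    · rw [coe_union]
      exact Set.union_subset_union (coe_subset.2 sdiff_subset)
        (coe_subset.2 (image_subset_image hT))
    · rw [card_union_of_disjoint hdis, card_image_of_injective _ (add_left_injective _),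
        card_sdiff_add_card_eq_card hT]
    · rw [sum_union hdis, sum_image (fun x _ y _ h => add_left_injective _ h)]
  have hf2 : ∀ T ⊆ P, (f T : ℝ) = ∑ i ∈ P, (b i : ℝ) + ∑ i ∈ T, ((b (i + h) : ℝ) - b i) := by
    intro T hT
    simp only [f]
    push_cast
    rw [← sum_sdiff hT, sum_sub_distrib]
    ring
  refine ⟨P.card, ∑ i ∈ P, (b i : ℝ), fun z h1 h2 => ?_⟩
  obtain ⟨T, hT, hmin⟩ := Finset.exists_min_image (P.powerset.filter fun T => z < f T) card
    ⟨P, mem_filter.2 ⟨mem_powerset_self _, by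
      rw [hf2 P subset_rfl]
      have := Finset.card_nsmul_le_sum P (fun i => (b (i + h) : ℝ) - b i) u
        (fun i hi => by linarith [(hb i hi).1])
      rw [nsmul_eq_mul] at this
      linarith⟩⟩
  have hTP := mem_powerset.1 (mem_filter.1 hT).1
  refine ⟨f T, hf T hTP, (mem_filter.1 hT).2, ?_, ?_⟩
  · rcases T.eq_empty_or_nonempty with rfl | ⟨i, hi⟩
    · rw [hf2 _ hTP, sum_empty]; linarith
    · have h3 : ¬ z < f (T.erase i) := by
        intro h3
        have := hmin (T.erase i)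
          (mem_filter.2 ⟨mem_powerset.2 ((erase_subset _ _).trans hTP), h3⟩)
        have := card_erase_lt_of_mem hi
        omega
      rw [hf2 _ ((erase_subset _ _).trans hTP)] at h3
      rw [hf2 _ hTP, ← Finset.sum_erase_add _ _ hi]
      linarith [(hb i (hTP hi)).2]
  · rw [hf2 _ hTP]
    have : 0 ≤ ∑ i ∈ T, ((b (i + h) : ℝ) - b i) :=
      sum_nonneg fun i hi => by linarith [(hb i (hTP hi)).1]
    linarith

lemma den_chain (b : ℕ → ℕ) (hm : StrictMono b) (m : ℕ) (Y : ℝ)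
    (hb : ∀ i, i + 1 < 2 * m → (b (i + 1) : ℝ) ≤ b i + Y) :
    Den b Set.univ Y (∑ i ∈ range m, ((b (i + m) : ℝ) - b i)) := by
  classical
  refine ⟨m, ∑ i ∈ range m, (b i : ℝ), fun z h1 h2 => ?_⟩
  by_cases hz : z < ∑ i ∈ range m, (b i : ℝ)
  · refine ⟨∑ i ∈ range m, b i, ⟨range m, by simp, by simp, rfl⟩, ?_, ?_, ?_⟩ <;> push_cast <;>
      linarith
  obtain ⟨T, hT, hmin⟩ := Finset.exists_min_image
    ((powersetCard m (range (2 * m))).filter fun T => z < ∑ i ∈ T, (b i : ℝ))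
    (fun T => ∑ i ∈ T, (b i : ℝ))
    ⟨(range m).image (· + m), mem_filter.2 ⟨mem_powersetCard.2 ⟨by
      intro x hx
      obtain ⟨i, hi, rfl⟩ := mem_image.1 hx
      have := mem_range.1 hi
      exact mem_range.2 (by omega), by
      rw [card_image_of_injective _ (add_left_injective _), card_range]⟩, by
      rw [sum_image (fun x _ y _ h => add_left_injective _ h)]
      rw [sum_sub_distrib] at h2
      linarith⟩⟩
  obtain ⟨hT1, hT2⟩ := mem_filter.1 hT
  obtain ⟨hT3, hT4⟩ := mem_powersetCard.1 hT1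
  refine ⟨∑ i ∈ T, b i, ⟨T, by simp, hT4, rfl⟩, by push_cast; exact hT2, ?_, by
    push_cast; linarith⟩
  push_cast
  have : ∃ i, i + 1 ∈ T ∧ i ∉ T := by
    by_contra hc
    push Not at hc
    have h3 : ∀ k j, j + k ∈ T → j ∈ T := by
      intro k
      induction k with
      | zero => intro j hj; exact hj
      | succ k ih => intro j hj; exact ih j (hc _ hj)
    have h4 : T ⊆ range m := by
      intro x hx
      by_contra hx'
      have hx' : m ≤ x := by simpa using hx'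
      have : range (x + 1) ⊆ T := fun j hj => h3 (x - j) j (by
        have := mem_range.1 hj
        rwa [show j + (x - j) = x by omega])
      have := card_le_card this
      rw [card_range] at this
      omega
    have h5 : T = range m := eq_of_subset_of_card_le h4 (by rw [card_range, hT4])
    rw [h5] at hT2
    exact hz hT2
  obtain ⟨i, hi1, hi2⟩ := this
  have hi3 : i ∉ T.erase (i + 1) := fun h => hi2 (mem_of_mem_erase h)
  have hlt := mem_range.1 (hT3 hi1)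
  have e1 : ∑ j ∈ insert i (T.erase (i + 1)), (b j : ℝ) = ∑ j ∈ T, (b j : ℝ) - b (i + 1) + b i := by
    rw [sum_insert hi3, ← Finset.sum_erase_add _ _ hi1]; ring
  have h6 : ¬ z < ∑ j ∈ insert i (T.erase (i + 1)), (b j : ℝ) := by
    intro h6
    have := hmin _ (mem_filter.2 ⟨mem_powersetCard.2 ⟨by
      intro x hx
      rcases mem_insert.1 hx with rfl | hx
      · exact mem_range.2 (by omega)
      · exact hT3 (mem_of_mem_erase hx), by
      rw [card_insert_of_notMem hi3, card_erase_of_mem hi1, hT4]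
      omega⟩, h6⟩)
    have h7 : (b i : ℝ) < b (i + 1) := by exact_mod_cast hm (Nat.lt_succ_self i)
    linarith
  have := hb i hlt
  linarith

end Pool.Agent.H18.Adm
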