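import Pool.Agent.H18.Adm1

set_option autoImplicit false

namespace Pool.Agent.H18.Adm

open Finset

/-- admissible sequence with polynomial gaps -/
structure Hyp (c C : ℝ) (a : ℕ → ℕ) : Prop where
  mono : StrictMono a
  adm : ∀ S T : Finset ℕ, ∑ i ∈ S, a i = ∑ i ∈ T, a i → S.card = T.card
  gap : ∀ i, (a (i + 1) : ℝ) ≤ a i + C * ((i : ℝ) + 1) ^ c
  a0 : (a 0 : ℝ) ≤ C

variable {c C : ℝ} {a : ℕ → ℕ}

lemma Hyp.one_le (h : Hyp c C a) : 1 ≤ C := by
  have h1 := h.gap 0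
  have h2 : (a 0 : ℝ) + 1 ≤ a (0 + 1) := by exact_mod_cast h.mono (Nat.lt_succ_self 0)
  simp only [Nat.cast_zero, zero_add, Real.one_rpow, mul_one] at h1 h2
  linarith

lemma Hyp.add_le (h : Hyp c C a) (hc : 0 ≤ c) (i k : ℕ) :
    (a (i + k) : ℝ) ≤ a i + C * k * ((i : ℝ) + k) ^ c := by
  have hC := h.one_le
  induction k with
  | zero => simp
  | succ k ih =>
    have h1 := h.gap (i + k)
    have h2 : ((i : ℝ) + k) ^ c ≤ ((i : ℝ) + k + 1) ^ c :=
      Real.rpow_le_rpow (by positivity) (by linarith) hc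
    have h3 := mul_le_mul_of_nonneg_left h2 (show (0 : ℝ) ≤ C * k by positivity)
    rw [← add_assoc]
    push_cast at h1 ⊢
    rw [← add_assoc]
    linarith

lemma Hyp.size (h : Hyp c C a) (hc : 0 ≤ c) (i : ℕ) : (a i : ℝ) ≤ C * ((i : ℝ) + 1) ^ (c + 1) := by
  have hC := h.one_le
  have h1 := h.add_le hc 0 i
  have h2 : ((i : ℝ)) ^ c ≤ ((i : ℝ) + 1) ^ c := Real.rpow_le_rpow (by positivity) (by linarith) hc
  have h3 : (1 : ℝ) ≤ ((i : ℝ) + 1) ^ c := Real.one_le_rpow (by simp) hc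
  rw [Real.rpow_add_one (by positivity)]
  simp only [zero_add, Nat.cast_zero] at h1
  have h4 := h.a0
  have h5 := mul_le_mul_of_nonneg_left h2 (show (0 : ℝ) ≤ C * i by positivity)
  nlinarith

lemma Hyp.sub (h : Hyp c C a) (hc : 0 ≤ c) (j : ℕ) (hj : j ≤ 2) :
    Hyp c (3 * 6 ^ c * C) (fun i => a (3 * i + j)) := by
  have hC := h.one_le
  have hj' : (j : ℝ) ≤ 2 := by exact_mod_cast hj
  have h6 : (1 : ℝ) ≤ 6 ^ c := Real.one_le_rpow (by norm_num) hc
  refine ⟨fun m n hmn => h.mono (by omega), fun S T hST => ?_, fun i => ?_, ?_⟩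
  · have inj : Function.Injective fun i => 3 * i + j := fun x y h => by simp only at h; omega
    have := h.adm (S.image fun i => 3 * i + j) (T.image fun i => 3 * i + j) (by
      rw [sum_image (fun x _ y _ h => inj h), sum_image (fun x _ y _ h => inj h)]; exact hST)
    rwa [card_image_of_injective _ inj, card_image_of_injective _ inj] at this
  · have h1 := h.add_le hc (3 * i + j) 3
    have e : 3 * (i + 1) + j = 3 * i + j + 3 := by ring
    rw [e]
    have h2 : (((3 * i + j : ℕ) : ℝ) + (3 : ℕ)) ^ c ≤ (6 * ((i : ℝ) + 1)) ^ c := by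
      apply Real.rpow_le_rpow (by positivity) _ hc
      push_cast
      linarith [(Nat.cast_nonneg i : (0 : ℝ) ≤ i)]
    rw [Real.mul_rpow (by norm_num) (by positivity)] at h2
    have h3 := mul_le_mul_of_nonneg_left h2 (show (0 : ℝ) ≤ C * (3 : ℕ) by positivity)
    push_cast at h1 h3 ⊢
    linarith
  · have h1 := h.add_le hc 0 j
    have h2 : (((0 : ℕ) : ℝ) + j) ^ c ≤ 6 ^ c :=
      Real.rpow_le_rpow (by positivity) (by push_cast; linarith) hc
    have h3 := mul_le_mul_of_nonneg_left h2 (show (0 : ℝ) ≤ C * j by positivity)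
    have h4 := h.a0
    simp only [mul_zero, zero_add] at h1 ⊢
    simp only [Nat.cast_zero, zero_add] at h3 h1
    have h5 : C * j * 6 ^ c ≤ C * 2 * 6 ^ c := by gcongr
    nlinarith

lemma Hyp.F2 (h : Hyp c C a) (hc : 0 ≤ c) {I : Set ℕ}
    (hI : Disjoint I ((fun i => 3 * i + 2) '' Set.univ)) {w ρ : ℝ} (hw : 1 ≤ w) (hρ : 0 < ρ)
    (hF : Cnt a I w (w / ρ)) : w ≤ 3 * 6 ^ c * C * (3 * ρ) ^ (c + 2) := by
  classical
  obtain ⟨r, F, f1, f2, f3⟩ := hF
  have hb := h.sub hc 2 le_rfl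
  have hC := hb.one_le
  have hne : F.Nonempty := by
    rw [← card_pos]
    have : (0 : ℝ) < F.card := lt_of_lt_of_le (by positivity) f3
    exact_mod_cast this
  obtain ⟨k, hk⟩ : ∃ k, ⌈3 * ρ⌉₊ = k + 1 :=
    ⟨⌈3 * ρ⌉₊ - 1, by have := Nat.ceil_pos.2 (show 0 < 3 * ρ by positivity); omega⟩
  have hk1 : 3 * ρ ≤ (k : ℝ) + 1 := by
    have := Nat.le_ceil (3 * ρ); rw [hk] at this; exact_mod_cast this
  have hk2 : (k : ℝ) < 3 * ρ := Nat.lt_ceil.1 (by omega)
  let B : ℕ → ℕ := fun i => ∑ j ∈ range i, a (3 * j + 2)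
  have hB : ∀ i, B i ∈ Sums a ((fun i => 3 * i + 2) '' Set.univ) i := fun i =>
    Sums.map (φ := fun i => 3 * i + 2) (fun x y h => by simp only at h; omega)
      ⟨range i, by simp, by simp, rfl⟩
  have hBm : ∀ i ≤ k, B i ≤ B k := fun i hi =>
    sum_le_sum_of_subset (range_subset_range.2 hi)
  have hsub : (range (k + 1)).biUnion (fun i => F.image (· + B i)) ⊆
      Icc (F.min' hne) (F.min' hne + ⌊w⌋₊ + B k) := by
    intro x hx
    obtain ⟨i, hi, hx⟩ := mem_biUnion.1 hx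
    obtain ⟨y, hy, rfl⟩ := mem_image.1 hx
    have h1 := F.min'_le y hy
    have h2 := f2 y hy _ (F.min'_mem hne)
    have h3 : y - F.min' hne ≤ ⌊w⌋₊ := Nat.le_floor (by rw [Nat.cast_sub h1]; linarith)
    have := hBm i (Nat.lt_succ_iff.1 (mem_range.1 hi))
    exact mem_Icc.2 ⟨by omega, by omega⟩
  have h1 := card_le_card hsub
  rw [card_biUnion, sum_congr rfl (g := fun _ => F.card)
    (fun i _ => card_image_of_injective _ (add_left_injective _)), sum_const, card_range,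
    smul_eq_mul, Nat.card_Icc] at h1
  · have h2 : (k + 1) * F.card ≤ ⌊w⌋₊ + B k + 1 := by omega
    have h3 : ((k : ℝ) + 1) * F.card ≤ ⌊w⌋₊ + B k + 1 := by exact_mod_cast h2
    have h4 := Nat.floor_le (show 0 ≤ w by linarith)
    have h5 : 3 * w ≤ ((k : ℝ) + 1) * F.card := by
      have : 3 * w = 3 * ρ * (w / ρ) := by field_simp
      rw [this]
      exact mul_le_mul hk1 f3 (by positivity) (by positivity)
    have h6 : (B k : ℝ) ≤ k * (3 * 6 ^ c * C * (3 * ρ) ^ (c + 1)) := by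
      simp only [B]
      push_cast
      have := Finset.sum_le_card_nsmul (range k) (fun j => (a (3 * j + 2) : ℝ))
        (3 * 6 ^ c * C * (3 * ρ) ^ (c + 1)) (fun j hj => by
          refine (hb.size hc j).trans (mul_le_mul_of_nonneg_left ?_ (by linarith))
          apply Real.rpow_le_rpow (by positivity) _ (by linarith)
          have : (j : ℝ) + 1 ≤ k := by exact_mod_cast mem_range.1 hj
          linarith)
      rwa [card_range, nsmul_eq_mul] at this
    have h7 : (3 * ρ) ^ (c + 2) = (3 * ρ) ^ (c + 1) * (3 * ρ) := by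
      rw [← Real.rpow_add_one (by positivity)]; ring_nf
    rw [h7]
    have h8 : (0 : ℝ) ≤ 3 * 6 ^ c * C * (3 * ρ) ^ (c + 1) := by positivity
    nlinarith
  · intro i _ j _ hij
    rw [Function.onFun, Finset.disjoint_left]
    intro x hx hx'
    obtain ⟨y, hy, rfl⟩ := mem_image.1 hx
    obtain ⟨y', hy', he⟩ := mem_image.1 hx'
    obtain ⟨T, -, t2, t3⟩ := Sums.add hI (f1 y hy) (hB i)
    obtain ⟨T', -, t2', t3'⟩ := Sums.add hI (f1 y' hy') (hB j)
    have := h.adm T T' (by rw [← t3, ← t3', he])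
    omega

lemma cell (E : Finset ℕ) (Δ : ℕ → ℕ) (J n : ℕ) (hJ0 : 0 < J)
    (hJ : ∀ i ∈ E, 1 ≤ Δ i ∧ Δ i < 2 ^ J) (hn : J * n ≤ E.card) :
    ∃ k, ∃ E' ⊆ E, n ≤ E'.card ∧ ∀ i ∈ E', 2 ^ k ≤ Δ i ∧ Δ i < 2 ^ (k + 1) := by
  obtain ⟨k, -, hk⟩ := Finset.exists_le_card_fiber_of_mul_le_card_of_maps_to
    (s := E) (t := range J) (f := fun i => Nat.log 2 (Δ i)) (n := n)
    (fun i hi => mem_range.2 (Nat.log_lt_of_lt_pow (by have := (hJ i hi).1; omega) (hJ i hi).2))
    ⟨0, mem_range.2 hJ0⟩ (by rwa [card_range])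
  refine ⟨k, _, filter_subset _ _, hk, fun i hi => ?_⟩
  obtain ⟨h1, rfl⟩ := mem_filter.1 hi
  exact ⟨Nat.pow_log_le_self 2 (by have := (hJ i h1).1; omega),
    Nat.lt_pow_succ_log_self (by norm_num) _⟩

lemma down (b : ℕ → ℕ) (hm : Monotone b) (h p y : ℕ) (hp : 0 < p) (E : Finset ℕ)
    (hE : ∀ i ∈ E, b (i + p * h) - b i ≤ y) :
    ∃ E' : Finset ℕ, E.card ≤ 2 * E'.card ∧ ∀ i ∈ E', p * (b (i + h) - b i) ≤ 2 * y := by
  classical
  refine ⟨(range (E.sup id + p * h + 1)).filter fun i => p * (b (i + h) - b i) ≤ 2 * y, ?_,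
    fun i hi => (mem_filter.1 hi).2⟩
  have tel : ∀ i q, ∑ j ∈ range q, (b (i + j * h + h) - b (i + j * h)) = b (i + q * h) - b i := by
    intro i q
    induction q with
    | zero => simp
    | succ q ih =>
      rw [sum_range_succ, ih]
      have h1 := hm (show i ≤ i + q * h by omega)
      have h2 := hm (show i + q * h ≤ i + q * h + h by omega)
      rw [show i + (q + 1) * h = i + q * h + h by ring]
      omega
  have h1 : ∀ i ∈ E, p ≤ 2 * ((range p).filter fun j =>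
      p * (b (i + j * h + h) - b (i + j * h)) ≤ 2 * y).card := by
    intro i hi
    have h2 := card_filter_add_card_filter_not (s := range p)
      (fun j => p * (b (i + j * h + h) - b (i + j * h)) ≤ 2 * y)
    rw [card_range] at h2
    set Bd := (range p).filter fun j => ¬ p * (b (i + j * h + h) - b (i + j * h)) ≤ 2 * y
    have h3 := Finset.card_nsmul_le_sum Bd (fun j => p * (b (i + j * h + h) - b (i + j * h)))
      (2 * y + 1) (fun j hj => by have := (mem_filter.1 hj).2; omega)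
    have h4 : ∑ j ∈ Bd, p * (b (i + j * h + h) - b (i + j * h)) ≤ p * y := by
      refine (sum_le_sum_of_subset (filter_subset _ _)).trans ?_
      rw [← mul_sum, tel]
      exact Nat.mul_le_mul_left _ (hE i hi)
    rw [smul_eq_mul] at h3
    have h5 : 2 * Bd.card ≤ p := by
      by_contra h5
      nlinarith
    omega
  have h2 : ((E ×ˢ range p).filter fun x : ℕ × ℕ =>
      p * (b (x.1 + x.2 * h + h) - b (x.1 + x.2 * h)) ≤ 2 * y).card ≤
      (((range (E.sup id + p * h + 1)).filter fun i => p * (b (i + h) - b i) ≤ 2 * y) ×ˢ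
        range p).card := by
    apply card_le_card_of_injOn (fun x => (x.1 + x.2 * h, x.2))
    · intro x hx
      obtain ⟨hx1, hx2⟩ := mem_filter.1 (mem_coe.1 hx)
      obtain ⟨hx3, hx4⟩ := mem_product.1 hx1
      refine mem_coe.2 (mem_product.2 ⟨mem_filter.2 ⟨mem_range.2 ?_, hx2⟩, hx4⟩)
      have h5 := le_sup (f := id) hx3
      have h6 : x.2 * h ≤ p * h := Nat.mul_le_mul_right _ (mem_range.1 hx4).le
      simp only [id] at h5 ⊢
      omega
    · intro x _ x' _ he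
      simp only [Prod.mk.injEq] at he
      obtain ⟨h5, h6⟩ := he
      rw [h6] at h5
      exact Prod.ext (by omega) h6
  rw [card_product, card_range, card_filter, sum_product] at h2
  have h3 : E.card * p ≤ 2 * ∑ i ∈ E, ∑ j ∈ range p,
      if p * (b (i + j * h + h) - b (i + j * h)) ≤ 2 * y then 1 else 0 := by
    rw [mul_sum]
    have := Finset.card_nsmul_le_sum E (fun i => 2 * ∑ j ∈ range p,
      if p * (b (i + j * h + h) - b (i + j * h)) ≤ 2 * y then 1 else 0) p (fun i hi => by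
        have := h1 i hi
        rwa [card_filter] at this)
    rwa [smul_eq_mul] at this
  by_contra hc
  nlinarith

lemma greedy (E U : Finset ℕ) (h M : ℕ) (hh : 0 < h) (hM : 2 * U.card + 2 * M ≤ E.card) :
    ∃ P ⊆ E, P.card = M ∧ (∀ i ∈ P, i + h ∉ P) ∧ Disjoint U (P ∪ P.image (· + h)) := by
  classical
  set E1 := E.filter fun i => i ∉ U ∧ i + h ∉ U
  have h1 : E ⊆ E1 ∪ (U ∪ U.image (· - h)) := by
    intro i hi
    by_cases h2 : i ∈ U
    · simp [h2]
    by_cases h3 : i + h ∈ U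
    · exact mem_union_right _ (mem_union_right _ (mem_image.2 ⟨_, h3, by simp⟩))
    · exact mem_union_left _ (mem_filter.2 ⟨hi, h2, h3⟩)
  have h2 := (card_le_card h1).trans (card_union_le _ _)
  have h3 := card_union_le U (U.image (· - h))
  have h4 := card_image_le (s := U) (f := (· - h))
  obtain ⟨e, -, he⟩ := Finset.exists_le_card_fiber_of_mul_le_card_of_maps_to
    (s := E1) (t := range 2) (f := fun i => i / h % 2) (n := M)
    (fun i _ => mem_range.2 (Nat.mod_lt _ (by norm_num))) ⟨0, by simp⟩ (by rw [card_range]; omega)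
  obtain ⟨P, hP, hc⟩ := Finset.exists_subset_card_eq he
  refine ⟨P, fun i hi => (mem_filter.1 (mem_filter.1 (hP hi)).1).1, hc, fun i hi hi' => ?_, ?_⟩
  · have a1 := (mem_filter.1 (hP hi)).2
    have a2 := (mem_filter.1 (hP hi')).2
    rw [Nat.add_div_right _ hh] at a2
    omega
  · rw [Finset.disjoint_right]
    intro x hx
    rcases mem_union.1 hx with hx | hx
    · exact (mem_filter.1 (mem_filter.1 (hP hx)).1).2.1
    · obtain ⟨i, hi, rfl⟩ := mem_image.1 hx
      exact (mem_filter.1 (mem_filter.1 (hP hi)).1).2.2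

/-- one family of switches -/
lemma family (b : ℕ → ℕ) (hm : StrictMono b) (E U : Finset ℕ) (h M k : ℕ) (hh : 0 < h)
    (hM : 2 * U.card + 2 * M ≤ E.card)
    (hE : ∀ i ∈ E, 2 ^ k ≤ b (i + h) - b i ∧ b (i + h) - b i < 2 ^ (k + 1)) :
    ∃ V : Finset ℕ, V.card ≤ 2 * M ∧ Disjoint U V ∧ Den b V (2 * 2 ^ k) (M * 2 ^ k) := by
  classical
  obtain ⟨P, h1, h2, h3, h4⟩ := greedy E U h M hh hM
  refine ⟨P ∪ P.image (· + h), ?_, h4, ?_⟩
  · have := card_union_le P (P.image (· + h))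
    have := card_image_le (s := P) (f := (· + h))
    omega
  · rw [coe_union, ← h2]
    refine den_switch b P h _ _ h3 (by positivity) (by positivity) fun i hi => ?_
    obtain ⟨a1, a2⟩ := hE i (h1 hi)
    have a3 := hm.monotone (show i ≤ i + h by omega)
    have a4 : b i + 2 ^ k ≤ b (i + h) := by omega
    have a5 : b (i + h) ≤ b i + 2 * 2 ^ k := by rw [pow_succ] at a2; omega
    exact ⟨by exact_mod_cast a4, by exact_mod_cast a5⟩

lemma three (b : ℕ → ℕ) (hm : StrictMono b) (h J M : ℕ) (G : ℝ) (h8 : 8 ≤ h) (hJ : G < 2 ^ J)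
    (hM : 80 * J ^ 3 * M ≤ h * h) (hM0 : 0 < M)
    (hs : ∑ i ∈ range (h * h), ((b (i + h * h) : ℝ) - b i) < G) :
    ∃ V0 V1 V2 : Finset ℕ, ∃ u0 u1 u2 : ℝ, Disjoint V0 V1 ∧ Disjoint (V0 ∪ V1) V2 ∧ 1 ≤ u0 ∧
      h * u0 ≤ 4 * u1 ∧ h * u1 ≤ 4 * u2 ∧ h * h * u2 ≤ 2 * G ∧
      Den b V0 (2 * u0) (M * u0) ∧ Den b V1 (2 * u1) (M * u1) ∧ Den b V2 (2 * u2) (M * u2) := by
  classical
  have hpos : ∀ i l, 0 < l → 1 ≤ b (i + l) - b i := fun i l hl => by
    have := hm (show i < i + l by omega); omega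
  have hcast : ∀ i l, ((b (i + l) - b i : ℕ) : ℝ) = b (i + l) - b i := fun i l =>
    Nat.cast_sub (hm.monotone (by omega))
  have hh0 : 0 < h * h := by positivity
  have hhr : (8 : ℝ) ≤ h := by exact_mod_cast h8
  set E2 := (range (h * h)).filter fun i => h * h * ((b (i + h * h) : ℝ) - b i) ≤ 2 * G
  have hE2 : h * h ≤ 2 * E2.card := by
    have h2 := card_filter_add_card_filter_not (s := range (h * h))
      (fun i => h * h * ((b (i + h * h) : ℝ) - b i) ≤ 2 * G)
    rw [card_range] at h2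
    set Bd := (range (h * h)).filter fun i => ¬ h * h * ((b (i + h * h) : ℝ) - b i) ≤ 2 * G
    replace h2 : E2.card + Bd.card = h * h := by convert h2
    have h3 := Finset.card_nsmul_le_sum Bd (fun i => h * h * ((b (i + h * h) : ℝ) - b i))
      (2 * G) (fun j hj => by have := (mem_filter.1 hj).2; linarith)
    have hnn : ∀ i ∈ range (h * h), (0 : ℝ) ≤ (b (i + h * h) : ℝ) - b i := fun i _ => by
      rw [← hcast]; positivity
    have h4 : ∑ i ∈ Bd, h * h * ((b (i + h * h) : ℝ) - b i) ≤ h * h * G := by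
      refine (sum_le_sum_of_subset_of_nonneg (filter_subset _ _)
        (fun i hi _ => mul_nonneg (by positivity) (hnn i hi))).trans ?_
      rw [← mul_sum]
      exact mul_le_mul_of_nonneg_left hs.le (by positivity)
    rw [nsmul_eq_mul] at h3
    have hG : 0 < G := lt_of_le_of_lt (sum_nonneg hnn) hs
    have h5 : (2 * Bd.card : ℝ) ≤ h * h := by
      by_contra h5
      nlinarith
    have h6 : 2 * Bd.card ≤ h * h := by exact_mod_cast h5
    omega
  have hE2' : ∀ i ∈ E2, 1 ≤ b (i + h * h) - b i ∧ b (i + h * h) - b i < 2 ^ J := by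
    intro i hi
    refine ⟨hpos _ _ hh0, ?_⟩
    have h1 := (mem_filter.1 hi).2
    have h2 : ((b (i + h * h) - b i : ℕ) : ℝ) < 2 ^ J := by
      rw [← hcast] at h1
      have h3 : (0 : ℝ) ≤ ((b (i + h * h) - b i : ℕ) : ℝ) := Nat.cast_nonneg _
      have h4 : (2 : ℝ) ≤ h * h := by nlinarith
      have h5 := mul_le_mul_of_nonneg_right h4 h3
      linarith
    exact_mod_cast h2
  have hJ0 : 0 < J := by
    obtain ⟨i, hi⟩ : E2.Nonempty := card_pos.1 (by omega)
    rcases Nat.eq_zero_or_pos J with h0 | h0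
    · have := hE2' i hi
      rw [h0] at this
      omega
    · exact h0
  obtain ⟨k2, F2, hF2, c2, d2⟩ := cell E2 (fun i => b (i + h * h) - b i) J (40 * J ^ 2 * M) hJ0
    hE2' (by nlinarith)
  have hJM : 0 < J ^ 2 * M := by positivity
  have hJ2 : J * M ≤ J ^ 2 * M := Nat.mul_le_mul_right _ (by nlinarith)
  have hJ1 : M ≤ J * M := Nat.le_mul_of_pos_left _ hJ0
  obtain ⟨i2, hi2⟩ : F2.Nonempty := card_pos.1 (by nlinarith)
  have hk2 : 2 ^ (k2 + 1) ≤ 2 ^ J := by
    apply Nat.pow_le_pow_right (by norm_num)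
    have := (d2 i2 hi2).1.trans_lt (hE2' i2 (hF2 hi2)).2
    exact (Nat.pow_lt_pow_iff_right (by norm_num)).1 this
  obtain ⟨E1, c1', d1'⟩ := down b hm.monotone h h (2 ^ (k2 + 1)) (by omega) F2
    (fun i hi => (d2 i hi).2.le)
  have hE1' : ∀ i ∈ E1, 1 ≤ b (i + h) - b i ∧ b (i + h) - b i < 2 ^ J := by
    intro i hi
    refine ⟨hpos _ _ (by omega), ?_⟩
    have := d1' i hi
    have : 0 < 2 ^ J := by positivity
    nlinarith
  obtain ⟨k1, F1, hF1, c1, d1⟩ := cell E1 (fun i => b (i + h) - b i) J (20 * J * M) hJ0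
    hE1' (by nlinarith)
  obtain ⟨i1, hi1⟩ : F1.Nonempty := card_pos.1 (by nlinarith)
  have hk1 : 2 ^ (k1 + 1) ≤ 2 ^ J := by
    apply Nat.pow_le_pow_right (by norm_num)
    have := (d1 i1 hi1).1.trans_lt (hE1' i1 (hF1 hi1)).2
    exact (Nat.pow_lt_pow_iff_right (by norm_num)).1 this
  obtain ⟨E0, c0', d0'⟩ := down b hm.monotone 1 h (2 ^ (k1 + 1)) (by omega) F1
    (fun i hi => by rw [mul_one]; exact (d1 i hi).2.le)
  have hE0' : ∀ i ∈ E0, 1 ≤ b (i + 1) - b i ∧ b (i + 1) - b i < 2 ^ J := by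
    intro i hi
    refine ⟨hpos _ _ (by omega), ?_⟩
    have := d0' i hi
    have : 0 < 2 ^ J := by positivity
    nlinarith
  obtain ⟨k0, F0, hF0, c0, d0⟩ := cell E0 (fun i => b (i + 1) - b i) J (10 * M) hJ0
    hE0' (by nlinarith)
  obtain ⟨i0, hi0⟩ : F0.Nonempty := card_pos.1 (by omega)
  obtain ⟨V0, v0, -, w0⟩ := family b hm F0 ∅ 1 M k0 one_pos (by simp; omega) d0
  obtain ⟨V1, v1, x1, w1⟩ := family b hm F1 V0 h M k1 (by omega) (by nlinarith) d1
  obtain ⟨V2, v2, x2, w2⟩ := family b hm F2 (V0 ∪ V1) (h * h) M k2 hh0 (by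
    have := card_union_le V0 V1
    nlinarith) d2
  refine ⟨V0, V1, V2, 2 ^ k0, 2 ^ k1, 2 ^ k2, x1, x2, one_le_pow₀ (by norm_num), ?_, ?_, ?_,
    w0, w1, w2⟩
  · have a1 := d0' i0 (hF0 hi0)
    have a2 := Nat.mul_le_mul_left h (d0 i0 hi0).1
    have a3 : h * 2 ^ k0 ≤ 4 * 2 ^ k1 := by rw [pow_succ] at a1; omega
    exact_mod_cast a3
  · have a1 := d1' i1 (hF1 hi1)
    have a2 := Nat.mul_le_mul_left h (d1 i1 hi1).1
    have a3 : h * 2 ^ k1 ≤ 4 * 2 ^ k2 := by rw [pow_succ] at a1; omega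
    exact_mod_cast a3
  · have a1 := (mem_filter.1 (hF2 hi2)).2
    have a2 : ((2 ^ k2 : ℕ) : ℝ) ≤ ((b (i2 + h * h) - b i2 : ℕ) : ℝ) := by
      exact_mod_cast (d2 i2 hi2).1
    rw [hcast] at a2
    push_cast at a2
    nlinarith

end Pool.Agent.H18.Adm
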