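import Pool.Agent.H18.Adm2

set_option autoImplicit false

namespace Pool.Agent.H18.Adm

open Finset

variable {c C : ℝ} {a : ℕ → ℕ}

lemma core (H : Hyp c C a) (hc : 0 ≤ c) (n : ℝ → ℝ)
    (hn : ∀ y, 1 ≤ y → 0 < n y ∧ Cnt (fun i => a (3 * i + 0)) Set.univ y (n y))
    (h J M : ℕ) (G Y : ℝ) (h8 : 8 ≤ h) (hJ : G < 2 ^ J) (hM : 80 * J ^ 3 * M ≤ h * h)
    (hM2 : h ≤ 4 * M) (hY : Y = 3 * 6 ^ c * C * (2 * (h * h)) ^ c) (hYG : 2 * Y ≤ G) :
    Cnt a Set.univ G (n Y * G / (4 * Y)) ∨ ∃ u, 1 ≤ u ∧
      ((Cnt a Set.univ G (n (2 * u) * (h * h * M) / 1024) ∧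
        M * (h * h) * u / 8 ≤ 3 * 6 ^ c * C * (384 * u / n (2 * u)) ^ (c + 2)) ∨
      (Cnt a Set.univ G (n (2 * u) * (M * M * h) / 256) ∧
        2 * M * u ≤ 3 * 6 ^ c * C * (24 * u / n (2 * u)) ^ (c + 2))) := by
  classical
  have hb := H.sub hc 1 (by norm_num)
  have hC := hb.one_le
  have hhr : (8 : ℝ) ≤ h := by exact_mod_cast h8
  have hY1 : 1 ≤ Y := by
    have : (1 : ℝ) ≤ (2 * (h * h)) ^ c := Real.one_le_rpow (by nlinarith) hc
    rw [hY]; nlinarith
  have i0 : Function.Injective fun i => 3 * i + 0 := fun x y h => by simp only at h; omega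
  have i1 : Function.Injective fun i => 3 * i + 1 := fun x y h => by simp only at h; omega
  have d01 : ∀ V : Set ℕ, Disjoint ((fun i => 3 * i + 0) '' Set.univ) ((fun i => 3 * i + 1) '' V) := by
    intro V
    rw [Set.disjoint_left]
    rintro x ⟨i, -, rfl⟩ ⟨j, -, hj⟩
    simp only at hj; omega
  have d02 : Disjoint ((fun i => 3 * i + 0) '' Set.univ) ((fun i => 3 * i + 2) '' Set.univ) := by
    rw [Set.disjoint_left]
    rintro x ⟨i, -, rfl⟩ ⟨j, -, hj⟩
    simp only at hj; omega
  have d12 : ∀ V : Set ℕ, Disjoint ((fun i => 3 * i + 1) '' V) ((fun i => 3 * i + 2) '' Set.univ) := by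
    intro V
    rw [Set.disjoint_left]
    rintro x ⟨i, -, rfl⟩ ⟨j, -, hj⟩
    simp only at hj; omega
  have d11 : ∀ V W : Finset ℕ, Disjoint V W →
      Disjoint ((fun i => 3 * i + 1) '' (V : Set ℕ)) ((fun i => 3 * i + 1) '' (W : Set ℕ)) :=
    fun V W hd => Set.disjoint_image_of_injective i1 (Finset.disjoint_coe.2 hd)
  by_cases hs : ∑ i ∈ range (h * h), ((a (3 * (i + h * h) + 1) : ℝ) - a (3 * i + 1)) < G
  swap
  · left
    have h1 := (den_chain (fun i => a (3 * i + 1)) hb.mono (h * h) Y (fun i hi => by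
      refine (hb.gap i).trans ?_
      have h2 : ((i : ℝ) + 1) ^ c ≤ (2 * (h * h)) ^ c := by
        apply Real.rpow_le_rpow (by positivity) _ hc
        exact_mod_cast hi.le
      have := mul_le_mul_of_nonneg_left h2 (show (0 : ℝ) ≤ 3 * 6 ^ c * C by linarith)
      rw [hY]; linarith)).map i1
    have h2 := Cnt.ext (d01 _) (z := G / 2) (by linarith) (hn Y hY1).1.le ((hn Y hY1).2.map i0) h1
      (by linarith) (by linarith)
    refine h2.mono (Set.subset_univ _) (by linarith) (le_of_eq ?_)
    field_simp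
    ring
  right
  have hM0 : 0 < M := by omega
  have hMr : (h : ℝ) ≤ 4 * M := by exact_mod_cast hM2
  obtain ⟨V0, V1, V2, u0, u1, u2, e1, e2, r0, r1, r2, r3, w0, w1, w2⟩ :=
    three (fun i => a (3 * i + 1)) hb.mono h J M G h8 hJ hM hM0 hs
  have hJ1 : 1 ≤ J := by
    rcases Nat.eq_zero_or_pos J with h0 | h0
    · rw [h0] at hJ; simp only [pow_zero] at hJ; linarith
    · exact h0
  have hM3 : 80 * M ≤ h * h := by
    have : 1 ≤ J ^ 3 := Nat.one_le_pow _ _ hJ1
    nlinarith
  have hM3r : (80 : ℝ) * M ≤ h * h := by exact_mod_cast hM3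
  have s1 : 2 * u0 ≤ u1 := by nlinarith
  have s2 : 2 * u1 ≤ u2 := by nlinarith
  obtain ⟨hN, c0⟩ := hn (2 * u0) (by linarith)
  set N := n (2 * u0)
  have c0 := c0.map i0
  have hM2' : (2 : ℝ) ≤ M := by linarith
  have c1 := (Cnt.ext (d01 _) (z := min u1 (M * u0)) (by linarith) hN.le c0 (w0.map i1)
    (le_min s1 (by nlinarith)) (min_le_right _ _)).mono subset_rfl
    (show _ ≤ 2 * u1 by linarith [min_le_left u1 (M * u0)]) le_rfl
  have p1 : 0 < min u1 (M * u0) := lt_min (by linarith) (by nlinarith)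
  have p2 : 0 < min u2 (M * u1) := lt_min (by linarith) (by nlinarith)
  have c2 := (Cnt.ext (Set.disjoint_union_left.2 ⟨d01 _, d11 _ _ e1⟩) (z := min u2 (M * u1))
    (by linarith) (by positivity) c1 (w1.map i1)
    (le_min s2 (by nlinarith)) (min_le_right _ _)).mono subset_rfl
    (show _ ≤ 2 * u2 by linarith [min_le_left u2 (M * u1)]) le_rfl
  have hu1 : 0 < u1 := by linarith
  have hu2 : 0 < u2 := by linarith
  have hu0 : 0 < u0 := by linarith
  have c3 := Cnt.ext (Set.disjoint_union_left.2 ⟨Set.disjoint_union_left.2 ⟨d01 _,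
      d11 _ _ (Finset.disjoint_union_left.1 e2).1⟩, d11 _ _ (Finset.disjoint_union_left.1 e2).2⟩)
    (z := M * u2) (by linarith) (by positivity) c2 (w2.map i1) (by nlinarith) le_rfl
  have hG : 2 * (M * u2) ≤ G := by nlinarith
  refine ⟨u0, r0, ?_⟩
  by_cases hcont : u1 ≤ M * u0 ∧ u2 ≤ M * u1
  · left
    rw [min_eq_left hcont.1, min_eq_left hcont.2] at c3
    have r4 : h * h * u0 ≤ 16 * u2 := by nlinarith
    have e3 : N * u1 / (2 * (2 * u0)) * u2 / (2 * (2 * u1)) * (M * u2) / (2 * (2 * u2)) =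
        2 * (M * u2) / (128 * u0 / N) := by field_simp; ring
    constructor
    · refine c3.mono (Set.subset_univ _) hG ?_
      rw [e3, div_div_eq_mul_div, div_le_div_iff₀ (by norm_num) (by positivity)]
      have : 0 ≤ N * M := by positivity
      nlinarith
    · rw [e3] at c3
      have := H.F2 hc (Set.disjoint_union_left.2 ⟨Set.disjoint_union_left.2
        ⟨Set.disjoint_union_left.2 ⟨d02, d12 _⟩, d12 _⟩, d12 _⟩) (by nlinarith) (by positivity) c3
      rw [show 3 * (128 * u0 / N) = 384 * u0 / N by ring] at this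
      refine le_trans ?_ this
      nlinarith
  · right
    constructor
    · refine c3.mono (Set.subset_univ _) hG ?_
      have e3 : N * min u1 (M * u0) / (2 * (2 * u0)) * min u2 (M * u1) / (2 * (2 * u1)) *
          (M * u2) / (2 * (2 * u2)) = N * ((min u1 (M * u0) / u0) * (min u2 (M * u1) / u1) * M) / 64 := by
        field_simp; ring
      rw [e3]
      have q1 : (h : ℝ) / 4 ≤ min u1 (M * u0) / u0 := by
        rw [le_div_iff₀ hu0]; exact le_min (by linarith) (by nlinarith)
      have q2 : (h : ℝ) / 4 ≤ min u2 (M * u1) / u1 := by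
        rw [le_div_iff₀ hu1]; exact le_min (by linarith) (by nlinarith)
      have q3 : M * (h / 4) ≤ (min u1 (M * u0) / u0) * (min u2 (M * u1) / u1) := by
        rcases not_and_or.1 hcont with q | q
        · rw [min_eq_right (not_le.1 q).le, mul_div_cancel_right₀ _ hu0.ne']
          exact mul_le_mul_of_nonneg_left q2 (by linarith)
        · rw [min_eq_right (not_le.1 q).le, mul_div_cancel_right₀ _ hu1.ne', mul_comm]
          exact mul_le_mul_of_nonneg_right q1 (by linarith)
      have := mul_le_mul_of_nonneg_left q3 (show 0 ≤ N * M by positivity)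
      linarith
    · have c4 := Cnt.ext (d01 _) (z := M * u0) (by linarith) hN.le c0 (w0.map i1)
        (by nlinarith) le_rfl
      have e3 : N * (M * u0) / (2 * (2 * u0)) = 2 * (M * u0) / (8 * u0 / N) := by
        field_simp; ring
      rw [e3] at c4
      have := H.F2 hc (Set.disjoint_union_left.2 ⟨d02, d12 _⟩) (by nlinarith) (by positivity) c4
      rw [show 3 * (8 * u0 / N) = 24 * u0 / N by ring] at this
      linarith

lemma ev (K δ : ℝ) (hδ : 0 < δ) : ∃ g0 : ℝ, ∀ g, g0 ≤ g → 1 ≤ g ∧ K + 3 * Real.log g ≤ δ * g := by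
  obtain ⟨g1, h1⟩ := Filter.eventually_atTop.1
    (Real.isLittleO_log_id_atTop.bound (show 0 < δ / 6 by positivity))
  refine ⟨max (max g1 1) (2 * K / δ), fun g hg => ?_⟩
  have a1 : g1 ≤ g := le_trans (le_trans (le_max_left _ _) (le_max_left _ _)) hg
  have a2 : 1 ≤ g := le_trans (le_trans (le_max_right _ _) (le_max_left _ _)) hg
  have a3 : 2 * K / δ ≤ g := le_trans (le_max_right _ _) hg
  have a4 := h1 g a1
  simp only [Real.norm_eq_abs, id] at a4
  rw [abs_of_nonneg (show 0 ≤ g by linarith)] at a4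
  rw [div_le_iff₀ hδ] at a3
  refine ⟨a2, ?_⟩
  linarith [le_abs_self (Real.log g)]

lemma rpow_le_of_log {G N t : ℝ} (hG : 0 < G) (hN : 0 < N) (h : t * Real.log G ≤ Real.log N) :
    G ^ t ≤ N := by
  rw [Real.rpow_def_of_pos hG, mul_comm]
  exact (Real.le_log_iff_exp_le hN).1 h

lemma num {θ θ' D x V W g p q : ℝ} (hθ : 0 ≤ θ) (hD : 0 ≤ D) (hg : 0 < g) (h1 : V ≤ D * x)
    (hV : p * g ≤ V) (hW : q * g ≤ W) (h : θ' * D < θ * p + D * q) : θ' * g ≤ θ * x + W := by
  by_contra hc
  push Not at hc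
  have a1 := mul_le_mul_of_nonneg_left hc.le hD
  have a2 := mul_le_mul_of_nonneg_left (hV.trans h1) hθ
  have a3 := mul_le_mul_of_nonneg_left hW hD
  have a4 := mul_lt_mul_of_pos_right h hg
  nlinarith

/-- the counting exponent `θ` is achieved at every scale -/
def HH (c θ : ℝ) : Prop := ∀ C a, Hyp c C a → ∃ κ : ℝ, 0 < κ ∧ ∀ y : ℝ, 1 ≤ y →
  Cnt a Set.univ y (κ * y ^ θ)

lemma step {θ θ' e δ σ : ℝ} (hc : 1 ≤ c) (hθ : 0 ≤ θ) (hθ' : 0 ≤ θ')
    (hD : 0 ≤ (c + 2) * (1 - θ) - 1) (hδ : 0 < δ) (hδe : δ ≤ e) (hσ : c * σ = 1 - e)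
    (hδσ : 2 * δ ≤ σ) (hA : θ' + δ ≤ θ + e * (1 - θ))
    (hB1 : θ' * ((c + 2) * (1 - θ) - 1) <
      θ * (2 * σ - 3 * δ) + ((c + 2) * (1 - θ) - 1) * (2 * σ - 3 * δ))
    (hB2 : θ' * ((c + 2) * (1 - θ) - 1) <
      θ * (σ - 2 * δ) + ((c + 2) * (1 - θ) - 1) * (5 / 2 * σ - 4 * δ))
    (H : HH c θ) : HH c θ' := by
  intro C a Ha
  have hc0 : 0 ≤ c := by linarith
  have hθ1 : θ ≤ 1 := by nlinarith
  obtain ⟨κ, hκ, hn⟩ := H _ _ (Ha.sub hc0 0 (by norm_num))
  have hC1 := (Ha.sub hc0 0 (by norm_num)).one_le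
  obtain ⟨C1, hC1def⟩ : ∃ C1, C1 = 3 * 6 ^ c * C := ⟨_, rfl⟩
  rw [← hC1def] at hC1
  have lC : 0 ≤ Real.log C1 := Real.log_nonneg hC1
  obtain ⟨g0, hg0⟩ := ev ((c + 3) * (|Real.log κ| + 2000) + Real.log C1) δ hδ
  suffices key : ∀ G : ℝ, Real.exp g0 ≤ G → Cnt a Set.univ G (G ^ θ') by
    refine ⟨min 1 (Real.exp g0 ^ θ')⁻¹, lt_min one_pos (by positivity), fun y hy => ?_⟩
    have hy' : 0 ≤ y ^ θ' := by positivity
    by_cases hG : Real.exp g0 ≤ y
    · refine (key y hG).mono subset_rfl le_rfl ?_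
      nlinarith [min_le_left 1 (Real.exp g0 ^ θ')⁻¹]
    · refine Cnt.one _ _ (by linarith) ?_
      have h1 : y ^ θ' ≤ Real.exp g0 ^ θ' := Real.rpow_le_rpow (by linarith) (not_le.1 hG).le hθ'
      have h2 : 0 < Real.exp g0 ^ θ' := by positivity
      calc _ ≤ (Real.exp g0 ^ θ')⁻¹ * Real.exp g0 ^ θ' :=
            mul_le_mul (min_le_right _ _) h1 hy' (by positivity)
        _ = 1 := inv_mul_cancel₀ h2.ne'
  intro G hG
  have hG0 : 0 < G := lt_of_lt_of_le (Real.exp_pos _) hG
  obtain ⟨hg1, hK⟩ := hg0 (Real.log G) ((Real.le_log_iff_exp_le hG0).2 hG)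
  set g := Real.log G with hg
  have hG1 : 1 ≤ G := by
    by_contra hh
    have := Real.log_neg hG0 (not_le.1 hh)
    linarith
  have lg : 0 ≤ Real.log g := Real.log_nonneg hg1
  have lk1 := le_abs_self (Real.log κ)
  have lk2 := neg_abs_le (Real.log κ)
  have lk0 := abs_nonneg (Real.log κ)
  have hlog : ∀ x : ℝ, 1 ≤ x → 0 ≤ Real.log x ∧ Real.log x ≤ x := fun x hx =>
    ⟨Real.log_nonneg hx, by linarith [Real.log_le_sub_one_of_pos (show 0 < x by linarith)]⟩
  obtain ⟨l2a, l2b⟩ := hlog 2 (by norm_num)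
  have hcK : c * (|Real.log κ| + 2000) + 3 * |Real.log κ| + 6000 + Real.log C1 +
    3 * Real.log g ≤ δ * g := by linarith
  have hcK0 : 0 ≤ c * |Real.log κ| := by positivity
  have hσg : 2 * (δ * g) ≤ σ * g := by nlinarith
  set h := ⌊G ^ (σ / 2)⌋₊ with hh
  have hx1 : 1 ≤ G ^ (σ / 2) := Real.one_le_rpow hG1 (by linarith)
  have hh1 : 1 ≤ h := Nat.le_floor (by exact_mod_cast hx1)
  have hhr : (1 : ℝ) ≤ h := by exact_mod_cast hh1
  have lh1 : Real.log h ≤ σ / 2 * g := by
    rw [hg, ← Real.log_rpow hG0]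
    exact Real.log_le_log (by linarith) (Nat.floor_le (by linarith))
  have lh2 : σ / 2 * g ≤ Real.log 2 + Real.log h := by
    rw [hg, ← Real.log_rpow hG0, ← Real.log_mul (by norm_num) (by linarith)]
    apply Real.log_le_log (by linarith)
    have := Nat.lt_floor_add_one (G ^ (σ / 2))
    linarith
  set J := ⌊2 * g⌋₊ + 1 with hJ
  have hJ1 : (J : ℝ) ≤ 3 * g := by
    have := Nat.floor_le (show 0 ≤ 2 * g by linarith)
    rw [hJ]; push_cast; linarith
  have hJ0 : (1 : ℝ) ≤ J := by rw [hJ]; push_cast; linarith [Nat.cast_nonneg (α := ℝ) ⌊2 * g⌋₊]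
  have hJ2 : G < 2 ^ J := by
    have h1 : 2 * g < J := by rw [hJ]; push_cast; exact Nat.lt_floor_add_one _
    rw [← Real.log_lt_log_iff hG0 (by positivity), Real.log_pow]
    have := Real.log_two_gt_d9
    nlinarith
  have lJ : Real.log J ≤ 3 + Real.log g := by
    have := Real.log_le_log (by linarith) hJ1
    rw [Real.log_mul (by norm_num) (by linarith)] at this
    linarith [(hlog 3 (by norm_num)).2]
  have h40 : 40 * J ^ 3 ≤ h := by
    have : (40 : ℝ) * J ^ 3 ≤ h := by
      rw [← Real.log_le_log_iff (by positivity) (by linarith),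
        Real.log_mul (by norm_num) (by positivity), Real.log_pow]
      push_cast
      linarith [(hlog 40 (by norm_num)).2]
    exact_mod_cast this
  have hJ3 : 1 ≤ J ^ 3 := Nat.one_le_pow _ _ (by omega)
  set M := h * h / (80 * J ^ 3) with hM
  have hM1 : 80 * J ^ 3 * M ≤ h * h := Nat.mul_div_le _ _
  have hM2 : h * h < 80 * J ^ 3 * (M + 1) := Nat.lt_mul_div_succ _ (by omega)
  have hM3 : h ≤ 4 * M := by
    have : 40 * J ^ 3 * h ≤ h * h := Nat.mul_le_mul_right _ h40
    have h2 : J ^ 3 * (40 * h) < J ^ 3 * (80 * (M + 1)) := by nlinarith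
    have := lt_of_mul_lt_mul_left h2 (Nat.zero_le _)
    omega
  have hM0 : (1 : ℝ) ≤ M := by
    have : 1 ≤ M := by omega
    exact_mod_cast this
  have lM : 2 * Real.log h ≤ 169 + 3 * Real.log g + Real.log M := by
    have h1 : h * h ≤ 160 * J ^ 3 * M := by
      have : 1 ≤ M := by omega
      nlinarith
    have h2 : (h : ℝ) * h ≤ 160 * J ^ 3 * M := by exact_mod_cast h1
    have h3 := Real.log_le_log (by positivity) h2
    rw [Real.log_mul (by positivity) (by positivity), Real.log_mul (by positivity) (by positivity),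
      Real.log_mul (by positivity) (by positivity), Real.log_pow] at h3
    push_cast at h3
    linarith [(hlog 160 (by norm_num)).2]
  obtain ⟨Y, hY⟩ : ∃ Y, Y = C1 * (2 * ((h : ℝ) * h)) ^ c := ⟨_, rfl⟩
  have hY0 : 0 < Y := by rw [hY]; positivity
  have lY : Real.log Y ≤ Real.log C1 + 2 * c + (1 - e) * g := by
    rw [hY, Real.log_mul (by positivity) (by positivity), Real.log_rpow (by positivity),
      Real.log_mul (by positivity) (by positivity), Real.log_mul (by positivity) (by positivity),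
      ← hσ]
    nlinarith
  have hYG : 2 * Y ≤ G := by
    rw [← Real.log_le_log_iff (by positivity) hG0, Real.log_mul (by positivity) (by positivity)]
    nlinarith
  have hcc : (c + 2) * (θ * Real.log 2) ≥ 0 := by positivity
  have ht2 : θ * Real.log 2 ≥ 0 := by positivity
  rcases core Ha hc0 (fun y => κ * y ^ θ) (fun y hy => ⟨by positivity, hn y hy⟩) h J M G Y
    (by omega) hJ2 hM1 hM3 (hC1def ▸ hY) hYG with k | ⟨u, hu, ⟨k1, k2⟩ | ⟨k1, k2⟩⟩
  · refine k.mono subset_rfl le_rfl (rpow_le_of_log hG0 (by positivity) ?_)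
    rw [Real.log_div (by positivity) (by positivity), Real.log_mul (by positivity) (by positivity),
      Real.log_mul (by positivity) (by positivity), Real.log_mul (by positivity) (by positivity),
      Real.log_rpow hY0, ← hg]
    have a1 := mul_le_mul_of_nonneg_left lY (show 0 ≤ 1 - θ by linarith)
    have a2 := mul_le_mul_of_nonneg_right hA (show 0 ≤ g by linarith)
    have a3 : (1 - θ) * (Real.log C1 + 2 * c) ≤ Real.log C1 + 2 * c := by nlinarith
    nlinarith [(hlog 4 (by norm_num)).2]
  · refine k1.mono subset_rfl le_rfl (rpow_le_of_log hG0 (by positivity) ?_)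
    rw [← hC1def] at k2
    have k3 := Real.log_le_log (by positivity) k2
    rw [Real.log_div (by positivity) (by positivity), Real.log_mul (by positivity) (by positivity),
      Real.log_mul (by positivity) (by positivity), Real.log_mul (by positivity) (by positivity),
      Real.log_mul (by positivity) (by positivity), Real.log_rpow (by positivity),
      Real.log_div (by positivity) (by positivity), Real.log_mul (by positivity) (by positivity),
      Real.log_mul (by positivity) (by positivity), Real.log_rpow (by positivity),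
      Real.log_mul (by positivity) (by positivity)] at k3
    rw [Real.log_div (by positivity) (by positivity), Real.log_mul (by positivity) (by positivity),
      Real.log_mul (by positivity) (by positivity), Real.log_rpow (by positivity),
      Real.log_mul (by positivity) (by positivity), Real.log_mul (by positivity) (by positivity),
      Real.log_mul (by positivity) (by positivity), ← hg]
    have b1 := hlog 384 (by norm_num)
    have b2 := hlog 8 (by norm_num)
    have b3 := hlog 1024 (by norm_num)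
    have b4 : c * Real.log 384 ≤ c * 384 := mul_le_mul_of_nonneg_left b1.2 hc0
    have b5 : c * (-|Real.log κ|) ≤ c * Real.log κ := mul_le_mul_of_nonneg_left lk2 hc0
    have := num (x := Real.log u) (V := (2 * σ - 3 * δ) * g)
      (W := Real.log κ + θ * Real.log 2 + 2 * Real.log h + Real.log M - Real.log 1024)
      hθ hD (show 0 < g by linarith) (by nlinarith) le_rfl (by nlinarith) hB1
    linarith
  · refine k1.mono subset_rfl le_rfl (rpow_le_of_log hG0 (by positivity) ?_)
    rw [← hC1def] at k2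
    have k3 := Real.log_le_log (by positivity) k2
    rw [Real.log_mul (by positivity) (by positivity),
      Real.log_mul (by positivity) (by positivity),
      Real.log_mul (by positivity) (by positivity), Real.log_rpow (by positivity),
      Real.log_div (by positivity) (by positivity), Real.log_mul (by positivity) (by positivity),
      Real.log_mul (by positivity) (by positivity), Real.log_rpow (by positivity),
      Real.log_mul (by positivity) (by positivity)] at k3
    rw [Real.log_div (by positivity) (by positivity), Real.log_mul (by positivity) (by positivity),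
      Real.log_mul (by positivity) (by positivity), Real.log_rpow (by positivity),
      Real.log_mul (by positivity) (by positivity), Real.log_mul (by positivity) (by positivity),
      Real.log_mul (by positivity) (by positivity), ← hg]
    have b1 := hlog 24 (by norm_num)
    have b3 := hlog 256 (by norm_num)
    have b4 : c * Real.log 24 ≤ c * 24 := mul_le_mul_of_nonneg_left b1.2 hc0
    have b5 : c * (-|Real.log κ|) ≤ c * Real.log κ := mul_le_mul_of_nonneg_left lk2 hc0
    have := num (x := Real.log u) (V := (σ - 2 * δ) * g)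
      (W := Real.log κ + θ * Real.log 2 + Real.log h + 2 * Real.log M - Real.log 256)
      hθ hD (show 0 < g by linarith) (by nlinarith) le_rfl (by nlinarith) hB2
    linarith

end Pool.Agent.H18.Adm
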