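import Pool.Agent.H18.Adm3

set_option autoImplicit false

namespace Pool.Agent.H18.Adm

open Finset

lemma fin_contra {c θ C : ℝ} {a : ℕ → ℕ} (hc : 0 ≤ c) (hD : (c + 2) * (1 - θ) - 1 < 0)
    (H : HH c θ) (Ha : Hyp c C a) : False := by
  obtain ⟨κ, hκ, hn⟩ := H _ _ (Ha.sub hc 0 (by norm_num))
  have hC1 := (Ha.sub hc 0 (by norm_num)).one_le
  have i0 : Function.Injective fun i => 3 * i + 0 := fun x y h => by simp only at h; omega
  have d02 : Disjoint ((fun i => 3 * i + 0) '' Set.univ) ((fun i => 3 * i + 2) '' Set.univ) := by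
    rw [Set.disjoint_left]
    rintro x ⟨i, -, rfl⟩ ⟨j, -, hj⟩
    simp only at hj; omega
  obtain ⟨C1, hC1def⟩ : ∃ C1, C1 = 3 * 6 ^ c * C := ⟨_, rfl⟩
  rw [← hC1def] at hC1
  obtain ⟨K, hK⟩ : ∃ K, K = Real.log C1 + (c + 2) * (Real.log 3 - Real.log κ) := ⟨_, rfl⟩
  obtain ⟨g, hg0, hg⟩ : ∃ g : ℝ, 0 ≤ g ∧ K < (1 - (c + 2) * (1 - θ)) * g := by
    refine ⟨|K| / (1 - (c + 2) * (1 - θ)) + 1, by
      have : 0 ≤ |K| / (1 - (c + 2) * (1 - θ)) := div_nonneg (abs_nonneg _) (by linarith)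
      linarith, ?_⟩
    rw [mul_add, mul_div_cancel₀ _ (by linarith)]
    linarith [le_abs_self K]
  have hy : 1 ≤ Real.exp g := Real.one_le_exp hg0
  have hy0 := Real.exp_pos g
  have h1 := (hn _ hy).map i0
  have e : κ * Real.exp g ^ θ = Real.exp g / (Real.exp g / (κ * Real.exp g ^ θ)) := by
    field_simp
  rw [e] at h1
  have h2 := Ha.F2 hc d02 hy (by positivity) h1
  rw [← hC1def] at h2
  have h3 := Real.log_le_log hy0 h2
  rw [Real.log_mul (by positivity) (by positivity), Real.log_rpow (by positivity),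
    Real.log_mul (by positivity) (by positivity), Real.log_div (by positivity) (by positivity),
    Real.log_mul (by positivity) (by positivity), Real.log_rpow (by positivity), Real.log_exp] at h3
  nlinarith

theorem no_hyp {c C : ℝ} {a : ℕ → ℕ} (h1 : 9 / 2 ≤ c) (h2 : c ^ 2 - 5 * c + 2 < 0)
    (Ha : Hyp c C a) : False := by
  have h3 : c < 4562 / 1000 := by nlinarith
  obtain ⟨m, hm⟩ : ∃ m, m = -(c ^ 2 - 5 * c + 2) := ⟨_, rfl⟩
  have hm0 : 0 < m := by linarith
  obtain ⟨e, he0, he1, he2⟩ : ∃ e : ℝ, 0 < e ∧ e ≤ m / 60 ∧ e ≤ 1 / 2000 :=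
    ⟨min (m / 60) (1 / 2000), lt_min (by positivity) (by norm_num), min_le_left _ _,
      min_le_right _ _⟩
  have hc0 : 0 < c := by linarith
  obtain ⟨σ, hσ⟩ : ∃ σ, c * σ = 1 - e := ⟨(1 - e) / c, by field_simp⟩
  have hR : 4 * c * (c + 2) / 100 ≤ 10 * c * (c + 1) * (c + 2) - (c ^ 2 + 7 / 2 * c + 4) ^ 2 := by
    obtain ⟨t, rfl⟩ : ∃ t, c = 9 / 2 + t := ⟨c - 9 / 2, by ring⟩
    have t0 : 0 ≤ t := by linarith
    have t1 : t ≤ 62 / 1000 := by linarith
    have t2 : t ^ 2 ≤ 62 / 1000 * t := by nlinarith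
    have t3 : t ^ 3 ≤ t ^ 2 := by nlinarith
    have t4 : t ^ 4 ≤ t ^ 2 := by nlinarith
    nlinarith
  have st : ∀ θ : ℝ, 0 ≤ θ → 0 ≤ (c + 2) * (1 - θ) - 1 → HH c θ → HH c (θ + e / 100) := by
    intro θ hθ hD H
    obtain ⟨D, hDd⟩ : ∃ D, D = (c + 2) * (1 - θ) - 1 := ⟨_, rfl⟩
    have hθ1 : 1 / 7 ≤ 1 - θ := by
      by_contra hh
      nlinarith
    have hD6 : θ + D ≤ 6 := by rw [hDd]; nlinarith
    have hD0 : 0 ≤ D := hDd ▸ hD
    have hcc : 0 < 4 * c * (c + 2) := by positivity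
    have q1 : m / 4 ≤ 2 * (θ + D) - c * θ * D := by
      have : 4 * c * (c + 2) * (2 * (θ + D) - c * θ * D - m / 4) =
          (2 * c * (c + 2) * θ - (c + 1) * (c + 2)) ^ 2 + (c + 2) * m := by
        rw [hDd, hm]; ring
      have h5 : 0 ≤ 4 * c * (c + 2) * (2 * (θ + D) - c * θ * D - m / 4) := by
        rw [this]; positivity
      have := nonneg_of_mul_nonneg_right h5 hcc
      linarith
    have q2 : 1 / 100 ≤ θ + 5 / 2 * D - c * θ * D := by
      have : 4 * c * (c + 2) * (θ + 5 / 2 * D - c * θ * D - 1 / 100) =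
          (2 * c * (c + 2) * θ - (c ^ 2 + 7 / 2 * c + 4)) ^ 2 +
          (10 * c * (c + 1) * (c + 2) - (c ^ 2 + 7 / 2 * c + 4) ^ 2 - 4 * c * (c + 2) / 100) := by
        rw [hDd]; ring
      have h5 : 0 ≤ 4 * c * (c + 2) * (θ + 5 / 2 * D - c * θ * D - 1 / 100) := by
        rw [this]
        have := sq_nonneg (2 * c * (c + 2) * θ - (c ^ 2 + 7 / 2 * c + 4))
        linarith
      have := nonneg_of_mul_nonneg_right h5 hcc
      linarith
    have a1 : e * θ ≥ 0 := by positivity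
    have a2 : e * D ≥ 0 := by positivity
    have a3 : e * (θ + D) ≤ e * 6 := mul_le_mul_of_nonneg_left hD6 he0.le
    have a4 : c * (e * θ) ≤ 5 * (e * θ) := mul_le_mul_of_nonneg_right (by linarith) a1
    have a5 : c * (e * D) ≤ 5 * (e * D) := mul_le_mul_of_nonneg_right (by linarith) a2
    refine step (e := e) (δ := e / 100) (σ := σ) (by linarith) hθ (by linarith) hD (by positivity)
      (by linarith) hσ ?_ (by nlinarith) ?_ ?_ H
    · by_contra hh
      nlinarith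
    · rw [← hDd]
      apply lt_of_mul_lt_mul_left _ hc0.le
      have : c * (θ * (2 * σ - 3 * (e / 100)) + D * (2 * σ - 3 * (e / 100))) =
          (θ + D) * (2 * (c * σ) - 3 * c * (e / 100)) := by ring
      rw [this, hσ]
      nlinarith
    · rw [← hDd]
      apply lt_of_mul_lt_mul_left _ hc0.le
      have : c * (θ * (σ - 2 * (e / 100)) + D * (5 / 2 * σ - 4 * (e / 100))) =
          θ * (c * σ - 2 * c * (e / 100)) + D * (5 / 2 * (c * σ) - 4 * c * (e / 100)) := by ring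
      rw [this, hσ]
      nlinarith
  have all : ∀ k : ℕ, HH c (k * (e / 100)) := by
    intro k
    induction k with
    | zero =>
      intro C a _
      exact ⟨1, one_pos, fun y hy => Cnt.one _ _ (by linarith) (by simp)⟩
    | succ k ih =>
      by_cases hD : 0 ≤ (c + 2) * (1 - k * (e / 100)) - 1
      · have := st _ (by positivity) hD ih
        push_cast
        rwa [add_mul, one_mul]
      · exact (fin_contra hc0.le (not_le.1 hD) ih Ha).elim
  obtain ⟨k, hk⟩ := exists_nat_gt (100 / e)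
  refine fin_contra hc0.le ?_ (all k) Ha
  rw [div_lt_iff₀ he0] at hk
  nlinarith

end Pool.Agent.H18.Adm
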