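import Mathlib

set_option autoImplicit false

namespace Pool.Agent.H18.Adm

open Finset

lemma params {c : ℝ} (hc : c ^ 2 - 5 * c + 2 = 0) (h1 : 9 / 2 ≤ c) (n τ : ℕ) (hn : 1 ≤ n)
    (hτ : (640 : ℝ) * τ ≤ (n : ℝ) ^ ((c + 1) / 2)) :
    ∃ X m : ℕ, n ≤ X ∧ (5 : ℝ) * X * τ ≤ (n : ℝ) ^ c ∧ 3 * X ≤ m ∧
      (m : ℝ) * m * (n : ℝ) ^ c ≤ X * X * (X : ℝ) ^ c / 4 ∧
      2560 * (X * (X : ℝ) ^ c) ≤ (m : ℝ) ^ ((c + 1) / 2) ∧ (τ : ℝ) ≤ X * (X : ℝ) ^ c := by
  have h2 : c ≤ 46 / 10 := by nlinarith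
  have hnr : (1 : ℝ) ≤ n := by exact_mod_cast hn
  have hv : (n : ℝ) ≤ (n : ℝ) ^ ((c - 1) / 2) := by
    conv_lhs => rw [← Real.rpow_one n]
    exact Real.rpow_le_rpow_of_exponent_le hnr (by linarith)
  obtain ⟨X, hX1, hX2⟩ : ∃ X : ℕ, (X : ℝ) ≤ 128 * (n : ℝ) ^ ((c - 1) / 2) ∧
      64 * (n : ℝ) ^ ((c - 1) / 2) ≤ X :=
    ⟨_, Nat.floor_le (by positivity), by
      have := Nat.lt_floor_add_one (128 * (n : ℝ) ^ ((c - 1) / 2))
      linarith⟩
  have hnX : (n : ℝ) ≤ X := by linarith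
  have hX0 : (1 : ℝ) ≤ X := by linarith
  have ht := Real.log_nonneg hnr
  have hx := Real.log_nonneg hX0
  have hl := Real.log_pos (show (1 : ℝ) < 2 by norm_num)
  have lx : 6 * Real.log 2 + (c - 1) / 2 * Real.log n ≤ Real.log X := by
    have := Real.log_le_log (by positivity) hX2
    rw [Real.log_mul (by positivity) (by positivity), Real.log_rpow (by positivity),
      show (64 : ℝ) = 2 ^ 6 by norm_num, Real.log_pow] at this
    push_cast at this
    linarith
  obtain ⟨w, hw0, hw⟩ : ∃ w : ℝ, 0 < w ∧ w * w * (n : ℝ) ^ c = X * X * (X : ℝ) ^ c / 4 := by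
    refine ⟨√(X * X * (X : ℝ) ^ c / 4 / (n : ℝ) ^ c), by positivity, ?_⟩
    rw [Real.mul_self_sqrt (by positivity)]
    field_simp
  have lw : 2 * Real.log w + c * Real.log n = (c + 2) * Real.log X - 2 * Real.log 2 := by
    have := congrArg Real.log hw
    rw [Real.log_mul (by positivity) (by positivity), Real.log_mul (by positivity) (by positivity),
      Real.log_rpow (by positivity), Real.log_div (by positivity) (by positivity),
      Real.log_mul (by positivity) (by positivity), Real.log_mul (by positivity) (by positivity),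
      Real.log_rpow (by positivity), show (4 : ℝ) = 2 ^ 2 by norm_num, Real.log_pow] at this
    push_cast at this
    linarith
  have key : 12 * Real.log 2 + (c + 1) * Real.log X ≤ (c + 1) / 2 * (Real.log w - Real.log 2) := by
    have hv0 : 0 < (c - 1) / 2 := by linarith
    apply le_of_mul_le_mul_left _ hv0
    have e : Real.log w = ((c + 2) * Real.log X - 2 * Real.log 2 - c * Real.log n) / 2 := by
      linarith
    rw [e]
    have a1 := mul_le_mul_of_nonneg_left lx (show 0 ≤ (c + 1) * c / 4 by positivity)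
    have a2 : (c + 1) * (c ^ 2 - 5 * c + 2) * Real.log X = 0 := by rw [hc]; ring
    have a3 : 0 ≤ ((c + 1) * (2 * c + 1) / 2 - 6 * (c - 1)) * Real.log 2 :=
      mul_nonneg (by nlinarith) hl.le
    nlinarith
  have lw2 : 2 * Real.log X + 3 * Real.log 2 ≤ Real.log w := by
    by_contra hh
    nlinarith
  have hw1 : 1 ≤ w := by
    by_contra hh
    have := Real.log_neg hw0 (not_le.1 hh)
    linarith
  have hm1 := Nat.floor_le hw0.le
  have hm2 : w ≤ 2 * ⌊w⌋₊ := by
    have := Nat.lt_floor_add_one w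
    have h3 : 1 ≤ ⌊w⌋₊ := Nat.le_floor (by exact_mod_cast hw1)
    have h4 : (1 : ℝ) ≤ ⌊w⌋₊ := by exact_mod_cast h3
    linarith
  have hm0 : (0 : ℝ) < ⌊w⌋₊ := by linarith
  have lm : Real.log w - Real.log 2 ≤ Real.log ⌊w⌋₊ := by
    have := Real.log_le_log hw0 hm2
    rw [Real.log_mul (by positivity) (by positivity)] at this
    linarith
  refine ⟨X, ⌊w⌋₊, by exact_mod_cast hnX, ?_, ?_, ?_, ?_, ?_⟩
  · have e : (n : ℝ) ^ c = (n : ℝ) ^ ((c - 1) / 2) * (n : ℝ) ^ ((c + 1) / 2) := by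
      rw [← Real.rpow_add (by positivity)]; ring_nf
    rw [e]
    have := mul_le_mul hX1 hτ (by positivity) (by positivity)
    linarith
  · have : (4 : ℝ) * X ≤ ⌊w⌋₊ := by
      rw [← Real.log_le_log_iff (by positivity) hm0, Real.log_mul (by positivity) (by positivity),
        show (4 : ℝ) = 2 ^ 2 by norm_num, Real.log_pow]
      push_cast
      linarith
    have h3 : 4 * X ≤ ⌊w⌋₊ := by exact_mod_cast this
    omega
  · rw [← hw]
    gcongr
  · have : 4096 * (X * (X : ℝ) ^ c) ≤ (⌊w⌋₊ : ℝ) ^ ((c + 1) / 2) := by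
      rw [← Real.log_le_log_iff (by positivity) (by positivity),
        Real.log_mul (by positivity) (by positivity), Real.log_mul (by positivity) (by positivity),
        Real.log_rpow (by positivity), Real.log_rpow hm0,
        show (4096 : ℝ) = 2 ^ 12 by norm_num, Real.log_pow]
      push_cast
      have := mul_le_mul_of_nonneg_left lm (show 0 ≤ (c + 1) / 2 by linarith)
      linarith
    have h3 : (0 : ℝ) ≤ X * (X : ℝ) ^ c := by positivity
    linarith
  · have a1 : (n : ℝ) ^ ((c + 1) / 2) ≤ (X : ℝ) ^ ((c + 1) / 2) :=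
      Real.rpow_le_rpow (by positivity) hnX (by linarith)
    have a2 : (X : ℝ) ^ ((c + 1) / 2) ≤ (X : ℝ) ^ c :=
      Real.rpow_le_rpow_of_exponent_le hX0 (by linarith)
    have a3 : (0 : ℝ) ≤ (X : ℝ) ^ c := by positivity
    have a4 : (0 : ℝ) ≤ τ := by positivity
    nlinarith

/-- total distance of the first `n` terms to term `n` -/
def EE (a : ℕ → ℕ) (n : ℕ) : ℕ := ∑ j ∈ range n, (a n - a j)

/-- a stage of the construction -/
structure St where
  a : ℕ → ℕ
  n : ℕ
  K : ℕ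
  d : ℕ

/-- invariant -/
def Inv (c : ℝ) (s : St) : Prop :=
  (∀ j < s.n, s.a j < s.a (j + 1)) ∧ EE s.a s.n < s.K * s.a s.n ∧
    (640 : ℝ) * s.a s.n ≤ (s.n : ℝ) ^ ((c + 1) / 2) ∧ 1 ≤ s.n ∧ s.d ≤ s.a s.n ∧ 0 < s.d ∧ s.K ≤ s.n

/-- consecutive stages -/
def Rel (c : ℝ) (s t : St) : Prop :=
  (∀ j ≤ s.n, t.a j = s.a j) ∧ s.n < t.n ∧ s.K < t.K ∧ s.d ∣ t.d ∧
    (∀ j, s.n ≤ j → j < t.n → t.d ∣ t.a (j + 1) - t.a j ∧
      (t.a (j + 1) : ℝ) ≤ t.a j + ((j : ℝ) + 1) ^ c) ∧ t.K * s.a s.n + EE s.a s.n ≤ t.d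

lemma next {c : ℝ} (hc : c ^ 2 - 5 * c + 2 = 0) (h1 : 9 / 2 ≤ c) (s : St) (h : Inv c s) :
    ∃ t, Inv c t ∧ Rel c s t := by
  obtain ⟨a, n, K, d⟩ := s
  obtain ⟨i1, i2, i3, i4, i5, i6, i7⟩ := h
  simp only at i1 i2 i3 i4 i5 i6 i7
  obtain ⟨X, m, p1, p2, p3, p4, p5, p6⟩ := params hc h1 n (a n) i4 i3
  obtain ⟨D, D1, D2, D3⟩ : ∃ D, d ∣ D ∧ 3 * X * a n + EE a n ≤ D ∧ D ≤ 5 * X * a n := by
    refine ⟨d * ((3 * X * a n + EE a n) / d + 1), Dvd.intro _ rfl,
      (Nat.lt_mul_div_succ _ i6).le, ?_⟩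
    have := Nat.mul_div_le (3 * X * a n + EE a n) d
    have h2 : K * a n ≤ X * a n := Nat.mul_le_mul_right _ (by omega)
    have h3 : a n ≤ X * a n := Nat.le_mul_of_pos_left _ (by omega)
    nlinarith
  have hD0 : 0 < D := by
    have : 0 < 3 * X * a n := by have : 0 < X := by omega
                                 have : 0 < a n := by omega
                                 positivity
    omega
  have hDr : (0 : ℝ) < D := by exact_mod_cast hD0
  have hDn : (D : ℝ) ≤ (n : ℝ) ^ c := le_trans (by exact_mod_cast D3) p2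
  have hnX : (n : ℝ) ^ c ≤ (X : ℝ) ^ c :=
    Real.rpow_le_rpow (by positivity) (by exact_mod_cast p1) (by linarith)
  obtain ⟨q, q1, q2⟩ : ∃ q : ℕ, (D : ℝ) * (q + 1) ≤ (X : ℝ) ^ c ∧
      (X : ℝ) ^ c ≤ 2 * (D * (q + 1)) := by
    have h3 : 1 ≤ ⌊(X : ℝ) ^ c / D⌋₊ := Nat.le_floor (by
      rw [le_div_iff₀ hDr]; push_cast; linarith)
    obtain ⟨q, hq⟩ : ∃ q, ⌊(X : ℝ) ^ c / D⌋₊ = q + 1 := ⟨_, (Nat.sub_add_cancel h3).symm⟩
    have h4 := Nat.floor_le (show 0 ≤ (X : ℝ) ^ c / D by positivity)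
    have h5 := Nat.lt_floor_add_one ((X : ℝ) ^ c / D)
    rw [hq] at h4 h5
    rw [le_div_iff₀ hDr] at h4
    rw [div_lt_iff₀ hDr] at h5
    push_cast at h4 h5
    refine ⟨q, by linarith, ?_⟩
    nlinarith [(Nat.cast_nonneg q : (0 : ℝ) ≤ q)]
  let b : ℕ → ℕ := fun j => if j ≤ n then a j else a n + D * ((j - n) + q * (min j (2 * X) - X))
  have b1 : ∀ j ≤ n, b j = a j := fun j hj => if_pos hj
  have b2 : ∀ j, n ≤ j → b j = a n + D * ((j - n) + q * (min j (2 * X) - X)) := by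
    intro j hj
    rcases hj.eq_or_lt with rfl | hj
    · rw [b1 _ le_rfl, show min n (2 * X) - X = 0 by omega]; simp
    · exact if_neg (by omega)
  have b3 : ∀ j, n ≤ j → b (j + 1) = b j + D * (if X ≤ j ∧ j < 2 * X then q + 1 else 1) := by
    intro j hj
    rw [b2 j hj, b2 (j + 1) (by omega), show j + 1 - n = j - n + 1 by omega]
    split_ifs with h
    · rw [show min (j + 1) (2 * X) - X = min j (2 * X) - X + 1 by omega]; ring
    · rw [show min (j + 1) (2 * X) - X = min j (2 * X) - X by omega]; ring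
  have b4 : b m = a n + D * ((m - n) + q * X) := by
    rw [b2 m (by omega), show min m (2 * X) - X = X by omega]
  have b5 : D * (q + 1) * X ≤ b m := by
    rw [b4]
    have : D * X ≤ D * (m - n) := Nat.mul_le_mul_left _ (by omega)
    nlinarith
  have b5r : (D : ℝ) * (q + 1) * X ≤ b m := by exact_mod_cast b5
  have hXr : (1 : ℝ) ≤ X := by
    have : 1 ≤ X := by omega
    exact_mod_cast this
  have b6 : 2 * ((m : ℝ) * m * D) ≤ X * b m := by
    have a1 : (m : ℝ) * m * D ≤ m * m * (n : ℝ) ^ c :=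
      mul_le_mul_of_nonneg_left hDn (by positivity)
    have a2 := mul_le_mul_of_nonneg_left q2 (show (0 : ℝ) ≤ X * X by positivity)
    have a3 := mul_le_mul_of_nonneg_left b5r (show (0 : ℝ) ≤ X by positivity)
    nlinarith
  have b6n : 2 * (m * m * D) ≤ X * b m := by exact_mod_cast b6
  have hbm : 0 < b m := by rw [b4]; omega
  refine ⟨⟨b, m, 3 * X, D⟩, ⟨?_, ?_, ?_, by simp only; omega, ?_, hD0, p3⟩, b1, by simp only; omega,
    by simp only; omega, D1, ?_, D2⟩
  · intro j _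
    simp only
    by_cases hj : j < n
    · rw [b1 j hj.le, b1 (j + 1) hj]; exact i1 j hj
    · rw [b3 j (by omega)]
      split_ifs <;> nlinarith
  · simp only [EE]
    have a1 : ∑ j ∈ range m, (b m - b j) ≤
        ∑ j ∈ range m, ((if j < 2 * X then b m else 0) + D * m) := by
      refine sum_le_sum fun j hj => ?_
      have hj := mem_range.1 hj
      split_ifs with h
      · omega
      · rw [b4, b2 j (by omega), show min j (2 * X) - X = X by omega]
        have : D * (m - n) ≤ D * m := Nat.mul_le_mul_left _ (by omega)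
        rw [mul_add, mul_add]
        omega
    rw [sum_add_distrib, sum_const, card_range, smul_eq_mul, ← sum_filter, sum_const,
      smul_eq_mul] at a1
    have a2 : ((range m).filter (· < 2 * X)).card ≤ 2 * X := by
      refine (card_le_card (fun j hj => mem_range.2 (mem_filter.1 hj).2)).trans (card_range _).le
    have a3 := Nat.mul_le_mul_right (b m) a2
    have a4 : 0 < X * b m := Nat.mul_pos (by omega) hbm
    nlinarith
  · simp only
    have a1 : b m ≤ a n + D * m + D * (q + 1) * X := by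
      rw [b4]
      have : D * (m - n) ≤ D * m := Nat.mul_le_mul_left _ (by omega)
      nlinarith [Nat.zero_le (D * X)]
    have a2 : 6 * (D * m) ≤ b m := by
      have : X * (6 * (D * m)) ≤ X * b m := by nlinarith [Nat.zero_le (D * m)]
      exact Nat.le_of_mul_le_mul_left this (by omega)
    have a3 : (b m : ℝ) ≤ a n + D * m + D * (q + 1) * X := by exact_mod_cast a1
    have a4 : (6 : ℝ) * (D * m) ≤ b m := by exact_mod_cast a2
    have a5 := mul_le_mul_of_nonneg_right q1 (show (0 : ℝ) ≤ X by positivity)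
    have a6 : (0 : ℝ) ≤ X * (X : ℝ) ^ c := by positivity
    nlinarith
  · simp only
    have : D * 1 * 1 ≤ D * (q + 1) * X :=
      Nat.mul_le_mul (Nat.mul_le_mul_left _ (by omega)) (by omega)
    omega
  · intro j hj _
    simp only at hj ⊢
    rw [b3 j hj]
    refine ⟨by rw [Nat.add_sub_cancel_left]; exact Dvd.intro _ rfl, ?_⟩
    push_cast
    have hjr : (n : ℝ) ≤ j := by exact_mod_cast hj
    split_ifs with h
    · have hX : (X : ℝ) ≤ j := by exact_mod_cast h.1
      have : (X : ℝ) ^ c ≤ ((j : ℝ) + 1) ^ c :=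
        Real.rpow_le_rpow (by positivity) (by linarith) (by linarith)
      linarith
    · have : (n : ℝ) ^ c ≤ ((j : ℝ) + 1) ^ c :=
        Real.rpow_le_rpow (by positivity) (by linarith) (by linarith)
      linarith

lemma init {c : ℝ} (h1 : 9 / 2 ≤ c) : Inv c ⟨fun j => 65536 * 65536 + j, 65536, 1, 1⟩ := by
  refine ⟨fun j _ => by simp only; omega, ?_, ?_, by simp, by simp, by simp, by simp⟩
  · simp only [EE]
    have := Finset.sum_le_card_nsmul (range 65536)
      (fun j => (65536 * 65536 + 65536) - (65536 * 65536 + j)) 65536 (fun j _ => by omega)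
    rw [card_range, smul_eq_mul] at this
    omega
  · simp only
    have a1 : ((65536 : ℕ) : ℝ) ^ ((11 : ℝ) / 4) ≤ ((65536 : ℕ) : ℝ) ^ ((c + 1) / 2) :=
      Real.rpow_le_rpow_of_exponent_le (by norm_num) (by linarith)
    have a2 : ((65536 : ℕ) : ℝ) ^ ((11 : ℝ) / 4) = 16 ^ 11 := by
      rw [show ((65536 : ℕ) : ℝ) = 16 ^ (4 : ℝ) by norm_num, ← Real.rpow_mul (by norm_num)]
      norm_num
    rw [a2] at a1
    refine le_trans ?_ a1
    norm_num

lemma locate (f : ℕ → ℕ) (hf : StrictMono f) (j : ℕ) (h : f 0 ≤ j) :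
    ∃ i, f i ≤ j ∧ j < f (i + 1) := by
  classical
  have hex : ∃ i, j < f (i + 1) := ⟨j, by have := hf.id_le (j + 1); simp only [id] at this; omega⟩
  refine ⟨Nat.find hex, ?_, Nat.find_spec hex⟩
  rcases h0 : Nat.find hex with _ | i
  · exact h
  · have := Nat.find_min hex (show i < Nat.find hex by omega)
    omega

theorem construct {c : ℝ} (hc : c ^ 2 - 5 * c + 2 = 0) (h1 : 9 / 2 ≤ c) :
    ∃ a : ℕ → ℕ, StrictMono a ∧ 0 < a 0 ∧
      (∀ S T : Finset ℕ, S.card < T.card → ∑ i ∈ S, a i ≠ ∑ i ∈ T, a i) ∧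
      ∃ n0, ∀ j, n0 ≤ j → (a (j + 1) : ℝ) ≤ a j + ((j : ℝ) + 1) ^ c := by
  classical
  choose f hf1 hf2 using next hc h1
  let s : ℕ → {s : St // Inv c s} := fun i =>
    Nat.rec ⟨_, init h1⟩ (fun _ t => ⟨f t.1 t.2, hf1 t.1 t.2⟩) i
  have hR : ∀ i, Rel c (s i).1 (s (i + 1)).1 := fun i => hf2 _ (s i).2
  have hn : StrictMono fun i => (s i).1.n := strictMono_nat_of_lt_succ fun i => (hR i).2.1
  have hK : StrictMono fun i => (s i).1.K := strictMono_nat_of_lt_succ fun i => (hR i).2.2.1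
  have hd : ∀ i k, (s i).1.d ∣ (s (i + k)).1.d := by
    intro i k
    induction k with
    | zero => exact dvd_rfl
    | succ k ih => exact ih.trans (hR (i + k)).2.2.2.1
  have ag : ∀ i k j, j ≤ (s i).1.n → (s (i + k)).1.a j = (s i).1.a j := by
    intro i k j hj
    induction k with
    | zero => rfl
    | succ k ih =>
      rw [← ih]
      exact (hR (i + k)).1 j (hj.trans (hn.monotone (Nat.le_add_right i k)))
  let a : ℕ → ℕ := fun j => (s j).1.a j
  have ha : ∀ i j, j ≤ (s i).1.n → a j = (s i).1.a j := by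
    intro i j hj
    have h2 := ag i j j hj
    have h3 := ag j i j (hn.id_le j)
    rw [add_comm] at h3
    exact h3.symm.trans h2
  have hmono : StrictMono a := strictMono_nat_of_lt_succ fun j => by
    have h2 : j + 1 ≤ (s (j + 1)).1.n := hn.id_le (j + 1)
    rw [ha (j + 1) j (by omega), ha (j + 1) (j + 1) h2]
    exact (s (j + 1)).2.1 j h2
  have hgap : ∀ i j, (s i).1.n ≤ j → (s (i + 1)).1.d ∣ a (j + 1) - a j ∧
      (a (j + 1) : ℝ) ≤ a j + ((j : ℝ) + 1) ^ c := by
    intro i j hj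
    obtain ⟨k, k1, k2⟩ := locate (fun k => (s (i + k)).1.n)
      (fun x y h => hn (by omega)) j hj
    have k2 : j < (s (i + k + 1)).1.n := k2
    rw [ha (i + k + 1) j k2.le, ha (i + k + 1) (j + 1) k2]
    obtain ⟨h2, h3⟩ := (hR (i + k)).2.2.2.2.1 j k1 k2
    refine ⟨Dvd.dvd.trans ?_ h2, h3⟩
    have := hd (i + 1) k
    rwa [show i + 1 + k = i + k + 1 by ring] at this
  refine ⟨a, hmono, by simp [a, s], fun S T hST he => ?_, _, fun j hj => (hgap 0 j hj).2⟩
  obtain ⟨i, k1, k2⟩ := locate _ hK (T.card - S.card) (by simp only [s]; change 1 ≤ _; omega)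
  obtain ⟨-, i2, -, -, i5, i6, -⟩ := (s i).2
  have r6 := (hR i).2.2.2.2.2
  set n := (s i).1.n
  set D := (s (i + 1)).1.d
  have hE : EE (s i).1.a n = EE a n := by
    simp only [EE]
    exact sum_congr rfl fun j hj => by
      rw [ha i n le_rfl, ha i j (mem_range.1 hj).le]
  rw [hE, ← ha i n le_rfl] at i2 r6
  rw [← ha i n le_rfl] at i5
  have hdiv : ∀ k, (D : ℤ) ∣ (a (n + k) : ℤ) - a n := by
    intro k
    induction k with
    | zero => simp
    | succ k ih =>
      have h2 := (hgap i (n + k) (Nat.le_add_right _ _)).1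
      have h3 : (D : ℤ) ∣ (a (n + k + 1) : ℤ) - a (n + k) := by
        rw [← Nat.cast_sub (hmono.monotone (Nat.le_succ _))]
        exact_mod_cast h2
      have := dvd_add ih h3
      rwa [show (a (n + k) : ℤ) - a n + (a (n + k + 1) - a (n + k)) = a (n + (k + 1)) - a n by
        rw [← add_assoc n]; ring] at this
  have dec : ∀ U : Finset ℕ, ∃ e : ℕ, e ≤ EE a n ∧
      (D : ℤ) ∣ (∑ j ∈ U, (a j : ℤ)) - U.card * a n + e := by
    intro U
    refine ⟨∑ j ∈ U.filter (· < n), (a n - a j),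
      sum_le_sum_of_subset fun j hj => mem_range.2 (mem_filter.1 hj).2, ?_⟩
    have e1 : (∑ j ∈ U, (a j : ℤ)) - U.card * a n = ∑ j ∈ U, ((a j : ℤ) - a n) := by
      rw [sum_sub_distrib, sum_const, nsmul_eq_mul]
    rw [e1, Nat.cast_sum, sum_filter, ← sum_add_distrib]
    refine dvd_sum fun j _ => ?_
    split_ifs with h
    · rw [Nat.cast_sub (hmono h).le]; simp
    · obtain ⟨k, rfl⟩ := Nat.exists_eq_add_of_le (not_lt.1 h)
      simpa using hdiv k
  obtain ⟨e1, x1, y1⟩ := dec S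
  obtain ⟨e2, x2, y2⟩ := dec T
  have he' : ∑ j ∈ S, (a j : ℤ) = ∑ j ∈ T, (a j : ℤ) := by exact_mod_cast he
  have y3 := dvd_sub y1 y2
  obtain ⟨k, hk⟩ : ∃ k, T.card = S.card + k := ⟨T.card - S.card, by omega⟩
  rw [hk, Nat.add_sub_cancel_left] at k1 k2
  rw [he', hk] at y3
  push_cast at y3
  have y4 : (D : ℤ) ∣ (k : ℤ) * a n + e1 - e2 := by
    obtain ⟨w, hw⟩ := y3
    exact ⟨w, by linarith⟩
  have z1 : (s i).1.K * a n ≤ k * a n := Nat.mul_le_mul_right _ k1
  have z2 : (k + 1) * a n ≤ (s (i + 1)).1.K * a n := Nat.mul_le_mul_right _ k2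
  have z3 : e2 < k * a n := by omega
  have z4 : k * a n + e1 < D := by nlinarith
  have z3' : (e2 : ℤ) < k * a n := by exact_mod_cast z3
  have z4' : (k : ℤ) * a n + e1 < D := by exact_mod_cast z4
  have := Int.le_of_dvd (by omega) y4
  omega

end Pool.Agent.H18.Adm
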