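import Pool.Agent.H18.AeDefs

namespace Pool.Agent.H18.Ae

open Finset

variable {V : Type} [DecidableEq V] {E : Finset (Finset V)}

def Bad (E : Finset (Finset V)) (A : Finset V) : Prop := ∃ e ∈ E, e ⊆ A

theorem Bad.mono {A B : Finset V} (h : Bad E A) (hs : A ⊆ B) : Bad E B :=
  let ⟨e, a, b⟩ := h; ⟨e, a, b.trans hs⟩

theorem ew_bad (n : ℕ) : ∀ (U A : Finset V) (b : Bool), U.card = n → Bad E A → EW E U A b := by
  induction n with
  | zero =>
    intro U A b h hb
    rw [card_eq_zero.1 h]
    exact EW.fin A b hb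
  | succ n ih =>
    intro U A b h hb
    have hU : U.Nonempty := card_pos.1 (by omega)
    cases b
    · obtain ⟨v, hv⟩ := hU
      exact EW.en U A v hv (ih _ _ _ (by rw [card_erase_of_mem hv]; omega) hb)
    · exact EW.av U A hU fun v hv =>
        ih _ _ _ (by rw [card_erase_of_mem hv]; omega) (hb.mono (subset_insert _ _))

theorem EW.mono {U A : Finset V} {b : Bool} (h : EW E U A b) : ∀ B, A ⊆ B → EW E U B b := by
  induction h with
  | fin A b hb => exact fun B hs => EW.fin B b (Bad.mono hb hs)
  | av U A hU _ ih => exact fun B hs => EW.av U B hU fun v hv => ih v hv _ (insert_subset_insert _ hs)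
  | en U A v hv _ ih => exact fun B hs => EW.en U B v hv (ih B hs)

theorem inv_av {U A : Finset V} (h : EW E U A true) {v : V} (hv : v ∈ U) :
    Bad E (insert v A) ∨ ∃ w ∈ U.erase v, EW E ((U.erase v).erase w) (insert v A) true := by
  cases h with
  | fin A b hb => simp at hv
  | av U A hU h =>
    have := h v hv
    generalize U.erase v = U' at this
    cases this with
    | fin A b hb => exact Or.inl hb
    | en U A w hw h => exact Or.inr ⟨w, hw, h⟩

theorem ext (n : ℕ) : ∀ (S U A : Finset V), U.card = n → S ⊆ U → Even (U.card - S.card) →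
    EW E S A true → EW E U A true := by
  induction n using Nat.strong_induction_on with
  | _ n ih =>
    intro S U A hn hs he h
    rcases U.eq_empty_or_nonempty with rfl | hU
    · rwa [subset_empty.1 hs] at h
    refine EW.av U A hU fun v hv => ?_
    have c0 := card_le_card hs
    have c1 := card_erase_of_mem hv
    have c2 := card_pos.2 hU
    by_cases hvS : v ∈ S
    · rcases inv_av h hvS with hb | ⟨w, hw, h'⟩
      · exact ew_bad _ _ _ _ rfl hb
      · have hw' : w ∈ U.erase v := erase_subset_erase _ hs hw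
        have c3 := card_erase_of_mem hw'
        have c4 := card_erase_of_mem hw
        have c5 := card_erase_of_mem hvS
        have c6 := card_pos.2 ⟨w, hw⟩
        refine EW.en _ _ w hw' (ih _ (by omega) _ _ _ rfl
          (erase_subset_erase _ (erase_subset_erase _ hs)) ?_ h')
        rwa [show ((U.erase v).erase w).card - ((S.erase v).erase w).card = U.card - S.card by omega]
    · have hs' : S ⊆ U.erase v := subset_erase.2 ⟨hs, hvS⟩
      have c3 := card_le_card hs'
      obtain ⟨k, hk⟩ := he
      obtain ⟨w, hw, hwS⟩ := exists_mem_notMem_of_card_lt_card (s := S) (t := U.erase v) (by omega)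
      have c4 := card_erase_of_mem hw
      refine EW.en _ _ w hw (ih _ (by omega) S _ _ rfl (subset_erase.2 ⟨hs', hwS⟩)
        ⟨k - 1, by omega⟩ (h.mono _ (subset_insert _ _)))

theorem two (n : ℕ) : ∀ (S T A : Finset V), S.card + T.card = n → Disjoint S T → Odd S.card →
    Odd T.card → EW E S A true → EW E T A true → EW E (S ∪ T) A true := by
  induction n using Nat.strong_induction_on with
  | _ n ih =>
    have key : ∀ (S T A : Finset V), S.card + T.card = n → Disjoint S T → Odd S.card →
        Odd T.card → EW E S A true → EW E T A true → ∀ v ∈ S,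
        EW E ((S ∪ T).erase v) (insert v A) false := by
      intro S T A hn hd o1 o2 h1 h2 v hv
      rcases inv_av h1 hv with hb | ⟨w, hw, h'⟩
      · exact ew_bad _ _ _ _ rfl hb
      · have c4 := card_erase_of_mem hw
        have c5 := card_erase_of_mem hv
        have c6 := card_pos.2 ⟨w, hw⟩
        have hvT : v ∉ T := disjoint_left.1 hd hv
        have hwT : w ∉ T := disjoint_left.1 hd (mem_of_mem_erase hw)
        refine EW.en _ _ w (erase_subset_erase _ subset_union_left hw) ?_
        have e : ((S ∪ T).erase v).erase w = (S.erase v).erase w ∪ T := by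
          rw [erase_union_distrib, erase_eq_of_notMem hvT, erase_union_distrib,
            erase_eq_of_notMem hwT]
        rw [e]
        obtain ⟨k, hk⟩ := o1
        exact ih _ (by omega) _ _ _ rfl
          (disjoint_of_subset_left ((erase_subset _ _).trans (erase_subset _ _)) hd)
          ⟨k - 1, by omega⟩ o2 h' (h2.mono _ (subset_insert _ _))
    intro S T A hn hd o1 o2 h1 h2
    have hS : S.Nonempty := card_pos.1 o1.pos
    refine EW.av _ A (hS.mono subset_union_left) fun v hv => ?_
    rcases mem_union.1 hv with h | h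
    · exact key S T A hn hd o1 o2 h1 h2 v h
    · rw [union_comm]
      exact key T S A (by omega) hd.symm o2 o1 h2 h1 v h

/-- pairing strategy with one special vertex -/
theorem pair (n : ℕ) : ∀ (J : Finset ℕ) (a b : ℕ → V) (t : V) (S A : Finset V), J.card = n →
    (∀ v, v ∈ S ↔ v = t ∨ ∃ i ∈ J, v = a i ∨ v = b i) →
    (∀ i ∈ J, ∀ j ∈ J, (a i = a j → i = j) ∧ (b i = b j → i = j) ∧ a i ≠ b j) →
    (∀ i ∈ J, t ≠ a i ∧ t ≠ b i) →
    (∀ I, A ⊆ I → t ∈ I → (∀ i ∈ J, a i ∈ I ∨ b i ∈ I) → Bad E I) →
    EW E S A true ∧ Odd S.card := by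
  induction n with
  | zero =>
    intro J a b t S A hn hS _ _ hb
    rw [card_eq_zero] at hn
    subst hn
    have : S = {t} := by ext v; simp [hS]
    subst this
    refine ⟨EW.av _ _ (by simp) fun v hv => ?_, by simp⟩
    obtain rfl : v = t := by simpa using hv
    exact ew_bad _ _ _ _ rfl (hb _ (subset_insert _ _) (by simp) (by simp))
  | succ n ih =>
    intro J a b t S A hn hS h1 h2 hb
    have htS : t ∈ S := (hS t).2 (Or.inl rfl)
    have key : ∀ i ∈ J, ∀ x y z : V, ((x = t ∧ y = a i ∧ z = b i) ∨ (x = a i ∧ y = b i ∧ z = t) ∨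
        (x = b i ∧ y = a i ∧ z = t)) → y ∈ S.erase x ∧
        EW E ((S.erase x).erase y) (insert x A) true ∧ Odd ((S.erase x).erase y).card := by
      intro i hi x y z hx
      have q1 := h1 i hi i hi
      have q2 := h2 i hi
      refine ⟨?_, ih (J.erase i) a b z _ _ (by rw [card_erase_of_mem hi]; omega) ?_ ?_ ?_ ?_⟩
      · rw [mem_erase, hS]
        grind
      · intro v
        simp only [mem_erase, hS]
        constructor
        · rintro ⟨n1, n2, rfl | ⟨j, hj, h⟩⟩
          · grind
          · by_cases c : j = i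
            · grind
            · exact Or.inr ⟨j, ⟨c, hj⟩, h⟩
        · rintro (rfl | ⟨j, ⟨c, hj⟩, h⟩)
          · grind
          · have q3 := h1 i hi j hj
            have q4 := h1 j hj i hi
            have q5 := h2 j hj
            grind
      · exact fun j hj k hk => h1 j (mem_of_mem_erase hj) k (mem_of_mem_erase hk)
      · intro j hj
        obtain ⟨c, hj⟩ := mem_erase.1 hj
        have q3 := h1 i hi j hj
        have q4 := h1 j hj i hi
        have q5 := h2 j hj
        grind
      · intro I hI hz hp
        have hxI : x ∈ I := hI (mem_insert_self _ _)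
        refine hb I ((subset_insert _ _).trans hI) (by grind) fun j hj => ?_
        by_cases c : j = i
        · grind
        · exact hp j (mem_erase.2 ⟨c, hj⟩)
    obtain ⟨i0, hi0⟩ : J.Nonempty := card_pos.1 (by omega)
    constructor
    · refine EW.av _ _ ⟨t, htS⟩ fun v hv => ?_
      rcases (hS v).1 hv with rfl | ⟨i, hi, rfl | rfl⟩
      · obtain ⟨k1, k2, _⟩ := key i0 hi0 _ _ _ (Or.inl ⟨rfl, rfl, rfl⟩)
        exact EW.en _ _ _ k1 k2
      · obtain ⟨k1, k2, _⟩ := key i hi _ _ _ (Or.inr (Or.inl ⟨rfl, rfl, rfl⟩))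
        exact EW.en _ _ _ k1 k2
      · obtain ⟨k1, k2, _⟩ := key i hi _ _ _ (Or.inr (Or.inr ⟨rfl, rfl, rfl⟩))
        exact EW.en _ _ _ k1 k2
    · obtain ⟨k1, _, ⟨k, hk⟩⟩ := key i0 hi0 _ _ _ (Or.inl ⟨rfl, rfl, rfl⟩)
      have c1 := card_erase_of_mem k1
      have c2 := card_erase_of_mem htS
      have c3 := card_pos.2 ⟨_, k1⟩
      exact ⟨k + 1, by omega⟩

end Pool.Agent.H18.Ae
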