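import Pool.Agent.H18.Ae1

namespace Pool.Agent.H18.Ae

open Finset

variable {V : Type} [DecidableEq V] {E : Finset (Finset V)}

def Adj (E : Finset (Finset V)) (K : Finset V) (u v : V) : Prop :=
  ∃ e ∈ E, e ⊆ K ∧ u ∈ e ∧ v ∈ e

def Reach (E : Finset (Finset V)) (K : Finset V) (u v : V) : Prop :=
  Relation.ReflTransGen (Adj E K) u v

def Conn (E : Finset (Finset V)) (K : Finset V) : Prop := ∀ u ∈ K, ∀ v ∈ K, Reach E K u v

def deg (E : Finset (Finset V)) (K : Finset V) (v : V) : ℕ :=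
  (E.filter (fun e => e ⊆ K ∧ v ∈ e)).card

def Lin (E : Finset (Finset V)) : Prop :=
  ∀ e ∈ E, ∀ f ∈ E, ∀ u v, u ≠ v → u ∈ e → v ∈ e → u ∈ f → v ∈ f → e = f

theorem Adj.symm {K : Finset V} {u v : V} (h : Adj E K u v) : Adj E K v u :=
  let ⟨e, a, b, c, d⟩ := h; ⟨e, a, b, d, c⟩

theorem Reach.symm {K : Finset V} {u v : V} (h : Reach E K u v) : Reach E K v u := by
  induction h with
  | refl => exact Relation.ReflTransGen.refl
  | tail _ a ih => exact Relation.ReflTransGen.head a.symm ih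

theorem loss (hl : Lin E) (K X N : Finset V) (v : V) (hv : v ∉ X)
    (h : ∀ s ∈ X, Adj E K v s → s ∈ N) : deg E K v ≤ deg E (K \ X) v + N.card := by
  classical
  have h1 : E.filter (fun e => e ⊆ K ∧ v ∈ e) ⊆ E.filter (fun e => e ⊆ K \ X ∧ v ∈ e) ∪
      N.biUnion (fun s => E.filter (fun e => s ≠ v ∧ s ∈ e ∧ v ∈ e)) := by
    intro e he
    obtain ⟨a, b, c⟩ : e ∈ E ∧ e ⊆ K ∧ v ∈ e := by simpa using he
    by_cases d : e ⊆ K \ X
    · exact mem_union_left _ (mem_filter.2 ⟨a, d, c⟩)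
    · obtain ⟨s, s1, s2⟩ := not_subset.1 d
      have s3 : s ∈ X := by
        by_contra q
        exact s2 (mem_sdiff.2 ⟨b s1, q⟩)
      refine mem_union_right _ (mem_biUnion.2 ⟨s, h s s3 ⟨e, a, b, c, s1⟩, mem_filter.2
        ⟨a, fun q => hv (q ▸ s3), s1, c⟩⟩)
  refine (card_le_card h1).trans ((card_union_le _ _).trans (Nat.add_le_add_left ?_ _))
  refine card_biUnion_le.trans ?_
  rw [card_eq_sum_ones N]
  refine sum_le_sum fun s _ => card_le_one.2 fun e he f hf => ?_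
  obtain ⟨a, b, c, d⟩ : e ∈ E ∧ s ≠ v ∧ s ∈ e ∧ v ∈ e := by simpa using he
  obtain ⟨a', _, c', d'⟩ : f ∈ E ∧ s ≠ v ∧ s ∈ f ∧ v ∈ f := by simpa using hf
  exact hl e a f a' s v b c d c' d'

theorem loss1 (hl : Lin E) (K : Finset V) (z v : V) (hv : v ≠ z) :
    deg E K v ≤ deg E (K.erase z) v + 1 := by
  have := loss hl K {z} {z} v (by simpa using hv) (fun s hs _ => hs)
  rwa [sdiff_singleton_eq_erase, card_singleton] at this

theorem nbr (K : Finset V) (v : V) (h : 2 ≤ deg E K v) : ∃ w ∈ K, w ≠ v ∧ Adj E K v w := by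
  obtain ⟨e, he, f, hf, hne⟩ := one_lt_card.1 h
  obtain ⟨a, b, c⟩ : e ∈ E ∧ e ⊆ K ∧ v ∈ e := by simpa using he
  obtain ⟨a', b', c'⟩ : f ∈ E ∧ f ⊆ K ∧ v ∈ f := by simpa using hf
  by_contra q
  push Not at q
  apply hne
  have k : ∀ g ∈ E, g ⊆ K → v ∈ g → g = {v} := fun g g1 g2 g3 =>
    eq_singleton_iff_unique_mem.2 ⟨g3, fun w hw => by
      by_contra r
      exact q w (g2 hw) r ⟨g, g1, g2, g3, hw⟩⟩
  rw [k e a b c, k f a' b' c']

theorem reach_sub {K L : Finset V} {y v : V} (h : Reach E K y v)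
    (hL : ∀ w ∈ K, Reach E K y w → w ∈ L) : Reach E L y v := by
  induction h with
  | refl => exact Relation.ReflTransGen.refl
  | tail h0 a ih =>
    obtain ⟨e, e1, e2, e3, e4⟩ := a
    exact Relation.ReflTransGen.tail ih ⟨e, e1, fun w hw => hL w (e2 hw)
      (Relation.ReflTransGen.tail h0 ⟨e, e1, e2, e3, hw⟩), e3, e4⟩

theorem conn_of {K : Finset V} (y : V) (h : ∀ v ∈ K, Reach E K y v) : Conn E K :=
  fun u hu v hv => Relation.ReflTransGen.trans (h u hu).symm (h v hv)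

theorem comp (K : Finset V) (hK : K.Nonempty) : ∃ C ⊆ K, C.Nonempty ∧ Conn E C ∧
    ∀ v ∈ C, deg E K v ≤ deg E C v := by
  classical
  obtain ⟨y, hy⟩ := hK
  refine ⟨K.filter (Reach E K y), filter_subset _ _,
    ⟨y, mem_filter.2 ⟨hy, Relation.ReflTransGen.refl⟩⟩, conn_of y fun v hv => ?_, fun v hv => ?_⟩
  · exact reach_sub (mem_filter.1 hv).2 fun w a b => mem_filter.2 ⟨a, b⟩
  · apply card_le_card
    intro e he
    obtain ⟨a, b, c⟩ : e ∈ E ∧ e ⊆ K ∧ v ∈ e := by simpa using he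
    exact mem_filter.2 ⟨a, fun w hw => mem_filter.2 ⟨b hw,
      Relation.ReflTransGen.tail (mem_filter.1 hv).2 ⟨e, a, b, c, hw⟩⟩, c⟩

theorem noncut (hl : Lin E) (hr : ∀ e ∈ E, e.card ≤ 3) (K : Finset V) (hc : Conn E K)
    (hd : ∀ v ∈ K, 3 ≤ deg E K v) (y : V) (hy : y ∈ K) :
    ∃ z ∈ K, z ≠ y ∧ Conn E (K.erase z) := by
  classical
  obtain ⟨w0, a0, b0, _⟩ := nbr (E := E) K y (by have := hd y hy; omega)
  obtain ⟨z, hz, hmax⟩ := exists_max_image (K.erase y)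
    (fun z => ((K.erase z).filter (Reach E (K.erase z) y)).card) ⟨w0, mem_erase.2 ⟨b0, a0⟩⟩
  obtain ⟨zy, zK⟩ := mem_erase.1 hz
  refine ⟨z, zK, zy, conn_of y fun v hv => ?_⟩
  by_contra hv'
  obtain ⟨vz, vK⟩ := mem_erase.1 hv
  have ex : ∀ u, Reach E K y u → (u ∈ K.erase z ∧ Reach E (K.erase z) y u) ∨
      ∃ f ∈ E, f ⊆ K ∧ z ∈ f ∧ ∃ a ∈ f, a ≠ z ∧ Reach E (K.erase z) y a := by
    intro u hu
    induction hu with
    | refl => exact Or.inl ⟨mem_erase.2 ⟨zy.symm, hy⟩, Relation.ReflTransGen.refl⟩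
    | tail _ a ih =>
      rcases ih with ⟨i1, i2⟩ | ih
      · obtain ⟨e, e1, e2, e3, e4⟩ := a
        by_cases q : z ∈ e
        · exact Or.inr ⟨e, e1, e2, q, _, e3, (mem_erase.1 i1).1, i2⟩
        · have : e ⊆ K.erase z := subset_erase.2 ⟨e2, q⟩
          exact Or.inl ⟨this e4, Relation.ReflTransGen.tail i2 ⟨e, e1, this, e3, e4⟩⟩
      · exact Or.inr ih
  obtain ⟨f, f1, f2, f3, a, a1, a2, a3⟩ := (ex v (hc y hy v vK)).resolve_left (fun q => hv' q.2)
  obtain ⟨v2, p1, p2, p3⟩ := nbr (E := E) (K.erase z) v (by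
    have := hd v vK
    have := loss1 hl K z v vz
    omega)
  have hv2 : ¬ Reach E (K.erase z) y v2 := fun q =>
    hv' (Relation.ReflTransGen.tail q p3.symm)
  obtain ⟨z', q1, q2, q3⟩ : ∃ z' ∈ K.erase z, ¬ Reach E (K.erase z) y z' ∧ z' ∉ f := by
    by_contra q
    push Not at q
    have m1 := q v hv hv'
    have m2 := q v2 p1 hv2
    have av : a ≠ v := fun e => hv' (e ▸ a3)
    have av2 : a ≠ v2 := fun e => hv2 (e ▸ a3)
    have v2z := (mem_erase.1 p1).1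
    have : ({a, z, v, v2} : Finset V) ⊆ f := by
      intro x hx
      simp only [mem_insert, mem_singleton] at hx
      rcases hx with rfl | rfl | rfl | rfl <;> assumption
    have h4 := card_le_card this
    rw [card_insert_of_notMem (by simp [a2, av, av2]),
      card_insert_of_notMem (by simp [vz.symm, v2z.symm]), card_pair p2.symm] at h4
    have := hr f f1
    omega
  obtain ⟨z'z, z'K⟩ := mem_erase.1 q1
  have z'y : z' ≠ y := fun e => q2 (e ▸ Relation.ReflTransGen.refl)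
  have sub : ∀ u, Reach E (K.erase z) y u → Reach E (K.erase z') y u := fun u hu =>
    reach_sub hu fun w w1 w2 => mem_erase.2 ⟨fun e => q2 (e ▸ w2), mem_of_mem_erase w1⟩
  have := hmax z' (mem_erase.2 ⟨z'y, z'K⟩)
  have h5 : insert z ((K.erase z).filter (Reach E (K.erase z) y)) ⊆
      (K.erase z').filter (Reach E (K.erase z') y) := by
    intro u hu
    rcases mem_insert.1 hu with rfl | hu
    · exact mem_filter.2 ⟨mem_erase.2 ⟨z'z.symm, zK⟩, Relation.ReflTransGen.tail (sub a a3)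
        ⟨f, f1, subset_erase.2 ⟨f2, q3⟩, a1, f3⟩⟩
    · obtain ⟨u1, u2⟩ := mem_filter.1 hu
      exact mem_filter.2 ⟨mem_erase.2 ⟨fun e => q2 (e ▸ u2), mem_of_mem_erase u1⟩, sub u u2⟩
  have h6 := card_le_card h5
  rw [card_insert_of_notMem (by simp)] at h6
  omega

theorem par_comp (hl : Lin E) (hr : ∀ e ∈ E, e.card ≤ 3) (K : Finset V) (hK : K.Nonempty)
    (D : ℕ) (hD : 2 ≤ D) (hd : ∀ v ∈ K, D + 1 ≤ deg E K v) (r : ℕ) (h2 : r < 2) :
    ∃ C ⊆ K, C.Nonempty ∧ Conn E C ∧ C.card % 2 = r ∧ ∀ v ∈ C, D ≤ deg E C v := by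
  obtain ⟨C, c1, c2, c3, c4⟩ := comp (E := E) K hK
  have c5 : ∀ v ∈ C, D + 1 ≤ deg E C v := fun v hv => (hd v (c1 hv)).trans (c4 v hv)
  by_cases q : C.card % 2 = r
  · exact ⟨C, c1, c2, c3, q, fun v hv => by have := c5 v hv; omega⟩
  · obtain ⟨y, hy⟩ := c2
    obtain ⟨z, z1, z2, z3⟩ := noncut hl hr C c3 (fun v hv => by have := c5 v hv; omega) y hy
    refine ⟨C.erase z, (erase_subset _ _).trans c1, ⟨y, mem_erase.2 ⟨z2.symm, hy⟩⟩, z3, ?_, ?_⟩
    · have := card_erase_of_mem z1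
      have := card_pos.2 ⟨z, z1⟩
      omega
    · intro v hv
      have := c5 v (mem_of_mem_erase hv)
      have := loss1 hl C z v (mem_erase.1 hv).1
      omega

end Pool.Agent.H18.Ae
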