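import Pool.Agent.H18.Ae2

namespace Pool.Agent.H18.Ae

open Finset

variable {V : Type} [DecidableEq V] {E : Finset (Finset V)}

def Rn (E : Finset (Finset V)) (K : Finset V) (y : V) : ℕ → V → Prop
  | 0, v => v = y
  | n + 1, v => ∃ u, Rn E K y n u ∧ Adj E K u v

theorem level (K : Finset V) (hc : Conn E K) (y : V) (hy : y ∈ K) : ∃ l : V → ℕ,
    (∀ v ∈ K, l v = 0 → v = y) ∧ (∀ u v, Adj E K u v → l v ≤ l u + 1) ∧
    (∀ v ∈ K, ∀ m, l v = m + 1 → ∃ u, Adj E K u v ∧ l u = m) := by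
  have ne : ∀ v ∈ K, ∃ n, Rn E K y n v := by
    intro v hv
    have := hc y hy v hv
    clear hv
    induction this with
    | refl => exact ⟨0, rfl⟩
    | tail _ a ih =>
      obtain ⟨n, hn⟩ := ih
      exact ⟨n + 1, _, hn, a⟩
  have mem : ∀ v ∈ K, Rn E K y (sInf {n | Rn E K y n v}) v := fun v hv =>
    Nat.sInf_mem (s := {n | Rn E K y n v}) (ne v hv)
  have l1 : ∀ u v, Adj E K u v → sInf {n | Rn E K y n v} ≤ sInf {n | Rn E K y n u} + 1 := by
    intro u v h
    obtain ⟨e, _, e2, e3, _⟩ := id h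
    exact Nat.sInf_le ⟨u, mem u (e2 e3), h⟩
  refine ⟨fun v => sInf {n | Rn E K y n v}, fun v hv h => ?_, l1, fun v hv m h => ?_⟩
  · have := mem v hv
    simp only at h
    rw [h] at this
    exact this
  · have := mem v hv
    simp only at h
    rw [h] at this
    obtain ⟨u, u1, u2⟩ := this
    refine ⟨u, u2, ?_⟩
    have h1 := l1 u v u2
    have h2 : sInf {n | Rn E K y n u} ≤ m := Nat.sInf_le u1
    simp only
    omega

theorem path (K : Finset V) (y : V) (l : V → ℕ) (h0 : ∀ v ∈ K, l v = 0 → v = y)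
    (h2 : ∀ v ∈ K, ∀ m, l v = m + 1 → ∃ u, Adj E K u v ∧ l u = m) (k : ℕ) :
    ∀ v ∈ K, l v = k → ∃ (c : ℕ → V) (f : ℕ → Finset V), c 0 = y ∧ c k = v ∧
      (∀ i ≤ k, l (c i) = i ∧ c i ∈ K) ∧
      ∀ i < k, f i ∈ E ∧ f i ⊆ K ∧ c i ∈ f i ∧ c (i + 1) ∈ f i := by
  induction k with
  | zero =>
    intro v hv h
    refine ⟨fun _ => v, fun _ => ∅, h0 v hv h, rfl, fun i hi => ?_, fun i hi => by omega⟩
    obtain rfl : i = 0 := by omega
    exact ⟨h, hv⟩
  | succ k ih =>
    intro v hv h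
    obtain ⟨u, ⟨e, e1, e2, e3, e4⟩, u2⟩ := h2 v hv k h
    obtain ⟨c, f, c0, c1, c2, c3⟩ := ih u (e2 e3) u2
    refine ⟨fun i => if i ≤ k then c i else v, fun i => if i < k then f i else e, by simpa using c0,
      by simp, fun i hi => ?_, fun i hi => ?_⟩
    · by_cases q : i ≤ k
      · simpa [q] using c2 i q
      · obtain rfl : i = k + 1 := by omega
        simp [h, hv]
    · by_cases q : i < k
      · simpa [q, q.le, Nat.succ_le_of_lt q] using c3 i q
      · obtain rfl : i = k := by omega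
        simp [e1, e2, e4, c1, e3]

theorem trap (hl : Lin E) (hr : ∀ e ∈ E, e.card ≤ 3) (K : Finset V) (hc : Conn E K)
    (y y' : V) (hy : y ∈ K) (hy' : y' ∈ K) (hne : y' ≠ y) (A : Finset V) (hA : y ∈ A)
    (hA' : y' ∈ A) : Bad E A ∨ ∃ S ⊆ (K.erase y).erase y', Odd S.card ∧ EW E S A true ∧
      ∀ v ∈ K, ∀ X ⊆ insert y (insert y' S), v ∉ X → deg E K v ≤ deg E (K \ X) v + 7 := by
  classical
  obtain ⟨l, l0, l1, l2⟩ := level K hc y hy
  obtain ⟨c, f, c0, ck, c2, c3⟩ := path K y l l0 l2 (l y') y' hy' rfl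
  have k0 : l y' ≠ 0 := fun e => hne (l0 y' hy' e)
  generalize l y' = k at ck c2 c3 k0
  obtain ⟨g, T, g1⟩ : ∃ (g : ℕ → V) (T : ℕ → Prop), ∀ i < k, g i ∈ f i ∧
      (∀ I : Finset V, c i ∈ I → c (i + 1) ∈ I → (T i → g i ∈ I) → Bad E I) ∧
      (T i → g i ≠ c i ∧ g i ≠ c (i + 1)) := by
    refine ⟨fun i => if h : ∃ x ∈ f i, x ≠ c i ∧ x ≠ c (i + 1) then h.choose else c i,
      fun i => ∃ x ∈ f i, x ≠ c i ∧ x ≠ c (i + 1), fun i hi => ?_⟩
    obtain ⟨a1, a2, a3, a4⟩ := c3 i hi
    by_cases h : ∃ x ∈ f i, x ≠ c i ∧ x ≠ c (i + 1)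
    · simp only [dif_pos h]
      obtain ⟨b1, b2, b3⟩ := h.choose_spec
      refine ⟨b1, fun I i1 i2 i3 => ⟨f i, a1, ?_⟩, fun _ => ⟨b2, b3⟩⟩
      have cne : c i ≠ c (i + 1) := fun e => by
        have := (c2 i (by omega)).1
        have := (c2 (i + 1) (by omega)).1
        grind
      have hs : ({h.choose, c i, c (i + 1)} : Finset V) ⊆ f i := by
        intro x hx
        simp only [mem_insert, mem_singleton] at hx
        rcases hx with rfl | rfl | rfl <;> assumption
      have := eq_of_subset_of_card_le hs (by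
        rw [card_insert_of_notMem (by simp [b2, b3]), card_pair cne]
        exact hr _ a1)
      rw [← this]
      intro x hx
      simp only [mem_insert, mem_singleton] at hx
      rcases hx with rfl | rfl | rfl
      exacts [i3 h, i1, i2]
    · simp only [dif_neg h]
      refine ⟨a3, fun I i1 i2 _ => ⟨f i, a1, fun x hx => ?_⟩, fun q => absurd q h⟩
      by_contra q
      exact h ⟨x, hx, fun e => q (e ▸ i1), fun e => q (e ▸ i2)⟩
  have lg : ∀ i < k, i ≤ l (g i) ∧ l (g i) ≤ i + 1 := by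
    intro i hi
    obtain ⟨a1, a2, a3, a4⟩ := c3 i hi
    have b1 := l1 _ _ ⟨f i, a1, a2, a3, (g1 i hi).1⟩
    have b2 := l1 _ _ ⟨f i, a1, a2, (g1 i hi).1, a4⟩
    have := (c2 i (by omega)).1
    have := (c2 (i + 1) (by omega)).1
    omega
  have G3 : ∀ i ≤ k, ∀ j ≤ k, c i = c j → i = j := fun i hi j hj e => by
    rw [← (c2 i hi).1, e, (c2 j hj).1]
  have G1 : ∀ i < k, T i → ∀ j ≤ k, g i ≠ c j := by
    intro i hi t j hj e
    have h1 := lg i hi
    rw [e, (c2 j hj).1] at h1
    have h2 := (g1 i hi).2.2 t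
    rcases (by omega : j = i ∨ j = i + 1) with rfl | rfl
    exacts [h2.1 e, h2.2 e]
  have G2 : ∀ i j, i < j → j < k → T i → g i ≠ g j := by
    intro i j hij hj t e
    have h1 := lg i (by omega)
    have h2 := lg j hj
    rw [← e] at h2
    obtain rfl : j = i + 1 := by omega
    obtain ⟨a1, a2, a3, a4⟩ := c3 i (by omega)
    obtain ⟨b1, b2, b3, b4⟩ := c3 (i + 1) hj
    have := hl _ a1 _ b1 (g i) (c (i + 1)) ((g1 i (by omega)).2.2 t).2 (g1 i (by omega)).1 a4
      (e ▸ (g1 (i + 1) hj).1) b3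
    have h3 := l1 _ _ ⟨f i, a1, a2, a3, this ▸ b4⟩
    rw [(c2 i (by omega)).1, (c2 (i + 1 + 1) (by omega)).1] at h3
    omega
  obtain ⟨d, d1, d2⟩ : ∃ d : ℕ → V, (∀ i < k, d i = c i) ∧ d k = g (k - 1) :=
    ⟨fun i => if i < k then c i else g (k - 1), fun i hi => if_pos hi, if_neg (lt_irrefl k)⟩
  have main : Bad E A ∨ ∃ M, 1 ≤ M ∧ M ≤ k ∧ (∀ i, i + 1 < M → T i) ∧ (M = k → T (k - 1)) ∧
      ∀ I : Finset V, y' ∈ I → (∀ i ≤ M, d i ∈ I) → Bad E I := by
    by_cases q : ∃ i, i < k ∧ ¬ T i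
    · obtain ⟨q1, q2⟩ := Nat.find_spec q
      have q3 : ∀ i < Nat.find q, T i := fun i hi => by
        by_contra r
        exact Nat.find_min q hi ⟨by omega, r⟩
      generalize Nat.find q = m at q1 q2 q3
      by_cases r : m + 1 = k
      · by_cases r0 : m = 0
        · left
          refine (g1 m q1).2.1 A ?_ ?_ (fun t => absurd t q2)
          · rw [r0, c0]; exact hA
          · rw [r, ck]; exact hA'
        · right
          refine ⟨m, by omega, by omega, fun i hi => q3 i (by omega), fun e => by omega,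
            fun I i1 i2 => (g1 m q1).2.1 I ?_ ?_ (fun t => absurd t q2)⟩
          · rw [← d1 m q1]; exact i2 m le_rfl
          · rw [r, ck]; exact i1
      · right
        refine ⟨m + 1, by omega, by omega, fun i hi => q3 i (by omega), fun e => absurd e r,
          fun I i1 i2 => (g1 m q1).2.1 I ?_ ?_ (fun t => absurd t q2)⟩
        · rw [← d1 m q1]; exact i2 m (by omega)
        · rw [← d1 (m + 1) (by omega)]; exact i2 (m + 1) le_rfl
    · push Not at q
      right
      refine ⟨k, by omega, le_rfl, fun i hi => q i (by omega), fun _ => q _ (by omega),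
        fun I i1 i2 => (g1 (k - 1) (by omega)).2.1 I ?_ ?_ (fun _ => ?_)⟩
      · rw [← d1 _ (by omega)]; exact i2 _ (by omega)
      · rw [show k - 1 + 1 = k by omega, ck]; exact i1
      · rw [← d2]; exact i2 k le_rfl
  rcases main with h | ⟨M, m1, m2, m3, m4, m5⟩
  · exact Or.inl h
  right
  have dc : ∀ i ≤ M, ∀ j ≤ k, d i = c j → i = j ∧ i < k := by
    intro i hi j hj e
    by_cases q : i < k
    · rw [d1 i q] at e
      exact ⟨G3 i q.le j hj e, q⟩
    · obtain rfl : i = k := by omega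
      rw [d2] at e
      exact absurd e (G1 _ (by omega) (m4 (by omega)) j hj)
  have dd : ∀ i ≤ M, ∀ j ≤ M, d i = d j → i = j := by
    intro i hi j hj e
    by_cases q : j < k
    · rw [d1 j q] at e
      exact (dc i hi j q.le e).1
    · by_cases q' : i < k
      · rw [d1 i q'] at e
        exact (dc j hj i q'.le e.symm).1.symm
      · omega
  have gd : ∀ i, i + 1 < M → ∀ j ≤ M, g i ≠ d j := by
    intro i hi j hj
    by_cases q : j < k
    · rw [d1 j q]
      exact G1 i (by omega) (m3 i hi) j q.le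
    · obtain rfl : j = k := by omega
      rw [d2]
      exact G2 i _ (by omega) (by omega) (m3 i hi)
  have dK : ∀ i ≤ M, d i ∈ K ∧ ((∃ j ≤ k, d i = c j) ∨ ∃ j < k, d i = g j) := by
    intro i hi
    by_cases q : i < k
    · rw [d1 i q]
      exact ⟨(c2 i q.le).2, Or.inl ⟨i, q.le, rfl⟩⟩
    · obtain rfl : i = k := by omega
      rw [d2]
      exact ⟨(c3 _ (by omega)).2.1 (g1 _ (by omega)).1, Or.inr ⟨_, by omega, rfl⟩⟩
  obtain ⟨S, hS⟩ : ∃ S : Finset V, ∀ v, v ∈ S ↔ v = d 1 ∨
      ∃ i ∈ range (M - 1), v = g i ∨ v = d (i + 2) :=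
    ⟨insert (d 1) ((range (M - 1)).biUnion fun i => {g i, d (i + 2)}), fun v => by simp⟩
  obtain ⟨p1, p2⟩ := pair (E := E) _ (range (M - 1)) g (fun i => d (i + 2)) (d 1) S A rfl hS
    (fun i hi j hj => by
      rw [mem_range] at hi hj
      refine ⟨fun e => ?_, fun e => ?_, gd i (by omega) _ (by omega)⟩
      · rcases lt_trichotomy i j with q | q | q
        · exact absurd e (G2 i j q (by omega) (m3 i (by omega)))
        · exact q
        · exact absurd e.symm (G2 j i q (by omega) (m3 j (by omega)))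
      · have := dd _ (by omega) _ (by omega) e
        omega)
    (fun i hi => by
      rw [mem_range] at hi
      refine ⟨(gd i (by omega) 1 m1).symm, fun e => ?_⟩
      have := dd _ (by omega) _ (by omega) e
      omega)
    (fun I i1 i2 i3 => by
      by_contra nb
      have key : ∀ i, i + 1 ≤ M → d i ∈ I ∧ d (i + 1) ∈ I := by
        intro i
        induction i with
        | zero => exact fun _ => ⟨by rw [d1 0 (by omega), c0]; exact i1 hA, i2⟩
        | succ i ih =>
          intro hi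
          obtain ⟨j1, j2⟩ := ih (by omega)
          refine ⟨j2, (i3 i (mem_range.2 (by omega))).resolve_left fun j3 => nb ?_⟩
          rw [d1 _ (by omega)] at j1 j2
          exact (g1 i (by omega)).2.1 I j1 j2 fun _ => j3
      refine nb (m5 I (i1 hA') fun i hi => ?_)
      rcases i with _ | i
      · exact (key 0 m1).1
      · exact (key i hi).2)
  have SK : ∀ v ∈ S, (v ∈ K ∧ ((∃ j ≤ k, v = c j) ∨ ∃ j < k, v = g j)) ∧ v ≠ c 0 ∧ v ≠ c k := by
    intro v hv
    rcases (hS v).1 hv with rfl | ⟨i, hi, rfl | rfl⟩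
    · refine ⟨dK 1 m1, fun e => ?_, fun e => ?_⟩
      · have := dc 1 m1 0 (by omega) e; omega
      · have := dc 1 m1 k le_rfl e; omega
    · rw [mem_range] at hi
      exact ⟨⟨(c3 i (by omega)).2.1 (g1 i (by omega)).1, Or.inr ⟨i, by omega, rfl⟩⟩,
        G1 i (by omega) (m3 i (by omega)) 0 (by omega), G1 i (by omega) (m3 i (by omega)) k le_rfl⟩
    · rw [mem_range] at hi
      refine ⟨dK _ (by omega), fun e => ?_, fun e => ?_⟩
      · have := dc _ (by omega) 0 (by omega) e; omega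
      · have := dc _ (by omega) k le_rfl e; omega
  refine ⟨S, fun v hv => ?_, p2, p1, fun v hv X hX hvX => ?_⟩
  · obtain ⟨⟨a, _⟩, b, b'⟩ := SK v hv
    exact mem_erase.2 ⟨ck ▸ b', mem_erase.2 ⟨c0 ▸ b, a⟩⟩
  · refine (loss hl K X ((Icc (l v - 1) (l v + 1)).image c ∪ (Icc (l v - 2) (l v + 1)).image g)
      v hvX fun s hs ha => ?_).trans (Nat.add_le_add_left ?_ _)
    · have b1 := l1 _ _ ha
      have b2 := l1 _ _ ha.symm
      have : (∃ j ≤ k, s = c j) ∨ ∃ j < k, s = g j := by
        rcases mem_insert.1 (hX hs) with rfl | q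
        · exact Or.inl ⟨0, by omega, c0.symm⟩
        rcases mem_insert.1 q with rfl | q
        · exact Or.inl ⟨k, le_rfl, ck.symm⟩
        · exact (SK s q).1.2
      rcases this with ⟨j, hj, rfl⟩ | ⟨j, hj, rfl⟩
      · have := (c2 j hj).1
        exact mem_union_left _ (mem_image_of_mem _ (mem_Icc.2 ⟨by omega, by omega⟩))
      · have := lg j hj
        exact mem_union_right _ (mem_image_of_mem _ (mem_Icc.2 ⟨by omega, by omega⟩))
    · refine (card_union_le _ _).trans ?_
      have h1 := card_image_le (s := Icc (l v - 1) (l v + 1)) (f := c)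
      have h2 := card_image_le (s := Icc (l v - 2) (l v + 1)) (f := g)
      rw [Nat.card_Icc] at h1 h2
      omega

end Pool.Agent.H18.Ae
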