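import Pool.Agent.H18.Ae3

namespace Pool.Agent.H18.Ae

open Finset

variable {V : Type} [DecidableEq V] {E : Finset (Finset V)}

theorem oddw (hl : Lin E) (hr : ∀ e ∈ E, e.card ≤ 3) (K : Finset V) (hc : Conn E K)
    (ho : K.card % 2 = 1) (hd : ∀ v ∈ K, 3 ≤ deg E K v) (A : Finset V) : EW E K A true := by
  refine EW.av _ _ (card_pos.1 (by omega)) fun y hy => ?_
  obtain ⟨z, z1, z2, z3⟩ := noncut hl hr K hc hd y hy
  have hz : z ∈ K.erase y := mem_erase.2 ⟨z2, z1⟩
  have hy1 : y ∈ K.erase z := mem_erase.2 ⟨z2.symm, hy⟩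
  have c1 := card_erase_of_mem z1
  have c2 := card_erase_of_mem hy1
  have c3 := card_pos.2 ⟨y, hy1⟩
  refine EW.en _ _ z hz ?_
  rw [erase_right_comm]
  refine EW.av _ _ (card_pos.1 (by omega)) fun y' hy' => ?_
  have c4 := card_erase_of_mem hy'
  rcases trap hl hr _ z3 y y' hy1 (mem_of_mem_erase hy') (mem_erase.1 hy').1
    (insert y' (insert y A)) (by simp) (by simp) with hb | ⟨S, s1, ⟨k, s2⟩, s3, _⟩
  · exact ew_bad _ _ _ _ rfl hb
  have c5 := card_le_card s1
  obtain ⟨w, w1, w2⟩ := exists_mem_notMem_of_card_lt_card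
    (s := S) (t := ((K.erase z).erase y).erase y') (by omega)
  have c6 := card_erase_of_mem w1
  refine EW.en _ _ w w1 (ext _ S _ _ rfl (subset_erase.2 ⟨s1, w2⟩) ?_ s3)
  rw [Nat.even_iff]
  omega

theorem evenw (hl : Lin E) (hr : ∀ e ∈ E, e.card ≤ 3) (K : Finset V) (hc : Conn E K)
    (hK : K.Nonempty) (ho : K.card % 2 = 0) (hd : ∀ v ∈ K, 13 ≤ deg E K v) (A : Finset V) :
    EW E K A true := by
  refine EW.av _ _ hK fun y hy => ?_
  obtain ⟨z, z1, z2, z3⟩ := noncut hl hr K hc (fun v hv => by have := hd v hv; omega) y hy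
  have hz : z ∈ K.erase y := mem_erase.2 ⟨z2, z1⟩
  have hy1 : y ∈ K.erase z := mem_erase.2 ⟨z2.symm, hy⟩
  have c1 := card_erase_of_mem z1
  have c2 := card_erase_of_mem hy1
  have c3 := card_pos.2 ⟨y, hy1⟩
  refine EW.en _ _ z hz ?_
  rw [erase_right_comm]
  have hd1 : ∀ v ∈ K.erase z, 12 ≤ deg E (K.erase z) v := fun v hv => by
    have := hd v (mem_of_mem_erase hv)
    have := loss1 hl K z v (mem_erase.1 hv).1
    omega
  have c0 : (K.erase z).card % 2 = 1 := by omega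
  clear c1 hz hd
  generalize K.erase z = K1 at *
  obtain ⟨w0, a0, b0, _⟩ := nbr (E := E) K1 y (by have := hd1 y hy1; omega)
  refine EW.av _ _ ⟨w0, mem_erase.2 ⟨b0, a0⟩⟩ fun y' hy' => ?_
  have c4 := card_erase_of_mem hy'
  have c4' := card_pos.2 ⟨y', hy'⟩
  rcases trap hl hr _ z3 y y' hy1 (mem_of_mem_erase hy') (mem_erase.1 hy').1
    (insert y' (insert y A)) (by simp) (by simp) with hb | ⟨S, s1, s2, s3, s4⟩
  · exact ew_bad _ _ _ _ rfl hb
  have yS : y ∉ insert y' S := by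
    intro h
    rcases mem_insert.1 h with h | h
    · exact (mem_erase.1 hy').1 h.symm
    · simpa using s1 h
  obtain ⟨w, w1, w2, _⟩ := nbr (E := E) (K1 \ insert y' S) y (by
    have := s4 y hy1 (insert y' S) (subset_insert _ _) yS
    have := hd1 y hy1
    omega)
  obtain ⟨w3, w4⟩ := mem_sdiff.1 w1
  rw [mem_insert, not_or] at w4
  have hw : w ∈ (K1.erase y).erase y' := mem_erase.2 ⟨w4.1, mem_erase.2 ⟨w2, w3⟩⟩
  have c5 := card_erase_of_mem hw
  have c5' := card_pos.2 ⟨w, hw⟩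
  have s5 : S ⊆ ((K1.erase y).erase y').erase w := subset_erase.2 ⟨s1, w4.2⟩
  have e1 : (K1 \ insert y (insert y' S)).erase w = (((K1.erase y).erase y').erase w) \ S := by
    ext v
    simp only [mem_erase, mem_sdiff, mem_insert]
    tauto
  have c6 := card_sdiff_of_subset s5
  have c7 := card_le_card s5
  obtain ⟨k, hk⟩ := id s2
  obtain ⟨C, t1, _, t3, t4, t5⟩ := par_comp hl hr ((K1 \ insert y (insert y' S)).erase w)
    (card_pos.1 (by rw [e1]; omega)) 3 (by omega) (fun v hv => by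
      obtain ⟨v1, v2⟩ := mem_erase.1 hv
      obtain ⟨v3, v4⟩ := mem_sdiff.1 v2
      have := s4 v v3 _ (Subset.refl _) v4
      have := hd1 v v3
      have := loss1 hl (K1 \ insert y (insert y' S)) w v v1
      omega) 1 (by omega)
  rw [e1] at t1
  have hdj : Disjoint S C := disjoint_of_subset_right t1 disjoint_sdiff
  refine EW.en _ _ w hw (ext _ (S ∪ C) _ _ rfl (union_subset s5 (t1.trans sdiff_subset)) ?_
    (two _ S C _ rfl hdj s2 (Nat.odd_iff.2 t4) s3 (oddw hl hr C t3 t4 t5 _)))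
  have c8 := card_le_card (union_subset s5 (t1.trans sdiff_subset))
  rw [card_union_of_disjoint hdj] at c8 ⊢
  rw [Nat.even_iff]
  omega

theorem even2 (hl : Lin E) (hr : ∀ e ∈ E, e.card ≤ 3) (U : Finset V) (hU : U.Nonempty)
    (ho : U.card % 2 = 0) (hd : ∀ v ∈ U, 14 ≤ deg E U v) : EW E U ∅ true := by
  obtain ⟨C, t1, t2, t3, t4, t5⟩ := par_comp hl hr U hU 13 (by omega) hd 0 (by omega)
  have := card_le_card t1
  exact ext _ C U _ rfl t1 (by rw [Nat.even_iff]; omega) (evenw hl hr C t3 t2 t4 t5 _)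

theorem main (hl : Lin E) (hr : ∀ e ∈ E, e.card ≤ 3) (U : Finset V) (hU : U.Nonempty)
    (hd : ∀ v ∈ U, 15 ≤ deg E U v) : EW E U ∅ (decide (Even U.card)) := by
  by_cases h : Even U.card
  · rw [decide_eq_true h]
    exact even2 hl hr U hU (Nat.even_iff.1 h) fun v hv => by have := hd v hv; omega
  · rw [decide_eq_false h]
    obtain ⟨z, hz⟩ := hU
    obtain ⟨w, a, b, _⟩ := nbr (E := E) U z (by have := hd z hz; omega)
    have := card_erase_of_mem hz
    rw [Nat.even_iff] at h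
    refine EW.en _ _ z hz (even2 hl hr _ ⟨w, mem_erase.2 ⟨b, a⟩⟩ (by omega) fun v hv => ?_)
    have := hd v (mem_of_mem_erase hv)
    have := loss1 hl U z v (mem_erase.1 hv).1
    omega

end Pool.Agent.H18.Ae
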