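import Mathlib

namespace Pool.Agent.H18.Ae

/-- `EW E U A b`: in the Avoider-Enforcer game on the edge set `E`, with `U` the unpicked
vertices, `A` the vertices picked so far by Avoider, and Avoider to move iff `b = true`,
Enforcer has a winning strategy (at the end Avoider's set contains an edge). -/
inductive EW {V : Type} [DecidableEq V] (E : Finset (Finset V)) :
    Finset V → Finset V → Bool → Prop
  | fin (A : Finset V) (b : Bool) : (∃ e ∈ E, e ⊆ A) → EW E ∅ A b
  | av (U A : Finset V) : U.Nonempty → (∀ v ∈ U, EW E (U.erase v) (insert v A) false) →
      EW E U A true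
  | en (U A : Finset V) (v : V) : v ∈ U → EW E (U.erase v) A true → EW E U A false

end Pool.Agent.H18.Ae
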