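import Mathlib

/-!
A colouring of the non-zero integers by the level modulo three and the unit part modulo 27.
-/

namespace Pool.Agent.H18.Aip

/-- colours -/
abbrev Col := ZMod 3 × ZMod 27

/-- level modulo 3 and unit part modulo 27 -/
def col (X : ℤ) : Col := ((padicValInt 3 X : ℕ), ((X / 3 ^ padicValInt 3 X : ℤ) : ZMod 27))

/-- the first two colours have the least level -/
def S (a b c : Col) : Prop := a.1 = b.1 ∧ (a.2 + b.2 = 0 ∨ a.2 + b.2 + 3 ^ (c.1 - a.1).val * c.2 = 0)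

/-- necessary condition for three colours of numbers with sum zero -/
def R (a b c : Col) : Prop :=
  9 * a.2 ≠ 0 ∧ 9 * b.2 ≠ 0 ∧ 9 * c.2 ≠ 0 ∧ (S a b c ∨ S b c a ∨ S c a b)

instance (a b c : Col) : Decidable (S a b c) := by unfold S; infer_instance
instance (a b c : Col) : Decidable (R a b c) := by unfold R; infer_instance

theorem unit_iff (u : ℤ) : 9 * (u : ZMod 27) ≠ 0 ↔ ¬ (3 : ℤ) ∣ u := by
  have : 9 * (u : ZMod 27) = ((9 * u : ℤ) : ZMod 27) := by push_cast; rfl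
  rw [this, Ne, ZMod.intCast_zmod_eq_zero_iff_dvd]
  push_cast
  omega

theorem col_eq (v : ℕ) (u : ℤ) (h : ¬ (3 : ℤ) ∣ u) : col (3 ^ v * u) = ((v : ZMod 3), (u : ZMod 27)) := by
  haveI : Fact (Nat.Prime 3) := ⟨by norm_num⟩
  have h0 : u ≠ 0 := by rintro rfl; simp at h
  have : padicValInt 3 (3 ^ v * u) = v := by
    rw [padicValInt.mul (by positivity) h0, padicValInt.eq_zero_of_not_dvd (p := 3) h]
    simp [padicValInt, Int.natAbs_pow, padicValNat.prime_pow]
  rw [col, this, Int.mul_ediv_cancel_left _ (by positivity)]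

theorem decomp (X : ℤ) (h : X ≠ 0) : ∃ (v : ℕ) (u : ℤ), ¬ (3 : ℤ) ∣ u ∧ X = 3 ^ v * u := by
  obtain ⟨v, u, h1, h2⟩ := WfDvdMonoid.max_power_factor h (Int.prime_three.irreducible)
  exact ⟨v, u, h1, h2⟩

theorem s_of (a b d : ℕ) (u v w : ℤ) (hu : ¬ (3 : ℤ) ∣ u) (hv : ¬ (3 : ℤ) ∣ v)
    (hab : a ≤ b) (hd : b ≤ d) (h : 3 ^ a * u + 3 ^ b * v + 3 ^ d * w = 0) :
    S ((a : ZMod 3), (u : ZMod 27)) (b, v) (d, w) := by
  obtain ⟨b, rfl⟩ := Nat.exists_eq_add_of_le hab
  obtain ⟨d, rfl⟩ := Nat.exists_eq_add_of_le hd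
  have h1 : u + 3 ^ b * v + 3 ^ (b + d) * w = 0 := by
    refine mul_left_cancel₀ (show (3 : ℤ) ^ a ≠ 0 by positivity) ?_
    rw [mul_zero, ← h]; ring
  obtain rfl : b = 0 := by
    by_contra hb
    obtain ⟨b, rfl⟩ : ∃ j, b = j + 1 := ⟨b - 1, by omega⟩
    exact hu ⟨-(3 ^ b * v + 3 ^ (b + d) * w), by linear_combination h1⟩
  have h2 : (u : ZMod 27) + v + 3 ^ d * w = 0 := by
    have := congrArg (Int.cast : ℤ → ZMod 27) h1
    simpa using this
  refine ⟨by simp, ?_⟩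
  by_cases h3 : d < 3
  · right
    have : (((a + 0 + d : ℕ) : ZMod 3) - (a : ZMod 3)).val = d := by
      rw [show ((a + 0 + d : ℕ) : ZMod 3) - (a : ZMod 3) = (d : ℕ) by push_cast; ring,
        ZMod.val_natCast, Nat.mod_eq_of_lt h3]
    simp only [this]; exact h2
  · left
    obtain ⟨d, rfl⟩ : ∃ j, d = j + 3 := ⟨d - 3, by omega⟩
    have : (3 : ZMod 27) ^ 3 = 0 := by decide
    rw [pow_add, this] at h2
    simpa using h2

theorem S.symm {a b c : Col} (h : S a b c) : S b a c :=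
  ⟨h.1.symm, by rw [add_comm b.2, ← h.1]; exact h.2⟩

theorem r_col (X Y Z : ℤ) (hX : X ≠ 0) (hY : Y ≠ 0) (hZ : Z ≠ 0) (h : X + Y + Z = 0) :
    R (col X) (col Y) (col Z) := by
  obtain ⟨a, u, hu, rfl⟩ := decomp X hX
  obtain ⟨b, v, hv, rfl⟩ := decomp Y hY
  obtain ⟨d, w, hw, rfl⟩ := decomp Z hZ
  rw [col_eq _ _ hu, col_eq _ _ hv, col_eq _ _ hw]
  refine ⟨(unit_iff u).2 hu, (unit_iff v).2 hv, (unit_iff w).2 hw, ?_⟩
  rcases le_total a b with h1 | h1 <;> rcases le_total b d with h2 | h2 <;>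
    rcases le_total a d with h3 | h3
  · exact Or.inl (s_of a b d u v w hu hv h1 h2 h)
  · exact Or.inl (s_of a b d u v w hu hv h1 h2 h)
  · exact Or.inr (Or.inr (s_of a d b u w v hu hw h3 h2 (by linarith)).symm)
  · exact Or.inr (Or.inr (s_of d a b w u v hw hu h3 h1 (by linarith)))
  · exact Or.inl (s_of b a d v u w hv hu h1 h3 (by linarith)).symm
  · exact Or.inr (Or.inl (s_of b d a v w u hv hw h2 h3 (by linarith)))
  · exact Or.inr (Or.inl (s_of d b a w v u hw hv h2 h1 (by linarith)).symm)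
  · exact Or.inr (Or.inl (s_of d b a w v u hw hv h2 h1 (by linarith)).symm)

theorem R.rot {a b c : Col} (h : R a b c) : R b c a :=
  ⟨h.2.1, h.2.2.1, h.1, by have := h.2.2.2; tauto⟩

theorem R.swap {a b c : Col} (h : R a b c) : R b a c :=
  ⟨h.2.1, h.1, h.2.2.1, by
    rcases h.2.2.2 with k | k | k
    exacts [Or.inl k.symm, Or.inr (Or.inr k.symm), Or.inr (Or.inl k.symm)]⟩

/-- lowering the level by one -/
def sh (a : Col) : Col := (a.1 - 1, a.2)

theorem S.sh {a b c : Col} (h : S a b c) : S (sh a) (sh b) (sh c) :=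
  ⟨by simp [Aip.sh, h.1], by simpa [Aip.sh] using h.2⟩

theorem R.sh {a b c : Col} (h : R a b c) : R (sh a) (sh b) (sh c) :=
  ⟨h.1, h.2.1, h.2.2.1, h.2.2.2.imp S.sh (Or.imp S.sh S.sh)⟩

/-- the value read from a colour of level one or two -/
def W (a : Col) : ZMod 27 := if a.1 = 1 then a.2 else 3 * a.2

theorem stepA (δ x : ZMod 27) (a : Col) (hx : 9 * x = 0) (h0 : x ≠ 0)
    (h1 : R a (0, δ * 1) (0, δ * (-x - 1))) (h2 : R a (0, δ * 4) (0, δ * (-x - 4))) :
    a.1 ≠ 0 ∧ 3 * W a = δ * x := by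
  revert δ x a
  decide +kernel

theorem S.stepB {a b c : Col} (h : S a b c) (ha : a.1 ≠ 0) (hc : c.1 ≠ 0) (h3 : 3 * W c ≠ 0)
    (h4 : 3 * W a + 3 * W b + 3 * W c = 0) : W a + W b + W c = 0 := by
  obtain ⟨a1, a2⟩ := a
  obtain ⟨b1, b2⟩ := b
  obtain ⟨c1, c2⟩ := c
  obtain ⟨e, h⟩ := h
  dsimp only at e ha hc h
  subst e
  have k : ∀ x : ZMod 3, x ≠ 0 → x = 1 ∨ x = 2 := by decide
  have w1 : ∀ x, W (1, x) = x := fun x => if_pos rfl
  have w2 : ∀ x, W (2, x) = 3 * x := fun x => if_neg (show (2 : ZMod 3) ≠ 1 by decide)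
  have z : (27 : ZMod 27) = 0 := by decide
  have v0 : ∀ x : ZMod 3, (x - x).val = 0 := by decide
  have v1 : ((2 : ZMod 3) - 1).val = 1 := by decide
  have v2 : ((1 : ZMod 3) - 2).val = 2 := by decide
  rcases k _ ha with rfl | rfl <;> rcases k _ hc with rfl | rfl <;>
    simp only [w1, w2, v0, v1, v2] at * <;> rcases h with h | h
  · exact absurd (by linear_combination h4 - 3 * h) h3
  · linear_combination h
  · exact absurd (by linear_combination h4 - 3 * h) h3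
  · linear_combination h
  · exact absurd (by linear_combination h4 - 9 * h) h3
  · exact absurd (by linear_combination h4 - 9 * h + 3 * c2 * z) h3
  · exact absurd (by linear_combination h4 - 9 * h) h3
  · linear_combination 3 * h

theorem stepB {a b c : Col} (h : R a b c) (ha : a.1 ≠ 0) (hb : b.1 ≠ 0) (hc : c.1 ≠ 0)
    (h1 : 3 * W a ≠ 0) (h2 : 3 * W b ≠ 0) (h3 : 3 * W c ≠ 0)
    (h4 : 3 * W a + 3 * W b + 3 * W c = 0) : W a + W b + W c = 0 := by
  rcases h.2.2.2 with k | k | k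
  · exact k.stepB ha hc h3 h4
  · linear_combination k.stepB hb ha h1 (by linear_combination h4)
  · linear_combination k.stepB hc hb h2 (by linear_combination h4)

theorem stepD (a : Col) (ha : a.1 ≠ 0) (h : 9 * W a ≠ 0) : sh a = (0, W a) := by
  revert a
  decide +kernel

end Pool.Agent.H18.Aip
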