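import Pool.Agent.H18.Aip1

/-!
No periodic system of colours: descent on the period.
-/

namespace Pool.Agent.H18.Aip

/-- additivity off the multiples of nine -/
def Ad (f g h : ℤ → ZMod 27) : Prop :=
  ∀ x y z : ℤ, x + y + z = 0 → ¬ 9 ∣ x → ¬ 9 ∣ y → ¬ 9 ∣ z → f x + g y + h z = 0

variable {f g h : ℤ → ZMod 27}

theorem Ad.swap (H : Ad f g h) : Ad g f h := fun x y z e a b c => by
  linear_combination H y x z (by omega) b a c

theorem Ad.rot (H : Ad f g h) : Ad h g f := fun x y z e a b c => by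
  linear_combination H z y x (by omega) c b a

theorem Ad.diff (H : Ad f g h) (w w' t t' : ℤ) (e : w' + t = w + t') (a : ¬ 9 ∣ w) (b : ¬ 9 ∣ w')
    (c : ¬ 9 ∣ t) (d : ¬ 9 ∣ t') (k : ¬ 9 ∣ w + t') : f w' - f w = g t' - g t := by
  linear_combination H w' t (-(w + t')) (by omega) b c (by omega) -
    H w t' (-(w + t')) (by omega) a d (by omega)

theorem Ad.aff (H : Ad f g h) (w : ℤ) (hw : ¬ 9 ∣ w) : f w = f 1 + (g 2 - g 1) * (w - 1) := by
  have e1 := H.diff 1 2 1 2 (by omega) (by omega) (by omega) (by omega) (by omega) (by omega)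
  have e2 := H.diff 1 2 2 3 (by omega) (by omega) (by omega) (by omega) (by omega) (by omega)
  have d1 : ∀ w, ¬ 9 ∣ w → ¬ 9 ∣ w + 1 → f (w + 1) = f w + (g 2 - g 1) := fun w a b => by
    by_cases c : 9 ∣ w + 2
    · linear_combination H.diff w (w + 1) 2 3 (by omega) a b (by omega) (by omega) (by omega)
        - e2 + e1
    · linear_combination H.diff w (w + 1) 1 2 (by omega) a b (by omega) (by omega) c
  have d2 : ∀ w, 9 ∣ w + 1 → f (w + 1 + 1) = f w + 2 * (g 2 - g 1) := fun w a => by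
    linear_combination H.diff w (w + 1 + 1) 1 3 (by omega) (by omega) (by omega) (by omega)
      (by omega) (by omega) - e2 + e1
  have key : ∀ w : ℤ, (¬ 9 ∣ w → f w = f 1 + (g 2 - g 1) * (w - 1)) ∧
      (¬ 9 ∣ w + 1 → f (w + 1) = f 1 + (g 2 - g 1) * w) := fun w => by
    induction w using Int.induction_on with
    | zero => exact ⟨fun a => absurd (dvd_zero _) a, fun _ => by simp⟩
    | succ n ih =>
      refine ⟨fun a => by rw [ih.2 a]; push_cast; ring, fun a => ?_⟩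
      by_cases b : (9 : ℤ) ∣ n + 1
      · rw [d2 _ b, ih.1 (by omega)]; push_cast; ring
      · rw [d1 _ b a, ih.2 b]; push_cast; ring
    | pred n ih =>
      refine ⟨fun a => ?_, fun a => ?_⟩
      · by_cases b : (9 : ℤ) ∣ -n
        · have k1 := d2 (-n - 1) (by omega)
          have k2 := ih.2 (by omega)
          rw [show (-n - 1 + 1 + 1 : ℤ) = -n + 1 by ring] at k1
          push_cast at k2 ⊢
          linear_combination k2 - k1
        · have k1 := d1 (-n - 1) a (by omega)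
          have k2 := ih.1 b
          rw [sub_add_cancel] at k1
          push_cast at k2 ⊢
          linear_combination k2 - k1
      · rw [sub_add_cancel] at a ⊢
        rw [ih.1 a]; push_cast; ring
  exact (key w).1 hw

/-- a system of colours with period `3 ^ q` that is natural on the units -/
def P (q : ℕ) : Prop := ∃ (f g h : ℤ → Col) (δ : ZMod 27),
  (∀ w, f (w + 3 ^ q) = f w ∧ g (w + 3 ^ q) = g w ∧ h (w + 3 ^ q) = h w) ∧
  (∀ x y z, x + y + z = 0 → R (f x) (g y) (h z)) ∧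
  ∀ u : ℤ, ¬ 3 ∣ u → f u = (0, δ * u) ∧ g u = (0, δ * u) ∧ h u = (0, δ * u)

theorem not_P : ¬ P 0 := fun ⟨f, g, h, δ, a, b, c⟩ => by
  have e1 := (c 1 (by omega)).1
  have e2 := (c (1 + 3 ^ 0) (by omega)).1
  have := (b 1 1 (-2) (by omega)).1
  rw [(a 1).1, e1] at e2
  rw [e1] at this
  have e3 := congrArg Prod.snd e2
  simp only [Int.cast_one, pow_zero, Int.cast_add] at e3 this
  exact this (by linear_combination -9 * e3)

theorem nine_iff (u : ℤ) : 3 * (u : ZMod 27) ≠ 0 ↔ ¬ (9 : ℤ) ∣ u := by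
  have : 3 * (u : ZMod 27) = ((3 * u : ℤ) : ZMod 27) := by push_cast; rfl
  rw [this, Ne, ZMod.intCast_zmod_eq_zero_iff_dvd]
  push_cast
  omega

theorem det {f g h : ℤ → Col} {δ : ZMod 27} (b : ∀ x y z, x + y + z = 0 → R (f x) (g y) (h z))
    (c : ∀ u : ℤ, ¬ 3 ∣ u → g u = (0, δ * u) ∧ h u = (0, δ * u)) (w : ℤ) (hw : ¬ 9 ∣ w) :
    (f (3 * w)).1 ≠ 0 ∧ 3 * W (f (3 * w)) = δ * (3 * w) := by
  have h1 := b (3 * w) 1 (-(3 * w) - 1) (by omega)
  have h2 := b (3 * w) 4 (-(3 * w) - 4) (by omega)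
  rw [(c _ (by omega)).1, (c _ (by omega)).2] at h1 h2
  push_cast at h1 h2
  have z : (27 : ZMod 27) = 0 := by decide
  exact stepA δ (3 * w) _ (by linear_combination (w : ZMod 27) * z)
    ((nine_iff w).2 hw) h1 h2

theorem P.step {q : ℕ} (hP : P (q + 1)) : P q := by
  obtain ⟨f, g, h, δ, a, b, c⟩ := hP
  have hδ : 9 * δ ≠ 0 := by
    have := (b 1 1 (-2) (by omega)).1
    rw [(c 1 (by omega)).1] at this
    simpa using this
  have d1 := det b fun u hu => (c u hu).2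
  have d2 := det (f := g) (g := f) (fun x y z e => (b y x z (by omega)).swap)
    fun u hu => ⟨(c u hu).1, (c u hu).2.2⟩
  have d3 := det (f := h) (g := f) (h := g) (fun x y z e => (b y z x (by omega)).rot.rot)
    fun u hu => ⟨(c u hu).1, (c u hu).2.1⟩
  have nz : ∀ δ x : ZMod 27, 9 * δ ≠ 0 → 3 * x ≠ 0 → δ * (3 * x) ≠ 0 := by decide +kernel
  have H : Ad (fun w => W (f (3 * w))) (fun w => W (g (3 * w))) (fun w => W (h (3 * w))) :=
    fun x y z e h1 h2 h3 => by
      refine stepB (b _ _ _ (by omega)) (d1 x h1).1 (d2 y h2).1 (d3 z h3).1 ?_ ?_ ?_ ?_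
      · rw [(d1 x h1).2]; exact nz _ _ hδ ((nine_iff x).2 h1)
      · rw [(d2 y h2).2]; exact nz _ _ hδ ((nine_iff y).2 h2)
      · rw [(d3 z h3).2]; exact nz _ _ hδ ((nine_iff z).2 h3)
      · have := congrArg (Int.cast : ℤ → ZMod 27) e
        push_cast at this
        rw [(d1 x h1).2, (d2 y h2).2, (d3 z h3).2]
        linear_combination 3 * δ * this
  have a1 := H.aff
  have a2 := H.swap.aff
  have a3 := H.rot.aff
  have s0 := H 1 1 (-2) (by omega) (by omega) (by omega) (by omega)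
  have e1 := a1 2 (by omega)
  have e3 := a3 (-2) (by omega)
  have k1 := (d1 1 (by omega)).2
  have k2 := (d2 1 (by omega)).2
  have k3 := (d2 2 (by omega)).2
  dsimp only at a1 a2 a3 s0 e1 e3
  generalize W (f (3 * 1)) = f1 at *
  generalize W (g (3 * 1)) = g1 at *
  generalize W (h (3 * 1)) = h1 at *
  generalize W (f (3 * 2)) = f2 at *
  generalize W (g (3 * 2)) = g2 at *
  generalize W (h (3 * -2)) = h2 at *
  obtain ⟨ε, hε⟩ : ∃ ε, ε = g2 - g1 := ⟨_, rfl⟩
  rw [← hε] at a1 a3 e1 e3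
  push_cast at e1 e3 k1 k2 k3
  have e4 : 3 * ε = 3 * δ := by linear_combination 3 * hε + k3 - k2
  have ex : ∀ δ ε c : ZMod 27, 9 * δ ≠ 0 → 3 * ε = 3 * δ → 3 * c = 0 →
      c + ε * ((-(c * ε)).val : ℕ) = 0 ∧ 3 ∣ ((-(c * ε)).val : ℕ) := by
    decide +kernel
  obtain ⟨l1, p1, q1⟩ : ∃ l : ℕ, f1 - ε + ε * l = 0 ∧ 3 ∣ l :=
    ⟨_, ex δ ε _ hδ e4 (by linear_combination k1 - e4)⟩
  obtain ⟨l2, p2, q2⟩ : ∃ l : ℕ, g1 - ε + ε * l = 0 ∧ 3 ∣ l :=
    ⟨_, ex δ ε _ hδ e4 (by linear_combination k2 - e4)⟩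
  have un : ∀ δ ε u : ZMod 27, 9 * δ ≠ 0 → 3 * ε = 3 * δ → 9 * u ≠ 0 → 9 * (ε * u) ≠ 0 := by
    decide +kernel
  have fin : ∀ (a : Col) (u : ℤ), ¬ 3 ∣ u → a.1 ≠ 0 → W a = ε * u → sh a = (0, ε * u) :=
    fun a u hu h0 e => e ▸ stepD a h0 (e ▸ un δ ε u hδ e4 ((unit_iff u).2 hu))
  refine ⟨fun w => sh (f (3 * (l1 + w))), fun w => sh (g (3 * (l2 + w))),
    fun w => sh (h (3 * (-l1 - l2 + w))), ε, fun w => ?_, fun x y z e => (b _ _ _ (by omega)).sh,
    fun u hu => ⟨fin _ u hu (d1 _ (by omega)).1 ?_, fin _ u hu (d2 _ (by omega)).1 ?_,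
      fin _ u hu (d3 _ (by omega)).1 ?_⟩⟩
  · have k : ∀ l : ℤ, 3 * (l + (w + 3 ^ q)) = 3 * (l + w) + 3 ^ (q + 1) := fun l => by ring
    simp only [k, (a _).1, (a _).2.1, (a _).2.2, and_self]
  · rw [a1 _ (by omega)]; push_cast; linear_combination p1
  · rw [a2 _ (by omega)]; push_cast; linear_combination p2 + ((l2 : ZMod 27) + u - 1) * e1
  · rw [a3 _ (by omega)]; push_cast; linear_combination s0 - e3 - p1 - p2

theorem no_P (q : ℕ) : ¬ P q := by
  induction q with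
  | zero => exact not_P
  | succ q ih => exact fun h => ih h.step

end Pool.Agent.H18.Aip
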