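import Mathlib

set_option autoImplicit false

namespace H18.Beur
open scoped NNReal ENNReal

variable {X : Type} [MetricSpace X] {I : Type}

/-- `g ∈ Lip_0(X)` for the base point `o` -/
def Lip0 (o : X) (g : X → ℝ) : Prop := g o = 0 ∧ ∃ K : ℝ≥0, LipschitzWith K g

/-- the difference quotient `D_{p,q} g` -/
noncomputable def D (p q : X) (g : X → ℝ) : ℝ := (g p - g q) / dist p q

/-- `T : Lip_0(X) → ℓ_∞(I)` is onto -/
def Interp (o : X) (x y : I → X) : Prop :=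
  ∀ α : I → ℝ, (∃ C, ∀ i, |α i| ≤ C) → ∃ g, Lip0 o g ∧ ∀ i, D (x i) (y i) g = α i

/-- the interpolation constant -/
noncomputable def const (o : X) (x y : I → X) : ℝ≥0∞ :=
  ⨅ (K : ℝ≥0) (_ : 1 ≤ K ∧ ∀ α : I → ℝ, (∀ i, |α i| ≤ 1) →
    ∃ g : X → ℝ, g o = 0 ∧ LipschitzWith K g ∧ ∀ i, D (x i) (y i) g = α i), (K : ℝ≥0∞)

end H18.Beur
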