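import Pool.Agent.H18.TJO2
import Pool.Agent.H18.BeurDefs

set_option autoImplicit false

namespace H18.Beur
open Finset H18.TJ

variable {X : Type} [MetricSpace X] {I : Type} [DecidableEq I] (o : X) (x y : I → X) {M : ℝ}

def Good (x y : I → X) (M : ℝ) : Prop := ∀ δ > 0, ∀ α : I → ℝ, (∀ i, |α i| ≤ 1) →
  ∃ g : X → ℝ, (∀ p q, |g p - g q| ≤ (M + δ) * dist p q) ∧
    ∀ i, g (x i) - g (y i) = α i * dist (x i) (y i)

lemma fin_case (hM : 0 ≤ M) (h : Good x y M) (V : Finset X) (J : Finset I) (ho : o ∈ V)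
    (hx : ∀ i ∈ J, x i ∈ V) (hy : ∀ i ∈ J, y i ∈ V) :
    ∃ F : I → X → ℝ, (∀ i p, |F i p| ≤ M * dist p o) ∧
      (∀ i ∈ J, ∀ j ∈ J, F i (x j) - F i (y j) = if i = j then dist (x j) (y j) else 0) ∧
      ∀ p ∈ V, ∀ q ∈ V, ∑ i ∈ J, |F i p - F i q| ≤ M * dist p q := by
  classical
  let s : (V × V) ⊕ J → V := Sum.elim (·.1) fun i => ⟨x i, hx i i.2⟩
  let t : (V × V) ⊕ J → V := Sum.elim (·.2) fun i => ⟨y i, hy i i.2⟩
  let w : (V × V) ⊕ J → ℝ := Sum.elim (fun e => M * dist (e.1 : X) e.2) fun i => dist (x i) (y i)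
  let J' : Finset ((V × V) ⊕ J) := univ.map Function.Embedding.inr
  obtain ⟨f, f1, f2⟩ := packing s t J' _ w (by rintro (e | i) <;> simp only [w, Sum.elim_inl,
      Sum.elim_inr] <;> positivity) (fun S hS => by
    obtain ⟨ε, e1, e2⟩ := orient s t (symmDiff S J') ⟨o, ho⟩ ⟨o, ho⟩ (by rw [bd_sd, hS, two, two])
    have e3 : ∀ e, |ε e| = 1 := fun e => by rcases e1 e with h | h <;> simp [h]
    let c := ∑ e, dist (s e : X) (t e)
    have hc : 0 ≤ c := sum_nonneg fun _ _ => dist_nonneg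
    refine le_of_forall_pos_le_add fun η hη => ?_
    obtain ⟨g, g1, g2⟩ := h (η / (c + 1)) (by positivity)
      (fun i => if h : i ∈ J then ε (.inr ⟨i, h⟩) else 0) fun i => by split_ifs <;> simp [e3]
    have h1 := e2 fun v => g v
    rw [sub_self, ← univ_inter (symmDiff S J'), ← filter_mem_eq_inter, sum_filter] at h1
    have h2 : wt w J' - wt w S - η / (c + 1) * c ≤ 0 := by
      rw [← h1, wt, wt, mul_sum, ← sum_sub_distrib, ← sum_sub_distrib]
      refine sum_le_sum fun e _ => ?_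
      have h0 : 0 ≤ η / (c + 1) * dist (s e : X) (t e) := by positivity
      rcases e with e | i
      · have h3 := g1 e.1 e.2
        have h4 := neg_abs_le (ε (.inl e) * (g e.1 - g e.2))
        rw [abs_mul, e3, one_mul] at h4
        by_cases hS : Sum.inl e ∈ S <;> simp [J', mem_symmDiff, hS, w, s, t] at h0 ⊢ <;> linarith
      · have h3 := g2 i
        have h4 : ε (.inr i) * ε (.inr i) = 1 := by rcases e1 (.inr i) with h | h <;> simp [h]
        simp only [i.2, dite_true] at h3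
        by_cases hS : Sum.inr i ∈ S <;> simp [J', mem_symmDiff, hS, w, s, t, h3, ← mul_assoc, h4]
          at h0 ⊢ <;> linarith
    have h3 : η / (c + 1) * c ≤ η := by
      rw [div_mul_eq_mul_div, div_le_iff₀ (by positivity)]; nlinarith
    linarith) rfl
  let F : I → X → ℝ := fun i p =>
    if h : i ∈ J ∧ p ∈ V then f (.inr ⟨i, h.1⟩) ⟨p, h.2⟩ - f (.inr ⟨i, h.1⟩) ⟨o, ho⟩ else 0
  have k : ∀ p ∈ V, ∀ q ∈ V, ∑ i ∈ J, |F i p - F i q| ≤ M * dist p q := fun p hp q hq => by
    have := f2 (.inl (⟨p, hp⟩, ⟨q, hq⟩))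
    rw [sum_map] at this
    rw [← sum_coe_sort]
    refine le_trans (le_of_eq (sum_congr rfl fun i _ => ?_)) this
    simp [F, hp, hq, s, t]
  refine ⟨F, fun i p => ?_, fun i hi j hj => ?_, k⟩
  · by_cases h : i ∈ J ∧ p ∈ V
    · have := (single_le_sum (f := fun i => |F i p - F i o|) (fun _ _ => abs_nonneg _) h.1).trans
        (k p h.2 o ho)
      simpa [F, ho, h] using this
    · simp only [F, h, dite_false, abs_zero]; positivity
  · have := f1 (.inr ⟨i, hi⟩) (by simp [J']) (.inr ⟨j, hj⟩) (by simp [J'])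
    simpa [F, hi, hx j hj, hy j hj, s, t, w] using this

lemma all_case (hM : 0 ≤ M) (h : Good x y M) :
    ∃ F : I → X → ℝ, (∀ i, F i o = 0) ∧
      (∀ i j, F i (x j) - F i (y j) = if i = j then dist (x j) (y j) else 0) ∧
      ∀ p q, ∀ J : Finset I, ∑ i ∈ J, |F i p - F i q| ≤ M * dist p q := by
  classical
  have cpt : IsCompact (Set.pi Set.univ fun _ : I => Set.pi Set.univ fun p : X =>
      Set.Icc (-(M * dist p o)) (M * dist p o)) :=
    isCompact_univ_pi fun _ => isCompact_univ_pi fun _ => isCompact_Icc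
  obtain ⟨F, h1, h2⟩ := cpt.inter_iInter_nonempty (fun l : X × X × Finset I => {F : I → X → ℝ |
      (∀ i ∈ l.2.2, ∀ j ∈ l.2.2, F i (x j) - F i (y j) = if i = j then dist (x j) (y j) else 0) ∧
      ∑ i ∈ l.2.2, |F i l.1 - F i l.2.1| ≤ M * dist l.1 l.2.1}) (fun l => by
    simp only [Set.setOf_and, Set.setOf_forall]
    refine (isClosed_iInter fun i => isClosed_iInter fun _ => isClosed_iInter fun j =>
      isClosed_iInter fun _ => isClosed_eq (by fun_prop) continuous_const).inter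
      (isClosed_le (by fun_prop) continuous_const)) fun u => by
    let J := u.biUnion fun l => l.2.2
    obtain ⟨F, f1, f2, f3⟩ := fin_case o x y hM h (insert o (u.image (·.1) ∪ u.image (·.2.1) ∪
      J.image x ∪ J.image y)) J (mem_insert_self _ _)
      (fun i hi => by simp [mem_image_of_mem x hi]) (fun i hi => by simp [mem_image_of_mem y hi])
    refine ⟨F, fun i _ p _ => abs_le.1 (f1 i p), Set.mem_iInter₂.2 fun l hl => ?_⟩
    have hJ : l.2.2 ⊆ J := subset_biUnion_of_mem (fun l : X × X × Finset I => l.2.2) hl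
    refine ⟨fun i hi j hj => f2 i (hJ hi) j (hJ hj), le_trans
      (sum_le_sum_of_subset_of_nonneg hJ fun _ _ _ => abs_nonneg _) (f3 _ ?_ _ ?_)⟩
    · exact mem_insert_of_mem (mem_union_left _ (mem_union_left _ (mem_union_left _
        (mem_image_of_mem _ hl))))
    · exact mem_insert_of_mem (mem_union_left _ (mem_union_left _ (mem_union_right _
        (mem_image_of_mem _ hl))))
  rw [Set.mem_iInter] at h2
  refine ⟨F, fun i => ?_, fun i j => (h2 (o, o, {i, j})).1 i (by simp) j (by simp),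
    fun p q J => (h2 (p, q, J)).2⟩
  simpa using h1 i trivial o trivial

end H18.Beur
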