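import Mathlib

set_option autoImplicit false

namespace Pool.Agent.H18.Boxes

open Filter Topology

def sg (b : Bool) : ℝ := if b then 1 else -1

lemma sg_sq (b : Bool) : sg b * sg b = 1 := by cases b <;> simp [sg]
lemma sg_ne {a b : Bool} (h : a ≠ b) : sg b = - sg a := by
  cases a <;> cases b <;> simp [sg] at h ⊢

lemma rho_lt {n : ℕ} (i k : Fin (n + 2)) (h : i + 1 ≠ k) :
    (i - k).val < (i + 1 - k).val := by
  have e : i + 1 - k = (i - k) + 1 := by abel
  rw [e, Fin.val_add_one]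
  split_ifs with h1
  · exfalso; apply h
    have : (i - k) + 1 = 0 := by rw [h1]; exact Fin.last_add_one _
    rw [← e] at this
    exact sub_eq_zero.mp this
  · omega

/-- hierarchical perturbation -/
lemma hier (n : ℕ) (k : ℕ) (hk : k ≤ n + 2) :
    ∃ z w : (Fin (n + 2) → Bool) → Fin (n + 2) → ℝ, (∀ σ i, 0 < w σ i) ∧
      (∀ σ σ', (∀ m : Fin (n + 2), m.val < k → σ m = σ' m) → z σ = z σ' ∧ w σ = w σ') ∧
      ∀ σ σ', (∃ m : Fin (n + 2), m.val < k ∧ σ m ≠ σ' m) → ∀ i, σ i = σ' i →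
        σ (i + 1) = σ' (i + 1) →
        (z σ' i - z σ i) * w σ (i + 1) < (z σ' (i + 1) - z σ (i + 1)) * w σ i := by
  induction k with
  | zero =>
    refine ⟨fun _ _ => 0, fun _ _ => 1, by simp, by simp, ?_⟩
    rintro σ σ' ⟨m, hm, -⟩; omega
  | succ k ih =>
    obtain ⟨z, w, hw, hag, hlt⟩ := ih (by omega)
    let kk : Fin (n + 2) := ⟨k, by omega⟩
    let z' : ℝ → (Fin (n + 2) → Bool) → Fin (n + 2) → ℝ :=
      fun η σ i => z σ i + sg (σ kk) * η * w σ i
    let w' : ℝ → (Fin (n + 2) → Bool) → Fin (n + 2) → ℝ :=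
      fun η σ i => w σ i * (1 + sg (σ kk) * η * ((i - kk).val : ℝ))
    have e1 : ∀ᶠ η in 𝓝 (0 : ℝ), ∀ σ i, 0 < w' η σ i := by
      rw [eventually_all]; intro σ; rw [eventually_all]; intro i
      apply ContinuousAt.eventually_lt (f := fun _ => (0 : ℝ)) (g := fun η => w' η σ i)
      · fun_prop
      · simp only [w']; fun_prop
      · simp [w', hw]
    have e2 : ∀ᶠ η in 𝓝 (0 : ℝ), ∀ σ σ', (∃ m : Fin (n + 2), m.val < k ∧ σ m ≠ σ' m) → ∀ i,
        σ i = σ' i → σ (i + 1) = σ' (i + 1) →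
        (z' η σ' i - z' η σ i) * w' η σ (i + 1) <
          (z' η σ' (i + 1) - z' η σ (i + 1)) * w' η σ i := by
      rw [eventually_all]; intro σ; rw [eventually_all]; intro σ'
      rw [eventually_all]; intro h; rw [eventually_all]; intro i
      rw [eventually_all]; intro h1; rw [eventually_all]; intro h2
      apply ContinuousAt.eventually_lt
        (f := fun η => (z' η σ' i - z' η σ i) * w' η σ (i + 1))
        (g := fun η => (z' η σ' (i + 1) - z' η σ (i + 1)) * w' η σ i)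
      · simp only [w', z']; fun_prop
      · simp only [w', z']; fun_prop
      · simpa [w', z'] using hlt σ σ' h i h1 h2
    obtain ⟨η, ⟨f1, f2⟩, hη⟩ :=
      (((e1.and e2).filter_mono nhdsWithin_le_nhds).and (self_mem_nhdsWithin (s := Set.Ioi (0 : ℝ)))).exists
    have hη : 0 < η := hη
    refine ⟨z' η, w' η, f1, ?_, ?_⟩
    · intro σ σ' h
      obtain ⟨h1, h2⟩ := hag σ σ' (fun m hm => h m (by omega))
      have h3 : σ kk = σ' kk := h kk (by simp [kk])
      constructor <;> funext i <;> simp only [z', w', h1, h2, h3]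
    · rintro σ σ' ⟨m, hm, hne⟩ i h1 h2
      by_cases hc : ∃ m : Fin (n + 2), m.val < k ∧ σ m ≠ σ' m
      · exact f2 σ σ' hc i h1 h2
      · push Not at hc
        obtain ⟨g1, g2⟩ := hag σ σ' hc
        have hmk : m = kk := by
          by_contra hh
          have : m.val ≠ k := fun e => hh (Fin.ext e)
          exact hne (hc m (by omega))
        subst hmk
        have hi : i + 1 ≠ kk := fun e => hne (by rw [← e]; exact h2)
        have hr : (((i - kk).val : ℕ) : ℝ) < ((i + 1 - kk).val : ℕ) := by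
          exact_mod_cast rho_lt i kk hi
        simp only [z', w', ← g1, ← g2, sg_ne hne]
        have hs := sg_sq (σ kk)
        have hp : 0 < w σ i * w σ (i + 1) * η * η := by
          have := hw σ i; have := hw σ (i + 1); positivity
        set s := sg (σ kk)
        set a := w σ i
        set b := w σ (i + 1)
        set r := (((i - kk).val : ℕ) : ℝ)
        set r' := (((i + 1 - kk).val : ℕ) : ℝ)
        have : (z σ (i + 1) + -s * η * b - (z σ (i + 1) + s * η * b)) * (a * (1 + s * η * r)) -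
            (z σ i + -s * η * a - (z σ i + s * η * a)) * (b * (1 + s * η * r')) =
            2 * (s * s) * (a * b * η * η) * (r' - r) := by ring
        rw [hs] at this
        have h5 : 0 < 2 * 1 * (a * b * η * η) * (r' - r) := by
          have : 0 < r' - r := by linarith
          positivity
        linarith

lemma big (a : ℕ) (c c' u v : ℝ) (hu : 0 < u) (hv : 0 < v) :
    ∀ᶠ N : ℝ in atTop, (2 * N ^ a + c) * v < (2 * N ^ (a + 1) + c') * u := by
  filter_upwards [eventually_ge_atTop 1, eventually_gt_atTop ((2 + |c|) * v / u + |c'|)]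
    with N h1 h2
  have hP : 1 ≤ N ^ a := one_le_pow₀ h1
  have h3 : (2 + |c|) * v < (N - |c'|) * u := by
    rw [← div_lt_iff₀ hu]; linarith
  have h4 : c ≤ |c| * N ^ a := le_trans (le_abs_self c) (le_mul_of_one_le_right (abs_nonneg c) hP)
  have h5 : -(|c'| * N ^ a) ≤ c' := by
    have := neg_abs_le c'
    have := le_mul_of_one_le_right (abs_nonneg c') hP
    linarith
  have h6 : 0 < N ^ a := by positivity
  calc (2 * N ^ a + c) * v ≤ ((2 + |c|) * v) * N ^ a := by nlinarith
    _ < ((N - |c'|) * u) * N ^ a := by gcongr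
    _ ≤ (2 * N ^ (a + 1) + c') * u := by
      rw [pow_succ]
      have : 0 ≤ N ^ a * N := by positivity
      nlinarith

lemma between {a b u v : ℝ} (hu : 0 < u) (hv : 0 < v) (h : a * v < b * u) :
    ∃ t, a < u * t ∧ v * t < b := by
  have : a / u < b / v := by rw [div_lt_div_iff₀ hu hv]; exact h
  obtain ⟨t, h1, h2⟩ := exists_between this
  rw [div_lt_iff₀ hu] at h1
  rw [lt_div_iff₀ hv] at h2
  exact ⟨t, by linarith, by linarith⟩

lemma far {a b u v : ℝ} (hu : 0 < u) (hv : 0 < v) : ∃ t, a < u * t ∧ b < v * t := by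
  obtain ⟨t, ht⟩ := exists_gt (max (a / u) (b / v))
  have h1 := lt_of_le_of_lt (le_max_left _ _) ht
  have h2 := lt_of_le_of_lt (le_max_right _ _) ht
  rw [div_lt_iff₀ hu] at h1
  rw [div_lt_iff₀ hv] at h2
  exact ⟨t, by linarith, by linarith⟩

/-- central lines -/
lemma central (n : ℕ) :
    ∃ y w : (Fin (n + 2) → Bool) → Fin (n + 2) → ℝ, (∀ σ i, 0 < w σ i) ∧
      ∀ σ σ', σ 0 = true → σ' 0 = true → σ ≠ σ' → ∀ i, ∃ t : ℝ,
        y σ' i < sg (σ' i) * (sg (σ i) * (y σ i + w σ i * t)) ∧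
        sg (σ' (i + 1)) * (sg (σ (i + 1)) * (y σ (i + 1) + w σ (i + 1) * t)) < y σ' (i + 1) := by
  obtain ⟨z, w, hw, -, hlt⟩ := hier n (n + 2) le_rfl
  have e : ∀ᶠ N : ℝ in atTop, ∀ σ σ' : Fin (n + 2) → Bool, ∀ i : Fin (n + 2),
      (2 * N ^ i.val + (z σ i + z σ' i)) * w σ (i + 1) <
        (2 * N ^ (i.val + 1) + (z σ (i + 1) + z σ' (i + 1))) * w σ i := by
    rw [eventually_all]; intro σ; rw [eventually_all]; intro σ'; rw [eventually_all]; intro i
    exact big _ _ _ _ _ (hw _ _) (hw _ _)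
  obtain ⟨N, hN⟩ := e.exists
  refine ⟨fun σ i => N ^ i.val + z σ i, w, hw, ?_⟩
  intro σ σ' h0 h0' hne i
  by_cases h1 : σ i = σ' i <;> by_cases h2 : σ (i + 1) = σ' (i + 1)
  · have hm : ∃ m : Fin (n + 2), m.val < n + 2 ∧ σ m ≠ σ' m := by
      by_contra hc; push Not at hc
      exact hne (funext fun m => hc m m.isLt)
    obtain ⟨t, h3, h4⟩ := between (hw σ i) (hw σ (i + 1)) (hlt σ σ' hm i h1 h2)
    refine ⟨t, ?_, ?_⟩
    · rw [← h1, ← mul_assoc, sg_sq]; linarith
    · rw [← h2, ← mul_assoc, sg_sq]; linarith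
  · obtain ⟨t, h3, h4⟩ := far (a := z σ' i - z σ i)
      (b := -(2 * N ^ (i + 1).val + z σ (i + 1) + z σ' (i + 1))) (hw σ i) (hw σ (i + 1))
    refine ⟨t, ?_, ?_⟩
    · rw [← h1, ← mul_assoc, sg_sq]; linarith
    · rw [sg_ne h2, ← mul_assoc, neg_mul, sg_sq]; linarith
  · obtain ⟨t, h3, h4⟩ := far (a := 2 * N ^ i.val + z σ i + z σ' i)
      (b := z σ (i + 1) - z σ' (i + 1)) (hw σ i) (hw σ (i + 1))
    refine ⟨-t, ?_, ?_⟩
    · rw [sg_ne h1, ← mul_assoc, neg_mul, sg_sq]; linarith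
    · rw [← h2, ← mul_assoc, sg_sq]; linarith
  · have hj : i + 1 ≠ 0 := fun e => h2 (by rw [e, h0, h0'])
    have hv : (i + 1).val = i.val + 1 := by
      rw [Fin.val_add_one]
      split_ifs with h
      · exact absurd (by rw [h]; exact Fin.last_add_one _) hj
      · rfl
    obtain ⟨t, h3, h4⟩ := between (hw σ i) (hw σ (i + 1)) (hN σ σ' i)
    refine ⟨-t, ?_, ?_⟩
    · rw [sg_ne h1, ← mul_assoc, neg_mul, sg_sq]; linarith
    · rw [← hv] at h4
      rw [sg_ne h2, ← mul_assoc, neg_mul, sg_sq]; linarith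

abbrev J (n : ℕ) := Option (Fin (n + 1) × Bool)

def edge {n : ℕ} : J n → Fin (n + 2)
  | none => Fin.last _
  | some (k, _) => k.castSucc

def cc {n : ℕ} : J n → ℝ
  | none => 0
  | some (_, b) => sg b

def κ {n : ℕ} : J n → Fin (n + 2) → ℝ
  | none, _ => 0
  | some (k0, b), k => if k0.val < k.val then sg b * (2 * (n + 2)) else 0

def ν {n : ℕ} : J n → Fin (n + 2) → ℝ
  | none, k => -(k.val : ℝ)
  | some (k0, _), k => if k0.val < k.val then (n + 2) - (k.val : ℝ) else -(k.val : ℝ)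

lemma sg_cases (b : Bool) : sg b = 1 ∨ sg b = -1 := by cases b <;> simp [sg]

lemma kap_pos {n : ℕ} (m : J n) (k : Fin (n + 2)) {δ : ℝ} (h0 : 0 < δ) (h1 : (n + 2) * δ ≤ 1 / 4) :
    0 < 1 + κ m k * δ := by
  have : (0 : ℝ) ≤ (n + 2) * δ := by positivity
  rcases m with _ | ⟨k0, b⟩ <;> simp only [κ]
  · linarith
  · split_ifs
    · rcases sg_cases b with h | h <;> rw [h] <;> nlinarith
    · linarith

lemma own {n : ℕ} (m m' : J n) (hne : m ≠ m') {δ : ℝ} (h0 : 0 < δ) (h1 : (n + 2) * δ ≤ 1 / 4) :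
    ∃ t : ℝ, cc m' * δ + δ ^ 2 ≤ (1 + κ m (edge m') * δ) * t + ν m (edge m') * δ ^ 2 ∧
      (1 + κ m (edge m' + 1) * δ) * t + ν m (edge m' + 1) * δ ^ 2 ≤ cc m' * δ := by
  rcases m with _ | ⟨k0, b0⟩ <;> rcases m' with _ | ⟨k, b⟩
  · exact absurd rfl hne
  · refine ⟨sg b * δ + δ ^ 2 + k.val * δ ^ 2, ?_, ?_⟩
    · simp [cc, κ, ν, edge]
    · simp only [cc, κ, ν, edge, Fin.coeSucc_eq_succ, Fin.val_succ]; push_cast; linarith
  · refine ⟨0, ?_, ?_⟩
    · have := k0.isLt
      simp only [cc, κ, ν, edge, Fin.val_last, this, if_true]; push_cast; linarith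
    · simp [cc, κ, ν, edge]
  · rcases lt_trichotomy k.val k0.val with h | h | h
    · have g1 : ¬ k0.val < k.val := by omega
      have g2 : ¬ k0.val < k.val + 1 := by omega
      refine ⟨sg b * δ + δ ^ 2 + k.val * δ ^ 2, ?_, ?_⟩
      · simp [cc, κ, ν, edge, g1]
      · simp only [cc, κ, ν, edge, Fin.coeSucc_eq_succ, Fin.val_succ, g2, if_false]
        push_cast; linarith
    · have g1 : ¬ k0.val < k.val := by omega
      have g2 : k0.val < k.val + 1 := by omega
      have hb : b ≠ b0 := by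
        rintro rfl
        exact hne (by rw [Fin.ext h])
      refine ⟨sg b * δ + δ ^ 2 + k.val * δ ^ 2, ?_, ?_⟩
      · simp [cc, κ, ν, edge, g1]
      · simp only [cc, κ, ν, edge, Fin.coeSucc_eq_succ, Fin.val_succ, g2, if_true, sg_ne hb]
        push_cast
        have hk : (k.val : ℝ) + 1 ≤ n + 2 := by
          have := k.isLt
          have : k.val + 1 ≤ n + 2 := by omega
          exact_mod_cast this
        have hk0 : (0 : ℝ) ≤ k.val := by positivity
        have hd : ((k.val : ℝ) + 1) * δ ≤ 1 / 4 := by nlinarith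
        have hd0 : 0 ≤ ((k.val : ℝ) + 1) * δ := by positivity
        have hq : 0 ≤ ((n : ℝ) + 2) * δ ^ 2 := by positivity
        rcases sg_cases b with hh | hh <;> rw [hh] <;> nlinarith
    · have g1 : k0.val < k.val := by omega
      have g2 : k0.val < k.val + 1 := by omega
      have hp := kap_pos (some (k0, b0)) k.castSucc h0 h1
      simp only [κ, Fin.val_castSucc, g1, if_true] at hp
      refine ⟨(sg b * δ + δ ^ 2 - (n + 2 - k.val) * δ ^ 2) / (1 + sg b0 * (2 * (n + 2)) * δ), ?_, ?_⟩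
      · simp only [cc, κ, ν, edge, Fin.val_castSucc, g1, if_true]
        rw [mul_div_cancel₀ _ hp.ne']; linarith
      · simp only [cc, κ, ν, edge, Fin.coeSucc_eq_succ, Fin.val_succ, g2, if_true]
        rw [mul_div_cancel₀ _ hp.ne']; push_cast; linarith

abbrev I (n : ℕ) := (Fin (n + 1) → Bool) × J n

def ext {n : ℕ} (τ : Fin (n + 1) → Bool) : Fin (n + 2) → Bool := Fin.cons true τ

lemma ext_inj {n : ℕ} {τ τ' : Fin (n + 1) → Bool} (h : ext τ = ext τ') : τ = τ' := by
  funext i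
  have := congrFun h i.succ
  simpa [ext] using this

/-- the wedge family: `α m ≤ ± x (edge m)` and `± x (edge m + 1) ≤ β m` -/
lemma wedges (n : ℕ) : ∃ α β : I n → ℝ,
    (∀ m : I n, ∃ p v : Fin (n + 2) → ℝ, v ≠ 0 ∧ ∀ m', m ≠ m' → ∃ t : ℝ,
      α m' ≤ sg (ext m'.1 (edge m'.2)) * (p + t • v) (edge m'.2) ∧
      sg (ext m'.1 (edge m'.2 + 1)) * (p + t • v) (edge m'.2 + 1) ≤ β m') ∧
    ∀ p v : Fin (n + 2) → ℝ, ¬ ∀ m' : I n, ∃ t : ℝ,
      α m' ≤ sg (ext m'.1 (edge m'.2)) * (p + t • v) (edge m'.2) ∧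
      sg (ext m'.1 (edge m'.2 + 1)) * (p + t • v) (edge m'.2 + 1) ≤ β m' := by
  obtain ⟨y, w, hw, hc⟩ := central n
  have e : ∀ᶠ δ in 𝓝 (0 : ℝ), ∀ m m' : I n, m.1 ≠ m'.1 → ∃ t : ℝ,
      y (ext m'.1) (edge m'.2) + w (ext m'.1) (edge m'.2) * (cc m'.2 * δ + δ ^ 2) <
        sg (ext m'.1 (edge m'.2)) * (sg (ext m.1 (edge m'.2)) * (y (ext m.1) (edge m'.2) +
          w (ext m.1) (edge m'.2) * ((1 + κ m.2 (edge m'.2) * δ) * t + ν m.2 (edge m'.2) * δ ^ 2))) ∧
      sg (ext m'.1 (edge m'.2 + 1)) * (sg (ext m.1 (edge m'.2 + 1)) * (y (ext m.1) (edge m'.2 + 1) +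
          w (ext m.1) (edge m'.2 + 1) *
            ((1 + κ m.2 (edge m'.2 + 1) * δ) * t + ν m.2 (edge m'.2 + 1) * δ ^ 2))) <
        y (ext m'.1) (edge m'.2 + 1) + w (ext m'.1) (edge m'.2 + 1) * (cc m'.2 * δ) := by
    rw [eventually_all]; intro m; rw [eventually_all]; intro m'; rw [eventually_all]; intro h
    obtain ⟨t, h1, h2⟩ := hc (ext m.1) (ext m'.1) rfl rfl (fun e => h (ext_inj e)) (edge m'.2)
    refine Eventually.mono (Eventually.and ?_ ?_) (fun δ hδ => ⟨t, hδ⟩)
    · apply ContinuousAt.eventually_lt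
      · fun_prop
      · fun_prop
      · simpa using h1
    · apply ContinuousAt.eventually_lt
      · fun_prop
      · fun_prop
      · simpa using h2
  have e' : ∀ᶠ δ in 𝓝 (0 : ℝ), ((n : ℝ) + 2) * δ < 1 / 4 := by
    apply ContinuousAt.eventually_lt
    · fun_prop
    · fun_prop
    · norm_num
  obtain ⟨δ, ⟨f1, f2⟩, hδ⟩ :=
    (((e.and e').filter_mono nhdsWithin_le_nhds).and
      (self_mem_nhdsWithin (s := Set.Ioi (0 : ℝ)))).exists
  have hδ : 0 < δ := hδ
  refine ⟨fun m' => y (ext m'.1) (edge m'.2) + w (ext m'.1) (edge m'.2) * (cc m'.2 * δ + δ ^ 2),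
    fun m' => y (ext m'.1) (edge m'.2 + 1) + w (ext m'.1) (edge m'.2 + 1) * (cc m'.2 * δ), ?_, ?_⟩
  · intro m
    refine ⟨fun k => sg (ext m.1 k) * (y (ext m.1) k + w (ext m.1) k * (ν m.2 k * δ ^ 2)),
      fun k => sg (ext m.1 k) * (w (ext m.1) k * (1 + κ m.2 k * δ)), ?_, ?_⟩
    · intro h
      have h1 := congrFun h 0
      have h2 := kap_pos m.2 0 hδ f2.le
      have h3 := hw (ext m.1) 0
      have h4 : 0 < w (ext m.1) 0 * (1 + κ m.2 0 * δ) := by positivity
      simp only [Pi.zero_apply] at h1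
      rcases sg_cases (ext m.1 0) with h5 | h5 <;> rw [h5] at h1 <;> linarith
    · intro m' hne
      have key : ∀ (t : ℝ) (k : Fin (n + 2)),
          ((fun k => sg (ext m.1 k) * (y (ext m.1) k + w (ext m.1) k * (ν m.2 k * δ ^ 2))) +
            t • (fun k => sg (ext m.1 k) * (w (ext m.1) k * (1 + κ m.2 k * δ)))) k =
          sg (ext m.1 k) * (y (ext m.1) k + w (ext m.1) k *
            ((1 + κ m.2 k * δ) * t + ν m.2 k * δ ^ 2)) := by
        intro t k; simp only [Pi.add_apply, Pi.smul_apply, smul_eq_mul]; ring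
      by_cases h : m.1 = m'.1
      · have h2 : m.2 ≠ m'.2 := fun e => hne (Prod.ext h e)
        obtain ⟨t, g1, g2⟩ := own m.2 m'.2 h2 hδ f2.le
        refine ⟨t, ?_, ?_⟩
        · rw [key, h, ← mul_assoc, sg_sq, one_mul]
          have := hw (ext m'.1) (edge m'.2)
          simp only
          gcongr
        · rw [key, h, ← mul_assoc, sg_sq, one_mul]
          have := hw (ext m'.1) (edge m'.2 + 1)
          simp only
          gcongr
      · obtain ⟨t, g1, g2⟩ := f1 m m' h
        exact ⟨t, by rw [key]; exact g1.le, by rw [key]; exact g2.le⟩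
  · have main : ∀ p v : Fin (n + 2) → ℝ, 0 ≤ v 0 → ¬ ∀ m' : I n, ∃ t : ℝ,
        y (ext m'.1) (edge m'.2) + w (ext m'.1) (edge m'.2) * (cc m'.2 * δ + δ ^ 2) ≤
          sg (ext m'.1 (edge m'.2)) * (p + t • v) (edge m'.2) ∧
        sg (ext m'.1 (edge m'.2 + 1)) * (p + t • v) (edge m'.2 + 1) ≤
          y (ext m'.1) (edge m'.2 + 1) + w (ext m'.1) (edge m'.2 + 1) * (cc m'.2 * δ) := by
      intro p v hv H
      let τ : Fin (n + 1) → Bool := fun i => decide (0 ≤ v i.succ)
      have hs : ∀ k, 0 ≤ sg (ext τ k) * v k := by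
        intro k
        refine Fin.cases ?_ (fun i => ?_) k
        · simpa [ext, sg] using hv
        · by_cases h : 0 ≤ v i.succ
          · simp [ext, sg, τ, h]
          · simp only [ext, sg, τ, h, Fin.cons_succ, decide_false]
            simp only [Bool.false_eq_true, if_false]; linarith
      have hT : ∀ k : Fin (n + 2), ∃ t : ℝ,
          y (ext τ) k + w (ext τ) k * δ ^ 2 ≤ sg (ext τ k) * (p k + t * v k) ∧
          sg (ext τ (k + 1)) * (p (k + 1) + t * v (k + 1)) ≤ y (ext τ) (k + 1) := by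
        intro k
        refine Fin.lastCases ?_ (fun i => ?_) k
        · obtain ⟨t, h1, h2⟩ := H (τ, none)
          exact ⟨t, by simpa [edge, cc] using h1, by simpa [edge, cc] using h2⟩
        · obtain ⟨t, h1, h2⟩ := H (τ, some (i, true))
          obtain ⟨t', h3, h4⟩ := H (τ, some (i, false))
          simp only [edge, cc, Pi.add_apply, Pi.smul_apply, smul_eq_mul] at h1 h2 h3 h4
          have s1 : sg true = 1 := by simp [sg]
          have s2 : sg false = -1 := by simp [sg]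
          rw [s1] at h1 h2
          rw [s2] at h3 h4
          refine ⟨(t + t') / 2, by linarith, by linarith⟩
      choose T hT using hT
      obtain ⟨k, hk⟩ := Finite.exists_max T
      have h1 := (hT k).2
      have h2 := (hT (k + 1)).1
      have h3 := hk (k + 1)
      have h4 := hs (k + 1)
      have h5 : 0 < w (ext τ) (k + 1) * δ ^ 2 := by have := hw (ext τ) (k + 1); positivity
      nlinarith
    intro p v H
    rcases le_total 0 (v 0) with h | h
    · exact main p v h H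
    · refine main p (-v) (by simpa using h) (fun m' => ?_)
      obtain ⟨t, ht⟩ := H m'
      exact ⟨-t, by simpa using ht⟩

/-- lower corner of a truncated wedge -/
def lo {d : ℕ} (i j : Fin d) (a b : Bool) (α β R : ℝ) (k : Fin d) : ℝ :=
  if k = i then (if a then α else -R) else if k = j then (if b then -R else -β) else -R
/-- upper corner of a truncated wedge -/
def hi {d : ℕ} (i j : Fin d) (a b : Bool) (α β R : ℝ) (k : Fin d) : ℝ :=
  if k = i then (if a then R else -α) else if k = j then (if b then β else R) else R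

lemma lo_lt_hi {d : ℕ} (i j : Fin d) (a b : Bool) {α β R : ℝ} (h1 : |α| < R) (h2 : |β| < R)
    (k : Fin d) : lo i j a b α β R k < hi i j a b α β R k := by
  rw [abs_lt] at h1 h2
  simp only [lo, hi]
  split_ifs <;> linarith [h1.1, h1.2, h2.1, h2.2]

lemma of_mem {d : ℕ} {i j : Fin d} (hij : i ≠ j) {a b : Bool} {α β R : ℝ} {x : Fin d → ℝ}
    (h : x ∈ Set.Icc (lo i j a b α β R) (hi i j a b α β R)) :
    α ≤ sg a * x i ∧ sg b * x j ≤ β := by
  have h1 := h.1 i; have h2 := h.2 i; have h3 := h.1 j; have h4 := h.2 j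
  simp only [lo, hi, if_true, hij.symm, if_false] at h1 h2 h3 h4
  cases a <;> cases b <;> simp [sg] at h1 h2 h3 h4 ⊢ <;> constructor <;> linarith

lemma to_mem {d : ℕ} {i j : Fin d} {a b : Bool} {α β R : ℝ} {x : Fin d → ℝ}
    (hx : ∀ k, |x k| < R) (h : α ≤ sg a * x i ∧ sg b * x j ≤ β) :
    x ∈ Set.Icc (lo i j a b α β R) (hi i j a b α β R) := by
  obtain ⟨h1, h2⟩ := h
  constructor <;> intro k <;> have := abs_lt.mp (hx k) <;> simp only [lo, hi] <;>
    split_ifs with g1 g2 g3 g4 <;> (try subst g1) <;> (try subst g3) <;> (try subst g2) <;>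
    simp_all [sg] <;> linarith [this.1, this.2]

lemma ne_succ {n : ℕ} (i : Fin (n + 2)) : i ≠ i + 1 := by
  intro h
  have : (1 : Fin (n + 2)) = 0 := by simpa using h.symm
  simp at this

end Pool.Agent.H18.Boxes
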