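import Pool.Agent.H18.CanDefs
import Pool.Agent.H62.Lad4

/-! The order of the rationals is finitely bounded, ordered, homogeneous and Ramsey.
(The infinite Ramsey theorem below is copied from a teammate's file.) -/

namespace Pool.Agent.H18.Can

open Pool.Agent.H38.NP Pool.Agent.H62.Lad Function

section
open Set
/-- infinite Ramsey theorem -/
theorem ramsey {C : Type} [Finite C] (n : ℕ) : ∀ (c : Finset ℕ → C) (S : Set ℕ), S.Infinite →
    ∃ I ⊆ S, I.Infinite ∧ ∃ col, ∀ s : Finset ℕ, (s : Set ℕ) ⊆ I → s.card = n → c s = col := by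
  induction n with
  | zero =>
    intro c S hS
    exact ⟨S, Subset.rfl, hS, c ∅, fun s _ h => by rw [Finset.card_eq_zero.1 h]⟩
  | succ n ih =>
    intro c S hS
    have step : ∀ T : {T : Set ℕ // T.Infinite}, ∃ a ∈ T.1, ∃ T' : {T : Set ℕ // T.Infinite},
        T'.1 ⊆ T.1 ∩ Ioi a ∧ ∃ col, ∀ s : Finset ℕ, (s : Set ℕ) ⊆ T'.1 → s.card = n →
          c (insert a s) = col := by
      rintro ⟨T, hT⟩
      obtain ⟨a, ha⟩ := hT.nonempty
      have : (T ∩ Ioi a).Infinite := by
        have := hT.sdiff (finite_Iic a)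
        rwa [sdiff_eq, compl_Iic] at this
      obtain ⟨I, h1, h2, h3⟩ := ih (fun s => c (insert a s)) _ this
      exact ⟨a, ha, ⟨I, h2⟩, h1, h3⟩
    choose a ha f hf col hcol using step
    let T : ℕ → {T : Set ℕ // T.Infinite} := fun k => f^[k] ⟨S, hS⟩
    have TS : ∀ k, T (k + 1) = f (T k) := fun k => Function.iterate_succ_apply' _ _ _
    have anti : Antitone fun k => (T k).1 := antitone_nat_of_succ_le fun k => by
      rw [TS]; exact (hf _).trans inter_subset_left
    have mono : StrictMono fun k => a (T k) := strictMono_nat_of_lt_succ fun k => by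
      have := ha (T (k + 1))
      rw [TS] at this ⊢
      exact (hf _ this).2
    obtain ⟨y, hy⟩ := Finite.exists_infinite_fiber fun k => col (T k)
    refine ⟨(fun k => a (T k)) '' ((fun k => col (T k)) ⁻¹' {y}), ?_,
      (Set.infinite_coe_iff.1 hy).image mono.injective.injOn, y, ?_⟩
    · rintro _ ⟨k, -, rfl⟩
      exact anti (Nat.zero_le k) (ha _)
    · intro s hs hc
      have hne : s.Nonempty := Finset.card_pos.1 (by omega)
      obtain ⟨k, hk, e⟩ := hs (s.min'_mem hne)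
      have hmem : a (T k) ∈ s := by have := s.min'_mem hne; rwa [← e] at this
      have := hcol (T k) (s.erase (a (T k))) (by
        intro b hb
        obtain ⟨h1, h2⟩ := Finset.mem_erase.1 hb
        obtain ⟨j, -, rfl⟩ := hs h2
        have h3 : k < j := mono.lt_iff_lt.1 (lt_of_le_of_ne (e.le.trans (s.min'_le _ h2)) h1.symm)
        rw [← TS]
        exact anti h3 (ha _)) (by
        rw [Finset.card_erase_of_mem hmem, hc]; rfl)
      rw [Finset.insert_erase hmem] at this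
      exact this.trans hk

end

theorem ramsey' {C : Type} [Finite C] (r : ℕ) (c : (Fin r → ℕ) → C) :
    ∃ y : ℕ → ℕ, StrictMono y ∧ ∃ col, ∀ w : Fin r → ℕ, StrictMono w → c (fun j => y (w j)) = col := by
  classical
  obtain ⟨I, -, hI, col, h⟩ := ramsey r (fun s => if h : s.card = r then c (s.orderEmbOfFin h)
    else c 0) Set.univ Set.infinite_univ
  refine ⟨Nat.nth (· ∈ I), Nat.nth_strictMono hI, col, fun w hw => ?_⟩
  have hm : StrictMono fun j => Nat.nth (· ∈ I) (w j) := (Nat.nth_strictMono hI).comp hw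
  have hc : (Finset.univ.image fun j => Nat.nth (· ∈ I) (w j)).card = r := by
    rw [Finset.card_image_of_injective _ hm.injective]; simp
  have := h _ (by
    intro x hx
    obtain ⟨j, -, rfl⟩ := Finset.mem_image.1 hx
    exact Nat.nth_mem_of_infinite hI _) hc
  rw [dif_pos hc, ← Finset.orderEmbOfFin_unique hc (fun j => Finset.mem_image_of_mem _
    (Finset.mem_univ j)) hm] at this
  exact this

open Order Order.PartialIso in
theorem ext_iso {ι : Type} [Finite ι] (f g : ι → ℚ) (h : ∀ i j, f i < f j ↔ g i < g j) :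
    ∃ σ : ℚ ≃o ℚ, ∀ i, σ (f i) = g i := by
  classical
  have := Fintype.ofFinite ι
  let p : PartialIso ℚ ℚ := ⟨Finset.univ.image fun i => (f i, g i), by
    intro p hp q hq
    obtain ⟨i, -, rfl⟩ := Finset.mem_image.1 hp
    obtain ⟨j, -, rfl⟩ := Finset.mem_image.1 hq
    simp only [cmp, cmpUsing, h]⟩
  let tc : ℚ ⊕ ℚ → Cofinal (PartialIso ℚ ℚ) := fun p =>
    Sum.recOn p (definedAtLeft ℚ) (definedAtRight ℚ)
  let I : Ideal (PartialIso ℚ ℚ) := idealOfCofinals p tc
  let F a := funOfIdeal a I (cofinal_meets_idealOfCofinals _ tc (Sum.inl a))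
  let G b := invOfIdeal b I (cofinal_meets_idealOfCofinals _ tc (Sum.inr b))
  refine ⟨OrderIso.ofCmpEqCmp (fun a => (F a).val) (fun b => (G b).val) fun a b => by
      rcases (F a).prop with ⟨f, hf, ha⟩
      rcases (G b).prop with ⟨g, hg, hb⟩
      rcases I.directed _ hf _ hg with ⟨m, _, fm, gm⟩
      exact m.prop (a, _) (fm ha) (_, b) (gm hb), fun i => ?_⟩
  rcases (F (f i)).prop with ⟨q, hq, ha⟩
  rcases I.directed _ hq _ (mem_idealOfCofinals p tc) with ⟨m, _, fm, gm⟩
  have := m.prop (f i, _) (fm ha) (f i, g i) (gm (Finset.mem_image_of_mem _ (Finset.mem_univ i)))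
  simp only [cmp_self_eq_eq] at this
  exact cmp_eq_eq_iff _ _ |>.1 this.symm

@[simp] theorem qlt_two (x y : ℚ) : Qlt.rel 0 [x, y] ↔ x < y := by
  simp [Qlt]

/-- embeddings into a pull-back of the order -/
theorem isEmb_iff {β : Type} {B : Str [2] β} {f : β → ℚ} :
    IsEmb B Qlt f ↔ Injective f ∧ ∀ x y, B.rel 0 [x, y] ↔ f x < f y := by
  refine and_congr_right fun _ => ⟨fun h x y => by simpa using h 0 [x, y], fun h i l => ?_⟩
  constructor
  · intro H
    have := B.wf _ _ H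
    obtain rfl : i = 0 := by
      have := (List.getElem?_eq_some_iff.1 this).1
      simpa using this
    obtain ⟨x, y, rfl⟩ := List.length_eq_two.1 (by simpa using this.symm)
    simpa using (h x y).1 H
  · rintro ⟨rfl, x, y, e, H⟩
    obtain ⟨a, b, rfl⟩ := List.length_eq_two.1 (by simpa using congrArg List.length e)
    simp only [List.map_cons, List.map_nil, List.cons.injEq, and_true] at e
    rw [h, e.1, e.2]; exact H

theorem isEmb_iso (σ : ℚ ≃o ℚ) : IsEmb Qlt Qlt σ.toEquiv :=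
  isEmb_iff.2 ⟨σ.injective, fun x y => by simp⟩

theorem homog : Homogeneous Qlt := by
  intro n B f g hf hg
  obtain ⟨σ, h⟩ := ext_iso f g fun i j => by rw [← (isEmb_iff.1 hf).2, (isEmb_iff.1 hg).2]
  exact ⟨σ.toEquiv, isEmb_iso σ, h⟩

theorem ordered : Ordered Qlt := ⟨0, by simp only [qlt_two]; infer_instance⟩

theorem IsEmb.comp {ar : List ℕ} {α β γ : Type} {A : Str ar α} {B : Str ar β} {C : Str ar γ}
    {f g} (hf : IsEmb B A f) (hg : IsEmb C B g) : IsEmb C A (f ∘ g) :=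
  ⟨hf.1.comp hg.1, fun i l => by rw [hg.2, hf.2, List.map_map]⟩

theorem finBounded : FinBounded Qlt := by
  classical
  refine ⟨{C | C.1 ≤ 3 ∧ ¬ Emb C.2 Qlt}, ?_, fun n B => ⟨fun ⟨f, h⟩ C hC ⟨g, e⟩ =>
    hC.2 ⟨_, IsEmb.comp h e⟩, fun h => ?_⟩⟩
  · refine ((Set.finite_le_nat 3).biUnion fun n _ =>
      Set.finite_range (Sigma.mk n)).subset fun C hC => ?_
    exact Set.mem_biUnion hC.1 ⟨C.2, rfl⟩
  have key : ∀ x y z : Fin n, ∃ f : Fin n → ℚ, ∀ a ∈ [x, y, z], ∀ b ∈ [x, y, z],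
      (B.rel 0 [a, b] ↔ f a < f b) ∧ (f a = f b → a = b) := by
    intro x y z
    obtain ⟨m, h1, f, h2, h3⟩ := cover [x, y, z]
    have : Emb (B.pull f) Qlt := by_contra fun g =>
      h ⟨m, B.pull f⟩ ⟨h1, g⟩ ⟨f, h2, fun _ _ => .rfl⟩
    obtain ⟨g, hg⟩ := this
    have hg := isEmb_iff.1 hg
    refine ⟨extend f g 0, fun a ha b hb => ?_⟩
    obtain ⟨a, rfl⟩ := h3 a ha
    obtain ⟨b, rfl⟩ := h3 b hb
    rw [h2.extend_apply, h2.extend_apply, ← hg.2]
    exact ⟨.rfl, fun e => congrArg f (hg.1 e)⟩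
  have tr : ∀ x y z, B.rel 0 [x, y] → B.rel 0 [y, z] → B.rel 0 [x, z] := fun x y z a b => by
    obtain ⟨f, hf⟩ := key x y z
    rw [(hf _ (by simp) _ (by simp)).1] at a b ⊢
    exact a.trans b
  have ir : ∀ x, ¬ B.rel 0 [x, x] := fun x => by
    obtain ⟨f, hf⟩ := key x x x
    rw [(hf _ (by simp) _ (by simp)).1]; exact lt_irrefl _
  have tot : ∀ x y, x ≠ y → B.rel 0 [x, y] ∨ B.rel 0 [y, x] := fun x y e => by
    obtain ⟨f, hf⟩ := key x y y
    rw [(hf _ (by simp) _ (by simp)).1, (hf y (by simp) x (by simp)).1]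
    exact lt_or_gt_of_ne fun e' => e ((hf _ (by simp) _ (by simp)).2 e')
  let ρ : Fin n → ℚ := fun x => ((Finset.univ.filter fun y => B.rel 0 [y, x]).card : ℚ)
  have mono : ∀ x y, B.rel 0 [x, y] → ρ x < ρ y := fun x y a => by
    refine Nat.cast_lt.2 (Finset.card_lt_card ⟨fun z hz => ?_, fun hs => ?_⟩)
    · simp only [Finset.mem_filter, Finset.mem_univ, true_and] at hz ⊢
      exact tr _ _ _ hz a
    · have := hs (Finset.mem_filter.2 ⟨Finset.mem_univ x, a⟩)
      exact ir _ (Finset.mem_filter.1 this).2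
  refine ⟨ρ, isEmb_iff.2 ⟨fun x y e => by_contra fun ne => ?_, fun x y => ⟨mono x y, fun H => ?_⟩⟩⟩
  · rcases tot x y ne with a | a
    · exact (mono _ _ a).ne e
    · exact (mono _ _ a).ne e.symm
  · have ne : x ≠ y := fun e => by simp [e] at H
    exact (tot x y ne).resolve_right fun a => lt_asymm H (mono _ _ a)

theorem fin_ramsey (k b m : ℕ) : ∃ N, ∀ χ : (Fin b → Fin N) → Fin (k + 1),
    ∃ y : Fin m → Fin N, StrictMono y ∧ ∀ v w : Fin b → Fin m, StrictMono v → StrictMono w →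
      χ (y ∘ v) = χ (y ∘ w) := by
  classical
  by_contra H
  push Not at H
  choose χ hχ using H
  let U : Ultrafilter ℕ := Filter.hyperfilter ℕ
  let ψ : ℕ → (Fin b → ℕ) → Fin (k + 1) := fun N w =>
    if h : ∀ j, w j < N then χ N fun j => ⟨w j, h j⟩ else 0
  have lim : ∀ w, ∃ col, ∀ᶠ N in (U : Filter ℕ), ψ N w = col := fun w => by
    have : ∀ᶠ N in (U : Filter ℕ), ∃ col ∈ (Set.univ : Set (Fin (k + 1))), ψ N w = col :=
      Filter.Eventually.of_forall fun N => ⟨_, trivial, rfl⟩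
    obtain ⟨col, -, h⟩ := (Ultrafilter.eventually_exists_mem_iff Set.finite_univ).1 this
    exact ⟨col, h⟩
  choose lc hlc using lim
  obtain ⟨y, hy, col, hc⟩ := ramsey' b lc
  have e1 : ∀ᶠ N in (U : Filter ℕ), ∀ w : Fin b → Fin m,
      ψ N (fun j => y (w j)) = lc fun j => y (w j) := Filter.eventually_all.2 fun w => hlc _
  have e2 : ∀ᶠ N in (U : Filter ℕ), y m ≤ N :=
    Filter.Eventually.filter_mono (Filter.hyperfilter_le_cofinite.trans Nat.cofinite_eq_atTop.le)
      (Filter.eventually_ge_atTop _)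
  obtain ⟨N, h1, h2⟩ := (e1.and e2).exists
  have lt : ∀ j : Fin m, y j < N := fun j => (hy j.2).trans_le h2
  obtain ⟨v, w, hv, hw, ne⟩ := hχ N (fun j => ⟨y j, lt j⟩) fun i j h => hy h
  have e : ∀ v : Fin b → Fin m, StrictMono v →
      χ N ((fun j : Fin m => (⟨y j, lt j⟩ : Fin N)) ∘ v) = col := fun v hv => by
    have := h1 v
    rw [hc (fun j => v j) fun i j h => hv h] at this
    simp only [ψ, lt, implies_true, dif_pos] at this
    exact this
  exact ne ((e v hv).trans (e w hw).symm)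

theorem sort_emb {b : ℕ} {B : Str [2] (Fin b)} (h : Emb B Qlt) :
    ∃ π : Equiv.Perm (Fin b), ∀ x y, B.rel 0 [x, y] ↔ π x < π y := by
  obtain ⟨f, hf⟩ := h
  have hf := isEmb_iff.1 hf
  have : StrictMono (f ∘ Tuple.sort f) :=
    (Tuple.monotone_sort f).strictMono_of_injective (hf.1.comp (Equiv.injective _))
  refine ⟨(Tuple.sort f).symm, fun x y => ?_⟩
  rw [hf.2, ← this.lt_iff_lt]; simp

theorem ramseyQ : Ramsey Qlt := by
  intro k b m B C hB hC
  obtain ⟨N, hN⟩ := fin_ramsey k b m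
  obtain ⟨π, hπ⟩ := sort_emb hB
  obtain ⟨τ, hτ⟩ := sort_emb hC
  let ι : Fin N → ℚ := fun x => (x.val : ℚ)
  have hι : Injective ι := fun x y e => Fin.ext (Nat.cast_injective e)
  refine ⟨N, Qlt.pull ι, ⟨ι, hι, fun _ _ => .rfl⟩, fun χ => ?_⟩
  obtain ⟨y, hy, hc⟩ := hN fun w => χ (w ∘ π)
  have he : IsEmb C Qlt (ι ∘ y ∘ τ) := isEmb_iff.2 ⟨hι.comp (hy.injective.comp τ.injective),
    fun x z => by simp [hτ, ι, hy.lt_iff_lt]⟩
  refine ⟨y ∘ τ, ⟨hy.injective.comp τ.injective, fun i l => ?_⟩, fun f g hf hg => ?_⟩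
  · rw [he.2]; simp [Str.pull, pull]
  · have s : ∀ f, IsEmb B C f → StrictMono (τ ∘ f ∘ π.symm) := fun f hf x z h => by
      have := (hf.2 0 [π.symm x, π.symm z]).1 ((hπ _ _).2 (by simpa using h))
      exact (hτ _ _).1 this
    have := hc _ _ (s f hf) (s g hg)
    simpa [comp_def] using this

end Pool.Agent.H18.Can
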