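import Pool.Agent.H18.Can1
import Pool.Agent.H36.Sim
import Pool.Agent.H66.Sig2

/-! `CSP(ℚ,<)` is in P; canonical order-preserving maps act on pair types like projections. -/

namespace Pool.Agent.H18.Can

open Pool.Agent.H38.NP Pool.Agent.H62.Lad Function

def validB (ar : List ℕ) (c : Code) : Bool :=
  c.2.all fun f => ar[f.1]? == some f.2.length && f.2.all fun x => decide (x < c.1)

theorem validB_iff {ar c} : validB ar c = true ↔ Valid ar c := by simp [validB, Valid]

def peel (c : Code) (B : List ℕ) : List ℕ := (List.range c.1).filter fun x =>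
  c.2.all fun f => f.2.getD 1 0 != x || decide (f.2.getD 0 0 ∈ B)

theorem mem_peel {c B x} : x ∈ peel c B ↔
    x < c.1 ∧ ∀ f ∈ c.2, f.2.getD 1 0 = x → f.2.getD 0 0 ∈ B := by
  simp only [peel, List.mem_filter, List.mem_range, List.all_eq_true, Bool.or_eq_true, bne_iff_ne,
    decide_eq_true_eq]
  exact and_congr_right fun _ => forall₂_congr fun f _ => by tauto

theorem pt_peel : PT fun c : Code => (peel c)^[c.1] [] := by
  refine PT.iterate (step := peel) (by unfold peel; fun_prop) (by fun_prop) (by fun_prop)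
    (B := fun c => sz (List.range c.1)) (PT.range (PT.fst PT.id')).pb fun c i _ => ?_
  apply sz_le_of_sublist
  cases i with
  | zero => simp
  | succ i => rw [iterate_succ_apply']; exact List.filter_sublist

theorem valid_two {c : Code} (hv : Valid [2] c) {f} (hf : f ∈ c.2) :
    ∃ x y, x < c.1 ∧ y < c.1 ∧ f = (0, [x, y]) := by
  obtain ⟨i, l⟩ := f
  obtain ⟨h1, h2⟩ := hv _ hf
  obtain rfl : i = 0 := by simpa using (List.getElem?_eq_some_iff.1 h1).1
  obtain ⟨x, y, rfl⟩ := List.length_eq_two.1 (by simpa using h1.symm)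
  exact ⟨x, y, h2 x (by simp), h2 y (by simp), rfl⟩

theorem csp_P : InP (CSP Qlt) := by
  classical
  refine inP_lang (fun c : Code => validB [2] c &&
    (List.range c.1).all fun x => decide (x ∈ (peel c)^[c.1] [])) ?_ fun c => ?_
  · have := pt_peel
    have h4 : PT (validB [2]) := by unfold validB; fun_prop
    have h5 : PT fun p : ℕ × List ℕ => (List.range p.1).all fun x => decide (x ∈ p.2) := by
      fun_prop
    exact h4.and (h5.comp ((PT.fst PT.id').mk this))
  simp only [Bool.and_eq_true, validB_iff, List.all_eq_true, List.mem_range, decide_eq_true_eq]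
  refine and_congr_right fun hv => ⟨fun ⟨g, hg⟩ => ?_, fun h => ?_⟩
  · let ρ : Fin c.1 → ℕ := fun x => (Finset.univ.filter fun y => g y < g x).card
    have h1 : ∀ k, ∀ x : Fin c.1, ρ x < k → x.val ∈ (peel c)^[k] [] := by
      intro k
      induction k with
      | zero => simp
      | succ k ih =>
        intro x hx
        rw [iterate_succ_apply', mem_peel]
        refine ⟨x.2, fun f hf e => ?_⟩
        obtain ⟨a, b, ha, hb, rfl⟩ := valid_two hv hf
        obtain rfl : ⟨b, hb⟩ = x := Fin.ext e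
        have lt : g ⟨a, ha⟩ < g ⟨b, hb⟩ := by
          simpa using hg 0 [⟨a, ha⟩, ⟨b, hb⟩] ⟨rfl, hf⟩
        refine ih ⟨a, ha⟩ (lt_of_lt_of_le (Finset.card_lt_card ⟨fun z hz => ?_, fun hs => ?_⟩)
          (Nat.lt_succ_iff.1 hx))
        · simp only [Finset.mem_filter, Finset.mem_univ, true_and] at hz ⊢
          exact hz.trans lt
        · simpa using hs (Finset.mem_filter.2 ⟨Finset.mem_univ ⟨a, ha⟩, lt⟩)
    intro x hx
    refine h1 _ ⟨x, hx⟩ ?_
    have := Finset.card_lt_card (s := Finset.univ.filter fun y => g y < g ⟨x, hx⟩)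
      (t := Finset.univ) ⟨Finset.subset_univ _, fun hs => by
        simpa using hs (Finset.mem_univ ⟨x, hx⟩)⟩
    simpa using this
  · have ex : ∀ x : Fin c.1, ∃ k, x.val ∈ (peel c)^[k] [] := fun x => ⟨_, h x x.2⟩
    refine ⟨fun x => (Nat.find (ex x) : ℚ), fun i l ⟨h1, h2⟩ => ?_⟩
    obtain ⟨a, b, ha, hb, e⟩ := valid_two hv h2
    obtain ⟨rfl, e'⟩ := Prod.mk.inj e
    obtain ⟨x, y, rfl⟩ := List.length_eq_two.1 (by simpa using congrArg List.length e')
    simp only [List.map_cons, List.map_nil, qlt_two, Nat.cast_lt]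
    have hy := Nat.find_spec (ex y)
    cases hk : Nat.find (ex y) with
    | zero => simp [hk] at hy
    | succ k =>
      rw [hk, iterate_succ_apply', mem_peel] at hy
      exact Nat.lt_succ_of_le (Nat.find_min' _ (hy.2 _ h2 rfl))

variable {n : ℕ} {c : Fin n → ℚ}

/-- same position relative to the constants -/
def Pos (c : Fin n → ℚ) (x y : ℚ) : Prop := ∀ j, (x < c j ↔ y < c j) ∧ (c j < x ↔ c j < y)

theorem Pos.symm {x y} (h : Pos c x y) : Pos c y x := fun j => ⟨(h j).1.symm, (h j).2.symm⟩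
theorem Pos.trans {x y z} (h : Pos c x y) (g : Pos c y z) : Pos c x z :=
  fun j => ⟨(h j).1.trans (g j).1, (h j).2.trans (g j).2⟩
theorem Pos.refl (x) : Pos c x x := fun _ => ⟨.rfl, .rfl⟩

theorem sameType_iff {m : ℕ} {a b : Fin m → ℚ} : SameType Qlt c a b ↔
    (∀ i, Pos c (a i) (b i)) ∧ ∀ i j, a i < a j ↔ b i < b j := by
  constructor
  · rintro ⟨σ, h1, h2, h3⟩
    have h : ∀ x y, x < y ↔ σ x < σ y := fun x y => by simpa using (isEmb_iff.1 h1).2 x y
    exact ⟨fun i j => ⟨by rw [h, h2, h3], by rw [h, h2, h3]⟩, fun i j => by rw [h, h3, h3]⟩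
  · rintro ⟨h1, h2⟩
    obtain ⟨σ, h⟩ := ext_iso (Sum.elim c a) (Sum.elim c b) (by
      rintro (i | i) (j | j)
      exacts [.rfl, (h1 j i).2, (h1 i j).1, h2 i j])
    exact ⟨σ.toEquiv, isEmb_iso σ, fun j => h (.inl j), fun j => h (.inr j)⟩

theorem Pos.mid {u v x : ℚ} (h : Pos c u v) (h1 : u ≤ x) (h2 : x ≤ v) : Pos c u x := fun j =>
  ⟨⟨fun a => h2.trans_lt ((h j).1.1 a), fun a => h1.trans_lt a⟩,
   ⟨fun a => a.trans_le h1, fun a => (h j).2.2 (a.trans_le h2)⟩⟩

theorem same_two {x y x' y' : ℚ} (h1 : Pos c x x') (h2 : Pos c y y') (ne : x ≠ y) (ne' : x' ≠ y')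
    (o : x < y ↔ x' < y') : SameType Qlt c ![x, y] ![x', y'] := by
  refine sameType_iff.2 ⟨Fin.forall_fin_two.2 ⟨h1, h2⟩, ?_⟩
  have : y < x ↔ y' < x' := by
    rw [← not_iff_not, not_lt, not_lt, ne.le_iff_lt, ne'.le_iff_lt, o]
  simp [Fin.forall_fin_two, o, this]

theorem proj {k : ℕ} {f : (Fin (k + 1) → ℚ) → ℚ} (hc : Canonical Qlt c f)
    (hf : ∀ x y, (∀ t, x t < y t) → f x < f y) (u v : Fin (k + 1) → ℚ) (uv : ∀ t, u t < v t)
    (hp : ∀ t, Pos c (u t) (v t)) : ∃ i, ∀ x y, (∀ t, Pos c (u t) (x t)) →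
      (∀ t, Pos c (u t) (y t)) → (∀ t, x t ≠ y t) → x i < y i → f x < f y := by
  classical
  let X : (Fin (k + 1) → Prop) → Fin (k + 1) → ℚ := fun ε t => if ε t then u t else v t
  let Le : (Fin (k + 1) → Prop) → Prop := fun ε => f (X ε) ≤ f (X fun t => ¬ ε t)
  have hX : ∀ ε t, Pos c (u t) (X ε t) := fun ε t => by
    simp only [X]; split_ifs; exacts [.refl _, hp t]
  have can : ∀ ε x y, (∀ t, Pos c (u t) (x t)) → (∀ t, Pos c (u t) (y t)) → (∀ t, x t ≠ y t) →
      (∀ t, x t < y t ↔ ε t) → (f x ≤ f y ↔ Le ε) := by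
    intro ε x y hx hy ne o
    have := hc 2 (fun t => ![x t, y t]) (fun t => ![X ε t, X (fun t => ¬ ε t) t]) fun t =>
      same_two ((hx t).symm.trans (hX _ t)) ((hy t).symm.trans (hX (fun t => ¬ ε t) t)) (ne t)
        (by by_cases e : ε t <;> simp [X, e, (uv t).ne, (uv t).ne'])
        (by by_cases e : ε t <;> simp [X, e, o, uv t, (uv t).le])
    have := (sameType_iff.1 this).2 1 0
    rw [← not_iff_not, not_lt, not_lt] at this
    exact this
  have meet : ∀ ε δ, Le ε → Le δ → Le fun t => ε t ∧ δ t := by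
    intro ε δ h1 h2
    let w : Fin (k + 1) → ℚ := fun t => (u t + v t) / 2
    have uw : ∀ t, u t < w t := fun t => by have := uv t; simp only [w]; linarith
    have wv : ∀ t, w t < v t := fun t => by have := uv t; simp only [w]; linarith
    have hw : ∀ t, Pos c (u t) (w t) := fun t => (hp t).mid (uw t).le (wv t).le
    let x : Fin (k + 1) → ℚ := fun t => if ε t then (if δ t then u t else w t) else v t
    let y : Fin (k + 1) → ℚ := fun t =>
      if ε t then (if δ t then w t else v t) else (if δ t then u t else w t)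
    let z : Fin (k + 1) → ℚ := fun t =>
      if ε t then (if δ t then v t else u t) else (if δ t then w t else u t)
    have hx : ∀ t, Pos c (u t) (x t) := fun t => by
      simp only [x]; split_ifs; exacts [.refl _, hw t, hp t]
    have hy : ∀ t, Pos c (u t) (y t) := fun t => by
      simp only [y]; split_ifs; exacts [hw t, hp t, .refl _, hw t]
    have hz : ∀ t, Pos c (u t) (z t) := fun t => by
      simp only [z]; split_ifs; exacts [hp t, .refl _, hw t, .refl _]
    have k1 : ∀ t, (x t ≠ y t ∧ (x t < y t ↔ ε t)) ∧ (y t ≠ z t ∧ (y t < z t ↔ δ t)) ∧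
        (x t ≠ z t ∧ (x t < z t ↔ ε t ∧ δ t)) := fun t => by
      have a := uw t
      have b := wv t
      have d := uv t
      by_cases e1 : ε t <;> by_cases e2 : δ t <;>
        simp [x, y, z, e1, e2, a, b, d, a.ne, b.ne, d.ne, a.ne', b.ne', d.ne', a.le, b.le, d.le]
    exact (can _ x z hx hz (fun t => (k1 t).2.2.1) fun t => (k1 t).2.2.2).1
      (((can _ x y hx hy (fun t => (k1 t).1.1) fun t => (k1 t).1.2).2 h1).trans
        ((can _ y z hy hz (fun t => (k1 t).2.1.1) fun t => (k1 t).2.1.2).2 h2))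
  have luv : f u < f v := hf _ _ uv
  have : ∃ i, ∀ ε, Le ε → ε i := by
    by_contra H
    push Not at H
    choose ε h1 h2 using H
    have : ∀ s : Finset (Fin (k + 1)), Le fun t => ∀ i ∈ s, ε i t := by
      intro s
      induction s using Finset.induction_on with
      | empty => exact (can _ u v (fun t => .refl _) hp (fun t => (uv t).ne) fun t => by
          simp [uv t]).1 luv.le
      | insert a s _ ih => simpa only [Finset.forall_mem_insert] using meet _ _ (h1 a) ih
    have := (can _ v u hp (fun t => .refl _) (fun t => (uv t).ne') fun t =>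
      iff_of_false (uv t).not_gt fun h => h2 t (h t (Finset.mem_univ t))).2 (this Finset.univ)
    exact luv.not_ge this
  obtain ⟨i, hi⟩ := this
  refine ⟨i, fun x y hx hy ne lt => not_le.1 fun le => ?_⟩
  exact lt.not_gt (hi _ ((can _ y x hy hx (fun t => (ne t).symm) fun t => .rfl).1 le))

/-- not-all-equal on types of pairs inside one orbit -/
def NB (c : Fin n → ℚ) : Str [3] (Ty Qlt c) :=
  ⟨fun i l => i = 0 ∧ ∃ (o : ℚ) (p : Fin 3 → Fin 2 → ℚ), l = List.ofFn (fun j => Quot.mk _ (p j)) ∧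
    (∀ j e, Pos c o (p j e)) ∧ (∃ j, p j 0 < p j 1) ∧ (∃ j, p j 1 < p j 0) ∧ ∀ j, p j 0 ≠ p j 1,
    by rintro _ _ ⟨rfl, o, p, rfl, -⟩; rfl⟩

theorem preserves {ar : List ℕ} (Γ : Str ar ℚ) {s : ℕ} (hs : ∀ x y, Γ.rel s [x, y] ↔ x < y) :
    Preserves (TypeClone Qlt Γ c) (NB c) := by
  rintro k F ⟨f, h1, h2, h3⟩ i m a ha
  have hf : ∀ x y, (∀ t, x t < y t) → f x < f y := fun x y h => by
    have := h1 s 2 (fun t => ![x t, y t]) fun t => by simpa [hs] using h t
    simpa [hs] using this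
  obtain rfl : i = 0 := (ha 0).1
  obtain rfl : m = 3 := by simpa using ((NB c).wf _ _ (ha 0)).symm
  choose o p e hp h0 h1' ne using fun t => (ha t).2
  choose j0 h0 using h0
  have e' : ∀ t j, a t j = Quot.mk _ (p t j) := fun t j => congrFun (List.ofFn_injective (e t)) j
  obtain ⟨i, hi⟩ := proj h2 hf (fun t => p t (j0 t) 0) (fun t => p t (j0 t) 1) h0
    fun t => (hp t _ _).symm.trans (hp t _ _)
  have pp : ∀ j e t, Pos c (p t (j0 t) 0) (p t j e) := fun j e t => (hp t _ _).symm.trans (hp t _ _)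
  have l1 : ∀ j, p i j 0 < p i j 1 → (f fun t => p t j 0) < f fun t => p t j 1 := fun j h =>
    hi _ _ (pp j 0) (pp j 1) (fun t => ne t j) h
  have l2 : ∀ j, p i j 1 < p i j 0 → (f fun t => p t j 1) < f fun t => p t j 0 := fun j h =>
    hi _ _ (pp j 1) (pp j 0) (fun t => (ne t j).symm) h
  refine ⟨rfl, f o, fun j e => f fun t => p t j e, ?_, fun j e => ?_, ⟨_, l1 _ (h0 i)⟩,
    (h1' i).imp fun j h => l2 j h, fun j => ?_⟩
  · congr 1
    funext j
    simp only [e']
    exact h3 fun t => p t j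
  · have := h2 1 (fun t _ => o t) (fun t _ => p t j e) fun t =>
      sameType_iff.2 ⟨fun _ => hp t j e, by simp⟩
    exact (sameType_iff.1 this).1 0
  · rcases lt_or_gt_of_ne (ne i j) with h | h
    exacts [(l1 j h).ne, (l2 j h).ne']

def red (φ : List (ℕ × ℕ × ℕ)) : Code :=
  ((φ.map fun C => C.1 + C.2.1 + C.2.2).sum + 1, φ.map fun C => (0, [C.1, C.2.1, C.2.2]))

theorem nb_nph : NPH (fun _ : Code => True) fun d => Valid [3] d ∧ Hom (str [3] d) (NB c) := by
  classical
  refine H66.Sig.nae_nph.reduce red (by unfold red; fun_prop) fun φ _ => ⟨trivial, ?_, ?_⟩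
  · rintro ⟨χ, hχ⟩
    obtain ⟨M, hM⟩ := (Set.finite_range c).bddAbove
    have hM : ∀ j, c j ≤ M := fun j => hM ⟨j, rfl⟩
    let q : Bool → Fin 2 → ℚ := fun b => if b then ![M + 1, M + 2] else ![M + 2, M + 1]
    have q1 : ∀ b e, M < q b e := fun b e => by
      cases b <;> fin_cases e <;> simp [q]
    have q2 : ∀ b, (b = true → q b 0 < q b 1) ∧ (b = false → q b 1 < q b 0) ∧ q b 0 ≠ q b 1 :=
      fun b => by cases b <;> simp [q]
    refine ⟨fun f hf => ?_, fun x => Quot.mk _ (q (χ x)), fun i l ⟨h1, h2⟩ => ?_⟩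
    · obtain ⟨C, hC, rfl⟩ := List.mem_map.1 hf
      have := List.single_le_sum (l := φ.map fun C => C.1 + C.2.1 + C.2.2) (by simp) _
        (List.mem_map_of_mem hC)
      refine ⟨rfl, ?_⟩
      simp only [red, List.mem_cons, List.not_mem_nil, or_false]
      rintro x (rfl | rfl | rfl) <;> omega
    · obtain ⟨C, hC, e⟩ := List.mem_map.1 h2
      obtain ⟨rfl, e'⟩ := Prod.mk.inj e
      obtain ⟨x, y, z, rfl⟩ := List.length_eq_three.1 (by simpa using (congrArg List.length e').symm)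
      have e := e'
      simp only [List.map_cons, List.map_nil, List.cons.injEq, and_true] at e
      have := hχ C hC
      rw [e.1, e.2.1, e.2.2] at this
      refine ⟨rfl, M + 1, fun j => q (χ (![x, y, z] j)), rfl,
        fun j e i => ?_, ?_, ?_, fun j => (q2 _).2.2⟩
      · have := hM i
        have := q1 (χ (![x, y, z] j)) e
        exact ⟨iff_of_false (by linarith) (by linarith), iff_of_true (by linarith) (by linarith)⟩
      · by_contra H
        have a : ∀ j, χ (![x, y, z] j) = false := fun j =>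
          Bool.eq_false_iff.2 fun h => H ⟨j, (q2 _).1 h⟩
        exact this ⟨(a 0).trans (a 1).symm, (a 1).trans (a 2).symm⟩
      · by_contra H
        have a : ∀ j, χ (![x, y, z] j) = true := fun j =>
          by_contra fun h => H ⟨j, (q2 _).2.1 (by simpa using h)⟩
        exact this ⟨(a 0).trans (a 1).symm, (a 1).trans (a 2).symm⟩
  · rintro ⟨hv, h, hh⟩
    let up : Ty Qlt c → Prop := Quot.lift (fun p : Fin 2 → ℚ => p 0 < p 1) fun a b e =>
      propext ((sameType_iff (m := 2)).1 e |>.2 0 1)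
    refine ⟨fun x => if hx : x < (red φ).1 then decide (up (h ⟨x, hx⟩)) else true, fun C hC => ?_⟩
    have m := List.mem_map_of_mem (f := fun C : ℕ × ℕ × ℕ => (0, [C.1, C.2.1, C.2.2])) hC
    have v := (hv _ m).2
    have v1 := v C.1 (by simp)
    have v2 := v C.2.1 (by simp)
    have v3 := v C.2.2 (by simp)
    obtain ⟨-, o, p, e, -, ⟨j, h1⟩, ⟨j', h2⟩, -⟩ := hh 0 [⟨_, v1⟩, ⟨_, v2⟩, ⟨_, v3⟩] ⟨rfl, m⟩
    have e1 : h ⟨_, v1⟩ = Quot.mk _ (p 0) := (List.cons.inj e).1
    have e2 : h ⟨_, v2⟩ = Quot.mk _ (p 1) := (List.cons.inj (List.cons.inj e).2).1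
    have e3 : h ⟨_, v3⟩ = Quot.mk _ (p 2) :=
      (List.cons.inj (List.cons.inj (List.cons.inj e).2).2).1
    simp only [v1, v2, v3, dif_pos, e1, e2, e3, decide_eq_decide, up]
    rintro ⟨a, b⟩
    have all : ∀ j, p j 0 < p j 1 ↔ p 0 0 < p 0 1 := fun j => by
      fin_cases j
      exacts [.rfl, a.symm, (a.trans b).symm]
    exact h2.not_gt ((all j').2 ((all j).1 h1))

theorem main : FinBounded Qlt ∧ Ordered Qlt ∧ Homogeneous Qlt ∧ Ramsey Qlt ∧ InP (CSP Qlt) ∧
    ∀ (ar : List ℕ) (Γ : Str ar ℚ), (∃ s, ∀ x y, Γ.rel s [x, y] ↔ x < y) →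
      ∀ (n : ℕ) (c : Fin n → ℚ),
        (∃ B : Str [3] (Ty Qlt c), Preserves (TypeClone Qlt Γ c) B ∧ NPHard (CSP B)) ∧
        (CorrTractable (TypeClone Qlt Γ c) → ∀ L, InNP L → InP L) := by
  refine ⟨finBounded, ordered, homog, ramseyQ, csp_P, fun ar Γ ⟨s, hs⟩ n c =>
    ⟨⟨NB c, preserves Γ hs, nb_nph.npHard fun _ _ => .rfl⟩, fun h => ?_⟩⟩
  obtain ⟨F, hF, e⟩ := h _ _ (preserves Γ hs)
  refine H36.Sim.collapse (nb_nph (c := c)) hF id PT.id'
    (fun _ x => decide (x.val = [true])) (by fun_prop) fun a _ => ?_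
  rw [← enc_mem_lang (P := fun d : Code => Valid [3] d ∧ Hom (str [3] d) (NB c))]
  simpa [CSP] using e (enc a)

end Pool.Agent.H18.Can
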