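import Pool.Agent.H62.LadDefs

/-!
Homogeneous ordered Ramsey structures, canonical polymorphisms and type clones.
-/

namespace Pool.Agent.H18.Can

open Pool.Agent.H38.NP Pool.Agent.H62.Lad

variable {ar ar' : List ℕ} {α β : Type}

/-- `f` is an embedding of `B` into `A`. -/
def IsEmb (B : Str ar β) (A : Str ar α) (f : β → α) : Prop :=
  Function.Injective f ∧ ∀ i l, B.rel i l ↔ A.rel i (l.map f)

/-- Every isomorphism between finite substructures extends to an automorphism. -/
def Homogeneous (A : Str ar α) : Prop :=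
  ∀ (n : ℕ) (B : Str ar (Fin n)) (f g : Fin n → α), IsEmb B A f → IsEmb B A g →
    ∃ σ : Equiv.Perm α, IsEmb A A σ ∧ ∀ x, σ (f x) = g x

/-- One of the relations is a (strict) linear order of the domain. -/
def Ordered (A : Str ar α) : Prop :=
  ∃ i, IsStrictTotalOrder α fun x y => A.rel i [x, y]

/-- The class of finite substructures of `A` has the Ramsey property. -/
def Ramsey (A : Str ar α) : Prop :=
  ∀ (k b m : ℕ) (B : Str ar (Fin b)) (C : Str ar (Fin m)), Emb B A → Emb C A →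
    ∃ (N : ℕ) (D : Str ar (Fin N)), Emb D A ∧ ∀ χ : (Fin b → Fin N) → Fin (k + 1),
      ∃ e, IsEmb C D e ∧ ∀ f g, IsEmb B C f → IsEmb B C g → χ (e ∘ f) = χ (e ∘ g)

/-- `f` (of arity `k + 1`) is a polymorphism of `A`. -/
def IsPol (A : Str ar α) {k : ℕ} (f : (Fin (k + 1) → α) → α) : Prop :=
  ∀ (i m : ℕ) (a : Fin (k + 1) → Fin m → α), (∀ t, A.rel i (List.ofFn (a t))) →
    A.rel i (List.ofFn fun j => f fun t => a t j)

/-- The tuples `a`, `b` have the same type in `(A, c)`: an automorphism fixing `c` maps `a` to `b`. -/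
def SameType (A : Str ar α) {n m : ℕ} (c : Fin n → α) (a b : Fin m → α) : Prop :=
  ∃ σ : Equiv.Perm α, IsEmb A A σ ∧ (∀ j, σ (c j) = c j) ∧ ∀ j, σ (a j) = b j

/-- `f` is canonical for `(A, c)`. -/
def Canonical (A : Str ar α) {n k : ℕ} (c : Fin n → α) (f : (Fin (k + 1) → α) → α) : Prop :=
  ∀ (m : ℕ) (a b : Fin (k + 1) → Fin m → α), (∀ t, SameType A c (a t) (b t)) →
    SameType A c (fun j => f fun t => a t j) (fun j => f fun t => b t j)

/-- The set of types of `r`-tuples in `(A, c)`, `r` the maximal arity of the signature. -/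
def Ty (A : Str ar α) {n : ℕ} (c : Fin n → α) : Type :=
  Quot (SameType A c (m := ar.foldr max 0))

/-- The type clone `T_c(Pol Γ)`: the maps on types induced by canonical polymorphisms of `Γ`. -/
def TypeClone (A : Str ar α) (Γ : Str ar' α) {n : ℕ} (c : Fin n → α) (k : ℕ) :
    Set ((Fin (k + 1) → Ty A c) → Ty A c) :=
  {F | ∃ f, IsPol Γ f ∧ Canonical A c f ∧ ∀ a : Fin (k + 1) → Fin (ar.foldr max 0) → α,
    F (fun t => Quot.mk _ (a t)) = Quot.mk _ fun j => f fun t => a t j}

/-- All operations of the clone `𝒞` preserve the relations of `B`. -/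
def Preserves {S : Type} (𝒞 : ∀ k, Set ((Fin (k + 1) → S) → S)) (B : Str ar S) : Prop :=
  ∀ k, ∀ F ∈ 𝒞 k, IsPol B F

/-- The clone `𝒞` corresponds to a tractable CSP. -/
def CorrTractable {S : Type} (𝒞 : ∀ k, Set ((Fin (k + 1) → S) → S)) : Prop :=
  ∀ (ar : List ℕ) (B : Str ar S), Preserves 𝒞 B → InP (CSP B)

/-- The order of the rationals. -/
def Qlt : Str [2] ℚ :=
  ⟨fun i l => i = 0 ∧ ∃ x y, l = [x, y] ∧ x < y, by rintro _ _ ⟨rfl, x, y, rfl, -⟩; rfl⟩

end Pool.Agent.H18.Can
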