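import Pool.Agent.H18.ChromRel

set_option autoImplicit false

namespace Pool.Agent.H18.ChromRel

open SimpleGraph

def nbm (a : Fin 12) : ℕ := [62, 229, 395, 789, 1577, 1107, 3234, 2374, 2700, 3352, 2672, 1984].getD a.val 0

/-- the icosahedron -/
def ico : SimpleGraph (Fin 12) where
  Adj a b := (nbm a).testBit b.val = true
  symm := ⟨by decide +kernel⟩
  loopless := ⟨by decide +kernel⟩

instance : DecidableRel ico.Adj := fun a b => inferInstanceAs (Decidable ((nbm a).testBit b.val = true))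

/-- the claw -/
def claw : SimpleGraph (Fin 4) where
  Adj a b := a ≠ b ∧ (a = 0 ∨ b = 0)
  symm := ⟨by decide⟩
  loopless := ⟨by decide⟩

instance : DecidableRel claw.Adj := fun a b => inferInstanceAs (Decidable (a ≠ b ∧ (a = 0 ∨ b = 0)))

def trip : List (Fin 12 × Fin 12 × Fin 12) := [(0, 6, 8), (0, 6, 9), (0, 7, 9), (0, 7, 10), (0, 8, 10), (1, 3, 10), (1, 3, 11), (1, 4, 8), (1, 4, 11), (1, 8, 10), (2, 4, 6), (2, 4, 11), (2, 5, 9), (2, 5, 11), (2, 6, 9), (3, 5, 7), (3, 5, 11), (3, 7, 10), (4, 6, 8), (5, 7, 9)]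
def cher : List (Fin 12 × Fin 12 × Fin 12) := [(0, 1, 3), (0, 1, 4), (0, 2, 4), (0, 2, 5), (0, 3, 5), (1, 0, 6), (1, 0, 7), (1, 2, 5), (1, 2, 6), (1, 5, 7), (2, 0, 7), (2, 0, 8), (2, 1, 3), (2, 1, 8), (2, 3, 7), (3, 0, 8), (3, 0, 9), (3, 2, 4), (3, 2, 9), (3, 4, 8), (4, 0, 9), (4, 0, 10), (4, 3, 5), (4, 3, 10), (4, 5, 9), (5, 0, 6), (5, 0, 10), (5, 1, 4), (5, 1, 10), (5, 4, 6), (6, 1, 10), (6, 1, 11), (6, 5, 7), (6, 5, 11), (6, 7, 10), (7, 1, 8), (7, 1, 11), (7, 2, 6), (7, 2, 11), (7, 6, 8), (8, 2, 9), (8, 2, 11), (8, 3, 7), (8, 3, 11), (8, 7, 9), (9, 3, 10), (9, 3, 11), (9, 4, 8), (9, 4, 11), (9, 8, 10), (10, 4, 6), (10, 4, 11), (10, 5, 9), (10, 5, 11), (10, 6, 9), (11, 6, 8), (11, 6, 9), (11, 7, 9), (11, 7, 10), (11, 8, 10)]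

lemma trip_ok : ∀ t ∈ trip, t.1 ≠ t.2.1 ∧ t.1 ≠ t.2.2 ∧ t.2.1 ≠ t.2.2 ∧ ¬ ico.Adj t.1 t.2.1 ∧
    ¬ ico.Adj t.1 t.2.2 ∧ ¬ ico.Adj t.2.1 t.2.2 := by decide +kernel
lemma cher_ok : ∀ t ∈ cher, ico.Adj t.1 t.2.1 ∧ ico.Adj t.1 t.2.2 ∧ t.2.1 ≠ t.2.2 ∧
    ¬ ico.Adj t.2.1 t.2.2 := by decide +kernel

def chk (s : ℕ) : Bool :=
  !(trip.all (fun t => !(s.testBit t.1.val && s.testBit t.2.1.val && s.testBit t.2.2.val)) &&
    cher.all (fun t => !s.testBit t.1.val || s.testBit t.2.1.val || s.testBit t.2.2.val)) ||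
  (List.finRange 12).all (fun x => !s.testBit x.val) ||
  (List.finRange 12).any (fun c => (List.finRange 12).all
    (fun x => s.testBit x.val == (decide (x = c) || decide (ico.Adj c x))))

lemma chk_all : (List.range 4096).all chk = true := by decide +kernel

def ClawFreeOn {V : Type} (H : SimpleGraph V) (S : Set V) : Prop :=
  ∀ x ∈ S, ∀ a ∈ S, ∀ b ∈ S, ∀ c ∈ S, H.Adj x a → H.Adj x b → H.Adj x c → a ≠ b → a ≠ c → b ≠ c →
    H.Adj a b ∨ H.Adj a c ∨ H.Adj b c

lemma loc {V : Type} {H : SimpleGraph V} {S : Set V} (hS : ClawFreeOn H S) (g : ico ↪g H)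
    (hg : ∀ a, g a ∈ S) {u : V} (hu : u ∈ S) (hu' : ∀ a, g a ≠ u) :
    (∀ x, ¬ H.Adj u (g x)) ∨ ∃ c, ∀ x, H.Adj u (g x) ↔ (x = c ∨ ico.Adj c x) := by
  classical
  let f : Fin 12 → Bool := fun x => decide (H.Adj u (g x))
  have hb : ∀ x : Fin 12, (Nat.ofBits f).testBit x.val = decide (H.Adj u (g x)) := fun x =>
    Nat.testBit_ofBits_lt f x.val x.isLt
  have h := List.all_eq_true.mp chk_all (Nat.ofBits f)
    (List.mem_range.mpr (Nat.ofBits_lt_two_pow f))
  simp only [chk, hb, Bool.or_eq_true, Bool.not_eq_true', List.all_eq_true, List.any_eq_true,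
    List.mem_finRange, true_and, forall_const] at h
  rcases h with (h | h) | h
  · exfalso
    rw [Bool.and_eq_false_iff] at h
    rcases h with h | h
    · rw [← Bool.not_eq_true, List.all_eq_true] at h
      apply h
      intro t ht
      obtain ⟨h1, h2, h3, h4, h5, h6⟩ := trip_ok t ht
      simp only [Bool.not_eq_true', Bool.and_eq_false_iff, decide_eq_false_iff_not]
      by_contra hc
      push Not at hc
      have := hS u hu _ (hg t.1) _ (hg t.2.1) _ (hg t.2.2) hc.1.1 hc.1.2 hc.2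
        (g.injective.ne h1) (g.injective.ne h2) (g.injective.ne h3)
      simp only [g.map_rel_iff] at this
      tauto
    · rw [← Bool.not_eq_true, List.all_eq_true] at h
      apply h
      intro t ht
      obtain ⟨h1, h2, h3, h4⟩ := cher_ok t ht
      simp only [Bool.or_eq_true, Bool.not_eq_true', decide_eq_false_iff_not, decide_eq_true_eq]
      by_contra hc
      push Not at hc
      have := hS _ (hg t.1) u hu _ (hg t.2.1) _ (hg t.2.2) hc.1.1.symm (g.map_rel_iff.mpr h1)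
        (g.map_rel_iff.mpr h2) (hu' _).symm (hu' _).symm (g.injective.ne h3)
      simp only [g.map_rel_iff] at this
      tauto
  · exact Or.inl (fun x => by simpa using h x)
  · obtain ⟨c, hc⟩ := h
    refine Or.inr ⟨c, fun x => ?_⟩
    have := hc x
    rw [beq_iff_eq, ← Bool.decide_or] at this
    exact decide_eq_decide.mp this

lemma fin1 : ∀ y z z' : Fin 12, (∀ x, x ≠ y → ((x = z ∨ ico.Adj z x) ↔ (x = z' ∨ ico.Adj z' x))) →
    z = z' := by decide +kernel
lemma fin2 : ∀ y z : Fin 12, ∃ x, x ≠ y ∧ (x = z ∨ ico.Adj z x) := by decide +kernel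

/-- A vertex with a neighbour in a copy of the icosahedron is a true twin of a vertex of the copy. -/
lemma twin {V : Type} {H : SimpleGraph V} {S : Set V} (hS : ClawFreeOn H S) (g : ico ↪g H)
    (hg : ∀ a, g a ∈ S) {u : V} (hu : u ∈ S) (hu' : ∀ a, g a ≠ u) {x0 : Fin 12}
    (hx : H.Adj u (g x0)) :
    ∃ y, ∀ w ∈ S, (w = u ∨ H.Adj u w) ↔ (w = g y ∨ H.Adj (g y) w) := by
  classical
  rcases loc hS g hg hu hu' with h | ⟨y, hy⟩
  · exact absurd hx (h x0)
  have huy : H.Adj u (g y) := (hy y).mpr (Or.inl rfl)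
  let g' : ico ↪g H := ⟨⟨fun x => if x = y then u else g x, by
      intro a b hab
      simp only at hab
      split_ifs at hab with h1 h2 h2
      · rw [h1, h2]
      · exact absurd hab.symm (hu' _)
      · exact absurd hab (hu' _)
      · exact g.injective hab⟩, by
      intro a b
      simp only [Function.Embedding.coeFn_mk]
      split_ifs with h1 h2 h2
      · simp [h1, h2]
      · rw [hy, h1]; simp [h2]
      · rw [H.adj_comm, hy, h2, ico.adj_comm]; simp [h1]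
      · exact g.map_rel_iff⟩
  have g1 : g' y = u := if_pos rfl
  have g2 : ∀ x, x ≠ y → g' x = g x := fun x hx => if_neg hx
  have hg' : ∀ a, g' a ∈ S := by
    intro a
    by_cases h : a = y
    · rw [h, g1]; exact hu
    · rw [g2 a h]; exact hg a
  refine ⟨y, fun w hw => ?_⟩
  by_cases h1 : w = u
  · subst h1; simp [huy.symm]
  by_cases h2 : ∃ a, g a = w
  · obtain ⟨a, rfl⟩ := h2
    rw [hy, g.map_rel_iff, g.injective.eq_iff]
    simp [hu' a]
  push Not at h2
  have h3 : ∀ a, g' a ≠ w := by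
    intro a
    by_cases h : a = y
    · rw [h, g1]; exact Ne.symm h1
    · rw [g2 a h]; exact h2 a
  have h4 : w ≠ g y := (h2 y).symm
  simp only [h1, h4, false_or]
  rw [H.adj_comm u, H.adj_comm (g y), ← g1]
  rcases loc hS g hg hw h2 with p | ⟨z, p⟩ <;> rcases loc hS g' hg' hw h3 with q | ⟨z', q⟩
  · simp [p, q]
  · obtain ⟨x, hx1, hx2⟩ := fin2 y z'
    exact absurd ((q x).mpr hx2) (by rw [g2 x hx1]; exact p x)
  · obtain ⟨x, hx1, hx2⟩ := fin2 y z
    exact absurd ((p x).mpr hx2) (by rw [← g2 x hx1]; exact q x)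
  · have : z = z' := fin1 y z z' (fun x hx => by rw [← p, ← q, g2 x hx])
    rw [p, q, this]

/-- A claw-free set splits into two parts without an induced icosahedron. -/
lemma split {V : Type} [Fintype V] {H : SimpleGraph V} {S : Set V} (hS : ClawFreeOn H S) :
    ∃ T : Set V, ∀ g : ico ↪g H, (∀ a, g a ∈ S) → (∃ a, g a ∈ T) ∧ ∃ a, g a ∉ T := by
  classical
  obtain ⟨I, hI⟩ := Finite.exists_le_maximal (p := fun I : Set V => I ⊆ S ∧ H.IsIndepSet I)
    (a := ∅) ⟨by simp, by simp [IsIndepSet]⟩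
  obtain ⟨-, ⟨hI1, hI2⟩, hI3⟩ := hI
  refine ⟨{v | ∃ u ∈ I, ∀ w ∈ S, (w = u ∨ H.Adj u w) ↔ (w = v ∨ H.Adj v w)}, fun g hg => ⟨?_, ?_⟩⟩
  · by_contra hc
    push Not at hc
    have hn : ∀ a, g a ∉ I := fun a ha => hc a ⟨g a, ha, fun _ _ => Iff.rfl⟩
    obtain ⟨u, hu, hadj⟩ : ∃ u ∈ I, H.Adj u (g 0) := by
      by_contra h
      push Not at h
      have : insert (g 0) I ⊆ I := by
        apply hI3
        · refine ⟨Set.insert_subset (hg 0) hI1, ?_⟩
          rw [IsIndepSet, Set.pairwise_insert]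
          exact ⟨hI2, fun b hb _ => ⟨fun e => h b hb e.symm, h b hb⟩⟩
        · exact Set.subset_insert _ _
      exact hn 0 (this (Set.mem_insert _ _))
    obtain ⟨y, hy⟩ := twin hS g hg (hI1 hu) (fun a e => hn a (e ▸ hu)) hadj
    exact hc y ⟨u, hu, hy⟩
  · by_contra hc
    push Not at hc
    obtain ⟨u0, a0, b0⟩ := hc 0
    obtain ⟨u1, a1, b1⟩ := hc 1
    obtain ⟨u3, a3, b3⟩ := hc 3
    have same : ∀ {u u' : V} {x y : Fin 12}, u ∈ I → u' ∈ I →
        (∀ w ∈ S, (w = u ∨ H.Adj u w) ↔ (w = g x ∨ H.Adj (g x) w)) →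
        (∀ w ∈ S, (w = u' ∨ H.Adj u' w) ↔ (w = g y ∨ H.Adj (g y) w)) → ico.Adj x y → u = u' := by
      intro u u' x y hu hu' h h' hxy
      have e1 := (h (g y) (hg y)).mpr (Or.inr (g.map_rel_iff.mpr hxy))
      have e2 : u = g y ∨ H.Adj (g y) u := e1.imp Eq.symm Adj.symm
      have e3 := (h' u (hI1 hu)).mpr e2
      by_contra hne
      rcases e3 with e | e
      · exact hne e
      · exact hI2 hu hu' hne e.symm
    have e1 := same a0 a1 b0 b1 (by decide)
    have e3 := same a0 a3 b0 b3 (by decide)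
    subst e1 e3
    have := (b1 (g 3) (hg 3)).mp ((b3 (g 3) (hg 3)).mpr (Or.inl rfl))
    rw [g.map_rel_iff, g.injective.eq_iff] at this
    revert this; decide

lemma clawFree_iff {V : Type} {H : SimpleGraph V} {S : Set V} :
    ClawFreeOn H S ↔ ∀ f : claw ↪g H, ¬ ∀ v, f v ∈ S := by
  constructor
  · intro h f hf
    have := h _ (hf 0) _ (hf 1) _ (hf 2) _ (hf 3) (f.map_rel_iff.mpr (by decide))
      (f.map_rel_iff.mpr (by decide)) (f.map_rel_iff.mpr (by decide))
      (f.injective.ne (by decide)) (f.injective.ne (by decide)) (f.injective.ne (by decide))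
    simp only [f.map_rel_iff] at this
    revert this; decide
  · intro h x hx a ha b hb c hc h1 h2 h3 h4 h5 h6
    by_contra hn
    push Not at hn
    obtain ⟨n1, n2, n3⟩ := hn
    have n1' : ¬ H.Adj b a := fun e => n1 e.symm
    have n2' : ¬ H.Adj c a := fun e => n2 e.symm
    have n3' : ¬ H.Adj c b := fun e => n3 e.symm
    have inj : Function.Injective ![x, a, b, c] := by
      have := h1.ne; have := h2.ne; have := h3.ne
      intro i j hij
      fin_cases i <;> fin_cases j <;> simp_all [eq_comm]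
    have adj : ∀ i j, H.Adj (![x, a, b, c] i) (![x, a, b, c] j) ↔ claw.Adj i j := by
      intro i j
      fin_cases i <;> fin_cases j <;>
        simp [claw, h1, h2, h3, h1.symm, h2.symm, h3.symm, n1, n2, n3, n1', n2', n3']
    have mem : ∀ v, ![x, a, b, c] v ∈ S := by
      intro v
      fin_cases v
      exacts [hx, ha, hb, hc]
    exact h ⟨⟨_, inj⟩, fun {i j} => adj i j⟩ mem

/-- the join of two copies of five disjoint icosahedra -/
def big : SimpleGraph (Bool × Fin 5 × Fin 12) where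
  Adj a b := a.1 ≠ b.1 ∨ (a.2.1 = b.2.1 ∧ ico.Adj a.2.2 b.2.2)
  symm := ⟨fun _ _ h => h.imp Ne.symm (fun h => ⟨h.1.symm, h.2.symm⟩)⟩
  loopless := ⟨fun a h => by
    rcases h with h | h
    · exact h rfl
    · exact ico.irrefl h.2⟩

def cp (s : Bool) (i : Fin 5) : ico ↪g big :=
  ⟨⟨fun x => (s, i, x), fun a b h => congrArg (fun t => t.2.2) h⟩, by simp [big]⟩

lemma pig : ∀ m : Fin 5 → Fin 3, ∃ c : Fin 3, ∀ k : Fin 3, k ≠ c →
    ∃ i j l : Fin 5, i ≠ j ∧ i ≠ l ∧ j ≠ l ∧ m i ≠ k ∧ m j ≠ k ∧ m l ≠ k := by decide +kernel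

lemma two : ∀ a b : Fin 3, a ≠ b → ∃ m : Fin 3, ∀ k, k ≠ m → k = a ∨ k = b := by decide

lemma big_not (c : Bool × Fin 5 × Fin 12 → Fin 3) (h1 : ∀ k, ClawFreeOn big {v | c v = k})
    (h2 : ∀ g : ico ↪g big, ∃ a b, c (g a) ≠ c (g b)) : False := by
  have h3 : ∀ s i, ∃ m : Fin 3, ∀ k, k ≠ m → ∃ x, c (s, i, x) = k := by
    intro s i
    obtain ⟨a, b, hab⟩ := h2 (cp s i)
    obtain ⟨m, hm⟩ := two _ _ hab
    refine ⟨m, fun k hk => ?_⟩
    rcases hm k hk with h | h
    · exact ⟨a, h.symm⟩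
    · exact ⟨b, h.symm⟩
  choose m hm using h3
  obtain ⟨c1, e1⟩ := pig (m true)
  obtain ⟨c2, e2⟩ := pig (m false)
  obtain ⟨k, k1, k2⟩ : ∃ k : Fin 3, k ≠ c1 ∧ k ≠ c2 := by
    clear e1 e2; revert c1 c2; decide
  obtain ⟨i, -, -, -, -, -, hi, -⟩ := e1 k k1
  obtain ⟨x, hx⟩ := hm true i k hi.symm
  obtain ⟨a, b, d, ab, ad, bd, ha, hb, hd⟩ := e2 k k2
  obtain ⟨xa, ha⟩ := hm false a k ha.symm
  obtain ⟨xb, hb⟩ := hm false b k hb.symm
  obtain ⟨xd, hd⟩ := hm false d k hd.symm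
  have := h1 k _ hx _ ha _ hb _ hd (by simp [big]) (by simp [big]) (by simp [big])
    (by simp [ab]) (by simp [ad]) (by simp [bd])
  simp [big, ab, ad, bd] at this

theorem not_related_three : ¬ RelatedAt claw big 3 := by
  classical
  rintro ⟨n, H, ⟨⟨c, hc⟩, -⟩, h2⟩
  have hS : ∀ k, ClawFreeOn H {v | c v = k} := fun k =>
    clawFree_iff.mpr (fun f hf => hc f ⟨k, hf⟩)
  choose T hT using fun k => split (hS k)
  have : FreeCol H big 2 := by
    refine ⟨fun v => if v ∈ T (c v) then 0 else 1, fun f ⟨i, hi⟩ => ?_⟩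
    refine big_not (fun v => c (f v)) (fun k => clawFree_iff.mpr (fun g hg => hc (f.comp g) ⟨k, hg⟩))
      (fun g => ?_)
    by_contra hn
    push Not at hn
    obtain ⟨⟨a, ha⟩, ⟨b, hb⟩⟩ := hT (c (f (g 0))) (f.comp g) (fun a => hn a 0)
    have e1 := hi (g a)
    have e2 := hi (g b)
    simp only at e1 e2
    rw [hn a 0, if_pos (show f (g a) ∈ _ from ha)] at e1
    rw [hn b 0, if_neg (show f (g b) ∉ _ from hb)] at e2
    exact absurd (e1.trans e2.symm) (by decide)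
  have := h2.2 this
  omega

lemma ico_clawfree' : ∀ x a : Fin 12, ico.Adj x a → ∀ b, ico.Adj x b → ∀ c, ico.Adj x c →
    (a = b ∨ a = c ∨ b = c ∨ ico.Adj a b ∨ ico.Adj a c ∨ ico.Adj b c) := by decide +kernel

lemma ico_clawfree (x a b c : Fin 12) (h1 : ico.Adj x a) (h2 : ico.Adj x b) (h3 : ico.Adj x c)
    (h4 : a ≠ b) (h5 : a ≠ c) (h6 : b ≠ c) : ico.Adj a b ∨ ico.Adj a c ∨ ico.Adj b c := by
  have := ico_clawfree' x a h1 b h2 c h3
  tauto

theorem chi_big_claw : ChiEq big claw 2 := by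
  refine chiEq_of (r := 1) ⟨fun v => if v.1 then 0 else 1, fun f ⟨i, hi⟩ => ?_⟩ ?_
  · refine (clawFree_iff (S := {v : Bool × Fin 5 × Fin 12 | (if v.1 then 0 else 1 : Fin 2) = i})).mp
      ?_ f hi
    rintro ⟨s, j, x⟩ hx ⟨s1, j1, a⟩ ha ⟨s2, j2, b⟩ hb ⟨s3, j3, c⟩ hc h1 h2 h3 h4 h5 h6
    have key : ∀ s t : Bool, (if s then 0 else 1 : Fin 2) = (if t then 0 else 1 : Fin 2) → s = t := by
      decide
    obtain rfl : s = s1 := key _ _ (hx.trans ha.symm)
    obtain rfl : s = s2 := key _ _ (hx.trans hb.symm)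
    obtain rfl : s = s3 := key _ _ (hx.trans hc.symm)
    simp only [big, ne_eq, not_true_eq_false, false_or] at h1 h2 h3 ⊢
    obtain ⟨rfl, h1⟩ := h1
    obtain ⟨rfl, h2⟩ := h2
    obtain ⟨rfl, h3⟩ := h3
    simpa using ico_clawfree x a b c h1 h2 h3 (by simpa using h4) (by simpa using h5)
      (by simpa using h6)
  · rintro ⟨c, hc⟩
    have := (clawFree_iff (S := Set.univ)).mpr (fun f _ => hc f ⟨0, fun _ => Subsingleton.elim _ _⟩)
      (true, 0, 0) trivial (false, 0, 0) trivial (false, 1, 0) trivial (false, 2, 0) trivial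
      (by simp [big]) (by simp [big]) (by simp [big]) (by simp) (by simp) (by simp)
    simp [big] at this

theorem chi_big_big : ChiEq big big 2 := by
  refine chiEq_of (r := 1) ⟨fun v => if v.1 then 0 else 1, fun f ⟨i, hi⟩ => ?_⟩ ?_
  · have hs : Function.Surjective f := Finite.surjective_of_injective f.injective
    obtain ⟨a, ha⟩ := hs (true, 0, 0)
    obtain ⟨b, hb⟩ := hs (false, 0, 0)
    have e1 := hi a
    have e2 := hi b
    rw [ha] at e1
    rw [hb] at e2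
    exact absurd (e1.trans e2.symm) (by decide)
  · rintro ⟨c, hc⟩
    exact hc Embedding.refl ⟨0, fun _ => Subsingleton.elim _ _⟩

theorem chi_claw_big : ChiEq claw big 1 := by
  refine chiEq_of (r := 0) ⟨fun _ => 0, fun f _ => ?_⟩ ?_
  · have := Fintype.card_le_of_injective _ f.injective
    simp at this
  · rintro ⟨c, -⟩; exact (c 0).elim0

theorem claw_conn : claw.Connected := by
  refine ⟨fun a b => ?_⟩
  have h : ∀ a, claw.Reachable a 0 := by
    intro a
    by_cases h : a = 0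
    · rw [h]
    · exact Adj.reachable ⟨h, Or.inr rfl⟩
  exact (h a).trans (h b).symm

theorem big_conn : big.Connected := by
  refine ⟨fun a b => ?_⟩
  by_cases h : a.1 = b.1
  · have h1 : big.Adj a (!a.1, 0, 0) := Or.inl (by simp)
    have h2 : big.Adj (!a.1, 0, 0) b := Or.inl (by simp [h])
    exact h1.reachable.trans h2.reachable
  · exact Adj.reachable (Or.inl h)

end Pool.Agent.H18.ChromRel
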