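import Pool.Agent.H18.ChromRelDefs

set_option autoImplicit false

namespace Pool.Agent.H18.ChromRel

open SimpleGraph

lemma FreeCol.mono {α β : Type} {H : SimpleGraph β} {F : SimpleGraph α} {k j : ℕ}
    (h : FreeCol H F k) (hk : k ≤ j) [Nonempty α] : FreeCol H F j := by
  obtain ⟨c, hc⟩ := h
  refine ⟨fun v => Fin.castLE hk (c v), fun f ⟨i, hi⟩ => hc f ?_⟩
  obtain ⟨a⟩ := ‹Nonempty α›
  exact ⟨c (f a), fun v => Fin.castLE_injective hk ((hi v).trans (hi a).symm)⟩

lemma chiEq_of {α β : Type} {H : SimpleGraph β} {F : SimpleGraph α} [Nonempty α] {r : ℕ}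
    (h1 : FreeCol H F (r + 1)) (h2 : ¬ FreeCol H F r) : ChiEq H F (r + 1) :=
  ⟨h1, fun k hk => by
    by_contra hc
    exact h2 (FreeCol.mono hk (by omega))⟩

lemma FreeCol.iso {α β γ : Type} {H : SimpleGraph β} {H' : SimpleGraph γ} {F : SimpleGraph α}
    {k : ℕ} (e : H' ↪g H) (h : FreeCol H F k) : FreeCol H' F k := by
  obtain ⟨c, hc⟩ := h
  exact ⟨fun v => c (e v), fun f hf => hc (e.comp f) hf⟩

lemma FreeCol.of_emb {α β γ : Type} {H : SimpleGraph β} {F' : SimpleGraph γ} {F : SimpleGraph α}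
    {k : ℕ} (e : F ↪g F') (h : FreeCol H F k) : FreeCol H F' k := by
  obtain ⟨c, hc⟩ := h
  exact ⟨c, fun f ⟨i, hi⟩ => hc (f.comp e) ⟨i, fun v => hi _⟩⟩

lemma relatedAt_of {α β γ : Type} [Fintype γ] {F : SimpleGraph α} {G : SimpleGraph β}
    (H : SimpleGraph γ) {l : ℕ} (h1 : ChiEq H F l) (h2 : ChiEq H G l) : RelatedAt F G l := by
  let e := Fintype.equivFin γ
  let H' : SimpleGraph (Fin (Fintype.card γ)) := H.comap e.symm
  let i : H' ≃g H := ⟨e.symm, Iff.rfl⟩
  exact ⟨_, H', ⟨h1.1.iso i.toEmbedding, fun k hk => h1.2 (FreeCol.iso i.symm.toEmbedding hk)⟩,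
    ⟨h2.1.iso i.toEmbedding, fun k hk => h2.2 (FreeCol.iso i.symm.toEmbedding hk)⟩⟩

lemma RelatedAt.symm {α β : Type} {F : SimpleGraph α} {G : SimpleGraph β} {l : ℕ}
    (h : RelatedAt F G l) : RelatedAt G F l := by
  obtain ⟨m, H, h1, h2⟩ := h
  exact ⟨m, H, h2, h1⟩

lemma Related.symm {α β : Type} {F : SimpleGraph α} {G : SimpleGraph β}
    (h : Related F G) : Related G F := fun l hl => (h l hl).symm

def embC {α β : Type} {F : SimpleGraph α} {H : SimpleGraph β} (f : Fᶜ ↪g Hᶜ) : F ↪g H where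
  toEmbedding := f.toEmbedding
  map_rel_iff' := by
    intro a b
    have := f.map_rel_iff (a := a) (b := b)
    simp only [compl_adj] at this
    by_cases hab : a = b
    · subst hab; simp
    · have h2 : f a ≠ f b := fun e => hab (f.injective e)
      simp only [ne_eq, h2, not_false_eq_true, true_and, hab] at this
      exact not_iff_not.mp this

lemma FreeCol.compl {α β : Type} {H : SimpleGraph β} {F : SimpleGraph α} {k : ℕ}
    (h : FreeCol H F k) : FreeCol Hᶜ Fᶜ k := by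
  obtain ⟨c, hc⟩ := h
  exact ⟨c, fun f hf => hc (embC f) hf⟩

lemma ChiEq.compl {α β : Type} {H : SimpleGraph β} {F : SimpleGraph α} {k : ℕ}
    (h : ChiEq H F k) : ChiEq Hᶜ Fᶜ k :=
  ⟨h.1.compl, fun j hj => h.2 (by simpa using FreeCol.compl hj)⟩

lemma Related.compl {α β : Type} {F : SimpleGraph α} {G : SimpleGraph β}
    (h : Related Fᶜ Gᶜ) : Related F G := by
  intro l hl
  obtain ⟨m, H, h1, h2⟩ := h l hl
  exact ⟨m, Hᶜ, by simpa using h1.compl, by simpa using h2.compl⟩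

lemma chiEq_one {α : Type} [Fintype α] (F : SimpleGraph α) (h : 2 ≤ Fintype.card α) :
    ChiEq (⊥ : SimpleGraph (Fin 1)) F 1 := by
  haveI : Nonempty α := Fintype.card_pos_iff.mp (by omega)
  refine chiEq_of (r := 0) ⟨fun _ => 0, fun f _ => ?_⟩ ?_
  · have := Fintype.card_le_of_injective _ f.injective
    simp at this; omega
  · rintro ⟨c, -⟩; exact (c 0).elim0

lemma relatedAt_one {α β : Type} [Fintype α] [Fintype β] (F : SimpleGraph α) (G : SimpleGraph β)
    (h : 2 ≤ Fintype.card α) (h' : 2 ≤ Fintype.card β) : RelatedAt F G 1 :=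
  ⟨1, ⊥, chiEq_one F h, chiEq_one G h'⟩

/-- One step of the partite vertex Ramsey construction. -/
lemma step {l : ℕ} (r : ℕ) (j : Fin l) {V : Type} [Fintype V] (D : SimpleGraph V)
    (p : D.Coloring (Fin l)) :
    ∃ (W : Type) (_ : Fintype W) (E : SimpleGraph W) (q : E.Coloring (Fin l)),
      ∀ c : W → Fin (r + 1), ∃ f : D ↪g E, (∀ v, q (f v) = p v) ∧
        ∃ i, ∀ v, p v = j → c (f v) = i := by
  classical
  let X := {v // p v = j}
  let Y := {v // p v ≠ j}
  let N := (r + 1) * Fintype.card X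
  let W := Fin N ⊕ ((X ↪ Fin N) × Y)
  let adj : W → W → Prop := fun a b => match a, b with
    | .inl _, .inl _ => False
    | .inl x, .inr y => ∃ v : X, y.1 v = x ∧ D.Adj v.1 y.2.1
    | .inr y, .inl x => ∃ v : X, y.1 v = x ∧ D.Adj v.1 y.2.1
    | .inr y, .inr z => y.1 = z.1 ∧ D.Adj y.2.1 z.2.1
  let E : SimpleGraph W :=
    { Adj := adj
      symm := ⟨by
        rintro (a | a) (b | b) h <;> simp only [adj] at h ⊢
        · exact h
        · exact h
        · exact ⟨h.1.symm, h.2.symm⟩⟩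
      loopless := ⟨by
        rintro (a | a) h <;> simp only [adj] at h
        exact D.irrefl h.2⟩ }
  let q0 : W → Fin l := fun a => match a with
    | .inl _ => j
    | .inr y => p y.2.1
  have hq : ∀ {a b}, E.Adj a b → q0 a ≠ q0 b := by
    rintro (a | a) (b | b) h
    · exact h.elim
    · exact b.2.2.symm
    · exact a.2.2
    · exact p.valid h.2
  refine ⟨W, inferInstance, E, Coloring.mk q0 hq, fun c => ?_⟩
  obtain ⟨i, hi⟩ := Fintype.exists_le_card_fiber_of_mul_le_card (f := fun x : Fin N => c (.inl x))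
    (n := Fintype.card X) (by simp [N])
  obtain ⟨φ, hφ⟩ : ∃ φ : X ↪ Fin N, ∀ v, c (.inl (φ v)) = i := by
    obtain ⟨ψ⟩ : Nonempty (X ↪ {x // x ∈ Finset.univ.filter (fun x : Fin N => c (.inl x) = i)}) := by
      apply Function.Embedding.nonempty_of_card_le
      simpa [Fintype.card_subtype] using hi
    exact ⟨ψ.trans (Function.Embedding.subtype _), fun v => (Finset.mem_filter.mp (ψ v).2).2⟩
  let f0 : V → W := fun v => if h : p v = j then .inl (φ ⟨v, h⟩) else .inr (φ, ⟨v, h⟩)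
  have f1 : ∀ v (h : p v = j), f0 v = .inl (φ ⟨v, h⟩) := fun v h => dif_pos h
  have f2 : ∀ v (h : ¬ p v = j), f0 v = .inr (φ, ⟨v, h⟩) := fun v h => dif_neg h
  refine ⟨⟨⟨f0, ?_⟩, ?_⟩, ?_, i, ?_⟩
  · intro a b h
    by_cases ha : p a = j <;> by_cases hb : p b = j
    · rw [f1 a ha, f1 b hb] at h
      exact congrArg Subtype.val (φ.injective (Sum.inl_injective h))
    · rw [f1 a ha, f2 b hb] at h; cases h
    · rw [f2 a ha, f1 b hb] at h; cases h
    · rw [f2 a ha, f2 b hb] at h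
      exact congrArg (fun x => x.2.1) (Sum.inr_injective h)
  · intro a b
    change adj (f0 a) (f0 b) ↔ _
    by_cases ha : p a = j <;> by_cases hb : p b = j
    · rw [f1 a ha, f1 b hb]
      simp only [adj, false_iff]
      exact fun h => p.valid h (ha.trans hb.symm)
    · rw [f1 a ha, f2 b hb]
      simp only [adj]
      constructor
      · rintro ⟨v, h1, h2⟩
        rw [φ.injective h1] at h2; exact h2
      · exact fun h => ⟨_, rfl, h⟩
    · rw [f2 a ha, f1 b hb]
      simp only [adj]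
      constructor
      · rintro ⟨v, h1, h2⟩
        rw [φ.injective h1] at h2; exact h2.symm
      · exact fun h => ⟨_, rfl, h.symm⟩
    · rw [f2 a ha, f2 b hb]
      simp [adj]
  · intro v
    change q0 (f0 v) = p v
    by_cases hv : p v = j
    · rw [f1 v hv]; exact hv.symm
    · rw [f2 v hv]
  · intro v hv
    change c (f0 v) = i
    rw [f1 v hv]; exact hφ _

lemma ramsey {l : ℕ} (r : ℕ) {V : Type} [Fintype V] (D : SimpleGraph V)
    (p : D.Coloring (Fin l)) (t : ℕ) (ht : t ≤ l) :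
    ∃ (W : Type) (_ : Fintype W) (E : SimpleGraph W) (q : E.Coloring (Fin l)),
      ∀ c : W → Fin (r + 1), ∃ f : D ↪g E, (∀ v, q (f v) = p v) ∧
        ∃ col : Fin l → Fin (r + 1), ∀ v, (p v).val < t → c (f v) = col (p v) := by
  induction t with
  | zero =>
    exact ⟨V, inferInstance, D, p, fun c => ⟨Embedding.refl, fun _ => rfl, fun _ => 0,
      fun v hv => absurd hv (by omega)⟩⟩
  | succ t ih =>
    obtain ⟨W, _, E, q, h⟩ := ih (by omega)
    obtain ⟨W', _, E', q', h'⟩ := step r ⟨t, by omega⟩ E q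
    refine ⟨W', inferInstance, E', q', fun c => ?_⟩
    obtain ⟨g, hg, i, hi⟩ := h' c
    obtain ⟨f, hf, col, hcol⟩ := h (fun w => c (g w))
    refine ⟨g.comp f, fun v => (hg _).trans (hf v),
      Function.update col ⟨t, by omega⟩ i, fun v hv => ?_⟩
    by_cases h1 : p v = ⟨t, by omega⟩
    · rw [h1, Function.update_self]
      exact hi _ ((hf v).trans h1)
    · rw [Function.update_of_ne h1]
      have : (p v).val ≠ t := fun e => h1 (Fin.ext e)
      exact hcol v (by omega)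

/-- An `l`-colourable graph in which every `(r+1)`-colouring has a monochromatic induced `K`. -/
lemma universal {l r s : ℕ} (hl : (r + 1) * s < l) {V : Type} [Fintype V] (K : SimpleGraph V)
    (hK : K.Colorable (s + 1)) :
    ∃ (W : Type) (_ : Fintype W) (E : SimpleGraph W), E.Colorable l ∧ ¬ FreeCol E K (r + 1) := by
  classical
  obtain ⟨κ⟩ := hK
  let D : SimpleGraph ((Fin (s + 1) ↪ Fin l) × V) :=
    { Adj := fun a b => a.1 = b.1 ∧ K.Adj a.2 b.2
      symm := ⟨fun a b h => ⟨h.1.symm, h.2.symm⟩⟩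
      loopless := ⟨fun a h => K.irrefl h.2⟩ }
  let p : D.Coloring (Fin l) := Coloring.mk (fun a => a.1 (κ a.2)) (by
    rintro ⟨g, a⟩ ⟨g', b⟩ ⟨h1, h2⟩ h
    simp only at h1 h2 h
    subst h1
    exact κ.valid h2 (g.injective h))
  obtain ⟨W, _, E, q, h⟩ := ramsey r D p l le_rfl
  refine ⟨W, inferInstance, E, ⟨q⟩, ?_⟩
  rintro ⟨c, hc⟩
  obtain ⟨f, -, col, hcol⟩ := h c
  obtain ⟨i, hi⟩ := Fintype.exists_lt_card_fiber_of_mul_lt_card (f := col) (n := s) (by simpa using hl)
  obtain ⟨φ, hφ⟩ : ∃ φ : Fin (s + 1) ↪ Fin l, ∀ v, col (φ v) = i := by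
    obtain ⟨ψ⟩ : Nonempty (Fin (s + 1) ↪ {x // x ∈ Finset.univ.filter (fun x => col x = i)}) := by
      apply Function.Embedding.nonempty_of_card_le
      simpa [Fintype.card_subtype] using hi
    exact ⟨ψ.trans (Function.Embedding.subtype _), fun v => (Finset.mem_filter.mp (ψ v).2).2⟩
  let e : K ↪g D := ⟨⟨fun v => (φ, v), fun a b h => congrArg Prod.snd h⟩, by simp [D]⟩
  exact hc (f.comp e) ⟨i, fun v => (hcol (φ, v) (p _).isLt).trans (hφ _)⟩

lemma freeCol_of_colorable {α β : Type} {H : SimpleGraph β} {F : SimpleGraph α} {n s : ℕ}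
    (hH : H.Colorable (n * s)) (hF : ¬ F.Colorable s) : FreeCol H F n := by
  obtain ⟨q⟩ := hH
  refine ⟨fun v => (finProdFinEquiv.symm (q v)).1, fun f ⟨i, hi⟩ => hF ⟨Coloring.mk
    (fun v => (finProdFinEquiv.symm (q (f v))).2) ?_⟩⟩
  intro a b hab h
  apply q.valid (f.map_rel_iff.mpr hab)
  apply finProdFinEquiv.symm.injective
  exact Prod.ext ((hi a).trans (hi b).symm) h

/-- Graphs with the same chromatic number `s + 1 ≥ 2` are chromatically related. -/
theorem related_of_chi {α β : Type} [Fintype α] [Fintype β] (F : SimpleGraph α) (G : SimpleGraph β)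
    (h : 2 ≤ Fintype.card α) (h' : 2 ≤ Fintype.card β) {s : ℕ} (hs : 1 ≤ s)
    (hF : F.Colorable (s + 1)) (hF' : ¬ F.Colorable s)
    (hG : G.Colorable (s + 1)) (hG' : ¬ G.Colorable s) : Related F G := by
  intro l hl
  haveI : Nonempty α := Fintype.card_pos_iff.mp (by omega)
  haveI : Nonempty β := Fintype.card_pos_iff.mp (by omega)
  rcases Nat.lt_or_ge l 2 with h1 | h1
  · obtain rfl : l = 1 := by omega
    exact relatedAt_one F G h h'
  obtain ⟨r, rfl⟩ : ∃ r, l = r + 2 := ⟨l - 2, by omega⟩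
  have hK : (F ⊕g G).Colorable (s + 1) := by
    have := Colorable.sum_max hF hG
    simpa using this
  obtain ⟨W, _, E, h2, h3⟩ := universal (l := (r + 2) * s) (r := r) (by nlinarith) _ hK
  exact relatedAt_of E
    (chiEq_of (freeCol_of_colorable h2 hF') (fun hc => h3 (hc.of_emb Embedding.sumInl)))
    (chiEq_of (freeCol_of_colorable h2 hG') (fun hc => h3 (hc.of_emb Embedding.sumInr)))

lemma top_two_not_col : ¬ (⊤ : SimpleGraph (Fin 2)).Colorable 1 := by
  rintro ⟨c⟩
  exact c.valid (show (⊤ : SimpleGraph (Fin 2)).Adj 0 1 by simp) (Subsingleton.elim _ _)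

/-- Edgeless graphs are related to `K₂`. -/
theorem related_bot {α : Type} [Fintype α] (h : 2 ≤ Fintype.card α) :
    Related (⊥ : SimpleGraph α) (⊤ : SimpleGraph (Fin 2)) := by
  classical
  intro l hl
  haveI : Nonempty α := Fintype.card_pos_iff.mp (by omega)
  obtain ⟨r, rfl⟩ : ∃ r, l = r + 1 := ⟨l - 1, by omega⟩
  obtain ⟨m, hm⟩ : ∃ m, Fintype.card α = m + 2 := ⟨Fintype.card α - 2, by omega⟩
  let H : SimpleGraph (Fin (r + 1) × Fin (r + 1) × Fin (m + 1)) :=
    { Adj := fun a b => a.1 ≠ b.1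
      symm := ⟨fun a b h => h.symm⟩
      loopless := ⟨fun a h => h rfl⟩ }
  refine relatedAt_of H (chiEq_of ⟨fun v => v.2.1, ?_⟩ ?_) (chiEq_of ⟨fun v => v.1, ?_⟩ ?_)
  · rintro f ⟨i, hi⟩
    have : Function.Injective (fun v => (f v).2.2) := by
      intro a b hab
      apply f.injective
      have h1 : ¬ H.Adj (f a) (f b) := by rw [f.map_rel_iff]; simp
      exact Prod.ext (not_not.mp h1) (Prod.ext ((hi a).trans (hi b).symm) hab)
    have := Fintype.card_le_of_injective _ this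
    simp at this; omega
  · rintro ⟨c, hc⟩
    obtain ⟨i, hi⟩ := Fintype.exists_lt_card_fiber_of_mul_lt_card
      (f := fun x : Fin (r + 1) × Fin (m + 1) => c (0, x)) (n := m + 1) (by simp)
    obtain ⟨φ, hφ⟩ : ∃ φ : α ↪ Fin (r + 1) × Fin (m + 1), ∀ v, c (0, φ v) = i := by
      obtain ⟨ψ⟩ : Nonempty (α ↪ {x // x ∈ Finset.univ.filter
          (fun x : Fin (r + 1) × Fin (m + 1) => c (0, x) = i)}) := by
        apply Function.Embedding.nonempty_of_card_le
        rw [hm]
        rw [Fintype.card_coe]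
        omega
      exact ⟨ψ.trans (Function.Embedding.subtype _), fun v => (Finset.mem_filter.mp (ψ v).2).2⟩
    exact hc ⟨⟨fun v => (0, φ v), fun a b h => φ.injective (congrArg Prod.snd h)⟩, by simp [H]⟩
      ⟨i, hφ⟩
  · rintro f ⟨i, hi⟩
    have : H.Adj (f 0) (f 1) := f.map_rel_iff.mpr (by simp)
    exact this ((hi 0).trans (hi 1).symm)
  · rintro ⟨c, hc⟩
    obtain ⟨a, b, hab, h2⟩ := Fintype.exists_ne_map_eq_of_card_lt
      (fun x : Fin (r + 1) => c (x, 0, 0)) (by simp)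
    refine hc ⟨⟨![(a, 0, 0), (b, 0, 0)], ?_⟩, ?_⟩ ⟨c (a, 0, 0), ?_⟩
    · intro i j hij
      fin_cases i <;> fin_cases j <;> simp_all [eq_comm]
    · intro i j
      fin_cases i <;> fin_cases j <;> simp [H, hab, hab.symm]
    · intro v
      fin_cases v
      · rfl
      · exact h2.symm

lemma exists_chi {α : Type} [Fintype α] (F : SimpleGraph α) (h : F ≠ ⊥) :
    ∃ s, 1 ≤ s ∧ F.Colorable (s + 1) ∧ ¬ F.Colorable s := by
  classical
  have hex : ∃ n, F.Colorable n := ⟨_, F.colorable_of_fintype⟩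
  have h1 : ¬ F.Colorable 1 := by
    rintro ⟨c⟩
    apply h
    ext a b
    simp only [bot_adj, iff_false]
    exact fun hab => c.valid hab (Subsingleton.elim _ _)
  have h2 : 2 ≤ Nat.find hex := by
    by_contra hc
    exact h1 ((Nat.find_spec hex).mono (by omega))
  refine ⟨Nat.find hex - 1, by omega, ?_, Nat.find_min hex (by omega)⟩
  have : Nat.find hex - 1 + 1 = Nat.find hex := by omega
  rw [this]; exact Nat.find_spec hex

/-- the disjoint union of `K_{a+1}` and `N_b` -/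
def KN (a b : ℕ) : SimpleGraph (Fin (a + 1 + b)) where
  Adj x y := x ≠ y ∧ x.val < a + 1 ∧ y.val < a + 1
  symm := ⟨fun _ _ h => ⟨h.1.symm, h.2.2, h.2.1⟩⟩
  loopless := ⟨fun _ h => h.1 rfl⟩

lemma KN_col (a b : ℕ) : (KN a b).Colorable (a + 1) :=
  ⟨Coloring.mk (fun x => if h : x.val < a + 1 then ⟨x.val, h⟩ else 0) (by
    rintro x y ⟨h1, h2, h3⟩ h
    simp only [h2, h3, dif_pos, Fin.mk.injEq] at h
    exact h1 (Fin.ext h))⟩

lemma KN_not_col (a b : ℕ) : ¬ (KN a b).Colorable a := by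
  rintro ⟨c⟩
  obtain ⟨x, y, hxy, h⟩ := Fintype.exists_ne_map_eq_of_card_lt
    (fun x : Fin (a + 1) => c ⟨x.val, by omega⟩) (by simp)
  refine c.valid ?_ h
  exact ⟨fun e => hxy (Fin.ext (by simpa using e)), x.isLt, y.isLt⟩

lemma KN_ccol (a b : ℕ) : (KN a b)ᶜ.Colorable (b + 1) :=
  ⟨Coloring.mk (fun x => ⟨x.val - a, by have := x.isLt; omega⟩) (by
    rintro x y ⟨h1, h2⟩ h
    simp only [Fin.mk.injEq] at h
    have : x.val ≠ y.val := fun e => h1 (Fin.ext e)
    exact h2 ⟨h1, by omega, by omega⟩)⟩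

lemma KN_not_ccol (a b : ℕ) : ¬ (KN a b)ᶜ.Colorable b := by
  rintro ⟨c⟩
  obtain ⟨x, y, hxy, h⟩ := Fintype.exists_ne_map_eq_of_card_lt
    (fun x : Fin (b + 1) => c ⟨x.val + a, by omega⟩) (by simp)
  refine c.valid ?_ h
  have : x.val ≠ y.val := fun e => hxy (Fin.ext e)
  refine ⟨fun e => this (by simpa using e), ?_⟩
  rintro ⟨-, h1, h2⟩
  simp only at h1 h2
  omega

lemma two_step {α β : Type} [Fintype α] [Fintype β] (F : SimpleGraph α) (G : SimpleGraph β)
    (h : 2 ≤ Fintype.card α) (h' : 2 ≤ Fintype.card β) (hF : F ≠ ⊥) (hG : G ≠ ⊤) :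
    ∃ (m : ℕ) (R : SimpleGraph (Fin m)), 2 ≤ m ∧ Related F R ∧ Related R G := by
  obtain ⟨a, ha, h1, h2⟩ := exists_chi F hF
  obtain ⟨b, hb, h3, h4⟩ := exists_chi Gᶜ (by simpa using hG)
  refine ⟨a + 1 + b, KN a b, by omega, ?_, ?_⟩
  · exact related_of_chi F _ h (by simp; omega) ha h1 h2 (KN_col a b) (KN_not_col a b)
  · exact Related.compl
      (related_of_chi _ _ (by simp; omega) h' hb (KN_ccol a b) (KN_not_ccol a b) h3 h4)

end Pool.Agent.H18.ChromRel
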