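import Mathlib

set_option autoImplicit false

namespace Pool.Agent.H18.ChromRel

/-- `H` has an `F`-free colouring with `k` colours: no colour class contains an induced copy of `F`
(`F ↪g H` is the type of induced embeddings). -/
def FreeCol {α β : Type} (H : SimpleGraph β) (F : SimpleGraph α) (k : ℕ) : Prop :=
  ∃ c : β → Fin k, ∀ f : F ↪g H, ¬ ∃ i, ∀ v, c (f v) = i

/-- `χ(H : -F) = l` -/
def ChiEq {α β : Type} (H : SimpleGraph β) (F : SimpleGraph α) (l : ℕ) : Prop :=
  IsLeast {k | FreeCol H F k} l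

/-- `χ(H : -F) ≤ l` -/
def ChiLe {α β : Type} (H : SimpleGraph β) (F : SimpleGraph α) (l : ℕ) : Prop :=
  ∃ k ≤ l, ChiEq H F k

/-- `F` and `G` are `l`-chromatically related. -/
def RelatedAt {α β : Type} (F : SimpleGraph α) (G : SimpleGraph β) (l : ℕ) : Prop :=
  ∃ (m : ℕ) (H : SimpleGraph (Fin m)), ChiEq H F l ∧ ChiEq H G l

/-- `F` and `G` are chromatically related. -/
def Related {α β : Type} (F : SimpleGraph α) (G : SimpleGraph β) : Prop :=
  ∀ l, 1 ≤ l → RelatedAt F G l

end Pool.Agent.H18.ChromRel
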