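import Pool.Agent.H18.ClDefs

namespace Pool.Agent.H18.Cl

/-- function form of closedness -/
def CF {A : Type} (x : ℕ → A) (P t s : ℕ) : Prop :=
  0 < s ∧ (∀ i < t, x (P + i) = x (P + s + i)) ∧
    ∀ s', 0 < s' → s' < s → ¬ ∀ i < t, x (P + i) = x (P + s' + i)

theorem pre_iff {A : Type} (x : ℕ → A) (P n t j : ℕ) (ht : j + t ≤ n) :
    ((List.range t).map (fun i => x (P + i))) <+: ((List.range n).map (fun i => x (P + i))).drop j
      ↔ ∀ i < t, x (P + i) = x (P + j + i) := by
  rw [List.prefix_iff_getElem]
  simp only [List.length_map, List.length_range, List.length_drop, List.getElem_map,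
    List.getElem_range, List.getElem_drop]
  constructor
  · rintro ⟨_, h⟩ i hi
    rw [h i hi, Nat.add_assoc]
  · intro h
    exact ⟨by omega, fun i hi => by rw [h i hi, Nat.add_assoc]⟩

theorem closed_cf {A : Type} (x : ℕ → A) (P n : ℕ) (hn : 2 ≤ n)
    (hc : IsClosedWord ((List.range n).map (fun i => x (P + i)))) :
    ∃ t s, s + t = n ∧ CF x P t s := by
  rcases hc with hc | ⟨v, hv, hp, hs, ho⟩
  · simp at hc; omega
  have hl : v.length ≤ n := by simpa using hp.length_le
  have hv' : v = (List.range v.length).map (fun i => x (P + i)) := by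
    apply List.ext_getElem
    · simp
    · intro i h1 h2
      rw [hp.getElem h1]
      simp
  have hlt : v.length < n := by
    rcases Nat.lt_or_ge v.length n with h | h
    · exact h
    · exact absurd (hp.eq_of_length (by simp; omega)) hv
  refine ⟨v.length, n - v.length, by omega, by omega, ?_, ?_⟩
  · rw [← pre_iff x P n v.length (n - v.length) (by omega), ← hv']
    rw [List.suffix_iff_eq_drop] at hs
    simp only [List.length_map, List.length_range] at hs
    rw [← hs]
  · intro s' h0 h1 h
    rw [← pre_iff x P n v.length s' (by omega), ← hv'] at h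
    have := ho s' (by simp; omega) h
    simp at this
    omega

theorem rep_closed {A : Type} (b : A) (n : ℕ) : IsClosedWord (List.replicate n b) := by
  rcases Nat.lt_or_ge n 2 with h | h
  · left; simp; omega
  right
  refine ⟨List.replicate (n - 1) b, ?_, ?_, ?_, ?_⟩
  · intro e
    have := congrArg List.length e
    simp at this; omega
  · rw [List.prefix_replicate_iff]; simp
  · rw [List.suffix_replicate_iff]; simp
  · intro i hi hp
    have := hp.length_le
    simp at this hi ⊢
    omega

theorem ex_fix {A : Type} (L : ℕ) (hL : 2 ≤ L) (F : A → ℕ → A) (a : A) (ha : F a 0 = a) :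
    ∃ x : ℕ → A, x 0 = a ∧ ∀ n, x n = F (x (n / L)) (n % L) := by
  let g : ℕ → ℕ → A := fun f => Nat.rec (fun _ => a) (fun _ ih n => F (ih (n / L)) (n % L)) f
  have g0 : ∀ f, g f 0 = a := by
    intro f
    induction f with
    | zero => rfl
    | succ f ih =>
      show F (g f (0 / L)) (0 % L) = a
      simp [ih, ha]
  have gs : ∀ f f' n, n ≤ f → n ≤ f' → g f n = g f' n := by
    intro f
    induction f with
    | zero =>
      intro f' n h _
      obtain rfl : n = 0 := by omega
      exact (g0 0).trans (g0 f').symm
    | succ f ih =>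
      intro f' n h h'
      rcases Nat.eq_zero_or_pos n with rfl | hn
      · exact (g0 (f + 1)).trans (g0 f').symm
      obtain ⟨f'', rfl⟩ : ∃ k, f' = k + 1 := ⟨f' - 1, by omega⟩
      have : n / L < n := Nat.div_lt_self hn (by omega)
      show F (g f (n / L)) (n % L) = F (g f'' (n / L)) (n % L)
      rw [ih f'' (n / L) (by omega) (by omega)]
  refine ⟨fun n => g n n, g0 0, fun n => ?_⟩
  show g n n = F (g (n / L) (n / L)) (n % L)
  rw [gs n (n + 1) n le_rfl (by omega)]
  show F (g n (n / L)) (n % L) = _
  rw [gs n (n / L) (n / L) (Nat.div_le_self _ _) le_rfl]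

theorem flat_range {A : Type} (L : ℕ) (hL : 2 ≤ L) (F : A → ℕ → A) (x : ℕ → A)
    (hx : ∀ n, x n = F (x (n / L)) (n % L)) (N : ℕ) :
    ((List.range N).map x).flatMap (fun c => (List.range L).map (F c))
      = (List.range (N * L)).map x := by
  induction N with
  | zero => simp
  | succ N ih =>
    rw [List.range_succ, List.map_append, List.flatMap_append, ih, Nat.succ_mul, List.range_add,
      List.map_append]
    congr 1
    simp only [List.map_cons, List.map_nil, List.flatMap_cons, List.flatMap_nil, List.append_nil,
      List.map_map]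
    apply List.map_congr_left
    intro r hr
    have hr' : r < L := List.mem_range.1 hr
    simp only [Function.comp]
    rw [hx (N * L + r)]
    have e1 : (N * L + r) / L = N := by
      rw [Nat.add_comm, Nat.add_mul_div_right _ _ (by omega), Nat.div_eq_of_lt hr']; simp
    have e2 : (N * L + r) % L = r := by
      rw [Nat.add_comm, Nat.add_mul_mod_self_right, Nat.mod_eq_of_lt hr']
    rw [e1, e2]

theorem pm {A : Type} (L : ℕ) (hL : 2 ≤ L) (F : A → ℕ → A) (x : ℕ → A)
    (hx : ∀ n, x n = F (x (n / L)) (n % L)) : PureMorphic x := by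
  have key : ∀ m, (fun u : List A => u.flatMap (fun c => (List.range L).map (F c)))^[m] [x 0]
      = (List.range (L ^ m)).map x := by
    intro m
    induction m with
    | zero => simp
    | succ m ih =>
      rw [Function.iterate_succ_apply', ih, flat_range L hL F x hx, pow_succ]
  refine ⟨fun c => (List.range L).map (F c), x 0, ?_, ?_, ?_⟩
  · obtain ⟨l, rfl⟩ : ∃ l, L = l + 1 := ⟨L - 1, by omega⟩
    have := hx 0
    simp only [Nat.zero_div, Nat.zero_mod] at this
    simp [List.range_succ_eq_map, ← this]
  · simp only [key, List.length_map, List.length_range]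
    exact tendsto_pow_atTop_atTop_of_one_lt (by omega)
  · intro m i h
    simp only [key, List.getElem_map, List.getElem_range]

theorem liminf_eq (f : ℕ → ℕ∞) (k : ℕ∞) (h1 : ∀ n ≥ 1, k ≤ f n)
    (h2 : ∀ N, ∃ n ≥ N, f n ≤ k) : Filter.liminf f Filter.atTop = k := by
  apply le_antisymm
  · apply Filter.liminf_le_of_frequently_le
    · exact Filter.frequently_atTop.2 h2
    · isBoundedDefault
  · apply Filter.le_liminf_of_le
    · isBoundedDefault
    · exact Filter.eventually_atTop.2 ⟨1, h1⟩

end Pool.Agent.H18.Cl
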