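import Pool.Agent.H18.Cl1

namespace Pool.Agent.H18.Cl

def Y (j : ℕ) : ℕ := j % 3 + j / 3 % 3 + j / 9 % 3 + j / 27 % 3 + j / 81 % 3

def Z (M e j : ℕ) : ℕ := if j < M then Y j else e + Y (j - M)

def mt (M e r e' r' d : ℕ) : ℕ → Bool
  | 0 => true
  | t + 1 => (Z M e (r + t) % 4 == (d + Z M e' (r' + t)) % 4) && mt M e r e' r' d t

theorem mt_iff (M e r e' r' d t : ℕ) : mt M e r e' r' d t = true ↔
    ∀ i < t, Z M e (r + i) % 4 = (d + Z M e' (r' + i)) % 4 := by
  induction t with
  | zero => simp [mt]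
  | succ t ih =>
    simp only [mt, Bool.and_eq_true, beq_iff_eq, ih]
    constructor
    · rintro ⟨h1, h2⟩ i hi
      rcases Nat.lt_succ_iff_lt_or_eq.1 hi with h | rfl
      · exact h2 i h
      · exact h1
    · intro h
      exact ⟨h t (by omega), fun i hi => h i (by omega)⟩

def ex (M e r t : ℕ) : ℕ → Bool
  | 0 => false
  | s + 1 => ex M e r t s || (decide (0 < s) && mt M e r e (r + s) 0 t)

theorem ex_imp (M e r t S : ℕ) (h : ex M e r t S = true) :
    ∃ s, 0 < s ∧ s < S ∧ mt M e r e (r + s) 0 t = true := by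
  induction S with
  | zero => simp [ex] at h
  | succ S ih =>
    simp only [ex, Bool.or_eq_true, Bool.and_eq_true, decide_eq_true_eq] at h
    rcases h with h | ⟨h1, h2⟩
    · obtain ⟨s, a, b, c⟩ := ih h
      exact ⟨s, a, by omega, c⟩
    · exact ⟨S, h1, by omega, h2⟩

def al (f : ℕ → Bool) : ℕ → Bool
  | 0 => true
  | n + 1 => f n && al f n

theorem al_imp (f : ℕ → Bool) (n : ℕ) (h : al f n = true) : ∀ i < n, f i = true := by
  induction n with
  | zero => simp
  | succ n ih =>
    simp only [al, Bool.and_eq_true] at h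
    intro i hi
    rcases Nat.lt_succ_iff_lt_or_eq.1 hi with h' | rfl
    · exact ih h.2 i h'
    · exact h.1

theorem chk1 : al (fun e => al (fun r => ex 243 (2 * e + 1) r 5 91) 243) 2 = true := by
  decide +kernel

theorem chk2 : al (fun e => al (fun r => al (fun c => al (fun t =>
    !(mt 243 (2 * e + 1) r (2 * e + 1) (r + (56 + c - t)) 0 t) ||
      ex 243 (2 * e + 1) r t (56 + c - t)) (56 + c)) 2) 243) 2 = true := by
  decide +kernel

theorem chk3 : al (fun e => al (fun e' => al (fun r => al (fun r' => al (fun d =>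
    !(mt 9 (2 * e + 1) r (2 * e' + 1) r' d 6) || (r % 3 == r' % 3)) 4) 9) 9) 2) 2 = true := by
  decide +kernel

end Pool.Agent.H18.Cl
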