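import Pool.Agent.H18.Cl2

namespace Pool.Agent.H18.Cl

section
variable (x : ℕ → ZMod 4) (hx : ∀ n, x n = x (n / 3) + ((n % 3 : ℕ) : ZMod 4))
include hx

theorem lev243 (q j : ℕ) (hj : j < 243) : x (243 * q + j) = x q + (Y j : ℕ) := by
  have h1 := hx (243 * q + j)
  have h2 := hx (81 * q + j / 3)
  have h3 := hx (27 * q + j / 9)
  have h4 := hx (9 * q + j / 27)
  have h5 := hx (3 * q + j / 81)
  rw [show (243 * q + j) / 3 = 81 * q + j / 3 by omega,
    show (243 * q + j) % 3 = j % 3 by omega] at h1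
  rw [show (81 * q + j / 3) / 3 = 27 * q + j / 9 by omega,
    show (81 * q + j / 3) % 3 = j / 3 % 3 by omega] at h2
  rw [show (27 * q + j / 9) / 3 = 9 * q + j / 27 by omega,
    show (27 * q + j / 9) % 3 = j / 9 % 3 by omega] at h3
  rw [show (9 * q + j / 27) / 3 = 3 * q + j / 81 by omega,
    show (9 * q + j / 27) % 3 = j / 27 % 3 by omega] at h4
  rw [show (3 * q + j / 81) / 3 = q by omega,
    show (3 * q + j / 81) % 3 = j / 81 % 3 by omega] at h5
  rw [h1, h2, h3, h4, h5, Y]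
  push_cast
  ring

theorem lev9 (q j : ℕ) (hj : j < 9) : x (9 * q + j) = x q + (Y j : ℕ) := by
  have h1 := hx (9 * q + j)
  have h2 := hx (3 * q + j / 3)
  rw [show (9 * q + j) / 3 = 3 * q + j / 3 by omega,
    show (9 * q + j) % 3 = j % 3 by omega] at h1
  rw [show (3 * q + j / 3) / 3 = q by omega,
    show (3 * q + j / 3) % 3 = j / 3 % 3 by omega] at h2
  rw [h1, h2, Y, show j / 9 % 3 = 0 by omega, show j / 27 % 3 = 0 by omega,
    show j / 81 % 3 = 0 by omega]
  push_cast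
  ring

theorem step (q : ℕ) : ∃ e < 2, x (q + 1) = x q + ((2 * e + 1 : ℕ) : ZMod 4) := by
  induction q using Nat.strong_induction_on with
  | _ q ih =>
    have h1 := hx (q + 1)
    have h2 := hx q
    have : q % 3 = 0 ∨ q % 3 = 1 ∨ q % 3 = 2 := by omega
    rcases this with h | h | h
    · rw [show (q + 1) / 3 = q / 3 by omega, show (q + 1) % 3 = 1 by omega] at h1
      rw [h] at h2
      exact ⟨0, by omega, by rw [h1, h2]; push_cast; ring⟩
    · rw [show (q + 1) / 3 = q / 3 by omega, show (q + 1) % 3 = 2 by omega] at h1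
      rw [h] at h2
      exact ⟨0, by omega, by rw [h1, h2]; push_cast; ring⟩
    · rw [show (q + 1) / 3 = q / 3 + 1 by omega, show (q + 1) % 3 = 0 by omega] at h1
      rw [h] at h2
      obtain ⟨e, he, h3⟩ := ih (q / 3) (by omega)
      refine ⟨1 - e, by omega, ?_⟩
      rw [h1, h2, h3]
      have h4 : (4 : ZMod 4) = 0 := rfl
      interval_cases e
      · push_cast; linear_combination (-1 : ZMod 4) * h4
      · push_cast; ring

omit hx in
theorem win (M : ℕ) (hM : 0 < M)
    (hl : ∀ q j, j < M → x (M * q + j) = x q + (Y j : ℕ))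
    (hs : ∀ q, ∃ e < 2, x (q + 1) = x q + ((2 * e + 1 : ℕ) : ZMod 4)) (P : ℕ) :
    ∃ a : ZMod 4, ∃ e < 2, ∀ i ≤ M, x (P + i) = a + (Z M (2 * e + 1) (P % M + i) : ℕ) := by
  obtain ⟨e, he, h⟩ := hs (P / M)
  refine ⟨x (P / M), e, he, fun i hi => ?_⟩
  have hP := Nat.div_add_mod P M
  have hr := Nat.mod_lt P hM
  unfold Z
  split_ifs with c
  · rw [← hl _ _ c]; congr 1; omega
  · have := hl (P / M + 1) (P % M + i - M) (by omega)
    rw [show P + i = M * (P / M + 1) + (P % M + i - M) by rw [Nat.mul_add]; omega, this, h]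
    push_cast
    ring

omit hx in
theorem mt_match (a : ZMod 4) (e r P s t : ℕ) (hst : s + t ≤ 243)
    (h : ∀ i ≤ 243, x (P + i) = a + (Z 243 e (r + i) : ℕ)) :
    mt 243 e r e (r + s) 0 t = true ↔ ∀ i < t, x (P + i) = x (P + s + i) := by
  rw [mt_iff]
  refine forall₂_congr fun i hi => ?_
  rw [Nat.add_assoc P, h i (by omega), h (s + i) (by omega), add_right_inj,
    ZMod.natCast_eq_natCast_iff', Nat.zero_add, Nat.add_assoc r]

theorem ret (P : ℕ) : ∃ s, 0 < s ∧ s < 91 ∧ ∀ i < 5, x (P + i) = x (P + s + i) := by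
  obtain ⟨a, e, he, h⟩ := win x 243 (by omega) (lev243 x hx) (step x hx) P
  have := al_imp _ _ (al_imp _ _ chk1 e he) (P % 243) (Nat.mod_lt _ (by omega))
  obtain ⟨s, h0, h1, h2⟩ := ex_imp _ _ _ _ _ this
  exact ⟨s, h0, h1, (mt_match x a _ _ P s 5 (by omega) h).1 h2⟩

theorem base (P t s : ℕ) (hn : s + t = 56 ∨ s + t = 57) : ¬ CF x P t s := by
  rintro ⟨h0, h1, h2⟩
  obtain ⟨a, e, he, h⟩ := win x 243 (by omega) (lev243 x hx) (step x hx) P
  have := al_imp _ _ (al_imp _ _ (al_imp _ _ (al_imp _ _ chk2 e he) (P % 243)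
    (Nat.mod_lt _ (by omega))) (s + t - 56) (by omega)) t (by omega)
  rw [show 56 + (s + t - 56) - t = s by omega] at this
  rw [(mt_match x a _ _ P s t (by omega) h).2 h1] at this
  simp only [Bool.not_true, Bool.false_or] at this
  obtain ⟨s', a0, a1, a2⟩ := ex_imp _ _ _ _ _ this
  exact h2 s' a0 a1 ((mt_match x a _ _ P s' t (by omega) h).1 a2)

theorem sync (P P' : ℕ) (h : ∀ i < 6, x (P + i) = x (P' + i)) : P % 3 = P' % 3 := by
  obtain ⟨a, e, he, h1⟩ := win x 9 (by omega) (lev9 x hx) (step x hx) P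
  obtain ⟨a', e', he', h2⟩ := win x 9 (by omega) (lev9 x hx) (step x hx) P'
  have := al_imp _ _ (al_imp _ _ (al_imp _ _ (al_imp _ _ (al_imp _ _ chk3 e he) e' he') (P % 9)
    (Nat.mod_lt _ (by omega))) (P' % 9) (Nat.mod_lt _ (by omega))) (a' - a).val
    (ZMod.val_lt _)
  have hm : mt 9 (2 * e + 1) (P % 9) (2 * e' + 1) (P' % 9) (a' - a).val 6 = true := by
    rw [mt_iff]
    intro i hi
    rw [← ZMod.natCast_eq_natCast_iff']
    have := h i hi
    rw [h1 i (by omega), h2 i (by omega)] at this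
    push_cast
    rw [ZMod.natCast_zmod_val]
    linear_combination this
  rw [hm] at this
  simp only [Bool.not_true, Bool.false_or, beq_iff_eq] at this
  omega

theorem desub (P t s : ℕ) (ht : 6 ≤ t) (h : CF x P t s) :
    ∃ σ, s = 3 * σ ∧ CF x (P / 3) ((P % 3 + t - 1) / 3 + 1) σ := by
  obtain ⟨h0, h1, h2⟩ := h
  have hs := sync x hx P (P + s) (fun i hi => h1 i (by omega))
  obtain ⟨σ, rfl⟩ : ∃ σ, s = 3 * σ := ⟨s / 3, by omega⟩
  refine ⟨σ, rfl, by omega, ?_, ?_⟩
  · intro i hi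
    have := h1 (3 * i - P % 3) (by omega)
    rw [hx (P + _), hx (P + 3 * σ + _)] at this
    rw [show (P + 3 * σ + (3 * i - P % 3)) % 3 = (P + (3 * i - P % 3)) % 3 by omega,
      show (P + (3 * i - P % 3)) / 3 = P / 3 + i by omega,
      show (P + 3 * σ + (3 * i - P % 3)) / 3 = P / 3 + σ + i by omega] at this
    exact add_right_cancel this
  · intro s' a0 a1 a2
    apply h2 (3 * s') (by omega) (by omega)
    intro i hi
    rw [hx (P + _), hx (P + 3 * s' + _)]
    have := a2 ((P % 3 + i) / 3) (by omega)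
    rw [show (P + 3 * s' + i) % 3 = (P + i) % 3 by omega,
      show (P + i) / 3 = P / 3 + (P % 3 + i) / 3 by omega,
      show (P + 3 * s' + i) / 3 = P / 3 + s' + (P % 3 + i) / 3 by omega, this]

theorem zeros (N : ℕ) : ∃ c, N + 56 ≤ c ∧ ∀ P t s, (s + t = c ∨ s + t = c + 1) → ¬ CF x P t s := by
  induction N with
  | zero => exact ⟨56, le_rfl, fun P t s h => base x hx P t s h⟩
  | succ N ih =>
    obtain ⟨c, hc, h⟩ := ih
    refine ⟨3 * c - 1, by omega, fun P t s hn hcf => ?_⟩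
    rcases Nat.lt_or_ge t 6 with ht | ht
    · obtain ⟨s', a0, a1, a2⟩ := ret x hx P
      exact hcf.2.2 s' a0 (by omega) (fun i hi => a2 i (by omega))
    · obtain ⟨σ, rfl, h'⟩ := desub x hx P t s ht hcf
      exact h _ _ _ (by omega) h'

theorem aper0 : Aperiodic x := by
  rintro ⟨p, N, hp, h⟩
  induction p using Nat.strong_induction_on generalizing N with
  | _ p ih =>
    have hs := sync x hx N (N + p) (fun i _ => by
      rw [show N + p + i = N + i + p by omega, h _ (by omega)])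
    refine ih (p / 3) (by omega) N (by omega) (fun n hn => ?_)
    have := h (3 * n) (by omega)
    rw [hx (3 * n + p), hx (3 * n), show (3 * n + p) % 3 = 3 * n % 3 by omega,
      show (3 * n + p) / 3 = n + p / 3 by omega, show 3 * n / 3 = n by omega] at this
    exact add_right_cancel this

theorem lim0 : Filter.liminf (cl x) Filter.atTop = ((0 : ℕ) : ℕ∞) := by
  apply liminf_eq
  · intro n _; simp
  · intro N
    obtain ⟨c, hc, h⟩ := zeros x hx N
    refine ⟨c, by omega, ?_⟩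
    have : {w : List (ZMod 4) | w.length = c ∧ IsFactor x w ∧ IsClosedWord w} = ∅ := by
      rw [Set.eq_empty_iff_forall_notMem]
      rintro w ⟨hl, ⟨P, hP⟩, hw⟩
      rw [hP, hl] at hw
      obtain ⟨t, s, a, b⟩ := closed_cf x P c (by omega) hw
      exact h P t s (Or.inl a) b
    simp [cl, this]

end

theorem case0 : ∃ x : ℕ → ZMod 4, Aperiodic x ∧ PureMorphic x ∧
    Filter.liminf (cl x) Filter.atTop = ((0 : ℕ) : ℕ∞) := by
  obtain ⟨x, _, hx⟩ := ex_fix 3 (by omega) (fun (c : ZMod 4) r => c + (r : ZMod 4)) 0 (by simp)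
  exact ⟨x, aper0 x hx, pm 3 (by omega) (fun (c : ZMod 4) r => c + (r : ZMod 4)) x hx,
    lim0 x hx⟩

end Pool.Agent.H18.Cl
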