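import Pool.Agent.H18.Cl1

namespace Pool.Agent.H18.Cl

theorem core {A : Type} (x : ℕ → A) (a b b' : A) (hb : b ≠ a) (hb' : b' ≠ a)
    (P t s B g : ℕ) (hn : s + t = 3 * g + 4) (h1 : P ≤ B + g) (h2 : B < P + (s + t))
    (hB : x B = a) (hg : x (B + g) = a) (hl : ∀ u, P ≤ u → u < B → x u = b)
    (hr : ∀ u, B + g < u → u < P + (s + t) → x u = b') : ¬ CF x P t s := by
  rintro ⟨s0, hm, hmin⟩
  have hin : ∀ u, P ≤ u → u < P + (s + t) → x u = a → B ≤ u ∧ u ≤ B + g := by
    intro u u1 u2 ua
    constructor
    · by_contra c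
      exact hb ((hl u u1 (by omega)).symm.trans ua)
    · by_contra c
      exact hb' ((hr u (by omega) u2).symm.trans ua)
  have hm' : ∀ u, P ≤ u → u + s < P + (s + t) → x u = x (u + s) := by
    intro u u1 u2
    have := hm (u - P) (by omega)
    rwa [show P + (u - P) = u by omega, show P + s + (u - P) = u + s by omega] at this
  by_cases hA : ∃ i < t, x (P + i) = a
  · obtain ⟨i, hi, hia⟩ := hA
    have e1 := hin (P + i) (by omega) (by omega) hia
    have e2 := hin (P + s + i) (by omega) (by omega) ((hm i hi).symm.trans hia)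
    by_cases hq : B + g + s < P + (s + t)
    · have := hin (B + g + s) (by omega) hq ((hm' (B + g) h1 hq).symm.trans hg)
      omega
    · have := hm' (B - s) (by omega) (by omega)
      rw [show B - s + s = B by omega, hB] at this
      have := hin (B - s) (by omega) (by omega) this
      omega
  · have n1 : ∀ u, P ≤ u → u < P + t → x u ≠ a := by
      intro u u1 u2 ua
      exact hA ⟨u - P, by omega, by rwa [show P + (u - P) = u by omega]⟩
    have n2 : ∀ u, P + s ≤ u → u < P + (s + t) → x u ≠ a := by
      intro u u1 u2 ua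
      have := hm' (u - s) (by omega) (by omega)
      rw [show u - s + s = u by omega, ua] at this
      exact n1 (u - s) (by omega) (by omega) this
    have c1 : ¬ (P + t < B) := by
      intro c
      have : ¬ (P + s ≤ B) := fun d => n2 B d h2 hB
      have : ¬ (P + s ≤ B ) := fun d => n2 B d h2 hB
      apply hmin 1 (by omega) (by omega)
      intro i hi
      rw [hl _ (by omega) (by omega), hl _ (by omega) (by omega)]
    have c2 : ¬ (B + g + 1 < P + s) := by
      intro c
      have : ¬ (B + g < P + t) := fun d => n1 (B + g) h1 d hg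
      apply hmin (s - 1) (by omega) (by omega)
      intro i hi
      rw [hm i hi, hr _ (by omega) (by omega), hr _ (by omega) (by omega)]
    have d1 : ¬ (P ≤ B ∧ B < P + t) := fun d => n1 B d.1 d.2 hB
    have d2 : ¬ (B + g < P + t) := fun d => n1 (B + g) h1 d hg
    have d3 : ¬ (P + s ≤ B) := fun d => n2 B d h2 hB
    have d4 : ¬ (P + s ≤ B + g ∧ B + g < P + (s + t)) := fun d => n2 (B + g) d.1 d.2 hg
    omega

theorem two {A : Type} (x : ℕ → A) (b b' : A) (hb : b ≠ b')
    (P t s B : ℕ) (hn : 2 ≤ s + t) (h1 : P < B) (h2 : B < P + (s + t))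
    (hl : ∀ u, P ≤ u → u < B → x u = b)
    (hr : ∀ u, B ≤ u → u < P + (s + t) → x u = b') : ¬ CF x P t s := by
  rintro ⟨s0, hm, hmin⟩
  rcases Nat.eq_zero_or_pos t with rfl | ht
  · exact hmin 1 (by omega) (by omega) (by simp)
  have e1 := hm 0 ht
  have c1 : P + s < B := by
    by_contra c
    rw [hl _ (by omega) (by omega), hr _ (by omega) (by omega)] at e1
    exact hb e1
  have e2 := hm (B - s - P) (by omega)
  rw [hl _ (by omega) (by omega), hr _ (by omega) (by omega)] at e2
  exact hb e2

end Pool.Agent.H18.Cl
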