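import Pool.Agent.H18.Cl4

namespace Pool.Agent.H18.Cl

def W (k r : ℕ) : Fin (k + 2) := if h : r < k + 2 then ⟨r, h⟩ else if r = k + 2 then 0 else 1

def FF (k : ℕ) (c : Fin (k + 2)) (r : ℕ) : Fin (k + 2) := if c = 0 then W k r else c

def G (k : ℕ) : ℕ → ℕ
  | 0 => 0
  | j + 1 => (4 * k + 13) * G k j + (k + 2)

theorem G_bd (k j : ℕ) : 4 * G k (j + 1) + 5 ≤ (4 * k + 13) ^ (j + 1) ∧ j ≤ G k (j + 1) := by
  induction j with
  | zero => simp [G]; omega
  | succ j ih =>
    rw [G, pow_succ]
    constructor
    · nlinarith [ih.1]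
    · nlinarith [ih.2]

section
variable (k : ℕ) (x : ℕ → Fin (k + 2)) (h0 : x 0 = 0)
  (hx : ∀ n, x n = FF k (x (n / (4 * k + 13))) (n % (4 * k + 13)))
include hx

theorem hx' (m r : ℕ) (hr : r < 4 * k + 13) : x ((4 * k + 13) * m + r) = FF k (x m) r := by
  rw [hx, Nat.mul_add_div (by omega), Nat.div_eq_of_lt hr, Nat.mul_add_mod, Nat.mod_eq_of_lt hr]
  rfl

include h0 in
theorem lev (j : ℕ) : ∀ m r, r < (4 * k + 13) ^ j →
    x ((4 * k + 13) ^ j * m + r) = if x m = 0 then x r else x m := by
  induction j with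
  | zero =>
    intro m r hr
    obtain rfl : r = 0 := by simpa using hr
    simp only [pow_zero, one_mul, add_zero, h0]
    split_ifs with c
    · exact c
    · rfl
  | succ j ih =>
    intro m r hr
    have hL : 0 < 4 * k + 13 := by omega
    have e : (4 * k + 13) ^ (j + 1) * m + r = (4 * k + 13) *
        ((4 * k + 13) ^ j * m + r / (4 * k + 13)) + r % (4 * k + 13) := by
      have := Nat.div_add_mod r (4 * k + 13)
      rw [pow_succ, Nat.mul_add]
      nlinarith
    rw [e, hx' k x hx _ _ (Nat.mod_lt _ hL), ih m _ (by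
      rw [Nat.div_lt_iff_lt_mul hL]; rwa [pow_succ] at hr)]
    split_ifs with c
    · exact (hx r).symm
    · simp [FF, c]

include h0 in
theorem tail (j : ℕ) : x (G k j) = 0 ∧ ∀ r, G k j < r → r < (4 * k + 13) ^ j → x r = 1 := by
  induction j with
  | zero => exact ⟨h0, fun r a b => by simp [G] at a b; omega⟩
  | succ j ih =>
    constructor
    · rw [G, hx' k x hx _ _ (by omega), ih.1]
      simp [FF, W]
    · intro r a b
      have hL : 0 < 4 * k + 13 := by omega
      have e := Nat.div_add_mod r (4 * k + 13)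
      have e2 := Nat.mod_lt r hL
      have e3 : r / (4 * k + 13) < (4 * k + 13) ^ j := by
        rw [Nat.div_lt_iff_lt_mul hL]; rwa [pow_succ] at b
      rw [G] at a
      rw [hx r]
      rcases lt_trichotomy (r / (4 * k + 13)) (G k j) with c | c | c
      · exfalso
        have : (4 * k + 13) * (r / (4 * k + 13) + 1) ≤ (4 * k + 13) * G k j :=
          Nat.mul_le_mul_left _ c
        rw [Nat.mul_add] at this
        omega
      · rw [c] at e
        rw [c, ih.1]
        have : k + 2 < r % (4 * k + 13) := by omega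
        simp only [FF, W, if_true]
        rw [dif_neg (by omega), if_neg (by omega)]
      · rw [ih.2 _ c e3]
        simp [FF]

include h0 in
theorem aper1 : Aperiodic x := by
  rintro ⟨p, N, hp, h⟩
  have b := G_bd k (N + p)
  have t := tail k x h0 hx (N + p + 1)
  have := h (G k (N + p + 1)) (by omega)
  rw [t.1, t.2 _ (by omega) (by omega)] at this
  simp at this

include h0 in
theorem lower (n : ℕ) (hn : 1 ≤ n) : ((k + 1 : ℕ) : ℕ∞) ≤ cl x n := by
  have hinj : Function.Injective (fun i : Fin (k + 1) => List.replicate n i.succ) := by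
    intro i i' e
    have := (List.replicate_right_inj (by omega)).1 e
    exact Fin.succ_injective _ this
  have := (Set.InjOn.encard_image (s := Set.univ) hinj.injOn)
  rw [Set.encard_univ] at this
  simp only [ENat.card_eq_coe_fintype_card, Fintype.card_fin] at this
  rw [← this]
  apply Set.encard_le_encard
  rintro _ ⟨i, -, rfl⟩
  refine ⟨by simp, ⟨(4 * k + 13) ^ n * i.succ.val, ?_⟩, rep_closed _ _⟩
  have e : x i.succ.val = i.succ := by
    have := hx' k x hx 0 i.succ.val (by omega)
    rw [Nat.mul_zero, Nat.zero_add, h0] at this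
    rw [this]
    simp only [FF, W, if_true]
    rw [dif_pos i.succ.2]
  apply List.ext_getElem
  · simp
  · intro r a b
    have : n < (4 * k + 13) ^ n := Nat.lt_pow_self (by omega)
    simp only [List.length_replicate] at a
    simp only [List.getElem_replicate, List.getElem_map, List.getElem_range]
    rw [lev k x h0 hx n _ _ (by omega), e, if_neg (Fin.succ_ne_zero i)]

include h0 in
theorem const (j P t s : ℕ) (hn : s + t = 3 * G k (j + 1) + 4) (h : CF x P t s) :
    ∃ b ≠ 0, ∀ i < s + t, x (P + i) = b := by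
  have b := (G_bd k j).1
  have tl := tail k x h0 hx (j + 1)
  have lv := lev k x h0 hx (j + 1)
  generalize (4 * k + 13) ^ (j + 1) = M at b tl lv
  generalize G k (j + 1) = g at b tl hn
  have hM : 0 < M := by omega
  have e := Nat.div_add_mod P M
  have e2 := Nat.mod_lt P hM
  generalize P / M = m at e
  generalize P % M = r at e e2
  have blk : ∀ m' u, M * m' ≤ u → u < M * m' + M →
      x u = if x m' = 0 then x (u - M * m') else x m' := by
    intro m' u a c
    rw [← lv m' _ (by omega)]
    congr 1; omega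
  have h10 : (1 : Fin (k + 2)) ≠ 0 := by simp
  by_cases c : x m = 0 ∧ r ≤ g
  · exfalso
    refine core x 0 1 1 h10 h10 P t s (M * m) g hn (by omega) (by omega) ?_ ?_ ?_ ?_ h
    · rw [blk m _ le_rfl (by omega), if_pos c.1, Nat.sub_self, h0]
    · rw [blk m _ (by omega) (by omega), if_pos c.1, Nat.add_sub_cancel_left, tl.1]
    · intro u a d; omega
    · intro u a d
      rw [blk m _ (by omega) (by omega), if_pos c.1, tl.2 _ (by omega) (by omega)]
  · obtain ⟨b0, hb0, hb⟩ : ∃ b0 ≠ 0, ∀ u, P ≤ u → u < M * m + M → x u = b0 := by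
      by_cases d : x m = 0
      · refine ⟨1, h10, fun u a f => ?_⟩
        have : g < r := by
          by_contra q
          exact c ⟨d, by omega⟩
        rw [blk m _ (by omega) (by omega), if_pos d, tl.2 _ (by omega) (by omega)]
      · exact ⟨x m, d, fun u a f => by rw [blk m _ (by omega) (by omega), if_neg d]⟩
    by_cases q : P + (s + t) ≤ M * m + M
    · exact ⟨b0, hb0, fun i hi => hb _ (by omega) (by omega)⟩
    have e3 : M * (m + 1) = M * m + M := by ring
    by_cases d : x (m + 1) = 0
    · exfalso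
      refine core x 0 b0 1 hb0 h10 P t s (M * m + M) g hn (by omega) (by omega) ?_ ?_ hb ?_ h
      · rw [blk (m + 1) _ (by omega) (by omega), if_pos d, e3, Nat.sub_self, h0]
      · rw [blk (m + 1) _ (by omega) (by omega), if_pos d, e3, Nat.add_sub_cancel_left, tl.1]
      · intro u a f
        rw [blk (m + 1) _ (by omega) (by omega), if_pos d, tl.2 _ (by omega) (by omega)]
    · have hb' : ∀ u, M * m + M ≤ u → u < P + (s + t) → x u = x (m + 1) := fun u a f => by
        rw [blk (m + 1) _ (by omega) (by omega), if_neg d]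
      by_cases z : b0 = x (m + 1)
      · refine ⟨b0, hb0, fun i hi => ?_⟩
        rcases Nat.lt_or_ge (P + i) (M * m + M) with y | y
        · exact hb _ (by omega) y
        · rw [hb' _ y (by omega), z]
      · exact absurd h (two x b0 _ z P t s (M * m + M) (by omega) (by omega) (by omega) hb hb')

include h0 in
theorem upper (j : ℕ) : cl x (3 * G k (j + 1) + 4) ≤ ((k + 1 : ℕ) : ℕ∞) := by
  have := Set.encard_image_le
    (fun i : Fin (k + 1) => List.replicate (3 * G k (j + 1) + 4) i.succ) Set.univ
  rw [Set.encard_univ] at this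
  simp only [ENat.card_eq_coe_fintype_card, Fintype.card_fin] at this
  refine le_trans (Set.encard_le_encard ?_) this
  rintro w ⟨hl, ⟨P, hP⟩, hw⟩
  rw [hP, hl] at hw
  obtain ⟨t, s, a, b⟩ := closed_cf x P _ (by omega) hw
  obtain ⟨c, hc, h⟩ := const k x h0 hx j P t s a b
  obtain ⟨i, rfl⟩ := Fin.exists_succ_eq.2 hc
  refine ⟨i, trivial, ?_⟩
  rw [hP, hl]
  apply List.ext_getElem
  · simp
  · intro r a1 a2
    simp only [List.length_replicate] at a1
    simp only [List.getElem_replicate, List.getElem_map, List.getElem_range]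
    rw [h r (by omega)]

end

theorem case1 (k : ℕ) : ∃ x : ℕ → Fin (k + 2), Aperiodic x ∧ PureMorphic x ∧
    Filter.liminf (cl x) Filter.atTop = ((k + 1 : ℕ) : ℕ∞) := by
  obtain ⟨x, h0, hx⟩ := ex_fix (4 * k + 13) (by omega) (FF k) 0 (by simp [FF, W])
  refine ⟨x, aper1 k x h0 hx, pm _ (by omega) (FF k) x hx, liminf_eq _ _ (lower k x h0 hx) ?_⟩
  intro N
  exact ⟨_, by have := (G_bd k N).2; omega, upper k x h0 hx N⟩

end Pool.Agent.H18.Cl
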