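import Mathlib

namespace Pool.Agent.H18.Cl

/-- `w` is a factor (finite block of consecutive letters) of the infinite word `x`. -/
def IsFactor {A : Type} (x : ℕ → A) (w : List A) : Prop :=
  ∃ p : ℕ, w = (List.range w.length).map (fun i => x (p + i))

/-- `w` is closed: `|w| ≤ 1`, or some `v ≠ w` occurs in `w` exactly twice, at the start and
at the end (an occurrence at position `i` means that `v` starts the word `w.drop i`). -/
def IsClosedWord {A : Type} (w : List A) : Prop :=
  w.length ≤ 1 ∨ ∃ v : List A, v ≠ w ∧ v <+: w ∧ v <:+ w ∧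
    ∀ i ≤ w.length, v <+: w.drop i → i = 0 ∨ i + v.length = w.length

/-- closed complexity: number of distinct closed factors of length `n`. -/
noncomputable def cl {A : Type} (x : ℕ → A) (n : ℕ) : ℕ∞ :=
  {w : List A | w.length = n ∧ IsFactor x w ∧ IsClosedWord w}.encard

/-- `x` is not ultimately periodic. -/
def Aperiodic {A : Type} (x : ℕ → A) : Prop :=
  ¬ ∃ p N : ℕ, 0 < p ∧ ∀ n ≥ N, x (n + p) = x n

/-- `x = φ^ω(a)`: `φ(a)` begins with `a`, `|φ^m(a)| → ∞`, and every `φ^m(a)` is an initial
segment of `x`. -/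
def PureMorphic {A : Type} (x : ℕ → A) : Prop :=
  ∃ (φ : A → List A) (a : A), (φ a).head? = some a ∧
    Filter.Tendsto (fun m => ((fun u : List A => u.flatMap φ)^[m] [a]).length)
      Filter.atTop Filter.atTop ∧
    ∀ m,
      ∀ i (h : i < ((fun u : List A => u.flatMap φ)^[m] [a]).length),
        ((fun u : List A => u.flatMap φ)^[m] [a])[i] = x i

end Pool.Agent.H18.Cl
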