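import Pool.Agent.H37.RE

/-! Arithmetical predicates are computable from effectively closed singletons of Baire space. -/

set_option autoImplicit false

namespace H18.Cod
open Pool.Agent.H37 Encodable

variable {α β : Type} [Primcodable α] [Primcodable β]

/-- `f` is the only function passing the computable tests -/
def Sing (f : ℕ → ℕ) : Prop := ∃ (l : ℕ → List ℕ) (B : ℕ → List ℕ → Bool), CI ∅ l ∧
  (CI ∅ fun p : ℕ × List ℕ => B p.1 p.2) ∧ ∀ g : ℕ → ℕ, (∀ b, B b ((l b).map g) = true) ↔ g = f

def Cod (D : α → Prop) : Prop := ∃ (f : ℕ → ℕ) (g : α → ℕ), Sing f ∧ CI ∅ g ∧ ∀ a, D a ↔ f (g a) = 0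

lemma sing_zero : Sing 0 := ⟨fun b => [b], fun _ l => l == [0], by fun_prop, by fun_prop,
  fun g => by simp [funext_iff]⟩

lemma master {f1 f2 : ℕ → ℕ} (h1 : Sing f1) (h2 : Sing f2) (u v : ℕ × ℕ → ℕ)
    (B : ℕ × ℕ → ℕ → ℕ → Bool) (hu : CI ∅ u) (hv : CI ∅ v)
    (hB : CI ∅ fun p : (ℕ × ℕ) × ℕ × ℕ => B p.1 p.2.1 p.2.2) :
    ∃ f, Sing f ∧ ∀ m, f (3 * m + 2) = 0 ↔ ∀ n, B (m, n) (f1 (u (m, n))) (f2 (v (m, n))) = true := by
  classical
  obtain ⟨l1, B1, a1, b1, c1⟩ := h1
  obtain ⟨l2, B2, a2, b2, c2⟩ := h2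
  let R : ℕ → ℕ → Bool := fun m n => B (m, n) (f1 (u (m, n))) (f2 (v (m, n)))
  let h : ℕ → ℕ := fun m => if H : ∃ n, R m n = false then Nat.find H + 1 else 0
  let K : ℕ → ℕ → Bool → Bool := fun x n r =>
    bif decide (x = n + 1) then !r else (!(decide (x = 0) || decide (n + 1 < x)) || r)
  have hK : ∀ m x, (∀ n, K x n (R m n) = true) ↔ x = h m := by
    intro m x
    simp only [K, h, Bool.cond_decide]
    constructor
    · intro H
      split_ifs with e
      · have e1 := Nat.find_spec e
        have e2 := H (Nat.find e)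
        by_contra e3
        simp only [e3, e1, if_false, Bool.or_false, Bool.not_eq_true', Bool.or_eq_false_iff,
          decide_eq_false_iff_not] at e2
        obtain ⟨y, rfl⟩ := Nat.exists_eq_succ_of_ne_zero e2.1
        have := H y
        exact Nat.find_min e (m := y) (by omega) (by simpa using this)
      · by_contra e3
        obtain ⟨y, rfl⟩ := Nat.exists_eq_succ_of_ne_zero e3
        exact e ⟨y, by simpa using H y⟩
    · rintro rfl n
      by_cases e : ∃ n, R m n = false
      · simp only [e, dite_true]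
        split_ifs with e2
        · have := Nat.find_spec e
          rw [show Nat.find e = n by omega] at this
          simp [this]
        · by_cases e3 : n < Nat.find e
          · have := Nat.find_min e e3
            simp at this; simp [this]
          · rw [decide_eq_false (show ¬ n + 1 < Nat.find e + 1 by omega)]; simp
      · simp only [e, dite_false]
        push Not at e
        simpa using e n
  let f : ℕ → ℕ := fun x => if x % 3 = 0 then f1 (x / 3) else if x % 3 = 1 then f2 (x / 3) else h (x / 3)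
  have e0 : ∀ x, f (3 * x) = f1 x := fun x => by simp [f]
  have e1 : ∀ x, f (3 * x + 1) = f2 x := fun x => by
    simp only [f]; rw [if_neg (by omega), if_pos (by omega)]; congr 1; omega
  have e2 : ∀ x, f (3 * x + 2) = h x := fun x => by
    simp only [f]; rw [if_neg (by omega), if_neg (by omega)]; congr 1; omega
  refine ⟨f, ⟨fun b => (l1 b).map (3 * ·) ++ ((l2 b).map (3 * · + 1) ++
      [3 * b.unpair.1 + 2, 3 * u b.unpair, 3 * v b.unpair + 1]),
    fun b w => B1 b (w.take (l1 b).length) && (B2 b ((w.drop (l1 b).length).take (l2 b).length) &&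
      K (w.reverse.getD 2 0) b.unpair.2 (B b.unpair (w.reverse.getD 1 0) (w.reverse.getD 0 0))),
    by fun_prop, ?_, fun g => ?_⟩, fun m => ?_⟩
  · refine CI.and (b1.comp (g := fun p : ℕ × List ℕ => (p.1, p.2.take (l1 p.1).length)) (by fun_prop))
      (CI.and (b2.comp (g := fun p : ℕ × List ℕ => (p.1, (p.2.drop (l1 p.1).length).take
        (l2 p.1).length)) (by fun_prop)) ?_)
    have := hB.comp (g := fun p : ℕ × List ℕ => (p.1.unpair, p.2.reverse.getD 1 0,
      p.2.reverse.getD 0 0)) (by fun_prop)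
    simp only [K]
    fun_prop
  · have k1 := c1 fun x => g (3 * x)
    have k2 := c2 fun x => g (3 * x + 1)
    simp only [List.map_append, List.map_map, Function.comp_def, List.length_map, List.take_left',
      List.drop_left', Bool.and_eq_true, forall_and, k1, k2, List.reverse_append, List.map_cons,
      List.map_nil, List.reverse_cons, List.reverse_nil, List.nil_append, List.cons_append,
      List.getD_cons_succ, List.getD_cons_zero, funext_iff]
    constructor
    · rintro ⟨g1, g2, g3⟩ x
      have g4 : ∀ m, g (3 * m + 2) = h m := fun m => (hK m _).1 fun n => by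
        have := g3 (Nat.pair m n)
        simpa only [Nat.unpair_pair, g1, g2] using this
      obtain ⟨y, rfl | rfl | rfl⟩ : ∃ y, x = 3 * y ∨ x = 3 * y + 1 ∨ x = 3 * y + 2 := ⟨x / 3, by omega⟩
      · rw [g1, e0]
      · rw [g2, e1]
      · rw [g4, e2]
    · intro H
      simp only [H, e0, e1, e2, implies_true, true_and]
      exact fun b => (hK _ _).2 rfl b.unpair.2
  · rw [e2]
    simp only [h]
    split_ifs with e
    · obtain ⟨n, hn⟩ := e
      simp only [false_iff, not_forall]
      exact ⟨n, by simpa [R] using hn⟩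
    · simpa [R] using e

lemma Cod.of_iff {p q : α → Prop} (h : Cod p) (H : ∀ a, p a ↔ q a) : Cod q :=
  (funext fun a => propext (H a) : p = q) ▸ h

lemma Cod.comp {p : β → Prop} (h : Cod p) {r : α → β} (hr : CI ∅ r) : Cod fun a => p (r a) :=
  let ⟨f, g, h1, h2, h3⟩ := h; ⟨f, fun a => g (r a), h1, by fun_prop, fun a => h3 _⟩

lemma gen {p q : α × ℕ → Prop} (hp : Cod p) (hq : Cod q) (B : α × ℕ → Bool → Bool → Bool)
    (hB : CI ∅ fun x : (α × ℕ) × Bool × Bool => B x.1 x.2.1 x.2.2) {D : α → Prop}
    (H : ∀ a, ∀ b c : ℕ → Bool, (∀ n, p (a, n) ↔ b n = true) → (∀ n, q (a, n) ↔ c n = true) →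
      (D a ↔ ∀ n, B (a, n) (b n) (c n) = true)) : Cod D := by
  obtain ⟨f1, g1, a1, b1, c1⟩ := hp
  obtain ⟨f2, g2, a2, b2, c2⟩ := hq
  obtain ⟨f, h1, h2⟩ := master a1 a2 (fun x => (decode (α := α) x.1).elim 0 fun a => g1 (a, x.2))
    (fun x => (decode (α := α) x.1).elim 0 fun a => g2 (a, x.2))
    (fun x s t => (decode (α := α) x.1).elim true fun a => B (a, x.2) (decide (s = 0)) (decide (t = 0)))
    (by fun_prop) (by fun_prop) (CI.elim (by fun_prop) (by fun_prop) (hB.comp
      (g := fun x : ((ℕ × ℕ) × ℕ × ℕ) × α => ((x.2, x.1.1.2), decide (x.1.2.1 = 0),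
        decide (x.1.2.2 = 0))) (by fun_prop)))
  refine ⟨f, fun a => 3 * encode a + 2, h1, by fun_prop, fun a => ?_⟩
  rw [h2]
  simp only [encodek, Option.elim_some]
  exact H a _ _ (fun n => by simp [c1]) fun n => by simp [c2]

lemma cod_true : Cod fun _ : α => True := ⟨0, fun _ => 0, sing_zero, by fun_prop, by simp⟩

lemma Cod.bool {b : α → Bool} (h : CI ∅ b) : Cod fun a => b a = true :=
  gen cod_true cod_true (fun x _ _ => b x.1) (by fun_prop) (by simp)

lemma Cod.dec {p : α → Prop} [DecidablePred p] (h : CI ∅ fun a => decide (p a)) : Cod p :=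
  (Cod.bool h).of_iff (by simp)

lemma Cod.op {p q D : α → Prop} (hp : Cod p) (hq : Cod q) (o : Bool → Bool → Bool)
    (H : ∀ a b c, (p a ↔ b = true) → (q a ↔ c = true) → (D a ↔ o b c = true)) : Cod D :=
  gen (hp.comp (r := Prod.fst) (by fun_prop)) (hq.comp (r := Prod.fst) (by fun_prop))
    (fun _ => o) (CI.prim2 (Primrec.dom_bool₂ o) (by fun_prop) (by fun_prop)) fun a b c h1 h2 =>
      ⟨fun h n => (H a _ _ (h1 n) (h2 n)).1 h, fun h => (H a _ _ (h1 0) (h2 0)).2 (h 0)⟩

lemma Cod.not {p : α → Prop} (hp : Cod p) : Cod fun a => ¬ p a :=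
  hp.op hp (fun b _ => !b) fun a b c h _ => by simp [h]
lemma Cod.and {p q : α → Prop} (hp : Cod p) (hq : Cod q) : Cod fun a => p a ∧ q a :=
  hp.op hq (· && ·) fun a b c h h' => by simp [h, h']
lemma Cod.imp {p q : α → Prop} (hp : Cod p) (hq : Cod q) : Cod fun a => p a → q a :=
  hp.op hq (!· || ·) fun a b c h h' => by cases b <;> simp_all
lemma Cod.iff {p q : α → Prop} (hp : Cod p) (hq : Cod q) : Cod fun a => p a ↔ q a :=
  hp.op hq (· == ·) fun a b c h h' => by cases b <;> cases c <;> simp_all

lemma Cod.all {R : α → β → Prop} (h : Cod fun x : α × β => R x.1 x.2) : Cod fun a => ∀ b, R a b := by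
  obtain ⟨f, g, a1, b1, c1⟩ := h
  have : Cod fun x : α × ℕ => f ((decode (α := β) x.2).elim 0 fun b => g (x.1, b)) = 0 :=
    ⟨f, _, a1, by fun_prop, fun _ => Iff.rfl⟩
  refine gen this this (fun x s _ => (decode (α := β) x.2).isNone || s) (by fun_prop)
    fun a b _ h _ => ⟨fun H n => ?_, fun H x => (c1 (a, x)).2 ?_⟩
  · have := h n
    cases e : decode (α := β) n with
    | none => simp
    | some x => simpa [e, (c1 (a, x)).1 (H x)] using this
  · simpa using (h (encode x)).2 (by simpa using H (encode x))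

lemma Cod.ex {R : α → β → Prop} (h : Cod fun x : α × β => R x.1 x.2) : Cod fun a => ∃ b, R a b :=
  (Cod.all (R := fun a b => ¬ R a b) h.not).not.of_iff (by simp)

lemma Cod.norm {D : ℕ → Prop} (h : Cod D) : ∃ f, Sing f ∧ ∀ m, D m ↔ f (3 * m + 2) = 0 := by
  obtain ⟨f, g, a1, b1, c1⟩ := h
  obtain ⟨f', h1, h2⟩ := master a1 a1 (fun x => g x.1) (fun _ => 0) (fun _ s _ => decide (s = 0))
    (by fun_prop) (by fun_prop) (by fun_prop)
  exact ⟨f', h1, fun m => by simp [h2, c1]⟩

def pre (f : ℕ → ℕ) (k : ℕ) : List ℕ := (List.range k).map f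

/-- a computable tree with the single path `f` -/
lemma Sing.tree {f : ℕ → ℕ} (h : Sing f) : ∃ T : List ℕ → Bool, CI ∅ T ∧
    (∀ σ τ, T (σ ++ τ) = true → T σ = true) ∧ ∀ g, (∀ k, T (pre g k) = true) ↔ g = f := by
  obtain ⟨l, B, a, b, c⟩ := h
  refine ⟨fun σ => (List.range σ.length).all fun n => !((l n).all fun i => decide (i < σ.length)) ||
    B n ((l n).map fun i => σ.getD i 0), ?_, fun σ τ h => ?_, fun g => ?_⟩
  · refine CI.all (by fun_prop) (CI.or (by fun_prop) (b.comp (g := fun p : List ℕ × ℕ =>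
      (p.2, (l p.2).map fun i => p.1.getD i 0)) (by fun_prop)))
  · simp only [List.all_eq_true, List.mem_range, Bool.or_eq_true, Bool.not_eq_true',
      ← Bool.not_eq_true, ← imp_iff_not_or, decide_eq_true_eq, List.length_append] at h ⊢
    intro n hn H
    rw [← h n (by omega) fun i hi => by have := H i hi; omega]
    congr 1
    exact List.map_congr_left fun i hi => by simp [List.getElem?_append_left (H i hi)]
  · rw [← c]
    simp only [List.all_eq_true, List.mem_range, Bool.or_eq_true, Bool.not_eq_true',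
      ← Bool.not_eq_true, ← imp_iff_not_or, decide_eq_true_eq, pre, List.length_map,
      List.length_range]
    have key : ∀ k n, (∀ i ∈ l n, i < k) →
        (l n).map (fun i => ((List.range k).map g).getD i 0) = (l n).map g := fun k n H =>
      List.map_congr_left fun i hi => by simp [H i hi]
    refine ⟨fun H n => ?_, fun H k n _ h => by rw [key k n h]; exact H n⟩
    have : ∀ i ∈ l n, i < (l n).sum + n + 1 := fun i hi => by
      have := List.le_sum_of_mem hi; omega
    rw [← key _ n this]
    exact H _ n (by omega) this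

end H18.Cod
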