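import Mathlib

namespace Pool.Agent.H18.DSumA

/-- digit sums of positive multiples of `n` in base `b` -/
def Out (b n : ℕ) : Set ℕ := {u | 0 < u ∧ ∃ N, 0 < N ∧ n ∣ N ∧ (Nat.digits b N).sum = u}

/-- the largest positive integer outside `Out b n` -/
noncomputable def F (b n : ℕ) : ℕ := sSup {u | 0 < u ∧ u ∉ Out b n}

def sd (b N : ℕ) : ℕ := (Nat.digits b N).sum

def pw (b : ℕ) (L : List ℕ) : ℕ := (L.map (fun e => b ^ e)).sum

lemma sd_rec {b : ℕ} (hb : 1 < b) (N : ℕ) : sd b N = N % b + sd b (N / b) := by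
  rcases Nat.eq_zero_or_pos N with rfl | h
  · simp [sd]
  · unfold sd; rw [Nat.digits_def' hb h]; simp

lemma sd_add {b : ℕ} (hb : 1 < b) (K : ℕ) : ∀ x y, x < b ^ K → sd b (x + b ^ K * y) = sd b x + sd b y := by
  induction K with
  | zero => intro x y h; have : x = 0 := by simpa using h
            subst this; simp [sd]
  | succ K ih =>
    intro x y h
    have e : x + b ^ (K + 1) * y = x + b * (b ^ K * y) := by ring
    rw [sd_rec hb (x + b ^ (K + 1) * y), sd_rec hb x, e, Nat.add_mul_mod_self_left,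
      Nat.add_mul_div_left _ _ (by omega), ih _ _ (by
        rw [Nat.div_lt_iff_lt_mul (by omega)]; rwa [pow_succ] at h)]
    ring

lemma sd_one {b : ℕ} (hb : 1 < b) : sd b 1 = 1 := by
  rw [sd_rec hb, Nat.mod_eq_of_lt hb, Nat.div_eq_of_lt hb]; simp [sd]

lemma pw_cons (b e : ℕ) (L : List ℕ) : pw b (e :: L) = b ^ e + pw b L := by simp [pw]

lemma pw_append (b : ℕ) (L M : List ℕ) : pw b (L ++ M) = pw b L + pw b M := by simp [pw]

lemma pw_rep (b e t : ℕ) : pw b (List.replicate t e) = t * b ^ e := by simp [pw]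

lemma pw_shift (b : ℕ) (L : List ℕ) : pw b (L.map (· + 1)) = b * pw b L := by
  induction L with
  | nil => simp [pw]
  | cons e L ih => rw [List.map_cons, pw_cons, pw_cons, ih]; ring

lemma list_of {b : ℕ} (hb : 1 < b) (N : ℕ) : ∃ L : List ℕ, L.length = sd b N ∧ pw b L = N := by
  induction N using Nat.strong_induction_on with
  | _ N ih =>
    rcases Nat.eq_zero_or_pos N with rfl | h
    · exact ⟨[], by simp [sd], by simp [pw]⟩
    · obtain ⟨L, h1, h2⟩ := ih (N / b) (Nat.div_lt_self h hb)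
      refine ⟨List.replicate (N % b) 0 ++ L.map (· + 1), ?_, ?_⟩
      · rw [sd_rec hb N]; simp [h1]
      · rw [pw_append, pw_rep, pw_shift, h2]; simp [Nat.mod_add_div]

lemma of_list {b m a e0 : ℕ} (hb : 1 < b) (hm : 0 < m) (hc : Nat.Coprime b m) (ha : a ∣ b ^ e0)
    (L : List ℕ) : ∃ N, sd b N = L.length ∧ N ≡ pw b L [MOD m] ∧ a ∣ N := by
  induction L with
  | nil => exact ⟨0, by simp [sd], by simp [pw, Nat.ModEq], dvd_zero _⟩
  | cons e L ih =>
    obtain ⟨N, h1, h2, h3⟩ := ih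
    have hφ : 0 < Nat.totient m := Nat.totient_pos.2 hm
    have hK : N + e0 ≤ e + Nat.totient m * (N + e0) := by nlinarith
    refine ⟨N + b ^ (e + Nat.totient m * (N + e0)) * 1, ?_, ?_, ?_⟩
    · rw [sd_add hb _ _ _ ((Nat.lt_pow_self hb).trans_le (Nat.pow_le_pow_right (by omega) (by omega))),
        sd_one hb, h1]; simp
    · rw [pw_cons, add_comm (b ^ e), mul_one, pow_add, pow_mul]
      refine h2.add ?_
      have := ((Nat.ModEq.pow_totient hc).pow (N + e0)).mul_left (b ^ e)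
      simpa using this
    · rw [mul_one]
      exact dvd_add h3 (ha.trans (pow_dvd_pow _ (by omega)))

theorem mem_Out {b m a e0 : ℕ} (hb : 1 < b) (hm : 0 < m) (hc : Nat.Coprime b m) (ha : a ∣ b ^ e0)
    (u : ℕ) : u ∈ Out b (a * m) ↔ 0 < u ∧ ∃ L : List ℕ, L.length = u ∧ m ∣ pw b L := by
  constructor
  · rintro ⟨hu, N, -, h2, h3⟩
    obtain ⟨L, h4, h5⟩ := list_of hb N
    exact ⟨hu, L, h4.trans h3, by rw [h5]; exact (Dvd.intro_left _ rfl).trans h2⟩
  · rintro ⟨hu, L, h1, h2⟩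
    obtain ⟨N, h3, h4, h5⟩ := of_list hb hm hc ha L
    refine ⟨hu, N, ?_, ?_, h3.trans h1⟩
    · rcases Nat.eq_zero_or_pos N with rfl | h
      · simp [sd] at h3; omega
      · exact h
    · refine Nat.Coprime.mul_dvd_of_dvd_of_dvd ?_ h5 ((h4.dvd_iff (dvd_refl m)).2 h2)
      exact Nat.Coprime.coprime_dvd_left ha (Nat.Coprime.pow_left _ hc)

/-- using only the powers `1` and `b` -/
lemma two_pow {b m : ℕ} (hb : 1 < b) (hm : 0 < m) (hc : Nat.Coprime (b - 1) m) (u : ℕ) :
    ∃ t < m, m ∣ u + t * (b - 1) := by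
  haveI : NeZero m := ⟨by omega⟩
  let w := ZMod.unitOfCoprime _ hc
  refine ⟨((-(u : ZMod m)) * (w⁻¹ : (ZMod m)ˣ)).val, ZMod.val_lt _, ?_⟩
  rw [← ZMod.natCast_eq_zero_iff]
  have : ((b - 1 : ℕ) : ZMod m) = (w : ZMod m) := (ZMod.coe_unitOfCoprime _ hc).symm
  rw [Nat.cast_add, Nat.cast_mul, ZMod.natCast_zmod_val, this, mul_assoc, Units.inv_mul]; ring

lemma list_two {b : ℕ} (hb : 1 < b) {u t : ℕ} (h : t ≤ u) :
    ∃ L : List ℕ, L.length = u ∧ pw b L = u + t * (b - 1) := by
  refine ⟨List.replicate (u - t) 0 ++ List.replicate t 1, by simp; omega, ?_⟩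
  rw [pw_append, pw_rep, pw_rep]
  obtain ⟨c, rfl⟩ : ∃ c, b = c + 1 := ⟨b - 1, by omega⟩
  obtain ⟨d, rfl⟩ : ∃ d, u = t + d := ⟨u - t, by omega⟩
  simp; ring

lemma signs {b m : ℕ} (h : m ∣ b + 1) (L : List ℕ) :
    ∃ z : ℤ, |z| ≤ L.length ∧ z % 2 = L.length % 2 ∧ (m : ℤ) ∣ pw b L - z := by
  have hb : (b : ℤ) ≡ -1 [ZMOD m] := by
    have : (m : ℤ) ∣ b + 1 := by exact_mod_cast h
    exact (Int.modEq_iff_dvd.2 (by simpa using this)).symm
  induction L with
  | nil => exact ⟨0, by simp, by simp, by simp [pw]⟩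
  | cons e L ih =>
    obtain ⟨z, h1, h2, h3⟩ := ih
    have hp := (hb.pow e).symm.dvd
    rw [abs_le] at h1
    refine ⟨z + (-1) ^ e, ?_, ?_, ?_⟩
    · rcases neg_one_pow_eq_or ℤ e with h | h <;> rw [h, abs_le] <;> simp <;> omega
    · rcases neg_one_pow_eq_or ℤ e with h | h <;> rw [h] <;> simp <;> omega
    · rw [pw_cons]; push_cast
      have := dvd_add hp h3
      have e1 : (b : ℤ) ^ e + pw b L - (z + (-1) ^ e) = b ^ e - (-1) ^ e + (pw b L - z) := by ring
      rw [e1]; exact this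

open Finset Pointwise in
lemma cd {b p : ℕ} (hp : p.Prime) (u : ℕ) :
    ∃ A : Finset (ZMod p), min p (u * (orderOf (b : ZMod p) - 1) + 1) ≤ A.card ∧
      ∀ x ∈ A, ∃ L : List ℕ, L.length = u ∧ (pw b L : ZMod p) = x := by
  classical
  induction u with
  | zero => exact ⟨{0}, by simp, by simp [pw]⟩
  | succ u ih =>
    obtain ⟨A, h1, h2⟩ := ih
    let H : Finset (ZMod p) := insert 1 ((range (orderOf (b : ZMod p))).image (fun e => (b : ZMod p) ^ e))
    have hH : orderOf (b : ZMod p) ≤ H.card := by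
      refine le_trans ?_ (card_le_card (subset_insert _ _))
      rw [card_image_of_injOn, card_range]
      intro i hi j hj h
      exact pow_injOn_Iio_orderOf (by simpa using hi) (by simpa using hj) h
    have hH1 : H.Nonempty := insert_nonempty _ _
    have hH2 := hH1.card_pos
    have hA : A.Nonempty := card_pos.1 (lt_of_lt_of_le (by have := hp.pos; simp; omega) h1)
    have := ZMod.cauchy_davenport hp hH1 hA
    refine ⟨H + A, le_trans ?_ this, ?_⟩
    · rw [add_mul]; omega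
    · intro x hx
      obtain ⟨y, hy, z, hz, rfl⟩ := mem_add.1 hx
      obtain ⟨L, h3, h4⟩ := h2 z hz
      obtain ⟨e, he⟩ : ∃ e, (b : ZMod p) ^ e = y := by
        rcases mem_insert.1 hy with rfl | hy
        · exact ⟨0, pow_zero _⟩
        · obtain ⟨e, -, he⟩ := mem_image.1 hy; exact ⟨e, he⟩
      exact ⟨e :: L, by simp [h3], by rw [pw_cons]; push_cast; rw [he, h4]⟩

lemma sd_succ {b : ℕ} (hb : 1 < b) (N : ℕ) : sd b (N + 1) ≤ sd b N + 1 := by
  induction N using Nat.strong_induction_on with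
  | _ N ih =>
    rw [sd_rec hb (N + 1), sd_rec hb N]
    have h0 := Nat.mod_add_div N b
    have hlt := Nat.mod_lt N (by omega : 0 < b)
    by_cases h : N % b + 1 < b
    · have e : N + 1 = (N % b + 1) + b * (N / b) := by omega
      have e1 : (N + 1) % b = N % b + 1 := by
        rw [e, Nat.add_mul_mod_self_left, Nat.mod_eq_of_lt h]
      have e2 : (N + 1) / b = N / b := by
        rw [e, Nat.add_mul_div_left _ _ (by omega), Nat.div_eq_of_lt h, zero_add]
      rw [e1, e2]; omega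
    · have e : N + 1 = b * (N / b + 1) := by rw [mul_add]; omega
      have e1 : (N + 1) % b = 0 := by rw [e, Nat.mul_mod_right]
      have e2 : (N + 1) / b = N / b + 1 := by rw [e, Nat.mul_div_cancel_left _ (by omega)]
      have := ih (N / b) (Nat.div_lt_self (by omega) hb)
      rw [e1, e2]; omega

lemma sd_pow {b : ℕ} (hb : 1 < b) (e : ℕ) : ∀ N, sd b (N + b ^ e) ≤ sd b N + 1 := by
  induction e with
  | zero => intro N; simpa using sd_succ hb N
  | succ e ih =>
    intro N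
    rw [sd_rec hb (N + b ^ (e + 1)), sd_rec hb N, pow_succ', Nat.add_mul_mod_self_left,
      Nat.add_mul_div_left _ _ (by omega)]
    have := ih (N / b); omega

lemma sd_pw {b : ℕ} (hb : 1 < b) (L : List ℕ) : sd b (pw b L) ≤ L.length := by
  induction L with
  | nil => simp [sd, pw]
  | cons e L ih => rw [pw_cons, add_comm]; have := sd_pow hb e (pw b L); simp; omega

lemma sd_sub {b : ℕ} (hb : 1 < b) (x y : ℕ) : sd b (x + y) ≤ sd b x + sd b y := by
  obtain ⟨L, h1, h2⟩ := list_of hb x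
  obtain ⟨M, h3, h4⟩ := list_of hb y
  have := sd_pw hb (L ++ M)
  rw [pw_append, h2, h4, List.length_append, h1, h3] at this
  exact this

def rep (b k : ℕ) : ℕ := ∑ j ∈ Finset.range k, b ^ j

lemma rep_succ (b k : ℕ) : rep b (k + 1) = 1 + b * rep b k := by
  unfold rep; rw [Finset.sum_range_succ', Finset.mul_sum]; simp [pow_succ', add_comm]

lemma rep_mul (B k : ℕ) : B * rep (B + 1) k + 1 = (B + 1) ^ k := by
  induction k with
  | zero => simp [rep]
  | succ k ih => rw [rep_succ, pow_succ, ← ih]; ring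

lemma rep_mod (B k : ℕ) : rep (B + 1) k ≡ k [MOD B] := by
  induction k with
  | zero => simp [rep, Nat.ModEq]
  | succ k ih =>
    rw [rep_succ]
    have e : 1 + (B + 1) * rep (B + 1) k = rep (B + 1) k + 1 + B * rep (B + 1) k := by ring
    rw [e]
    unfold Nat.ModEq
    rw [Nat.add_mul_mod_self_left]
    exact ih.add_right 1

lemma sd_rep {B : ℕ} (hB : 0 < B) (k : ℕ) : sd (B + 1) (B * rep (B + 1) k) = k * B := by
  induction k with
  | zero => simp [rep, sd]
  | succ k ih =>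
    have e : B * rep (B + 1) (k + 1) = B + (B + 1) * (B * rep (B + 1) k) := by rw [rep_succ]; ring
    rw [sd_rec (by omega), e, Nat.add_mul_mod_self_left, Nat.add_mul_div_left _ _ (by omega),
      Nat.mod_eq_of_lt (by omega), Nat.div_eq_of_lt (by omega), zero_add, ih]; ring

lemma sd_ge {B k : ℕ} (hB : 0 < B) (hk : 0 < k) (N : ℕ) :
    0 < N → B * rep (B + 1) k ∣ N → k * B ≤ sd (B + 1) N := by
  induction N using Nat.strong_induction_on with
  | _ N ih =>
    intro h0 hd
    have hM := rep_mul B k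
    have h2 : B + 1 ≤ (B + 1) ^ k := Nat.le_self_pow (by omega) _
    by_cases h : N < (B + 1) ^ k
    · have : N = B * rep (B + 1) k := by
        have := Nat.le_of_dvd h0 hd; omega
      rw [this, sd_rep hB]
    · have hq : 0 < N / (B + 1) ^ k := Nat.div_pos (by omega) (by omega)
      have e := Nat.mod_add_div N ((B + 1) ^ k)
      have e2 : N = (N % (B + 1) ^ k + N / (B + 1) ^ k) + B * rep (B + 1) k * (N / (B + 1) ^ k) := by
        conv_lhs => rw [← e]
        have : (B + 1) ^ k * (N / (B + 1) ^ k) = (B * rep (B + 1) k + 1) * (N / (B + 1) ^ k) := by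
          rw [hM]
        rw [this]; ring
      have hpos : 0 < B * rep (B + 1) k * (N / (B + 1) ^ k) := Nat.mul_pos (by omega) hq
      have h3 := ih (N % (B + 1) ^ k + N / (B + 1) ^ k)
        (lt_of_lt_of_eq (Nat.lt_add_of_pos_right hpos) e2.symm) (Nat.add_pos_right _ hq) (by
        rw [e2] at hd
        exact (Nat.dvd_add_left (Dvd.intro _ rfl)).1 hd)
      have h4 := sd_sub (by omega : 1 < B + 1) (N % (B + 1) ^ k) (N / (B + 1) ^ k)
      have h5 := sd_add (by omega : 1 < B + 1) k (N % (B + 1) ^ k) (N / (B + 1) ^ k)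
        (Nat.mod_lt _ (by omega))
      rw [e] at h5
      omega

lemma pw_mod (B : ℕ) (L : List ℕ) : pw (B + 1) L ≡ L.length [MOD B] := by
  induction L with
  | nil => simp [pw, Nat.ModEq]
  | cons e L ih =>
    rw [pw_cons, List.length_cons, add_comm L.length]
    refine Nat.ModEq.add ?_ ih
    have : B + 1 ≡ 1 [MOD B] := by simp [Nat.ModEq]
    simpa using this.pow e

lemma split {B m u : ℕ} (hu : 0 < u) (h : ∃ L : List ℕ, L.length = u ∧ m ∣ pw (B + 1) L) (t : ℕ) :
    ∃ L : List ℕ, L.length = u + t * B ∧ m ∣ pw (B + 1) L := by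
  induction t with
  | zero => simpa using h
  | succ t ih =>
    obtain ⟨L, h1, h2⟩ := ih
    rcases L with _ | ⟨e, L⟩
    · simp at h1; omega
    · refine ⟨List.replicate (B + 1) e ++ L.map (· + 1), ?_, ?_⟩
      · simp at h1 ⊢; rw [add_mul]; omega
      · rw [pw_append, pw_rep, pw_shift, ← mul_add, ← pw_cons]
        exact Dvd.dvd.mul_left h2 _

lemma rep_list (b k c : ℕ) : ∃ L : List ℕ, L.length = c * k ∧ pw b L = c * rep b k := by
  induction k with
  | zero => exact ⟨[], by simp, by simp [pw, rep]⟩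
  | succ k ih =>
    obtain ⟨L, h1, h2⟩ := ih
    refine ⟨List.replicate c 0 ++ L.map (· + 1), by simp [h1]; ring, ?_⟩
    rw [pw_append, pw_rep, pw_shift, h2, rep_succ]; ring

lemma rep_in {B k u : ℕ} (hB : 0 < B) (hk : 0 < k) (hc : Nat.Coprime B (rep (B + 1) k))
    (hu : (k - 1) * B < u) : ∃ L : List ℕ, L.length = u ∧ rep (B + 1) k ∣ pw (B + 1) L := by
  obtain ⟨t, ht, hd⟩ := two_pow (b := rep (B + 1) k + 1) (m := B)
    (by obtain ⟨j, rfl⟩ : ∃ j, k = j + 1 := ⟨k - 1, by omega⟩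
        rw [rep_succ]; omega) hB (by simpa using hc.symm) u
  simp only [Nat.add_sub_cancel] at hd
  have h1 : u + t * k ≡ 0 [MOD B] :=
    (((rep_mod B k).symm.mul_left t).add_left u).trans ((Nat.modEq_zero_iff_dvd).2 hd)
  obtain ⟨s, hs⟩ := (Nat.modEq_zero_iff_dvd).1 h1
  obtain ⟨j, rfl⟩ : ∃ j, k = j + 1 := ⟨k - 1, by omega⟩
  obtain ⟨c, rfl⟩ : ∃ c, B = t + c := ⟨B - t, by omega⟩
  simp only [Nat.add_sub_cancel] at hu
  have hs2 : j + 1 ≤ s ∨ s ≤ j := by omega
  rcases hs2 with h | h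
  · obtain ⟨r, rfl⟩ : ∃ r, s = j + 1 + r := ⟨s - (j + 1), by omega⟩
    obtain ⟨L, h3, h4⟩ := rep_list (t + c + 1) (j + 1) c
    have e : u = c * (j + 1) + r * (t + c) := by nlinarith
    rw [e]
    exact split (Nat.mul_pos (by omega) (by omega)) ⟨L, h3, by rw [h4]; exact Dvd.intro_left _ rfl⟩ r
  · have : (t + c) * s ≤ (t + c) * j := Nat.mul_le_mul_left _ h
    nlinarith

lemma rep_out {B k : ℕ} (hB : 0 < B) (hk : 1 < k) (hc : Nat.Coprime B (rep (B + 1) k))
    (L : List ℕ) (h1 : L.length = (k - 1) * B) : ¬ rep (B + 1) k ∣ pw (B + 1) L := by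
  intro hd
  have h2 : B ∣ pw (B + 1) L := by
    refine ((pw_mod B L).dvd_iff (dvd_refl B)).2 ?_
    rw [h1]; exact Dvd.intro_left _ rfl
  have hpos : 0 < pw (B + 1) L := by
    rcases L with _ | ⟨e, L⟩
    · simp at h1; omega
    · rw [pw_cons]; positivity
  have h3 := sd_ge hB (by omega) _ hpos (hc.mul_dvd_of_dvd_of_dvd h2 hd)
  have h4 := sd_pw (by omega : 1 < B + 1) L
  obtain ⟨j, rfl⟩ : ∃ j, k = j + 1 := ⟨k - 1, by omega⟩
  simp only [Nat.add_sub_cancel] at h1
  rw [add_mul] at h3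
  omega

end Pool.Agent.H18.DSumA
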