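import Mathlib

set_option autoImplicit false

namespace Pool.Agent.H18.Disc

theorem ex_eq (x y : ℕ) : ∃ i, x / 2 ^ i = y / 2 ^ i := by
  refine ⟨x + y, ?_⟩
  have h : x + y < 2 ^ (x + y) := Nat.lt_two_pow_self
  rw [Nat.div_eq_of_lt (by omega), Nat.div_eq_of_lt (by omega)]

/-- One more than the highest differing bit. -/
def ff (x y : ℕ) : ℕ := Nat.find (ex_eq x y)

theorem div_succ (x i : ℕ) : x / 2 ^ (i + 1) = x / 2 ^ i / 2 := by
  rw [pow_succ, Nat.div_div_eq_div_mul]

theorem ff_le_iff (x y i : ℕ) : ff x y ≤ i ↔ x / 2 ^ i = y / 2 ^ i := by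
  constructor
  · intro h
    induction i, h using Nat.le_induction with
    | base => exact Nat.find_spec (ex_eq x y)
    | succ i _ ih => rw [div_succ, div_succ, ih]
  · exact fun h => Nat.find_min' _ h

theorem ff_comm (x y : ℕ) : ff x y = ff y x := by
  apply le_antisymm
  · rw [ff_le_iff]; exact ((ff_le_iff y x _).1 le_rfl).symm
  · rw [ff_le_iff]; exact ((ff_le_iff x y _).1 le_rfl).symm

theorem ff_pos {x y : ℕ} (h : x ≠ y) : 0 < ff x y := by
  by_contra h0
  have := (ff_le_iff x y 0).1 (by omega)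
  simp at this; exact h this

theorem ff_max {x y z : ℕ} (h1 : x ≤ y) (h2 : y ≤ z) : ff x z = max (ff x y) (ff y z) := by
  refine eq_of_forall_ge_iff fun i => ?_
  rw [max_le_iff, ff_le_iff, ff_le_iff, ff_le_iff]
  have a1 : x / 2 ^ i ≤ y / 2 ^ i := Nat.div_le_div_right h1
  have a2 : y / 2 ^ i ≤ z / 2 ^ i := Nat.div_le_div_right h2
  omega

theorem ff_ne {x y z : ℕ} (h1 : x < y) (h2 : y < z) : ff x y ≠ ff y z := by
  intro h
  have p1 := ff_pos h1.ne
  obtain ⟨d, hd⟩ : ∃ d, ff x y = d + 1 := ⟨ff x y - 1, by omega⟩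
  have b1 := (ff_le_iff x y (d + 1)).1 (by omega)
  have b2 := (ff_le_iff y z (d + 1)).1 (by omega)
  have b3 := (ff_le_iff x y d).not.1 (by omega)
  have b4 := (ff_le_iff y z d).not.1 (by omega)
  have a1 : x / 2 ^ d ≤ y / 2 ^ d := Nat.div_le_div_right h1.le
  have a2 : y / 2 ^ d ≤ z / 2 ^ d := Nat.div_le_div_right h2.le
  rw [div_succ, div_succ] at b1 b2
  omega

/-- The highest differing bit. -/
def dl (x y : ℕ) : ℕ := ff x y - 1

theorem dl_comm (x y : ℕ) : dl x y = dl y x := by unfold dl; rw [ff_comm]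

theorem dl_self (x : ℕ) : dl x x = 0 := by
  have := (ff_le_iff x x 0).2 rfl
  unfold dl; omega

theorem dl_max {x y z : ℕ} (h1 : x ≤ y) (h2 : y ≤ z) : dl x z = max (dl x y) (dl y z) := by
  unfold dl; rw [ff_max h1 h2]; omega

theorem dl_ne {x y z : ℕ} (h1 : x < y) (h2 : y < z) : dl x y ≠ dl y z := by
  have := ff_ne h1 h2
  have := ff_pos h1.ne
  have := ff_pos h2.ne
  unfold dl; omega

theorem dl_lt {x y M : ℕ} (h : x ≠ y) (hx : x < 2 ^ M) (hy : y < 2 ^ M) : dl x y < M := by
  have := ff_pos h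
  have := (ff_le_iff x y M).2 (by rw [Nat.div_eq_of_lt hx, Nat.div_eq_of_lt hy])
  unfold dl; omega

/-- Three values in strictly monotone order. -/
def M3 (x y z : ℕ) : Prop := (x < y ∧ y < z) ∨ (z < y ∧ y < x)

theorem M3.dl_max {x y z : ℕ} (h : M3 x y z) : dl x z = max (dl x y) (dl y z) := by
  rcases h with ⟨h1, h2⟩ | ⟨h1, h2⟩
  · exact Disc.dl_max h1.le h2.le
  · rw [dl_comm x z, dl_comm x y, dl_comm y z, Disc.dl_max h1.le h2.le, max_comm]

theorem M3.dl_ne {x y z : ℕ} (h : M3 x y z) : dl x y ≠ dl y z := by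
  rcases h with ⟨h1, h2⟩ | ⟨h1, h2⟩
  · exact Disc.dl_ne h1 h2
  · rw [dl_comm x y, dl_comm y z]; exact (Disc.dl_ne h1 h2).symm

theorem card_dl (V : Finset ℕ) : (Finset.image₂ dl V V).card ≤ V.card := by
  induction V using Finset.induction_on_max with
  | empty => simp
  | insert z V hz ih =>
    have hzV : z ∉ V := fun h => lt_irrefl _ (hz z h)
    rw [Finset.card_insert_of_notMem hzV]
    rcases V.eq_empty_or_nonempty with rfl | hV
    · simp
    · set z' := V.max' hV
      have hz' : z' ∈ V := V.max'_mem hV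
      have key : ∀ x ∈ V, dl x z ∈ insert (dl z' z) (Finset.image₂ dl V V) := by
        intro x hx
        rw [dl_max (V.le_max' x hx) (hz z' hz').le]
        rcases max_choice (dl x z') (dl z' z) with h | h <;> rw [h]
        · exact Finset.mem_insert_of_mem (Finset.mem_image₂_of_mem hx hz')
        · exact Finset.mem_insert_self _ _
      have : Finset.image₂ dl (insert z V) (insert z V) ⊆
          insert (dl z' z) (Finset.image₂ dl V V) := by
        intro w hw
        obtain ⟨x, hx, y, hy, rfl⟩ := Finset.mem_image₂.1 hw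
        rcases Finset.mem_insert.1 hx with hx1 | hx1 <;>
          rcases Finset.mem_insert.1 hy with hy1 | hy1
        · rw [hx1, hy1, dl_self, ← dl_self z']
          exact Finset.mem_insert_of_mem (Finset.mem_image₂_of_mem hz' hz')
        · rw [hx1, dl_comm z y]; exact key y hy1
        · rw [hy1]; exact key x hx1
        · exact Finset.mem_insert_of_mem (Finset.mem_image₂_of_mem hx1 hy1)
      exact (Finset.card_le_card this).trans ((Finset.card_insert_le _ _).trans (by omega))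

/-- The iterated sequences of highest differing bits. -/
def lv : ℕ → (ℕ → ℕ) → ℕ → ℕ
  | 0, a, t => a t
  | j + 1, a, t => dl (lv j a t) (lv j a (t + 1))

theorem lv_loc (a a' : ℕ → ℕ) (s x y : ℕ) (h : ∀ t, x ≤ t → t ≤ y → a t = a' (t + s)) (j : ℕ) :
    ∀ t, x ≤ t → t + j ≤ y → lv j a t = lv j a' (t + s) := by
  induction j with
  | zero => exact fun t h1 h2 => h t h1 h2
  | succ j ih =>
    intro t h1 h2
    simp only [lv]
    rw [ih t h1 (by omega), ih (t + 1) (by omega) (by omega), show t + 1 + s = t + s + 1 by ring]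

def sk (q t : ℕ) : ℕ := if t < q then t else t + 1

def Del (a' a : ℕ → ℕ) (j q : ℕ) : Prop := ∀ t, lv j a' t = lv j a (sk q t)

theorem Del.low {a' a : ℕ → ℕ} {j q : ℕ} (h : Del a' a j q) (t : ℕ) (ht : t + 1 < q) :
    lv (j + 1) a' t = lv (j + 1) a t := by
  simp only [lv]
  rw [h t, h (t + 1), sk, sk, if_pos (by omega), if_pos ht]

theorem Del.high {a' a : ℕ → ℕ} {j q : ℕ} (h : Del a' a j q) (t : ℕ) (ht : q ≤ t) :
    lv (j + 1) a' t = lv (j + 1) a (t + 1) := by
  simp only [lv]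
  rw [h t, h (t + 1), sk, sk, if_neg (by omega), if_neg (by omega)]

theorem Del.mid {a' a : ℕ → ℕ} {j q : ℕ} (h : Del a' a j (q + 1))
    (hm : M3 (lv j a q) (lv j a (q + 1)) (lv j a (q + 2))) :
    lv (j + 1) a' q = max (lv (j + 1) a q) (lv (j + 1) a (q + 1)) := by
  simp only [lv]
  rw [h q, h (q + 1), sk, sk, if_pos (by omega), if_neg (by omega)]
  exact hm.dl_max

theorem Del.up {a' a : ℕ → ℕ} {j q : ℕ} (h : Del a' a j (q + 1))
    (hm : M3 (lv j a q) (lv j a (q + 1)) (lv j a (q + 2)))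
    (hu : lv (j + 1) a q < lv (j + 1) a (q + 1)) : Del a' a (j + 1) q := by
  intro t
  unfold sk
  rcases lt_trichotomy t q with ht | rfl | ht
  · rw [if_pos ht, h.low t (by omega)]
  · rw [if_neg (by omega), h.mid hm, max_eq_right hu.le]
  · rw [if_neg (by omega), h.high t (by omega)]

theorem Del.down {a' a : ℕ → ℕ} {j q : ℕ} (h : Del a' a j (q + 1))
    (hm : M3 (lv j a q) (lv j a (q + 1)) (lv j a (q + 2)))
    (hu : ¬ lv (j + 1) a q < lv (j + 1) a (q + 1)) : Del a' a (j + 1) (q + 1) := by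
  intro t
  unfold sk
  rcases lt_trichotomy t q with ht | rfl | ht
  · rw [if_pos (by omega), h.low t (by omega)]
  · rw [if_pos (by omega), h.mid hm, max_eq_left (by omega)]
  · rw [if_neg (by omega), h.high t (by omega)]

/-- The up/down bit. -/
def bit (a : ℕ → ℕ) (j t : ℕ) : Prop := lv j a t < lv j a (t + 1)

/-- The bits of level `j` are constant on the window. -/
def Cst (a : ℕ → ℕ) (w0 w1 j : ℕ) : Prop :=
  ∀ t t', w0 ≤ t → t + j + 1 < w1 → w0 ≤ t' → t' + j + 1 < w1 → (bit a j t ↔ bit a j t')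

theorem m3_of_cst (a : ℕ → ℕ) (w0 w1 : ℕ) (h0 : ∀ t, w0 ≤ t → t + 1 < w1 → a t < a (t + 1))
    (j : ℕ) (hc : ∀ i ≤ j, Cst a w0 w1 i) :
    (∀ t, w0 ≤ t → t + j + 1 < w1 → lv j a t ≠ lv j a (t + 1)) ∧
    (∀ t, w0 ≤ t → t + j + 2 < w1 → M3 (lv j a t) (lv j a (t + 1)) (lv j a (t + 2))) := by
  have aux : ∀ j, Cst a w0 w1 j → (∀ t, w0 ≤ t → t + j + 1 < w1 → lv j a t ≠ lv j a (t + 1)) →
      (∀ t, w0 ≤ t → t + j + 2 < w1 → M3 (lv j a t) (lv j a (t + 1)) (lv j a (t + 2))) := by
    intro j hc hne t h1 h2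
    have b1 := hc t (t + 1) h1 (by omega) (by omega) (by omega)
    have b2 := hne t h1 (by omega)
    have b3 := hne (t + 1) (by omega) (by omega)
    unfold bit at b1
    unfold M3
    rw [show t + 1 + 1 = t + 2 by ring] at b1 b3
    omega
  induction j with
  | zero =>
    have : ∀ t, w0 ≤ t → t + 0 + 1 < w1 → lv 0 a t ≠ lv 0 a (t + 1) :=
      fun t h1 h2 => (h0 t h1 h2).ne
    exact ⟨this, aux 0 (hc 0 le_rfl) this⟩
  | succ j ih =>
    obtain ⟨-, i2⟩ := ih fun i hi => hc i (by omega)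
    have : ∀ t, w0 ≤ t → t + (j + 1) + 1 < w1 → lv (j + 1) a t ≠ lv (j + 1) a (t + 1) :=
      fun t h1 h2 => (i2 t h1 (by omega)).dl_ne
    exact ⟨this, aux _ (hc _ le_rfl) this⟩

def tw (r : ℕ) : ℕ := (fun n : ℕ => 2 ^ n)^[r] 1

theorem tw_succ (r : ℕ) : tw (r + 1) = 2 ^ tw r := by
  unfold tw; rw [Function.iterate_succ_apply']

theorem exists_not_cst (a : ℕ → ℕ) (w0 w1 r : ℕ)
    (h0 : ∀ t, w0 ≤ t → t + 1 < w1 → a t < a (t + 1))
    (hb : ∀ t, w0 ≤ t → t < w1 → a t < tw r) (hw : w0 + r + 1 < w1) :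
    ∃ j ≤ r, ¬ Cst a w0 w1 j := by
  by_contra hcon
  push Not at hcon
  have key : ∀ j ≤ r, ∀ t, w0 ≤ t → t + j < w1 → lv j a t < tw (r - j) := by
    intro j
    induction j with
    | zero => intro _ t h1 h2; exact hb t h1 h2
    | succ j ih =>
      intro hj t h1 h2
      have b1 := ih (by omega) t h1 (by omega)
      have b2 := ih (by omega) (t + 1) (by omega) (by omega)
      rw [show r - j = (r - (j + 1)) + 1 by omega, tw_succ] at b1 b2
      exact dl_lt ((m3_of_cst a w0 w1 h0 j fun i hi => hcon i (by omega)).1 t h1 (by omega)) b1 b2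
  have b1 := key r le_rfl w0 le_rfl (by omega)
  have b2 := key r le_rfl (w0 + 1) (by omega) (by omega)
  have b3 := (m3_of_cst a w0 w1 h0 r hcon).1 w0 le_rfl hw
  simp only [Nat.sub_self, tw, Function.iterate_zero, id] at b1 b2
  omega

/-- Two sequences with the same bits that agree after one deletion each. -/
theorem two_del (a c : ℕ → ℕ) (w0 w1 j0 p D : ℕ)
    (ha : ∀ t, w0 ≤ t → t + 1 < w1 → a t < a (t + 1))
    (hc : ∀ t, w0 ≤ t → t + 1 < w1 → c t < c (t + 1))
    (hbit : ∀ j ≤ j0 + 1, ∀ t, w0 ≤ t → t + j + 1 < w1 → (bit a j t ↔ bit c j t))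
    (hcst : ∀ i ≤ j0, Cst a w0 w1 i)
    (heq : ∀ t, t + 1 < w1 → a (sk p t) = c (sk (p + D) t))
    (h1 : w0 + j0 < p) (h2 : p + D + j0 + 2 < w1) :
    ∃ q, p ≤ q + j0 ∧ q ≤ p ∧ ∀ t, q ≤ t → t + 2 < q + D →
      (bit a (j0 + 1) (t + 1) ↔ bit a (j0 + 1) t) := by
  have hcst' : ∀ i ≤ j0, Cst c w0 w1 i := by
    intro i hi t t' b1 b2 b3 b4
    rw [← hbit i (by omega) t b1 b2, ← hbit i (by omega) t' b3 b4]
    exact hcst i hi t t' b1 b2 b3 b4
  have key : ∀ j ≤ j0, ∃ q, p ≤ q + j ∧ q ≤ p ∧ Del (fun t => a (sk p t)) a j q ∧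
      Del (fun t => c (sk (p + D) t)) c j (q + D) := by
    intro j
    induction j with
    | zero => exact fun _ => ⟨p, le_rfl, le_rfl, fun _ => rfl, fun _ => rfl⟩
    | succ j ih =>
      intro hj
      obtain ⟨q, q1, q2, d1, d2⟩ := ih (by omega)
      obtain ⟨q, rfl⟩ : ∃ q', q = q' + 1 := ⟨q - 1, by omega⟩
      rw [show q + 1 + D = (q + D) + 1 by ring] at d2
      have m1 := (m3_of_cst a w0 w1 ha j fun i hi => hcst i (by omega)).2 q (by omega) (by omega)
      have m2 := (m3_of_cst c w0 w1 hc j fun i hi => hcst' i (by omega)).2 (q + D) (by omega)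
        (by omega)
      have e1 : bit a (j + 1) q ↔ bit c (j + 1) (q + D) :=
        (hcst (j + 1) hj q (q + D) (by omega) (by omega) (by omega) (by omega)).trans
          (hbit (j + 1) (by omega) (q + D) (by omega) (by omega))
      by_cases hu : bit a (j + 1) q
      · exact ⟨q, by omega, by omega, d1.up m1 hu, d2.up m2 (e1.1 hu)⟩
      · refine ⟨q + 1, by omega, by omega, d1.down m1 hu, ?_⟩
        rw [show q + 1 + D = (q + D) + 1 by ring]
        exact d2.down m2 (fun h => hu (e1.2 h))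
  obtain ⟨q, q1, q2, d1, d2⟩ := key j0 le_rfl
  refine ⟨q, q1, q2, fun t t1 t2 => ?_⟩
  have loc := lv_loc (fun t => a (sk p t)) (fun t => c (sk (p + D) t)) 0 0 (w1 - 2)
    (fun t _ h => heq t (by omega)) (j0 + 1)
  have e1 := d1.high t t1
  have e2 := d1.high (t + 1) (by omega)
  have e3 := d2.low t (by omega)
  have e4 := d2.low (t + 1) (by omega)
  have e5 := loc t (by omega) (by omega)
  have e6 := loc (t + 1) (by omega) (by omega)
  rw [add_zero] at e5 e6
  rw [hbit (j0 + 1) le_rfl t (by omega) (by omega)]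
  unfold bit
  rw [← e1, ← e2, ← e3, ← e4, e5, e6]

/-- A periodic predicate that is constant on one period is constant. -/
theorem per_const (P : ℕ → Prop) (x y s q : ℕ) (hs : 0 < s)
    (hper : ∀ t, x ≤ t → t + s < y → (P t ↔ P (t + s)))
    (hq : x ≤ q) (hq' : q + s ≤ y) (hc : ∀ t, q ≤ t → t + 1 < q + s → (P (t + 1) ↔ P t)) :
    ∀ t, x ≤ t → t < y → (P t ↔ P q) := by
  have in1 : ∀ d, d < s → (P (q + d) ↔ P q) := by
    intro d
    induction d with
    | zero => simp
    | succ d ih => exact fun h => (hc (q + d) (by omega) (by omega)).trans (ih (by omega))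
  have up : ∀ t, q ≤ t → t < y → (P t ↔ P q) := by
    intro t
    induction t using Nat.strong_induction_on with
    | _ t ih =>
      intro h1 h2
      by_cases h : t < q + s
      · have := in1 (t - q) (by omega)
        rwa [show q + (t - q) = t by omega] at this
      · have := hper (t - s) (by omega) (by omega)
        rw [show t - s + s = t by omega] at this
        exact this.symm.trans (ih (t - s) (by omega) (by omega) (by omega))
  have down : ∀ d t, t + d = q → x ≤ t → (P t ↔ P q) := by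
    intro d
    induction d using Nat.strong_induction_on with
    | _ d ih =>
      intro t h1 h2
      rcases Nat.eq_zero_or_pos d with rfl | hd
      · rw [← h1]; simp
      · refine (hper t h2 (by omega)).trans ?_
        by_cases h : q ≤ t + s
        · exact up _ h (by omega)
        · exact ih (d - s) (by omega) (t + s) (by omega) (by omega)
  intro t h1 h2
  by_cases h : q ≤ t
  · exact up t h h2
  · exact down (q - t) t (by omega) h1

end Pool.Agent.H18.Disc
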