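import Pool.Agent.H18.Disc1

set_option autoImplicit false

namespace Pool.Agent.H18.Disc

open Finset

def rk (A : Finset ℕ) (y : ℕ) : ℕ := Nat.count (· ∈ A) y

noncomputable def el (A : Finset ℕ) (t : ℕ) : ℕ := Nat.nth (· ∈ A) t

theorem rk_succ (A : Finset ℕ) (y : ℕ) : rk A (y + 1) = rk A y + if y ∈ A then 1 else 0 :=
  Nat.count_succ _ _

theorem rk_zero (A : Finset ℕ) : rk A 0 = 0 := Nat.count_zero _

theorem rk_eq (A : Finset ℕ) (y : ℕ) : rk A y = (A.filter (· < y)).card := by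
  unfold rk
  rw [Nat.count_eq_card_filter_range]
  congr 1; ext z; simp [and_comm]

theorem rk_mono (A : Finset ℕ) {x y : ℕ} (h : x ≤ y) : rk A x ≤ rk A y :=
  Nat.count_monotone _ h

theorem rk_lt (A : Finset ℕ) {x y : ℕ} (hx : x ∈ A) (h : x < y) : rk A x < rk A y := by
  have h1 := rk_succ A x
  rw [if_pos hx] at h1
  have := rk_mono A (show x + 1 ≤ y by omega)
  omega

theorem rk_le_card (A : Finset ℕ) (y : ℕ) : rk A y ≤ A.card := by
  rw [rk_eq]; exact card_filter_le _ _

theorem rk_lt_card (A : Finset ℕ) {y : ℕ} (hy : y ∈ A) : rk A y < A.card :=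
  (rk_lt A hy (Nat.lt_succ_self y)).trans_le (rk_le_card A _)

theorem el_rk (A : Finset ℕ) {y : ℕ} (hy : y ∈ A) : el A (rk A y) = y := Nat.nth_count hy

theorem fin_card (A : Finset ℕ) (hf : {x | x ∈ A}.Finite) : hf.toFinset.card = A.card := by
  congr 1; ext z; simp

theorem el_mem (A : Finset ℕ) {t : ℕ} (ht : t < A.card) : el A t ∈ A :=
  Nat.nth_mem (p := (· ∈ A)) t fun hf => by rw [fin_card]; exact ht

theorem rk_el (A : Finset ℕ) {t : ℕ} (ht : t < A.card) : rk A (el A t) = t :=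
  Nat.count_nth (p := (· ∈ A)) fun hf => by rw [fin_card]; exact ht

theorem el_of_le (A : Finset ℕ) {t : ℕ} (ht : A.card ≤ t) : el A t = 0 :=
  Nat.nth_of_card_le (p := (· ∈ A)) A.finite_toSet ((fin_card A A.finite_toSet).trans_le ht)

theorem el_lt (A : Finset ℕ) {t t' : ℕ} (h : t < t') (ht : t' < A.card) : el A t < el A t' := by
  by_contra hc
  have := rk_mono A (not_lt.1 hc)
  rw [rk_el A ht, rk_el A (h.trans ht)] at this
  omega

theorem rk_lt_iff (A : Finset ℕ) {x y : ℕ} (hx : x ∈ A) : rk A x < rk A y ↔ x < y :=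
  ⟨fun h => by by_contra hc; have := rk_mono A (not_lt.1 hc); omega, rk_lt A hx⟩

theorem rk_shift (A B : Finset ℕ) (x z : ℕ) (h : ∀ y, x ≤ y → y < z → (y ∈ A ↔ y ∈ B)) :
    ∀ y, x ≤ y → y ≤ z → rk B y + rk A x = rk A y + rk B x := by
  intro y h1
  induction y, h1 using Nat.le_induction with
  | base => intro _; ring
  | succ y h1 ih =>
    intro h2
    have := ih (by omega)
    rw [rk_succ, rk_succ]
    by_cases hy : y ∈ A
    · rw [if_pos hy, if_pos ((h y h1 (by omega)).1 hy)]; omega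
    · rw [if_neg hy, if_neg (fun e => hy ((h y h1 (by omega)).2 e))]; omega

theorem rk_erase (A : Finset ℕ) {x : ℕ} (hx : x ∈ A) (y : ℕ) :
    rk A y = rk (A.erase x) y + if x < y then 1 else 0 := by
  induction y with
  | zero => simp [rk_zero]
  | succ y ih =>
    rw [rk_succ, rk_succ, ih]
    by_cases h : y = x
    · subst h; simp [hx]
    · have e : y ∈ A.erase x ↔ y ∈ A := by simp [h]
      simp only [e]
      split_ifs <;> omega

theorem el_erase (A : Finset ℕ) {x : ℕ} (hx : x ∈ A) (t : ℕ) (ht : t + 1 < A.card) :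
    el (A.erase x) t = el A (sk (rk A x) t) := by
  have h1 : sk (rk A x) t < A.card := by unfold sk; split_ifs <;> omega
  set y := el A (sk (rk A x) t) with hy
  have hyA : y ∈ A := el_mem A h1
  have hr : rk A y = sk (rk A x) t := rk_el A h1
  have h2 := rk_erase A hx y
  have h3 := rk_lt_iff A (y := y) hx
  have hne : y ≠ x := by
    intro e; rw [e] at hr; unfold sk at hr; split_ifs at hr <;> omega
  have : rk (A.erase x) y = t := by
    unfold sk at hr
    split_ifs at hr h2 <;> omega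
  rw [← this]
  exact el_rk _ (mem_erase.2 ⟨hne, hyA⟩)

theorem el_congr (A B : Finset ℕ) (z : ℕ) (h : ∀ y, y < z → (y ∈ A ↔ y ∈ B)) (t : ℕ)
    (ht : t < rk A z) : el A t = el B t := by
  have h1 : t < A.card := ht.trans_le (rk_le_card A z)
  have h2 := el_mem A h1
  have h3 := rk_el A h1
  have h4 : el A t < z := (rk_lt_iff A h2).1 (by omega)
  have h5 := rk_shift A B 0 z (fun y _ hy => h y hy) (el A t) (by omega) h4.le
  rw [rk_zero, rk_zero, h3] at h5
  have := el_rk B ((h _ h4).1 h2)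
  rw [show rk B (el A t) = t by omega] at this
  exact this.symm

theorem rk_card (A : Finset ℕ) (x y : ℕ) (h : x ≤ y) :
    rk A y = rk A x + (A ∩ Ico x y).card := by
  induction y, h using Nat.le_induction with
  | base => simp
  | succ y h ih =>
    rw [rk_succ, ih, Nat.Ico_succ_right_eq_insert_Ico h]
    by_cases hy : y ∈ A
    · rw [if_pos hy, inter_insert_of_mem hy, card_insert_of_notMem (by simp)]; ring
    · rw [if_neg hy, inter_insert_of_notMem hy]; ring

theorem rk_map (A : Finset ℕ) (s : ℕ ↪o ℕ) (y : ℕ) : rk (A.map s.toEmbedding) (s y) = rk A y := by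
  rw [rk_eq, rk_eq, filter_map, card_map]
  congr 1; ext z; simp

theorem el_map (A : Finset ℕ) (s : ℕ ↪o ℕ) {t : ℕ} (ht : t < A.card) :
    el (A.map s.toEmbedding) t = s (el A t) := by
  have := el_rk (A.map s.toEmbedding) (y := s (el A t)) (mem_map_of_mem _ (el_mem A ht))
  rwa [rk_map, rk_el A ht] at this

theorem card_le_of_diam (X : Finset ℕ) (G : ℕ) (h : ∀ x ∈ X, ∀ y ∈ X, x ≤ y → y ≤ x + G) :
    X.card ≤ G + 1 := by
  rcases X.eq_empty_or_nonempty with rfl | hX
  · simp
  · have : X ⊆ Icc (X.min' hX) (X.min' hX + G) := fun y hy =>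
      mem_Icc.2 ⟨X.min'_le y hy, h _ (X.min'_mem hX) y hy (X.min'_le y hy)⟩
    refine (card_le_card this).trans ?_
    rw [Nat.card_Icc]; omega

theorem countA (Z : Finset ℕ) (F : Finset (Finset ℕ)) (c G : ℕ) (hZ : ∀ B ∈ F, B ⊆ Z)
    (hc : ∀ B ∈ F, c ≤ B.card)
    (hG : ∀ B ∈ F, ∀ B' ∈ F, ∀ x ∈ B, ∀ x' ∈ B', B.erase x = B'.erase x' → x ≤ x' → x' ≤ x + G) :
    c * F.card ≤ (G + 1) * 2 ^ Z.card := by
  have h1 : c * F.card ≤ (F.sigma fun B => B).card := by
    rw [card_sigma, mul_comm, ← smul_eq_mul]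
    exact card_nsmul_le_sum _ _ _ hc
  refine h1.trans ?_
  rw [← card_powerset]
  refine card_le_mul_card_image_of_maps_to (f := fun p : (Σ _ : Finset ℕ, ℕ) => p.1.erase p.2)
    (fun p hp => mem_powerset.2 ((erase_subset _ _).trans (hZ _ (mem_sigma.1 hp).1))) _ ?_
  intro B' _
  rw [← card_image_of_injOn (f := fun p : (Σ _ : Finset ℕ, ℕ) => p.2)]
  · refine card_le_of_diam _ _ fun x hx y hy hxy => ?_
    obtain ⟨p, hp, rfl⟩ := mem_image.1 hx
    obtain ⟨q, hq, rfl⟩ := mem_image.1 hy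
    obtain ⟨p1, p2⟩ := mem_filter.1 hp
    obtain ⟨q1, q2⟩ := mem_filter.1 hq
    exact hG _ (mem_sigma.1 p1).1 _ (mem_sigma.1 q1).1 _ (mem_sigma.1 p1).2 _ (mem_sigma.1 q1).2
      (p2.trans q2.symm) hxy
  · rintro ⟨B, x⟩ hp ⟨C, y⟩ hq (rfl : x = y)
    obtain ⟨p1, p2⟩ := mem_filter.1 (mem_coe.1 hp)
    obtain ⟨q1, q2⟩ := mem_filter.1 (mem_coe.1 hq)
    have e1 := insert_erase (mem_sigma.1 p1).2
    have e2 := insert_erase (mem_sigma.1 q1).2
    simp only at p2 q2 e1 e2
    have : B = C := by rw [← e1, ← e2, p2, q2]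
    subst this; rfl

theorem choose_step (u K s i : ℕ) (hu : 8 * s * (K + s) ≤ u) (hi : 2 * i + 2 ≤ u + 2 * K + 2 * s)
    (hs : 0 < s) : (2 * s - 1) * u.choose i ≤ 2 * s * u.choose (i + 1) := by
  have h1 := Nat.choose_succ_right_eq u i
  have h2 : (2 * s - 1) * (i + 1) ≤ 2 * s * (u - i) := by
    obtain ⟨s, rfl⟩ : ∃ t, s = t + 1 := ⟨s - 1, by omega⟩
    have hiu : i ≤ u := by nlinarith
    obtain ⟨d, rfl⟩ : ∃ d, u = i + d := ⟨u - i, by omega⟩
    rw [show 2 * (s + 1) - 1 = 2 * s + 1 by omega, show i + d - i = d by omega]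
    by_cases h : i + 1 ≤ d
    · nlinarith
    · have : i + 2 ≤ d + 2 * K + 2 * (s + 1) := by omega
      nlinarith
  refine Nat.le_of_mul_le_mul_right ?_ (show 0 < i + 1 by omega)
  calc (2 * s - 1) * u.choose i * (i + 1) = u.choose i * ((2 * s - 1) * (i + 1)) := by ring
    _ ≤ u.choose i * (2 * s * (u - i)) := Nat.mul_le_mul_left _ h2
    _ = 2 * s * (u.choose i * (u - i)) := by ring
    _ = 2 * s * u.choose (i + 1) * (i + 1) := by rw [← h1]; ring

theorem choose_far (u K s c : ℕ) (hu : 8 * s * (K + s) ≤ u) (hc : 2 * c ≤ u + 2 * K)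
    (v : ℕ) (hv : v ≤ s) : (2 * s - v) * u.choose c ≤ 2 * s * u.choose (c + v) := by
  induction v with
  | zero => simp
  | succ v ih =>
    have h1 := ih (by omega)
    have h2 := choose_step u K s (c + v) hu (by omega) (by omega)
    rw [← add_assoc]
    refine Nat.le_of_mul_le_mul_left ?_ (show 0 < 2 * s by omega)
    have h3 : 2 * s * (2 * s - (v + 1)) ≤ (2 * s - 1) * (2 * s - v) := by
      obtain ⟨d, hd⟩ : ∃ d, 2 * s = v + 1 + d := ⟨2 * s - (v + 1), by omega⟩
      rw [hd, show v + 1 + d - (v + 1) = d by omega, show v + 1 + d - 1 = v + d by omega,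
        show v + 1 + d - v = d + 1 by omega]
      nlinarith
    calc 2 * s * ((2 * s - (v + 1)) * u.choose c)
        = 2 * s * (2 * s - (v + 1)) * u.choose c := by ring
      _ ≤ (2 * s - 1) * (2 * s - v) * u.choose c := Nat.mul_le_mul_right _ h3
      _ = (2 * s - 1) * ((2 * s - v) * u.choose c) := by ring
      _ ≤ (2 * s - 1) * (2 * s * u.choose (c + v)) := Nat.mul_le_mul_left _ h1
      _ = 2 * s * ((2 * s - 1) * u.choose (c + v)) := by ring
      _ ≤ 2 * s * (2 * s * u.choose (c + v + 1)) := Nat.mul_le_mul_left _ h2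

theorem countB (Z : Finset ℕ) (F : Finset (Finset ℕ)) (K s : ℕ) (hZ : ∀ B ∈ F, B ⊆ Z)
    (hu : 8 * s * (K + s) ≤ Z.card) (hc : ∀ B ∈ F, 2 * B.card ≤ Z.card + 2 * K)
    (hsep : ∀ B ∈ F, ∀ B' ∈ F, B.card < B'.card → B.card + s ≤ B'.card) :
    s * F.card ≤ 2 * 2 ^ Z.card := by
  set u := Z.card
  set C := F.image card
  have h1 : F.card ≤ ∑ c ∈ C, u.choose c := by
    have : F ⊆ C.biUnion fun c => powersetCard c Z := fun B hB =>
      mem_biUnion.2 ⟨B.card, mem_image_of_mem _ hB, mem_powersetCard.2 ⟨hZ B hB, rfl⟩⟩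
    refine (card_le_card this).trans (card_biUnion_le.trans ?_)
    simp only [card_powersetCard]; rfl
  have h2 : ∀ c ∈ C, s * u.choose c ≤ 2 * ∑ v ∈ range s, u.choose (c + v) := by
    intro c hcC
    obtain ⟨B, hB, rfl⟩ := mem_image.1 hcC
    rw [mul_sum]
    calc s * u.choose B.card = ∑ _v ∈ range s, u.choose B.card := by simp
      _ ≤ _ := sum_le_sum fun v hv => by
        have hv' := mem_range.1 hv
        have := choose_far u K s B.card hu (hc B hB) v hv'.le
        have h3 : s * u.choose B.card ≤ (2 * s - v) * u.choose B.card :=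
          Nat.mul_le_mul_right _ (by omega)
        refine Nat.le_of_mul_le_mul_left ?_ (show 0 < s by omega)
        calc s * u.choose B.card ≤ 2 * s * u.choose (B.card + v) := h3.trans this
          _ = _ := by ring
  have h3 : ∑ c ∈ C, ∑ v ∈ range s, u.choose (c + v) ≤ 2 ^ u := by
    rw [← sum_product' (f := fun c v => u.choose (c + v))]
    rw [← sum_image (g := fun p : ℕ × ℕ => p.1 + p.2) (f := fun i => u.choose i)]
    · rw [← Nat.sum_range_choose]
      refine sum_le_sum_of_ne_zero fun i _ hi => mem_range.2 ?_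
      by_contra h
      exact hi (Nat.choose_eq_zero_of_lt (by omega))
    · rintro ⟨c, v⟩ hp ⟨c', v'⟩ hq h
      obtain ⟨p1, p2⟩ := mem_product.1 (mem_coe.1 hp)
      obtain ⟨q1, q2⟩ := mem_product.1 (mem_coe.1 hq)
      obtain ⟨B, hB, e1⟩ := mem_image.1 p1
      obtain ⟨B', hB', e2⟩ := mem_image.1 q1
      have a1 := hsep B hB B' hB'
      have a2 := hsep B' hB' B hB
      simp only [mem_range] at p2 q2 h e1 e2 ⊢
      have : c = c' := by omega
      subst this
      have : v = v' := by omega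
      subst this; rfl
  calc s * F.card ≤ s * ∑ c ∈ C, u.choose c := Nat.mul_le_mul_left _ h1
    _ = ∑ c ∈ C, s * u.choose c := mul_sum _ _ _
    _ ≤ ∑ c ∈ C, 2 * ∑ v ∈ range s, u.choose (c + v) := sum_le_sum h2
    _ = 2 * ∑ c ∈ C, ∑ v ∈ range s, u.choose (c + v) := (mul_sum _ _ _).symm
    _ ≤ 2 * 2 ^ u := Nat.mul_le_mul_left _ h3

def pre (z : ℕ) (A : Finset ℕ) : Finset ℕ := A.filter (· < z)

/-- Counting by removing a block `Z` from the last stage. -/
theorem stage_count (F : Finset (Finset ℕ)) (b e s f : ℕ) (Z : Finset ℕ) (hbe : b ≤ e)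
    (hZ : Z ⊆ Ico b e)
    (hf : ∀ O, s * (((F.image (pre e)).filter fun X => X \ Z = O).image (· ∩ Z)).card ≤
      f * 2 ^ Z.card) :
    s * (F.image (pre e)).card ≤ f * 2 ^ (e - b) * (F.image (pre b)).card := by
  set X := F.image (pre e)
  have h1 : X.card = ∑ O ∈ X.image (· \ Z), (X.filter fun x => x \ Z = O).card :=
    card_eq_sum_card_image _ _
  have h2 : ∀ O, (X.filter fun x => x \ Z = O).card =
      ((X.filter fun X => X \ Z = O).image (· ∩ Z)).card := by
    intro O
    refine (card_image_of_injOn ?_).symm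
    intro x hx y hy (h : x ∩ Z = y ∩ Z)
    have a1 := (mem_filter.1 (mem_coe.1 hx)).2
    have a2 := (mem_filter.1 (mem_coe.1 hy)).2
    rw [← sdiff_union_inter x Z, ← sdiff_union_inter y Z, a1, a2, h]
  have h3 : (X.image (· \ Z)).card ≤ (F.image (pre b)).card * 2 ^ (e - b - Z.card) := by
    have : X.image (· \ Z) ⊆
        ((F.image (pre b)) ×ˢ (Ico b e \ Z).powerset).image fun p => p.1 ∪ p.2 := by
      intro O hO
      obtain ⟨x, hx, rfl⟩ := mem_image.1 hO
      obtain ⟨A, hA, rfl⟩ := mem_image.1 hx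
      · refine mem_image.2 ⟨(pre b A, A ∩ (Ico b e \ Z)), mem_product.2
          ⟨mem_image_of_mem _ hA, mem_powerset.2 inter_subset_right⟩, ?_⟩
        ext y
        have := @hZ y
        simp only [pre, mem_union, mem_filter, mem_inter, mem_sdiff, mem_Ico] at this ⊢
        by_cases hy : y < b
        · have : y ∉ Z := fun h => by have := this h; omega
          have : y < e := by omega
          tauto
        · have : b ≤ y := by omega
          tauto
    refine (card_le_card this).trans (card_image_le.trans ?_)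
    rw [card_product, card_powerset, card_sdiff_of_subset hZ, Nat.card_Ico]
  have h4 : Z.card ≤ e - b := by simpa using card_le_card hZ
  calc s * X.card = ∑ O ∈ X.image (· \ Z), s * (X.filter fun x => x \ Z = O).card := by
        rw [h1, mul_sum]
    _ ≤ ∑ _O ∈ X.image (· \ Z), f * 2 ^ Z.card := sum_le_sum fun O _ => by rw [h2]; exact hf O
    _ = (X.image (· \ Z)).card * (f * 2 ^ Z.card) := by simp
    _ ≤ (F.image (pre b)).card * 2 ^ (e - b - Z.card) * (f * 2 ^ Z.card) :=
        Nat.mul_le_mul_right _ h3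
    _ = f * (2 ^ (e - b - Z.card) * 2 ^ Z.card) * (F.image (pre b)).card := by ring
    _ = _ := by rw [← pow_add, Nat.sub_add_cancel h4]

end Pool.Agent.H18.Disc
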