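import Pool.Agent.H18.Disc2

set_option autoImplicit false

namespace Pool.Agent.H18.Disc

open Finset

noncomputable def sq (s : ℕ ↪o ℕ) (A : Finset ℕ) (t : ℕ) : ℕ := s (el A t)

def Good (n K : ℕ) (A : Finset ℕ) : Prop := ∀ y ≤ n, y ≤ 2 * rk A y + K ∧ 2 * rk A y ≤ y + K

structure Fam (s : ℕ ↪o ℕ) (k r K : ℕ) (F : Finset (Finset ℕ)) : Prop where
  card : ∀ A ∈ F, A.card = k
  sub : ∀ A ∈ F, A ⊆ range (2 * k)
  good : ∀ A ∈ F, Good (2 * k) K A
  bit : ∀ A ∈ F, ∀ B ∈ F, ∀ j ≤ r, ∀ t, t + j + 1 < k → (bit (sq s A) j t ↔ bit (sq s B) j t)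
  bd : ∀ x < 2 * k, s x < tw r

def Per (a : ℕ → ℕ) (w0 w1 r d : ℕ) : Prop :=
  ∀ j ≤ r, ∀ t, w0 ≤ t → t + d + j + 1 < w1 → (bit a j t ↔ bit a j (t + d))

variable {s : ℕ ↪o ℕ} {k r K : ℕ} {F : Finset (Finset ℕ)}

theorem Fam.mono (h : Fam s k r K F) {A : Finset ℕ} (hA : A ∈ F) (t : ℕ) (ht : t + 1 < k) :
    sq s A t < sq s A (t + 1) :=
  s.strictMono (el_lt A (by omega) (by rw [h.card A hA]; exact ht))

theorem Fam.caseB (h : Fam s k r K F) {A0 A B : Finset ℕ} (h0 : A0 ∈ F) (hA : A ∈ F) (hB : B ∈ F)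
    (x e w0 w1 d : ℕ) (he : e ≤ 2 * k) (hx : x ≤ e) (hw0 : x + K ≤ 2 * w0) (hw1 : 2 * w1 + K ≤ e)
    (hag : ∀ y, x ≤ y → y < e → (y ∈ A ↔ y ∈ B)) (hd : rk B x = rk A x + d) :
    Per (sq s A0) w0 w1 r d := by
  have key : ∀ t, w0 ≤ t → t ≤ w1 - 1 → 0 < w1 → sq s A t = sq s B (t + d) := by
    intro t h1 h2 h3
    have ht : t < A.card := by rw [h.card A hA]; omega
    have m1 := el_mem A ht
    have m2 := rk_el A ht
    have g1 := h.good A hA x (by omega)
    have g2 := h.good A hA e he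
    have l1 : x ≤ el A t := by
      by_contra hc
      have := rk_lt A m1 (not_le.1 hc)
      omega
    have l2 : el A t < e := (rk_lt_iff A m1).1 (by omega)
    have l3 := rk_shift A B x e hag (el A t) l1 l2.le
    have l4 := el_rk B ((hag _ l1 l2).1 m1)
    rw [show rk B (el A t) = t + d by omega] at l4
    unfold sq; rw [l4]
  intro j hj t h1 h2
  have loc := lv_loc (sq s A) (sq s B) d w0 (w1 - 1) (fun t a b => key t a b (by omega)) j
  rw [h.bit A0 h0 A hA j hj t (by omega), h.bit A0 h0 B hB j hj (t + d) (by omega)]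
  unfold Disc.bit
  rw [loc t h1 (by omega), loc (t + 1) (by omega) (by omega), show t + 1 + d = t + d + 1 by ring]

theorem Fam.caseA (h : Fam s k r K F) {A0 A B : Finset ℕ} (h0 : A0 ∈ F) (hA : A ∈ F) (hB : B ∈ F)
    (e w0 w1 d x x' : ℕ) (he : e ≤ 2 * k) (hw1 : 2 * w1 + K ≤ e) (hd : 0 < d)
    (hper : Per (sq s A0) w0 w1 r d) (hx : x ∈ A) (hx' : x' ∈ B) (hxx : x ≤ x')
    (hag : ∀ y, y < e → (y ∈ A.erase x ↔ y ∈ B.erase x'))
    (h1 : 2 * w0 + 2 * r + K < x) (h2 : x' + K + 2 * r + 4 < 2 * w1) :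
    x' ≤ x + (2 * K + 2 * d) := by
  classical
  have cA := h.card A hA
  have cB := h.card B hB
  have gA := h.good A hA x (by omega)
  have gB := h.good B hB x' (by omega)
  have gA' := h.good A hA e he
  have ma : ∀ t, w0 ≤ t → t + 1 < w1 → sq s A t < sq s A (t + 1) :=
    fun t _ ht => h.mono hA t (by omega)
  have mb : ∀ t, w0 ≤ t → t + 1 < w1 → sq s B t < sq s B (t + 1) :=
    fun t _ ht => h.mono hB t (by omega)
  have hex := exists_not_cst (sq s A) w0 w1 r ma (fun t _ ht => h.bd _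
    (mem_range.1 (h.sub A hA (el_mem A (by omega))))) (by omega)
  obtain ⟨hj, hn⟩ := Nat.find_spec hex
  have hmin : ∀ i < Nat.find hex, Cst (sq s A) w0 w1 i := by
    intro i hi
    by_contra hc
    exact Nat.find_min hex hi ⟨by omega, hc⟩
  generalize Nat.find hex = j at hj hn hmin
  rcases j with _ | j
  · exact absurd (fun t t' a b c d => iff_of_true (ma t a b) (ma t' c d)) hn
  have r1 := rk_erase A hx x
  have r2 := rk_erase B hx' x'
  have r3 := rk_shift (A.erase x) (B.erase x') 0 e (fun y _ hy => hag y hy) x (by omega) (by omega)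
  have r4 := rk_mono (B.erase x') hxx
  have r5 := rk_erase A hx e
  simp only [lt_irrefl, if_false, add_zero, rk_zero] at r1 r2 r3
  obtain ⟨D, hD⟩ : ∃ D, rk B x' = rk A x + D := ⟨rk B x' - rk A x, by omega⟩
  obtain ⟨q, q1, q2, q3⟩ := two_del (sq s A) (sq s B) w0 w1 j (rk A x) D ma mb
    (fun i hi t _ ht => h.bit A hA B hB i (by omega) t (by omega))
    (fun i hi => hmin i (by omega))
    (fun t ht => by
      unfold sq
      rw [← hD, ← el_erase A hx t (by omega), ← el_erase B hx' t (by omega),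
        el_congr _ _ e hag t (by split_ifs at r5 <;> omega)])
    (by omega) (by omega)
  by_contra hc
  have hDd : d < D := by omega
  apply hn
  have := per_const (Disc.bit (sq s A) (j + 1)) w0 (w1 - j - 2) d q hd
    (fun t a b => by
      rw [h.bit A hA A0 h0 _ hj t (by omega), h.bit A hA A0 h0 _ hj (t + d) (by omega)]
      exact hper _ hj t a (by omega))
    (by omega) (by omega) (fun t a b => q3 t a (by omega))
  intro t t' a b c d
  exact (this t a (by omega)).trans (this t' c (by omega)).symm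

theorem mem_fib {e : ℕ} {Z O B : Finset ℕ} (hZ : ∀ y ∈ Z, y < e)
    (hB : B ∈ ((F.image (pre e)).filter fun X => X \ Z = O).image (· ∩ Z)) :
    ∃ A ∈ F, B = A ∩ Z ∧ ∀ y, y < e → y ∉ Z → (y ∈ A ↔ y ∈ O) := by
  obtain ⟨X, hX, rfl⟩ := mem_image.1 hB
  obtain ⟨hX1, rfl⟩ := mem_filter.1 hX
  obtain ⟨A, hA, rfl⟩ := mem_image.1 hX1
  refine ⟨A, hA, ?_, fun y h1 h2 => by simp [pre, h1, h2]⟩
  ext y
  have := hZ y
  simp only [pre, mem_inter, mem_filter]
  tauto

theorem Fam.stage (h : Fam s k r K F) (b u s0 : ℕ) (hb : b + 4 * u ≤ 2 * k) (hs : 0 < s0)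
    (hu : 8 * s0 * (K + s0) ≤ u) (hr : 2 * K + 2 * r + 6 ≤ u) :
    s0 * (F.image (pre (b + 4 * u))).card ≤ 2 * 2 ^ (4 * u) * (F.image (pre b)).card := by
  rcases F.eq_empty_or_nonempty with rfl | ⟨A0, h0⟩
  · simp
  obtain ⟨w0, a1, a2⟩ : ∃ w0, b + u + K ≤ 2 * w0 ∧ 2 * w0 ≤ b + u + K + 1 :=
    ⟨(b + u + K + 1) / 2, by omega, by omega⟩
  obtain ⟨w1, a3, a4⟩ : ∃ w1, 2 * w1 + K ≤ b + 4 * u ∧ b + 4 * u ≤ 2 * w1 + K + 1 :=
    ⟨(b + 4 * u - K) / 2, by omega, by omega⟩
  have e4 : 4 * u = b + 4 * u - b := by omega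
  by_cases hp : ∃ d, 0 < d ∧ d < s0 ∧ Per (sq s A0) w0 w1 r d
  · obtain ⟨d, d1, d2, hper⟩ := hp
    have := stage_count F b (b + 4 * u) s0 2 (Ico (b + 2 * u) (b + 3 * u)) (by omega)
      (Ico_subset_Ico (by omega) (by omega)) fun O => ?_
    · rwa [← e4] at this
    have hZ : ∀ y ∈ Ico (b + 2 * u) (b + 3 * u), y < b + 4 * u := fun y hy => by
      have := mem_Ico.1 hy; omega
    have hc := countA (Ico (b + 2 * u) (b + 3 * u))
      (((F.image (pre (b + 4 * u))).filter fun X => X \ Ico (b + 2 * u) (b + 3 * u) = O).image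
        (· ∩ Ico (b + 2 * u) (b + 3 * u))) (u / 2 - K) (2 * K + 2 * s0)
      (fun B hB => by
        obtain ⟨A, -, rfl, -⟩ := mem_fib hZ hB
        exact inter_subset_right)
      (fun B hB => by
        obtain ⟨A, hA, rfl, -⟩ := mem_fib hZ hB
        have g1 := h.good A hA (b + 2 * u) (by omega)
        have g2 := h.good A hA (b + 3 * u) (by omega)
        have := rk_card A (b + 2 * u) (b + 3 * u) (by omega)
        omega)
      (fun B hB B' hB' x hx x' hx' he hxx => by
        obtain ⟨A, hA, rfl, o1⟩ := mem_fib hZ hB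
        obtain ⟨A', hA', rfl, o2⟩ := mem_fib hZ hB'
        obtain ⟨x1, x2⟩ := mem_inter.1 hx
        obtain ⟨y1, y2⟩ := mem_inter.1 hx'
        have x3 := mem_Ico.1 x2
        have y3 := mem_Ico.1 y2
        have := h.caseA h0 hA hA' (b + 4 * u) w0 w1 d x x' hb a3 d1 hper x1 y1 hxx
          (fun y hy => by
            by_cases hyZ : y ∈ Ico (b + 2 * u) (b + 3 * u)
            · have := Finset.ext_iff.1 he y
              simp only [mem_erase, mem_inter, hyZ, and_true] at this ⊢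
              exact this
            · have n1 : y ≠ x := fun e => hyZ (e ▸ x2)
              have n2 : y ≠ x' := fun e => hyZ (e ▸ y2)
              simp only [mem_erase, ne_eq, n1, n2, not_false_eq_true, true_and]
              exact (o1 y hy hyZ).trans (o2 y hy hyZ).symm)
          (by omega) (by omega)
        omega)
    generalize (((F.image (pre (b + 4 * u))).filter
      fun X => X \ Ico (b + 2 * u) (b + 3 * u) = O).image
        (· ∩ Ico (b + 2 * u) (b + 3 * u))).card = c at hc ⊢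
    generalize 2 ^ (Ico (b + 2 * u) (b + 3 * u)).card = P at hc ⊢
    have h5 : s0 * (2 * K + 2 * s0 + 1) ≤ 2 * (u / 2 - K) := by
      have : s0 * (2 * K + 2 * s0 + 1) + 2 * K + 1 ≤ u := by nlinarith
      omega
    refine Nat.le_of_mul_le_mul_left ?_ (show 0 < 2 * K + 2 * s0 + 1 by omega)
    calc (2 * K + 2 * s0 + 1) * (s0 * c) = s0 * (2 * K + 2 * s0 + 1) * c := by ring
      _ ≤ 2 * (u / 2 - K) * c := Nat.mul_le_mul_right _ h5
      _ = 2 * ((u / 2 - K) * c) := by ring
      _ ≤ 2 * ((2 * K + 2 * s0 + 1) * P) := Nat.mul_le_mul_left _ hc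
      _ = _ := by ring
  · have := stage_count F b (b + 4 * u) s0 2 (Ico b (b + u)) (by omega)
      (Ico_subset_Ico (by omega) (by omega)) fun O => ?_
    · rwa [← e4] at this
    have hZ : ∀ y ∈ Ico b (b + u), y < b + 4 * u := fun y hy => by
      have := mem_Ico.1 hy; omega
    have cZ : (Ico b (b + u)).card = u := by rw [Nat.card_Ico]; omega
    refine countB _ _ K s0 (fun B hB => ?_) (by rw [cZ]; exact hu) (fun B hB => ?_)
      (fun B hB B' hB' hlt => ?_)
    · obtain ⟨A, -, rfl, -⟩ := mem_fib hZ hB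
      exact inter_subset_right
    · obtain ⟨A, hA, rfl, -⟩ := mem_fib hZ hB
      have g1 := h.good A hA b (by omega)
      have g2 := h.good A hA (b + u) (by omega)
      have := rk_card A b (b + u) (by omega)
      omega
    · obtain ⟨A, hA, rfl, o1⟩ := mem_fib hZ hB
      obtain ⟨A', hA', rfl, o2⟩ := mem_fib hZ hB'
      by_contra hc
      have c1 := rk_card A b (b + u) (by omega)
      have c2 := rk_card A' b (b + u) (by omega)
      have c3 := rk_shift A A' 0 b (fun y _ hy => by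
        have n : y ∉ Ico b (b + u) := by simp only [mem_Ico]; omega
        exact (o1 y (by omega) n).trans (o2 y (by omega) n).symm) b (by omega) le_rfl
      rw [rk_zero, rk_zero] at c3
      refine hp ⟨(A' ∩ Ico b (b + u)).card - (A ∩ Ico b (b + u)).card, by omega, by omega, ?_⟩
      refine h.caseB h0 hA hA' (b + u) (b + 4 * u) w0 w1 _ hb (by omega) a1 a3
        (fun y y1 y2 => ?_) (by omega)
      have n : y ∉ Ico b (b + u) := by simp only [mem_Ico]; omega
      exact (o1 y y2 n).trans (o2 y y2 n).symm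

theorem Fam.fibre (h : Fam s k r K F) (m u s0 : ℕ) (hb : 4 * u * m ≤ 2 * k) (hs : 0 < s0)
    (hu : 8 * s0 * (K + s0) ≤ u) (hr : 2 * K + 2 * r + 6 ≤ u) :
    s0 ^ m * F.card ≤ 2 ^ m * 2 ^ (2 * k) := by
  have key : ∀ i ≤ m, s0 ^ i * (F.image (pre (4 * u * i))).card ≤ 2 ^ i * 2 ^ (4 * u * i) := by
    intro i
    induction i with
    | zero =>
      intro _
      simp only [pow_zero, one_mul, mul_zero]
      refine card_le_one.2 fun X hX Y hY => ?_
      obtain ⟨A, -, rfl⟩ := mem_image.1 hX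
      obtain ⟨B, -, rfl⟩ := mem_image.1 hY
      simp [pre]
    | succ i ih =>
      intro hi
      have h1 := ih (by omega)
      have h2 := h.stage (4 * u * i) u s0 (by nlinarith) hs hu hr
      rw [show 4 * u * (i + 1) = 4 * u * i + 4 * u by ring]
      calc s0 ^ (i + 1) * (F.image (pre (4 * u * i + 4 * u))).card
          = s0 ^ i * (s0 * (F.image (pre (4 * u * i + 4 * u))).card) := by ring
        _ ≤ s0 ^ i * (2 * 2 ^ (4 * u) * (F.image (pre (4 * u * i))).card) :=
            Nat.mul_le_mul_left _ h2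
        _ = 2 * 2 ^ (4 * u) * (s0 ^ i * (F.image (pre (4 * u * i))).card) := by ring
        _ ≤ 2 * 2 ^ (4 * u) * (2 ^ i * 2 ^ (4 * u * i)) := Nat.mul_le_mul_left _ h1
        _ = _ := by ring
  have h1 := key m le_rfl
  have h2 := stage_count F (4 * u * m) (2 * k) 1 1 (Ico (4 * u * m) (2 * k)) hb Subset.rfl
    (fun O => by
      rw [one_mul, one_mul, ← card_powerset]
      refine card_le_card fun B hB => ?_
      obtain ⟨X, -, rfl⟩ := mem_image.1 hB
      exact mem_powerset.2 inter_subset_right)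
  have h3 : F.image (pre (2 * k)) = F := by
    rw [image_congr (g := id), image_id]
    intro A hA
    exact filter_true_of_mem fun y hy => mem_range.1 (h.sub A hA hy)
  rw [h3, one_mul, one_mul] at h2
  calc s0 ^ m * F.card ≤ s0 ^ m * (2 ^ (2 * k - 4 * u * m) * (F.image (pre (4 * u * m))).card) :=
        Nat.mul_le_mul_left _ h2
    _ = 2 ^ (2 * k - 4 * u * m) * (s0 ^ m * (F.image (pre (4 * u * m))).card) := by ring
    _ ≤ 2 ^ (2 * k - 4 * u * m) * (2 ^ m * 2 ^ (4 * u * m)) := Nat.mul_le_mul_left _ h1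
    _ = 2 ^ m * (2 ^ (2 * k - 4 * u * m) * 2 ^ (4 * u * m)) := by ring
    _ = _ := by rw [← pow_add, Nat.sub_add_cancel hb]

end Pool.Agent.H18.Disc
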