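import Pool.Agent.H18.Disc3

set_option autoImplicit false

namespace Pool.Agent.H18.Disc

open Finset

theorem hoeff {ι : Type} [DecidableEq ι] (s : Finset ι) (w : ι → ℝ) (V x : ℝ) (hV : 0 < V)
    (hx : 0 ≤ x) (hw : ∑ i ∈ s, w i ^ 2 ≤ V) :
    ((s.powerset.filter fun t => x ≤ ∑ i ∈ s, if i ∈ t then w i else -w i).card : ℝ) ≤
      2 ^ s.card * Real.exp (-(x ^ 2 / (2 * V))) := by
  set l := x / V with hl
  have hl0 : 0 ≤ l := div_nonneg hx hV.le
  have h1 : ∑ t ∈ s.powerset, Real.exp (l * ∑ i ∈ s, if i ∈ t then w i else -w i) =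
      ∏ i ∈ s, (Real.exp (l * w i) + Real.exp (-(l * w i))) := by
    rw [prod_add]
    refine sum_congr rfl fun t ht => ?_
    have hts := mem_powerset.1 ht
    rw [mul_sum, Real.exp_sum, ← prod_sdiff hts, mul_comm]
    congr 1
    · exact prod_congr rfl fun i hi => by rw [if_pos hi]
    · exact prod_congr rfl fun i hi => by rw [if_neg (mem_sdiff.1 hi).2, mul_neg]
  have h2 : ∏ i ∈ s, (Real.exp (l * w i) + Real.exp (-(l * w i))) ≤
      2 ^ s.card * Real.exp (l ^ 2 * V / 2) := by
    calc _ ≤ ∏ i ∈ s, (2 * Real.exp ((l * w i) ^ 2 / 2)) := by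
          refine prod_le_prod (fun i _ => by positivity) fun i _ => ?_
          have := Real.cosh_le_exp_half_sq (l * w i)
          rw [Real.cosh_eq] at this
          linarith
      _ = 2 ^ s.card * Real.exp (∑ i ∈ s, (l * w i) ^ 2 / 2) := by
          rw [prod_mul_distrib, prod_const, Real.exp_sum]
      _ ≤ _ := by
          refine mul_le_mul_of_nonneg_left (Real.exp_le_exp.2 ?_) (by positivity)
          have : ∑ i ∈ s, (l * w i) ^ 2 / 2 = l ^ 2 * (∑ i ∈ s, w i ^ 2) / 2 := by
            rw [mul_sum, sum_div]; exact sum_congr rfl fun i _ => by ring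
          rw [this]
          have := mul_le_mul_of_nonneg_left hw (sq_nonneg l)
          linarith
  have h3 : ((s.powerset.filter fun t => x ≤ ∑ i ∈ s, if i ∈ t then w i else -w i).card : ℝ) *
      Real.exp (l * x) ≤
      ∑ t ∈ s.powerset, Real.exp (l * ∑ i ∈ s, if i ∈ t then w i else -w i) := by
    rw [← nsmul_eq_mul]
    refine (card_nsmul_le_sum _ _ _ fun t ht => ?_).trans
      (sum_le_sum_of_subset_of_nonneg (filter_subset _ _) fun _ _ _ => (Real.exp_pos _).le)
    exact Real.exp_le_exp.2 (mul_le_mul_of_nonneg_left (mem_filter.1 ht).2 hl0)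
  have h4 := (h3.trans h1.le).trans h2
  have h5 : Real.exp (l ^ 2 * V / 2) = Real.exp (-(x ^ 2 / (2 * V))) * Real.exp (l * x) := by
    rw [← Real.exp_add]; congr 1; rw [hl]; field_simp; ring
  rw [h5, ← mul_assoc] at h4
  exact le_of_mul_le_mul_right h4 (Real.exp_pos _)

theorem hoeff2 {ι : Type} [DecidableEq ι] (s : Finset ι) (w : ι → ℝ) (V x : ℝ) (hV : 0 < V)
    (hx : 0 ≤ x) (hw : ∑ i ∈ s, w i ^ 2 ≤ V) :
    ((s.powerset.filter fun t => x ≤ |∑ i ∈ s, if i ∈ t then w i else -w i|).card : ℝ) ≤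
      2 * (2 ^ s.card * Real.exp (-(x ^ 2 / (2 * V)))) := by
  have h1 := hoeff s w V x hV hx hw
  have h2 := hoeff s (fun i => -w i) V x hV hx (by simpa using hw)
  have h3 : (s.powerset.filter fun t => x ≤ |∑ i ∈ s, if i ∈ t then w i else -w i|) ⊆
      (s.powerset.filter fun t => x ≤ ∑ i ∈ s, if i ∈ t then w i else -w i) ∪
      (s.powerset.filter fun t => x ≤ ∑ i ∈ s, if i ∈ t then -w i else - -w i) := by
    intro t ht
    obtain ⟨a, b⟩ := mem_filter.1 ht
    rcases le_abs.1 b with b | b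
    · exact mem_union_left _ (mem_filter.2 ⟨a, b⟩)
    · refine mem_union_right _ (mem_filter.2 ⟨a, b.trans_eq ?_⟩)
      rw [← sum_neg_distrib]
      exact sum_congr rfl fun i _ => by split_ifs <;> rfl
  have h4 := (card_le_card h3).trans (card_union_le _ _)
  have h5 : ((s.powerset.filter fun t => x ≤ |∑ i ∈ s, if i ∈ t then w i else -w i|).card : ℝ) ≤
      ((s.powerset.filter fun t => x ≤ ∑ i ∈ s, if i ∈ t then w i else -w i).card : ℝ) +
      ((s.powerset.filter fun t => x ≤ ∑ i ∈ s, if i ∈ t then -w i else - -w i).card : ℝ) := by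
    exact_mod_cast h4
  linarith

open Classical in
theorem bad_count (n K : ℕ) (hn : 0 < n) :
    (((range n).powerset.filter fun A => ¬ Good n K A).card : ℝ) ≤
      (n + 1) * (2 * (2 ^ n * Real.exp (-((K : ℝ) ^ 2 / (2 * n))))) := by
  have key : ∀ (A : Finset ℕ) (y : ℕ), y ≤ n → (∑ i ∈ range n,
      if i ∈ A then (if i < y then (1 : ℝ) else 0) else -(if i < y then (1 : ℝ) else 0)) =
      2 * rk A y - y := by
    intro A y hy
    have h1 : ∀ y, (∑ i ∈ range y, if i ∈ A then (1 : ℝ) else -1) = 2 * rk A y - y := by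
      intro y
      induction y with
      | zero => simp [rk_zero]
      | succ y ih =>
        rw [sum_range_succ, ih, rk_succ]
        split_ifs <;> (push_cast; ring)
    rw [← h1, ← sum_subset (range_subset_range.2 hy)]
    · exact sum_congr rfl fun i hi => by simp [mem_range.1 hi]
    · intro i _ hi
      simp only [mem_range] at hi
      simp [hi]
  have h1 : ((range n).powerset.filter fun A => ¬ Good n K A) ⊆ (range (n + 1)).biUnion fun y =>
      (range n).powerset.filter fun A => (K : ℝ) ≤ |∑ i ∈ range n,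
        if i ∈ A then (if i < y then (1 : ℝ) else 0) else -(if i < y then (1 : ℝ) else 0)| := by
    intro A hA
    obtain ⟨a, b⟩ := mem_filter.1 hA
    unfold Good at b
    push Not at b
    obtain ⟨y, hy, b⟩ := b
    refine mem_biUnion.2 ⟨y, mem_range.2 (by omega), mem_filter.2 ⟨a, ?_⟩⟩
    rw [key A y hy, le_abs]
    by_cases h : y ≤ 2 * rk A y + K
    · have : ((y + K : ℕ) : ℝ) ≤ (2 * rk A y : ℕ) := by exact_mod_cast (b h).le
      push_cast at this
      left; linarith
    · have : ((2 * rk A y + K : ℕ) : ℝ) ≤ (y : ℕ) := by exact_mod_cast (not_le.1 h).le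
      push_cast at this
      right; linarith
  have h2 := (card_le_card h1).trans card_biUnion_le
  have h3 := (Nat.cast_le (α := ℝ)).2 h2
  refine h3.trans ?_
  push_cast
  refine (sum_le_card_nsmul _ _ (2 * (2 ^ n * Real.exp (-((K : ℝ) ^ 2 / (2 * n))))) fun y _ =>
    ?_).trans (by simp)
  have := hoeff2 (range n) (fun i => if i < y then (1 : ℝ) else 0) n K (by exact_mod_cast hn)
    (by positivity) (by
      refine (sum_le_card_nsmul _ _ 1 fun i _ => by split_ifs <;> norm_num).trans (by simp))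
  rwa [card_range] at this

theorem exists_col {T I Ω : Type} [Fintype T] [DecidableEq T] (J : Finset I) (f : I → Ω → T)
    (Gd : Finset Ω) (M W x : ℝ) (hM : 0 < M) (hW : 0 < W) (hx : 0 ≤ x) (hG : (Gd.card : ℝ) ≤ W)
    (hf : ∀ i ∈ J, ∀ τ, ((Gd.filter fun A => f i A = τ).card : ℝ) ≤ M)
    (hJ : J.card * (2 * Real.exp (-(x ^ 2 / (2 * (M * W))))) < 1) :
    ∃ t : Finset T, ∀ i ∈ J, |∑ A ∈ Gd, if f i A ∈ t then (1 : ℝ) else -1| ≤ x := by
  classical
  by_contra hc
  push Not at hc
  have h1 : (univ : Finset T).powerset ⊆ J.biUnion fun i => (univ : Finset T).powerset.filter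
      fun t => x ≤ |∑ τ ∈ univ, if τ ∈ t then ((Gd.filter fun A => f i A = τ).card : ℝ)
        else -((Gd.filter fun A => f i A = τ).card : ℝ)| := by
    intro t ht
    obtain ⟨i, hi, h⟩ := hc t
    refine mem_biUnion.2 ⟨i, hi, mem_filter.2 ⟨ht, h.le.trans_eq ?_⟩⟩
    congr 1
    rw [← sum_fiberwise (s := Gd) (g := f i)]
    refine sum_congr rfl fun τ _ => ?_
    rw [sum_congr rfl (g := fun _ => if τ ∈ t then (1 : ℝ) else -1)
      (fun A hA => by rw [(mem_filter.1 hA).2]), sum_const, nsmul_eq_mul]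
    split_ifs <;> ring
  have h2 := (Nat.cast_le (α := ℝ)).2 ((card_le_card h1).trans card_biUnion_le)
  rw [card_powerset] at h2
  push_cast at h2
  have h3 := h2.trans (sum_le_card_nsmul _ _
    (2 * (2 ^ (univ : Finset T).card * Real.exp (-(x ^ 2 / (2 * (M * W)))))) fun i hi =>
      hoeff2 univ (fun τ => ((Gd.filter fun A => f i A = τ).card : ℝ)) (M * W) x
        (by positivity) hx (by
          calc _ ≤ ∑ τ : T, M * ((Gd.filter fun A => f i A = τ).card : ℝ) :=
                sum_le_sum fun τ _ => by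
                  rw [pow_two]
                  exact mul_le_mul_of_nonneg_right (hf i hi τ) (by positivity)
            _ = M * Gd.card := by
                rw [← mul_sum, card_eq_sum_card_fiberwise (f := f i) (s := Gd) (t := univ)
                  (fun _ _ => mem_univ _)]
                push_cast; rfl
            _ ≤ M * W := mul_le_mul_of_nonneg_left hG hM.le))
  rw [nsmul_eq_mul] at h3
  have h4 : (0 : ℝ) < 2 ^ (univ : Finset T).card := by positivity
  nlinarith

def lvD (D : ℕ → ℕ → ℕ → ℕ) : ℕ → (ℕ → ℕ) → ℕ → ℕ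
  | 0, a, t => a t
  | j + 1, a, t => D j (lvD D j a t) (lvD D j a (t + 1))

def ext {r n : ℕ} (tab : Fin r → Fin n → Fin n → Fin n) (j x y : ℕ) : ℕ :=
  if h : j < r ∧ x < n ∧ y < n then tab ⟨j, h.1⟩ ⟨x, h.2.1⟩ ⟨y, h.2.2⟩ else 0

def VV (S : Finset ℕ) : ℕ → Finset ℕ
  | 0 => S
  | j + 1 => image₂ dl (VV S j) (VV S j)

theorem card_VV (S : Finset ℕ) (j : ℕ) : (VV S j).card ≤ S.card := by
  induction j with
  | zero => rfl
  | succ j ih => exact (card_dl _).trans ih

theorem pattern (s : ℕ ↪o ℕ) (r n : ℕ) (hn : 0 < n) :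
    ∃ tab : Fin r → Fin n → Fin n → Fin n, ∀ a : ℕ → ℕ, (∀ t, a t < n) → ∀ j ≤ r, ∀ t,
      (bit (fun t => s (a t)) j t ↔ lvD (ext tab) j a t < lvD (ext tab) j a (t + 1)) := by
  set S := (range n).map s.toEmbedding
  have hS : S.card = n := by simp [S]
  refine ⟨fun j x y => ⟨rk (VV S (j + 1)) (dl (el (VV S j) x) (el (VV S j) y)) % n,
    Nat.mod_lt _ hn⟩, fun a ha => ?_⟩
  set tab : Fin r → Fin n → Fin n → Fin n := fun j x y =>
    ⟨rk (VV S (j + 1)) (dl (el (VV S j) x) (el (VV S j) y)) % n, Nat.mod_lt _ hn⟩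
  have key : ∀ j ≤ r, ∀ t, lv j (fun t => s (a t)) t ∈ VV S j ∧
      rk (VV S j) (lv j (fun t => s (a t)) t) = lvD (ext tab) j a t := by
    intro j
    induction j with
    | zero =>
      intro _ t
      refine ⟨mem_map_of_mem _ (mem_range.2 (ha t)), ?_⟩
      simp only [VV, lv, lvD, S]
      rw [rk_map, rk_eq]
      have := ha t
      rw [show (range n).filter (· < a t) = range (a t) by ext y; simp; omega, card_range]
    | succ j ih =>
      intro hj t
      obtain ⟨a1, a2⟩ := ih (by omega) t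
      obtain ⟨b1, b2⟩ := ih (by omega) (t + 1)
      have c1 : lv (j + 1) (fun t => s (a t)) t ∈ VV S (j + 1) := mem_image₂_of_mem a1 b1
      refine ⟨c1, ?_⟩
      have d1 := (rk_lt_card _ a1).trans_le ((card_VV S j).trans_eq hS)
      have d2 := (rk_lt_card _ b1).trans_le ((card_VV S j).trans_eq hS)
      have d3 := (rk_lt_card _ c1).trans_le ((card_VV S (j + 1)).trans_eq hS)
      rw [lvD, ← a2, ← b2, ext, dif_pos ⟨by omega, d1, d2⟩]
      simp only [tab]
      rw [el_rk _ a1, el_rk _ b1]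
      exact (Nat.mod_eq_of_lt d3).symm
  intro j hj t
  rw [← (key j hj t).2, ← (key j hj (t + 1)).2, rk_lt_iff _ (key j hj t).1]
  rfl

open Classical in
noncomputable def typ (k r : ℕ) (a : ℕ → ℕ) : Fin (r + 1) → Fin k → Bool :=
  fun j t => decide ((t : ℕ) + (j : ℕ) + 1 < k ∧ bit a j t)

noncomputable def typD (k r : ℕ) (D : ℕ → ℕ → ℕ → ℕ) (A : Finset ℕ) : Fin (r + 1) → Fin k → Bool :=
  fun j t => decide ((t : ℕ) + (j : ℕ) + 1 < k ∧ lvD D j (el A) t < lvD D j (el A) (t + 1))

theorem typ_congr (k r : ℕ) (a a' : ℕ → ℕ) (h : ∀ t < k, a t = a' t) : typ k r a = typ k r a' := by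
  funext j t
  unfold typ
  refine decide_eq_decide.2 (and_congr_right fun ht => ?_)
  have loc := lv_loc a a' 0 0 (k - 1) (fun t _ ht' => h t (by have := ht; omega)) j
  unfold bit
  rw [loc t (by omega) (by omega), loc (t + 1) (by omega) (by omega)]
  rfl

open Classical in
/-- The colouring of types. -/
theorem core (k r K m u s0 : ℕ) (hk : 0 < k) (hb : 4 * u * m ≤ 2 * k) (hs : 0 < s0)
    (hu : 8 * s0 * (K + s0) ≤ u) (hr : 2 * K + 2 * r + 6 ≤ u) (x : ℝ) (hx : 0 ≤ x)
    (hJ : ((2 * k : ℕ) : ℝ) ^ (2 * k * (2 * k) * r) * (2 * Real.exp (-(x ^ 2 /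
      (2 * ((2 ^ m * 2 ^ (2 * k) / s0 ^ m) * ((2 * k).choose k : ℕ)))))) < 1) :
    ∃ t : Finset (Fin (r + 1) → Fin k → Bool), ∀ s : ℕ ↪o ℕ, (∀ y < 2 * k, s y < tw r) →
      |∑ A ∈ (range (2 * k)).powersetCard k, if typ k r (sq s A) ∈ t then (1 : ℝ) else -1| ≤
        x + ((range (2 * k)).powerset.filter fun A => ¬ Good (2 * k) K A).card := by
  set Gd := ((range (2 * k)).powersetCard k).filter (Good (2 * k) K) with hGd
  set M : ℝ := 2 ^ m * 2 ^ (2 * k) / s0 ^ m with hM
  set J := (univ : Finset (Fin r → Fin (2 * k) → Fin (2 * k) → Fin (2 * k))).filter fun tab =>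
    ∀ τ, ((Gd.filter fun A => typD k r (ext tab) A = τ).card : ℝ) ≤ M
  obtain ⟨t, ht⟩ := exists_col J (fun tab A => typD k r (ext tab) A) Gd M
    ((2 * k).choose k : ℕ) x (by positivity)
    (by exact_mod_cast Nat.choose_pos (by omega)) hx
    (by
      have := card_filter_le ((range (2 * k)).powersetCard k) (Good (2 * k) K)
      rw [card_powersetCard, card_range] at this
      exact_mod_cast this)
    (fun i hi => (mem_filter.1 hi).2)
    (by
      refine lt_of_le_of_lt (mul_le_mul_of_nonneg_right ?_ (by positivity)) hJ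
      have := card_filter_le (univ : Finset (Fin r → Fin (2 * k) → Fin (2 * k) → Fin (2 * k)))
        (fun tab => ∀ τ, ((Gd.filter fun A => typD k r (ext tab) A = τ).card : ℝ) ≤ M)
      simp only [card_univ, Fintype.card_fun, Fintype.card_fin, ← pow_mul] at this
      exact_mod_cast this)
  refine ⟨t, fun s hs' => ?_⟩
  obtain ⟨tab, htab⟩ := pattern s r (2 * k) (by omega)
  have heq : ∀ A ∈ Gd, typ k r (sq s A) = typD k r (ext tab) A := by
    intro A hA
    obtain ⟨a1, a2⟩ := mem_powersetCard.1 (mem_filter.1 hA).1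
    funext j t
    unfold typ typD
    refine decide_eq_decide.2 (and_congr_right fun _ => htab (el A) (fun t => ?_) j (by omega) t)
    by_cases h : t < A.card
    · exact mem_range.1 (a1 (el_mem A h))
    · rw [el_of_le A (not_lt.1 h)]; omega
  have hJt : tab ∈ J := by
    refine mem_filter.2 ⟨mem_univ _, fun τ => ?_⟩
    have hF : Fam s k r K (Gd.filter fun A => typD k r (ext tab) A = τ) := by
      refine ⟨fun A hA => (mem_powersetCard.1 (mem_filter.1 (mem_filter.1 hA).1).1).2,
        fun A hA => (mem_powersetCard.1 (mem_filter.1 (mem_filter.1 hA).1).1).1,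
        fun A hA => (mem_filter.1 (mem_filter.1 hA).1).2, fun A hA B hB j hj t ht => ?_, hs'⟩
      obtain ⟨a1, a2⟩ := mem_filter.1 hA
      obtain ⟨b1, b2⟩ := mem_filter.1 hB
      have := congrFun (congrFun ((heq A a1).trans (a2.trans (b2.symm.trans (heq B b1).symm)))
        ⟨j, by omega⟩) ⟨t, by omega⟩
      unfold typ at this
      have := decide_eq_decide.1 this
      simpa [ht] using this
    have := (Nat.cast_le (α := ℝ)).2 (hF.fibre m u s0 hb hs hu hr)
    push_cast at this
    rw [hM, le_div_iff₀ (by positivity)]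
    linarith
  have h1 := ht tab hJt
  rw [← sum_filter_add_sum_filter_not _ (Good (2 * k) K)]
  refine (abs_add_le _ _).trans (add_le_add ?_ ?_)
  · rw [sum_congr rfl fun A hA => by rw [heq A hA]]
    exact h1
  · refine (abs_sum_le_sum_abs _ _).trans ((sum_le_card_nsmul _ _ 1 fun A _ => by
      split_ifs <;> norm_num).trans ?_)
    rw [nsmul_eq_mul, mul_one]
    exact_mod_cast card_le_card (filter_subset_filter _ fun A hA =>
      mem_powerset.2 (mem_powersetCard.1 hA).1)

end Pool.Agent.H18.Disc
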