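import Pool.Agent.H18.Disc4

set_option autoImplicit false

namespace Pool.Agent.H18.Disc

open Finset

theorem cb (k : ℕ) (hk : 0 < k) : (2 : ℝ) ^ (2 * k) ≤ 2 * k * ((2 * k).choose k : ℕ) := by
  have := Nat.four_pow_le_two_mul_self_mul_centralBinom k hk
  rw [Nat.centralBinom_eq_two_mul_choose] at this
  rw [pow_mul]
  norm_num
  exact_mod_cast this

theorem est1 (δ : ℝ) (hδ : 0 < δ) (m k r : ℕ) (hm : 1 ≤ m) (hk0 : 0 < k) (hk : k ≤ 128 * m ^ 7)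
    (hr : r ≤ k) (hC : 10 * 2 ^ 57 / δ ^ 2 ≤ m) :
    ((2 * k : ℕ) : ℝ) ^ (2 * k * (2 * k) * r) * (2 * Real.exp (-((δ / 2 * ((2 * k).choose k : ℕ)) ^ 2 /
      (2 * ((2 ^ 18 * 2 ^ (2 * k) / ((m ^ 2 : ℕ) : ℝ) ^ 18) * ((2 * k).choose k : ℕ)))))) < 1 := by
  have h1 := cb k hk0
  have hC0 : (0 : ℝ) < ((2 * k).choose k : ℕ) := by exact_mod_cast Nat.choose_pos (by omega)
  generalize (((2 * k).choose k : ℕ) : ℝ) = C at h1 hC0
  have hP : (0 : ℝ) < 2 ^ (2 * k) := by positivity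
  generalize (2 : ℝ) ^ (2 * k) = P at h1 hP
  have hm' : (1 : ℝ) ≤ m := by exact_mod_cast hm
  have hk' : (1 : ℝ) ≤ k := by exact_mod_cast hk0
  have hk2 : (k : ℝ) ≤ 128 * m ^ 7 := by exact_mod_cast hk
  have hr' : (r : ℝ) ≤ k := by exact_mod_cast hr
  have h2 : 10 * (k : ℝ) ^ 4 ≤ (δ / 2 * C) ^ 2 / (2 * ((2 ^ 18 * P / ((m ^ 2 : ℕ) : ℝ) ^ 18) * C)) := by
    have e : (δ / 2 * C) ^ 2 / (2 * ((2 ^ 18 * P / ((m ^ 2 : ℕ) : ℝ) ^ 18) * C)) =
        δ ^ 2 * m ^ 36 * C / (2 ^ 21 * P) := by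
      push_cast; field_simp
    rw [e, le_div_iff₀ (by positivity)]
    rw [div_le_iff₀ (by positivity)] at hC
    have a1 : (k : ℝ) ^ 5 ≤ (128 * m ^ 7) ^ 5 := pow_le_pow_left₀ (by positivity) hk2 5
    have a2 : (10 * 2 ^ 22 : ℝ) * k ^ 5 ≤ δ ^ 2 * m ^ 36 := by
      calc (10 * 2 ^ 22 : ℝ) * k ^ 5 ≤ 10 * 2 ^ 22 * (128 * (m : ℝ) ^ 7) ^ 5 := by gcongr
        _ = 10 * 2 ^ 57 * (m : ℝ) ^ 35 := by ring
        _ ≤ m * δ ^ 2 * (m : ℝ) ^ 35 := by gcongr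
        _ = _ := by ring
    calc 10 * (k : ℝ) ^ 4 * (2 ^ 21 * P) ≤ 10 * (k : ℝ) ^ 4 * (2 ^ 21 * (2 * k * C)) := by gcongr
      _ = 10 * 2 ^ 22 * k ^ 5 * C := by ring
      _ ≤ _ := by gcongr
  have h3 : ((2 * k : ℕ) : ℝ) ^ (2 * k * (2 * k) * r) ≤ Real.exp (8 * (k : ℝ) ^ 4) := by
    have a1 : ((2 * k : ℕ) : ℝ) ≤ Real.exp (2 * k) := by
      have := Real.add_one_le_exp (2 * k : ℝ)
      push_cast; linarith
    calc _ ≤ Real.exp (2 * k) ^ (2 * k * (2 * k) * r) := pow_le_pow_left₀ (by positivity) a1 _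
      _ = Real.exp ((2 * k * (2 * k) * r : ℕ) * (2 * k)) := (Real.exp_nat_mul _ _).symm
      _ ≤ _ := by
        refine Real.exp_le_exp.2 ?_
        push_cast
        calc (2 * k * (2 * k) * r * (2 * k) : ℝ) ≤ 2 * k * (2 * k) * k * (2 * k) := by gcongr
          _ = _ := by ring
  have h4 : (1 : ℝ) ≤ k ^ 4 := one_le_pow₀ hk'
  have h5 : (3 : ℝ) ≤ Real.exp 2 := by have := Real.add_one_le_exp (2 : ℝ); linarith
  calc _ ≤ Real.exp (8 * (k : ℝ) ^ 4) * (2 * Real.exp (-(10 * (k : ℝ) ^ 4))) := by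
        gcongr
    _ = 2 * Real.exp (8 * (k : ℝ) ^ 4 + -(10 * (k : ℝ) ^ 4)) := by rw [Real.exp_add]; ring
    _ ≤ 2 * Real.exp (-2) := by gcongr; linarith
    _ < 1 := by
        rw [Real.exp_neg]
        have := inv_anti₀ (by norm_num : (0 : ℝ) < 3) h5
        linarith

theorem est2 (δ : ℝ) (hδ : 0 < δ) (m k : ℕ) (hm : 1 ≤ m) (hk0 : 0 < k) (hk : k ≤ 128 * m ^ 7)
    (hC : 24 * 2 ^ 14 * (Nat.factorial 15 : ℕ) * 512 ^ 15 / δ ≤ m) :
    (((2 * k : ℕ) : ℝ) + 1) * (2 * (2 ^ (2 * k) *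
      Real.exp (-(((m ^ 4 : ℕ) : ℝ) ^ 2 / (2 * (2 * k : ℕ)))))) ≤ δ / 2 * ((2 * k).choose k : ℕ) := by
  have h1 := cb k hk0
  have hC0 : (0 : ℝ) < ((2 * k).choose k : ℕ) := by exact_mod_cast Nat.choose_pos (by omega)
  generalize (((2 * k).choose k : ℕ) : ℝ) = C at h1 hC0
  have hm' : (1 : ℝ) ≤ m := by exact_mod_cast hm
  have hk' : (1 : ℝ) ≤ k := by exact_mod_cast hk0
  have hk2 : (k : ℝ) ≤ 128 * m ^ 7 := by exact_mod_cast hk
  have hF : (0 : ℝ) < (Nat.factorial 15 : ℕ) := by exact_mod_cast Nat.factorial_pos 15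
  have h2 : (m : ℝ) / 512 ≤ ((m ^ 4 : ℕ) : ℝ) ^ 2 / (2 * (2 * k : ℕ)) := by
    push_cast
    rw [div_le_div_iff₀ (by norm_num) (by positivity)]
    calc (m : ℝ) * (2 * (2 * k)) ≤ m * (2 * (2 * (128 * m ^ 7))) := by gcongr
      _ = _ := by ring
  have h3 := Real.pow_div_factorial_le_exp ((m : ℝ) / 512) (by positivity) 15
  have h4 : Real.exp (-(((m ^ 4 : ℕ) : ℝ) ^ 2 / (2 * (2 * k : ℕ)))) ≤
      (Nat.factorial 15 : ℕ) * 512 ^ 15 / m ^ 15 := by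
    rw [Real.exp_neg]
    refine (inv_anti₀ (by positivity) (h3.trans (Real.exp_le_exp.2 h2))).trans_eq ?_
    field_simp
  generalize Real.exp (-(((m ^ 4 : ℕ) : ℝ) ^ 2 / (2 * (2 * k : ℕ)))) = E at h4
  generalize ((Nat.factorial 15 : ℕ) : ℝ) = F at h4 hC hF
  rw [div_le_iff₀ hδ] at hC
  have h5 : 12 * (k : ℝ) ^ 2 * (F * 512 ^ 15 / m ^ 15) ≤ δ / 2 := by
    rw [← mul_div_assoc, div_le_iff₀ (by positivity)]
    calc 12 * (k : ℝ) ^ 2 * (F * 512 ^ 15) ≤ 12 * (128 * m ^ 7) ^ 2 * (F * 512 ^ 15) := by gcongr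
      _ = 24 * 2 ^ 14 * F * 512 ^ 15 * m ^ 14 / 2 := by ring
      _ ≤ m * δ * m ^ 14 / 2 := by gcongr
      _ = _ := by ring
  calc _ ≤ (3 * k) * (2 * ((2 * k * C) * (F * 512 ^ 15 / m ^ 15))) := by
        by_cases hE : 0 ≤ E
        · gcongr
          push_cast; linarith
        · refine le_trans (mul_nonpos_of_nonneg_of_nonpos (by positivity) ?_) (by positivity)
          have : (2 : ℝ) ^ (2 * k) * E ≤ 0 :=
            mul_nonpos_of_nonneg_of_nonpos (by positivity) (not_le.1 hE).le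
          linarith
    _ = 12 * (k : ℝ) ^ 2 * (F * 512 ^ 15 / m ^ 15) * C := by ring
    _ ≤ _ := by gcongr

theorem exists_root (m0 k : ℕ) (h : m0 ^ 7 ≤ k) : ∃ m, m0 ≤ m ∧ m ^ 7 ≤ k ∧ k < (m + 1) ^ 7 := by
  have hex : ∃ m, k < (m + 1) ^ 7 := ⟨k, (Nat.lt_succ_self k).trans_le (Nat.le_self_pow (by norm_num) _)⟩
  refine ⟨Nat.find hex, ?_, ?_, Nat.find_spec hex⟩
  · by_contra hc
    have := Nat.pow_le_pow_left (show Nat.find hex + 1 ≤ m0 by omega) 7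
    have := Nat.find_spec hex
    omega
  · rcases h0 : Nat.find hex with _ | m
    · simp
    · exact not_lt.1 (Nat.find_min hex (by omega))

theorem main (δ : ℝ) (hδ : 0 < δ) : ∃ k₀ : ℕ, ∀ k : ℕ, k₀ ≤ k → ∀ r, 200 * r ≤ k →
    ∀ N : ℕ, N ≤ tw r → ∃ γ : Finset (Fin N) → Bool, ∀ S : Finset (Fin N), S.card = 2 * k →
      |∑ T ∈ S.powersetCard k, (if γ T then (1 : ℝ) else -1)|
        ≤ δ * ((Nat.choose (2 * k) k : ℕ) : ℝ) := by
  classical
  obtain ⟨m1, hm1⟩ := exists_nat_ge (10 * 2 ^ 57 / δ ^ 2 : ℝ)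
  obtain ⟨m2, hm2⟩ := exists_nat_ge (24 * 2 ^ 14 * (Nat.factorial 15 : ℕ) * 512 ^ 15 / δ : ℝ)
  refine ⟨(m1 + m2 + 1000) ^ 7, fun k hk r hr N hN => ?_⟩
  obtain ⟨m, a1, a2, a3⟩ := exists_root _ k hk
  have a4 : k ≤ 128 * m ^ 7 := by
    have := Nat.pow_le_pow_left (show m + 1 ≤ 2 * m by omega) 7
    rw [mul_pow] at this
    omega
  have b1 : 1000 * m ^ 6 ≤ k := by
    refine le_trans ?_ a2
    rw [show m ^ 7 = m * m ^ 6 by ring]
    exact Nat.mul_le_mul_right _ (by omega)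
  have b2 : m ^ 4 ≤ m ^ 6 := Nat.pow_le_pow_right (by omega) (by norm_num)
  have b3 : 1 ≤ m ^ 4 := Nat.one_le_pow _ _ (by omega)
  have b4 : 8 * m ^ 2 * (m ^ 4 + m ^ 2) = 8 * m ^ 6 + 8 * m ^ 4 := by ring
  have hk0 : 0 < k := by omega
  obtain ⟨t, ht⟩ := core k r (m ^ 4) 18 (k / 36) (m ^ 2) hk0 (by omega) (pow_pos (by omega) 2)
    (by omega) (by omega) (δ / 2 * ((2 * k).choose k : ℕ)) (by positivity)
    (est1 δ hδ m k r (by omega) hk0 a4 (by omega)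
      (hm1.trans (by exact_mod_cast (by omega : m1 ≤ m))))
  refine ⟨fun T => decide (typ k r (el (T.map Fin.valEmbedding)) ∈ t), fun S hS => ?_⟩
  set S' := S.map Fin.valEmbedding with hS'
  have c1 : S'.card = 2 * k := by rw [hS', card_map, hS]
  have c2 : ∀ y ∈ S', y < N := by
    intro y hy
    obtain ⟨z, -, rfl⟩ := mem_map.1 hy
    exact z.2
  have hsm : StrictMono fun x => if x < 2 * k then el S' x else N + x := by
    intro x y hxy
    by_cases hy : y < 2 * k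
    · simp only [if_pos hy, if_pos (hxy.trans hy)]
      exact el_lt S' hxy (by omega)
    · by_cases hx : x < 2 * k
      · simp only [if_neg hy, if_pos hx]
        have := c2 _ (el_mem S' (t := x) (by omega))
        omega
      · simp only [if_neg hy, if_neg hx]; omega
  set s : ℕ ↪o ℕ := OrderEmbedding.ofStrictMono _ hsm
  have hs : ∀ x, x < 2 * k → s x = el S' x := fun x hx => if_pos hx
  have c3 : S' = (range (2 * k)).map s.toEmbedding := by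
    refine (eq_of_subset_of_card_le (fun y hy => ?_) (by simp [c1])).symm
    obtain ⟨x, hx, rfl⟩ := mem_map.1 hy
    have hx' := mem_range.1 hx
    show s x ∈ S'
    rw [hs x hx']
    exact el_mem S' (by omega)
  have h1 := ht s fun y hy => by
    rw [hs y hy]
    exact (c2 _ (el_mem S' (by omega))).trans_le hN
  have h2 := (bad_count (2 * k) (m ^ 4) (by omega)).trans
    (est2 δ hδ m k (by omega) hk0 a4 (hm2.trans (by exact_mod_cast (by omega : m2 ≤ m))))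
  have h3 : ∑ T ∈ S.powersetCard k,
      (if decide (typ k r (el (T.map Fin.valEmbedding)) ∈ t) then (1 : ℝ) else -1) =
      ∑ T ∈ S'.powersetCard k, if typ k r (el T) ∈ t then (1 : ℝ) else -1 := by
    rw [hS', powersetCard_map, sum_map]
    refine sum_congr rfl fun T _ => ?_
    simp only [decide_eq_true_eq]
    rfl
  have h4 : ∑ T ∈ S'.powersetCard k, (if typ k r (el T) ∈ t then (1 : ℝ) else -1) =
      ∑ A ∈ (range (2 * k)).powersetCard k, if typ k r (sq s A) ∈ t then (1 : ℝ) else -1 := by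
    rw [c3, powersetCard_map, sum_map]
    refine sum_congr rfl fun A hA => ?_
    have : typ k r (el (A.map s.toEmbedding)) = typ k r (sq s A) :=
      typ_congr k r _ _ fun t ht => el_map A s (by rw [(mem_powersetCard.1 hA).2]; exact ht)
    rw [← this]; rfl
  rw [h3, h4]
  linarith

end Pool.Agent.H18.Disc
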