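import Mathlib

set_option autoImplicit false

namespace Pool.Agent.H18.Gap

open Finset

/-- strictly increasing with gaps at most linear in the index -/
def Hy (C : ℕ) (b : ℕ → ℕ) : Prop := StrictMono b ∧ ∀ n, b (n + 1) ≤ b n + C * (n + 1)

/-- finite subset sums of a sequence -/
def FS (b : ℕ → ℕ) : Set ℕ := {s | ∃ T : Finset ℕ, s = ∑ i ∈ T, b i}

lemma Hy.add_le {C : ℕ} {b : ℕ → ℕ} (h : Hy C b) (n k : ℕ) :
    b (n + k) ≤ b n + C * k * (n + k) := by
  induction k with
  | zero => simp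
  | succ k ih =>
    have := h.2 (n + k)
    have e : n + (k + 1) = n + k + 1 := by ring
    rw [e]
    nlinarith [Nat.zero_le (C * k), Nat.zero_le C]

lemma Hy.sub {C : ℕ} {b : ℕ → ℕ} (h : Hy C b) (r i : ℕ) (hi : i < r) :
    Hy (2 * C * r * r) (fun n => b (r * n + i)) := by
  refine ⟨fun m n hmn => h.1 ?_, fun n => ?_⟩
  · have : r * m < r * n := Nat.mul_lt_mul_of_pos_left hmn (by omega)
    omega
  · have e : r * (n + 1) + i = (r * n + i) + r := by ring
    simp only
    rw [e]
    have h1 := h.add_le (r * n + i) r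
    have h2 : r * n + i + r ≤ 2 * r * (n + 1) := by nlinarith
    have h3 : C * r * (r * n + i + r) ≤ C * r * (2 * r * (n + 1)) := Nat.mul_le_mul_left _ h2
    nlinarith

lemma Hy.super {C : ℕ} {b : ℕ → ℕ} (h : Hy C b) (D : ℕ) (hD : 0 < D) :
    ∃ C' u, Hy C' u ∧ (∀ n, D ∣ u n) ∧ FS u ⊆ FS b := by
  have key : ∀ m : ℕ, ∃ T : Finset ℕ, T ⊆ Ico (m * (D * D)) ((m + 1) * (D * D)) ∧ T.card = D ∧
      D ∣ ∑ i ∈ T, b i := by
    intro m
    obtain ⟨y, -, hy⟩ := Finset.exists_le_card_fiber_of_mul_le_card_of_maps_to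
      (s := Ico (m * (D * D)) ((m + 1) * (D * D))) (t := range D) (f := fun i => b i % D) (n := D)
      (fun a _ => mem_range.2 (Nat.mod_lt _ hD)) ⟨0, mem_range.2 hD⟩
      (by simp only [card_range, Nat.card_Ico]; apply le_of_eq; rw [add_mul]; omega)
    obtain ⟨T, hT, hc⟩ := Finset.exists_subset_card_eq hy
    refine ⟨T, hT.trans (filter_subset _ _), hc, ?_⟩
    apply Nat.dvd_of_mod_eq_zero
    rw [Finset.sum_nat_mod]
    have : ∑ i ∈ T, b i % D = ∑ i ∈ T, y := sum_congr rfl fun i hi => (mem_filter.1 (hT hi)).2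
    rw [this, sum_const, hc, smul_eq_mul]
    simp
  choose T hT hc hd using key
  have lo : ∀ m, D * b (m * (D * D)) ≤ ∑ i ∈ T m, b i := by
    intro m
    have := Finset.card_nsmul_le_sum (T m) b (b (m * (D * D)))
      (fun i hi => h.1.monotone (mem_Ico.1 (hT m hi)).1)
    rwa [hc, smul_eq_mul] at this
  have hi : ∀ m, ∑ i ∈ T m, b i < D * b ((m + 1) * (D * D)) := by
    intro m
    have hne : (T m).Nonempty := card_pos.1 (by rw [hc]; exact hD)
    have := Finset.sum_lt_sum_of_nonempty hne (f := b) (g := fun _ => b ((m + 1) * (D * D)))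
      (fun i hi => h.1 (mem_Ico.1 (hT m hi)).2)
    rwa [sum_const, hc, smul_eq_mul] at this
  refine ⟨D * (C * (2 * (D * D)) * (2 * (D * D))), fun m => ∑ i ∈ T m, b i, ⟨?_, ?_⟩, hd, ?_⟩
  · exact strictMono_nat_of_lt_succ fun m => (hi m).trans_le (lo (m + 1))
  · intro m
    have h1 := hi (m + 1)
    have h2 := lo m
    have h3 := h.add_le (m * (D * D)) (2 * (D * D))
    have e : (m + 1 + 1) * (D * D) = m * (D * D) + 2 * (D * D) := by ring
    rw [e] at h1
    have h4 : m * (D * D) + 2 * (D * D) ≤ 2 * (D * D) * (m + 1) := by nlinarith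
    have h5 := Nat.mul_le_mul_left (C * (2 * (D * D))) h4
    have h6 : b (m * (D * D) + 2 * (D * D)) ≤
      b (m * (D * D)) + C * (2 * (D * D)) * (2 * (D * D) * (m + 1)) := by omega
    have h7 := Nat.mul_le_mul_left D h6
    simp only
    nlinarith
  · rintro s ⟨S, rfl⟩
    refine ⟨S.biUnion T, ?_⟩
    rw [Finset.sum_biUnion]
    intro m _ n _ hmn
    rw [Function.onFun, Finset.disjoint_left]
    intro x hx hx'
    have h1 := mem_Ico.1 (hT m hx)
    have h2 := mem_Ico.1 (hT n hx')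
    rcases lt_or_gt_of_ne hmn with h3 | h3
    · have : (m + 1) * (D * D) ≤ n * (D * D) := Nat.mul_le_mul_right _ h3
      omega
    · have : (n + 1) * (D * D) ≤ m * (D * D) := Nat.mul_le_mul_right _ h3
      omega

lemma Hy.syn {C : ℕ} {b : ℕ → ℕ} (h : Hy C b) :
    ∃ K, ∀ y, ∃ s ∈ FS b, s ≤ y ∧ y ≤ s + K := by
  have h1 : ∀ m, C * m ≤ ∑ i ∈ range m, b i + C * C := by
    intro m
    induction m with
    | zero => simp
    | succ m ih =>
      rw [sum_range_succ]
      by_cases hm : m < C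
      · have : C * (m + 1) ≤ C * C := Nat.mul_le_mul_left _ hm
        omega
      · have := h.1.id_le m
        simp only [id] at this
        nlinarith
  have h2 : ∀ m, b m ≤ ∑ i ∈ range m, b i + (b 0 + C * C + C) := by
    intro m
    cases m with
    | zero => omega
    | succ m =>
      rw [sum_range_succ]
      have := h.2 m
      have := h1 m
      nlinarith
  have h3 : ∀ m y, y ≤ ∑ i ∈ range m, b i + (b 0 + C * C + C) →
      ∃ T ⊆ range m, ∑ i ∈ T, b i ≤ y ∧ y ≤ ∑ i ∈ T, b i + (b 0 + C * C + C) := by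
    intro m
    induction m with
    | zero => intro y hy; exact ⟨∅, by simp, by simp, by simpa using hy⟩
    | succ m ih =>
      intro y hy
      by_cases hc : y ≤ ∑ i ∈ range m, b i + (b 0 + C * C + C)
      · obtain ⟨T, hT, h4⟩ := ih y hc
        exact ⟨T, hT.trans (range_subset_range.2 (by omega)), h4⟩
      · rw [sum_range_succ] at hy
        have := h2 m
        obtain ⟨T, hT, h4, h5⟩ := ih (y - b m) (by omega)
        have hm : m ∉ T := fun hh => by simpa using hT hh
        refine ⟨insert m T, ?_, ?_, ?_⟩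
        · intro x hx
          rcases mem_insert.1 hx with rfl | hx
          · simp
          · have := mem_range.1 (hT hx)
            exact mem_range.2 (by omega)
        · rw [sum_insert hm]; omega
        · rw [sum_insert hm]; omega
  refine ⟨b 0 + C * C + C, fun y => ?_⟩
  obtain ⟨T, -, h4, h5⟩ := h3 (y + 1) y (by
    rw [sum_range_succ]
    have := h.1.id_le y
    simp only [id] at this
    omega)
  exact ⟨_, ⟨T, rfl⟩, h4, h5⟩

/-- subset sums modulo `f` -/
def SM (z : ℕ → ℕ) (f : ℕ) (P : Finset ℕ) : Finset (ZMod f) := by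
  classical
  exact P.powerset.image fun T => ((∑ i ∈ T, z i : ℕ) : ZMod f)

lemma mem_SM {z : ℕ → ℕ} {f : ℕ} {P : Finset ℕ} {y : ZMod f} :
    y ∈ SM z f P ↔ ∃ T ⊆ P, ((∑ i ∈ T, z i : ℕ) : ZMod f) = y := by
  simp [SM]

lemma SM_insert {z : ℕ → ℕ} {f : ℕ} {P : Finset ℕ} {n : ℕ} (hn : n ∉ P) {y : ZMod f} :
    y ∈ SM z f (insert n P) ↔ y ∈ SM z f P ∨ ∃ w ∈ SM z f P, y = w + (z n : ZMod f) := by
  simp only [mem_SM]
  constructor
  · rintro ⟨T, hT, rfl⟩
    by_cases h : n ∈ T
    · right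
      refine ⟨_, ⟨T.erase n, ?_, rfl⟩, ?_⟩
      · intro x hx
        have := hT (mem_of_mem_erase hx)
        rcases mem_insert.1 this with h1 | h1
        · exact absurd h1 (ne_of_mem_erase hx)
        · exact h1
      · rw [← Finset.sum_erase_add _ _ h]; push_cast; ring
    · left
      refine ⟨T, fun x hx => ?_, rfl⟩
      rcases mem_insert.1 (hT hx) with h1 | h1
      · exact absurd (h1 ▸ hx) h
      · exact h1
  · rintro (⟨T, hT, rfl⟩ | ⟨w, ⟨T, hT, rfl⟩, rfl⟩)
    · exact ⟨T, hT.trans (subset_insert _ _), rfl⟩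
    · refine ⟨insert n T, insert_subset_insert _ hT, ?_⟩
      rw [sum_insert (fun h => hn (hT h))]; push_cast; ring

lemma aper (z : ℕ → ℕ) (f : ℕ) (P : Finset ℕ)
    (h : ∀ s : ℕ, (∀ y ∈ SM z f P, y + (s : ZMod f) ∈ SM z f P) → f ∣ s) :
    1 + (P.filter fun n => ¬ f ∣ z n).card ≤ (SM z f P).card := by
  induction P using Finset.induction_on with
  | empty =>
    simp only [filter_empty, card_empty, add_zero]
    exact card_pos.2 ⟨_, mem_SM.2 ⟨∅, Subset.refl _, rfl⟩⟩
  | insert n P hn ih =>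
    have h' : ∀ s : ℕ, (∀ y ∈ SM z f P, y + (s : ZMod f) ∈ SM z f P) → f ∣ s := by
      intro s hs
      apply h s
      intro y hy
      rw [SM_insert hn] at hy ⊢
      rcases hy with hy | ⟨w, hw, rfl⟩
      · exact Or.inl (hs y hy)
      · exact Or.inr ⟨_, hs w hw, by ring⟩
    have ih := ih h'
    have hsub : SM z f P ⊆ SM z f (insert n P) := fun y hy => (SM_insert hn).2 (Or.inl hy)
    rw [filter_insert]
    split_ifs with hz
    · exact ih.trans (card_le_card hsub)
    · rw [card_insert_of_notMem (fun hh => hn (mem_filter.1 hh).1)]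
      have : ¬ ∀ y ∈ SM z f P, y + (z n : ZMod f) ∈ SM z f P := fun hh => hz (h' _ hh)
      push Not at this
      obtain ⟨y, hy, hy'⟩ := this
      have : SM z f P ⊂ SM z f (insert n P) :=
        ⟨hsub, fun hh => hy' (hh ((SM_insert hn).2 (Or.inr ⟨y, hy, rfl⟩)))⟩
      have := card_lt_card this
      omega

lemma cover (z : ℕ → ℕ) (P : Finset ℕ) (f : ℕ) (hf : 0 < f)
    (h : ∀ f', f' ∣ f → f' ≤ 1 + (P.filter fun n => ¬ f' ∣ z n).card) (y : ℕ) :
    ∃ T ⊆ P, (∑ i ∈ T, z i) ≡ y [MOD f] := by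
  induction f using Nat.strong_induction_on generalizing y with
  | _ f ih =>
    haveI : NeZero f := ⟨hf.ne'⟩
    by_cases hc : ∀ s : ℕ, (∀ y ∈ SM z f P, y + (s : ZMod f) ∈ SM z f P) → f ∣ s
    · have h1 := (h f dvd_rfl).trans (aper z f P hc)
      have h2 : SM z f P = univ := by
        apply Finset.eq_univ_of_card
        have := card_le_univ (SM z f P)
        rw [ZMod.card] at this ⊢
        omega
      obtain ⟨T, hT, h3⟩ := mem_SM.1 (h2 ▸ mem_univ (y : ZMod f))
      exact ⟨T, hT, (ZMod.natCast_eq_natCast_iff _ _ _).1 h3⟩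
    · push Not at hc
      obtain ⟨s, hs, hns⟩ := hc
      have hmul : ∀ k : ℕ, ∀ w ∈ SM z f P, w + ((k * s : ℕ) : ZMod f) ∈ SM z f P := by
        intro k
        induction k with
        | zero => intro w hw; simpa using hw
        | succ k ihk =>
          intro w hw
          have := hs _ (ihk w hw)
          convert this using 1
          push_cast; ring
      have hg : Nat.gcd s f < f :=
        lt_of_le_of_ne (Nat.gcd_le_right _ hf) fun hh => hns (hh ▸ Nat.gcd_dvd_left s f)
      have hg0 : 0 < Nat.gcd s f := Nat.gcd_pos_of_pos_right _ hf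
      obtain ⟨T, hT, hy⟩ := ih _ hg hg0
        (fun f' hf' => h f' (hf'.trans (Nat.gcd_dvd_right s f))) y
      obtain ⟨v, hv⟩ := (Nat.modEq_iff_dvd.1 hy)
      have hb := Nat.gcd_eq_gcd_ab s f
      have h4 : (y : ZMod f) = ((∑ i ∈ T, z i : ℕ) : ZMod f) +
          ((((Nat.gcdA s f * v : ℤ) : ZMod f).val * s : ℕ) : ZMod f) := by
        have h5 : ((y : ℤ) : ZMod f) = (((∑ i ∈ T, z i : ℕ) : ℤ) : ZMod f) +
            (((s * Nat.gcdA s f + f * Nat.gcdB s f) * v : ℤ) : ZMod f) := by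
          rw [← hb, ← hv]; push_cast; ring
        rw [Int.cast_natCast, Int.cast_natCast] at h5
        rw [h5, Nat.cast_mul, ZMod.natCast_val, ZMod.cast_id', id]
        push_cast
        rw [ZMod.natCast_self]
        ring
      obtain ⟨T', hT', h6⟩ := mem_SM.1 (h4 ▸ hmul _ _ (mem_SM.2 ⟨T, hT, rfl⟩))
      exact ⟨T', hT', (ZMod.natCast_eq_natCast_iff _ _ _).1 h6⟩

end Pool.Agent.H18.Gap
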