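import Pool.Agent.H18.Gap1

set_option autoImplicit false

namespace Pool.Agent.H18.Gap

open Finset Filter Topology

lemma Hy.lower {C : ℕ} {c : ℕ → ℕ} (h : Hy C c) (e : ℕ) (F : Finset ℕ)
    (hF : ∀ n, ¬ e ∣ c n → n ∈ F) : e / (2 * C) ≤ F.card := by
  have : range (e / (2 * C)) ⊆ F.image (· / 2) := by
    intro i hi
    have hi := mem_range.1 hi
    have h1 : (i + 1) * (2 * C) ≤ e := le_trans (Nat.mul_le_mul_right _ hi) (Nat.div_mul_le_self _ _)
    have h2 := h.2 (2 * i)
    have h3 := h.1 (show 2 * i < 2 * i + 1 by omega)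
    have hC : 0 < C := by
      rcases Nat.eq_zero_or_pos C with h0 | h0
      · subst h0; simp at hi
      · exact h0
    by_cases a1 : e ∣ c (2 * i)
    · by_cases a2 : e ∣ c (2 * i + 1)
      · have := Nat.le_of_dvd (by omega) (Nat.dvd_sub a2 a1)
        nlinarith [Nat.sub_add_cancel h3.le]
      · exact mem_image.2 ⟨_, hF _ a2, by omega⟩
    · exact mem_image.2 ⟨_, hF _ a1, by omega⟩
  have h2 := card_le_card this
  rw [card_range] at h2
  exact h2.trans card_image_le

lemma Hy.estar {C : ℕ} {c : ℕ → ℕ} (h : Hy C c) :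
    ∃ e, 0 < e ∧ {n | ¬ e ∣ c n}.Finite ∧ ∀ f, 0 < f → ∃ P : Finset ℕ,
      (∀ n ∈ P, e ∣ c n ∧ ¬ e * f ∣ c n) ∧ f ≤ 1 + P.card := by
  classical
  have hC : 0 < C := by
    have := h.2 0
    have := h.1 (show 0 < 0 + 1 by omega)
    omega
  have hinf : ∀ e f, {n | ¬ e ∣ c n}.Finite → ¬ {n | ¬ e * f ∣ c n}.Finite → ∃ P : Finset ℕ,
      (∀ n ∈ P, e ∣ c n ∧ ¬ e * f ∣ c n) ∧ f ≤ 1 + P.card := by
    intro e f h1 h2
    have h3 : ({n | ¬ e * f ∣ c n} \ {n | ¬ e ∣ c n}).Infinite := Set.Infinite.diff h2 h1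
    obtain ⟨P, hP, hc⟩ := h3.exists_subset_card_eq f
    refine ⟨P, fun n hn => ?_, by omega⟩
    have := hP hn
    simp only [Set.mem_diff, Set.mem_setOf_eq, not_not] at this
    exact ⟨this.2, this.1⟩
  by_cases hE : ∃ e, 4 * C ≤ e ∧ {n | ¬ e ∣ c n}.Finite
  · let N : ℕ → ℕ := fun e => if he : {n | ¬ e ∣ c n}.Finite then he.toFinset.card else 0
    obtain ⟨z, ⟨e, he1, he2, rfl⟩, hz⟩ := Int.exists_greatest_of_bdd
      (P := fun z => ∃ e, 4 * C ≤ e ∧ {n | ¬ e ∣ c n}.Finite ∧ z = (e : ℤ) - 4 * C * N e)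
      ⟨4 * C, by
        rintro z ⟨e, he1, he2, rfl⟩
        have h1 := h.lower e he2.toFinset (fun n hn => by simpa using hn)
        have h2 : N e = he2.toFinset.card := by simp only [N, dif_pos he2]
        have h3 := Nat.lt_div_mul_add (a := e) (show 0 < 2 * C by omega)
        rw [← h2] at h1
        have h4 : e / (2 * C) * (2 * C) ≤ N e * (2 * C) := Nat.mul_le_mul_right _ h1
        have h5 : e ≤ 4 * C * N e + 4 * C := by nlinarith
        have h6 : (e : ℤ) ≤ 4 * C * N e + 4 * C := by exact_mod_cast h5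
        linarith⟩
      (by obtain ⟨e, he1, he2⟩ := hE; exact ⟨_, e, he1, he2, rfl⟩)
    refine ⟨e, by omega, he2, fun f hf => ?_⟩
    by_cases h2 : {n | ¬ e * f ∣ c n}.Finite
    · have h3 := hz _ ⟨e * f, he1.trans (Nat.le_mul_of_pos_right _ hf), h2, rfl⟩
      have h4 : N e = he2.toFinset.card := by simp only [N, dif_pos he2]
      have h5 : N (e * f) = h2.toFinset.card := by simp only [N, dif_pos h2]
      have hsub : he2.toFinset ⊆ h2.toFinset := by
        intro n hn
        simp only [Set.Finite.mem_toFinset, Set.mem_setOf_eq] at hn ⊢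
        exact fun hh => hn (Dvd.dvd.trans (Dvd.intro _ rfl) hh)
      refine ⟨h2.toFinset \ he2.toFinset, fun n hn => ?_, ?_⟩
      · have h7 := Finset.mem_sdiff.1 hn
        rw [Set.Finite.mem_toFinset, Set.Finite.mem_toFinset] at h7
        exact ⟨not_not.1 h7.2, h7.1⟩
      · have h6 := card_sdiff_add_card_eq_card hsub
        rw [← h4, ← h5] at h6
        set p := (h2.toFinset \ he2.toFinset).card
        rw [← h6] at h3
        push_cast at h3
        obtain ⟨g, rfl⟩ : ∃ g, f = g + 1 := ⟨f - 1, by omega⟩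
        have h7 : (4 * C : ℤ) ≤ e := by exact_mod_cast he1
        have h8 : (0 : ℤ) < C := by exact_mod_cast hC
        have h9 : (g : ℤ) ≤ p := by
          by_contra hh
          push Not at hh
          push_cast at h3
          have : (0 : ℤ) ≤ p := Int.natCast_nonneg _
          nlinarith
        omega
    · exact hinf e f he2 h2
  · push Not at hE
    obtain ⟨z, ⟨e, he1, he2, rfl⟩, hz⟩ := Int.exists_greatest_of_bdd
      (P := fun z => ∃ e : ℕ, 0 < e ∧ {n | ¬ e ∣ c n}.Finite ∧ z = (e : ℤ))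
      ⟨4 * C, by
        rintro z ⟨e, he1, he2, rfl⟩
        by_contra hh
        exact hE e (by omega) he2⟩
      ⟨_, 1, one_pos, by simp, rfl⟩
    refine ⟨e, he1, he2, fun f hf => ?_⟩
    by_cases h2 : {n | ¬ e * f ∣ c n}.Finite
    · have h3 := hz _ ⟨e * f, Nat.mul_pos he1 hf, h2, rfl⟩
      have h4 : e * f ≤ e := by exact_mod_cast h3
      have : f ≤ 1 := by nlinarith
      exact ⟨∅, by simp, by omega⟩
    · exact hinf e f he2 h2

lemma Hy.cov {C : ℕ} {c : ℕ → ℕ} (h : Hy C c) :
    ∃ e, 0 < e ∧ {n | ¬ e ∣ c n}.Finite ∧ ∀ f, 0 < f → ∃ P : Finset ℕ, ∀ y, e ∣ y →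
      ∃ T ⊆ P, (∑ i ∈ T, c i) ≡ y [MOD e * f] := by
  classical
  obtain ⟨e, he, hfin, hP⟩ := h.estar
  refine ⟨e, he, hfin, fun f hf => ?_⟩
  choose! Q hQ1 hQ2 using hP
  have hall : ∀ n ∈ f.divisors.biUnion Q, e ∣ c n := by
    intro n hn
    obtain ⟨f', hf', hn⟩ := mem_biUnion.1 hn
    exact (hQ1 f' (Nat.pos_of_mem_divisors hf') n hn).1
  refine ⟨f.divisors.biUnion Q, ?_⟩
  rintro y ⟨y, rfl⟩
  obtain ⟨T, hT, h2⟩ := cover (fun n => c n / e) (f.divisors.biUnion Q) f hf (by
    intro f' hf'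
    have hf0 : 0 < f' := Nat.pos_of_dvd_of_pos hf' hf
    refine (hQ2 f' hf0).trans (Nat.add_le_add_left (card_le_card ?_) _)
    intro n hn
    refine mem_filter.2 ⟨mem_biUnion.2 ⟨f', Nat.mem_divisors.2 ⟨hf', hf.ne'⟩, hn⟩, fun hh => ?_⟩
    obtain ⟨h3, h4⟩ := hQ1 f' hf0 n hn
    apply h4
    obtain ⟨w, hw⟩ := h3
    rw [hw, Nat.mul_div_cancel_left _ he] at hh
    rw [hw]
    exact Nat.mul_dvd_mul_left _ hh) y
  refine ⟨T, hT, ?_⟩
  have : ∑ i ∈ T, c i = e * ∑ i ∈ T, c i / e := by
    rw [mul_sum]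
    exact sum_congr rfl fun i hi => (Nat.mul_div_cancel' (hall i (hT hi))).symm
  rw [this]
  exact Nat.ModEq.mul_left' e h2

open Classical in
/-- counting function -/
noncomputable def cnt (X : Set ℕ) (L : ℕ) : ℕ := ((range L).filter (· ∈ X)).card

lemma ex_mu (X : Set ℕ) : ∃ x : ℝ,
    Tendsto (fun L : ℕ => (cnt X L : ℝ) / L) (hyperfilter ℕ : Filter ℕ) (𝓝 x) := by
  obtain ⟨x, -, hx⟩ := (isCompact_Icc (a := (0 : ℝ)) (b := 1)).ultrafilter_le_nhds
    ((hyperfilter ℕ).map fun L : ℕ => (cnt X L : ℝ) / L) (by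
      rw [Ultrafilter.coe_map, le_principal_iff, Filter.mem_map]
      apply univ_mem'
      intro L
      refine ⟨by positivity, ?_⟩
      apply div_le_one_of_le₀ _ (Nat.cast_nonneg _)
      have : cnt X L ≤ L := by
        classical
        unfold cnt
        exact (card_filter_le _ _).trans (card_range L).le
      exact_mod_cast this)
  exact ⟨x, hx⟩

/-- ultrafilter density -/
noncomputable def mu (X : Set ℕ) : ℝ := (ex_mu X).choose

lemma tend (X : Set ℕ) :
    Tendsto (fun L : ℕ => (cnt X L : ℝ) / L) (hyperfilter ℕ : Filter ℕ) (𝓝 (mu X)) :=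
  (ex_mu X).choose_spec

lemma hle : (hyperfilter ℕ : Filter ℕ) ≤ atTop := by
  rw [← Nat.cofinite_eq_atTop]; exact hyperfilter_le_cofinite

lemma tendc (c : ℝ) : Tendsto (fun L : ℕ => c / L) (hyperfilter ℕ : Filter ℕ) (𝓝 0) :=
  (tendsto_const_div_atTop_nhds_zero_nat c).mono_left hle

lemma mu_gen {ι : Type} (s : Finset ι) (X : ι → Set ℕ) (Y Z : Set ℕ) (p q c : ℝ)
    (h : ∀ L, ∑ i ∈ s, (cnt (X i) L : ℝ) ≤ p * cnt Y L + q * cnt Z L + c) :
    ∑ i ∈ s, mu (X i) ≤ p * mu Y + q * mu Z := by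
  have h1 := tendsto_finsetSum s fun i _ => tend (X i)
  have h2 := (((tend Y).const_mul p).add ((tend Z).const_mul q)).add (tendc c)
  rw [add_zero] at h2
  refine le_of_tendsto_of_tendsto' h1 h2 fun L => ?_
  rw [← sum_div, ← mul_div_assoc, ← mul_div_assoc, ← add_div, ← add_div]
  exact div_le_div_of_nonneg_right (h L) (Nat.cast_nonneg _)

lemma mu_one (X Y Z : Set ℕ) (c : ℕ) (h : ∀ L, cnt X L ≤ cnt Y L + cnt Z L + c) :
    mu X ≤ mu Y + mu Z := by
  have := mu_gen ({()} : Finset Unit) (fun _ => X) Y Z 1 1 c (fun L => by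
    simp only [sum_singleton, one_mul]; exact_mod_cast h L)
  simpa using this

lemma mu_empty : mu ∅ = 0 := by
  have := tend ∅
  simp only [cnt, Set.mem_empty_iff_false, filter_false, card_empty, Nat.cast_zero, zero_div] at this
  exact (tendsto_nhds_unique tendsto_const_nhds this).symm

lemma mu_univ : mu Set.univ = 1 := by
  have := tend Set.univ
  simp only [cnt, Set.mem_univ, filter_true, card_range] at this
  refine tendsto_nhds_unique this (Tendsto.mono_left ?_ hle)
  refine tendsto_const_nhds.congr' ?_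
  filter_upwards [eventually_gt_atTop 0] with L hL
  rw [div_self]; positivity

lemma mu_sub {X Y Z : Set ℕ} (h : X ⊆ Y ∪ Z) : mu X ≤ mu Y + mu Z := by
  classical
  refine mu_one X Y Z 0 fun L => ?_
  unfold cnt
  refine le_trans (card_le_card ?_) (card_union_le _ _)
  intro x hx
  simp only [mem_filter, mem_union] at hx ⊢
  rcases h hx.2 with h1 | h1
  · exact Or.inl ⟨hx.1, h1⟩
  · exact Or.inr ⟨hx.1, h1⟩

lemma mu_mono {X Y : Set ℕ} (h : X ⊆ Y) : mu X ≤ mu Y := by
  have := mu_sub (X := X) (Y := Y) (Z := ∅) (by simpa using h)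
  rwa [mu_empty, add_zero] at this

lemma mu_shift (X : Set ℕ) (t : ℕ) : mu {x | x + t ∈ X} = mu X := by
  classical
  have key : ∀ L, cnt {x | x + t ∈ X} L + cnt X t = cnt X (L + t) := by
    intro L
    induction L with
    | zero => simp [cnt]
    | succ L ih =>
      have e : L + 1 + t = L + t + 1 := by ring
      rw [e]
      unfold cnt at ih ⊢
      rw [range_add_one, range_add_one (n := L + t), filter_insert, filter_insert]
      simp only [Set.mem_setOf_eq] at ih ⊢
      split_ifs with h1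
      · rw [card_insert_of_notMem (by simp), card_insert_of_notMem (by simp)]; omega
      · exact ih
  have k2 : ∀ L s, cnt X L ≤ cnt X (L + s) ∧ cnt X (L + s) ≤ cnt X L + s := by
    intro L s
    induction s with
    | zero => simp
    | succ s ih =>
      rw [← add_assoc]
      unfold cnt at ih ⊢
      rw [range_add_one, filter_insert]
      split_ifs with h1
      · rw [card_insert_of_notMem (by simp)]; omega
      · omega
  have k3 : cnt X t ≤ t := by
    have := (k2 0 t).2
    simpa [cnt] using this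
  apply le_antisymm
  · have := mu_one {x | x + t ∈ X} X ∅ t (fun L => by
      have := key L; have := k2 L t; omega)
    rwa [mu_empty, add_zero] at this
  · have := mu_one X {x | x + t ∈ X} ∅ t (fun L => by
      have := key L; have := k2 L t; omega)
    rwa [mu_empty, add_zero] at this

lemma mu_avg {ι : Type} (s : Finset ι) (X : ι → Set ℕ) (Y : Set ℕ) (q : ℝ)
    (h1 : ∀ i ∈ s, X i ⊆ Y)
    (h2 : ∀ x ∈ Y, ∀ T ⊆ s, (∀ i ∈ T, x ∈ X i) → (T.card : ℝ) ≤ q) :
    ∑ i ∈ s, mu (X i) ≤ q * mu Y := by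
  classical
  have := mu_gen s X Y ∅ q 0 0 (fun L => by
    simp only [zero_mul, add_zero]
    unfold cnt
    simp only [card_filter]
    push_cast
    rw [sum_comm, mul_sum]
    refine sum_le_sum fun x _ => ?_
    by_cases hx : x ∈ Y
    · have := h2 x hx (s.filter fun i => x ∈ X i) (filter_subset _ _)
        (fun i hi => (mem_filter.1 hi).2)
      rw [card_filter] at this
      push_cast at this
      simpa [hx] using this
    · rw [if_neg hx, mul_zero]
      apply le_of_eq
      exact sum_eq_zero fun i hi => if_neg fun hh => hx (h1 i hi hh))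
  simpa using this

lemma mu_disj {X Y : Set ℕ} (h : Disjoint X Y) : mu X + mu Y ≤ mu (X ∪ Y) := by
  have := mu_avg (univ : Finset Bool) (fun b => if b then X else Y) (X ∪ Y) 1
    (by intro b _; cases b <;> simp) (by
      intro x _ T _ hT
      have : T.card ≤ 1 := by
        rw [card_le_one]
        intro a ha b hb
        have h1 := hT a ha
        have h2 := hT b hb
        cases a <;> cases b <;> simp at h1 h2 ⊢
        · exact Set.disjoint_left.1 h h2 h1
        · exact Set.disjoint_left.1 h h1 h2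
      exact_mod_cast this)
  simpa using this

lemma mu_syn {X : Set ℕ} {K : ℕ} (h : ∀ y, ∃ s ∈ X, s ≤ y ∧ y ≤ s + K) :
    1 ≤ ((K : ℝ) + 1) * mu X := by
  classical
  have := mu_gen ({()} : Finset Unit) (fun _ => Set.univ) X ∅ ((K : ℝ) + 1) 0 0 (fun L => by
    simp only [sum_singleton, zero_mul, add_zero]
    have h1 : cnt Set.univ L ≤ (K + 1) * cnt X L := by
      have e0 : cnt Set.univ L = (range L).card := by simp [cnt]
      rw [e0]
      unfold cnt
      have : range L ⊆
          ((range L).filter (· ∈ X)).biUnion fun s => Icc s (s + K) := by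
        intro y hy
        obtain ⟨s, hs, h2, h3⟩ := h y
        have := mem_range.1 hy
        exact mem_biUnion.2 ⟨s, mem_filter.2 ⟨mem_range.2 (by omega), hs⟩, mem_Icc.2 ⟨h2, h3⟩⟩
      refine (card_le_card this).trans (card_biUnion_le.trans ?_)
      simp only [Nat.card_Icc]
      rw [sum_congr rfl (g := fun _ => K + 1) (fun s _ => by omega), sum_const, smul_eq_mul,
        mul_comm]
    exact_mod_cast h1)
  simpa [mu_univ] using this

end Pool.Agent.H18.Gap
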