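import Pool.Agent.H18.Gap2

set_option autoImplicit false

namespace Pool.Agent.H18.Gap

open Finset Filter Topology

/-- density of points of `Y` leaving `Z` after a shift by `t` -/
noncomputable def lam (Y Z : Set ℕ) (t : ℕ) : ℝ := mu {x | x ∈ Y ∧ x + t ∉ Z}

lemma mu_nonneg (X : Set ℕ) : 0 ≤ mu X := by
  have := mu_mono (Set.empty_subset X)
  rwa [mu_empty] at this

lemma mu_le_one (X : Set ℕ) : mu X ≤ 1 := by
  have := mu_mono (Set.subset_univ X)
  rwa [mu_univ] at this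

lemma lam_tri (Y W Z : Set ℕ) (s t : ℕ) : lam Y Z (s + t) ≤ lam Y W s + lam W Z t := by
  unfold lam
  rw [← mu_shift {x | x ∈ W ∧ x + t ∉ Z} s]
  apply mu_sub
  rintro x ⟨h1, h2⟩
  by_cases h : x + s ∈ W
  · exact Or.inr ⟨h, by rwa [add_assoc]⟩
  · exact Or.inl ⟨h1, h⟩

lemma lam_mono {Y Y' Z Z' : Set ℕ} (h1 : Y ⊆ Y') (h2 : Z' ⊆ Z) (t : ℕ) :
    lam Y Z t ≤ lam Y' Z' t :=
  mu_mono fun _ hx => ⟨h1 hx.1, fun h => hx.2 (h2 h)⟩

lemma lam_mul (Y : Set ℕ) (u g : ℕ) : lam Y Y (u * g) ≤ u * lam Y Y g := by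
  induction u with
  | zero =>
    simp only [zero_mul, Nat.cast_zero, lam, add_zero, and_not_self, Set.setOf_false, mu_empty]
    exact le_rfl
  | succ u ih =>
    have := lam_tri Y Y Y (u * g) g
    rw [add_mul, one_mul]
    push_cast
    linarith

lemma growth (Y : Set ℕ) (g : ℕ) :
    mu Y + lam Y Y g ≤ mu (Y ∪ {x | ∃ y ∈ Y, x = y + g}) := by
  rw [← mu_shift (Y ∪ {x | ∃ y ∈ Y, x = y + g}) g, ← mu_shift Y g]
  refine (mu_disj ?_).trans (mu_mono ?_)
  · exact Set.disjoint_left.2 fun x h1 h2 => h2.2 h1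
  · rintro x (h | h)
    · exact Or.inl h
    · exact Or.inr ⟨x, h.1, rfl⟩

lemma almost (Y : ℕ → Set ℕ) (g : ℕ → ℕ) (C : ℕ) (hm : Monotone Y) (hg0 : ∀ j, 0 < g j)
    (hg : ∀ j, g j ≤ C * (j + 1))
    (hgr : ∀ j, mu (Y j) + lam (Y j) (Y j) (g j) ≤ mu (Y (j + 1))) (ε : ℝ) (hε : 0 < ε) :
    ∃ j0 d, 0 < d ∧ ∀ t, d ∣ t → ∃ J, lam (Y j0) (Y J) t ≤ ε := by
  have hC : 1 ≤ C := by have := hg 0; have := hg0 0; omega
  have tel : ∀ a n, mu (Y a) + ∑ j ∈ Ico a (a + n), lam (Y j) (Y j) (g j) ≤ mu (Y (a + n)) := by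
    intro a n
    induction n with
    | zero => simp
    | succ n ih =>
      rw [← add_assoc, sum_Ico_succ_top (by omega)]
      have := hgr (a + n)
      linarith
  have pick : ∀ k, ∃ j, 2 ^ k ≤ j ∧ j < 2 ^ (k + 1) ∧
      (2 : ℝ) ^ k * lam (Y j) (Y j) (g j) ≤ mu (Y (2 ^ (k + 1))) - mu (Y (2 ^ k)) := by
    intro k
    have hp : 0 < 2 ^ k := by positivity
    have e : 2 ^ (k + 1) = 2 ^ k + 2 ^ k := by ring
    obtain ⟨j, hj, h⟩ := Finset.exists_le_of_sum_le (s := Ico (2 ^ k) (2 ^ k + 2 ^ k))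
      (f := fun j => (2 : ℝ) ^ k * lam (Y j) (Y j) (g j))
      (g := fun _ => mu (Y (2 ^ k + 2 ^ k)) - mu (Y (2 ^ k))) ⟨2 ^ k, by simp⟩ (by
        rw [← mul_sum, sum_const, Nat.card_Ico, Nat.add_sub_cancel, nsmul_eq_mul]
        push_cast
        have := tel (2 ^ k) (2 ^ k)
        apply mul_le_mul_of_nonneg_left _ (by positivity)
        linarith)
    rw [e]
    exact ⟨j, (mem_Ico.1 hj).1, (mem_Ico.1 hj).2, h⟩
  choose jj hj1 hj2 hj3 using pick
  have hl0 : ∀ k, 0 ≤ lam (Y (jj k)) (Y (jj k)) (g (jj k)) := fun k => mu_nonneg _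
  have step : ∀ k u, u ≤ 4 * C * 2 ^ k → lam (Y (2 ^ k)) (Y (2 ^ (k + 1))) (u * g (jj k)) ≤
      4 * C * (mu (Y (2 ^ (k + 1))) - mu (Y (2 ^ k))) := by
    intro k u hu
    refine (lam_mono (hm (hj1 k)) (hm (hj2 k).le) _).trans ((lam_mul _ _ _).trans ?_)
    have h1 : (u : ℝ) ≤ 4 * C * 2 ^ k := by exact_mod_cast hu
    have h2 := mul_le_mul_of_nonneg_right h1 (hl0 k)
    have h3 := mul_le_mul_of_nonneg_left (hj3 k) (show (0 : ℝ) ≤ 4 * C by positivity)
    nlinarith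
  have main : ∀ N k t, g (jj k) ∣ t → t ≤ 2 ^ (k + N) →
      lam (Y (2 ^ k)) (Y (2 ^ (k + N + 1))) t ≤
        4 * C * (mu (Y (2 ^ (k + N + 1))) - mu (Y (2 ^ k))) := by
    intro N
    induction N with
    | zero =>
      rintro k t ⟨v, rfl⟩ ht
      rw [mul_comm]
      apply step
      have := hg0 (jj k)
      simp only [add_zero] at ht
      nlinarith [Nat.zero_le v, Nat.one_le_two_pow (n := k)]
    | succ N ih =>
      rintro k t ⟨v, rfl⟩ ht
      have hG := hg0 (jj (k + 1))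
      have e : g (jj k) * v = (v % g (jj (k + 1))) * g (jj k) +
          g (jj (k + 1)) * (v / g (jj (k + 1)) * g (jj k)) := by
        conv_lhs => rw [← Nat.mod_add_div v (g (jj (k + 1)))]
        ring
      have e2 : k + (N + 1) = k + 1 + N := by ring
      rw [e2] at ht ⊢
      have h1 := ih (k + 1) (g (jj (k + 1)) * (v / g (jj (k + 1)) * g (jj k))) (Dvd.intro _ rfl)
        (by omega)
      have h2 := step k (v % g (jj (k + 1))) (by
        have a1 := Nat.mod_lt v hG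
        have a2 := hg (jj (k + 1))
        have a3 := hj2 (k + 1)
        have a4 : C * (jj (k + 1) + 1) ≤ C * 2 ^ (k + 1 + 1) := Nat.mul_le_mul_left _ a3
        have a5 : C * 2 ^ (k + 1 + 1) = 4 * C * 2 ^ k := by ring
        omega)
      rw [e]
      have h3 := lam_tri (Y (2 ^ k)) (Y (2 ^ (k + 1))) (Y (2 ^ (k + 1 + N + 1)))
        ((v % g (jj (k + 1))) * g (jj k)) (g (jj (k + 1)) * (v / g (jj (k + 1)) * g (jj k)))
      linarith
  have hbdd : BddAbove (Set.range fun k => mu (Y (2 ^ k))) := ⟨1, by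
    rintro _ ⟨k, rfl⟩; exact mu_le_one _⟩
  have hCp : (0 : ℝ) < 4 * C := by positivity
  obtain ⟨k0, hk0⟩ := exists_lt_of_lt_ciSup (f := fun k => mu (Y (2 ^ k)))
    (show (⨆ k, mu (Y (2 ^ k))) - ε / (4 * C) < ⨆ k, mu (Y (2 ^ k)) by
      have : 0 < ε / (4 * C) := by positivity
      linarith)
  refine ⟨2 ^ k0, g (jj k0), hg0 _, fun t ht => ⟨2 ^ (k0 + t + 1), ?_⟩⟩
  refine (main t k0 t ht ?_).trans ?_
  · exact (Nat.lt_two_pow_self).le.trans (Nat.pow_le_pow_right (by norm_num) (by omega))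
  · have h1 := le_ciSup hbdd (k0 + t + 1)
    have h2 : mu (Y (2 ^ (k0 + t + 1))) - mu (Y (2 ^ k0)) ≤ ε / (4 * C) := by linarith
    have h3 := mul_le_mul_of_nonneg_left h2 hCp.le
    rwa [mul_div_cancel₀ _ hCp.ne'] at h3

/-- growing sets -/
def YY (b : ℕ → ℕ) : ℕ → Set ℕ
  | 0 => FS fun m => b (3 * m + 0)
  | j + 1 => YY b j ∪ {x | ∃ y ∈ YY b j, x = y + (b (3 * j + 2) - b (3 * j + 1))}

lemma YY_sub {b : ℕ → ℕ} (hb : StrictMono b) (j : ℕ) : ∀ y ∈ YY b j, ∃ T : Finset ℕ,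
    (∀ i ∈ T, i % 3 = 0 ∨ i < 3 * j) ∧ y + ∑ i ∈ range j, b (3 * i + 1) = ∑ i ∈ T, b i := by
  induction j with
  | zero =>
    rintro y ⟨T, rfl⟩
    refine ⟨T.image fun m => 3 * m + 0, ?_, ?_⟩
    · intro i hi
      obtain ⟨m, -, rfl⟩ := mem_image.1 hi
      omega
    · rw [sum_image (fun x _ y _ h => by omega)]
      simp
  | succ j ih =>
    rintro y (hy | ⟨y, hy, rfl⟩)
    · obtain ⟨T, h1, h2⟩ := ih y hy
      have hn : 3 * j + 1 ∉ T := fun h => by have := h1 _ h; omega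
      refine ⟨insert (3 * j + 1) T, ?_, ?_⟩
      · intro i hi
        rcases mem_insert.1 hi with rfl | hi
        · omega
        · have := h1 i hi; omega
      · rw [sum_insert hn, sum_range_succ]; omega
    · obtain ⟨T, h1, h2⟩ := ih y hy
      have hn : 3 * j + 2 ∉ T := fun h => by have := h1 _ h; omega
      refine ⟨insert (3 * j + 2) T, ?_, ?_⟩
      · intro i hi
        rcases mem_insert.1 hi with rfl | hi
        · omega
        · have := h1 i hi; omega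
      · rw [sum_insert hn, sum_range_succ]
        have := hb (show 3 * j + 1 < 3 * j + 2 by omega)
        omega

lemma Hy.dense {C : ℕ} {b : ℕ → ℕ} (h : Hy C b) : ∃ d, 0 < d ∧ ∀ D, d ∣ D → ∀ M, ∃ x,
    ∃ T ⊆ range M, (∀ m ∈ T, x + D * m ∈ FS b) ∧ 3 * M ≤ 4 * T.card := by
  classical
  obtain ⟨K, hK⟩ := (h.sub 3 0 (by norm_num)).syn
  have hm : Monotone (YY b) := monotone_nat_of_le_succ fun j => Set.subset_union_left
  have h0 : 1 ≤ ((K : ℝ) + 1) * mu (YY b 0) := mu_syn hK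
  obtain ⟨j0, d, hd, hJ⟩ := almost (YY b) (fun j => b (3 * j + 2) - b (3 * j + 1)) (3 * C) hm
    (fun j => by have := h.1 (show 3 * j + 1 < 3 * j + 2 by omega); omega)
    (fun j => by
      have h1 := h.2 (3 * j + 1)
      have h2 : C * (3 * j + 1 + 1) ≤ 3 * C * (j + 1) := by nlinarith
      have e : 3 * j + 1 + 1 = 3 * j + 2 := by ring
      rw [e] at h1 h2
      omega)
    (fun j => growth _ _) (1 / (4 * ((K : ℝ) + 1))) (by positivity)
  refine ⟨d, hd, fun D hD M => ?_⟩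
  choose J hJ using fun m : ℕ => hJ (D * m) (hD.mul_right m)
  set J0 := (range M).sup J
  by_contra hc
  push Not at hc
  have h1 := mu_avg (range M) (fun m => {x | x ∈ YY b j0 ∧ x + D * m ∈ YY b J0}) (YY b j0)
    ((3 * M - 1) / 4) (fun i _ x hx => hx.1) (by
      intro x _ T hT hT2
      have := hc (x + ∑ i ∈ range J0, b (3 * i + 1)) T hT (by
        intro m hm
        obtain ⟨T', -, h3⟩ := YY_sub h.1 J0 _ (hT2 m hm).2
        exact ⟨T', by omega⟩)
      have h4 : 4 * T.card + 1 ≤ 3 * M := by omega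
      have h5 : (4 : ℝ) * T.card + 1 ≤ 3 * M := by exact_mod_cast h4
      linarith)
  have h2 : ∀ m ∈ range M, mu (YY b j0) - 1 / (4 * ((K : ℝ) + 1)) ≤
      mu {x | x ∈ YY b j0 ∧ x + D * m ∈ YY b J0} := by
    intro m hm'
    have a1 : lam (YY b j0) (YY b J0) (D * m) ≤ lam (YY b j0) (YY b (J m)) (D * m) :=
      lam_mono subset_rfl (hm (le_sup (f := J) hm')) _
    have a2 := hJ m
    have a3 : mu (YY b j0) ≤ mu {x | x ∈ YY b j0 ∧ x + D * m ∈ YY b J0} +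
        lam (YY b j0) (YY b J0) (D * m) := by
      apply mu_sub
      intro x hx
      by_cases hh : x + D * m ∈ YY b J0
      · exact Or.inl ⟨hx, hh⟩
      · exact Or.inr ⟨hx, hh⟩
    linarith
  have h3 := sum_le_sum h2
  rw [sum_const, card_range, nsmul_eq_mul] at h3
  have h4 : mu (YY b 0) ≤ mu (YY b j0) := mu_mono (hm (Nat.zero_le _))
  have h5 : 1 / (4 * ((K : ℝ) + 1)) ≤ mu (YY b j0) / 4 := by
    rw [div_le_div_iff₀ (by positivity) (by positivity)]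
    nlinarith [(Nat.cast_nonneg K : (0 : ℝ) ≤ K)]
  have h6 : (0 : ℝ) < 1 / (4 * ((K : ℝ) + 1)) := by positivity
  have h7 : (0 : ℝ) ≤ M := Nat.cast_nonneg M
  nlinarith

lemma sumset (M : ℕ) (P Q : Finset ℕ) (hP : P ⊆ range M) (hQ : Q ⊆ range M)
    (h1 : 3 * M ≤ 4 * P.card) (h2 : 3 * M ≤ 4 * Q.card) (s : ℕ) (hs : s < M) (hs2 : M < 2 * (s + 1)) :
    ∃ p ∈ P, ∃ q ∈ Q, s = p + q := by
  by_contra hc
  push Not at hc
  have key : ∀ R : Finset ℕ, R ⊆ range M → R.card ≤ (R.filter (· ≤ s)).card + (M - (s + 1)) := by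
    intro R hR
    have : R ⊆ R.filter (· ≤ s) ∪ Ico (s + 1) M := by
      intro x hx
      have := mem_range.1 (hR hx)
      simp only [mem_union, mem_filter, mem_Ico]
      by_cases hh : x ≤ s
      · exact Or.inl ⟨hx, hh⟩
      · exact Or.inr ⟨by omega, this⟩
    have h3 := (card_le_card this).trans (card_union_le _ _)
    rwa [Nat.card_Ico] at h3
  have hd : Disjoint (P.filter (· ≤ s)) ((Q.filter (· ≤ s)).image fun q => s - q) := by
    rw [Finset.disjoint_left]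
    intro x hx hx'
    obtain ⟨q, hq, rfl⟩ := mem_image.1 hx'
    have := (mem_filter.1 hq).2
    exact hc _ (mem_filter.1 hx).1 q (mem_filter.1 hq).1 (by omega)
  have hi : ((Q.filter (· ≤ s)).image fun q => s - q).card = (Q.filter (· ≤ s)).card := by
    apply card_image_of_injOn
    intro x hx y hy hxy
    have := (mem_filter.1 hx).2
    have := (mem_filter.1 hy).2
    simp only at hxy
    omega
  have hu : P.filter (· ≤ s) ∪ ((Q.filter (· ≤ s)).image fun q => s - q) ⊆ range (s + 1) := by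
    intro x hx
    rcases mem_union.1 hx with hx | hx
    · have := (mem_filter.1 hx).2
      exact mem_range.2 (by omega)
    · obtain ⟨q, hq, rfl⟩ := mem_image.1 hx
      exact mem_range.2 (by omega)
  have h3 := card_le_card hu
  rw [card_union_of_disjoint hd, hi, card_range] at h3
  have := key P hP
  have := key Q hQ
  omega

lemma FS_dvd {u : ℕ → ℕ} {e s : ℕ} (h : ∀ n, e ∣ u n) (hs : s ∈ FS u) : e ∣ s := by
  obtain ⟨T, rfl⟩ := hs
  exact dvd_sum fun i _ => h i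

theorem main {C : ℕ} {a : ℕ → ℕ} (h : Hy C a) :
    ∃ n, ∃ T : Finset ℕ, n ∉ T ∧ a n = ∑ i ∈ T, a i := by
  classical
  have h0 := h.sub 4 0 (by norm_num)
  obtain ⟨e, he, hfin, hcov⟩ := h0.cov
  obtain ⟨C1, u1, hu1, hd1, hs1⟩ := (h.sub 4 1 (by norm_num)).super e he
  obtain ⟨C2, u2, hu2, hd2, hs2⟩ := (h.sub 4 2 (by norm_num)).super e he
  obtain ⟨d1, hd10, hA1⟩ := hu1.dense
  obtain ⟨d2, hd20, hA2⟩ := hu2.dense
  have hf : 0 < d1 * d2 := Nat.mul_pos hd10 hd20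
  set D := e * (d1 * d2) with hD
  have hD0 : 0 < D := Nat.mul_pos he hf
  obtain ⟨C3, u3, hu3, hd3, hs3⟩ := (h.sub 4 3 (by norm_num)).super D hD0
  obtain ⟨K, hK⟩ := hu3.syn
  obtain ⟨P, hP⟩ := hcov _ hf
  obtain ⟨x1, T1, hT1, hx1, hc1⟩ := hA1 D ⟨e * d2, by rw [hD]; ring⟩ (2 * K + 2)
  obtain ⟨x2, T2, hT2, hx2, hc2⟩ := hA2 D ⟨e * d1, by rw [hD]; ring⟩ (2 * K + 2)
  have hAP : ∀ m ≤ K, ∃ s1 ∈ FS u1, ∃ s2 ∈ FS u2, x1 + x2 + D * (K + 1) + D * m = s1 + s2 := by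
    intro m hm
    obtain ⟨p, hp, q, hq, hpq⟩ := sumset _ T1 T2 hT1 hT2 hc1 hc2 (K + 1 + m) (by omega) (by omega)
    refine ⟨_, hx1 p hp, _, hx2 q hq, ?_⟩
    rw [add_assoc (x1 + x2), ← mul_add, hpq]; ring
  set x := x1 + x2 + D * (K + 1) with hx
  have hex : e ∣ x := by
    obtain ⟨s1, h1, s2, h2, h3⟩ := hAP 0 (Nat.zero_le _)
    rw [mul_zero, add_zero] at h3
    rw [h3]
    exact dvd_add (FS_dvd hd1 h1) (FS_dvd hd2 h2)
  obtain ⟨B, hB⟩ := hfin.bddAbove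
  set σ := ∑ i ∈ P, a (4 * i + 0) with hσ
  set n := B + P.sup id + x + σ + 1 with hn
  have hen : e ∣ a (4 * n + 0) := by
    by_contra hh
    have := hB (show n ∈ {n | ¬ e ∣ (fun n => a (4 * n + 0)) n} from hh)
    omega
  have hbig : x + σ ≤ a (4 * n + 0) := by
    have := h.1.id_le (4 * n + 0)
    simp only [id] at this
    omega
  obtain ⟨T0, hT0, hm0⟩ := hP (a (4 * n + 0) - x) (Nat.dvd_sub hen hex)
  have ht : ∑ i ∈ T0, a (4 * i + 0) ≤ σ := sum_le_sum_of_subset hT0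
  obtain ⟨s3, h3, h4, h5⟩ := hK (a (4 * n + 0) - x - ∑ i ∈ T0, a (4 * i + 0))
  have h6 : D ∣ a (4 * n + 0) - x - ∑ i ∈ T0, a (4 * i + 0) :=
    (Nat.modEq_iff_dvd' (by omega)).1 hm0
  obtain ⟨m, hm⟩ := Nat.dvd_sub h6 (FS_dvd hd3 h3)
  have hmK : m ≤ K := by
    have : m ≤ D * m := Nat.le_mul_of_pos_left _ hD0
    omega
  obtain ⟨s1, h1, s2, h2, h7⟩ := hAP m hmK
  obtain ⟨S1, e1⟩ := hs1 h1
  obtain ⟨S2, e2⟩ := hs2 h2
  obtain ⟨S3, e3⟩ := hs3 h3
  have inj : ∀ (i : ℕ) (S : Finset ℕ), ∑ j ∈ S.image (fun m => 4 * m + i), a j =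
      ∑ m ∈ S, a (4 * m + i) := fun i S =>
    sum_image (fun x _ y _ h => by omega)
  refine ⟨4 * n + 0, ((T0.image (fun m => 4 * m + 0) ∪ S1.image (fun m => 4 * m + 1)) ∪
    S2.image (fun m => 4 * m + 2)) ∪ S3.image (fun m => 4 * m + 3), ?_, ?_⟩
  · simp only [mem_union, mem_image, not_or, not_exists, not_and]
    refine ⟨⟨⟨fun y hy => ?_, fun y _ => by omega⟩, fun y _ => by omega⟩, fun y _ => by omega⟩
    have := le_sup (f := id) (hT0 hy)
    simp only [id] at this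
    omega
  · rw [sum_union, sum_union, sum_union, inj, inj, inj, inj]
    · simp only at e1 e2 e3
      omega
    all_goals
      rw [Finset.disjoint_left]
      intro y hy hy'
      simp only [mem_union, mem_image] at hy hy'
      obtain ⟨z, -, hz⟩ := hy'
      first
        | (rcases hy with (⟨w, -, hw⟩ | ⟨w, -, hw⟩) | ⟨w, -, hw⟩ <;> omega)
        | (rcases hy with ⟨w, -, hw⟩ | ⟨w, -, hw⟩ <;> omega)

end Pool.Agent.H18.Gap
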