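import Mathlib

set_option autoImplicit false

namespace H18.Halv
open Finset

variable {α β : Type*} [DecidableEq α] [DecidableEq β]

def mom (F : Finset (Finset α)) (f : Finset α → ℤ) (T : Finset α) : ℤ :=
  ∑ B ∈ F, if T ⊆ B then f B else 0

def Part (s : ℕ) (F : Finset (Finset α)) : Prop :=
  ∃ f : Finset α → ℤ, (∀ B ∈ F, f B = 1 ∨ f B = -1) ∧ ∀ T : Finset α, T.card < s → mom F f T = 0

lemma part_zero (F : Finset (Finset α)) : Part 0 F :=
  ⟨fun _ => 1, fun _ _ => Or.inl rfl, fun _ h => absurd h (Nat.not_lt_zero _)⟩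

lemma part_empty (s : ℕ) : Part s (∅ : Finset (Finset α)) :=
  ⟨fun _ => 1, fun _ _ => Or.inl rfl, fun _ _ => by simp [mom]⟩

lemma Part.mono {s s' : ℕ} {F : Finset (Finset α)} (h : Part s F) (hs : s' ≤ s) : Part s' F := by
  obtain ⟨f, h1, h2⟩ := h
  exact ⟨f, h1, fun T hT => h2 T (by omega)⟩

lemma part_fiber {s : ℕ} {F : Finset (Finset α)} (g : Finset α → ℕ)
    (h : ∀ x, Part s (F.filter (fun B => g B = x))) : Part s F := by
  choose f h1 h2 using h
  refine ⟨fun B => f (g B) B, fun B hB => h1 _ B (by simp [hB]), fun T hT => ?_⟩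
  unfold mom
  rw [← Finset.sum_fiberwise_of_maps_to (s := F) (t := F.image g) (g := g)
    (fun B hB => mem_image_of_mem _ hB)]
  refine Finset.sum_eq_zero fun x _ => ?_
  refine Eq.trans (Finset.sum_congr rfl fun B hB => ?_) (h2 x T hT)
  simp only [(mem_filter.1 hB).2]

lemma part_split {s : ℕ} {F : Finset (Finset α)} (p : Finset α → Prop) [DecidablePred p]
    (h1 : Part s (F.filter p)) (h2 : Part s (F.filter (fun B => ¬ p B))) : Part s F := by
  refine part_fiber (fun B => if p B then 0 else 1) fun x => ?_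
  rcases x with _ | _ | x
  · convert h1 using 2 with B; by_cases h : p B <;> simp [h]
  · convert h2 using 2 with B; by_cases h : p B <;> simp [h]
  · rw [filter_eq_empty_iff.2 fun B _ => by by_cases h : p B <;> simp [h]]
    exact part_empty s

lemma sum_cut {M : Type*} [AddCommMonoid M] (X1 X2 Z : Finset α) (h12 : Disjoint X1 X2)
    (h1 : Disjoint X1 Z) (h2 : Disjoint X2 Z) (F : Finset α → Finset α → M) :
    ∑ B ∈ (X1 ∪ X2 ∪ Z).powerset.filter (fun B => Z ⊆ B), F (B ∩ X1) (B ∩ X2)
      = ∑ B1 ∈ X1.powerset, ∑ B2 ∈ X2.powerset, F B1 B2 := by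
  rw [← Finset.sum_product']
  rw [Finset.disjoint_left] at h12 h1 h2
  refine Finset.sum_nbij' (fun B => (B ∩ X1, B ∩ X2)) (fun p => p.1 ∪ p.2 ∪ Z) ?_ ?_ ?_ ?_ ?_
  · intro B _; simp
  · rintro ⟨B1, B2⟩ hp
    simp only [mem_product, mem_powerset] at hp
    simp only [mem_filter, mem_powerset]
    exact ⟨union_subset_union (union_subset_union hp.1 hp.2) Subset.rfl, subset_union_right⟩
  · intro B hB
    simp only [mem_filter, mem_powerset] at hB
    ext x
    have := @hB.1 x
    have := @hB.2 x
    simp only [mem_union, mem_inter] at *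
    tauto
  · rintro ⟨B1, B2⟩ hp
    simp only [mem_product, mem_powerset] at hp
    have e1 : (B1 ∪ B2 ∪ Z) ∩ X1 = B1 := by
      ext x
      have := @hp.1 x; have := @hp.2 x; have := @h12 x; have := @h1 x
      simp only [mem_union, mem_inter] at *
      tauto
    have e2 : (B1 ∪ B2 ∪ Z) ∩ X2 = B2 := by
      ext x
      have := @hp.1 x; have := @hp.2 x; have := @h12 x; have := @h2 x
      simp only [mem_union, mem_inter] at *
      tauto
    simp only [e1, e2]
  · intro B _; rfl

lemma mom_pc (X : Finset α) (x : ℕ) (f : Finset α → ℤ) (T : Finset α) :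
    mom (powersetCard x X) f T = ∑ B ∈ X.powerset, if B.card = x ∧ T ⊆ B then f B else 0 := by
  unfold mom
  rw [powersetCard_eq_filter, sum_filter]
  refine sum_congr rfl fun B _ => ?_
  by_cases h : B.card = x <;> simp [h]

lemma part_cut {s1 s2 x y : ℕ} (X1 X2 Z : Finset α) (h12 : Disjoint X1 X2)
    (h1 : Disjoint X1 Z) (h2 : Disjoint X2 Z) (p1 : Part s1 (powersetCard x X1))
    (p2 : Part s2 (powersetCard y X2)) (G : Finset (Finset α))
    (hG : ∀ B, B ∈ G ↔ B ⊆ X1 ∪ X2 ∪ Z ∧ Z ⊆ B ∧ (B ∩ X1).card = x ∧ (B ∩ X2).card = y) :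
    Part (s1 + s2) G := by
  obtain ⟨f1, a1, b1⟩ := p1
  obtain ⟨f2, a2, b2⟩ := p2
  refine ⟨fun B => f1 (B ∩ X1) * f2 (B ∩ X2), fun B hB => ?_, fun T hT => ?_⟩
  · obtain ⟨_, _, c1, c2⟩ := (hG B).1 hB
    rcases a1 (B ∩ X1) (mem_powersetCard.2 ⟨inter_subset_right, c1⟩) with e1 | e1 <;>
    rcases a2 (B ∩ X2) (mem_powersetCard.2 ⟨inter_subset_right, c2⟩) with e2 | e2 <;> simp [e1, e2]
  · by_cases hTX : T ⊆ X1 ∪ X2 ∪ Z
    · have e : mom G (fun B => f1 (B ∩ X1) * f2 (B ∩ X2)) T
          = mom (powersetCard x X1) f1 (T ∩ X1) * mom (powersetCard y X2) f2 (T ∩ X2) := by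
        rw [mom_pc, mom_pc, sum_mul_sum, ← sum_cut X1 X2 Z h12 h1 h2]
        have : G = ((X1 ∪ X2 ∪ Z).powerset.filter (fun B => Z ⊆ B)).filter
            (fun B => (B ∩ X1).card = x ∧ (B ∩ X2).card = y) := by
          ext B; simp only [hG, and_assoc, mem_filter, mem_powerset]
        rw [this, mom, sum_filter]
        refine sum_congr rfl fun B hB => ?_
        have hZ := (mem_filter.1 hB).2
        have : T ⊆ B ↔ T ∩ X1 ⊆ B ∩ X1 ∧ T ∩ X2 ⊆ B ∩ X2 := by
          constructor
          · intro h; exact ⟨inter_subset_inter h Subset.rfl, inter_subset_inter h Subset.rfl⟩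
          · rintro ⟨c1, c2⟩ z hz
            have := @hTX z hz; have := @c1 z; have := @c2 z; have := @hZ z
            simp only [mem_union, mem_inter] at *
            tauto
        by_cases c1 : (B ∩ X1).card = x <;> by_cases c2 : (B ∩ X2).card = y <;>
          by_cases c3 : T ∩ X1 ⊆ B ∩ X1 <;> by_cases c4 : T ∩ X2 ⊆ B ∩ X2 <;> simp [this, c1, c2, c3, c4]
      rw [e]
      have : (T ∩ X1).card + (T ∩ X2).card ≤ T.card := by
        rw [← card_union_of_disjoint (Disjoint.mono inter_subset_right inter_subset_right h12)]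
        exact card_le_card (union_subset inter_subset_left inter_subset_left)
      by_cases c : (T ∩ X1).card < s1
      · rw [b1 _ c, zero_mul]
      · rw [b2 _ (by omega), mul_zero]
    · refine sum_eq_zero fun B hB => ?_
      rw [if_neg fun h => hTX (h.trans ((hG B).1 hB).1)]

lemma part_transfer [Nonempty α] {s k : ℕ} {X : Finset α} {Y : Finset β} (hc : Y.card = X.card)
    (h : Part s (powersetCard k X)) : Part s (powersetCard k Y) := by
  obtain ⟨f, a, b⟩ := h
  let e : Y ≃ X := Finset.equivOfCardEq hc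
  let ψ : β → α := fun y => if h : y ∈ Y then (e ⟨y, h⟩).1 else Classical.arbitrary α
  have hinj : Set.InjOn ψ Y := by
    intro y hy z hz hyz
    simp only [ψ, mem_coe.1 hy, mem_coe.1 hz, dif_pos] at hyz
    simpa using e.injective (Subtype.ext hyz)
  have him : Y.image ψ = X := by
    refine eq_of_subset_of_card_le ?_ ?_
    · intro x hx
      obtain ⟨y, hy, rfl⟩ := mem_image.1 hx
      simp only [ψ, hy, dif_pos]; exact (e ⟨y, hy⟩).2
    · rw [card_image_of_injOn hinj, hc]
  have hsub : ∀ T B : Finset β, T ⊆ Y → B ⊆ Y → (T.image ψ ⊆ B.image ψ ↔ T ⊆ B) := by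
    intro T B hT hB
    refine ⟨fun h t ht => ?_, fun h => image_subset_image h⟩
    obtain ⟨z, hz, e⟩ := mem_image.1 (h (mem_image_of_mem ψ ht))
    rwa [← hinj (hB hz) (hT ht) e]
  have hmem : ∀ B ∈ powersetCard k Y, B.image ψ ∈ powersetCard k X := by
    intro B hB
    rw [mem_powersetCard] at hB ⊢
    exact ⟨him ▸ image_subset_image hB.1,
      by rw [card_image_of_injOn (hinj.mono (coe_subset.2 hB.1)), hB.2]⟩
  refine ⟨fun B => f (B.image ψ), fun B hB => a _ (hmem B hB), fun T hT => ?_⟩
  by_cases hTY : T ⊆ Y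
  · rw [← b (T.image ψ) (lt_of_le_of_lt card_image_le hT)]
    unfold mom
    refine sum_bij (fun B _ => B.image ψ) hmem ?_ ?_ ?_
    · intro B hB C hC hBC
      have hB' := (mem_powersetCard.1 hB).1
      have hC' := (mem_powersetCard.1 hC).1
      exact Subset.antisymm ((hsub B C hB' hC').1 hBC.subset) ((hsub C B hC' hB').1 hBC.symm.subset)
    · intro C hC
      rw [mem_powersetCard] at hC
      have e1 : (Y.filter (fun y => ψ y ∈ C)).image ψ = C := by
        ext x
        simp only [mem_image, mem_filter]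
        constructor
        · rintro ⟨y, ⟨_, h⟩, rfl⟩; exact h
        · intro hx
          obtain ⟨y, hy, rfl⟩ := mem_image.1 (him ▸ hC.1 hx)
          exact ⟨y, ⟨hy, hx⟩, rfl⟩
      refine ⟨Y.filter (fun y => ψ y ∈ C), mem_powersetCard.2 ⟨filter_subset _ _, ?_⟩, e1⟩
      rw [← card_image_of_injOn (hinj.mono (coe_subset.2 (filter_subset _ _))), e1, hC.2]
    · intro B hB
      simp only [hsub T B hTY (mem_powersetCard.1 hB).1]
  · refine sum_eq_zero fun B hB => ?_
    rw [if_neg fun h => hTY (h.trans (mem_powersetCard.1 hB).1)]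

/-- number of `k`-sets between `T` and `X` -/
lemma card_between {k : ℕ} {T X : Finset α} (hT : T ⊆ X) (hk : T.card ≤ k) :
    ((powersetCard k X).filter (fun B => T ⊆ B)).card = (X.card - T.card).choose (k - T.card) := by
  rw [← card_sdiff_of_subset hT, ← card_powersetCard]
  refine card_nbij' (fun B => B \ T) (fun C => C ∪ T) ?_ ?_ ?_ ?_
  · intro B hB
    simp only [coe_filter, mem_powersetCard, Set.mem_setOf_eq, mem_coe] at hB ⊢
    exact ⟨sdiff_subset_sdiff hB.1.1 Subset.rfl, by rw [card_sdiff_of_subset hB.2, hB.1.2]⟩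
  · intro C hC
    simp only [coe_filter, mem_powersetCard, Set.mem_setOf_eq, mem_coe] at hC ⊢
    have hd : Disjoint C T := Disjoint.mono_left hC.1 sdiff_disjoint
    exact ⟨⟨union_subset (hC.1.trans sdiff_subset) hT,
      by rw [card_union_of_disjoint hd, hC.2]; omega⟩, subset_union_right⟩
  · intro B hB
    simp only [coe_filter, mem_powersetCard, Set.mem_setOf_eq] at hB
    exact sdiff_union_of_subset hB.2
  · intro C hC
    simp only [mem_powersetCard, mem_coe] at hC
    exact union_sdiff_cancel_right (Disjoint.mono_left hC.1 sdiff_disjoint)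

def A (s k v : ℕ) : Prop := Part s (powersetCard k (range v))

lemma A.on {s k v : ℕ} (h : A s k v) (Y : Finset β) (hY : Y.card = v) : Part s (powersetCard k Y) :=
  part_transfer (by simpa using hY) h

lemma A_big {s k v : ℕ} (h : v < k) : A s k v := by
  unfold A
  rw [powersetCard_eq_empty.2 (by simpa using h)]
  exact part_empty s

lemma A.resid {s k v : ℕ} (h : A (s + 1) k (v + 1)) : A s k v := by
  obtain ⟨f, a, b⟩ := h
  have hs : powersetCard k (range v) = (powersetCard k (range (v + 1))).filter (fun B => v ∉ B) := by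
    ext B
    simp only [mem_filter, mem_powersetCard, subset_iff, mem_range]
    constructor
    · rintro ⟨h1, h2⟩
      exact ⟨⟨fun x hx => by have := h1 hx; omega, h2⟩, fun h => by have := h1 h; omega⟩
    · rintro ⟨⟨h1, h2⟩, h3⟩
      refine ⟨fun x hx => ?_, h2⟩
      have := h1 hx
      have : x ≠ v := fun e => h3 (e ▸ hx)
      omega
  refine ⟨f, fun B hB => a B (mem_filter.1 (hs ▸ hB)).1, fun T hT => ?_⟩
  have e1 := b T (by omega)
  have e2 := b (insert v T) (lt_of_le_of_lt (card_insert_le _ _) (by omega))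
  rw [hs]
  refine Eq.trans ?_ (show mom (powersetCard k (range (v + 1))) f T
    - mom (powersetCard k (range (v + 1))) f (insert v T) = 0 by rw [e1, e2, sub_zero])
  unfold mom
  rw [sum_filter, ← sum_sub_distrib]
  refine sum_congr rfl fun B _ => ?_
  by_cases h1 : v ∈ B <;> by_cases h2 : T ⊆ B <;> simp [h1, h2, insert_subset_iff]

lemma A.deriv {s k v : ℕ} (h : A (s + 1) (k + 1) (v + 1)) : A s k v := by
  obtain ⟨f, a, b⟩ := h
  have hm : ∀ B ∈ powersetCard k (range v), insert v B ∈ powersetCard (k + 1) (range (v + 1)) := by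
    intro B hB
    rw [mem_powersetCard] at hB ⊢
    have : v ∉ B := fun h => by simpa using hB.1 h
    rw [range_add_one, card_insert_of_notMem this, hB.2]
    exact ⟨insert_subset_insert _ hB.1, rfl⟩
  refine ⟨fun B => f (insert v B), fun B hB => a _ (hm B hB), fun T hT => ?_⟩
  by_cases hv : v ∈ T
  · refine sum_eq_zero fun B hB => if_neg fun h => ?_
    simpa using (mem_powersetCard.1 hB).1 (h hv)
  rw [← b (insert v T) (lt_of_le_of_lt (card_insert_le _ _) (by omega))]
  unfold mom
  rw [range_add_one, powersetCard_succ_insert (by simp), sum_union, sum_image]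
  · rw [sum_eq_zero (s := powersetCard (k + 1) (range v)), zero_add]
    · refine sum_congr rfl fun B _ => ?_
      have : insert v T ⊆ insert v B ↔ T ⊆ B := by
        rw [insert_subset_iff]
        simp [subset_insert_iff_of_notMem hv]
      simp only [this]
    · intro B hB
      refine if_neg fun h => ?_
      simpa using (mem_powersetCard.1 hB).1 (h (mem_insert_self _ _))
  · intro B hB C hC e
    have h1 : v ∉ B := fun h => by simpa using (mem_powersetCard.1 hB).1 h
    have h2 : v ∉ C := fun h => by simpa using (mem_powersetCard.1 hC).1 h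
    rw [← erase_insert h1, e, erase_insert h2]
  · rw [disjoint_left]
    intro B hB hB'
    obtain ⟨C, _, rfl⟩ := mem_image.1 hB'
    simpa using (mem_powersetCard.1 hB).1 (mem_insert_self _ _)

lemma mixed_null {s : ℕ} {F : Finset (Finset α)} {f : Finset α → ℤ}
    (b : ∀ T : Finset α, T.card < s → mom F f T = 0) (U : Finset α) :
    ∀ T : Finset α, T.card + U.card < s →
      ∑ B ∈ F, (if T ⊆ B ∧ Disjoint U B then f B else 0) = 0 := by
  induction U using Finset.induction_on with
  | empty => intro T hT; simpa [mom] using b T (by simpa using hT)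
  | insert a U ha ih =>
    intro T hT
    rw [card_insert_of_notMem ha] at hT
    have e1 := ih T (by omega)
    have e2 := ih (insert a T) (by have := card_insert_le a T; omega)
    refine Eq.trans ?_ (show _ - _ = 0 from sub_eq_zero.2 (e1.trans e2.symm))
    rw [← sum_sub_distrib]
    refine sum_congr rfl fun B _ => ?_
    by_cases h1 : a ∈ B <;> by_cases h2 : T ⊆ B <;> by_cases h3 : Disjoint U B <;>
      simp [h1, h2, h3, insert_subset_iff]

lemma A.compl {s k v : ℕ} (h : A s k v) (hk : k ≤ v) : A s (v - k) v := by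
  obtain ⟨f, a, b⟩ := h
  have hm : ∀ j, j ≤ v → ∀ B ∈ powersetCard j (range v), range v \ B ∈ powersetCard (v - j) (range v) := by
    intro j _ B hB
    rw [mem_powersetCard] at hB ⊢
    exact ⟨sdiff_subset, by rw [card_sdiff_of_subset hB.1, hB.2, card_range]⟩
  have hm' : ∀ B ∈ powersetCard (v - k) (range v), range v \ B ∈ powersetCard k (range v) := by
    intro B hB
    have := hm _ (by omega) B hB
    rwa [Nat.sub_sub_self hk] at this
  refine ⟨fun B => f (range v \ B), fun B hB => a _ (hm' B hB), fun T hT => ?_⟩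
  by_cases hTX : T ⊆ range v
  · rw [← mixed_null b T ∅ (by simpa using hT)]
    unfold mom
    refine sum_nbij' (fun B => range v \ B) (fun B => range v \ B) hm' (hm k hk) ?_ ?_ ?_
    · intro B hB; exact Finset.sdiff_sdiff_eq_self (mem_powersetCard.1 hB).1
    · intro B hB; exact Finset.sdiff_sdiff_eq_self (mem_powersetCard.1 hB).1
    · intro B _
      have : T ⊆ B ↔ ∅ ⊆ range v \ B ∧ Disjoint T (range v \ B) := by
        simp only [empty_subset, true_and, disjoint_left, mem_sdiff, not_and, not_not]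
        exact ⟨fun h x hx _ => h hx, fun h x hx => h hx (hTX hx)⟩
      simp only [this]
  · refine sum_eq_zero fun B hB => ?_
    rw [if_neg fun h => hTX (h.trans (mem_powersetCard.1 hB).1)]

end H18.Halv
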