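import Pool.Agent.H18.Halv7

set_option autoImplicit false

namespace H18.Halv
open Finset

variable {u v : ℕ}

lemma mom_erase {j a : ℕ} (X : Finset ℕ) (h : Finset ℕ → ℤ) (S : Finset ℕ) :
    mom (powersetCard j (X.erase a)) h S
      = mom (powersetCard j X) h S - mom (powersetCard j X) h (insert a S) := by
  have hs : powersetCard j (X.erase a) = (powersetCard j X).filter (fun B => a ∉ B) := by
    ext B
    simp only [mem_filter, mem_powersetCard, subset_erase]
    tauto
  unfold mom
  rw [hs, sum_filter, ← sum_sub_distrib]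
  refine sum_congr rfl fun B _ => ?_
  by_cases h1 : a ∈ B <;> by_cases h2 : S ⊆ B <;> simp [h1, h2, insert_subset_iff]

lemma null_small {j : ℕ} (h : Finset ℕ → ℤ) (c : ℕ) : ∀ X : Finset ℕ, X.card = j + c →
    (∀ S : Finset ℕ, S.card < c + 1 → mom (powersetCard j X) h S = 0) →
    ∀ T ∈ powersetCard j X, h T = 0 := by
  induction c with
  | zero =>
    intro X hX hm T hT
    have := hm ∅ (by simp)
    rw [add_zero] at hX
    rw [← hX, powersetCard_self] at this hT
    rw [mem_singleton.1 hT]
    simpa [mom] using this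
  | succ c ih =>
    intro X hX hm T hT
    rw [mem_powersetCard] at hT
    obtain ⟨a, ha, haT⟩ := exists_mem_notMem_of_card_lt_card (show T.card < X.card by omega)
    refine ih (X.erase a) (by rw [card_erase_of_mem ha]; omega) (fun S hS => ?_) T
      (mem_powersetCard.2 ⟨subset_erase.2 ⟨hT.1, haT⟩, hT.2⟩)
    rw [mom_erase, hm S (by omega), hm _ (by have := card_insert_le a S; omega), sub_zero]

lemma mom_deriv {j n : ℕ} (h : Finset ℕ → ℤ) {S : Finset ℕ} (hv : n ∉ S) :
    mom (powersetCard j (range n)) (fun B => h (insert n B)) S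
      = mom (powersetCard (j + 1) (range (n + 1))) h (insert n S) := by
  unfold mom
  rw [range_add_one, powersetCard_succ_insert (by simp), sum_union, sum_image]
  · rw [sum_eq_zero (s := powersetCard (j + 1) (range n)), zero_add]
    · refine sum_congr rfl fun B _ => ?_
      have : insert n S ⊆ insert n B ↔ S ⊆ B := by
        rw [insert_subset_iff]
        simp [subset_insert_iff_of_notMem hv]
      simp only [this]
    · intro B hB
      refine if_neg fun h => ?_
      simpa using (mem_powersetCard.1 hB).1 (h (mem_insert_self _ _))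
  · intro B hB C hC e
    have h1 : n ∉ B := fun h => by simpa using (mem_powersetCard.1 hB).1 h
    have h2 : n ∉ C := fun h => by simpa using (mem_powersetCard.1 hC).1 h
    rw [← erase_insert h1, e, erase_insert h2]
  · rw [disjoint_left]
    intro B hB hB'
    obtain ⟨C, _, rfl⟩ := mem_image.1 hB'
    simpa using (mem_powersetCard.1 hB).1 (mem_insert_self _ _)

def tops : List (ℕ × ℕ) → Finset ℕ
  | [] => ∅
  | p :: ps => insert p.1 (tops ps)

def Std (u n j : ℕ) (T : Finset ℕ) : Prop :=
  ∃ ps, Val u n ps ∧ (∀ p ∈ ps, p.2 < p.1 ∧ p.2 < u) ∧ ps.length = j ∧ tops ps = T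

lemma Val.mono {n n' : ℕ} (h : n ≤ n') : ∀ {ps : List (ℕ × ℕ)}, Val u n ps → Val u n' ps
  | [], _ => trivial
  | _ :: _, ⟨a, b, c, d, e, f, g⟩ => ⟨a, b, c, by omega, by omega, f, Val.mono h g⟩

lemma remainder (n : ℕ) : ∀ (j : ℕ) (h : Finset ℕ → ℤ), 2 * j ≤ u + 1 →
    (∀ S : Finset ℕ, S.card < j → mom (powersetCard j (range n)) h S = 0) →
    (∀ T, Std u n j T → h T = 0) → ∀ T ∈ powersetCard j (range n), h T = 0 := by
  induction n with
  | zero =>
    intro j h _ _ hs T hT
    rw [mem_powersetCard, range_zero, subset_empty] at hT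
    exact hs T ⟨[], trivial, by simp, by simpa [hT.1] using hT.2, hT.1.symm⟩
  | succ n ih =>
    intro j h hu hm hs T hT
    rcases j with _ | j
    · exact hs T ⟨[], trivial, by simp, rfl, (card_eq_zero.1 (mem_powersetCard.1 hT).2).symm⟩
    by_cases hn : n + 1 < 2 * (j + 1)
    · have := card_le_card (mem_powersetCard.1 hT).1
      rw [(mem_powersetCard.1 hT).2, card_range] at this
      exact null_small h (n - j) _ (by rw [card_range]; omega) (fun S hS => hm S (by omega)) T hT
    have h1 : ∀ B ∈ powersetCard j (range n), h (insert n B) = 0 := by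
      refine ih j (fun B => h (insert n B)) (by omega) (fun S hS => ?_) ?_
      · by_cases hS' : n ∈ S
        · exact sum_eq_zero fun B hB => if_neg fun hh => by
            simpa using (mem_powersetCard.1 hB).1 (hh hS')
        · rw [mom_deriv h hS', hm _ (by have := card_insert_le n S; omega)]
      · rintro _ ⟨ps, a, b, c, rfl⟩
        obtain ⟨d, e⟩ := a.card
        obtain ⟨x, x1, x2⟩ := exists_mem_notMem_of_card_lt_card
          (show (pts ps).card < (range (min n u)).card by rw [card_range]; omega)
        rw [mem_range] at x1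
        refine hs _ ⟨(n, x) :: ps, ⟨by simp only; omega, fun hh => by simpa using d hh, x2, by simp,
          by simp only; omega, Or.inr (by simp only; omega), a.mono (by omega)⟩, ?_, by simp [c], rfl⟩
        intro p hp
        rcases List.mem_cons.1 hp with rfl | hp
        · simp only; omega
        · exact b p hp
    have h2 : ∀ B ∈ powersetCard (j + 1) (range (n + 1)), n ∈ B → h B = 0 := by
      intro B hB hn
      rw [mem_powersetCard] at hB
      rw [← insert_erase hn]
      refine h1 _ (mem_powersetCard.2 ⟨fun x hx => ?_, by rw [card_erase_of_mem hn, hB.2]; rfl⟩)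
      have := hB.1 (mem_of_mem_erase hx)
      have := ne_of_mem_erase hx
      simp only [mem_range] at *
      omega
    by_cases hnT : n ∈ T
    · exact h2 T hT hnT
    have er : range n = (range (n + 1)).erase n := by rw [range_add_one, erase_insert (by simp)]
    refine ih (j + 1) h hu (fun S hS => ?_) (fun T ⟨ps, a, b⟩ => hs T ⟨ps, a.mono (by omega), b⟩) T ?_
    · rw [er, mom_erase, hm S hS, zero_sub, neg_eq_zero]
      refine sum_eq_zero fun B hB => ?_
      split_ifs with hh
      · exact h2 B hB (hh (mem_insert_self _ _))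
      · rfl
    · rw [er]
      exact mem_powersetCard.2 ⟨subset_erase.2 ⟨(mem_powersetCard.1 hT).1, hnT⟩, (mem_powersetCard.1 hT).2⟩

lemma mom_cm (ps : List (ℕ × ℕ)) (S : Finset ℕ) : ∀ Y : Finset ℕ, Val u v ps → Y ⊆ range v →
    Disjoint Y (pts ps) → mom (powersetCard (Y.card + ps.length) (range v)) (cm ps Y) S = cm ps Y S := by
  induction ps with
  | nil =>
    intro Y _ hY _
    simp only [mom, cm, List.length_nil, add_zero]
    rw [sum_eq_single Y _ (fun h => absurd (mem_powersetCard.2 ⟨hY, rfl⟩) h)]
    · simp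
    · intro B hB hne
      rw [if_neg (fun hh => hne (eq_of_subset_of_card_le hh (mem_powersetCard.1 hB).2.ge)), ite_self]
  | cons p ps ih =>
    intro Y hv hY hd
    obtain ⟨v1, v2, v3, v4, v5, v6, v7⟩ := hv
    simp only [pts, disjoint_insert_right] at hd
    have a := ih (insert p.1 Y) v7 (insert_subset (mem_range.2 v4) hY) (disjoint_insert_left.2 ⟨v2, hd.2.2⟩)
    have b := ih (insert p.2 Y) v7 (insert_subset (mem_range.2 v5) hY) (disjoint_insert_left.2 ⟨v3, hd.2.2⟩)
    rw [card_insert_of_notMem hd.1] at a
    rw [card_insert_of_notMem hd.2.1] at b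
    rw [cm, ← a, ← b, List.length_cons, show Y.card + (ps.length + 1) = Y.card + 1 + ps.length by ring]
    simp only [mom, ← sum_sub_distrib]
    refine sum_congr rfl fun B _ => ?_
    split_ifs <;> simp [cm]

def rho (u : ℕ) (T : Finset ℕ) : ℕ := ∑ x ∈ T, min x u

lemma tops_sub (ps : List (ℕ × ℕ)) : tops ps ⊆ pts ps := by
  induction ps with
  | nil => exact Subset.rfl
  | cons p ps ih => exact insert_subset_insert _ (ih.trans (subset_insert _ _))

lemma cv_rho (ps : List (ℕ × ℕ)) : Val u v ps → (∀ p ∈ ps, p.2 < p.1 ∧ p.2 < u) →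
    cv ps (tops ps) = 1 ∧ ∀ T : Finset ℕ, T.card = ps.length → cv ps T ≠ 0 →
      T = tops ps ∨ rho u T < rho u (tops ps) := by
  induction ps with
  | nil => intro _ _; exact ⟨rfl, fun T hT _ => Or.inl (card_eq_zero.1 hT)⟩
  | cons p ps ih =>
    intro hv hp
    obtain ⟨v1, v2, v3, v4, v5, v6, v7⟩ := hv
    obtain ⟨a, b⟩ := ih v7 fun q hq => hp q (List.mem_cons_of_mem _ hq)
    have h1 : p.1 ∉ tops ps := fun h => v2 (tops_sub ps h)
    have h2 : p.2 ∉ tops ps := fun h => v3 (tops_sub ps h)
    obtain ⟨p1, p2⟩ := hp p (List.mem_cons_self ..)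
    refine ⟨?_, fun T hT h0 => ?_⟩
    · rw [cv, ← cv_erase ps _ _ v2, tops, erase_insert h1, a]
      simp [h2, v1.symm]
    · rw [cv, mul_ne_zero_iff] at h0
      rw [List.length_cons] at hT
      have r : rho u (tops (p :: ps)) = min p.1 u + rho u (tops ps) := sum_insert h1
      by_cases c1 : p.1 ∈ T
      · have := b (T.erase p.1) (by rw [card_erase_of_mem c1]; omega) (by rw [cv_erase _ _ _ v2]; exact h0.2)
        have r2 : min p.1 u + rho u (T.erase p.1) = rho u T := add_sum_erase _ (fun x => min x u) c1
        rcases this with e | e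
        · left; rw [tops, ← e, insert_erase c1]
        · right; omega
      · have c2 : p.2 ∈ T := by
          by_contra c2; simp [c1, c2] at h0
        have := b (T.erase p.2) (by rw [card_erase_of_mem c2]; omega) (by rw [cv_erase _ _ _ v3]; exact h0.2)
        have r2 : min p.2 u + rho u (T.erase p.2) = rho u T := add_sum_erase _ (fun x => min x u) c2
        right
        rcases this with e | e
        · rw [e] at r2; omega
        · omega

lemma gen_all {j : ℕ} (hu : 2 * j ≤ u + 1) : GP u v j ((2 ^ j + 1) ^ (j * u + 1)) := by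
  set q := 2 ^ j + 1 with hq
  have key : ∀ n (h : Finset ℕ → ℤ), ∑ T ∈ powersetCard j (range v), (h T).natAbs * q ^ (rho u T + 1) ≤ n →
      (∀ S : Finset ℕ, S.card < j → mom (powersetCard j (range v)) h S = 0) → Gen u v j h n := by
    intro n
    induction n using Nat.strong_induction_on with
    | _ n ih =>
    intro h hW hm
    by_cases hs : ∀ T, Std u v j T → h T = 0
    · exact gen_zero.congr (Nat.zero_le _) (remainder v j h hu hm hs)
    push Not at hs
    obtain ⟨_, ⟨ps, a, b, c, rfl⟩, h0⟩ := hs
    obtain ⟨d, e⟩ := cv_rho ps a b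
    have hcm : ∀ T ∈ powersetCard j (range v), cm ps ∅ T = cv ps T := fun T hT =>
      (cm_low ps a (by simp) T).2 (by rw [(mem_powersetCard.1 hT).2, c])
    have hT0 : tops ps ∈ powersetCard j (range v) := by
      refine mem_powersetCard.2 ⟨(tops_sub ps).trans a.card.1, ?_⟩
      rw [← c]
      clear * - a
      induction ps with
      | nil => rfl
      | cons p ps ih => rw [tops, card_insert_of_notMem fun h => a.2.1 (tops_sub ps h), ih a.2.2.2.2.2.2]; rfl
    obtain ⟨σ, s1, s2⟩ : ∃ σ : ℤ, (σ = 1 ∨ σ = -1) ∧ (h (tops ps) - σ).natAbs + 1 = (h (tops ps)).natAbs := by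
      rcases lt_or_gt_of_ne h0 with h1 | h1
      · exact ⟨-1, Or.inr rfl, by omega⟩
      · exact ⟨1, Or.inl rfl, by omega⟩
    have hn := nrm_cm (Y := ∅) ps 0 a (by simp)
    simp only [c, add_zero, card_empty, Nat.choose_self, mul_one, nrm] at hn
    have hW' : ∑ T ∈ powersetCard j (range v), (h T - σ * cv ps T).natAbs * q ^ (rho u T + 1) + 1
        ≤ ∑ T ∈ powersetCard j (range v), (h T).natAbs * q ^ (rho u T + 1) := by
      have h1 : ∑ T ∈ (powersetCard j (range v)).erase (tops ps),
          (h T - σ * cv ps T).natAbs * q ^ (rho u T + 1)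
          ≤ ∑ T ∈ (powersetCard j (range v)).erase (tops ps), (h T).natAbs * q ^ (rho u T + 1)
            + 2 ^ j * q ^ rho u (tops ps) := by
        refine le_trans ?_ (Nat.add_le_add_left (Nat.mul_le_mul_right _
          ((sum_le_sum_of_subset (erase_subset (tops ps) _)).trans hn)) _)
        rw [sum_mul, ← sum_add_distrib]
        refine sum_le_sum fun T hT => ?_
        have hT' := mem_of_mem_erase hT
        rw [hcm T hT']
        by_cases z : cv ps T = 0
        · simp [z]
        have := (e T (by rw [(mem_powersetCard.1 hT').2, c]) z).resolve_left (ne_of_mem_erase hT)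
        calc _ ≤ ((h T).natAbs + (cv ps T).natAbs) * q ^ (rho u T + 1) := by
              gcongr; rcases s1 with rfl | rfl <;> omega
          _ ≤ _ := by
              rw [add_mul]; gcongr
              · omega
              · omega
      rw [← add_sum_erase _ _ hT0, ← add_sum_erase _ (fun T => (h T).natAbs * q ^ (rho u T + 1)) hT0,
        d, mul_one, ← s2, add_mul, one_mul]
      have : q ^ (rho u (tops ps) + 1) = 2 ^ j * q ^ rho u (tops ps) + q ^ rho u (tops ps) := by
        rw [pow_succ]; nth_rewrite 2 [hq]; ring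
      have : 0 < q ^ rho u (tops ps) := by positivity
      omega
    obtain ⟨n, rfl⟩ : ∃ n', n = n' + 1 := ⟨n - 1, by omega⟩
    have g1 := ih n (by omega) (fun T => h T - σ * cv ps T) (by omega) fun S hS => by
      have := mom_cm ps S ∅ a (by simp) (by simp)
      rw [card_empty, zero_add, c, (cm_low ps a (by simp) S).1 (by omega)] at this
      rw [← sub_zero 0, ← mul_zero σ]
      refine Eq.trans ?_ (congrArg₂ (fun x y => x - σ * y) (hm S hS) this |>.trans (by simp))
      simp only [mom, mul_sum, ← sum_sub_distrib]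
      refine sum_congr rfl fun T hT => ?_
      rw [hcm T hT]
      split_ifs <;> simp
    have g2 : Gen u v j (fun T => σ * cv ps T) 1 :=
      ⟨[(σ, ps)], by simpa [OkL] using ⟨s1, a, c⟩, le_rfl, fun T _ => by simp [val]⟩
    exact (g1.add g2).congr le_rfl fun T _ => by ring
  intro h hm
  refine key _ h ?_ hm
  rw [nrm, mul_sum]
  refine sum_le_sum fun T hT => ?_
  rw [mul_comm]
  gcongr
  · exact Nat.le_add_left _ _
  · rw [← (mem_powersetCard.1 hT).2]
    exact (sum_le_card_nsmul _ _ u fun x _ => min_le_right _ _).trans (by simp)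

end H18.Halv
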