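import Pool.Agent.H18.Halv10

set_option autoImplicit false

namespace H18.Halv
open Finset

variable {u m s k : ℕ}

lemma exc_card2 {a : ℕ} (ha : k + s ≤ 2 * a + 2) : (exc u m s k).card
    ≤ (∑ i ∈ range s, m.choose i) * (2 ^ u * ∑ i ∈ range (a + 1), m.choose i) := by
  have h1 : ∀ s, ((range s).biUnion (fun i => powersetCard i (range m))).card
      ≤ ∑ i ∈ range s, m.choose i := fun s => card_biUnion_le.trans (le_of_eq (by simp))
  have h2 : (range u).powerset.card ≤ 2 ^ u := by simp
  refine le_trans ?_ (Nat.mul_le_mul (h1 s) (Nat.mul_le_mul h2 (h1 (a + 1))))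
  rw [← card_product, ← card_product]
  refine card_le_card_of_injOn
    (fun B => (spl u m B, B ∩ range u, (range m).filter (fun i => u + 2 * i ∈ B))) (fun B hB => ?_)
    fun B hB C hC e => ?_
  · have h3 := (mem_filter.1 hB).2
    have h4 := (mem_powersetCard.1 (mem_filter.1 hB).1).2
    refine mem_coe.2 (mem_product.2 ⟨mem_biUnion.2 ⟨(spl u m B).card, mem_range.2 (by omega),
      mem_powersetCard.2 ⟨filter_subset _ _, rfl⟩⟩, mem_product.2 ⟨mem_powerset.2 inter_subset_right,
      mem_biUnion.2 ⟨_, mem_range.2 ?_, mem_powersetCard.2 ⟨filter_subset _ _, rfl⟩⟩⟩⟩)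
    have a1 : ((range m).filter (fun i => u + 2 * i ∈ B)).card
        ≤ ((range m).filter (fun i => u + 2 * i + 1 ∈ B)).card + (spl u m B).card := by
      refine le_trans (card_le_card fun i hi => ?_) (card_union_le _ _)
      simp only [spl, mem_filter, mem_union] at hi ⊢
      tauto
    have a2 : ((range m).filter (fun i => u + 2 * i ∈ B)).card
        + ((range m).filter (fun i => u + 2 * i + 1 ∈ B)).card ≤ B.card := by
      rw [← card_image_of_injective _ (f := fun i => u + 2 * i) (fun i j h => by simpa using h),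
        ← card_image_of_injective ((range m).filter (fun i => u + 2 * i + 1 ∈ B))
          (f := fun i => u + 2 * i + 1) (fun i j h => by simpa using h), ← card_union_of_disjoint]
      · refine card_le_card (union_subset ?_ ?_) <;> intro x hx <;>
          obtain ⟨i, hi, rfl⟩ := mem_image.1 hx <;> exact (mem_filter.1 hi).2
      · rw [disjoint_left]
        intro x hx hy
        obtain ⟨i, _, rfl⟩ := mem_image.1 hx
        obtain ⟨j, _, hj⟩ := mem_image.1 hy
        omega
    simp only
    omega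
  · obtain ⟨e1, e2⟩ := Prod.mk.inj e
    obtain ⟨e2, e3⟩ := Prod.mk.inj e2
    have hB' := (mem_powersetCard.1 (mem_filter.1 hB).1).1
    have hC' := (mem_powersetCard.1 (mem_filter.1 hC).1).1
    have ev2 : ∀ i < m, (u + 2 * i ∈ B ↔ u + 2 * i ∈ C) := fun i hi => by
      simpa only [mem_filter, mem_range, hi, true_and] using Finset.ext_iff.1 e3 i
    ext x
    by_cases h1 : x < u
    · simpa only [mem_inter, mem_range, h1, and_true] using Finset.ext_iff.1 e2 x
    by_cases h2 : x < u + 2 * m
    · obtain ⟨i, hi | hi⟩ : ∃ i, x = u + 2 * i ∨ x = u + 2 * i + 1 := ⟨(x - u) / 2, by omega⟩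
      · rw [hi]; exact ev2 i (by omega)
      · have a := Finset.ext_iff.1 e1 i
        have b := ev2 i (by omega)
        simp only [spl, mem_filter, mem_range, show i < m by omega, true_and] at a
        rw [hi]; tauto
    · exact ⟨fun h => absurd (mem_range.1 (hB' h)) h2, fun h => absurd (mem_range.1 (hC' h)) h2⟩

lemma choose_mono_half {n i h : ℕ} (h1 : i ≤ h) (h2 : 2 * h ≤ n) : n.choose i ≤ n.choose h := by
  induction h, h1 using Nat.le_induction with
  | base => exact le_rfl
  | succ h _ ih => exact (ih (by omega)).trans (Nat.choose_le_succ_of_lt_half_left (by omega))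

lemma choose_add_le (n h d : ℕ) : n.choose (h + d) ≤ n ^ d * n.choose h := by
  induction d with
  | zero => simp
  | succ d ih =>
    have := Nat.choose_succ_right_eq n (h + d)
    calc n.choose (h + d + 1) ≤ n.choose (h + d + 1) * (h + d + 1) := Nat.le_mul_of_pos_right _ (by omega)
      _ ≤ n ^ d * n.choose h * n := by rw [this]; gcongr; omega
      _ = _ := by ring

lemma choose_steps (a b d : ℕ) : a.choose b ≤ (a + 2 * d).choose (b + d) := by
  induction d with
  | zero => simp
  | succ d ih =>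
    rw [show a + 2 * (d + 1) = a + 2 * d + 1 + 1 by ring, ← add_assoc, Nat.choose_succ_succ']
    have := Nat.choose_le_succ (a + 2 * d) (b + d)
    simp only [Nat.succ_eq_add_one] at this
    omega

lemma GP.mono {v j c c' : ℕ} (h : GP u v j c) (hc : c ≤ c') : GP u v j c' :=
  fun f hf => (h f hf).congr (Nat.mul_le_mul_right _ hc) fun _ _ => rfl

theorem asym_half (t : ℕ) : ∃ K, t < K ∧ ∀ k v, K ≤ k → 2 * k ≤ v →
    (∀ j ≤ t, Even ((v - j).choose (k - j))) → A (t + 1) k v := by
  obtain ⟨cc, hcc⟩ : ∃ cc, cc = (2 ^ t + 1) ^ (t * (2 * t + 1) + 1) := ⟨_, rfl⟩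
  obtain ⟨κ, hκ⟩ : ∃ κ, κ = (1 + (t + 1) * (cc * ((1 + cc * 2 ^ t) ^ t * (t + 1)) * (2 ^ t * 2 ^ (t + 1))))
    * ((t + 1) * 2 ^ (2 * t + 1)) := ⟨_, rfl⟩
  obtain ⟨r, hr⟩ : ∃ r, r = 3 * t + 2 := ⟨_, rfl⟩
  refine ⟨κ * (4 ^ r * r.factorial) + 4 * t + 4 * r, by omega, fun k v hk hv he => ?_⟩
  obtain ⟨u, m, rfl, hu1, hu2⟩ : ∃ u m, v = u + 2 * m ∧ 2 * t ≤ u ∧ u ≤ 2 * t + 1 :=
    ⟨2 * t + v % 2, v / 2 - t, by omega, by omega, by omega⟩
  obtain ⟨h, hh1, hh2⟩ : ∃ h, t + 2 * h ≤ k ∧ k ≤ t + 2 * h + 1 := ⟨(k - t) / 2, by omega, by omega⟩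
  set v := u + 2 * m with hvd
  have hv1 : 1 ≤ v := by omega
  have hmv : m ≤ v := by omega
  set Z := m.choose h with hZ
  have hZ1 : κ * v ^ (3 * t + 1) ≤ Z := by
    have a := Nat.pow_sub_le_descFactorial m r
    rw [Nat.descFactorial_eq_factorial_mul_choose] at a
    have b : m.choose r ≤ Z := choose_mono_half (by omega) (by omega)
    refine Nat.le_of_mul_le_mul_left ?_ (show 0 < 4 ^ r * r.factorial by positivity)
    calc _ = κ * (4 ^ r * r.factorial) * v ^ (3 * t + 1) := by ring
      _ ≤ v * v ^ (3 * t + 1) := by gcongr; omega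
      _ = v ^ r := by rw [hr]; ring
      _ ≤ (4 * (m + 1 - r)) ^ r := Nat.pow_le_pow_left (by omega) _
      _ = 4 ^ r * (m + 1 - r) ^ r := mul_pow _ _ _
      _ ≤ 4 ^ r * (r.factorial * Z) := by gcongr; exact a.trans (by gcongr)
      _ = _ := by ring
  have hZ0 : 0 < Z := Nat.choose_pos (by omega)
  obtain ⟨Lb, hLb⟩ : ∃ Lb, Lb = (t + 1) * 2 ^ (2 * t + 1) * v ^ (2 * t + 1) * Z := ⟨_, rfl⟩
  have hL0 : 0 < Lb := by rw [hLb]; positivity
  refine absorb (q := 1) (D := (t + 1) * Lb) (C := Z * Z) (Lb := Lb) (fun j => (1 + cc * 2 ^ t) ^ j)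
    (fun _ => cc) (by omega) (by omega) (by omega) (by omega) hv1 (by positivity)
    ((exc_card2 (a := h + t) (by omega)).trans ?_) ?_ (fun j hj => ?_) (fun j hj => he j (by omega))
    (fun j hj => ?_) (fun j hj => ?_) ?_
  · have a : ∑ i ∈ range (t + 1), m.choose i ≤ (t + 1) * v ^ t := by
      refine (sum_le_card_nsmul _ _ (v ^ t) fun i hi => ?_).trans (by simp)
      have := mem_range.1 hi
      exact (Nat.choose_le_pow _ _).trans ((Nat.pow_le_pow_left hmv _).trans
        (Nat.pow_le_pow_right hv1 (by omega)))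
    have b : ∑ i ∈ range (h + t + 1), m.choose i ≤ v * (v ^ t * Z) := by
      refine (sum_le_card_nsmul _ _ (v ^ t * Z) fun i hi => ?_).trans ?_
      · have := mem_range.1 hi
        rcases le_total i h with c | c
        · exact (choose_mono_half c (by omega)).trans (Nat.le_mul_of_pos_left _ (by positivity))
        · obtain ⟨d, rfl⟩ := Nat.exists_eq_add_of_le c
          exact (choose_add_le _ _ _).trans (Nat.mul_le_mul_right _ ((Nat.pow_le_pow_left hmv _).trans
            (Nat.pow_le_pow_right hv1 (by omega))))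
      · rw [card_range, smul_eq_mul]; gcongr; omega
    calc _ ≤ (t + 1) * v ^ t * (2 ^ (2 * t + 1) * (v * (v ^ t * Z))) := by gcongr; norm_num
      _ = _ := by rw [hLb]; ring
  · simp only [pow_zero, mul_one]
    exact le_trans (Nat.le_mul_of_pos_left _ (by norm_num)) (Nat.le_self_pow (by norm_num) _)
  · refine (gen_all (by omega)).mono ?_
    rw [hcc]
    have : j ≤ t := by omega
    exact (Nat.pow_le_pow_left (by gcongr; norm_num) _).trans
      (Nat.pow_le_pow_right (by positivity) (by gcongr))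
  · have : 2 ^ j ≤ 2 ^ t := Nat.pow_le_pow_right (by norm_num) (by omega)
    calc _ = (1 + cc * 2 ^ j) * (1 + cc * 2 ^ t) ^ j := by ring
      _ ≤ (1 + cc * 2 ^ t) * (1 + cc * 2 ^ t) ^ j := by gcongr
      _ = _ := by ring
  · have a : Z * Z ≤ (m + m).choose (h + h) := by
      rw [Nat.add_choose_eq]
      exact single_le_sum (f := fun p : ℕ × ℕ => m.choose p.1 * m.choose p.2) (a := (h, h))
        (fun _ _ => Nat.zero_le _) (HasAntidiagonal.mem_antidiagonal.2 rfl)
    have b : (m + m).choose (h + h) ≤ (m + m).choose (k - t) := choose_mono_half (by omega) (by omega)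
    have c : (m + m).choose (k - t) ≤ (v - 2 * t).choose (k - t) := Nat.choose_le_choose _ (by omega)
    have d := choose_steps (v - 2 * t) (k - t) (t - j)
    rw [show v - 2 * t + 2 * (t - j) = v - 2 * j by omega, show k - t + (t - j) = k - j by omega] at d
    exact a.trans (b.trans (c.trans d))
  · have a : ∑ j ∈ range (t + 1), cc * ((1 + cc * 2 ^ t) ^ j * v ^ j * ((t + 1) * Lb)) * (2 ^ j * 2 ^ (t + 1))
        ≤ (t + 1) * (cc * ((1 + cc * 2 ^ t) ^ t * v ^ t * ((t + 1) * Lb)) * (2 ^ t * 2 ^ (t + 1))) := by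
      refine (sum_le_card_nsmul _ _ _ fun j hj => ?_).trans (by rw [card_range, smul_eq_mul])
      have : j ≤ t := by have := mem_range.1 hj; omega
      gcongr
      · omega
      · norm_num
    calc _ ≤ v ^ t * Lb + (t + 1) * (cc * ((1 + cc * 2 ^ t) ^ t * v ^ t * ((t + 1) * Lb))
          * (2 ^ t * 2 ^ (t + 1))) := Nat.add_le_add (Nat.le_mul_of_pos_left _ (by positivity)) a
      _ = κ * v ^ (3 * t + 1) * Z := by rw [hκ, hLb]; ring
      _ ≤ _ := by gcongr

theorem asym (t : ℕ) : ∃ K, t < K ∧ ∀ k v, K ≤ k → k + K ≤ v →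
    (∀ j ≤ t, Even ((v - j).choose (k - j))) → A (t + 1) k v := by
  obtain ⟨K, h1, h2⟩ := asym_half t
  refine ⟨K, h1, fun k v hk hv he => ?_⟩
  by_cases h : 2 * k ≤ v
  · exact h2 k v hk h he
  have key : ∀ j i, i + j ≤ t → Even ((v - i - j).choose (k - i)) := by
    intro j
    induction j with
    | zero => intro i hi; exact he i hi
    | succ j ih =>
      intro i hi
      have a := ih i (by omega)
      have b := ih (i + 1) (by omega)
      rw [show v - i - j = v - i - (j + 1) + 1 by omega, show k - i = k - (i + 1) + 1 by omega,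
        Nat.choose_succ_succ', Nat.even_add] at a
      rw [show v - (i + 1) - j = v - i - (j + 1) by omega] at b
      rw [show k - i = k - (i + 1) + 1 by omega]
      exact a.1 b
  have := (h2 (v - k) v (by omega) (by omega) fun j hj => by
    have := key j 0 (by omega)
    rwa [Nat.sub_zero, Nat.sub_zero, ← Nat.choose_symm (by omega),
      show v - j - k = v - k - j by omega] at this).compl (by omega)
  rwa [Nat.sub_sub_self (by omega)] at this

end H18.Halv
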