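import Pool.Agent.H18.Halv1

set_option autoImplicit false

namespace H18.Halv
open Finset

lemma piece {s1 s2 x k : ℕ} (X1 X2 Z : Finset ℕ) (h12 : Disjoint X1 X2)
    (h1 : Disjoint X1 Z) (h2 : Disjoint X2 Z) (p1 : A s1 x X1.card)
    (p2 : ∀ y, x + y + Z.card = k → A s2 y X2.card) (G : Finset (Finset ℕ))
    (hG : ∀ B, B ∈ G ↔ B ⊆ X1 ∪ X2 ∪ Z ∧ Z ⊆ B ∧ B.card = k ∧ (B ∩ X1).card = x) :
    Part (s1 + s2) G := by
  have hc : ∀ B, B ⊆ X1 ∪ X2 ∪ Z → Z ⊆ B → B.card = (B ∩ X1).card + (B ∩ X2).card + Z.card := by
    intro B hB hZ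
    rw [← card_union_of_disjoint (Disjoint.mono inter_subset_right inter_subset_right h12),
      ← card_union_of_disjoint (disjoint_union_left.2
        ⟨h1.mono_left inter_subset_right, h2.mono_left inter_subset_right⟩)]
    congr 1
    ext z
    have := @hB z; have := @hZ z
    simp only [mem_union, mem_inter] at *
    tauto
  by_cases hx : x + Z.card ≤ k
  · refine part_cut X1 X2 Z h12 h1 h2 (p1.on X1 rfl) ((p2 (k - x - Z.card) (by omega)).on X2 rfl) G
      fun B => ?_
    rw [hG]
    refine and_congr_right fun a => and_congr_right fun b => ?_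
    have := hc B a b
    omega
  · have : G = ∅ := by
      refine eq_empty_of_forall_notMem fun B hB => ?_
      obtain ⟨a, b, c, d⟩ := (hG B).1 hB
      have := hc B a b
      omega
    rw [this]; exact part_empty _

def xx (B : Finset ℕ) (i : ℕ) : ℕ := (B ∩ range i).card

lemma xx_succ (B : Finset ℕ) (i : ℕ) : xx B (i + 1) = xx B i + if i ∈ B then 1 else 0 := by
  unfold xx
  rw [range_add_one]
  split_ifs with h
  · rw [inter_insert_of_mem h, card_insert_of_notMem (by simp)]
  · rw [inter_insert_of_notMem h, add_zero]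

lemma xx_le (B : Finset ℕ) (i : ℕ) : xx B i ≤ i :=
  (card_le_card inter_subset_right).trans (card_range i).le

lemma piece_a {s1 s2 x k i v : ℕ} (hi : i ≤ v) (p1 : A s1 x i)
    (p2 : ∀ y, x + y = k → A s2 y (v - i)) :
    Part (s1 + s2) ((powersetCard k (range v)).filter (fun B => xx B i = x)) := by
  refine piece (k := k) (range i) (Ico i v) ∅ ?_ (by simp) (by simp) (by simpa using p1)
    (by simpa using p2) _ fun B => ?_
  · rw [disjoint_left]; intro a; simp only [mem_range, mem_Ico]; omega
  · have : range i ∪ Ico i v ∪ ∅ = range v := by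
      ext a; simp only [mem_range, mem_Ico, mem_union, union_empty]; omega
    rw [this]
    simp [mem_powersetCard, xx, and_assoc]

lemma piece_b {s1 s2 x k i v : ℕ} (hi : i < v) (p1 : A s1 x i)
    (p2 : ∀ y, x + y = k → A s2 y (v - (i + 1))) :
    Part (s1 + s2) ((powersetCard k (range v)).filter (fun B => xx B i = x ∧ i ∉ B)) := by
  refine piece (k := k) (range i) (Ico (i + 1) v) ∅ ?_ (by simp) (by simp) (by simpa using p1)
    (by simpa using p2) _ fun B => ?_
  · rw [disjoint_left]; intro a; simp only [mem_range, mem_Ico]; omega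
  · have : B ⊆ range i ∪ Ico (i + 1) v ∪ ∅ ↔ B ⊆ range v ∧ i ∉ B := by
      simp only [subset_iff, mem_range, mem_Ico, mem_union, union_empty]
      constructor
      · intro h
        exact ⟨fun a ha => by have := h ha; omega, fun hb => by have := h hb; omega⟩
      · rintro ⟨h, hb⟩ a ha
        have := h ha
        have : a ≠ i := fun e => hb (e ▸ ha)
        omega
    rw [this]
    simp only [mem_powersetCard, xx, mem_filter, empty_subset]
    tauto

lemma piece_c {s1 s2 x k i v : ℕ} (hi : i < v) (p1 : A s1 x i)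
    (p2 : ∀ y, x + y + 1 = k → A s2 y (v - (i + 1))) :
    Part (s1 + s2) ((powersetCard k (range v)).filter (fun B => xx B i = x ∧ i ∈ B)) := by
  refine piece (k := k) (range i) (Ico (i + 1) v) {i} ?_ (by simp) (by simp) (by simpa using p1)
    (by simpa using p2) _ fun B => ?_
  · rw [disjoint_left]; intro a; simp only [mem_range, mem_Ico]; omega
  · have : range i ∪ Ico (i + 1) v ∪ {i} = range v := by
      ext a; simp only [mem_range, mem_Ico, mem_union, mem_singleton]; omega
    rw [this]
    simp only [mem_powersetCard, xx, mem_filter, singleton_subset_iff]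
    tauto

lemma A_zero (k v : ℕ) : A 0 k v := part_zero _

lemma pascal {s k v : ℕ} (h1 : A s (k + 1) v) (h2 : A s k v) : A s (k + 1) (v + 1) := by
  refine part_split (fun B => v ∈ B) ?_ ?_
  · have := piece_c (k := k + 1) (v := v + 1) (by omega) h2 (fun y _ => A_zero y _)
    rw [add_zero] at this
    convert this using 1
    refine filter_congr fun B hB => ⟨fun h => ⟨?_, h⟩, fun h => h.2⟩
    have := xx_succ B v
    rw [mem_powersetCard] at hB
    rw [if_pos h, xx, inter_eq_left.2 hB.1] at this
    omega
  · have := piece_b (k := k + 1) (v := v + 1) (by omega) h1 (fun y _ => A_zero y _)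
    rw [add_zero] at this
    convert this using 1
    refine filter_congr fun B hB => ⟨fun h => ⟨?_, h⟩, fun h => h.2⟩
    have := xx_succ B v
    rw [mem_powersetCard] at hB
    rw [if_neg h, xx, inter_eq_left.2 hB.1] at this
    omega

lemma part_of_sub {s : ℕ} {G : Finset (Finset ℕ)} (h : ∀ B, B ∉ G) : Part s G := by
  rw [eq_empty_of_forall_notMem h]; exact part_empty s

lemma cut_two {t u c k : ℕ} (htk : t < k % u)
    (IH : ∀ v', v' < (c + 2) * u + t → ∀ s k', s ≤ t + 1 → s ≤ v' % u + 1 → v' % u < k' % u →
      A s k' v') : A (t + 1) k ((c + 2) * u + t) := by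
  rcases Nat.eq_zero_or_pos u with rfl | hu
  · exact A_big (by simpa using htk)
  have hK : k % u < u := Nat.mod_lt _ hu
  have hv : (c + 2) * u + t = u + ((c + 1) * u + t) := by ring
  have hcu : u ≤ (c + 1) * u := Nat.le_mul_of_pos_left _ (by omega)
  set v := (c + 2) * u + t with hvdef
  have pre : ∀ τ x, τ ≤ t → τ < x → x < u → A (τ + 1) x (u + τ) := by
    intro τ x h1 h2 h3
    have e : (u + τ) % u = τ := by rw [Nat.add_mod_left, Nat.mod_eq_of_lt (by omega)]
    exact IH _ (by omega) _ _ (by omega) (by omega) (by rw [e, Nat.mod_eq_of_lt h3]; exact h2)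
  have suf : ∀ r y w, r ≤ t → r < y % u → w = (c + 1) * u + r → A (r + 1) y w := by
    intro r y w h1 h2 h3
    have e : w % u = r := by rw [h3, Nat.mul_add_mod_self_right, Nat.mod_eq_of_lt (by omega)]
    exact IH _ (by omega) _ _ (by omega) (by omega) (by omega)
  have hM : ∀ d τ, τ + d = t → Part (t + 1) ((powersetCard k (range v)).filter
      (fun B => τ + 1 ≤ xx B (u + τ) ∧ xx B (u + τ) + 1 ≤ u)) := by
    intro d
    induction d with
    | zero =>
      intro τ hτ
      obtain rfl : τ = t := by omega
      refine part_fiber (fun B => xx B (u + τ)) fun x => ?_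
      by_cases hx : τ < x ∧ x < u
      · have := piece_a (k := k) (v := v) (by omega) (pre τ x le_rfl hx.1 hx.2)
          (fun y _ => A_zero y _)
        rw [add_zero] at this
        convert this using 1
        rw [filter_filter]
        exact filter_congr fun B _ => by omega
      · refine part_of_sub fun B hB => ?_
        simp only [mem_filter] at hB
        omega
    | succ d ih =>
      intro τ hτ
      refine part_split (fun B => τ + 1 + 1 ≤ xx B (u + (τ + 1)) ∧ xx B (u + (τ + 1)) + 1 ≤ u) ?_ ?_
      · convert ih (τ + 1) (by omega) using 1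
        rw [filter_filter]
        refine filter_congr fun B _ => ?_
        have := xx_succ B (u + τ)
        rw [← add_assoc u]
        split_ifs at this <;> omega
      · refine part_split (fun B => u + τ ∈ B) ?_ ?_
        · have := piece_c (k := k) (v := v) (s2 := d + 1) (by omega)
            (pre τ (u - 1) (by omega) (by omega) (by omega)) (fun y hy => suf d y _ (by omega) (by
              have : k = u + y := by omega
              rw [this, Nat.add_mod_left] at htk
              omega) (by omega))
          rw [show τ + 1 + (d + 1) = t + 1 by omega] at this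
          convert this using 1
          rw [filter_filter, filter_filter]
          refine filter_congr fun B _ => ?_
          have := xx_succ B (u + τ)
          rw [← add_assoc u]
          by_cases h : u + τ ∈ B <;> simp only [h, if_true, if_false, and_true, and_false] at this ⊢
          omega
        · have := piece_b (k := k) (v := v) (s2 := d + 1) (by omega)
            (pre τ (τ + 1) (by omega) (by omega) (by omega)) (fun y hy => suf d y _ (by omega) (by
              have h1 := Nat.add_mod (τ + 1) y u
              rw [hy, Nat.mod_eq_of_lt (show τ + 1 < u by omega)] at h1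
              have h2 := Nat.mod_le (τ + 1 + y % u) u
              omega) (by omega))
          rw [show τ + 1 + (d + 1) = t + 1 by omega] at this
          convert this using 1
          rw [filter_filter, filter_filter]
          refine filter_congr fun B _ => ?_
          have := xx_succ B (u + τ)
          rw [← add_assoc u]
          by_cases h : u + τ ∈ B <;>
            simp only [h, if_true, if_false, and_true, and_false, not_true, not_false_iff] at this ⊢
          omega
  refine part_split (fun B => 0 + 1 ≤ xx B (u + 0) ∧ xx B (u + 0) + 1 ≤ u) (hM t 0 (by omega)) ?_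
  refine part_fiber (fun B => xx B u) fun x => ?_
  by_cases hx : x = 0 ∨ x = u
  · have := piece_a (k := k) (v := v) (x := x) (i := u) (s2 := t + 1) (by omega) (A_zero _ _)
      (fun y hy => suf t y _ le_rfl (by
        rcases hx with rfl | rfl
        · rw [zero_add] at hy; rwa [hy]
        · rwa [← hy, Nat.add_mod_left] at htk) (by omega))
    rw [zero_add] at this
    convert this using 1
    rw [filter_filter]
    refine filter_congr fun B _ => ?_
    simp only [add_zero]
    omega
  · refine part_of_sub fun B hB => ?_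
    simp only [mem_filter, add_zero] at hB
    have := xx_le B u
    omega

theorem reduce (s0 : ℕ)
    (root : ∀ t n j, t < s0 → j ≤ t → t < 2 ^ n → A (t + 1) (2 ^ n + j) (2 ^ (n + 1) + t))
    (small : ∀ t n k, t < s0 → 2 ^ n ≤ t → t < k → k < 2 ^ (n + 1) →
      A (t + 1) k (2 ^ (n + 1) + t)) (v : ℕ) :
    ∀ l s k, s ≤ s0 → s ≤ v % 2 ^ l + 1 → v % 2 ^ l < k % 2 ^ l → A s k v := by
  induction v using Nat.strong_induction_on with
  | _ v IH =>
  intro l s k hs h1 h2
  rcases s with _ | t
  · exact A_zero _ _
  have cut : ∀ l c, v = (c + 2) * 2 ^ l + t → t < k % 2 ^ l → A (t + 1) k v := by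
    intro l c hv hk
    rw [hv]
    exact cut_two hk fun v' hv' s k' a b c => IH v' (by omega) l s k' (by omega) b c
  have hu : 0 < 2 ^ l := by positivity
  have hK := Nat.mod_lt k hu
  have hv := Nat.div_add_mod v (2 ^ l)
  have hk := Nat.div_add_mod k (2 ^ l)
  by_cases hV : t < v % 2 ^ l
  · obtain ⟨v', rfl⟩ : ∃ v', v = v' + 1 := ⟨v - 1, by omega⟩
    obtain ⟨k', rfl⟩ : ∃ k', k = k' + 1 := ⟨k - 1, by omega⟩
    have e : ∀ a, 0 < (a + 1) % 2 ^ l → a % 2 ^ l + 1 = (a + 1) % 2 ^ l := by
      intro a ha
      have h3 := Nat.mod_lt a hu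
      rw [← Nat.mod_add_mod] at ha ⊢
      rcases Nat.lt_or_ge (a % 2 ^ l + 1) (2 ^ l) with h | h
      · rw [Nat.mod_eq_of_lt h]
      · rw [show a % 2 ^ l + 1 = 2 ^ l by omega, Nat.mod_self] at ha
        omega
    have e1 := e v' (by omega)
    have e2 := e k' (by omega)
    exact pascal (IH v' (by omega) l _ _ hs (by omega) (by omega))
      (IH v' (by omega) l _ _ hs (by omega) (by omega))
  have hVt : v % 2 ^ l = t := by omega
  by_cases hkv : v < k
  · exact A_big hkv
  rcases hc : v / 2 ^ l with _ | _ | c
  · rw [hc] at hv; omega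
  · rw [hc] at hv
    have hk0 : k / 2 ^ l = 0 := by
      rcases hq : k / 2 ^ l with _ | q
      · rfl
      · rw [hq, Nat.mul_succ] at hk; omega
    rw [hk0] at hk
    rcases l with _ | n
    · omega
    have hp : 2 ^ (n + 1) = 2 * 2 ^ n := by ring
    have hv' : v = 2 ^ (n + 1) + t := by omega
    by_cases hw : 2 ^ n ≤ t
    · rw [hv']; exact small t n k (by omega) hw (by omega) (by omega)
    by_cases hj : t < k % 2 ^ n
    · exact cut n 0 (by omega) hj
    have hkw : 2 ^ n ≤ k := by
      by_contra h
      rw [Nat.mod_eq_of_lt (by omega)] at hj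
      omega
    obtain ⟨j, rfl⟩ := Nat.exists_eq_add_of_le hkw
    rw [Nat.add_mod_left, Nat.mod_eq_of_lt (by omega)] at hj
    rw [hv']; exact root t n j (by omega) (by omega) (by omega)
  · exact cut l c (by rw [hc] at hv; rw [mul_comm, ← hVt]; exact hv.symm) (by omega)

lemma odd_choose (v : ℕ) : ∀ k, (∀ l, k % 2 ^ l ≤ v % 2 ^ l) → v.choose k % 2 = 1 := by
  induction v using Nat.strong_induction_on with
  | _ v IH =>
  intro k h
  rcases Nat.eq_zero_or_pos v with rfl | hv
  · have := h k
    rw [Nat.mod_eq_of_lt Nat.lt_two_pow_self] at this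
    obtain rfl : k = 0 := by simpa using this
    rfl
  have h1 := h 1
  haveI : Fact (Nat.Prime 2) := ⟨Nat.prime_two⟩
  have := Choose.choose_modEq_choose_mod_mul_choose_div_nat (n := v) (k := k) (p := 2)
  unfold Nat.ModEq at this
  have h2 := IH (v / 2) (by omega) (k / 2) fun l => by
    have := h (l + 1)
    rw [pow_succ', Nat.mod_mul, Nat.mod_mul] at this
    omega
  have h3 : (v % 2).choose (k % 2) = 1 := by
    rw [pow_one] at h1
    rcases Nat.mod_two_eq_zero_or_one v with a | a <;> rcases Nat.mod_two_eq_zero_or_one k with b | b <;>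
      simp_all
  rw [this, h3, one_mul, h2]

lemma feas {t k v : ℕ} (htk : t ≤ k) (hkv : k ≤ v)
    (h : ∀ i, i ≤ t → Even ((v - i).choose (k - i))) :
    ∃ l, t ≤ v % 2 ^ l ∧ v % 2 ^ l < k % 2 ^ l := by
  classical
  have ex : ∃ l, l ≤ v ∧ v % 2 ^ l < k % 2 ^ l := by
    by_contra hn
    push Not at hn
    have := odd_choose v k fun l => by
      by_cases hl : l ≤ v
      · exact hn l hl
      · have : v < 2 ^ l := lt_of_lt_of_le Nat.lt_two_pow_self (Nat.pow_le_pow_right (by omega) (by omega))
        rw [Nat.mod_eq_of_lt this, Nat.mod_eq_of_lt (by omega)]; exact hkv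
    have h0 := h 0 (by omega)
    rw [Nat.even_iff] at h0
    simp only [Nat.sub_zero] at h0
    omega
  obtain ⟨l0, hl0, hl1⟩ := ex
  have hP := Nat.findGreatest_spec (P := fun l => v % 2 ^ l < k % 2 ^ l) hl0 hl1
  set l := Nat.findGreatest (fun l => v % 2 ^ l < k % 2 ^ l) v with hl
  have hmax : ∀ l', l < l' → k % 2 ^ l' ≤ v % 2 ^ l' := by
    intro l' h1
    by_cases h2 : l' ≤ v
    · exact not_lt.1 (Nat.findGreatest_is_greatest (P := fun l => v % 2 ^ l < k % 2 ^ l) h1 h2)
    · have : v < 2 ^ l' := lt_of_lt_of_le Nat.lt_two_pow_self (Nat.pow_le_pow_right (by omega) (by omega))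
      rw [Nat.mod_eq_of_lt this, Nat.mod_eq_of_lt (by omega)]; exact hkv
  refine ⟨l, ?_, hP⟩
  by_contra hV
  have h0 := h (v % 2 ^ l + 1) (by omega)
  rw [Nat.even_iff] at h0
  have sub : ∀ a i m : ℕ, i ≤ a % m → (a - i) % m = a % m - i := by
    intro a i m hi
    rcases Nat.eq_zero_or_pos m with rfl | hm
    · simp
    have := Nat.div_add_mod a m
    have h2 := Nat.mod_lt a hm
    rw [show a - i = m * (a / m) + (a % m - i) by omega, Nat.mul_add_mod, Nat.mod_eq_of_lt (by omega)]
  have := odd_choose (v - (v % 2 ^ l + 1)) (k - (v % 2 ^ l + 1)) fun l' => by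
    by_cases hl' : l < l'
    · have a := hmax l' hl'
      have b : k % 2 ^ l ≤ k % 2 ^ l' := by
        rw [← Nat.mod_mod_of_dvd k (pow_dvd_pow 2 hl'.le)]; exact Nat.mod_le _ _
      rw [sub _ _ _ (by omega), sub _ _ _ (by omega)]
      omega
    · obtain ⟨d, hd⟩ := Nat.exists_eq_add_of_le (not_lt.1 hl')
      have hv := Nat.div_add_mod v (2 ^ l)
      have hp : 0 < 2 ^ l' := by positivity
      have hq : 0 < v / 2 ^ l := by
        by_contra hq
        have : v / 2 ^ l = 0 := Nat.eq_zero_of_not_pos hq
        rw [this] at hv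
        have := Nat.mod_le k (2 ^ l)
        omega
      have hm : 0 < 2 ^ d * (v / 2 ^ l) := by positivity
      obtain ⟨q, hq'⟩ : ∃ q, 2 ^ d * (v / 2 ^ l) = q + 1 := ⟨_, (Nat.sub_add_cancel hm).symm⟩
      have e : 2 ^ l * (v / 2 ^ l) = 2 ^ l' * q + 2 ^ l' := by
        rw [← Nat.mul_succ, Nat.succ_eq_add_one, ← hq', ← mul_assoc, ← pow_add, ← hd]
      rw [show v - (v % 2 ^ l + 1) = 2 ^ l' * q + (2 ^ l' - 1) by omega, Nat.mul_add_mod,
        Nat.mod_eq_of_lt (show 2 ^ l' - 1 < 2 ^ l' by omega)]
      have := Nat.mod_lt (k - (v % 2 ^ l + 1)) hp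
      omega
  omega

end H18.Halv
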