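import Pool.Agent.H18.Halv1

set_option autoImplicit false

namespace H18.Halv
open Finset

def gt (P s : ℕ) : ℕ := Nat.mod (Nat.shiftRight P (Nat.mul (nat_lit 20) s)) (nat_lit 1048576)

lemma gt_def (P s : ℕ) : gt P s = (P >>> (20 * s)) % 1048576 := rfl

def sh (a d : ℕ) : ℕ := Nat.shiftLeft a (Nat.mul (nat_lit 20) d)

lemma sh_def (a d : ℕ) : sh a d = a * 2 ^ (20 * d) := Nat.shiftLeft_eq _ _

noncomputable def sumTo (f : ℕ → ℕ) (n : ℕ) : ℕ := Nat.rec (nat_lit 0) (fun i acc => Nat.add (f i) acc) n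

noncomputable def allTo (f : ℕ → Bool) (n : ℕ) : Bool := Nat.rec true (fun i acc => f i && acc) n

noncomputable def force {γ : Type} (n : ℕ) (k : ℕ → γ) : γ := Nat.rec (k 0) (fun m _ => k (Nat.succ m)) n

lemma force_eq {γ : Type} (n : ℕ) (k : ℕ → γ) : force n k = k n := by cases n <;> rfl

lemma sumTo_eq (f : ℕ → ℕ) (n : ℕ) : sumTo f n = ∑ i ∈ range n, f i := by
  induction n with
  | zero => rfl
  | succ n ih => rw [sum_range_succ, ← ih, add_comm (sumTo f n)]; rfl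

lemma allTo_iff (f : ℕ → Bool) (n : ℕ) : allTo f n = true ↔ ∀ i < n, f i = true := by
  induction n with
  | zero => simp [allTo]
  | succ n ih =>
    have : allTo f (n + 1) = (f n && allTo f n) := rfl
    rw [this, Bool.and_eq_true, ih, Nat.forall_lt_succ_right, and_comm]

lemma gt_sum (s : ℕ) : ∀ (S : ℕ) (c : ℕ → ℕ), (∀ i, c i < 1048576) → s < S →
    gt (∑ i ∈ range S, c i * 2 ^ (20 * i)) s = c s := by
  induction s with
  | zero =>
    rintro (_ | S) c hc hs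
    · omega
    have e : ∑ i ∈ range S, c (i + 1) * 2 ^ (20 * (i + 1))
        = 1048576 * ∑ i ∈ range S, c (i + 1) * 2 ^ (20 * i) := by
      rw [mul_sum]; exact sum_congr rfl fun i _ => by ring
    rw [sum_range_succ', e, gt_def]
    have := hc 0
    simp only [mul_zero, Nat.shiftRight_zero, pow_zero, mul_one]
    omega
  | succ s ih =>
    rintro (_ | S) c hc hs
    · omega
    have e : ∑ i ∈ range S, c (i + 1) * 2 ^ (20 * (i + 1))
        = 1048576 * ∑ i ∈ range S, c (i + 1) * 2 ^ (20 * i) := by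
      rw [mul_sum]; exact sum_congr rfl fun i _ => by ring
    rw [sum_range_succ', e, ← ih S (fun i => c (i + 1)) (fun i => hc _) (by omega), gt_def, gt_def,
      show 20 * (s + 1) = 20 + 20 * s by ring, Nat.shiftRight_add, Nat.shiftRight_eq_div_pow _ 20]
    have := hc 0
    congr 2
    simp only [mul_zero, pow_zero, mul_one]
    omega

def pk (X : Finset ℕ) (st : Finset ℕ → ℕ) (T : Finset ℕ) : ℕ :=
  ∑ B ∈ X.powerset, if T ⊆ B then 2 ^ (20 * st B) else 0

lemma sum_st {X : Finset ℕ} {st : Finset ℕ → ℕ} {S : ℕ} (hX : X.card < 20)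
    (h : ∀ B, B ⊆ X → st B < S) (T : Finset ℕ) (φ : ℕ → ℕ) :
    ∑ B ∈ X.powerset, (if T ⊆ B then φ (st B) else 0) = ∑ s ∈ range S, gt (pk X st T) s * φ s := by
  have key : ∀ φ : ℕ → ℕ, ∑ B ∈ X.powerset, (if T ⊆ B then φ (st B) else 0)
      = ∑ s ∈ range S, (X.powerset.filter (fun B => T ⊆ B ∧ st B = s)).card * φ s := by
    intro φ
    rw [← Finset.sum_fiberwise_of_maps_to (s := X.powerset) (t := range S) (g := st)
      (fun B hB => mem_range.2 (h B (mem_powerset.1 hB)))]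
    refine sum_congr rfl fun s _ => ?_
    rw [← sum_filter, filter_filter, card_eq_sum_ones, sum_mul]
    refine sum_congr (filter_congr fun B _ => and_comm) fun B hB => ?_
    rw [(mem_filter.1 hB).2.2, one_mul]
  rw [key]
  refine sum_congr rfl fun s hs => ?_
  rw [pk, key (fun s => 2 ^ (20 * s)), gt_sum s S _ _ (mem_range.1 hs)]
  intro i
  refine lt_of_le_of_lt (card_filter_le _ _) ?_
  rw [card_powerset]
  exact Nat.pow_lt_pow_right (by norm_num : 1 < 2) hX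

def Good (X : Finset ℕ) (S cd : ℕ) (L : List (List ℕ)) : Prop :=
  ∃ st : Finset ℕ → ℕ, (∀ B, B ⊆ X → st B < S ∧ gt cd (st B) = B.card) ∧
    ∀ T, T ⊆ X → T.card ≤ 3 → pk X st T ∈ L.getD T.card []

lemma good_leaf (x : ℕ) : Good {x} 2 1048576 [[1048577], [1048576]] := by
  refine ⟨fun B => B.card, fun B hB => ?_, fun T hT _ => ?_⟩
  · rcases subset_singleton_iff.1 hB with rfl | rfl
    · exact ⟨by simp, by rfl⟩
    · rw [card_singleton]; exact ⟨by simp, by rfl⟩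
  · have : ({x} : Finset ℕ).powerset = {∅, {x}} := by
      ext B; simp [subset_singleton_iff]
    rw [pk, this, sum_pair (by simp)]
    rcases subset_singleton_iff.1 hT with rfl | rfl <;> simp

lemma sum_two {X1 X2 : Finset ℕ} (hd : Disjoint X1 X2) {st1 st2 : Finset ℕ → ℕ} {S1 S2 : ℕ}
    (hX1 : X1.card < 20) (hX2 : X2.card < 20) (h1 : ∀ B, B ⊆ X1 → st1 B < S1)
    (h2 : ∀ B, B ⊆ X2 → st2 B < S2) {T : Finset ℕ} (hT : T ⊆ X1 ∪ X2) (φ : ℕ → ℕ → ℕ) :
    ∑ B ∈ (X1 ∪ X2).powerset, (if T ⊆ B then φ (st1 (B ∩ X1)) (st2 (B ∩ X2)) else 0)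
      = ∑ s1 ∈ range S1, gt (pk X1 st1 (T ∩ X1)) s1 *
          ∑ s2 ∈ range S2, gt (pk X2 st2 (T ∩ X2)) s2 * φ s1 s2 := by
  rw [← sum_st hX1 h1]
  have := sum_cut X1 X2 ∅ hd (by simp) (by simp)
    (fun B1 B2 => if T ∩ X1 ⊆ B1 then (if T ∩ X2 ⊆ B2 then φ (st1 B1) (st2 B2) else 0) else 0)
  simp only [union_empty, empty_subset, filter_true] at this
  refine Eq.trans (sum_congr rfl fun B _ => ?_) (this.trans (sum_congr rfl fun B _ => ?_))
  · have : T ⊆ B ↔ T ∩ X1 ⊆ B ∩ X1 ∧ T ∩ X2 ⊆ B ∩ X2 := by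
      constructor
      · intro h; exact ⟨inter_subset_inter h Subset.rfl, inter_subset_inter h Subset.rfl⟩
      · rintro ⟨c1, c2⟩ z hz
        have := @hT z hz; have := @c1 z; have := @c2 z
        simp only [mem_union, mem_inter] at *
        tauto
    by_cases c3 : T ∩ X1 ⊆ B ∩ X1 <;> by_cases c4 : T ∩ X2 ⊆ B ∩ X2 <;> simp [this, c3, c4]
  · rw [← sum_st hX2 h2]
    split_ifs <;> simp

lemma card_two {X1 X2 : Finset ℕ} (hd : Disjoint X1 X2) {T : Finset ℕ} (hT : T ⊆ X1 ∪ X2) :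
    (T ∩ X1).card + (T ∩ X2).card = T.card := by
  rw [← card_union_of_disjoint (Disjoint.mono inter_subset_right inter_subset_right hd),
    ← inter_union_distrib_left, inter_eq_left.2 hT]

noncomputable def conv (tab S1 S2 P1 P2 : ℕ) : ℕ :=
  sumTo (fun s1 => force (gt P1 s1) fun n1 => cond (Nat.beq n1 0) 0
    (sumTo (fun s2 => sh (Nat.mul n1 (gt P2 s2)) (gt tab (Nat.add (Nat.mul s1 S2) s2))) S2)) S1

noncomputable def chk (tab S1 c1 : ℕ) (L1 : List (List ℕ)) (S2 c2 : ℕ) (L2 : List (List ℕ))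
    (S c : ℕ) (L : List (List ℕ)) : Bool :=
  allTo (fun s1 => allTo (fun s2 => force (gt tab (s1 * S2 + s2)) fun d =>
    Nat.blt d S && Nat.beq (gt c d) (gt c1 s1 + gt c2 s2)) S2) S1 &&
  allTo (fun i1 => allTo (fun i2 => Nat.blt 3 (i1 + i2) || (L1.getD i1 []).all fun P1 =>
    (L2.getD i2 []).all fun P2 => force (conv tab S1 S2 P1 P2) fun P =>
      (L.getD (i1 + i2) []).any (Nat.beq P)) 4) 4

lemma Good.comb {X1 X2 : Finset ℕ} {S1 c1 S2 c2 : ℕ} {L1 L2 : List (List ℕ)} (g1 : Good X1 S1 c1 L1)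
    (g2 : Good X2 S2 c2 L2) (hd : Disjoint X1 X2) (hX1 : X1.card < 20) (hX2 : X2.card < 20)
    {tab S c : ℕ} {L : List (List ℕ)} (h : chk tab S1 c1 L1 S2 c2 L2 S c L = true) :
    Good (X1 ∪ X2) S c L := by
  obtain ⟨st1, a1, b1⟩ := g1
  obtain ⟨st2, a2, b2⟩ := g2
  simp only [chk, Bool.and_eq_true, allTo_iff, force_eq, Nat.blt_eq, Nat.beq_eq, Bool.or_eq_true,
    List.all_eq_true, List.any_eq_true] at h
  obtain ⟨h1, h2⟩ := h
  refine ⟨fun B => gt tab (st1 (B ∩ X1) * S2 + st2 (B ∩ X2)), fun B hB => ?_, fun T hT hT3 => ?_⟩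
  · obtain ⟨p1, q1⟩ := a1 (B ∩ X1) inter_subset_right
    obtain ⟨p2, q2⟩ := a2 (B ∩ X2) inter_subset_right
    obtain ⟨r1, r2⟩ := h1 _ p1 _ p2
    exact ⟨r1, by rw [r2, q1, q2, card_two hd hB]⟩
  · have hc := card_two hd hT
    rcases h2 (T ∩ X1).card (by omega) (T ∩ X2).card (by omega) with h3 | h3
    · omega
    obtain ⟨P, hP, e⟩ := h3 _ (b1 _ inter_subset_right (by omega)) _ (b2 _ inter_subset_right (by omega))
    rw [hc, ← e] at hP
    convert hP using 1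
    rw [pk, sum_two hd hX1 hX2 (fun B hB => (a1 B hB).1) (fun B hB => (a2 B hB).1) hT
      (fun s1 s2 => 2 ^ (20 * gt tab (s1 * S2 + s2))), conv, sumTo_eq]
    refine sum_congr rfl fun s1 _ => ?_
    rw [force_eq, sumTo_eq]
    rcases hn : gt (pk X1 st1 (T ∩ X1)) s1 with _ | n
    · simp
    · rw [mul_sum]
      exact sum_congr rfl fun s2 _ => by rw [sh_def, ← mul_assoc]; rfl

noncomputable def fq (k : ℕ) (R : List ℕ) (S1 c1 lo P1 : ℕ) : ℕ :=
  sumTo (fun s1 => force (gt P1 s1) fun n1 => cond (Nat.beq n1 0) 0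
    (sh (Nat.mul n1 (R.getD s1 0)) (gt lo (k - gt c1 s1)))) S1

noncomputable def fchk (s k : ℕ) (R : List ℕ) (S1 c1 : ℕ) (L1 : List (List ℕ)) (S2 c2 : ℕ)
    (L2 : List (List ℕ)) (lo : ℕ) (lam : List ℕ) : Bool :=
  allTo (fun s1 => Nat.ble (gt c1 s1) k && force (R.getD s1 0) fun r => Nat.beq r
    (sumTo (fun i => sh (Nat.mod (gt r i) 2) i) (gt lo (k - gt c1 s1 + 1) - gt lo (k - gt c1 s1)))) S1 &&
  allTo (fun c => force (gt lo c) fun a => force (gt lo (c + 1)) fun b => Nat.ble b S2 &&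
    allTo (fun s => cond (Nat.ble a s && Nat.blt s b) (Nat.beq (gt c2 s) c)
      (!Nat.beq (gt c2 s) c)) S2) (k + 1) &&
  allTo (fun i1 => (L1.getD i1 []).all fun P1 => force (fq k R S1 c1 lo P1) fun Q =>
    allTo (fun i2 => Nat.ble s (i1 + i2) || (L2.getD i2 []).all fun P2 =>
      Nat.beq (2 * sumTo (fun s2 => Nat.mul (gt Q s2) (gt P2 s2)) S2) (lam.getD (i1 + i2) 0)) 4) s

theorem Good.fin {X1 X2 : Finset ℕ} {S1 c1 S2 c2 : ℕ} {L1 L2 : List (List ℕ)} (g1 : Good X1 S1 c1 L1)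
    (g2 : Good X2 S2 c2 L2) (hd : Disjoint X1 X2) (hX1 : X1.card < 20) (hX2 : X2.card < 20)
    {s k lo v : ℕ} {R lam : List ℕ} (hs : s ≤ 4) (hk : s ≤ k + 1) (hv : (X1 ∪ X2).card = v)
    (hl : ∀ i < s, lam.getD i 0 = (v - i).choose (k - i))
    (h : fchk s k R S1 c1 L1 S2 c2 L2 lo lam = true) : A s k v := by
  refine part_transfer (X := X1 ∪ X2) (by simp [hv]) ?_
  obtain ⟨st1, a1, b1⟩ := g1
  obtain ⟨st2, a2, b2⟩ := g2
  simp only [fchk, Bool.and_eq_true, allTo_iff, force_eq, Nat.ble_eq, Nat.beq_eq, Bool.or_eq_true,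
    List.all_eq_true, sumTo_eq, sh_def, Nat.mul_eq] at h
  obtain ⟨⟨h1, h2⟩, h3⟩ := h
  let bt : ℕ → ℕ → ℕ := fun s1 s2 => gt (R.getD s1 0) (s2 - gt lo (k - gt c1 s1)) % 2
  have hbt : ∀ s1 s2, bt s1 s2 < 2 := fun _ _ => Nat.mod_lt _ (by norm_num)
  refine ⟨fun B => 2 * (bt (st1 (B ∩ X1)) (st2 (B ∩ X2)) : ℤ) - 1, fun B _ => ?_, fun T hT => ?_⟩
  · have := hbt (st1 (B ∩ X1)) (st2 (B ∩ X2))
    simp only
    omega
  by_cases hTX : T ⊆ X1 ∪ X2
  swap
  · refine sum_eq_zero fun B hB => ?_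
    rw [if_neg fun h => hTX (h.trans (mem_powersetCard.1 hB).1)]
  have hc := card_two hd hTX
  rcases h3 (T ∩ X1).card (by omega) _ (b1 _ inter_subset_right (by omega)) (T ∩ X2).card (by omega)
    with h4 | h4
  · omega
  have e := h4 _ (b2 _ inter_subset_right (by omega))
  rw [hc, hl _ hT, ← hv, ← card_between hTX (by omega)] at e
  set P1 := pk X1 st1 (T ∩ X1) with hP1
  set P2 := pk X2 st2 (T ∩ X2) with hP2
  let φ : ℕ → ℕ → ℕ := fun s1 s2 => if gt c1 s1 + gt c2 s2 = k then bt s1 s2 else 0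
  have eq : fq k R S1 c1 lo P1 = ∑ s2 ∈ range S2, (∑ s1 ∈ range S1, gt P1 s1 * φ s1 s2) * 2 ^ (20 * s2) := by
    simp only [sum_mul]
    rw [sum_comm, fq, sumTo_eq]
    refine sum_congr rfl fun s1 hs1 => ?_
    simp only [force_eq, sh_def, Nat.mul_eq]
    obtain ⟨k1, k0⟩ := h1 s1 (mem_range.1 hs1)
    obtain ⟨k2, k3⟩ := h2 (k - gt c1 s1) (by omega)
    rcases hn : gt P1 s1 with _ | n
    · simp
    change (n + 1) * _ * _ = _
    simp only [mul_assoc]
    rw [← mul_sum, k0, sum_mul]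
    congr 1
    have : ∀ i, Nat.mod (gt (R.getD s1 0) i) 2 * 2 ^ (20 * i) * 2 ^ (20 * gt lo (k - gt c1 s1))
        = (fun j => bt s1 j * 2 ^ (20 * j)) (gt lo (k - gt c1 s1) + i) := by
      intro i
      simp only [bt, Nat.add_sub_cancel_left]
      rw [mul_add, pow_add, mul_assoc, mul_comm (2 ^ (20 * i))]
      rfl
    simp only [this]
    rw [← sum_Ico_eq_sum_range (fun j => bt s1 j * 2 ^ (20 * j))]
    simp only [φ, ite_mul, zero_mul]
    rw [← sum_filter]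
    refine sum_congr ?_ fun _ _ => rfl
    ext j
    simp only [mem_Ico, mem_filter, mem_range]
    by_cases hj : j < S2
    · have := k3 j hj
      by_cases c1' : gt lo (k - gt c1 s1) ≤ j ∧ j < gt lo (k - gt c1 s1 + 1)
      · rw [Nat.ble_eq.mpr c1'.1, Nat.blt_eq.mpr c1'.2] at this
        simp only [Bool.and_self, cond_true, Nat.beq_eq] at this
        omega
      · have c2' : (Nat.ble (gt lo (k - gt c1 s1)) j && Nat.blt j (gt lo (k - gt c1 s1 + 1))) = false := by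
          rw [← Bool.not_eq_true, Bool.and_eq_true, Nat.ble_eq, Nat.blt_eq]; exact c1'
        rw [c2', cond_false, Bool.not_eq_true', ← Bool.not_eq_true, Nat.beq_eq] at this
        omega
    · omega
  have hb : ∀ s2, ∑ s1 ∈ range S1, gt P1 s1 * φ s1 s2 < 1048576 := by
    intro s2
    rw [hP1, ← sum_st hX1 (fun B hB => (a1 B hB).1) _ (fun s1 => φ s1 s2)]
    refine lt_of_le_of_lt (sum_le_card_nsmul _ _ 1 fun B _ => ?_) ?_
    · have := hbt (st1 B) s2
      simp only [φ]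
      split_ifs <;> omega
    · rw [card_powerset, smul_eq_mul, mul_one]
      exact Nat.pow_lt_pow_right (by norm_num : 1 < 2) hX1
  have e2 : ∑ s2 ∈ range S2, gt (fq k R S1 c1 lo P1) s2 * gt P2 s2
      = ∑ B ∈ powersetCard k (X1 ∪ X2), if T ⊆ B then bt (st1 (B ∩ X1)) (st2 (B ∩ X2)) else 0 := by
    have := sum_two hd hX1 hX2 (fun B hB => (a1 B hB).1) (fun B hB => (a2 B hB).1) hTX φ
    rw [powersetCard_eq_filter, sum_filter]
    refine Eq.trans ?_ (this.symm.trans (sum_congr rfl fun B hB => ?_))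
    · simp only [mul_sum]
      rw [sum_comm]
      refine sum_congr rfl fun s2 hs2 => ?_
      rw [eq, gt_sum s2 S2 _ hb (mem_range.1 hs2), sum_mul]
      exact sum_congr rfl fun s1 _ => by ring
    · simp only [φ]
      rw [(a1 _ inter_subset_right).2, (a2 _ inter_subset_right).2, card_two hd (mem_powerset.1 hB)]
      split_ifs <;> rfl
  rw [e2, card_filter] at e
  have e3 := congrArg (Nat.cast : ℕ → ℤ) e
  push_cast at e3
  rw [mul_sum, ← sub_eq_zero, ← sum_sub_distrib] at e3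
  refine Eq.trans (sum_congr rfl fun B _ => ?_) e3
  split_ifs <;> simp

end H18.Halv
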