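import Pool.Agent.H18.Halv1

set_option autoImplicit false

namespace H18.Halv
open Finset

section
variable (u m s : ℕ)

def spl (B : Finset ℕ) : Finset ℕ := (range m).filter (fun i => ¬ (u + 2 * i ∈ B ↔ u + 2 * i + 1 ∈ B))

noncomputable def pick (S : Finset ℕ) : Finset ℕ :=
  if h : s ≤ S.card then (exists_subset_card_eq h).choose else ∅

noncomputable def act (B : Finset ℕ) : Finset ℕ := pick s (spl u m B)

noncomputable def sgn (B : Finset ℕ) : ℤ := ∏ i ∈ act u m s B, if u + 2 * i ∈ B then -1 else 1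

def sw (i : ℕ) (B : Finset ℕ) : Finset ℕ := B.map (Equiv.swap (u + 2 * i) (u + 2 * i + 1)).toEmbedding

noncomputable def key (B : Finset ℕ) : Finset ℕ × Finset ℕ :=
  (act u m s B, B.filter (fun x => ∀ i ∈ act u m s B, x ≠ u + 2 * i ∧ x ≠ u + 2 * i + 1))

end

variable {u m s k : ℕ}

lemma act_sub (B : Finset ℕ) : act u m s B ⊆ spl u m B := by
  unfold act pick
  split_ifs with h
  · exact (exists_subset_card_eq h).choose_spec.1
  · exact empty_subset _

lemma act_card {B : Finset ℕ} (h : s ≤ (spl u m B).card) : (act u m s B).card = s := by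
  unfold act pick
  rw [dif_pos h]
  exact (exists_subset_card_eq h).choose_spec.2

lemma act_empty {B : Finset ℕ} (h : ¬ s ≤ (spl u m B).card) : act u m s B = ∅ := by
  unfold act pick
  rw [dif_neg h]

lemma act_card_le (B : Finset ℕ) : (act u m s B).card ≤ s := by
  by_cases h : s ≤ (spl u m B).card
  · exact (act_card h).le
  · simp [act_empty h]

lemma sgn_pm (B : Finset ℕ) : sgn u m s B = 1 ∨ sgn u m s B = -1 := by
  unfold sgn
  refine prod_induction _ (fun x : ℤ => x = 1 ∨ x = -1) ?_ (Or.inl rfl) ?_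
  · rintro a b (rfl | rfl) (rfl | rfl) <;> simp
  · intro i _; split_ifs <;> simp

lemma mem_sw (i x : ℕ) (B : Finset ℕ) :
    x ∈ sw u i B ↔ Equiv.swap (u + 2 * i) (u + 2 * i + 1) x ∈ B := by
  simp [sw, mem_map_equiv]

lemma mem_sw_ne {i x : ℕ} (B : Finset ℕ) (h1 : x ≠ u + 2 * i) (h2 : x ≠ u + 2 * i + 1) :
    x ∈ sw u i B ↔ x ∈ B := by
  rw [mem_sw, Equiv.swap_apply_of_ne_of_ne h1 h2]

lemma sw_sw (i : ℕ) (B : Finset ℕ) : sw u i (sw u i B) = B := by
  ext x; simp [mem_sw]

lemma spl_sw (i : ℕ) (B : Finset ℕ) : spl u m (sw u i B) = spl u m B := by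
  refine filter_congr fun j _ => ?_
  by_cases h : j = i
  · subst h
    simp only [mem_sw, Equiv.swap_apply_left, Equiv.swap_apply_right]
    tauto
  · rw [mem_sw_ne _ (by omega) (by omega), mem_sw_ne _ (by omega) (by omega)]

lemma act_sw (i : ℕ) (B : Finset ℕ) : act u m s (sw u i B) = act u m s B := by
  unfold act; rw [spl_sw]

lemma sw_mem {i : ℕ} (hi : i < m) {B : Finset ℕ} (hB : B ∈ powersetCard k (range (u + 2 * m))) :
    sw u i B ∈ powersetCard k (range (u + 2 * m)) := by
  rw [mem_powersetCard] at hB ⊢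
  refine ⟨fun x hx => ?_, by rw [sw, card_map, hB.2]⟩
  by_cases h1 : x = u + 2 * i
  · rw [mem_range]; omega
  by_cases h2 : x = u + 2 * i + 1
  · rw [mem_range]; omega
  exact hB.1 ((mem_sw_ne B h1 h2).1 hx)

lemma key_sw {i : ℕ} {B : Finset ℕ} (hi : i ∈ act u m s B) : key u m s (sw u i B) = key u m s B := by
  unfold key
  rw [act_sw]
  congr 1
  ext x
  simp only [mem_filter]
  exact and_congr_left fun h => mem_sw_ne B (h i hi).1 (h i hi).2

lemma sgn_sw {i : ℕ} {B : Finset ℕ} (hi : i ∈ act u m s B) : sgn u m s (sw u i B) = -sgn u m s B := by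
  unfold sgn
  rw [act_sw, ← mul_prod_erase _ _ hi, ← mul_prod_erase _ _ hi, ← neg_mul]
  congr 1
  · have := (mem_filter.1 (act_sub B hi)).2
    simp only [mem_sw, Equiv.swap_apply_left]
    by_cases h1 : u + 2 * i ∈ B <;> by_cases h2 : u + 2 * i + 1 ∈ B <;> simp_all
  · refine prod_congr rfl fun j hj => ?_
    have := ne_of_mem_erase hj
    simp only [mem_sw_ne B (show u + 2 * j ≠ u + 2 * i by omega)
      (show u + 2 * j ≠ u + 2 * i + 1 by omega)]

lemma null_closed {G : Finset (Finset ℕ)} (h1 : ∀ B ∈ G, s ≤ (spl u m B).card)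
    (h2 : ∀ B ∈ G, ∀ i ∈ act u m s B, sw u i B ∈ G) {T : Finset ℕ} (hT : T.card < s) :
    mom G (sgn u m s) T = 0 := by
  have ex : ∀ S : Finset ℕ, ∃ i, S.card = s → i ∈ S ∧ u + 2 * i ∉ T ∧ u + 2 * i + 1 ∉ T := by
    intro S
    by_contra hn
    push Not at hn
    have hS := (hn 0).1
    have : S ⊆ T.image (fun x => (x - u) / 2) := by
      intro i hi
      rw [mem_image]
      by_cases h : u + 2 * i ∈ T
      · exact ⟨_, h, by omega⟩
      · exact ⟨_, (hn i).2 hi h, by omega⟩
    have := (card_le_card this).trans card_image_le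
    omega
  choose ix hix using ex
  have hi : ∀ B ∈ G, _ := fun B hB => hix (act u m s B) (act_card (h1 B hB))
  have hsub : ∀ B ∈ G, (T ⊆ sw u (ix (act u m s B)) B ↔ T ⊆ B) := by
    intro B hB
    obtain ⟨_, b, c⟩ := hi B hB
    refine forall_congr' fun x => imp_congr_right fun hx => mem_sw_ne B ?_ ?_
    · rintro rfl; exact b hx
    · rintro rfl; exact c hx
  refine sum_involution (fun B _ => sw u (ix (act u m s B)) B) ?_ ?_ ?_ ?_
  · intro B hB
    simp only [hsub B hB, sgn_sw (hi B hB).1]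
    split_ifs <;> simp
  · intro B hB _ e
    have := sgn_sw (hi B hB).1
    rw [e] at this
    rcases sgn_pm (u := u) (m := m) (s := s) B with h | h <;> omega
  · intro B hB; exact h2 B hB _ (hi B hB).1
  · intro B _; rw [act_sw, sw_sw]

noncomputable def cls (u m s k : ℕ) (B : Finset ℕ) : Finset (Finset ℕ) :=
  (powersetCard k (range (u + 2 * m))).filter (fun C => key u m s C = key u m s B)

lemma key_out {B C : Finset ℕ} (h : key u m s C = key u m s B) {x : ℕ}
    (hx : ∀ i ∈ act u m s B, x ≠ u + 2 * i ∧ x ≠ u + 2 * i + 1) : x ∈ C ↔ x ∈ B := by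
  unfold key at h
  obtain ⟨h1, h2⟩ := Prod.mk.inj h
  rw [h1] at h2
  have := Finset.ext_iff.1 h2 x
  simpa only [mem_filter, and_iff_left hx] using this

lemma cls_card (B : Finset ℕ) : (cls u m s k B).card ≤ 2 ^ s := by
  refine le_trans ?_ (Nat.pow_le_pow_right (by norm_num) (act_card_le (u := u) (m := m) B))
  rw [← card_powerset]
  refine card_le_card_of_injOn (fun C => (act u m s B).filter (fun i => u + 2 * i ∈ C))
    (fun C _ => mem_coe.2 (mem_powerset.2 (filter_subset _ _))) fun C hC D hD e => ?_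
  have hC' := (mem_filter.1 hC).2
  have hD' := (mem_filter.1 hD).2
  ext x
  by_cases hx : ∀ i ∈ act u m s B, x ≠ u + 2 * i ∧ x ≠ u + 2 * i + 1
  · rw [key_out hC' hx, key_out hD' hx]
  · push Not at hx
    obtain ⟨i, hi, hx⟩ := hx
    have e1 := Finset.ext_iff.1 e i
    simp only [mem_filter, hi, true_and] at e1
    have a1 := (mem_filter.1 (act_sub C ((Prod.mk.inj hC').1 ▸ hi))).2
    have a2 := (mem_filter.1 (act_sub D ((Prod.mk.inj hD').1 ▸ hi))).2
    by_cases h : x = u + 2 * i
    · rw [h, e1]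
    · rw [hx h]; tauto

def St (u m s k : ℕ) (g : Finset ℕ → ℤ) (F : Finset (Finset ℕ)) : Prop :=
  (∀ B ∈ powersetCard k (range (u + 2 * m)), g B = 1 ∨ g B = -1) ∧
  (∀ B ∈ powersetCard k (range (u + 2 * m)), B ∉ F → s ≤ (spl u m B).card ∧ g B = sgn u m s B) ∧
  (∀ B ∈ powersetCard k (range (u + 2 * m)), ∀ C ∈ F, key u m s B = key u m s C → B ∈ F)

lemma St.flip {g : Finset ℕ → ℤ} {F : Finset (Finset ℕ)} (h : St u m s k g F) {B0 : Finset ℕ}
    (hB : B0 ∈ powersetCard k (range (u + 2 * m))) (hF : B0 ∉ F) {c : ℤ} (hc : c = 1 ∨ c = -1) :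
    ∃ g', St u m s k g' (F ∪ cls u m s k B0) ∧ ∀ T : Finset ℕ, T.card < s →
      mom (powersetCard k (range (u + 2 * m))) g' T
        = mom (powersetCard k (range (u + 2 * m))) g T - 2 * c * (if T ⊆ B0 then 1 else 0) := by
  obtain ⟨h1, h2, h3⟩ := h
  have hK : ∀ C ∈ cls u m s k B0, C ∉ F := fun C hC hCF =>
    hF (h3 B0 hB C hCF (mem_filter.1 hC).2.symm)
  have h0 : B0 ∈ cls u m s k B0 := mem_filter.2 ⟨hB, rfl⟩
  refine ⟨fun B => g B + (if B ∈ cls u m s k B0 then (c * sgn u m s B0 - 1) * sgn u m s B else 0)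
    - (if B = B0 then 2 * c else 0), ⟨fun B hB' => ?_, fun B hB' hn => ?_, fun B hB' C hC e => ?_⟩,
    fun T hT => ?_⟩
  · by_cases e : B = B0
    · subst e
      simp only [h0, if_true, (h2 B hB hF).2]
      rcases hc with rfl | rfl <;> rcases sgn_pm (u := u) (m := m) (s := s) B with a | a <;> simp [a]
    · by_cases e2 : B ∈ cls u m s k B0
      · simp only [e, e2, if_true, if_false, (h2 B hB' (hK B e2)).2]
        rcases hc with rfl | rfl <;> rcases sgn_pm (u := u) (m := m) (s := s) B with a | a <;>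
          rcases sgn_pm (u := u) (m := m) (s := s) B0 with b | b <;> simp [a, b]
      · simpa [e, e2] using h1 B hB'
  · rw [mem_union, not_or] at hn
    have e : B ≠ B0 := fun e => hn.2 (e ▸ h0)
    simpa [e, hn.2] using h2 B hB' hn.1
  · rcases mem_union.1 hC with a | a
    · exact mem_union_left _ (h3 B hB' C a e)
    · exact mem_union_right _ (mem_filter.2 ⟨hB', e.trans (mem_filter.1 a).2⟩)
  · have z : mom (cls u m s k B0) (sgn u m s) T = 0 := by
      refine null_closed (fun C hC => (h2 C (mem_filter.1 hC).1 (hK C hC)).1) (fun C hC i hi => ?_) hT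
      exact mem_filter.2 ⟨sw_mem (mem_range.1 (mem_filter.1 (act_sub C hi)).1) (mem_filter.1 hC).1,
        (key_sw hi).trans (mem_filter.1 hC).2⟩
    have e1 : ∑ B ∈ powersetCard k (range (u + 2 * m)), (if B ∈ cls u m s k B0 then
        (c * sgn u m s B0 - 1) * (if T ⊆ B then sgn u m s B else 0) else 0) = 0 := by
      rw [sum_ite_mem, inter_eq_right.2 (show cls u m s k B0 ⊆ _ from filter_subset _ _), ← mul_sum]
      exact mul_eq_zero_of_right _ z
    have e2 : ∑ B ∈ powersetCard k (range (u + 2 * m)), (if B = B0 then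
        2 * c * (if T ⊆ B then 1 else 0) else 0) = 2 * c * (if T ⊆ B0 then 1 else 0) := by
      rw [sum_ite_eq', if_pos hB]
    rw [← e2, ← (add_eq_left (a := mom _ g T)).2 e1]
    rw [mom, mom, ← sum_add_distrib, ← sum_sub_distrib]
    refine sum_congr rfl fun B _ => ?_
    split_ifs <;> simp

def pts : List (ℕ × ℕ) → Finset ℕ
  | [] => ∅
  | p :: ps => insert p.1 (insert p.2 (pts ps))

def Val (u v : ℕ) : List (ℕ × ℕ) → Prop
  | [] => True
  | p :: ps => p.1 ≠ p.2 ∧ p.1 ∉ pts ps ∧ p.2 ∉ pts ps ∧ p.1 < v ∧ p.2 < v ∧ (p.1 < u ∨ p.2 < u) ∧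
      Val u v ps

def cm : List (ℕ × ℕ) → Finset ℕ → Finset ℕ → ℤ
  | [], Y, T => if T ⊆ Y then 1 else 0
  | p :: ps, Y, T => cm ps (insert p.1 Y) T - cm ps (insert p.2 Y) T

lemma St.cube (ps : List (ℕ × ℕ)) : ∀ {g : Finset ℕ → ℤ} {F : Finset (Finset ℕ)} {Y : Finset ℕ} {c : ℤ},
    St u m s k g F → (c = 1 ∨ c = -1) → Val u (u + 2 * m) ps → Y ⊆ range (u + 2 * m) →
    Disjoint Y (pts ps) → Y.card + ps.length = k → (∀ B ∈ F, ¬ (Y ⊆ B ∧ B ⊆ Y ∪ pts ps)) →
    ∃ g' F', St u m s k g' F' ∧ F'.card ≤ F.card + 2 ^ ps.length * 2 ^ s ∧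
      (∀ B ∈ F', B ∈ F ∨ ∀ r < u, r ∉ pts ps → (r ∈ B ↔ r ∈ Y)) ∧ ∀ T : Finset ℕ, T.card < s →
      mom (powersetCard k (range (u + 2 * m))) g' T
        = mom (powersetCard k (range (u + 2 * m))) g T - 2 * c * cm ps Y T := by
  induction ps with
  | nil =>
    intro g F Y c h hc _ hY _ hk hF
    obtain ⟨g', a, b⟩ := h.flip (mem_powersetCard.2 ⟨hY, hk⟩)
      (fun hh => hF Y hh ⟨Subset.rfl, subset_union_left⟩) hc
    refine ⟨g', _, a, (card_union_le _ _).trans ?_, fun B hB => ?_, b⟩
    · simpa using cls_card Y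
    · refine (mem_union.1 hB).imp_right fun hB r hr _ => ?_
      exact key_out (mem_filter.1 hB).2 fun i _ => by omega
  | cons p ps ih =>
    intro g F Y c h hc hv hY hd hk hF
    obtain ⟨a, b⟩ := p
    obtain ⟨v1, v2, v3, v4, v5, v6, v7⟩ := hv
    simp only [pts, disjoint_insert_right, List.length_cons] at *
    obtain ⟨d1, d2, d3⟩ := hd
    obtain ⟨g1, F1, s1, c1, r1, m1⟩ := ih (Y := insert a Y) h hc v7
      (insert_subset (mem_range.2 v4) hY) (disjoint_insert_left.2 ⟨v2, d3⟩)
      (by rw [card_insert_of_notMem d1]; omega) (fun B hB hh => hF B hB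
        ⟨(subset_insert _ _).trans hh.1, hh.2.trans fun x => by
          simp only [mem_union, mem_insert]; tauto⟩)
    obtain ⟨g2, F2, s2, c2, r2, m2⟩ := ih (Y := insert b Y) (c := -c) s1 (by omega) v7
      (insert_subset (mem_range.2 v5) hY) (disjoint_insert_left.2 ⟨v3, d3⟩)
      (by rw [card_insert_of_notMem d2]; omega) (fun B hB hh => by
        rcases r1 B hB with e | e
        · exact hF B e ⟨(subset_insert _ _).trans hh.1, hh.2.trans fun x => by
            simp only [mem_union, mem_insert]; tauto⟩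
        · rcases v6 with v6 | v6
          · have := hh.2 ((e a v6 v2).2 (mem_insert_self _ _))
            simp only [mem_union, mem_insert] at this
            tauto
          · have := (e b v6 v3).1 (hh.1 (mem_insert_self _ _))
            simp only [mem_insert] at this
            tauto)
    refine ⟨g2, F2, s2, by rw [pow_succ 2 ps.length]; nlinarith, fun B hB => ?_, fun T hT => ?_⟩
    · rcases r2 B hB with e | e
      · refine (r1 B e).imp_right fun e r hr hn => ?_
        simp only [mem_insert, not_or] at hn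
        rw [e r hr hn.2.2, mem_insert, or_iff_right hn.1]
      · refine Or.inr fun r hr hn => ?_
        simp only [mem_insert, not_or] at hn
        rw [e r hr hn.2.2, mem_insert, or_iff_right hn.2.1]
    · rw [m2 T hT, m1 T hT, cm]; ring

lemma Val.card {v : ℕ} : ∀ {ps : List (ℕ × ℕ)}, Val u v ps →
    pts ps ⊆ range v ∧ (pts ps).card = 2 * ps.length
  | [], _ => by simp [pts]
  | p :: ps, ⟨v1, v2, v3, v4, v5, _, v7⟩ => by
    obtain ⟨a, b⟩ := Val.card v7
    refine ⟨insert_subset (mem_range.2 v4) (insert_subset (mem_range.2 v5) a), ?_⟩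
    rw [pts, card_insert_of_notMem (by simp [v1, v2]), card_insert_of_notMem v3, b, List.length_cons]
    ring

lemma St.cube' {ps : List (ℕ × ℕ)} {g : Finset ℕ → ℤ} {F : Finset (Finset ℕ)} {c : ℤ}
    (h : St u m s k g F) (hc : c = 1 ∨ c = -1) (hv : Val u (u + 2 * m) ps) (hk : ps.length ≤ k)
    (hF : F.card < (u + 2 * m - 2 * ps.length).choose (k - ps.length)) :
    ∃ g' F' Y, St u m s k g' F' ∧ F'.card ≤ F.card + 2 ^ ps.length * 2 ^ s ∧
      Disjoint Y (pts ps) ∧ Y.card = k - ps.length ∧ ∀ T : Finset ℕ, T.card < s →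
      mom (powersetCard k (range (u + 2 * m))) g' T
        = mom (powersetCard k (range (u + 2 * m))) g T - 2 * c * cm ps Y T := by
  obtain ⟨a, b⟩ := hv.card
  have : (F.image (fun B => B \ pts ps)).card
      < (powersetCard (k - ps.length) (range (u + 2 * m) \ pts ps)).card := by
    rw [card_powersetCard, card_sdiff_of_subset a, b, card_range]
    exact lt_of_le_of_lt card_image_le hF
  obtain ⟨Y, y1, y2⟩ := exists_mem_notMem_of_card_lt_card this
  rw [mem_powersetCard] at y1
  have hd : Disjoint Y (pts ps) := Disjoint.mono_left y1.1 sdiff_disjoint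
  obtain ⟨g', F', p1, p2, _, p4⟩ := h.cube ps hc hv (y1.1.trans sdiff_subset) hd (by omega)
    fun B hB hh => y2 (mem_image.2 ⟨B, hB, by
      ext x
      have := @hh.1 x; have := @hh.2 x; have := @disjoint_left.1 hd x
      simp only [mem_union, mem_sdiff] at *
      tauto⟩)
  exact ⟨g', F', Y, p1, p2, hd, y1.2, p4⟩

end H18.Halv
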