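import Pool.Agent.H18.Halv5

set_option autoImplicit false

namespace H18.Halv
open Finset

variable {u m s k v : ℕ}

def cv : List (ℕ × ℕ) → Finset ℕ → ℤ
  | [], _ => 1
  | p :: ps, T => ((if p.1 ∈ T then 1 else 0) - (if p.2 ∈ T then 1 else 0)) * cv ps T

lemma cm_insert (ps : List (ℕ × ℕ)) : ∀ (Y T : Finset ℕ) (a : ℕ),
    cm ps (insert a Y) T = cm ps Y (T.erase a) := by
  induction ps with
  | nil => intro Y T a; simp only [cm, subset_insert_iff]
  | cons p ps ih => intro Y T a; simp only [cm, insert_comm _ a Y, ih]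

lemma cm_zero (ps : List (ℕ × ℕ)) : ∀ (Y T : Finset ℕ) (x : ℕ), x ∈ T → x ∉ Y → x ∉ pts ps →
    cm ps Y T = 0 := by
  induction ps with
  | nil => intro Y T x a b _; exact if_neg fun h => b (h a)
  | cons p ps ih =>
    intro Y T x a b c
    simp only [pts, mem_insert, not_or] at c
    rw [cm, ih _ T x a (by simp [b, c.1]) c.2.2, ih _ T x a (by simp [b, c.2.1]) c.2.2, sub_zero]

lemma cm_cons {p : ℕ × ℕ} {ps : List (ℕ × ℕ)} (hv : Val u v (p :: ps)) {Y : Finset ℕ}
    (hd : Disjoint Y (pts (p :: ps))) (T : Finset ℕ) : cm (p :: ps) Y T =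
    (if p.1 ∈ T then cm ps Y (T.erase p.1) else 0) - (if p.2 ∈ T then cm ps Y (T.erase p.2) else 0) := by
  obtain ⟨v1, v2, v3, -⟩ := hv
  simp only [pts, disjoint_insert_right] at hd
  rw [cm, cm_insert, cm_insert]
  by_cases a : p.1 ∈ T <;> by_cases b : p.2 ∈ T <;> simp only [a, b, if_true, if_false]
  · rw [erase_eq_of_notMem b, cm_zero ps Y T _ a hd.1 v2]
  · rw [erase_eq_of_notMem a, cm_zero ps Y T _ b hd.2.1 v3]
  · rw [erase_eq_of_notMem a, erase_eq_of_notMem b, sub_self, sub_self]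

lemma cv_erase (ps : List (ℕ × ℕ)) (T : Finset ℕ) (a : ℕ) (ha : a ∉ pts ps) :
    cv ps (T.erase a) = cv ps T := by
  induction ps with
  | nil => rfl
  | cons p ps ih =>
    simp only [pts, mem_insert, not_or] at ha
    simp only [cv, ih ha.2.2, mem_erase, ne_eq, Ne.symm ha.1, Ne.symm ha.2.1, not_false_iff, true_and]

lemma cm_low (ps : List (ℕ × ℕ)) {Y : Finset ℕ} : Val u v ps → Disjoint Y (pts ps) → ∀ T : Finset ℕ,
    (T.card < ps.length → cm ps Y T = 0) ∧ (T.card = ps.length → cm ps Y T = cv ps T) := by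
  induction ps with
  | nil =>
    intro _ _ T
    refine ⟨fun h => absurd h (Nat.not_lt_zero _), fun h => ?_⟩
    rw [card_eq_zero.1 h]; simp [cm, cv]
  | cons p ps ih =>
    intro hv hd T
    rw [cm_cons hv hd, List.length_cons]
    obtain ⟨v1, v2, v3, _, _, _, v7⟩ := hv
    simp only [pts, disjoint_insert_right] at hd
    have ih := ih v7 hd.2.2
    have hc : ∀ a ∈ T, (T.erase a).card + 1 = T.card := fun a ha => card_erase_add_one ha
    constructor
    · intro h
      have : ∀ a, (if a ∈ T then cm ps Y (T.erase a) else 0) = 0 := fun a => by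
        split_ifs with ha
        · exact (ih _).1 (by have := hc a ha; omega)
        · rfl
      rw [this, this, sub_zero]
    · intro h
      have : ∀ a, a ∉ pts ps → (if a ∈ T then cm ps Y (T.erase a) else 0)
          = (if a ∈ T then 1 else 0) * cv ps T := fun a hn => by
        split_ifs with ha
        · rw [(ih _).2 (by have := hc a ha; omega), cv_erase _ _ _ hn, one_mul]
        · rw [zero_mul]
      rw [this _ v2, this _ v3, cv, sub_mul]

def nrm (v l : ℕ) (e : Finset ℕ → ℤ) : ℕ := ∑ T ∈ powersetCard l (range v), (e T).natAbs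

lemma nrm_erase (l a : ℕ) (e : Finset ℕ → ℤ) :
    nrm v (l + 1) (fun T => if a ∈ T then e (T.erase a) else 0) ≤ nrm v l e := by
  unfold nrm
  simp only [apply_ite Int.natAbs, Int.natAbs_zero]
  rw [← sum_filter, ← sum_image (g := fun T : Finset ℕ => T.erase a) (f := fun T => (e T).natAbs)]
  · refine sum_le_sum_of_subset fun S hS => ?_
    obtain ⟨T, hT, rfl⟩ := mem_image.1 hS
    simp only [mem_filter, mem_powersetCard] at hT ⊢
    exact ⟨(erase_subset _ _).trans hT.1.1, by rw [card_erase_of_mem hT.2, hT.1.2]; rfl⟩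
  · intro S hS T hT h
    rw [← insert_erase (mem_filter.1 hS).2, ← insert_erase (mem_filter.1 hT).2]
    exact congrArg _ h

lemma nrm_sub (l : ℕ) (e f : Finset ℕ → ℤ) : nrm v l (fun T => e T - f T) ≤ nrm v l e + nrm v l f := by
  unfold nrm
  rw [← sum_add_distrib]
  exact sum_le_sum fun T _ => Int.natAbs_sub_le _ _

lemma nrm_cm (ps : List (ℕ × ℕ)) {Y : Finset ℕ} (l : ℕ) : Val u v ps → Disjoint Y (pts ps) →
    nrm v (ps.length + l) (cm ps Y) ≤ 2 ^ ps.length * Y.card.choose l := by
  induction ps with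
  | nil =>
    intro _ _
    simp only [nrm, cm, List.length_nil, zero_add, pow_zero, one_mul, apply_ite Int.natAbs,
      Int.natAbs_zero, Int.natAbs_one]
    rw [← card_filter, ← card_powersetCard]
    refine card_le_card fun T hT => ?_
    simp only [mem_filter, mem_powersetCard] at hT ⊢
    exact ⟨hT.2, hT.1.2⟩
  | cons p ps ih =>
    intro hv hd
    rw [funext (cm_cons hv hd), List.length_cons, add_right_comm]
    simp only [pts, disjoint_insert_right] at hd
    have := ih hv.2.2.2.2.2.2 hd.2.2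
    have a := nrm_erase (v := v) (ps.length + l) p.1 (cm ps Y)
    have b := nrm_erase (v := v) (ps.length + l) p.2 (cm ps Y)
    refine (nrm_sub _ _ _).trans ?_
    rw [pow_succ]; nlinarith

def val (Ls : List (ℤ × List (ℕ × ℕ))) (T : Finset ℕ) : ℤ := (Ls.map fun p => p.1 * cv p.2 T).sum

def OkL (u v j : ℕ) (Ls : List (ℤ × List (ℕ × ℕ))) : Prop :=
  ∀ p ∈ Ls, (p.1 = 1 ∨ p.1 = -1) ∧ Val u v p.2 ∧ p.2.length = j

lemma St.level {j : ℕ} (hj : j ≤ k) (hs : j < s) (Ls : List (ℤ × List (ℕ × ℕ))) :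
    ∀ {g : Finset ℕ → ℤ} {F : Finset (Finset ℕ)}, St u m s k g F → OkL u (u + 2 * m) j Ls →
    F.card + Ls.length * (2 ^ j * 2 ^ s) ≤ (u + 2 * m - 2 * j).choose (k - j) →
    ∃ g' F', St u m s k g' F' ∧ F'.card ≤ F.card + Ls.length * (2 ^ j * 2 ^ s) ∧
      (∀ T : Finset ℕ, T.card < j → mom (powersetCard k (range (u + 2 * m))) g' T
        = mom (powersetCard k (range (u + 2 * m))) g T) ∧
      (∀ T : Finset ℕ, T.card = j → mom (powersetCard k (range (u + 2 * m))) g' T
        = mom (powersetCard k (range (u + 2 * m))) g T - 2 * val Ls T) ∧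
      ∀ l, j + l < s → nrm (u + 2 * m) (j + l) (mom (powersetCard k (range (u + 2 * m))) g')
        ≤ nrm (u + 2 * m) (j + l) (mom (powersetCard k (range (u + 2 * m))) g)
          + Ls.length * (2 * (2 ^ j * (k - j).choose l)) := by
  induction Ls with
  | nil => intro g F h _ _; exact ⟨g, F, h, by simp, fun _ _ => rfl, by simp [val], by simp⟩
  | cons p Ls ih =>
    intro g F h ok hF
    obtain ⟨o1, o2, o3⟩ := ok p (List.mem_cons_self ..)
    have hp : 0 < 2 ^ j * 2 ^ s := by positivity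
    rw [List.length_cons, add_mul, one_mul] at hF
    obtain ⟨g1, F1, Y, a1, a2, a3, a4, a5⟩ := h.cube' o1 o2 (by omega) (by rw [o3]; omega)
    rw [o3] at a2 a4
    obtain ⟨g2, F2, b1, b2, b3, b4, b5⟩ := ih a1 (fun q hq => ok q (List.mem_cons_of_mem _ hq)) (by omega)
    refine ⟨g2, F2, b1, by rw [List.length_cons, add_mul]; omega, fun T hT => ?_, fun T hT => ?_,
      fun l hl => ?_⟩
    · rw [b3 T hT, a5 T (by omega), (cm_low _ o2 a3 T).1 (by omega), mul_zero, sub_zero]
    · rw [b4 T hT, a5 T (by omega), (cm_low _ o2 a3 T).2 (by omega)]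
      simp only [val, List.map_cons, List.sum_cons]; ring
    · have c1 := nrm_cm p.2 l o2 a3
      rw [o3, a4] at c1
      have c2 : nrm (u + 2 * m) (j + l) (mom (powersetCard k (range (u + 2 * m))) g1)
          ≤ nrm (u + 2 * m) (j + l) (mom (powersetCard k (range (u + 2 * m))) g)
            + 2 * nrm (u + 2 * m) (j + l) (cm p.2 Y) := by
        unfold nrm
        rw [mul_sum, ← sum_add_distrib]
        refine sum_le_sum fun T hT => ?_
        rw [a5 T (by rw [(mem_powersetCard.1 hT).2]; exact hl)]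
        rcases o1 with e | e <;> rw [e] <;> omega
      have := b5 l hl
      rw [List.length_cons, add_mul]
      omega

def Gen (u v j : ℕ) (fn : Finset ℕ → ℤ) (N : ℕ) : Prop :=
  ∃ Ls, OkL u v j Ls ∧ Ls.length ≤ N ∧ ∀ T ∈ powersetCard j (range v), fn T = val Ls T

lemma Gen.congr {j N N' : ℕ} {f g : Finset ℕ → ℤ} (h : Gen u v j f N) (hN : N ≤ N')
    (e : ∀ T ∈ powersetCard j (range v), g T = f T) : Gen u v j g N' := by
  obtain ⟨Ls, a, b, c⟩ := h
  exact ⟨Ls, a, b.trans hN, fun T hT => (e T hT).trans (c T hT)⟩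

lemma gen_zero {j : ℕ} : Gen u v j (fun _ => 0) 0 :=
  ⟨[], fun _ h => absurd h List.not_mem_nil, le_rfl, fun _ _ => rfl⟩

lemma Gen.add {j N N' : ℕ} {f g : Finset ℕ → ℤ} (h : Gen u v j f N) (h' : Gen u v j g N') :
    Gen u v j (fun T => f T + g T) (N + N') := by
  obtain ⟨Ls, a, b, c⟩ := h
  obtain ⟨Ls', a', b', c'⟩ := h'
  refine ⟨Ls ++ Ls', fun p hp => (List.mem_append.1 hp).elim (a p) (a' p), by simp; omega,
    fun T hT => ?_⟩
  simp only [c T hT, c' T hT, val, List.map_append, List.sum_append]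

lemma Gen.neg {j N : ℕ} {f : Finset ℕ → ℤ} (h : Gen u v j f N) : Gen u v j (fun T => -f T) N := by
  obtain ⟨Ls, a, b, c⟩ := h
  refine ⟨Ls.map fun p => (-p.1, p.2), fun p hp => ?_, by simpa using b, fun T hT => ?_⟩
  · obtain ⟨q, hq, rfl⟩ := List.mem_map.1 hp
    exact ⟨by have := (a q hq).1; simp only; omega, (a q hq).2⟩
  · simp only [c T hT, val, List.map_map, List.sum_neg]
    congr 2; ext p; simp

lemma Gen.smul {j N : ℕ} {f : Finset ℕ → ℤ} (h : Gen u v j f N) (z : ℤ) :
    Gen u v j (fun T => z * f T) (N * z.natAbs) := by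
  have : ∀ n : ℕ, Gen u v j (fun T => (n : ℤ) * f T) (N * n) := by
    intro n
    induction n with
    | zero => exact gen_zero.congr (by simp) (by simp)
    | succ n ih => exact (ih.add h).congr (by rw [mul_add, mul_one]) fun T _ => by push_cast; ring
  obtain ⟨n, rfl | rfl⟩ := z.eq_nat_or_neg
  · simpa using this n
  · simpa using (this n).neg

lemma Gen.sum {ι : Type*} {j : ℕ} (I : Finset ι) {f : ι → Finset ℕ → ℤ} {N : ι → ℕ}
    (h : ∀ i ∈ I, Gen u v j (f i) (N i)) : Gen u v j (fun T => ∑ i ∈ I, f i T) (∑ i ∈ I, N i) := by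
  classical
  induction I using Finset.induction_on with
  | empty => exact gen_zero
  | insert a I ha ih =>
    simp only [sum_insert ha]
    exact (h a (mem_insert_self _ _)).add (ih fun i hi => h i (mem_insert_of_mem hi))

def GP (u v j c : ℕ) : Prop := ∀ h : Finset ℕ → ℤ,
  (∀ S : Finset ℕ, S.card < j → mom (powersetCard j (range v)) h S = 0) → Gen u v j h (c * nrm v j h)

lemma GP_of_phi {j c : ℕ} (φ : Finset ℕ → Finset ℕ → ℤ)
    (H : ∀ T ∈ powersetCard j (range v), Gen u v j (fun T' => (if T ⊆ T' then 1 else 0)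
      - ∑ S ∈ T.powerset.filter (fun S => S.card < j), φ S T') c) : GP u v j c := by
  intro h hm
  refine (Gen.sum _ fun T hT => (H T hT).smul (h T)).congr (by rw [nrm, mul_sum]) fun T' hT' => ?_
  simp only [mul_sub, sum_sub_distrib]
  have e1 : ∑ T ∈ powersetCard j (range v), h T * (if T ⊆ T' then 1 else 0) = h T' := by
    rw [sum_eq_single T' _ (fun h => absurd hT' h)]
    · simp
    · intro T hT hne
      rw [if_neg, mul_zero]
      intro hs
      exact hne (eq_of_subset_of_card_le hs (by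
        rw [(mem_powersetCard.1 hT).2, (mem_powersetCard.1 hT').2]))
  have e2 : ∑ T ∈ powersetCard j (range v), h T * ∑ S ∈ T.powerset.filter (fun S => S.card < j), φ S T'
      = ∑ S ∈ (range v).powerset.filter (fun S => S.card < j),
        φ S T' * mom (powersetCard j (range v)) h S := by
    simp only [mom, mul_sum]
    rw [sum_comm]
    refine sum_congr rfl fun T hT => ?_
    simp only [mul_ite, mul_zero]
    rw [← sum_filter]
    refine sum_congr ?_ fun S _ => mul_comm _ _
    ext S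
    simp only [mem_filter, mem_powerset]
    exact ⟨fun a => ⟨⟨a.1.trans (mem_powersetCard.1 hT).1, a.2⟩, a.1⟩, fun a => ⟨a.2, a.1.2⟩⟩
  rw [e1, e2, sum_eq_zero fun S hS => by rw [hm S (mem_filter.1 hS).2, mul_zero], sub_zero]

lemma mom_mom {j : ℕ} (X : Finset ℕ) (g : Finset ℕ → ℤ) {S : Finset ℕ} (hS : S.card ≤ j) :
    mom (powersetCard j X) (mom (powersetCard k X) g) S
      = ((k - S.card).choose (j - S.card) : ℤ) * mom (powersetCard k X) g S := by
  simp only [mom, mul_sum]
  have : ∀ T : Finset ℕ, (if S ⊆ T then ∑ B ∈ powersetCard k X, (if T ⊆ B then g B else 0) else 0)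
      = ∑ B ∈ powersetCard k X, (if S ⊆ T ∧ T ⊆ B then 1 else 0) * g B := by
    intro T; by_cases h : S ⊆ T <;> simp [h]
  simp only [this]
  rw [sum_comm]
  refine sum_congr rfl fun B hB => ?_
  rw [mem_powersetCard] at hB
  rw [← sum_mul, sum_boole]
  split_ifs with h
  · rw [← hB.2, ← card_between h hS]
    congr 3
    ext T
    simp only [mem_filter, mem_powersetCard]
    exact ⟨fun a => ⟨⟨a.2.2, a.1.2⟩, a.2.1⟩, fun a => ⟨⟨a.1.1.trans hB.1, a.1.2⟩, a.2, a.1.1⟩⟩
  · rw [filter_eq_empty_iff.2 fun T _ a => h (a.1.trans a.2)]; simp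

lemma mom_even {F : Finset (Finset ℕ)} {g : Finset ℕ → ℤ} (h : ∀ B ∈ F, g B = 1 ∨ g B = -1)
    (T : Finset ℕ) (he : Even (F.filter (fun B => T ⊆ B)).card) : (2 : ℤ) ∣ mom F g T := by
  have : (2 : ℤ) ∣ mom F g T - ((F.filter (fun B => T ⊆ B)).card : ℤ) := by
    rw [card_filter, mom]
    push_cast
    rw [← sum_sub_distrib]
    refine dvd_sum fun B hB => ?_
    rcases h B hB with e | e <;> split_ifs <;> simp [e]
  obtain ⟨r, hr⟩ := he
  omega

lemma St.kill {j c M : ℕ} (hj : j ≤ k) (hs : j < s) {g : Finset ℕ → ℤ} {F : Finset (Finset ℕ)}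
    (h : St u m s k g F) (h0 : ∀ T : Finset ℕ, T.card < j → mom (powersetCard k (range (u + 2 * m))) g T = 0)
    (he : Even ((u + 2 * m - j).choose (k - j))) (hG : GP u (u + 2 * m) j c)
    (hM : nrm (u + 2 * m) j (mom (powersetCard k (range (u + 2 * m))) g) ≤ 2 * M)
    (hF : F.card + c * M * (2 ^ j * 2 ^ s) ≤ (u + 2 * m - 2 * j).choose (k - j)) :
    ∃ g' F', St u m s k g' F' ∧ F'.card ≤ F.card + c * M * (2 ^ j * 2 ^ s) ∧
      (∀ T : Finset ℕ, T.card < j + 1 → mom (powersetCard k (range (u + 2 * m))) g' T = 0) ∧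
      ∀ l, j + l < s → nrm (u + 2 * m) (j + l) (mom (powersetCard k (range (u + 2 * m))) g')
        ≤ nrm (u + 2 * m) (j + l) (mom (powersetCard k (range (u + 2 * m))) g)
          + c * M * (2 * (2 ^ j * (k - j).choose l)) := by
  set e := mom (powersetCard k (range (u + 2 * m))) g with he'
  have hd : ∀ T ∈ powersetCard j (range (u + 2 * m)), e T = 2 * (e T / 2) := by
    intro T hT
    rw [mem_powersetCard] at hT
    refine (Int.mul_ediv_cancel' (mom_even h.1 T ?_)).symm
    rwa [card_between hT.1 (by omega), card_range, hT.2]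
  obtain ⟨Ls, a, b, d⟩ := hG (fun T => e T / 2) fun S hS => by
    have := mom_mom (k := k) (range (u + 2 * m)) g hS.le
    rw [← he', h0 S hS, mul_zero] at this
    have e2 : mom (powersetCard j (range (u + 2 * m))) e S
        = 2 * mom (powersetCard j (range (u + 2 * m))) (fun T => e T / 2) S := by
      simp only [mom, mul_sum]
      refine sum_congr rfl fun T hT => ?_
      split_ifs
      · exact hd T hT
      · rfl
    omega
  have hn : nrm (u + 2 * m) j e = 2 * nrm (u + 2 * m) j (fun T => e T / 2) := by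
    simp only [nrm, mul_sum]
    refine sum_congr rfl fun T hT => ?_
    have := hd T hT
    omega
  have hl : Ls.length ≤ c * M := b.trans (Nat.mul_le_mul_left _ (by omega))
  obtain ⟨g', F', b1, b2, b3, b4, b5⟩ := St.level hj hs Ls h a
    (le_trans (by gcongr) hF)
  refine ⟨g', F', b1, b2.trans (by gcongr), fun T hT => ?_, fun l hl' => (b5 l hl').trans (by gcongr)⟩
  rcases Nat.lt_or_ge T.card j with h1 | h1
  · rw [b3 T h1]; exact h0 T h1
  by_cases hT2 : T ⊆ range (u + 2 * m)
  · have hm : T ∈ powersetCard j (range (u + 2 * m)) := mem_powersetCard.2 ⟨hT2, by omega⟩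
    rw [b4 T (by omega), ← d T hm, ← he', ← hd T hm, sub_self]
  · exact sum_eq_zero fun B hB => if_neg fun hh => hT2 (hh.trans (mem_powersetCard.1 hB).1)

end H18.Halv
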