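import Pool.Agent.H18.Halv6

set_option autoImplicit false

namespace H18.Halv
open Finset

variable {u m s k v : ℕ}

lemma greedy {ι κ : Type*} [DecidableEq κ] (Q : (ι → ℤ) → ℤ) (h0 : Q 0 = 0)
    (par : ∀ x w, Q (x + w) + Q (x - w) = 2 * Q x + 2 * Q w) (w : κ → ι → ℤ) (L : Finset κ) :
    ∃ ε : κ → ℤ, (∀ B, ε B = 1 ∨ ε B = -1) ∧ Q (∑ B ∈ L, ε B • w B) ≤ ∑ B ∈ L, Q (w B) := by
  induction L using Finset.induction_on with
  | empty => exact ⟨fun _ => 1, fun _ => Or.inl rfl, by simp [h0]⟩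
  | insert a L ha ih =>
    obtain ⟨ε, h1, h2⟩ := ih
    have key : ∀ c : ℤ, ∑ B ∈ insert a L, Function.update ε a c B • w B
        = ∑ B ∈ L, ε B • w B + c • w a := by
      intro c
      rw [sum_insert ha, Function.update_self, add_comm]
      congr 1
      exact sum_congr rfl fun B hB => by rw [Function.update_of_ne (ne_of_mem_of_not_mem hB ha)]
    have pm : ∀ c : ℤ, (c = 1 ∨ c = -1) → ∀ B, Function.update ε a c B = 1 ∨ Function.update ε a c B = -1 := by
      intro c hc B
      by_cases e : B = a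
      · rw [e, Function.update_self]; exact hc
      · rw [Function.update_of_ne e]; exact h1 B
    have := par (∑ B ∈ L, ε B • w B) (w a)
    rw [sum_insert ha]
    by_cases h : Q (∑ B ∈ L, ε B • w B + w a) ≤ Q (∑ B ∈ L, ε B • w B - w a)
    · exact ⟨_, pm 1 (Or.inl rfl), by rw [key, one_smul]; omega⟩
    · exact ⟨_, pm (-1) (Or.inr rfl), by rw [key, neg_one_smul, ← sub_eq_add_neg]; omega⟩

def exc (u m s k : ℕ) : Finset (Finset ℕ) :=
  (powersetCard k (range (u + 2 * m))).filter (fun B => ¬ s ≤ (spl u m B).card)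

lemma init {D : ℕ} (hs : 0 < s) (hk : k ≤ u + 2 * m) (hv : 0 < u + 2 * m) (hD : 0 < D)
    (hL : s * (exc u m s k).card ≤ D ^ 2) :
    ∃ g, St u m s k g (exc u m s k) ∧ ∀ l < s,
      nrm (u + 2 * m) l (mom (powersetCard k (range (u + 2 * m))) g) ≤ (u + 2 * m) ^ l * D := by
  set v := u + 2 * m with hvd
  obtain ⟨ε, e1, e2⟩ := greedy (ι := Finset ℕ)
    (fun x => ∑ l ∈ range s, (v : ℤ) ^ (s - 1 - l) * ∑ T ∈ powersetCard l (range v), x T ^ 2)
    (by simp) (fun x w => by
      simp only [mul_sum, ← sum_add_distrib, Pi.add_apply, Pi.sub_apply]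
      exact sum_congr rfl fun l _ => sum_congr rfl fun T _ => by ring)
    (fun B T => if T ⊆ B then 1 else 0) (exc u m s k)
  refine ⟨fun B => if s ≤ (spl u m B).card then sgn u m s B else ε B,
    ⟨fun B _ => ?_, fun B hB hn => ?_, fun B hB C hC e => ?_⟩, fun l hl => ?_⟩
  · simp only
    split_ifs
    · exact sgn_pm B
    · exact e1 B
  · have : s ≤ (spl u m B).card := by
      by_contra h; exact hn (mem_filter.2 ⟨hB, h⟩)
    exact ⟨this, if_pos this⟩
  · refine mem_filter.2 ⟨hB, fun h => ?_⟩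
    have := act_card h
    rw [(Prod.mk.inj e).1, act_empty (mem_filter.1 hC).2, card_empty] at this
    omega
  set μ := mom (powersetCard k (range v)) (fun B => if s ≤ (spl u m B).card then sgn u m s B else ε B)
    with hμ
  have h1 : ∀ T : Finset ℕ, T.card < s →
      μ T = (∑ B ∈ exc u m s k, ε B • (fun T => if T ⊆ B then (1 : ℤ) else 0)) T := by
    intro T hT
    have z := null_closed (u := u) (m := m) (s := s)
      (G := (powersetCard k (range v)).filter (fun B => s ≤ (spl u m B).card))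
      (fun B hB => (mem_filter.1 hB).2) (fun B hB i hi => mem_filter.2
        ⟨sw_mem (mem_range.1 (mem_filter.1 (act_sub B hi)).1) (mem_filter.1 hB).1,
          by rw [spl_sw]; exact (mem_filter.1 hB).2⟩) hT
    rw [hμ, mom, ← sum_filter_add_sum_filter_not _ (fun B => s ≤ (spl u m B).card), Finset.sum_apply]
    rw [sum_congr rfl fun B hB => by rw [if_pos (mem_filter.1 hB).2]]
    refine (congrArg (· + _) z).trans ((zero_add _).trans (sum_congr rfl fun B hB => ?_))
    rw [if_neg (mem_filter.1 hB).2]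
    simp
  have h2 : ∀ B ∈ exc u m s k, ∑ l ∈ range s, (v : ℤ) ^ (s - 1 - l) *
      ∑ T ∈ powersetCard l (range v), (if T ⊆ B then (1 : ℤ) else 0) ^ 2 ≤ s * (v : ℤ) ^ (s - 1) := by
    intro B hB
    have hB' := (mem_powersetCard.1 (mem_filter.1 hB).1).2
    refine (sum_le_card_nsmul _ _ ((v : ℤ) ^ (s - 1)) fun l hl => ?_).trans (by simp)
    have a : ((powersetCard l (range v)).filter (fun T => T ⊆ B)).card ≤ v ^ l := by
      refine le_trans (card_le_card (t := powersetCard l B) fun T hT => ?_) ?_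
      · simp only [mem_filter, mem_powersetCard] at hT ⊢
        exact ⟨hT.2, hT.1.2⟩
      · rw [card_powersetCard, hB']
        exact (Nat.choose_le_pow _ _).trans (Nat.pow_le_pow_left hk _)
    simp only [ite_pow, one_pow, ne_eq, OfNat.ofNat_ne_zero, not_false_eq_true, zero_pow, sum_boole]
    rw [mem_range] at hl
    calc _ ≤ (v : ℤ) ^ (s - 1 - l) * (v : ℤ) ^ l := by gcongr; exact_mod_cast a
      _ = _ := by rw [← pow_add]; congr 1; omega
  have h3 : (v : ℤ) ^ (s - 1 - l) * ∑ T ∈ powersetCard l (range v), μ T ^ 2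
      ≤ (v : ℤ) ^ (s - 1 - l) * ((v : ℤ) ^ l * (D : ℤ) ^ 2) := by
    rw [← mul_assoc, ← pow_add, show s - 1 - l + l = s - 1 by omega,
      sum_congr rfl fun T hT => by rw [h1 T (by rw [(mem_powersetCard.1 hT).2]; exact hl)]]
    refine le_trans (single_le_sum (f := fun l => (v : ℤ) ^ (s - 1 - l) *
      ∑ T ∈ powersetCard l (range v),
        (∑ B ∈ exc u m s k, ε B • (fun T => if T ⊆ B then (1 : ℤ) else 0)) T ^ 2)
      (fun i _ => by positivity) (mem_range.2 hl)) (e2.trans ?_)
    refine (sum_le_card_nsmul _ _ _ h2).trans ?_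
    have : ((s * (exc u m s k).card : ℕ) : ℤ) ≤ ((D ^ 2 : ℕ) : ℤ) := by exact_mod_cast hL
    push_cast at this
    rw [nsmul_eq_mul]
    have hp : (0 : ℤ) ≤ (v : ℤ) ^ (s - 1) := by positivity
    nlinarith
  have h4 := le_of_mul_le_mul_left h3 (by positivity)
  have h5 : 2 * (D : ℤ) * (nrm v l μ : ℤ)
      ≤ ∑ T ∈ powersetCard l (range v), μ T ^ 2 + (v : ℤ) ^ l * (D : ℤ) ^ 2 := by
    have : ((powersetCard l (range v)).card : ℤ) ≤ (v : ℤ) ^ l := by
      rw [card_powersetCard, card_range]; exact_mod_cast Nat.choose_le_pow _ _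
    calc _ ≤ ∑ T ∈ powersetCard l (range v), (μ T ^ 2 + (D : ℤ) ^ 2) := by
          rw [nrm]; push_cast; rw [mul_sum]
          refine sum_le_sum fun T _ => ?_
          nlinarith [sq_nonneg (|μ T| - D), sq_abs (μ T)]
      _ ≤ _ := by
          rw [sum_add_distrib, sum_const, nsmul_eq_mul]
          gcongr
  have h6 : 2 * (D : ℤ) * (nrm v l μ : ℤ) ≤ 2 * (D : ℤ) * ((v : ℤ) ^ l * D) := by nlinarith
  exact_mod_cast le_of_mul_le_mul_left h6 (by positivity)

theorem absorb {q D C Lb : ℕ} (b c : ℕ → ℕ) (hs : 0 < s) (hsk : s ≤ k + 1) (hq0 : 0 < q)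
    (hq : q * k ≤ u + 2 * m) (hv : 0 < u + 2 * m) (hD : 0 < b 0 * D)
    (hLb : (exc u m s k).card ≤ Lb) (hL : s * Lb ≤ (2 * b 0 * D) ^ 2)
    (hG : ∀ j < s, GP u (u + 2 * m) j (c j)) (he : ∀ j < s, Even ((u + 2 * m - j).choose (k - j)))
    (hb : ∀ j, j + 1 < s → q * b j + c j * 2 ^ j * b j ≤ q * b (j + 1))
    (hC : ∀ j < s, C ≤ (u + 2 * m - 2 * j).choose (k - j))
    (hF : Lb + ∑ j ∈ range s, c j * (b j * (u + 2 * m) ^ j * D) * (2 ^ j * 2 ^ s) ≤ C) :
    A s k (u + 2 * m) := by
  set v := u + 2 * m with hvd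
  have hkv : k ≤ v := le_trans (Nat.le_mul_of_pos_left _ hq0) hq
  have main : ∀ j ≤ s, ∃ g F, St u m s k g F ∧
      F.card ≤ Lb + ∑ i ∈ range j, c i * (b i * v ^ i * D) * (2 ^ i * 2 ^ s) ∧
      (∀ T : Finset ℕ, T.card < j → mom (powersetCard k (range v)) g T = 0) ∧
      ∀ l, j + l < s → nrm v (j + l) (mom (powersetCard k (range v)) g) ≤ 2 * (b j * v ^ (j + l) * D) := by
    intro j
    induction j with
    | zero =>
      intro _
      obtain ⟨g, a1, a2⟩ := init (D := 2 * b 0 * D) hs hkv hv (by rw [mul_assoc]; omega)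
        ((Nat.mul_le_mul_left _ hLb).trans hL)
      refine ⟨g, _, a1, by simpa using hLb, fun T h => absurd h (Nat.not_lt_zero _), fun l hl => ?_⟩
      exact (a2 _ hl).trans (le_of_eq (by ring))
    | succ j ih =>
      intro hj
      obtain ⟨g, F, a1, a2, a3, a4⟩ := ih (by omega)
      have h1 : Lb + ∑ i ∈ range (j + 1), c i * (b i * v ^ i * D) * (2 ^ i * 2 ^ s) ≤ C :=
        le_trans (Nat.add_le_add_left (sum_le_sum_of_subset (range_subset_range.2 hj)) _) hF
      rw [sum_range_succ] at h1 ⊢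
      obtain ⟨g', F', b1, b2, b3, b4⟩ := a1.kill (j := j) (M := b j * v ^ j * D) (by omega) (by omega) a3
        (he j hj) (hG j hj) (a4 0 hj) (le_trans (by omega) (hC j hj))
      refine ⟨g', F', b1, by omega, b3, fun l hl => ?_⟩
      have c1 := b4 (l + 1) (by omega)
      have c2 := a4 (l + 1) (by omega)
      rw [show j + 1 + l = j + (l + 1) by ring]
      have c3 : q * (k - j).choose (l + 1) ≤ v ^ (l + 1) := by
        calc _ ≤ q * k ^ (l + 1) := Nat.mul_le_mul_left _
              ((Nat.choose_le_pow _ _).trans (Nat.pow_le_pow_left (by omega) _))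
          _ = q * k * k ^ l := by ring
          _ ≤ v * v ^ l := by gcongr
          _ = _ := by ring
      refine Nat.le_of_mul_le_mul_left ?_ hq0
      calc _ ≤ q * (2 * (b j * v ^ (j + (l + 1)) * D)
            + c j * (b j * v ^ j * D) * (2 * (2 ^ j * (k - j).choose (l + 1)))) :=
            Nat.mul_le_mul_left _ (c1.trans (Nat.add_le_add_right c2 _))
        _ = q * (2 * (b j * v ^ (j + (l + 1)) * D))
            + c j * (b j * v ^ j * D) * (2 * 2 ^ j) * (q * (k - j).choose (l + 1)) := by ring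
        _ ≤ q * (2 * (b j * v ^ (j + (l + 1)) * D))
            + c j * (b j * v ^ j * D) * (2 * 2 ^ j) * v ^ (l + 1) := by gcongr
        _ = 2 * ((q * b j + c j * 2 ^ j * b j) * v ^ (j + (l + 1)) * D) := by ring
        _ ≤ 2 * ((q * b (j + 1)) * v ^ (j + (l + 1)) * D) := by gcongr; exact hb j (by omega)
        _ = _ := by ring
  obtain ⟨g, F, a1, _, a3, _⟩ := main s le_rfl
  exact ⟨g, a1.1, a3⟩

lemma exc_card : (exc u m s k).card ≤ (∑ i ∈ range s, m.choose i) * 2 ^ (u + m) := by
  have h1 : ((range s).biUnion (fun i => powersetCard i (range m))).card ≤ ∑ i ∈ range s, m.choose i :=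
    card_biUnion_le.trans (le_of_eq (by simp))
  have h2 : (range u ∪ (range m).image (fun i => u + 2 * i)).powerset.card ≤ 2 ^ (u + m) := by
    rw [card_powerset]
    refine Nat.pow_le_pow_right (by norm_num) ((card_union_le _ _).trans ?_)
    have := card_image_le (s := range m) (f := fun i => u + 2 * i)
    simp only [card_range] at *
    omega
  refine le_trans ?_ (Nat.mul_le_mul h1 h2)
  rw [← card_product]
  refine card_le_card_of_injOn
    (fun B => (spl u m B, B ∩ (range u ∪ (range m).image (fun i => u + 2 * i)))) (fun B hB => ?_)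
    fun B hB C hC e => ?_
  · have := (mem_filter.1 hB).2
    refine mem_coe.2 (mem_product.2 ⟨mem_biUnion.2 ⟨(spl u m B).card, mem_range.2 (by omega),
      mem_powersetCard.2 ⟨filter_subset _ _, rfl⟩⟩, mem_powerset.2 inter_subset_right⟩)
  · obtain ⟨e1, e2⟩ := Prod.mk.inj e
    have hB' := (mem_powersetCard.1 (mem_filter.1 hB).1).1
    have hC' := (mem_powersetCard.1 (mem_filter.1 hC).1).1
    have ev : ∀ x ∈ range u ∪ (range m).image (fun i => u + 2 * i), (x ∈ B ↔ x ∈ C) := by
      intro x hx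
      simpa only [mem_inter, hx, and_true] using Finset.ext_iff.1 e2 x
    have ev2 : ∀ i < m, (u + 2 * i ∈ B ↔ u + 2 * i ∈ C) := fun i hi =>
      ev _ (mem_union_right _ (mem_image_of_mem _ (mem_range.2 hi)))
    ext x
    by_cases h1 : x < u
    · exact ev x (mem_union_left _ (mem_range.2 h1))
    by_cases h2 : x < u + 2 * m
    · obtain ⟨i, hi | hi⟩ : ∃ i, x = u + 2 * i ∨ x = u + 2 * i + 1 := ⟨(x - u) / 2, by omega⟩
      · rw [hi]; exact ev2 i (by omega)
      · have a := Finset.ext_iff.1 e1 i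
        have b := ev2 i (by omega)
        simp only [spl, mem_filter, mem_range, show i < m by omega, true_and] at a
        rw [hi]; tauto
    · exact ⟨fun h => absurd (mem_range.1 (hB' h)) h2, fun h => absurd (mem_range.1 (hC' h)) h2⟩

end H18.Halv
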