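import Pool.Agent.H18.Halv7

set_option autoImplicit false

namespace H18.Halv
open Finset

variable {v : ℕ}

def io (T : Finset ℕ) (x : ℕ) : ℤ := if x ∈ T then 1 else 0

lemma io_ins (x : ℕ) (S T : Finset ℕ) :
    (if insert x S ⊆ T then (1 : ℤ) else 0) = io T x * if S ⊆ T then 1 else 0 := by
  by_cases a : x ∈ T <;> simp [io, insert_subset_iff, a]

lemma io_one (x : ℕ) (T : Finset ℕ) : (if {x} ⊆ T then (1 : ℤ) else 0) = io T x := by simp [io]

lemma cv_cons (a b : ℕ) (ps : List (ℕ × ℕ)) (T : Finset ℕ) :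
    cv ((a, b) :: ps) T = (io T a - io T b) * cv ps T := rfl

lemma cv_nil (T : Finset ℕ) : cv [] T = 1 := rfl

lemma gen0 {u : ℕ} : GP u v 0 1 := by
  refine GP_of_phi (fun _ _ => 0) fun T hT => ⟨[(1, [])], by simp [OkL, Val], le_rfl, fun T' _ => ?_⟩
  rw [card_eq_zero.1 (mem_powersetCard.1 hT).2]
  simp [val, cv]

lemma gen1 : GP 5 v 1 1 := by
  refine GP_of_phi (fun _ T' => io T' 0) fun T hT => ?_
  rw [mem_powersetCard] at hT
  obtain ⟨x, rfl⟩ := card_eq_one.1 hT.2
  have hx : x < v := by simpa using hT.1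
  have e : ({x} : Finset ℕ).powerset.filter (fun S => S.card < 1) = {∅} := by
    ext S; simp only [mem_filter, mem_powerset, Nat.lt_one_iff, card_eq_zero, mem_singleton]
    exact ⟨fun h => h.2, fun h => ⟨h ▸ empty_subset _, h⟩⟩
  simp only [e, sum_singleton, io_one]
  by_cases h : x = 0
  · exact ⟨[], by simp [OkL], by simp, fun T' _ => by simp [val, h]⟩
  · exact ⟨[(1, [(x, 0)])], by simp [OkL, Val, pts]; omega, le_rfl,
      fun T' _ => by simp [val, cv_cons, cv_nil]⟩

def cc2 (T : Finset ℕ) : ℤ := io T 2 * io T 1 - io T 2 * io T 0 - io T 0 * io T 1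

lemma gen2 (hv : 5 ≤ v) : GP 5 v 2 2 := by
  refine GP_of_phi (fun S T' => if S = ∅ then cc2 T' else
    ∑ x ∈ S, if x = 0 then -cc2 T' else io T' x * io T' 0) fun T hT => ?_
  rw [mem_powersetCard] at hT
  obtain ⟨x, y, hxy, rfl⟩ : ∃ x y, x < y ∧ T = {x, y} := by
    obtain ⟨x, y, h, rfl⟩ := card_eq_two.1 hT.2
    rcases lt_or_gt_of_ne h with h | h
    · exact ⟨x, y, h, rfl⟩
    · exact ⟨y, x, h, pair_comm _ _⟩
  have hy : y < v := mem_range.1 (hT.1 (by simp))
  have e : ∀ φ : Finset ℕ → ℤ, ∑ S ∈ ({x, y} : Finset ℕ).powerset.filter (fun S => S.card < 2), φ S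
      = φ ∅ + φ {x} + φ {y} := by
    intro φ
    rw [sum_filter, sum_powerset_insert (by simp; omega), ← insert_empty_eq y,
      sum_powerset_insert (by simp), sum_powerset_insert (by simp)]
    simp [card_pair hxy.ne]
    ring
  simp only [e, io_ins, io_one, if_true, singleton_ne_empty, if_false, sum_singleton,
    if_neg (show y ≠ 0 by omega)]
  by_cases h0 : x = 0
  · subst h0
    exact ⟨[], by simp [OkL], by simp, fun T' _ => by simp [val]; ring⟩
  simp only [if_neg h0, cc2]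
  by_cases h1 : x = 1
  · subst h1
    by_cases h2 : y = 2
    · subst h2
      exact ⟨[], by simp [OkL], by simp, fun T' _ => by simp [val]; ring⟩
    · exact ⟨[(1, [(y, 2), (1, 0)])], by simp [OkL, Val, pts]; omega, by simp,
        fun T' _ => by simp [val, cv_cons, cv_nil]; ring⟩
  by_cases h2 : x = 2
  · subst h2
    exact ⟨[(1, [(2, 0), (y, 1)])], by simp [OkL, Val, pts]; omega, by simp,
      fun T' _ => by simp [val, cv_cons, cv_nil]; ring⟩
  · exact ⟨[(1, [(x, 0), (y, 1)]), (1, [(x, 2), (1, 0)])], by simp [OkL, Val, pts]; omega, by simp,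
      fun T' _ => by simp [val, cv_cons, cv_nil]; ring⟩

def psi (T : Finset ℕ) (x y z : ℕ) : ℤ :=
  io T x * io T y * io T z - io T 0 * (io T x * io T y + io T x * io T z + io T y * io T z)

def a3 (T : Finset ℕ) (x : ℕ) : ℤ :=
  if x = 1 then psi T 1 2 4 - psi T 3 2 4 else if x = 2 then psi T 2 1 4 - psi T 3 1 4
  else psi T x 1 2 - psi T 3 1 2

def cc3 (T : Finset ℕ) : ℤ := psi T 3 1 2 - a3 T 1 - a3 T 2

lemma gen3_aux (hv : 5 ≤ v) {x y z : ℕ} (h0 : 0 < x) (hxy : x < y) (hyz : y < z) (hz : z < v) :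
    Gen 5 v 3 (fun T => psi T x y z - a3 T x - a3 T y - a3 T z - cc3 T) 5 := by
  by_cases hx : 5 ≤ x
  · exact ⟨[(-1, [(0, 1), (2, 3), (4, x)]), (-1, [(0, 1), (2, x), (3, y)]), (-1, [(0, 2), (1, 3), (4, z)]), (-1, [(0, 2), (1, z), (3, x)]), (-1, [(0, x), (1, z), (2, y)])],
      by simp [OkL, Val, pts]; omega, by simp, fun T _ => by
      simp only [a3, cc3, if_neg (show x ≠ 1 by omega), if_neg (show x ≠ 2 by omega), if_neg (show y ≠ 1 by omega), if_neg (show y ≠ 2 by omega), if_neg (show z ≠ 1 by omega), if_neg (show z ≠ 2 by omega)]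
      simp [val, cv_cons, cv_nil, psi]; ring⟩
  by_cases hy : 5 ≤ y
  · obtain rfl | rfl | rfl | rfl : x = 1 ∨ x = 2 ∨ x = 3 ∨ x = 4 := by omega
    · exact ⟨[(-1, [(0, 1), (2, 3), (4, y)]), (-1, [(0, 1), (2, y), (3, z)])],
        by simp [OkL, Val, pts]; omega, by simp, fun T _ => by
        simp only [a3, cc3, if_neg (show y ≠ 1 by omega), if_neg (show y ≠ 2 by omega), if_neg (show z ≠ 1 by omega), if_neg (show z ≠ 2 by omega)]
        simp [val, cv_cons, cv_nil, psi]; ring⟩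
    · exact ⟨[(-1, [(0, 2), (1, 3), (4, y)]), (-1, [(0, 2), (1, y), (3, z)])],
        by simp [OkL, Val, pts]; omega, by simp, fun T _ => by
        simp only [a3, cc3, if_neg (show y ≠ 1 by omega), if_neg (show y ≠ 2 by omega), if_neg (show z ≠ 1 by omega), if_neg (show z ≠ 2 by omega)]
        simp [val, cv_cons, cv_nil, psi]; ring⟩
    · exact ⟨[(-1, [(0, 1), (2, 3), (4, y)]), (-1, [(0, 2), (1, 3), (4, z)]), (-1, [(0, 3), (1, z), (2, y)])],
        by simp [OkL, Val, pts]; omega, by simp, fun T _ => by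
        simp only [a3, cc3, if_neg (show y ≠ 1 by omega), if_neg (show y ≠ 2 by omega), if_neg (show z ≠ 1 by omega), if_neg (show z ≠ 2 by omega)]
        simp [val, cv_cons, cv_nil, psi]; ring⟩
    · exact ⟨[(-1, [(0, 1), (2, 4), (3, y)]), (-1, [(0, 2), (1, 4), (3, z)]), (-1, [(0, 4), (1, z), (2, y)])],
        by simp [OkL, Val, pts]; omega, by simp, fun T _ => by
        simp only [a3, cc3, if_neg (show y ≠ 1 by omega), if_neg (show y ≠ 2 by omega), if_neg (show z ≠ 1 by omega), if_neg (show z ≠ 2 by omega)]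
        simp [val, cv_cons, cv_nil, psi]; ring⟩
  by_cases hz' : 5 ≤ z
  · obtain ⟨rfl, rfl⟩ | ⟨rfl, rfl⟩ | ⟨rfl, rfl⟩ | ⟨rfl, rfl⟩ | ⟨rfl, rfl⟩ | ⟨rfl, rfl⟩ :
      (x = 1 ∧ y = 2) ∨ (x = 1 ∧ y = 3) ∨ (x = 1 ∧ y = 4) ∨ (x = 2 ∧ y = 3) ∨ (x = 2 ∧ y = 4) ∨
      (x = 3 ∧ y = 4) := by omega
    · exact ⟨[],
        by simp [OkL], by simp, fun T _ => by
        simp only [a3, cc3, if_neg (show z ≠ 1 by omega), if_neg (show z ≠ 2 by omega)]
        simp [val, cv_cons, cv_nil, psi]; ring⟩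
    · exact ⟨[(-1, [(0, 1), (2, 3), (4, z)])],
        by simp [OkL, Val, pts]; omega, by simp, fun T _ => by
        simp only [a3, cc3, if_neg (show z ≠ 1 by omega), if_neg (show z ≠ 2 by omega)]
        simp [val, cv_cons, cv_nil, psi]; ring⟩
    · exact ⟨[(-1, [(0, 1), (2, 4), (3, z)])],
        by simp [OkL, Val, pts]; omega, by simp, fun T _ => by
        simp only [a3, cc3, if_neg (show z ≠ 1 by omega), if_neg (show z ≠ 2 by omega)]
        simp [val, cv_cons, cv_nil, psi]; ring⟩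
    · exact ⟨[(-1, [(0, 2), (1, 3), (4, z)])],
        by simp [OkL, Val, pts]; omega, by simp, fun T _ => by
        simp only [a3, cc3, if_neg (show z ≠ 1 by omega), if_neg (show z ≠ 2 by omega)]
        simp [val, cv_cons, cv_nil, psi]; ring⟩
    · exact ⟨[(-1, [(0, 2), (1, 4), (3, z)])],
        by simp [OkL, Val, pts]; omega, by simp, fun T _ => by
        simp only [a3, cc3, if_neg (show z ≠ 1 by omega), if_neg (show z ≠ 2 by omega)]
        simp [val, cv_cons, cv_nil, psi]; ring⟩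
    · exact ⟨[(-1, [(0, 1), (2, 3), (4, z)]), (-1, [(0, 3), (1, 4), (2, z)])],
        by simp [OkL, Val, pts]; omega, by simp, fun T _ => by
        simp only [a3, cc3, if_neg (show z ≠ 1 by omega), if_neg (show z ≠ 2 by omega)]
        simp [val, cv_cons, cv_nil, psi]; ring⟩
  obtain ⟨rfl, rfl, rfl⟩ | ⟨rfl, rfl, rfl⟩ | ⟨rfl, rfl, rfl⟩ | ⟨rfl, rfl, rfl⟩ :
    (x = 1 ∧ y = 2 ∧ z = 3) ∨ (x = 1 ∧ y = 2 ∧ z = 4) ∨ (x = 1 ∧ y = 3 ∧ z = 4) ∨
    (x = 2 ∧ y = 3 ∧ z = 4) := by omega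
  · exact ⟨[],
      by simp [OkL], by simp, fun T _ => by
      simp only [a3, cc3]
      simp [val, cv_cons, cv_nil, psi]; ring⟩
  · exact ⟨[],
      by simp [OkL], by simp, fun T _ => by
      simp only [a3, cc3]
      simp [val, cv_cons, cv_nil, psi]; ring⟩
  · exact ⟨[],
      by simp [OkL], by simp, fun T _ => by
      simp only [a3, cc3]
      simp [val, cv_cons, cv_nil, psi]; ring⟩
  · exact ⟨[],
      by simp [OkL], by simp, fun T _ => by
      simp only [a3, cc3]
      simp [val, cv_cons, cv_nil, psi]; ring⟩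

lemma gen3 (hv : 5 ≤ v) : GP 5 v 3 5 := by
  refine GP_of_phi (fun S T' => if S.card = 0 then cc3 T' else if S.card = 1 then
    ∑ x ∈ S, (if x = 0 then -cc3 T' else a3 T' x) else if 0 ∈ S then -∑ x ∈ S.erase 0, a3 T' x
    else io T' 0 * ∏ x ∈ S, io T' x) fun T hT => ?_
  rw [mem_powersetCard] at hT
  obtain ⟨x, y, z, hxy, hyz, rfl⟩ : ∃ x y z, x < y ∧ y < z ∧ T = {x, y, z} := by
    obtain ⟨x, y, z, h1, h2, h3, rfl⟩ := card_eq_three.1 hT.2
    rcases lt_or_gt_of_ne h1 with a | a <;> rcases lt_or_gt_of_ne h2 with b | b <;>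
      rcases lt_or_gt_of_ne h3 with c | c
    · exact ⟨x, y, z, a, c, rfl⟩
    · exact ⟨x, z, y, b, c, by ext; simp; tauto⟩
    · omega
    · exact ⟨z, x, y, b, a, by ext; simp; tauto⟩
    · exact ⟨y, x, z, a, b, by ext; simp; tauto⟩
    · omega
    · exact ⟨y, z, x, c, b, by ext; simp; tauto⟩
    · exact ⟨z, y, x, c, a, by ext; simp; tauto⟩
  have hz : z < v := mem_range.1 (hT.1 (by simp))
  have hxz : x < z := by omega
  have e : ∀ φ : Finset ℕ → ℤ, ∑ S ∈ ({x, y, z} : Finset ℕ).powerset.filter (fun S => S.card < 3), φ S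
      = φ ∅ + φ {x} + φ {y} + φ {z} + φ {x, y} + φ {x, z} + φ {y, z} := by
    intro φ
    rw [sum_filter, sum_powerset_insert (by simp; omega), sum_powerset_insert (by simp; omega),
      sum_powerset_insert (by simp; omega), ← insert_empty_eq z,
      sum_powerset_insert (by simp), sum_powerset_insert (by simp), sum_powerset_insert (by simp),
      sum_powerset_insert (by simp)]
    simp [card_pair hxy.ne, card_pair hxz.ne, card_pair hyz.ne, hT.2]
    ring
  have y0 : y ≠ 0 := by omega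
  have z0 : z ≠ 0 := by omega
  simp only [e, io_ins, io_one, card_empty, card_singleton, card_pair hxy.ne, card_pair hxz.ne,
    card_pair hyz.ne, sum_singleton, prod_pair hxy.ne, prod_pair hxz.ne, prod_pair hyz.ne]
  by_cases h0 : x = 0
  · subst h0
    exact gen_zero.congr (by simp) fun T' _ => by
      simp [y0, z0, y0.symm, z0.symm]
  · refine (gen3_aux hv (by omega) hxy hyz hz).congr le_rfl fun T' _ => ?_
    simp [y0, z0, y0.symm, z0.symm, h0, Ne.symm h0, psi]; ring

end H18.Halv
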