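import Pool.Agent.H18.Halv2
import Pool.Agent.H18.Halv8
import Pool.Agent.H18.Halv16
import Pool.Agent.H18.Halv17

set_option autoImplicit false

namespace H18.Halv
open Finset

lemma even_choose {l r r' : ℕ} (h1 : r < r') (h2 : r' < 2 ^ l) : Even ((2 ^ l + r).choose r') := by
  rw [Nat.add_choose_eq, even_iff_two_dvd]
  refine dvd_sum fun p hp => ?_
  rw [HasAntidiagonal.mem_antidiagonal] at hp
  by_cases h : p.1 = 0
  · rw [Nat.choose_eq_zero_of_lt (show r < p.2 by omega)]; simp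
  · exact (Nat.prime_two.dvd_choose_pow h (by omega)).mul_right _

lemma choose_step (a b : ℕ) : a.choose b ≤ (a + 2).choose (b + 1) := by
  rw [Nat.choose_succ_succ' (a + 1)]
  have := Nat.choose_le_succ a b
  simp only [Nat.succ_eq_add_one] at this
  omega

lemma root_of {n m k D : ℕ} (hm : m + 1 = 2 ^ n) (h32 : 31 ≤ m) (hk : k = m + 1 ∨ k = m + 2) (hD : 0 < D)
    (hL : (∑ i ∈ range 4, m.choose i) * 2 ^ (5 + m) ≤ 4 * D ^ 2)
    (hF : (∑ i ∈ range 4, m.choose i) * 2 ^ (5 + m) + 16 * D * (2 + 6 * (5 + 2 * m)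
      + 48 * (5 + 2 * m) ^ 2 + 1200 * (5 + 2 * m) ^ 3) ≤ (2 * m - 1).choose (k - 3)) :
    A 4 k (5 + 2 * m) := by
  refine absorb (q := 2) (D := D) (fun j => [2, 3, 6, 30].getD j 0) (fun j => [1, 1, 2, 5].getD j 0)
    (by norm_num) (by omega) (by norm_num) (by omega) (by omega) (by simpa using hD) exc_card
    (by simp only [List.getD_cons_zero]; nlinarith) (fun j hj => ?_) (fun j hj => ?_)
    (fun j hj => ?_) (fun j hj => ?_) (le_trans (le_of_eq ?_) hF)
  · interval_cases j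
    · exact gen0
    · exact gen1
    · exact gen2 (by omega)
    · exact gen3 (by omega)
  · have := even_choose (l := n + 1) (r := 3 - j) (r' := k - j) (by omega) (by omega)
    rwa [show 2 ^ (n + 1) + (3 - j) = 5 + 2 * m - j by omega] at this
  · have : j < 3 := by omega
    interval_cases j <;> simp
  · have a := choose_step (2 * m - 1) (k - 3)
    have b := choose_step (2 * m - 1 + 2) (k - 3 + 1)
    have c := choose_step (2 * m - 1 + 2 + 2) (k - 3 + 1 + 1)
    interval_cases j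
    · rw [show 5 + 2 * m - 2 * 0 = 2 * m - 1 + 2 + 2 + 2 by omega, show k - 0 = k - 3 + 1 + 1 + 1 by omega]
      omega
    · rw [show 5 + 2 * m - 2 * 1 = 2 * m - 1 + 2 + 2 by omega, show k - 1 = k - 3 + 1 + 1 by omega]
      omega
    · rw [show 5 + 2 * m - 2 * 2 = 2 * m - 1 + 2 by omega, show k - 2 = k - 3 + 1 by omega]
      omega
    · rw [show 5 + 2 * m - 2 * 3 = 2 * m - 1 by omega]
  · simp only [sum_range_succ (n := 3), sum_range_succ (n := 2), sum_range_succ (n := 1), sum_range_one]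
    simp
    ring

lemma pow5 (h : ℕ) (hh : 32 ≤ h) : (2 * h) ^ 5 ≤ 2 ^ h := by
  induction h, hh using Nat.le_induction with
  | base => norm_num
  | succ h hh ih =>
    have a : 32 * (h + 1) ≤ 33 * h := by omega
    have b := Nat.pow_le_pow_left a 5
    rw [pow_succ 2 h]
    simp only [mul_pow] at *
    omega

lemma root_big {n k : ℕ} (hn : 5 ≤ n) (hk : k = 2 ^ n ∨ k = 2 ^ n + 1) : A 4 k (2 ^ (n + 1) + 3) := by
  rcases hn.eq_or_lt with rfl | hn
  · refine root_of (n := 5) (m := 31) (D := 9300000) rfl le_rfl hk (by norm_num) (by decide +kernel) ?_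
    rw [Nat.choose_eq_descFactorial_div_factorial (2 * 31 - 1)]
    rcases hk with rfl | rfl <;> decide +kernel
  obtain ⟨n, rfl⟩ : ∃ n', n = n' + 1 := ⟨n - 1, by omega⟩
  have h32 : 32 ≤ 2 ^ n := Nat.pow_le_pow_right (n := 2) (by norm_num) (show 5 ≤ n by omega)
  have e : 2 ^ (n + 1) = 2 * 2 ^ n := by ring
  have e2 : 2 ^ (n + 1 + 1) = 4 * 2 ^ n := by ring
  set h := 2 ^ n with hh
  obtain ⟨m, hm⟩ : ∃ m, 2 * h = m + 1 := ⟨2 * h - 1, by omega⟩
  have p5 := pow5 h h32
  have pH : 2 ^ 32 ≤ 2 ^ h := Nat.pow_le_pow_right (by norm_num) h32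
  have hH : 2 ^ (5 + m) = 16 * (2 ^ h) ^ 2 := by
    rw [← pow_mul, show 5 + m = 4 + h * 2 by omega, pow_add]; norm_num
  have hc : (2 * h - 3).centralBinom ≤ (2 * m - 1).choose (k - 3) := by
    rw [Nat.centralBinom_eq_two_mul_choose]
    rcases hk with rfl | rfl
    · rw [e]; exact Nat.choose_le_choose _ (by omega)
    · rw [e, show 2 * h + 1 - 3 = 2 * h - 3 + 1 by omega]
      exact (choose_step _ _).trans (Nat.choose_le_choose _ (by omega))
  have hc2 := Nat.four_pow_le_two_mul_self_mul_centralBinom (2 * h - 3) (by omega)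
  have hc3 : (2 ^ h) ^ 4 = 64 * 4 ^ (2 * h - 3) := by
    rw [← pow_mul, show (4 : ℕ) = 2 ^ 2 by norm_num, ← pow_mul, show h * 2 ^ 2 = 6 + 2 * (2 * h - 3) by omega,
      pow_add]
    norm_num
  set H := 2 ^ h with hH'
  set N := 2 * h with hN
  have hN1 : 64 ≤ N := by omega
  have hS : ∑ i ∈ range 4, m.choose i ≤ 4 * N ^ 3 := by
    refine (sum_le_card_nsmul _ _ (N ^ 3) fun i hi => ?_).trans (by simp)
    refine (Nat.choose_le_pow _ _).trans ((Nat.pow_le_pow_left (show m ≤ N by omega) _).trans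
      (Nat.pow_le_pow_right (by omega) ?_))
    have := mem_range.1 hi
    omega
  rw [show 2 ^ (n + 1 + 1) + 3 = 5 + 2 * m by omega]
  have hL : (∑ i ∈ range 4, m.choose i) * 2 ^ (5 + m) ≤ 64 * N ^ 3 * H ^ 2 := by
    rw [hH]; nlinarith [Nat.zero_le (H ^ 2)]
  refine root_of (n := n + 1) (D := 4 * N ^ 2 * H) (by omega) (by omega) (by omega) (by positivity)
    (hL.trans ?_) (le_trans ?_ hc)
  · calc 64 * N ^ 3 * H ^ 2 ≤ 64 * N ^ 4 * H ^ 2 := by gcongr <;> omega
      _ = _ := by ring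
  · have hv : 5 + 2 * m ≤ 3 * N := by omega
    have h1 : 2 + 6 * (5 + 2 * m) + 48 * (5 + 2 * m) ^ 2 + 1200 * (5 + 2 * m) ^ 3 ≤ 1256 * (3 * N) ^ 3 := by
      have a : 1 ≤ (3 * N) ^ 3 := Nat.one_le_pow _ _ (by omega)
      have b : 5 + 2 * m ≤ (3 * N) ^ 3 := hv.trans (Nat.le_self_pow (by norm_num) _)
      have c : (5 + 2 * m) ^ 2 ≤ (3 * N) ^ 3 :=
        (Nat.pow_le_pow_left hv _).trans (Nat.pow_le_pow_right (by omega) (by norm_num))
      have d : (5 + 2 * m) ^ 3 ≤ (3 * N) ^ 3 := Nat.pow_le_pow_left hv _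
      omega
    have a4 : N ^ 4 ≤ H := (Nat.pow_le_pow_right (by omega) (by norm_num)).trans p5
    have a3 : N ^ 3 ≤ H := (Nat.pow_le_pow_right (by omega) (by norm_num)).trans p5
    refine Nat.le_of_mul_le_mul_left ?_ (show 0 < 128 * N by omega)
    calc _ ≤ 128 * N * (64 * N ^ 3 * H ^ 2 + 16 * (4 * N ^ 2 * H) * (1256 * (3 * N) ^ 3)) := by gcongr
      _ = 8192 * N ^ 4 * H ^ 2 + 277807104 * N ^ 3 * N ^ 3 * H := by ring
      _ ≤ 8192 * H * H ^ 2 + 277807104 * H * H * H := by gcongr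
      _ = 277815296 * H ^ 3 := by ring
      _ ≤ H * H ^ 3 := by gcongr; omega
      _ = 64 * 4 ^ (N - 3) := by rw [← hc3]; ring
      _ ≤ 64 * (2 * (N - 3) * (N - 3).centralBinom) := by gcongr
      _ ≤ 64 * (2 * N * (N - 3).centralBinom) := by gcongr; omega
      _ = _ := by ring

lemma root3 {n j : ℕ} (hn : 2 ≤ n) (hj : j ≤ 3) : A 4 (2 ^ n + j) (2 ^ (n + 1) + 3) := by
  have key : ∀ k, (k = 2 ^ n ∨ k = 2 ^ n + 1) → A 4 k (2 ^ (n + 1) + 3) := by
    intro k hk
    by_cases h5 : 5 ≤ n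
    · exact root_big h5 hk
    have : n ≤ 4 := by omega
    interval_cases n <;> rcases hk with rfl | rfl
    exacts [a411, a511, a819, a919, a1635, a1735]
  have e : 2 ^ (n + 1) = 2 * 2 ^ n := by ring
  by_cases h : j ≤ 1
  · exact key _ (by omega)
  · have := (key (2 ^ n + 3 - j) (by omega)).compl (by omega)
    rwa [show 2 ^ (n + 1) + 3 - (2 ^ n + 3 - j) = 2 ^ n + j by omega] at this

lemma a12 : A 1 1 2 := by
  refine ⟨fun B => if 0 ∈ B then 1 else -1, fun B _ => by simp only; split_ifs <;> simp, fun T hT => ?_⟩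
  rw [card_eq_zero.1 (Nat.lt_one_iff.1 hT)]
  decide

theorem main {v l k : ℕ} (h1 : 3 ≤ v % 2 ^ l) (h2 : v % 2 ^ l < k % 2 ^ l) : A 4 k v := by
  refine reduce 4 (fun t n j ht hj hn => ?_) (fun t n k ht h1 h2 h3 => ?_) v l 4 k le_rfl (by omega) h2
  · by_cases h : 2 ≤ n
    · have := root3 h (show j ≤ 3 by omega)
      interval_cases t
      exacts [this.resid.resid.resid, this.resid.resid, this.resid, this]
    have : n ≤ 1 := by omega
    interval_cases n
    · obtain rfl : t = 0 := by omega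
      obtain rfl : j = 0 := by omega
      exact a12
    · have : t ≤ 1 := by omega
      interval_cases t <;> interval_cases j
      exacts [a36.deriv.resid, a36.deriv, a36.resid]
  · have : n < 2 := (Nat.pow_lt_pow_iff_right (a := 2) (by norm_num)).1 (by omega)
    interval_cases n
    · omega
    · obtain rfl : t = 2 := by omega
      obtain rfl : k = 3 := by omega
      exact a36

lemma design_of_part {α : Type*} [DecidableEq α] {t k : ℕ} {X : Finset α} (hk : t ≤ k)
    (h : Part (t + 1) (powersetCard k X)) : ∃ B : Finset (Finset α), B ⊆ powersetCard k X ∧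
      ∀ T : Finset α, T ⊆ X → T.card = t →
        2 * (B.filter (fun S => T ⊆ S)).card = (X.card - t).choose (k - t) := by
  obtain ⟨f, a, b⟩ := h
  refine ⟨(powersetCard k X).filter (fun B => f B = 1), filter_subset _ _, fun T hT hc => ?_⟩
  have := b T (by omega)
  rw [← hc, ← card_between hT (by omega), filter_filter, card_filter, card_filter]
  zify
  rw [mul_sum, ← sub_eq_zero, ← sum_sub_distrib]
  refine Eq.trans (sum_congr rfl fun B hB => ?_) this
  rcases a B hB with e | e <;> by_cases h : T ⊆ B <;> simp [e, h]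

end H18.Halv
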