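import Mathlib

namespace Pool.Agent.H18.Hof

structure Rc (A B : ℤ → ℤ) : Prop where
  hA : ∀ m, 1 ≤ m → 1 ≤ A m → 1 ≤ B m → A (m+1) = B (m - B m + 1) + B (m - A m + 1) - 1
  hB : ∀ m, 2 ≤ m → 1 ≤ A m → 1 ≤ B (m-1) → B m = A (m - A m + 1) + A (m - B (m-1) + 1)

lemma slow_mono (F : ℤ → ℤ) (x0 x1 : ℤ)
    (h : ∀ x, x0 ≤ x → x < x1 → F (x+1) = F x ∨ F (x+1) = F x + 1) :
    ∀ x, x0 ≤ x → x ≤ x1 → x - F x ≤ x1 - F x1 := by
  intro x hx hx1
  obtain ⟨n, hn⟩ : ∃ n : ℕ, x1 = x + n := ⟨(x1 - x).toNat, by omega⟩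
  induction n generalizing x with
  | zero => simp at hn; subst hn; exact le_rfl
  | succ n ih =>
    have h1 := h x hx (by omega)
    have h2 := ih (x+1) (by omega) (by omega) (by push_cast at hn ⊢; omega)
    omega

/-- facts on the first region -/
structure RI (A B : ℤ → ℤ) (r a : ℤ) : Prop where
  ra : r + 2 ≤ a
  r0 : -1 ≤ r
  rel : ∀ m, 2*a-r-2 ≤ m → m ≤ 4*a-r-2 → A m + B m = m + r + 2
  slow : ∀ m, 2*a-r-2 ≤ m → m < 4*a-r-2 → A (m+1) = A m ∨ A (m+1) = A m + 1
  e0 : A (2*a-r-2) = a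
  e1 : A (2*a-r-2+1) = a
  e2 : A (4*a-r-2) = 2*a
  e3 : B (4*a-r-2-1) = 2*a
  bal : ∀ m, 2*a-r-2 < m → m < 4*a-r-2 → A m < B m
  bd : ∀ m, 1 ≤ m → m ≤ 4*a-r-2 → 1 ≤ A m ∧ A m ≤ m ∧ 1 ≤ B m ∧ B m ≤ m

structure RII (A B : ℤ → ℤ) (r a : ℤ) : Prop where
  rel : ∀ x, 4*a-r-3 ≤ x → x ≤ 8*a-r-5 → A (x+1) + B x = x + r + 3
  slow : ∀ x, 4*a-r-3 ≤ x → x < 8*a-r-5 → B (x+1) = B x ∨ B (x+1) = B x + 1
  e0 : B (8*a-r-5) = 4*a-1
  e1 : A (8*a-r-5) = 4*a-1
  bal : ∀ x, 4*a-r-3 ≤ x → x ≤ 8*a-r-5 → B x ≤ A (x+1)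
  bd : ∀ m, 1 ≤ m → m ≤ 8*a-r-5 → 1 ≤ A m ∧ A m ≤ m ∧ 1 ≤ B m ∧ B m ≤ m

lemma stepII {A B : ℤ → ℤ} (h : Rc A B) {r a : ℤ} (I : RI A B r a) : RII A B r a := by
  have ra := I.ra
  have r0 := I.r0
  have hz := slow_mono A (2*a-r-2) (4*a-r-2) I.slow
  rw [I.e2] at hz
  -- invariant at x = m - 1
  have key : ∀ n : ℕ, ∀ x, x = 4*a-r-3 + n → x ≤ 8*a-r-5 →
      A (x+1) + B x = x + r + 3 ∧ 2*a ≤ B x ∧ B x ≤ A (x+1) ∧ A (x+1) ≤ 4*a-1 ∧
      (x < 8*a-r-5 → (B (x+1) = B x ∨
        (B (x+1) = B x + 1 ∧ A (x+2-B x) = A (x+2-B x-1) + 1))) := by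
    intro n
    induction n with
    | zero =>
      intro x hx _
      have e2 := I.e2
      have e3 := I.e3
      have e1 := I.e1
      have hx' : x = 4*a-r-2-1 := by simp at hx; omega
      have hx1 : x + 1 = 4*a-r-2 := by omega
      rw [← hx'] at e3
      rw [← hx1] at e2
      refine ⟨by omega, by omega, by omega, by omega, fun _ => Or.inl ?_⟩
      have := h.hB (x+1) (by omega) (by omega) (by simp; omega)
      simp only [add_sub_cancel_right] at this
      rw [this, e2, e3, show x + 1 - 2*a + 1 = 2*a-r-2+1 by omega, e1]; ring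
    | succ n ih =>
      intro y hy hy1
      obtain ⟨x, rfl⟩ : ∃ x, y = x + 1 := ⟨y - 1, by ring⟩
      obtain ⟨i1, i2, i3, i4, i5⟩ := ih x (by push_cast at hy; omega) (by omega)
      have i5 := i5 (by omega)
      have hx0 : 4*a-r-3 ≤ x := by push_cast at hy; omega
      -- pointers
      obtain ⟨P, hP⟩ : ∃ P, P = B x - r - 1 := ⟨_, rfl⟩
      obtain ⟨R, hR⟩ : ∃ R, R = x + 2 - B x := ⟨_, rfl⟩
      have b1 := h.hB (x+1) (by omega) (by omega) (by simp; omega)
      simp only [add_sub_cancel_right] at b1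
      rw [show x + 1 - A (x+1) + 1 = P by omega, show x + 1 - B x + 1 = R by omega] at b1
      have a1 := h.hA (x+1) (by omega) (by omega) (by omega)
      rw [show x + 1 - A (x+1) + 1 = P by omega] at a1
      rw [← hR] at i5
      have zP := hz P (by omega) (by omega)
      have zR := hz R (by omega) (by omega)
      have rP := I.rel P (by omega) (by omega)
      have rR := I.rel R (by omega) (by omega)
      have rR1 := I.rel (R-1) (by omega) (by omega)
      have bP := I.bal P (by omega) (by omega)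
      have bR : R = 4*a-r-2 ∨ A R < B R := by
        by_cases hh : R < 4*a-r-2
        · exact Or.inr (I.bal R (by omega) hh)
        · left; omega
      have e2 := I.e2
      have bR' : A R ≤ B R := by
        rcases bR with hh | hh
        · rw [hh] at rR ⊢; omega
        · omega
      have hrel : A (x+1+1) + B (x+1) = x + 1 + r + 3 := by
        rcases i5 with i5 | ⟨i5, i6⟩
        · rw [show x + 1 - B (x+1) + 1 = R by omega] at a1; omega
        · rw [show x + 1 - B (x+1) + 1 = R - 1 by omega] at a1; omega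
      refine ⟨hrel, by omega, by omega, by omega, fun hlt => ?_⟩
      have b2 := h.hB (x+1+1) (by omega) (by omega) (by simp; omega)
      simp only [add_sub_cancel_right] at b2
      rcases i5 with i5 | ⟨i5, i6⟩
      · rw [show x + 1 + 1 - A (x+1+1) + 1 = P by omega,
          show x + 1 + 1 - B (x+1) + 1 = R + 1 by omega] at b2
        have := I.slow R (by omega) (by omega)
        rw [show x + 1 + 2 - B (x+1) = R + 1 by omega, add_sub_cancel_right]
        omega
      · rw [show x + 1 + 1 - A (x+1+1) + 1 = P + 1 by omega,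
          show x + 1 + 1 - B (x+1) + 1 = R by omega] at b2
        have := I.slow P (by omega) (by omega)
        rw [show x + 1 + 2 - B (x+1) = R by omega]
        omega
  have key' : ∀ x, 4*a-r-3 ≤ x → x ≤ 8*a-r-5 →
      A (x+1) + B x = x + r + 3 ∧ 2*a ≤ B x ∧ B x ≤ A (x+1) ∧ A (x+1) ≤ 4*a-1 ∧
      (x < 8*a-r-5 → (B (x+1) = B x ∨
        (B (x+1) = B x + 1 ∧ A (x+2-B x) = A (x+2-B x-1) + 1))) :=
    fun x h1 h2 => key (x - (4*a-r-3)).toNat x (by omega) h2
  have k1 := key' (8*a-r-5) (by omega) le_rfl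
  have k2 := key' (8*a-r-5-1) (by omega) (by omega)
  simp only [sub_add_cancel] at k2
  refine ⟨fun x h1 h2 => (key' x h1 h2).1, fun x h1 h2 => ?_, by omega, by omega,
    fun x h1 h2 => (key' x h1 h2).2.2.1, fun m h1 h2 => ?_⟩
  · have := (key' x h1 h2.le).2.2.2.2 h2
    omega
  · by_cases hh : m ≤ 4*a-r-2
    · exact I.bd m h1 hh
    · have k3 := key' m (by omega) h2
      have k4 := key' (m-1) (by omega) (by omega)
      simp only [sub_add_cancel] at k4
      omega

lemma stepI {A B : ℤ → ℤ} (h : Rc A B) {r a : ℤ} (I : RI A B r a) (J : RII A B r a) :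
    RI A B (r+1) (4*a-1) := by
  have ra := I.ra
  have r0 := I.r0
  have j0 := J.e0
  have j1 := J.e1
  have e2 := I.e2
  have e3 := I.e3
  have jr := J.rel (8*a-r-5) (by omega) le_rfl
  have f1 : A (8*a-r-5+1) = 4*a-1 := by omega
  have f2 : B (8*a-r-5+1) = 4*a := by
    have := h.hB (8*a-r-5+1) (by omega) (by omega) (by rw [add_sub_cancel_right]; omega)
    rw [add_sub_cancel_right, f1, j0, show 8*a-r-5+1-(4*a-1)+1 = 4*a-r-2 by omega, e2] at this
    omega
  have slow : ∀ x, 4*a-r-3 ≤ x → x < 8*a-r-5+1 → B (x+1) = B x ∨ B (x+1) = B x + 1 := by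
    intro x h1 h2
    by_cases hh : x < 8*a-r-5
    · exact J.slow x h1 hh
    · rw [show x = 8*a-r-5 by omega]; omega
  have hz := slow_mono B (4*a-r-3) (8*a-r-5+1) slow
  rw [f2] at hz
  have key : ∀ n : ℕ, ∀ m, m = 8*a-r-5 + n → m ≤ 16*a-r-7 →
      A m + B m = m + r + 3 ∧ 4*a-1 ≤ A m ∧ A m ≤ B m ∧ B m ≤ 8*a-2 ∧
      (8*a-r-5 < m → m < 16*a-r-7 → A m < B m) ∧
      (m < 16*a-r-7 → (A (m+1) = A m ∨
        (A (m+1) = A m + 1 ∧ B (m+1-A m) = B (m+1-A m-1) + 1))) := by
    intro n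
    induction n with
    | zero =>
      intro m hm _
      have : m = 8*a-r-5 := by simpa using hm
      subst this
      refine ⟨by omega, by omega, by omega, by omega, by omega, fun _ => Or.inl (by omega)⟩
    | succ n ih =>
      intro y hy hy1
      obtain ⟨m, rfl⟩ : ∃ x, y = x + 1 := ⟨y - 1, by ring⟩
      obtain ⟨i1, i2, i3, i4, i4', i5⟩ := ih m (by push_cast at hy; omega) (by omega)
      have i5 := i5 (by omega)
      have hx0 : 8*a-r-5 ≤ m := by push_cast at hy; omega
      obtain ⟨P, hP⟩ : ∃ P, P = A m - r - 2 := ⟨_, rfl⟩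
      obtain ⟨R, hR⟩ : ∃ R, R = m + 1 - A m := ⟨_, rfl⟩
      have a1 := h.hA m (by omega) (by omega) (by omega)
      rw [show m - B m + 1 = P by omega, show m - A m + 1 = R by omega] at a1
      have b1 := h.hB (m+1) (by omega) (by omega) (by rw [add_sub_cancel_right]; omega)
      rw [add_sub_cancel_right, show m + 1 - B m + 1 = P + 1 by omega] at b1
      rw [← hR] at i5
      have zP := hz P (by omega) (by omega)
      have zR := hz R (by omega) (by omega)
      have rP := J.rel P (by omega) (by omega)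
      have bP := J.bal P (by omega) (by omega)
      have bR : R = 8*a-r-5+1 ∨ (A (R+1) + B R = R + r + 3 ∧ B R ≤ A (R+1)) := by
        by_cases hh : R ≤ 8*a-r-5
        · exact Or.inr ⟨J.rel R (by omega) hh, J.bal R (by omega) hh⟩
        · left; omega
      have bR' : R = 8*a-r-5+1 → B R = 4*a := fun hh => by rw [hh]; exact f2
      have hrel : A (m+1) + B (m+1) = m + 1 + r + 3 := by
        rcases i5 with i5 | ⟨i5, i6⟩
        · rw [show m + 1 - A (m+1) + 1 = R + 1 by omega] at b1; omega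
        · rw [show m + 1 - A (m+1) + 1 = R by omega] at b1
          have hR0 : 4*a-r-3 < R := by
            by_contra hh
            have h1 : m = 8*a-r-5 := by omega
            rw [h1] at i5; omega
          have := J.rel (R-1) (by omega) (by omega)
          rw [sub_add_cancel] at this
          omega
      refine ⟨hrel, by omega, by omega, by omega, by omega, fun hlt => ?_⟩
      have a2 := h.hA (m+1) (by omega) (by omega) (by omega)
      rcases i5 with i5 | ⟨i5, i6⟩
      · rw [show m + 1 - B (m+1) + 1 = P by omega,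
          show m + 1 - A (m+1) + 1 = R + 1 by omega] at a2
        have := slow R (by omega) (by omega)
        rw [show m + 1 + 1 - A (m+1) = R + 1 by omega, add_sub_cancel_right]
        omega
      · rw [show m + 1 - B (m+1) + 1 = P + 1 by omega,
          show m + 1 - A (m+1) + 1 = R by omega] at a2
        have := slow P (by omega) (by omega)
        rw [show m + 1 + 1 - A (m+1) = R by omega]
        omega
  have key' : ∀ m, 8*a-r-5 ≤ m → m ≤ 16*a-r-7 →
      A m + B m = m + r + 3 ∧ 4*a-1 ≤ A m ∧ A m ≤ B m ∧ B m ≤ 8*a-2 ∧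
      (8*a-r-5 < m → m < 16*a-r-7 → A m < B m) ∧
      (m < 16*a-r-7 → (A (m+1) = A m ∨
        (A (m+1) = A m + 1 ∧ B (m+1-A m) = B (m+1-A m-1) + 1))) :=
    fun x h1 h2 => key (x - (8*a-r-5)).toNat x (by omega) h2
  have k1 := key' (16*a-r-7) (by omega) le_rfl
  have k2 := key' (16*a-r-7-1) (by omega) (by omega)
  have u1 : 2*(4*a-1)-(r+1)-2 = 8*a-r-5 := by ring
  have u2 : 4*(4*a-1)-(r+1)-2 = 16*a-r-7 := by ring
  refine ⟨by omega, by omega, fun m h1 h2 => ?_, fun m h1 h2 => ?_, by rw [u1]; omega,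
    by rw [u1]; omega, by rw [u2]; omega, by rw [u2]; omega, fun m h1 h2 => ?_, fun m h1 h2 => ?_⟩
  · have := (key' m (by omega) (by omega)).1; omega
  · have := (key' m (by omega) (by omega)).2.2.2.2.2 (by omega); omega
  · exact (key' m (by omega) (by omega)).2.2.2.2.1 (by omega) (by omega)
  · by_cases hh : m ≤ 8*a-r-5
    · exact J.bd m h1 hh
    · have k3 := key' m (by omega) (by omega)
      omega

lemma base {A B : ℤ → ℤ} (h : Rc A B) (h1 : A 1 = 1) (h2 : B 1 = 1) : RI A B (-1) 1 := by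
  have a2 : A 2 = 1 := by
    have := h.hA 1 le_rfl (by omega) (by omega)
    rw [h1, h2] at this; norm_num at this; omega
  have b2 : B 2 = 2 := by
    have := h.hB 2 le_rfl (by omega) (by norm_num; omega)
    norm_num at this; rw [a2, h2] at this; norm_num at this; omega
  have a3 : A 3 = 2 := by
    have := h.hA 2 (by omega) (by omega) (by omega)
    rw [a2, b2] at this; norm_num at this; omega
  have b3 : B 3 = 2 := by
    have := h.hB 3 (by omega) (by omega) (by norm_num; omega)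
    norm_num at this; rw [a3, b2] at this; norm_num at this; omega
  refine ⟨by omega, by omega, fun m h1 h2 => ?_, fun m h1 h2 => ?_, by norm_num; omega,
    by norm_num; omega, by norm_num; omega, by norm_num; omega, fun m h1 h2 => ?_, fun m h1 h2 => ?_⟩
  · have : m = 1 ∨ m = 2 ∨ m = 3 := by omega
    rcases this with rfl | rfl | rfl <;> omega
  · have : m = 1 ∨ m = 2 := by omega
    rcases this with rfl | rfl <;> norm_num <;> omega
  · have : m = 2 := by omega
    subst this; omega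
  · have : m = 1 ∨ m = 2 ∨ m = 3 := by omega
    rcases this with rfl | rfl | rfl <;> omega

/-- `aa k = (2 * 4 ^ k + 1) / 3` -/
def aa : ℕ → ℤ
  | 0 => 1
  | k+1 => 4 * aa k - 1

lemma allI {A B : ℤ → ℤ} (h : Rc A B) (h1 : A 1 = 1) (h2 : B 1 = 1) (k : ℕ) :
    RI A B ((k:ℤ)-1) (aa k) := by
  induction k with
  | zero => simpa [aa] using base h h1 h2
  | succ k ih =>
    have := stepI h ih (stepII h ih)
    rw [show ((k+1:ℕ):ℤ) - 1 = (k:ℤ) - 1 + 1 by push_cast; ring]
    exact this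

lemma allbd {A B : ℤ → ℤ} (h : Rc A B) (h1 : A 1 = 1) (h2 : B 1 = 1) (m : ℤ) (hm : 1 ≤ m) :
    1 ≤ A m ∧ A m ≤ m ∧ 1 ≤ B m ∧ B m ≤ m := by
  have I := allI h h1 h2 m.toNat
  have := I.ra
  exact I.bd m hm (by omega)

end Pool.Agent.H18.Hof
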