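import Mathlib
import Pool.Agent.H35.Dijoin

set_option autoImplicit false

namespace Pool.Agent.H18.Inv

open Finset Matrix Pool.Agent.H35.Dijoin

variable {V : Type}

def DecO (A : V → V → Prop) (M : V → V → F) : Prop :=
  ∃ f : V → ℕ, ∀ u v, ((A u v ∧ M u v = 0) ∨ (A v u ∧ M u v = 1)) → f u < f v

def invSet (A : V → V → Prop) : Set ℕ :=
  {k | ∃ X : Fin k → V → F, DecO A (fun u v => ∑ i, X i u * X i v)}

lemma cast_zero_iff (k : ℕ) : (k : F) = 0 ↔ Even k := ZMod.natCast_eq_zero_iff_even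
lemma cast_one_iff (k : ℕ) : (k : F) = 1 ↔ Odd k := ZMod.natCast_eq_one_iff_odd

open Classical in
lemma sum_ind {k : ℕ} (P Q : Fin k → Prop) :
    ∑ i, (if P i then (1 : F) else 0) * (if Q i then (1 : F) else 0) =
      (#{i | P i ∧ Q i} : ℕ) := by
  rw [card_filter]
  push_cast
  refine sum_congr rfl fun i _ => ?_
  by_cases h1 : P i <;> by_cases h2 : Q i <;> simp [h1, h2]

lemma ind_eq (x : F) [Decidable (x = 1)] : (if x = 1 then (1 : F) else 0) = x := by
  rcases F01 x with h | h <;> simp [h]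

lemma invSet_set (A : V → V → Prop) :
    {m : ℕ | ∃ X : Fin m → Set V, ∃ f : V → ℕ, ∀ u v : V,
        (A u v ∧ Even (Nat.card {j : Fin m // u ∈ X j ∧ v ∈ X j})) ∨
        (A v u ∧ Odd (Nat.card {j : Fin m // u ∈ X j ∧ v ∈ X j})) → f u < f v} = invSet A := by
  classical
  ext m
  constructor
  · rintro ⟨X, f, h⟩
    refine ⟨fun i u => if u ∈ X i then 1 else 0, f, fun u v huv => h u v ?_⟩
    simp only [sum_ind, cast_zero_iff, cast_one_iff] at huv
    rw [Nat.card_eq_fintype_card, Fintype.card_subtype]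
    convert huv
  · rintro ⟨X, f, h⟩
    refine ⟨fun i => {u | X i u = 1}, f, fun u v huv => h u v ?_⟩
    rw [Nat.card_eq_fintype_card, Fintype.card_subtype] at huv
    have := sum_ind (fun i => X i u = 1) (fun i => X i v = 1)
    simp only [ind_eq] at this
    simp only [this, cast_zero_iff, cast_one_iff]
    simp only [Set.mem_setOf_eq] at huv
    convert huv

lemma invSet_finset [Fintype V] [DecidableEq V] (A : V → V → Prop) :
    {k : ℕ | ∃ X : Fin k → Finset V, ∃ f : V → ℕ, ∀ u v,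
        ((A u v ∧ Even (Finset.univ.filter (fun i => u ∈ X i ∧ v ∈ X i)).card) ∨
         (A v u ∧ Odd (Finset.univ.filter (fun i => u ∈ X i ∧ v ∈ X i)).card)) → f u < f v} =
      invSet A := by
  classical
  ext m
  constructor
  · rintro ⟨X, f, h⟩
    refine ⟨fun i u => if u ∈ X i then 1 else 0, f, fun u v huv => h u v ?_⟩
    have := sum_ind (fun i => u ∈ X i) (fun i => v ∈ X i)
    simp only at huv
    have e : (∑ i, (if u ∈ X i then (1 : F) else 0) * (if v ∈ X i then (1 : F) else 0)) =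
        ((#{i | u ∈ X i ∧ v ∈ X i} : ℕ) : F) := by convert this
    rw [e, cast_zero_iff, cast_one_iff] at huv
    exact huv
  · rintro ⟨X, f, h⟩
    refine ⟨fun i => {u | X i u = 1}, f, fun u v huv => h u v ?_⟩
    have := sum_ind (fun i => X i u = 1) (fun i => X i v = 1)
    simp only [ind_eq] at this
    simp only [this, cast_zero_iff, cast_one_iff]
    simp only [mem_filter, mem_univ, true_and] at huv
    convert huv

lemma mem_invSet {ι : Type} [Fintype ι] {A : V → V → Prop} (X : ι → V → F)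
    (h : DecO A (fun u v => ∑ i, X i u * X i v)) : Fintype.card ι ∈ invSet A := by
  refine ⟨fun i => X ((Fintype.equivFin ι).symm i), ?_⟩
  have e : ∀ u v, ∑ i, X ((Fintype.equivFin ι).symm i) u * X ((Fintype.equivFin ι).symm i) v =
      ∑ i, X i u * X i v := fun u v =>
    Equiv.sum_comp (Fintype.equivFin ι).symm (fun i => X i u * X i v)
  simpa only [e] using h

lemma DecO.mono {A B : V → V → Prop} {M : V → V → F} (h : DecO A M) (hB : ∀ u v, B u v → A u v) :
    DecO B M := by
  obtain ⟨f, hf⟩ := h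
  exact ⟨f, fun u v h => hf u v (h.imp (fun h => ⟨hB _ _ h.1, h.2⟩) fun h => ⟨hB _ _ h.1, h.2⟩)⟩

lemma step_mem {A B : V → V → Prop} (hB : ∀ u v, B u v → ¬ B v u) (p q : V)
    (h : ∀ u v, B u v → A u v ∨ (u = p ∧ v = q)) {k : ℕ} (hk : k ∈ invSet A) :
    k + 1 ∈ invSet B := by
  classical
  obtain ⟨X, f, hf⟩ := hk
  by_cases hpq : B p q
  swap
  · refine ⟨Fin.cons 0 X, ?_⟩
    simp only [Fin.sum_univ_succ, Fin.cons_zero, Fin.cons_succ, Pi.zero_apply, mul_zero, zero_add]
    refine DecO.mono ⟨f, hf⟩ fun u v huv => (h u v huv).resolve_right ?_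
    rintro ⟨rfl, rfl⟩; exact hpq huv
  have hne : p ≠ q := by rintro rfl; exact hB _ _ hpq hpq
  let t : F := ∑ i, X i p * X i q + if f p ≤ f q then 0 else 1
  refine ⟨Fin.cons (fun u => if u = p ∨ u = q then t else 0) X,
    fun u => 2 * f u + if u = q then 1 else 0, ?_⟩
  simp only [Fin.sum_univ_succ, Fin.cons_zero, Fin.cons_succ]
  have tt : t * t = t := by rcases F01 t with h | h <;> simp [h]
  have aa : ∀ x y : F, x + y + x = y := by decide
  intro u v huv
  by_cases c : (u = p ∧ v = q) ∨ (u = q ∧ v = p)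
  · have hqp := hB _ _ hpq
    rcases c with ⟨rfl, rfl⟩ | ⟨rfl, rfl⟩
    · simp only [true_or, or_true, if_true, tt, t, aa, hpq, hqp, true_and, false_and,
        or_false] at huv
      simp only [hne, if_false, if_true]
      split_ifs at huv with h1
      · omega
      · exact absurd huv (by decide)
    · have e : ∑ i, X i u * X i v = ∑ i, X i v * X i u := by simp [mul_comm]
      simp only [true_or, or_true, if_true, tt, t, e, aa, hpq, hqp, true_and, false_and,
        false_or] at huv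
      simp only [hne, if_false, if_true]
      split_ifs at huv with h1
      · exact absurd huv (by decide)
      · omega
  · have huv' : u ≠ v := by
      rintro rfl
      rcases huv with h | h <;> exact hB _ _ h.1 h.1
    have z : (if u = p ∨ u = q then t else 0) * (if v = p ∨ v = q then t else 0) = 0 := by
      split_ifs with h1 h2
      · exfalso
        rcases h1 with rfl | rfl <;> rcases h2 with rfl | rfl <;> simp_all
      all_goals simp
    rw [z, zero_add] at huv
    have := hf u v (huv.imp (fun h' => ⟨(h _ _ h'.1).resolve_right (by tauto), h'.2⟩)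
      fun h' => ⟨(h _ _ h'.1).resolve_right (by tauto), h'.2⟩)
    split_ifs <;> omega

lemma sub_exact [Fintype V] {A : V → V → Prop} (hA : ∀ u v, A u v → ¬ A v u) (k : ℕ)
    (hk : k ≤ sInf (invSet A)) :
    ∃ B : V → V → Prop, (∀ u v, B u v → A u v) ∧ sInf (invSet B) = k := by
  classical
  have key : ∀ S : Finset (V × V), (invSet fun u v => A u v ∧ (u, v) ∈ S).Nonempty ∧
      (k ≤ sInf (invSet fun u v => A u v ∧ (u, v) ∈ S) →
      ∃ B : V → V → Prop, (∀ u v, B u v → A u v) ∧ sInf (invSet B) = k) := by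
    intro S
    induction S using Finset.induction_on with
    | empty =>
      have h0 : 0 ∈ invSet fun u v => A u v ∧ (u, v) ∈ (∅ : Finset (V × V)) :=
        ⟨fun i => i.elim0, fun _ => 0, by simp⟩
      exact ⟨⟨0, h0⟩, fun h => ⟨_, fun u v h => h.1, le_antisymm ((Nat.sInf_le h0).trans
        (Nat.zero_le _)) h⟩⟩
    | insert a S ha ih =>
      have hs := step_mem (A := fun u v => A u v ∧ (u, v) ∈ S)
        (B := fun u v => A u v ∧ (u, v) ∈ insert a S) (fun u v h h' => hA _ _ h.1 h'.1) a.1 a.2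
        (fun u v h => by
          rcases mem_insert.1 h.2 with e | e
          · right; rw [← e]; exact ⟨rfl, rfl⟩
          · exact Or.inl ⟨h.1, e⟩) (Nat.sInf_mem ih.1)
      refine ⟨⟨_, hs⟩, fun h => ?_⟩
      by_cases c : k ≤ sInf (invSet fun u v => A u v ∧ (u, v) ∈ S)
      · exact ih.2 c
      · have := Nat.sInf_le hs
        exact ⟨fun u v => A u v ∧ (u, v) ∈ insert a S, fun u v h => h.1, by omega⟩
  refine (key univ).2 ?_
  simpa using hk

def Tour (T : V → V → Prop) : Prop := (∀ u, ¬ T u u) ∧ ∀ u v, u ≠ v → (T u v ↔ ¬ T v u)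

lemma Tour.dec_iff {T : V → V → Prop} (h : Tour T) (M : V → V → F) :
    DecO T M ↔ ∃ f : V → ℕ, ∀ u v, u ≠ v → (T u v ↔ M u v = 0) → f u < f v := by
  refine exists_congr fun f => forall_congr' fun u => forall_congr' fun v => ?_
  have h0 := h.1 u
  have h1 := h.2 u v
  have h2 := F01 (M u v)
  have h3 := F_ne
  by_cases e : u = v
  · subst e; tauto
  · rcases h2 with h2 | h2 <;> rw [h2] <;> tauto

lemma Tn_Tour {n : ℕ} {A : Matrix (Fin n) (Fin n) F} (hA : A.IsSymm) : Tour (Tn A) :=
  ⟨fun _ h => h.1 rfl, Tn_tour hA⟩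

lemma inv_gt {n r : ℕ} (W : Matrix (Fin n) (Fin n) F) (hb : ¬ Bad r (Wᵀ * W)) :
    r < sInf (invSet (Tn (Wᵀ * W))) := by
  have hT := Tn_Tour (gram_symm W)
  obtain ⟨X, hX⟩ := Nat.sInf_mem (s := invSet (Tn (Wᵀ * W)))
    ⟨n, W, (hT.dec_iff (Wᵀ * W)).2 ⟨fun u => u.1, self_dec _⟩⟩
  by_contra hc
  refine hb ⟨(Matrix.of X)ᵀ * Matrix.of X, gram_symm _, ?_, (hT.dec_iff _).1 hX⟩
  refine (rank_mul_le_right _ _).trans ((rank_le_card_height _).trans ?_)
  rw [Fintype.card_fin]
  omega

theorem good42 : ∃ Y Z : Matrix (Fin 80) (Fin 80) F,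
    Yᵀ * Z = SS 80 ∧ ¬ Bad 42 (Yᵀ * Y) ∧ ¬ Bad 42 (Zᵀ * Z) :=
  exists_good' (n := 80) (r := 42) (by norm_num) (by
    rw [Nat.choose_two_right, Nat.choose_two_right]
    decide +kernel)

end Pool.Agent.H18.Inv
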