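import Mathlib
import Pool.Agent.H18.Inv

set_option autoImplicit false

namespace Pool.Agent.H18.Inv

open Finset Matrix Module Pool.Agent.H35.Dijoin

variable {V : Type} [Fintype V] [DecidableEq V]

lemma wedd (M : Matrix V V F) (a b : V → F) (h : b ⬝ᵥ M *ᵥ a = 1) :
    (M - vecMulVec (M *ᵥ a) (b ᵥ* M)).rank + 1 = M.rank := by
  let φ : Module.Dual F (V → F) := dotProductBilin F F b
  have hφ : ∀ x, φ x = b ⬝ᵥ x := fun x => rfl
  let p := LinearMap.range M.mulVecLin
  have e1 : ∀ x, (M - vecMulVec (M *ᵥ a) (b ᵥ* M)) *ᵥ x = M *ᵥ x - (b ⬝ᵥ M *ᵥ x) • M *ᵥ a := by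
    intro x
    rw [sub_mulVec, vecMulVec_mulVec, dotProduct_mulVec, op_smul_eq_smul]
  have e2 : LinearMap.range (M - vecMulVec (M *ᵥ a) (b ᵥ* M)).mulVecLin =
      (LinearMap.ker (φ.domRestrict p)).map p.subtype := by
    ext y
    simp only [LinearMap.mem_range, mulVecLin_apply, e1, Submodule.mem_map, LinearMap.mem_ker,
      LinearMap.domRestrict_apply, hφ, Submodule.subtype_apply]
    constructor
    · rintro ⟨x, rfl⟩
      refine ⟨⟨_, x - (b ⬝ᵥ M *ᵥ x) • a, ?_⟩, ?_, rfl⟩
      · simp [mulVec_sub, mulVec_smul]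
      · simp [h]
    · rintro ⟨⟨_, x, rfl⟩, h1, rfl⟩
      refine ⟨x, ?_⟩
      simp only [mulVecLin_apply] at h1 ⊢
      rw [h1, zero_smul, sub_zero]
  have hne : φ.domRestrict p ≠ 0 := by
    intro e
    have := LinearMap.congr_fun e ⟨_, a, rfl⟩
    simp only [LinearMap.domRestrict_apply, hφ, mulVecLin_apply, h, LinearMap.zero_apply] at this
    exact F_ne this.symm
  rw [rank, e2, Submodule.finrank_map_subtype_eq]
  exact Module.Dual.finrank_ker_add_one_of_ne_zero hne

lemma rank0 {M : Matrix V V F} (h : M.rank = 0) : M = 0 := by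
  rw [rank, Submodule.finrank_eq_zero, LinearMap.range_eq_bot] at h
  ext u v
  have := congrFun (LinearMap.congr_fun h (Pi.single v 1)) u
  simpa using this

lemma FF (x : F) : x * x = x := by revert x; decide

lemma albert (r : ℕ) : ∀ M : Matrix V V F, M.IsSymm → M.rank ≤ r → (M = 0 ∨ ∃ u, M u u = 1) →
    ∃ X : Fin r → V → F, ∀ u v, M u v = ∑ i, X i u * X i v := by
  induction r with
  | zero =>
    intro M _ h _
    rw [rank0 (Nat.le_zero.1 h)]
    exact ⟨0, by simp⟩
  | succ r ih =>
    intro M hs h h0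
    rcases h0 with rfl | ⟨u, hu⟩
    · exact ⟨0, by simp⟩
    have key : ∃ a : V → F, a ⬝ᵥ M *ᵥ a = 1 ∧ ((∀ s t, M s t = (M *ᵥ a) s * (M *ᵥ a) t) ∨
        ∃ w, M w w ≠ (M *ᵥ a) w) := by
      by_contra hc
      push Not at hc
      obtain ⟨⟨s, t, h1⟩, h2⟩ := hc (Pi.single u 1) (by simpa using hu)
      simp only [mulVec_single_one, col_apply] at h1 h2
      rcases F01 (M t t) with h3 | h3
      · have := (hc (Pi.single t 1 + Pi.single u 1) (by
          simp only [mulVec_add, mulVec_single_one, add_dotProduct, single_one_dotProduct,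
            Pi.add_apply, col_apply, hu, h3, ← h2 t, hs.apply t u]
          simp)).2 s
        simp only [mulVec_add, mulVec_single_one, Pi.add_apply, col_apply, ← h2 s] at this
        rw [← h2 t, h3, mul_zero] at h1
        exact h1 (by simpa using this)
      · have := (hc (Pi.single t 1) (by simpa using h3)).2 s
        simp only [mulVec_single_one, col_apply] at this
        rw [← h2 t, h3, mul_one, ← h2 s] at h1
        exact h1 this.symm
    obtain ⟨a, ha, h1⟩ := key
    have hw := wedd M a a ha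
    have e : a ᵥ* M = M *ᵥ a := by rw [← mulVec_transpose, hs.eq]
    rw [e] at hw
    obtain ⟨X, hX⟩ := ih (M - vecMulVec (M *ᵥ a) (M *ᵥ a))
      (hs.sub (by ext u v; simp [vecMulVec_apply, mul_comm])) (by omega) (by
        rcases h1 with h1 | ⟨w, h1⟩
        · left; ext s t; simp [vecMulVec_apply, ← h1]
        · right
          refine ⟨w, ?_⟩
          simp only [Matrix.sub_apply, vecMulVec_apply, FF]
          revert h1
          generalize M w w = x
          generalize (M *ᵥ a) w = y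
          revert x y
          decide)
    refine ⟨Fin.cons (M *ᵥ a) X, fun s t => ?_⟩
    simp only [Fin.sum_univ_succ, Fin.cons_zero, Fin.cons_succ, ← hX, Matrix.sub_apply,
      vecMulVec_apply]
    ring

lemma alt_even (r : ℕ) : ∀ M : Matrix V V F, M.IsSymm → M.rank = r → (∀ u, M u u = 0) →
    Even r := by
  induction r using Nat.strong_induction_on with
  | _ r ih =>
    intro M hs h h0
    by_cases hM : M = 0
    · subst hM
      rw [← h, rank_zero]
      exact Even.zero
    obtain ⟨a, b, hab⟩ : ∃ a b, M a b = 1 := by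
      by_contra hc
      push Not at hc
      exact hM (by ext u v; exact (F01 _).resolve_right (hc u v))
    have hba : M b a = 1 := by rw [hs.apply a b, hab]
    have h1 := wedd M (Pi.single a 1) (Pi.single b 1) (by simpa using hba)
    set N := M - vecMulVec (M *ᵥ Pi.single a 1) (Pi.single b 1 ᵥ* M) with hN
    have eN : ∀ u v, N u v = M u v - M u a * M b v := by
      intro u v
      simp [hN, vecMulVec_apply]
    have h2 := wedd N (Pi.single b 1) (Pi.single a 1) (by simp [eN, h0, hab])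
    set P := N - vecMulVec (N *ᵥ Pi.single b 1) (Pi.single a 1 ᵥ* N) with hP
    have eP : ∀ u v, P u v = M u v - M u a * M b v - M u b * M a v := by
      intro u v
      simp [hP, vecMulVec_apply, eN, h0]
    have := ih P.rank (by omega) P (by
      ext u v
      rw [transpose_apply, eP, eP, hs.apply u v, hs.apply a v, hs.apply b v, hs.apply u a,
        hs.apply u b]
      ring) rfl (fun u => by
      rw [eP, h0, hs.apply u a, hs.apply u b]
      generalize M u a = x
      generalize M u b = y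
      revert x y
      decide)
    rw [show r = P.rank + 2 by omega]
    exact this.add even_two

lemma rank_add_le' (A B : Matrix V V F) : (A + B).rank ≤ A.rank + B.rank := by
  refine le_trans (Submodule.finrank_mono ?_) (Submodule.finrank_add_le_finrank_add_finrank _ _)
  rw [mulVecLin_add]
  exact LinearMap.range_add_le _ _

lemma rank_ext (N P : Matrix V V F) (o : V) (h : ∀ u v, u ≠ o → v ≠ o → N u v = P u v) :
    N.rank ≤ P.rank + 2 := by
  have e : N = P + vecMulVec (Pi.single o 1) (N o - P o) +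
      vecMulVec (fun u => if u = o then 0 else N u o - P u o) (Pi.single o 1) := by
    ext u v
    by_cases hu : u = o <;> by_cases hv : v = o <;> simp [vecMulVec_apply, hu, hv, h]
  have h1 := rank_add_le' (P + vecMulVec (Pi.single o 1) (N o - P o))
    (vecMulVec (fun u => if u = o then 0 else N u o - P u o) (Pi.single o 1))
  have h2 := rank_add_le' P (vecMulVec (Pi.single o 1) (N o - P o))
  have h3 := rank_vecMulVec_le (R := F) (Pi.single o 1 : V → F) (N o - P o)
  have h4 := rank_vecMulVec_le (R := F) (fun u => if u = o then 0 else N u o - P u o)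
    (Pi.single o 1 : V → F)
  rw [← e] at h1
  omega

def tmrSet (T : V → V → Prop) : Set ℕ :=
  {r | ∃ M : Matrix V V F, M.IsSymm ∧ DecO T M ∧ M.rank = r}

lemma tmrSet_eq {T : V → V → Prop} (hT : Tour T) :
    {r : ℕ | ∃ f : V → ℕ, Function.Injective f ∧ ∃ M : Matrix V V (ZMod 2), M.IsSymm ∧
      (∀ u v, u ≠ v → (M u v = 1 ↔ ((T u v ∧ f v < f u) ∨ (T v u ∧ f u < f v)))) ∧ M.rank = r} =
      tmrSet T := by
  ext r
  constructor
  · rintro ⟨f, hf, M, hs, h, e⟩
    refine ⟨M, hs, (hT.dec_iff _).2 ⟨f, fun u v huv h1 => ?_⟩, e⟩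
    have h2 := h u v huv
    have h3 := hT.2 u v huv
    have h4 : f u ≠ f v := fun e => huv (hf e)
    have h5 := F_ne
    rcases F01 (M u v) with h6 | h6 <;> rw [h6] at h1 h2
    · have : ¬ f v < f u := by tauto
      omega
    · tauto
  · rintro ⟨M, hs, h, e⟩
    obtain ⟨f, hf⟩ := (hT.dec_iff _).1 h
    have k : ∀ u v, u ≠ v → ((T u v ↔ M u v = 0) ∧ f u < f v) ∨
        (¬ (T u v ↔ M u v = 0) ∧ f v < f u) := by
      intro u v huv
      by_cases c : T u v ↔ M u v = 0
      · exact Or.inl ⟨c, hf u v huv c⟩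
      · refine Or.inr ⟨c, hf v u huv.symm ?_⟩
        have := hT.2 u v huv
        rw [hs.apply u v]
        tauto
    refine ⟨f, fun u v e => ?_, M, hs, fun u v huv => ?_, e⟩
    · by_contra huv
      rcases k u v huv with h | h <;> omega
    · have h3 := hT.2 u v huv
      have h5 := F_ne
      rcases k u v huv with h | h
      · have : ¬ f v < f u := by omega
        rcases F01 (M u v) with h6 | h6 <;> rw [h6] at h ⊢ <;> tauto
      · have : ¬ f u < f v := by omega
        rcases F01 (M u v) with h6 | h6 <;> rw [h6] at h ⊢ <;> tauto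

lemma inv_le {T : V → V → Prop} {M : Matrix V V F} (hs : M.IsSymm) (h : DecO T M) {r : ℕ}
    (hr : M.rank ≤ r) (u : V) (hu : M u u = 1) : r ∈ invSet T := by
  obtain ⟨X, hX⟩ := albert r M hs hr (Or.inr ⟨u, hu⟩)
  refine ⟨X, ?_⟩
  simp only [← hX]
  exact h

lemma tmr_le {T : V → V → Prop} {k : ℕ} (hk : k ∈ invSet T) : sInf (tmrSet T) ≤ k := by
  obtain ⟨X, hX⟩ := hk
  refine (Nat.sInf_le (s := tmrSet T)
    ⟨(Matrix.of X)ᵀ * Matrix.of X, gram_symm _, hX, rfl⟩).trans ?_
  refine (rank_mul_le_right _ _).trans ((rank_le_card_height _).trans ?_)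
  rw [Fintype.card_fin]

lemma good_of_mem {T : V → V → Prop} (h : sInf (tmrSet T) ∈ invSet T) :
    sInf (invSet T) = sInf (tmrSet T) :=
  le_antisymm (Nat.sInf_le h) (tmr_le (Nat.sInf_mem ⟨_, h⟩))

lemma good_of_odd {T : V → V → Prop} (h : Odd (sInf (tmrSet T))) :
    sInf (invSet T) = sInf (tmrSet T) := by
  obtain ⟨M, hs, hd, e⟩ := Nat.sInf_mem (Nat.nonempty_of_pos_sInf h.pos)
  by_cases c : ∃ u, M u u = 1
  · obtain ⟨u, hu⟩ := c
    exact good_of_mem (inv_le hs hd e.le u hu)
  · push Not at c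
    exact absurd (alt_even _ M hs e fun u => (F01 _).resolve_right (c u))
      (Nat.not_even_iff_odd.2 h)

lemma Tour.comp {W : Type} {T : V → V → Prop} (h : Tour T) {e : W → V}
    (he : Function.Injective e) : Tour fun u v => T (e u) (e v) :=
  ⟨fun _ => h.1 _, fun _ _ huv => h.2 _ _ (he.ne huv)⟩

lemma tmr_ne {n : ℕ} {T : Fin n → Fin n → Prop} (h : Tour T) : (tmrSet T).Nonempty := by
  classical
  refine ⟨_, fun u v => if u ≠ v ∧ (T u v ↔ u < v) then 0 else 1, ?_,
    (h.dec_iff _).2 ⟨fun u => u.1, fun u v huv e => ?_⟩, rfl⟩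
  · ext u v
    simp only [transpose_apply]
    by_cases c : u = v
    · rw [c]
    · have := h.2 u v c
      have h1 : v < u ↔ ¬ u < v := ⟨fun h => h.asymm, fun h => lt_of_le_of_ne (not_lt.1 h) (Ne.symm c)⟩
      have h2 : v ≠ u := Ne.symm c
      exact if_congr (by tauto) rfl rfl
  · have := F_ne
    have : u < v := by
      split_ifs at e <;> tauto
    exact this

lemma inv_step {n : ℕ} {T : Fin (n + 2) → Fin (n + 2) → Prop} (h : Tour T) :
    sInf (tmrSet fun u v : Fin (n + 1) => T u.succ v.succ) + 2 ∈ invSet T := by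
  classical
  have h' := h.comp (Fin.succ_injective _)
  obtain ⟨M, hs, hd, e⟩ := Nat.sInf_mem (tmr_ne h')
  obtain ⟨f, hf⟩ := (h'.dec_iff _).1 hd
  let c : Fin (n + 1) → F := fun v => if T 0 v.succ then 0 else 1
  let N : Matrix (Fin (n + 2)) (Fin (n + 2)) F :=
    fun u v => Fin.cases (Fin.cases 1 c v) (fun i => Fin.cases (c i) (M i) v) u
  let g : Fin (n + 2) → Fin (n + 1) := Fin.cases 0 id
  have hr := rank_ext N (M.submatrix g g) 0 (by
    intro u v hu hv
    obtain ⟨u, rfl⟩ := Fin.exists_succ_eq.2 hu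
    obtain ⟨v, rfl⟩ := Fin.exists_succ_eq.2 hv
    rfl)
  have := rank_submatrix_le M g g
  refine inv_le (M := N) ?_ ((h.dec_iff _).2 ⟨Fin.cases 0 fun i => f i + 1, ?_⟩) (by omega) 0 rfl
  · ext u v
    refine Fin.cases ?_ (fun u => ?_) u <;> refine Fin.cases ?_ (fun v => ?_) v
    · rfl
    · rfl
    · rfl
    · exact hs.apply u v
  · intro u v
    refine Fin.cases ?_ (fun u => ?_) u <;> refine Fin.cases ?_ (fun v => ?_) v
    · simp
    · simp
    · intro h1 h2
      exfalso
      have h3 := h.2 _ _ h1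
      have h4 := F_ne
      change _ ↔ (if T 0 u.succ then (0 : F) else 1) = 0 at h2
      split_ifs at h2 <;> tauto
    · intro h1 h2
      exact Nat.succ_lt_succ (hf u v (fun e => h1 (congrArg _ e)) h2)

lemma chain {R : ℕ} (hR : 1 ≤ R) (n : ℕ) : ∀ T : Fin (n + 1) → Fin (n + 1) → Prop, Tour T →
    R < sInf (tmrSet T) → ∃ (m : ℕ) (e : Fin m → Fin (n + 1)), Function.Injective e ∧
      R ≤ sInf (tmrSet fun u v => T (e u) (e v)) ∧
      sInf (invSet fun u v => T (e u) (e v)) = sInf (tmrSet fun u v => T (e u) (e v)) := by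
  induction n with
  | zero =>
    intro T h h1
    obtain ⟨M, -, -, e⟩ := Nat.sInf_mem (tmr_ne h)
    have := rank_le_height M
    omega
  | succ n ih =>
    intro T h h1
    have h' := h.comp (Fin.succ_injective _)
    by_cases c : R < sInf (tmrSet fun u v : Fin (n + 1) => T u.succ v.succ)
    · obtain ⟨m, e, he, h2⟩ := ih _ h' c
      exact ⟨m, fun u => (e u).succ, (Fin.succ_injective _).comp he, h2⟩
    have h2 := inv_step h
    have h3 := tmr_le h2
    by_cases c1 : sInf (tmrSet T) = sInf (tmrSet fun u v : Fin (n + 1) => T u.succ v.succ) + 2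
    · exact ⟨_, id, Function.injective_id, h1.le, good_of_mem (c1 ▸ h2)⟩
    rcases Nat.even_or_odd R with c2 | c2
    · refine ⟨_, id, Function.injective_id, h1.le, good_of_odd ?_⟩
      change Odd (sInf (tmrSet T))
      rw [show sInf (tmrSet T) = R + 1 by omega]
      exact c2.add_one
    · refine ⟨_, Fin.succ, Fin.succ_injective _, by omega, good_of_odd ?_⟩
      rwa [show sInf (tmrSet fun u v : Fin (n + 1) => T u.succ v.succ) = R by omega]

lemma tmr_gt {n r : ℕ} {A : Matrix (Fin n) (Fin n) F} (hA : A.IsSymm) (hb : ¬ Bad r A) :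
    r < sInf (tmrSet (Tn A)) := by
  have hT := Tn_Tour hA
  obtain ⟨M, hs, hd, e⟩ := Nat.sInf_mem (tmr_ne hT)
  by_contra hc
  exact hb ⟨M, hs, by omega, (hT.dec_iff _).1 hd⟩

lemma join_mem {n : ℕ} {Y Z : Matrix (Fin n) (Fin n) F} (h : Yᵀ * Z = SS n) {W : Type}
    (J : W → W → Prop) (e : W → Fin n ⊕ Fin n)
    (hJ : ∀ u v, J u v → Sum.Lex (Tn (Yᵀ * Y)) (Tn (Zᵀ * Z)) (e u) (e v)) : n ∈ invSet J := by
  obtain ⟨X, f, hf⟩ := join h
  have t1 := Tn_Tour (gram_symm Y)
  have t2 := Tn_Tour (gram_symm Z)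
  have hT : Tour (Sum.Lex (Tn (Yᵀ * Y)) (Tn (Zᵀ * Z))) := by
    refine ⟨?_, ?_⟩
    · rintro (u | u)
      · simpa using t1.1 u
      · simpa using t2.1 u
    · rintro (u | u) (v | v) huv
      · simpa using t1.2 u v (fun e => huv (congrArg _ e))
      · simp
      · simp
      · simpa using t2.2 u v (fun e => huv (congrArg _ e))
  obtain ⟨g, hg⟩ := (hT.dec_iff (Xᵀ * X)).2 ⟨f, hf⟩
  exact ⟨fun i u => X i (e u), fun u => g (e u), fun u v huv => hg _ _
    (huv.imp (fun h => ⟨hJ _ _ h.1, h.2⟩) fun h => ⟨hJ _ _ h.1, h.2⟩)⟩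

end Pool.Agent.H18.Inv
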