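import Pool.Agent.H18.LinDefs

set_option autoImplicit false

namespace H18.Lin
open Finset Function BigOperators

abbrev G (n : ℕ) : Type := Fin n → ZMod 2

lemma card_G (n : ℕ) : Fintype.card (G n) = 2 ^ n := by simp [G]

lemma expect_hom {A B : Type} [AddCommGroup A] [AddCommGroup B] [Fintype A] [Fintype B]
    (f : A →+ B) (hf : Surjective f) (g : B → ℝ) : 𝔼 a, g (f a) = 𝔼 b, g b := by
  choose s hs using hf
  have h1 : ∀ b, 𝔼 a, g (f a) = 𝔼 a, g (f a + b) := fun b =>
    (Fintype.expect_equiv (Equiv.addRight (s b)) _ _ fun a => by simp [hs]).symm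
  have h2 : ∀ a, 𝔼 b, g (f a + b) = 𝔼 b, g b := fun a =>
    Fintype.expect_equiv (Equiv.addLeft (f a)) _ _ fun b => by simp
  calc 𝔼 a, g (f a) = 𝔼 b : B, 𝔼 a, g (f a + b) := by simp_rw [← h1]; rw [Fintype.expect_const]
    _ = 𝔼 a, 𝔼 b : B, g (f a + b) := expect_comm _ _ _
    _ = _ := by simp_rw [h2]; rw [Fintype.expect_const]

open Classical in
lemma dep_le {ι : Type} [Fintype ι] [DecidableEq ι] (n : ℕ) :
    𝔼 x : ι → G n, (if LinearIndependent (ZMod 2) x then (0 : ℝ) else 1) ≤
      2 ^ Fintype.card ι / 2 ^ n := by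
  have h1 : ∀ w : ι → ZMod 2, w ≠ 0 →
      𝔼 x : ι → G n, (if ∑ i, w i • x i = 0 then (1 : ℝ) else 0) = 1 / 2 ^ n := by
    intro w hw
    obtain ⟨i, hi⟩ := ne_iff.1 hw
    let f : (ι → G n) →+ G n :=
      { toFun := fun x => ∑ i, w i • x i
        map_zero' := by simp
        map_add' := fun x y => by simp [sum_add_distrib] }
    have hf : Surjective f := fun v => ⟨Pi.single i ((w i)⁻¹ • v), by
      show ∑ j, w j • (Pi.single i ((w i)⁻¹ • v) : ι → G n) j = v
      rw [sum_eq_single i (fun j _ hj => by simp [hj]) (by simp)]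
      simp [smul_smul, mul_inv_cancel₀ (show w i ≠ 0 from hi)]⟩
    have := expect_hom f hf (fun v => if v = 0 then (1 : ℝ) else 0)
    rw [show (𝔼 x : ι → G n, (if ∑ i, w i • x i = 0 then (1 : ℝ) else 0)) = _ from this,
      expect_eq_sum_div_card]
    simp
  calc _ ≤ 𝔼 x : ι → G n, ∑ w ∈ univ.erase (0 : ι → ZMod 2),
        (if ∑ i, w i • x i = 0 then (1 : ℝ) else 0) := by
        refine expect_le_expect fun x _ => ?_
        split_ifs with h
        · positivity
        · obtain ⟨w, h1, i, hi⟩ := Fintype.not_linearIndependent_iff.1 h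
          refine le_trans ?_ (single_le_sum (f := fun w : ι → ZMod 2 =>
            if ∑ i, w i • x i = 0 then (1 : ℝ) else 0) (fun _ _ => by positivity)
            (mem_erase.2 ⟨fun e => hi (by simp [e]), mem_univ w⟩))
          simp [h1]
    _ = ∑ w ∈ univ.erase (0 : ι → ZMod 2), (1 : ℝ) / 2 ^ n := by
        rw [expect_sum_comm]
        exact sum_congr rfl fun w hw => h1 w (mem_erase.1 hw).1
    _ ≤ ∑ w : ι → ZMod 2, (1 : ℝ) / 2 ^ n :=
        sum_le_sum_of_subset_of_nonneg (subset_univ _) fun _ _ _ => by positivity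
    _ = _ := by simp [div_eq_mul_inv]

/-- the linear map with columns `w` -/
def lm {n m : ℕ} (w : Fin n → G m) : G n →ₗ[ZMod 2] G m := Fintype.linearCombination (ZMod 2) w

lemma expect_lm {ι : Type} [Fintype ι] [DecidableEq ι] {n m : ℕ} (z : ι → G n)
    (hz : LinearIndependent (ZMod 2) z) (g : (ι → G m) → ℝ) :
    𝔼 w : Fin n → G m, g (fun i => lm w (z i)) = 𝔼 y, g y := by
  let f : (Fin n → G m) →+ (ι → G m) :=
    { toFun := fun w i => lm w (z i)
      map_zero' := by ext i; simp [lm, Fintype.linearCombination_apply]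
      map_add' := fun x y => by
        funext i; simp [lm, Fintype.linearCombination_apply, sum_add_distrib] }
  refine expect_hom f (fun y => ?_) g
  obtain ⟨ψ, hψ⟩ := LinearMap.exists_extend
    ((Finsupp.linearCombination (ZMod 2) y).comp hz.repr)
  refine ⟨fun j => ψ fun i => if j = i then 1 else 0, funext fun i => ?_⟩
  show lm _ (z i) = y i
  rw [lm, Fintype.linearCombination_apply, ← LinearMap.pi_apply_eq_sum_univ]
  have := LinearMap.congr_fun hψ ⟨z i, Submodule.subset_span ⟨i, rfl⟩⟩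
  simp only [LinearMap.comp_apply, Submodule.subtype_apply] at this
  rw [this, hz.repr_eq_single i _ rfl]
  simp

lemma var_le {k n m : ℕ} (g : (Fin k → G m) → ℝ) (h1 : ∀ y, |g y| ≤ 1) (h0 : 𝔼 y, g y = 0) :
    𝔼 w : Fin n → G m, (𝔼 x : Fin k → G n, g fun i => lm w (x i)) ^ 2 ≤ 4 ^ k / 2 ^ n := by
  classical
  have e1 : ∀ {V : Type} [Fintype V] (u : (Fin k → V) → ℝ), (𝔼 x, u x) ^ 2 =
      𝔼 z : Fin k ⊕ Fin k → V, u (fun i => z (.inl i)) * u (fun i => z (.inr i)) := by
    intro V _ u
    rw [sq, Fintype.expect_mul_expect, ← expect_product', univ_product_univ]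
    exact (Fintype.expect_equiv (Equiv.sumArrowEquivProdArrow _ _ _) _ _ fun z => rfl).symm
  simp_rw [e1]
  rw [expect_comm]
  refine le_trans (expect_le_expect fun z _ => ?_) ((dep_le (ι := Fin k ⊕ Fin k) n).trans ?_)
  · split_ifs with h
    · rw [expect_lm z h (fun y => g (fun i => y (.inl i)) * g (fun i => y (.inr i))), ← e1, h0]
      simp
    · refine expect_le univ_nonempty fun w _ => (le_abs_self _).trans ?_
      rw [abs_mul]
      exact mul_le_one₀ (h1 _) (abs_nonneg _) (h1 _)
  · rw [Fintype.card_sum, Fintype.card_fin, ← two_mul, pow_mul]; norm_num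

end H18.Lin
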