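import Pool.Agent.H18.Lin1

set_option autoImplicit false

namespace H18.Lin
open Finset Function BigOperators

def FF (M : FM) {m : ℕ} (A : Set (G m)) (x : Fin (M.n + 1) → G m) : Prop :=
  ∃ e : Fin (M.n + 1) → Fin (M.n + 1), Injective e ∧
    ∀ I : Finset (Fin (M.n + 1)), I.Nonempty → (I ∈ M.E ↔ ∑ i ∈ I, x (e i) ∈ A)

open Classical in
noncomputable def q (M : FM) {m : ℕ} (A : Set (G m)) : ℝ := 𝔼 x, if FF M A x then (1 : ℝ) else 0

lemma q_mem (M : FM) {m : ℕ} (A : Set (G m)) : 0 ≤ q M A ∧ q M A ≤ 1 :=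
  ⟨expect_nonneg fun x _ => by positivity,
    expect_le univ_nonempty fun x _ => by split_ifs <;> norm_num⟩

lemma sample {ι : Type} [Fintype ι] (M : ι → FM) {n m K N : ℕ} (hK : ∀ i, (M i).n + 1 ≤ K)
    (h : Fintype.card ι * N ^ 2 * 4 ^ K ≤ 2 ^ n) (A : Set (G m)) :
    ∃ B : Set (G n), ∀ i, N * |q (M i) B - q (M i) A| ≤ 1 := by
  classical
  have h1 : ∀ i, 𝔼 w : Fin n → G m, (q (M i) (lm w ⁻¹' A) - q (M i) A) ^ 2 ≤ 4 ^ K / 2 ^ n := by
    intro i
    have := var_le (n := n) (fun y => (if FF (M i) A y then (1 : ℝ) else 0) - q (M i) A)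
      (fun y => by have := q_mem (M i) A; rw [abs_le]; split_ifs <;> constructor <;> linarith)
      (by rw [expect_sub_distrib, Fintype.expect_const]; exact sub_self _)
    refine le_trans (le_of_eq ?_) (this.trans ?_)
    · refine expect_congr rfl fun w _ => ?_
      rw [expect_sub_distrib, Fintype.expect_const]
      congr 2
      refine expect_congr rfl fun x _ => ?_
      congr 1
      simp [FF, map_sum]
    · gcongr
      · norm_num
      · exact hK i
  have h2 : 𝔼 w : Fin n → G m, ∑ i, (q (M i) (lm w ⁻¹' A) - q (M i) A) ^ 2 ≤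
      Fintype.card ι * (4 ^ K / 2 ^ n) := by
    rw [expect_sum_comm]
    refine (sum_le_sum fun i _ => h1 i).trans (by simp)
  obtain ⟨w, -, hw⟩ := exists_le_of_expect_le univ_nonempty h2
  refine ⟨lm w ⁻¹' A, fun i => ?_⟩
  have h3 := (single_le_sum (f := fun i => (q (M i) (lm w ⁻¹' A) - q (M i) A) ^ 2)
    (fun _ _ => by positivity) (mem_univ i)).trans hw
  have h4 : (Fintype.card ι : ℝ) * N ^ 2 * 4 ^ K ≤ 2 ^ n := by exact_mod_cast h
  refine abs_le_one_iff_mul_self_le_one.2 ?_ |> (le_abs_self _).trans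
  calc _ = (N : ℝ) ^ 2 * (q (M i) (lm w ⁻¹' A) - q (M i) A) ^ 2 := by rw [← sq, mul_pow, sq_abs]
    _ ≤ N ^ 2 * (Fintype.card ι * (4 ^ K / 2 ^ n)) := by gcongr
    _ = Fintype.card ι * N ^ 2 * 4 ^ K / 2 ^ n := by ring
    _ ≤ 1 := by rw [div_le_one (by positivity)]; exact h4

lemma card_inj {V : Type} [DecidableEq V] (k : ℕ) (P : Finset V → Prop)
    (S : Finset (Fin k → V)) (hS : ∀ x, x ∈ S ↔ Injective x ∧ P (univ.image x))
    (T : Finset (Finset V)) (hT : ∀ U, U ∈ T ↔ #U = k ∧ P U) : #S = k.factorial * #T := by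
  rw [card_eq_sum_card_fiberwise (f := fun x => univ.image x) (t := T), mul_comm, sum_const_nat]
  · intro U hU
    rw [hT] at hU
    have : Fintype.card (Fin k ↪ U) = k.factorial := by
      rw [Fintype.card_embedding_eq, Fintype.card_coe, hU.1, Fintype.card_fin,
        Nat.descFactorial_self]
    rw [← this, ← card_univ]
    symm
    refine card_bij (fun f _ => fun i => (f i : V)) (fun f _ => ?_) (fun f _ g _ h => ?_)
      (fun x hx => ?_)
    · have hi : Injective fun i => (f i : V) := Subtype.val_injective.comp f.injective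
      have : univ.image (fun i => (f i : V)) = U :=
        eq_of_subset_of_card_le (fun v hv => by
          obtain ⟨i, -, rfl⟩ := mem_image.1 hv; exact (f i).2)
          (by rw [card_image_of_injective _ hi]; simp [hU.1])
      simp only [mem_filter, hS, true_and, this, hi, hU.2]
    · ext i; exact congrFun h i
    · simp only [mem_filter, hS] at hx
      exact ⟨⟨fun i => ⟨x i, hx.2 ▸ mem_image_of_mem _ (mem_univ i)⟩,
        fun i j h => hx.1.1 (congrArg Subtype.val h)⟩, mem_univ _, rfl⟩
  · intro x hx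
    simp only [mem_coe, hS, hT] at hx ⊢
    exact ⟨by rw [card_image_of_injective _ hx.1]; simp, hx.2⟩

lemma FF_iff (M : FM) {m : ℕ} (A : Set (G m)) (x : Fin (M.n + 1) → G m) (hx : Injective x) :
    FF M A x ↔ Induces M (EA A) (univ.image x) := by
  have key : ∀ (f : Fin (M.n + 1) ↪ G m), (∀ I, I ∈ M.E ↔ EA A (I.map f)) ↔
      ∀ I : Finset (Fin (M.n + 1)), I.Nonempty → (I ∈ M.E ↔ ∑ i ∈ I, f i ∈ A) := by
    intro f
    refine forall_congr' fun I => ?_
    rcases I.eq_empty_or_nonempty with rfl | h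
    · simp [EA, M.ne]
    · simp [EA, h]
  constructor
  · rintro ⟨e, he, h⟩
    refine ⟨⟨x ∘ e, hx.comp he⟩, ?_, (key _).2 h⟩
    rw [map_eq_image]
    show univ.image (x ∘ e) = _
    rw [← image_image, image_univ_of_surjective (Finite.surjective_of_injective he)]
  · rintro ⟨f, hf, h⟩
    have : ∀ i, ∃ j, x j = f i := fun i => by
      have := mem_map_of_mem f (mem_univ i)
      rw [hf] at this
      simpa using this
    choose e he using this
    refine ⟨e, fun i j h => f.injective (by rw [← he, ← he, h]), ?_⟩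
    simp_rw [he]
    exact (key f).1 h

lemma ratio {a b a' b' : ℝ} (ha : 0 ≤ a) (hab : a ≤ b) (ha' : 0 ≤ a') (hab' : a' ≤ b')
    (h : 0 < b + b') : |a / b - (a + a') / (b + b')| ≤ b' / (b + b') := by
  have h1 : 0 ≤ a / b := div_nonneg ha (ha.trans hab)
  have h2 : a / b ≤ 1 := div_le_one_of_le₀ hab (ha.trans hab)
  have h3 : a / b * b = a := by
    rcases eq_or_ne b 0 with rfl | hb
    · linarith
    · field_simp
  have : a / b - (a + a') / (b + b') = (a / b * b' - a') / (b + b') := by
    rw [eq_div_iff h.ne', sub_mul, div_mul_cancel₀ _ h.ne']; linarith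
  rw [this, abs_div, abs_of_pos h]
  gcongr
  rw [abs_le]
  constructor <;> nlinarith

lemma dens_q (M : FM) {m : ℕ} (A : Set (G m)) :
    |dens M (EA A) - q M A| ≤ 2 ^ (M.n + 1) / 2 ^ m := by
  classical
  have a3 : #((univ.filter (FF M A)).filter Injective) = (M.n + 1).factorial *
      #{U ∈ powersetCard (M.n + 1) univ | Induces M (EA A) U} :=
    card_inj _ (Induces M (EA A)) _ (fun x => by
      simp only [mem_filter, mem_univ, true_and]
      exact ⟨fun h => ⟨h.2, (FF_iff M A x h.2).1 h.1⟩, fun h => ⟨(FF_iff M A x h.1).2 h.2, h.1⟩⟩)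
      _ fun U => by simp
  have a2 : #{x : Fin (M.n + 1) → G m | Injective x} = (M.n + 1).factorial *
      (Fintype.card (G m)).choose (M.n + 1) := by
    rw [← card_univ, ← card_powersetCard]
    exact card_inj _ (fun _ => True) _ (fun x => by simp) _ fun U => by simp
  have hf : ((M.n + 1).factorial : ℝ) ≠ 0 := by positivity
  have d : dens M (EA A) = (#((univ.filter (FF M A)).filter Injective) : ℝ) /
      #{x : Fin (M.n + 1) → G m | Injective x} := by
    rw [a3, a2, dens]
    push_cast
    rw [mul_div_mul_left _ _ hf]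
  have t : (#{x : Fin (M.n + 1) → G m | Injective x} : ℝ) +
      #{x : Fin (M.n + 1) → G m | ¬ Injective x} = #(univ : Finset (Fin (M.n + 1) → G m)) := by
    exact_mod_cast card_filter_add_card_filter_not _
  have e : q M A = ((#((univ.filter (FF M A)).filter Injective) : ℝ) +
      #((univ.filter (FF M A)).filter fun x => ¬ Injective x)) /
      (#{x : Fin (M.n + 1) → G m | Injective x} + #{x : Fin (M.n + 1) → G m | ¬ Injective x}) := by
    rw [t, q, expect_eq_sum_div_card, sum_boole, ← Nat.cast_add, card_filter_add_card_filter_not]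
  rw [d, e]
  refine (ratio (by positivity) ?_ (by positivity) ?_ ?_).trans ?_
  · exact_mod_cast card_le_card (filter_subset_filter _ (subset_univ _))
  · exact_mod_cast card_le_card (filter_subset_filter _ (subset_univ _))
  · rw [t]; exact_mod_cast card_pos.2 univ_nonempty
  · refine le_trans ?_ ((dep_le (ι := Fin (M.n + 1)) m).trans (by simp))
    rw [t, ← sum_boole, ← expect_eq_sum_div_card]
    refine expect_le_expect fun x _ => ?_
    split_ifs with h1 h2 h2 <;> first | exact absurd h2.injective h1 | norm_num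

lemma dens_iso {V : Type} [Fintype V] (E : Finset V → Prop) {M N : FM} (h : Iso M N) :
    dens M E = dens N E := by
  classical
  obtain ⟨e, he⟩ := h
  have hn : M.n + 1 = N.n + 1 := by simpa using Fintype.card_congr e
  have : ∀ U, Induces M E U ↔ Induces N E U := fun U => by
    constructor
    · rintro ⟨f, h1, h2⟩
      refine ⟨e.symm.toEmbedding.trans f, by rw [← map_map, map_univ_equiv, h1], fun I => ?_⟩
      rw [← map_map, ← h2, he, map_map]; simp
    · rintro ⟨f, h1, h2⟩
      refine ⟨e.toEmbedding.trans f, by rw [← map_map, map_univ_equiv, h1], fun I => ?_⟩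
      rw [← map_map, ← h2, he]
  unfold dens
  rw [hn, filter_congr fun U _ => this U]

lemma pt_mk {m : ℕ} (A : Set (G m)) (M : FM) : pt A (Quot.mk _ M) = dens M (EA A) :=
  congrArg (Quot.lift (fun M => dens M (EA A)) fun _ _ h => dens_iso _ h)
    (Quot.out_eq (Quot.mk Iso M))

lemma cls_surj : Surjective cls := by
  rintro ⟨n, E, h⟩
  refine ⟨(n, E.toList.map fun I => I.toList.map Fin.val), congrArg (Quot.mk _) ?_⟩
  unfold model
  congr 1
  ext I
  simp only [mem_filter, mem_univ, true_and, List.mem_map, mem_toList]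
  constructor
  · rintro ⟨-, _, ⟨J, hJ, rfl⟩, h2⟩
    have : I = J := by ext i; rw [h2]; simp [Fin.val_inj]
    exact this ▸ hJ
  · intro hI
    exact ⟨nonempty_iff_ne_empty.2 fun e => h (e ▸ hI), _, ⟨I, hI, rfl⟩,
      fun i => by simp [Fin.val_inj]⟩

end H18.Lin
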