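import Pool.Agent.H18.Lin2

set_option autoImplicit false

namespace H18.Lin
open Finset Function BigOperators Filter Topology

def Valid (l : List (Code × ℕ)) (N n K : ℕ) : Prop :=
  (∀ t ∈ l, t.1.1 + 1 ≤ K) ∧ l.length * N ^ 2 * 4 ^ K ≤ 2 ^ n ∧
    ∀ B : Set (G n), ∃ t ∈ l, (l.length : ℝ) + 3 ≤ |N * q (model t.1) B - t.2|

def poly (l : List (Code × ℕ)) (N : ℕ) : List (ℤ × List Code) :=
  (-((l.length + 1 : ℕ) : ℤ), []) :: l.flatMap fun t =>
    [(((N ^ 2 : ℕ) : ℤ), [t.1, t.1]), (-((2 * N * t.2 : ℕ) : ℤ), [t.1]), (((t.2 ^ 2 : ℕ) : ℤ), [])]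

lemma ev_poly (l : List (Code × ℕ)) (N : ℕ) (x : Cls → ℝ) :
    ev (poly l N) x = (l.map fun t => ((N : ℝ) * x (cls t.1) - t.2) ^ 2).sum - (l.length + 1) := by
  have : ∀ l : List (Code × ℕ), ev (l.flatMap fun t => [(((N ^ 2 : ℕ) : ℤ), [t.1, t.1]),
      (-((2 * N * t.2 : ℕ) : ℤ), [t.1]), (((t.2 ^ 2 : ℕ) : ℤ), [])]) x =
      (l.map fun t => ((N : ℝ) * x (cls t.1) - t.2) ^ 2).sum := by
    intro l
    induction l with
    | nil => simp [ev]
    | cons t l ih =>
      simp only [ev, List.flatMap_cons, List.map_append, List.sum_append, List.map_cons,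
        List.sum_cons] at ih ⊢
      rw [ih]; simp; ring
  rw [← this]
  simp [poly, ev]; ring

lemma ev_cont (P : List (ℤ × List Code)) : Continuous (ev P) :=
  continuous_list_sum _ fun t _ =>
    continuous_const.mul (continuous_list_prod _ fun c _ => continuous_apply _)

lemma pt_q {m N : ℕ} (c : Code) (A : Set (G m)) (h : N * 2 ^ (c.1 + 1) ≤ 2 ^ m) :
    |N * pt A (cls c) - N * q (model c) A| ≤ 1 := by
  have h' : (N : ℝ) * 2 ^ (c.1 + 1) ≤ 2 ^ m := by exact_mod_cast h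
  rw [← mul_sub, abs_mul, Nat.abs_cast, cls, pt_mk]
  refine (mul_le_mul_of_nonneg_left (dens_q _ A) (by positivity)).trans ?_
  rw [← mul_div_assoc, div_le_one (by positivity)]
  exact h'

lemma sound {l : List (Code × ℕ)} {N n K : ℕ} (h : Valid l N n K) {x : Cls → ℝ} (hx : Lineon x) :
    0 ≤ ev (poly l N) x := by
  have big : ∀ m, N * 2 ^ K ≤ m → ∀ A : Set (G m), 0 ≤ ev (poly l N) (pt A) := by
    intro m hm A
    obtain ⟨B, hB⟩ := sample (fun i : Fin l.length => model (l.get i).1) (n := n) (K := K) (N := N)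
      (fun i => h.1 _ (l.get_mem i)) (by simpa using h.2.1) A
    obtain ⟨t, ht, h3⟩ := h.2.2 B
    obtain ⟨i, rfl⟩ := List.get_of_mem ht
    have h1 := hB i
    rw [← Nat.abs_cast (R := ℝ) N, ← abs_mul, mul_sub] at h1
    have h2 := pt_q (N := N) (l.get i).1 A (((Nat.mul_le_mul_left _
      (Nat.pow_le_pow_right (by norm_num) (h.1 _ ht))).trans hm).trans Nat.lt_two_pow_self.le)
    have h4 : (l.length : ℝ) + 1 ≤ |N * pt A (cls (l.get i).1) - (l.get i).2| := by
      rw [abs_le] at h1 h2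
      rw [le_abs] at h3 ⊢
      rcases h3 with h3 | h3
      · left; linarith
      · right; linarith
    have h5 := List.single_le_sum (l := l.map fun t => ((N : ℝ) * pt A (cls t.1) - t.2) ^ 2)
      (by simp only [List.mem_map]; rintro _ ⟨t, -, rfl⟩; positivity) _ (List.mem_map_of_mem ht)
    rw [ev_poly]
    rw [← sq_abs] at h5
    have : (0 : ℝ) ≤ l.length := by positivity
    nlinarith
  have fin : (⋃ m ∈ Set.Iio (N * 2 ^ K), Set.range (pt (m := m))).Finite :=
    (Set.finite_Iio _).biUnion fun m _ => Set.finite_range _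
  have : AccPt x (𝓟 ({y | 0 ≤ ev (poly l N) y} ∪ ⋃ m ∈ Set.Iio (N * 2 ^ K), Set.range (pt (m := m)))) :=
    AccPt.mono hx (principal_mono.2 (by
      rintro _ ⟨m, -, A, rfl⟩
      by_cases hm : N * 2 ^ K ≤ m
      · exact .inl (big m hm A)
      · exact .inr (Set.mem_biUnion (not_le.1 hm) ⟨A, rfl⟩)))
  rw [← sup_principal, accPt_sup] at this
  rcases this with h | h
  · exact (isClosed_le continuous_const (ev_cont _)).closure_subset
      (mem_closure_iff_clusterPt.2 h.clusterPt)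
  · exact absurd fin (Set.Infinite.of_accPt h)

lemma pt_ne {m m' : ℕ} (h : m < m') (A : Set (G m)) (A' : Set (G m')) : pt A' ≠ pt A := by
  classical
  obtain ⟨f⟩ : Nonempty (Fin (2 ^ m + 1) ↪ G m') := Function.Embedding.nonempty_of_card_le (by
    rw [card_G, Fintype.card_fin]; exact Nat.pow_lt_pow_right (by norm_num) h)
  let M : FM := ⟨2 ^ m, {I | EA A' (I.map f)}, by simp [EA]⟩
  intro e
  have := congrFun e (Quot.mk _ M)
  rw [pt_mk, pt_mk, dens, dens, card_G, card_G, Nat.choose_eq_zero_of_lt (n := 2 ^ m) (by simp [M])]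
    at this
  simp only [Nat.cast_zero, div_zero, div_eq_zero_iff, Nat.cast_eq_zero, card_eq_zero] at this
  rcases this with h1 | h1
  · refine eq_empty_iff_forall_notMem.1 h1 (univ.map f) ?_
    simp only [mem_filter, mem_powersetCard, subset_univ, true_and]
    exact ⟨by simp [M], f, rfl, fun I => by simp [M]⟩
  · exact (Nat.choose_pos (show 2 ^ m + 1 ≤ 2 ^ m' from
      Nat.pow_lt_pow_right (by norm_num) h)).ne' h1

lemma complete {x : Cls → ℝ} (h0 : ∀ M, 0 ≤ x M) (hx : ¬ Lineon x) :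
    ∃ l N n K, Valid l N n K ∧ ev (poly l N) x < 0 := by
  obtain ⟨m1, hm1⟩ : ∃ m1, ∀ m, m1 < m → ∀ A : Set (G m), pt A ≠ x := by
    by_cases h : ∃ m, ∃ A : Set (G m), pt A = x
    · obtain ⟨m, A, rfl⟩ := h
      exact ⟨m, fun m' h A' => pt_ne h A A'⟩
    · exact ⟨0, fun m _ A e => h ⟨m, A, e⟩⟩
  rw [Lineon, accPt_iff_nhds] at hx
  push Not at hx
  obtain ⟨U, hU, hx⟩ := hx
  rw [nhds_pi, mem_pi'] at hU
  obtain ⟨I, t, ht, hI⟩ := hU
  have ev1 : ∀ᶠ N : ℕ in atTop, ∀ M ∈ I, Metric.ball (x M) ((#I + 5) / N) ⊆ t M := by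
    refine (eventually_all_finset I).2 fun M _ => ?_
    obtain ⟨ε, hε, h⟩ := Metric.mem_nhds_iff.1 (ht M)
    exact ((tendsto_const_div_atTop_nhds_zero_nat _).eventually (ge_mem_nhds hε)).mono
      fun N hN => (Metric.ball_subset_ball hN).trans h
  obtain ⟨N, hN, hN1⟩ := (ev1.and (eventually_ge_atTop 1)).exists
  choose cd hcd using cls_surj
  let K := I.sup fun M => (cd M).1 + 1
  let l : List (Code × ℕ) := I.toList.map fun M => (cd M, ⌊N * x M⌋₊)
  have hl : l.length = #I := by simp [l]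
  have fl : ∀ M, |N * x M - ⌊N * x M⌋₊| ≤ 1 := fun M => by
    have h1 := Nat.floor_le (mul_nonneg (Nat.cast_nonneg N) (h0 M))
    have h2 := Nat.lt_floor_add_one (N * x M)
    rw [abs_le]; constructor <;> linarith
  refine ⟨l, N, #I * N ^ 2 * 4 ^ K + N * 2 ^ K + m1 + 1, K, ⟨fun s hs => ?_, ?_, fun B => ?_⟩, ?_⟩
  · obtain ⟨M, hM, rfl⟩ := List.mem_map.1 hs
    exact le_sup (f := fun M => (cd M).1 + 1) (mem_toList.1 hM)
  · rw [hl]; exact le_trans (by omega) Nat.lt_two_pow_self.le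
  · have : pt B ∉ Set.pi I t := fun h => hm1 _ (by omega) B (hx _ ⟨hI h, _, by omega, B, rfl⟩)
    simp only [Set.mem_pi, not_forall, mem_coe] at this
    obtain ⟨M, hM, h⟩ := this
    refine ⟨_, List.mem_map_of_mem (mem_toList.2 hM), ?_⟩
    have h1 : ((#I : ℝ) + 5) / N ≤ |pt B M - x M| := not_lt.1 fun h' => h (hN M hM h')
    have hN' : (0 : ℝ) < N := by exact_mod_cast hN1
    rw [div_le_iff₀' hN', ← Nat.abs_cast (R := ℝ) N, ← abs_mul, mul_sub] at h1
    have h2 := pt_q (N := N) (cd M) B (((Nat.mul_le_mul_left _ (Nat.pow_le_pow_right (by norm_num)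
      (le_sup (f := fun M => (cd M).1 + 1) hM))).trans
      (show N * 2 ^ K ≤ _ by omega)).trans Nat.lt_two_pow_self.le)
    have h3 := fl M
    rw [hcd] at h2
    rw [abs_le] at h2 h3
    rw [hl]
    rw [le_abs] at h1 ⊢
    rcases h1 with h1 | h1
    · left; linarith
    · right; linarith
  · have := List.sum_le_card_nsmul (l.map fun t => ((N : ℝ) * x (cls t.1) - t.2) ^ 2) 1 (by
      simp only [List.mem_map, l]
      rintro _ ⟨_, ⟨M, -, rfl⟩, rfl⟩
      rw [hcd]
      exact (sq_le_one_iff_abs_le_one _).2 (fl M))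
    rw [ev_poly]
    simp only [List.length_map, nsmul_eq_mul, mul_one] at this
    linarith

end H18.Lin
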