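import Pool.Agent.H18.Lin3
import Pool.Agent.H37.RE

set_option autoImplicit false

namespace H18.Lin
open Finset Function BigOperators Pool.Agent.H37

def dig (b X i : ℕ) : ℕ := X / b ^ i % b

lemma exists_dig {b k : ℕ} (f : Fin k → ℕ) (hf : ∀ i, f i < b) :
    ∃ X < b ^ k, ∀ i : Fin k, dig b X i = f i :=
  ⟨_, (finFunctionFinEquiv fun i => (⟨f i, hf i⟩ : Fin b)).2, fun i =>
    congrArg Fin.val (congrFun (finFunctionFinEquiv.symm_apply_apply
      fun i => (⟨f i, hf i⟩ : Fin b)) i)⟩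

lemma fin_all {n : ℕ} {p : ℕ → Prop} : (∀ x < n, p x) ↔ ∀ i : Fin n, p i :=
  ⟨fun h i => h i i.2, fun h x hx => h ⟨x, hx⟩⟩

lemma exists_bits {k : ℕ} (p : Fin k → Prop) : ∃ X < 2 ^ k, ∀ i : Fin k, dig 2 X i = 1 ↔ p i := by
  classical
  obtain ⟨X, h1, h2⟩ := exists_dig (b := 2) (fun i => if p i then 1 else 0)
    (fun i => by split_ifs <;> norm_num)
  exact ⟨X, h1, fun i => by rw [h2]; split_ifs <;> simp [*]⟩

def vec (n a : ℕ) : G n := fun j => ((a / 2 ^ (j : ℕ) : ℕ) : ZMod 2)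

lemma vec_surj {n : ℕ} (v : G n) : ∃ a < 2 ^ n, vec n a = v := by
  obtain ⟨a, h1, h2⟩ := exists_dig (b := 2) (fun i => (v i).val) fun i => ZMod.val_lt _
  refine ⟨a, h1, funext fun j => ?_⟩
  rw [vec, ← ZMod.natCast_mod, ← ZMod.natCast_zmod_val (v j), ← h2]; rfl

def tup (n k X : ℕ) : Fin k → G n := fun i => vec n (dig (2 ^ n) X i)

def setB (n β : ℕ) : Set (G n) := {v | ∃ b < 2 ^ n, dig 2 β b = 1 ∧ v = vec n b}

lemma setB_surj {n : ℕ} (B : Set (G n)) : ∃ β < 2 ^ 2 ^ n, setB n β = B := by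
  obtain ⟨β, h1, h2⟩ := exists_bits (k := 2 ^ n) fun b => vec n b ∈ B
  refine ⟨β, h1, Set.ext fun v => ⟨?_, fun hv => ?_⟩⟩
  · rintro ⟨b, hb, h, rfl⟩
    exact (h2 ⟨b, hb⟩).1 h
  · obtain ⟨b, hb, rfl⟩ := vec_surj v
    exact ⟨b, hb, (h2 ⟨b, hb⟩).2 hv, rfl⟩

def memb (n β k X e ι : ℕ) : Bool :=
  (List.range (2 ^ n)).any fun b => decide (dig 2 β b = 1) && (List.range n).all fun j =>
    decide (((List.range k).map fun i => dig 2 ι i * (dig (2 ^ n) X (dig k e i) / 2 ^ j)).sum % 2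
      = b / 2 ^ j % 2)

def edge (L : List (List ℕ)) (k ι : ℕ) : Bool :=
  L.any fun l => (List.range k).all fun i => decide (dig 2 ι i = 1) == l.contains i

def FFb (c : Code) (n β X : ℕ) : Bool :=
  (List.range ((c.1 + 1) ^ (c.1 + 1))).any fun e =>
    ((List.range (c.1 + 1)).all fun i => (List.range (c.1 + 1)).all fun j =>
      !decide (dig (c.1 + 1) e i = dig (c.1 + 1) e j) || decide (i = j)) &&
    (List.range (2 ^ (c.1 + 1))).all fun ι =>
      !((List.range (c.1 + 1)).any fun i => decide (dig 2 ι i = 1)) ||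
        (edge c.2 (c.1 + 1) ι == memb n β (c.1 + 1) X e ι)

lemma memb_iff {n β k X e ι : ℕ} (E : Fin k → Fin k) (hE : ∀ i : Fin k, dig k e i = E i)
    (I : Finset (Fin k)) (hI : ∀ i : Fin k, dig 2 ι i = 1 ↔ i ∈ I) :
    memb n β k X e ι = true ↔ ∑ i ∈ I, tup n k X (E i) ∈ setB n β := by
  simp only [memb, List.any_eq_true, List.mem_range, Bool.and_eq_true, decide_eq_true_eq,
    List.all_eq_true, setB, Set.mem_setOf_eq]
  refine exists_congr fun b => and_congr_right fun _ => and_congr_right fun _ => ?_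
  rw [funext_iff, fin_all]
  refine forall_congr' fun j => ?_
  have hs : ∀ f : ℕ → ℕ, ((List.range k).map f).sum = ∑ i : Fin k, f i := fun f => by
    rw [← sum_range]; rfl
  rw [← ZMod.natCast_eq_natCast_iff', vec, hs,
    Nat.cast_sum, Finset.sum_apply, ← sum_filter_of_ne (p := (· ∈ I)), filter_mem_eq_inter, univ_inter]
  · refine Eq.congr_left (sum_congr rfl fun i hi => ?_)
    rw [(hI i).2 hi, hE, one_mul]; rfl
  · intro i _ h
    by_contra hi
    have := mt (hI i).1 hi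
    have h2 : dig 2 ι i < 2 := Nat.mod_lt _ (by norm_num)
    exact h (by rw [show dig 2 ι i = 0 by omega]; simp)

lemma edge_iff (c : Code) {ι : ℕ} (I : Finset (Fin (c.1 + 1))) (h : I.Nonempty)
    (hI : ∀ i : Fin (c.1 + 1), dig 2 ι i = 1 ↔ i ∈ I) :
    edge c.2 (c.1 + 1) ι = true ↔ I ∈ (model c).E := by
  refine Iff.trans ?_ (mem_filter_univ I).symm
  simp only [edge, List.any_eq_true, List.all_eq_true, List.mem_range, true_and, h]
  refine exists_congr fun l => and_congr_right fun _ => ?_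
  rw [fin_all]
  refine forall_congr' fun i => ?_
  rw [← hI, beq_iff_eq, Bool.eq_iff_iff]; simp

lemma FFb_iff (c : Code) (n β X : ℕ) :
    FFb c n β X = true ↔ FF (model c) (setB n β) (tup n (c.1 + 1) X) := by
  simp only [FFb, List.any_eq_true, List.mem_range, Bool.and_eq_true, List.all_eq_true,
    Bool.or_eq_true, Bool.not_eq_true', decide_eq_false_iff_not, decide_eq_true_eq, beq_iff_eq,
    ← Bool.not_eq_true, ← imp_iff_not_or]
  constructor
  · rintro ⟨e, -, h1, h2⟩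
    refine ⟨fun i => ⟨dig (c.1 + 1) e i, Nat.mod_lt _ (by omega)⟩,
      fun i j h => Fin.ext (h1 i i.2 j j.2 (congrArg Fin.val h)), fun I hI => ?_⟩
    obtain ⟨ι, h3, h4⟩ := exists_bits (k := c.1 + 1) (· ∈ I)
    obtain ⟨i, hi⟩ := id hI
    refine (edge_iff c I hI h4).symm.trans ?_
    rw [h2 ι h3 ⟨i, i.2, (h4 i).2 hi⟩]
    exact memb_iff (k := c.1 + 1) _ (fun _ => rfl) I h4
  · rintro ⟨E, h1, h2⟩
    obtain ⟨e, h3, h4⟩ := exists_dig (b := c.1 + 1) (fun i => (E i : ℕ)) fun i => (E i).2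
    refine ⟨e, h3, fun i hi j hj h => ?_, fun ι _ ⟨i, hi, h⟩ => ?_⟩
    · have := h1 (Fin.ext ((h4 ⟨i, hi⟩).symm.trans (h.trans (h4 ⟨j, hj⟩))))
      exact congrArg Fin.val this
    · let I : Finset (Fin (c.1 + 1)) := {i | dig 2 ι i = 1}
      have hI : ∀ i : Fin (c.1 + 1), dig 2 ι i = 1 ↔ i ∈ I := fun i => by simp [I]
      have ne : I.Nonempty := ⟨⟨i, hi⟩, (hI _).1 h⟩
      exact Bool.eq_iff_iff.2 ((edge_iff c I ne hI).trans ((h2 I ne).trans
        (memb_iff (k := c.1 + 1) E h4 I hI).symm))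

def cnt (c : Code) (n β : ℕ) : ℕ := (List.range ((2 ^ n) ^ (c.1 + 1))).countP (FFb c n β)

lemma q_eq (c : Code) (n β : ℕ) :
    q (model c) (setB n β) = cnt c n β / ((2 ^ n) ^ (c.1 + 1) : ℕ) := by
  classical
  have hb : Bijective fun X : Fin ((2 ^ n) ^ (c.1 + 1)) => tup n (c.1 + 1) X := by
    refine (Fintype.bijective_iff_surjective_and_card _).2 ⟨fun x => ?_, by simp [G]⟩
    choose a ha1 ha2 using fun i => vec_surj (x i)
    obtain ⟨X, h1, h2⟩ := exists_dig a ha1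
    exact ⟨⟨X, h1⟩, funext fun i => by rw [← ha2, ← h2]; rfl⟩
  refine (Fintype.expect_bijective _ hb (fun X => if FFb c n β X = true then (1 : ℝ) else 0) _
    (fun X => by simp only [FFb_iff])).symm.trans ?_
  rw [expect_eq_sum_div_card, card_univ, Fintype.card_fin,
    ← sum_range (fun X => if FFb c n β X = true then (1 : ℝ) else 0), sum_boole, cnt,
    List.countP_eq_length_filter]
  congr 2
  show ((List.range _).filter fun x => decide (FFb c n β x = true)).length = _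
  simp only [Bool.decide_eq_true]

def validb (l : List (Code × ℕ)) (N n K : ℕ) : Bool :=
  (l.all fun t => decide (t.1.1 + 1 ≤ K)) && decide (l.length * N ^ 2 * 4 ^ K ≤ 2 ^ n) &&
    (List.range (2 ^ 2 ^ n)).all fun β => l.any fun t =>
      decide ((t.2 + (l.length + 3)) * (2 ^ n) ^ (t.1.1 + 1) ≤ N * cnt t.1 n β) ||
      decide (N * cnt t.1 n β + (l.length + 3) * (2 ^ n) ^ (t.1.1 + 1) ≤
        t.2 * (2 ^ n) ^ (t.1.1 + 1))

lemma validb_iff (l : List (Code × ℕ)) (N n K : ℕ) : validb l N n K = true ↔ Valid l N n K := by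
  simp only [validb, Valid, Bool.and_eq_true, List.all_eq_true, decide_eq_true_eq, and_assoc,
    List.mem_range, List.any_eq_true, Bool.or_eq_true]
  refine and_congr_right fun _ => and_congr_right fun _ => ?_
  have key : ∀ β (t : Code × ℕ), ((t.2 + (l.length + 3)) * (2 ^ n) ^ (t.1.1 + 1) ≤ N * cnt t.1 n β ∨
      N * cnt t.1 n β + (l.length + 3) * (2 ^ n) ^ (t.1.1 + 1) ≤ t.2 * (2 ^ n) ^ (t.1.1 + 1)) ↔
      (l.length : ℝ) + 3 ≤ |N * q (model t.1) (setB n β) - t.2| := by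
    intro β t
    have hD : (0 : ℝ) < ((2 ^ n) ^ (t.1.1 + 1) : ℕ) := by positivity
    rw [q_eq, le_abs, ← mul_div_assoc, neg_sub, le_sub_iff_add_le, le_div_iff₀ hD,
      le_sub_comm, div_le_iff₀ hD, sub_mul, le_sub_iff_add_le, add_comm _ (t.2 : ℝ)]
    norm_cast
  simp_rw [key]
  exact ⟨fun h B => by obtain ⟨β, h1, rfl⟩ := setB_surj B; exact h β h1, fun h β _ => h _⟩

section
variable {α : Type} [Primcodable α]

@[fun_prop] lemma ci_dig {b X i : α → ℕ} (h1 : CI ∅ b) (h2 : CI ∅ X) (h3 : CI ∅ i) :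
    CI ∅ fun a => dig (b a) (X a) (i a) := by unfold dig; fun_prop

@[fun_prop] lemma ci_memb {n β k X e ι : α → ℕ} (h1 : CI ∅ n) (h2 : CI ∅ β) (h3 : CI ∅ k)
    (h4 : CI ∅ X) (h5 : CI ∅ e) (h6 : CI ∅ ι) :
    CI ∅ fun a => memb (n a) (β a) (k a) (X a) (e a) (ι a) := by unfold memb; fun_prop

@[fun_prop] lemma ci_edge {L : α → List (List ℕ)} {k ι : α → ℕ} (h1 : CI ∅ L) (h2 : CI ∅ k)
    (h3 : CI ∅ ι) : CI ∅ fun a => edge (L a) (k a) (ι a) := by unfold edge; fun_prop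

@[fun_prop] lemma ci_FFb {c : α → Code} {n β X : α → ℕ} (h1 : CI ∅ c) (h2 : CI ∅ n)
    (h3 : CI ∅ β) (h4 : CI ∅ X) : CI ∅ fun a => FFb (c a) (n a) (β a) (X a) := by
  unfold FFb; fun_prop

@[fun_prop] lemma ci_cnt {c : α → Code} {n β : α → ℕ} (h1 : CI ∅ c) (h2 : CI ∅ n)
    (h3 : CI ∅ β) : CI ∅ fun a => cnt (c a) (n a) (β a) := by unfold cnt; fun_prop

@[fun_prop] lemma ci_validb {l : α → List (Code × ℕ)} {N n K : α → ℕ} (h1 : CI ∅ l) (h2 : CI ∅ N)
    (h3 : CI ∅ n) (h4 : CI ∅ K) : CI ∅ fun a => validb (l a) (N a) (n a) (K a) := by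
  unfold validb; fun_prop

@[fun_prop] lemma ci_cast {f : α → ℕ} (h : CI ∅ f) : CI ∅ fun a => (f a : ℤ) :=
  CI.prim1 (p := fun n : ℕ => (n : ℤ)) (Primrec.encode_iff.1
    ((Primrec.nat_mul.comp (Primrec.const 2) Primrec.id).of_eq fun n => rfl)) h

@[fun_prop] lemma ci_neg {f : α → ℕ} (h : CI ∅ f) : CI ∅ fun a => -(f a : ℤ) :=
  CI.prim1 (p := fun n : ℕ => -(n : ℤ)) (Primrec.encode_iff.1
    ((Primrec.nat_sub.comp (Primrec.nat_mul.comp (Primrec.const 2) Primrec.id)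
      (Primrec.const 1)).of_eq fun n => by cases n <;> rfl)) h

@[fun_prop] lemma ci_poly {l : α → List (Code × ℕ)} {N : α → ℕ} (h1 : CI ∅ l) (h2 : CI ∅ N) :
    CI ∅ fun a => poly (l a) (N a) := by unfold poly; fun_prop

end

lemma re_family : REPred fun P => ∃ l N n K, Valid l N n K ∧ poly l N = P := by
  refine re_of_exists (fun P (c : List (Code × ℕ) × ℕ × ℕ × ℕ) =>
    validb c.1 c.2.1 c.2.2.1 c.2.2.2 && decide (poly c.1 c.2.1 = P)) (by fun_prop) fun P => ?_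
  simp [validb_iff]

end H18.Lin
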