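import Mathlib

set_option autoImplicit false

namespace H18.Lin
open Finset

/-- A finite model of `T_Lin` on the vertex set `Fin (n + 1)`: `E_k` holds on the tuples listing a
`k`-element member of `E` without repetition. -/
structure FM where
  n : ℕ
  E : Finset (Finset (Fin (n + 1)))
  ne : ∅ ∉ E

def Iso (M N : FM) : Prop :=
  ∃ e : Fin (M.n + 1) ≃ Fin (N.n + 1), ∀ I, I ∈ M.E ↔ I.map e.toEmbedding ∈ N.E

/-- isomorphism classes of finite models -/
abbrev Cls : Type := Quot Iso

/-- `U` induces, in the model with edge predicate `E`, a submodel isomorphic to `M` -/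
def Induces {V : Type} (M : FM) (E : Finset V → Prop) (U : Finset V) : Prop :=
  ∃ f : Fin (M.n + 1) ↪ V, univ.map f = U ∧ ∀ I, I ∈ M.E ↔ E (I.map f)

open Classical in
/-- the induced density `p(M, N)` -/
noncomputable def dens {V : Type} [Fintype V] (M : FM) (E : Finset V → Prop) : ℝ :=
  (#{U ∈ powersetCard (M.n + 1) univ | Induces M E U} : ℝ) / (Fintype.card V).choose (M.n + 1)

/-- the edges of the model `M_A` -/
def EA {m : ℕ} (A : Set (Fin m → ZMod 2)) (J : Finset (Fin m → ZMod 2)) : Prop :=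
  J.Nonempty ∧ ∑ x ∈ J, x ∈ A

/-- the point `p(-, M_A)` -/
noncomputable def pt {m : ℕ} (A : Set (Fin m → ZMod 2)) : Cls → ℝ := fun q => dens q.out (EA A)

def Lineon (x : Cls → ℝ) : Prop :=
  AccPt x (Filter.principal {y | ∃ m, 1 ≤ m ∧ ∃ A : Set (Fin m → ZMod 2), y = pt A})

/-- a code `(n, L)` of a model on `Fin (n + 1)`: `L` lists the edges -/
abbrev Code : Type := ℕ × List (List ℕ)

def model (c : Code) : FM :=
  ⟨c.1, {I | I.Nonempty ∧ ∃ l ∈ c.2, ∀ i : Fin (c.1 + 1), i ∈ I ↔ (i : ℕ) ∈ l}, by simp⟩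

def cls (c : Code) : Cls := Quot.mk _ (model c)

/-- value at `x` of the integer polynomial listed as (coefficient, variables of the monomial) -/
noncomputable def ev (P : List (ℤ × List Code)) (x : Cls → ℝ) : ℝ :=
  (P.map fun t => (t.1 : ℝ) * (t.2.map fun c => x (cls c)).prod).sum

end H18.Lin
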