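import Mathlib

set_option autoImplicit false

namespace Pool.Agent.H18.LinForms

open Finset

section Field
variable {F : Type} [Field F] [Fintype F] [DecidableEq F]

lemma fiber_card {G H : Type} [AddCommGroup G] [Fintype G] [AddCommGroup H] [Fintype H]
    [DecidableEq H] (L : G →+ H) (hL : Function.Surjective L) (y : H) :
    #{g | L g = y} * Fintype.card H = Fintype.card G := by
  have h1 : Fintype.card G = ∑ z : H, #{g | L g = z} := by
    rw [← Finset.card_univ, Finset.card_eq_sum_card_fiberwise (f := L) (t := univ) (by simp)]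
  rw [h1]
  have : ∀ z : H, #{g | L g = z} = #{g | L g = y} := fun z =>
    AddMonoidHom.card_fiber_eq_of_mem_range L (hL z) (hL y)
  simp [this, mul_comm]

variable {I : Type} [Fintype I] [DecidableEq I]

def dot (a w : I → F) : F := ∑ k, a k * w k

lemma one_form (a : I → F) (i0 : I) (ha : a i0 ≠ 0) (c : F) :
    #{w : I → F | dot a w = c} * Fintype.card F = Fintype.card (I → F) := by
  let L : (I → F) →+ F :=
    { toFun := fun w => dot a w
      map_zero' := by simp [dot]
      map_add' := by intro x y; simp [dot, mul_add, sum_add_distrib] }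
  have hL : Function.Surjective L := by
    intro c
    refine ⟨Pi.single i0 (c / a i0), ?_⟩
    show dot a _ = c
    simp [dot, Pi.single_apply]
    field_simp
  exact fiber_card L hL c

lemma two_form (a b : I → F) (i0 i1 : I) (h : a i0 * b i1 - b i0 * a i1 ≠ 0) (c d : F) :
    #{w : I → F | dot a w = c ∧ dot b w = d} * (Fintype.card F) ^ 2 = Fintype.card (I → F) := by
  let L : (I → F) →+ F × F :=
    { toFun := fun w => (dot a w, dot b w)
      map_zero' := by simp [dot]
      map_add' := by intro x y; simp [dot, mul_add, sum_add_distrib] }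
  have hL : Function.Surjective L := by
    rintro ⟨c, d⟩
    obtain ⟨e, he⟩ : ∃ e, (a i0 * b i1 - b i0 * a i1) * e = 1 := ⟨_, mul_inv_cancel₀ h⟩
    refine ⟨Pi.single i0 ((c * b i1 - d * a i1) * e) +
      Pi.single i1 ((d * a i0 - c * b i0) * e), ?_⟩
    show (dot a _, dot b _) = (c, d)
    simp only [dot, Pi.add_apply, mul_add, sum_add_distrib, Pi.single_apply, mul_ite, mul_zero,
      sum_ite_eq', mem_univ, if_true, Prod.mk.injEq]
    constructor
    · linear_combination c * he
    · linear_combination d * he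
  have := fiber_card L hL (c, d)
  rw [Fintype.card_prod, ← sq] at this
  rw [← this]
  congr 2
  ext w
  simp [L]

variable {m : ℕ}

def Good (v : Fin m → F) (P : Finset F) : Prop :=
  ∀ y : Fin m → F, (∀ j, y j ∈ P) → ∑ j, v j * y j ≠ 1

def Cov (u : Fin m → F) (P : Finset F) (s : F) : Prop :=
  ∃ x : Fin m → F, (∀ i, x i ∈ P) ∧ ∑ i, u i * x i = s

variable {n : ℕ}

def ex (w : Fin m × Fin n → F) : F ⊕ (Fin m × Fin n) → F := Sum.elim id w

def aform (u : Fin m → F) (α : Fin m → Fin n) : Fin m × Fin n → F :=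
  fun k => if k.2 = α k.1 then u k.1 else 0

def bform (v : Fin m → F) (y : Fin m → F ⊕ (Fin m × Fin n)) : Fin m × Fin n → F :=
  fun k => ∑ j, if y j = Sum.inr k then v j else 0

lemma dot_aform (u : Fin m → F) (α : Fin m → Fin n) (w : Fin m × Fin n → F) :
    dot (aform u α) w = ∑ i, u i * w (i, α i) := by
  simp [dot, aform, Fintype.sum_prod_type]

lemma dot_bform (v : Fin m → F) (y : Fin m → F ⊕ (Fin m × Fin n)) (w : Fin m × Fin n → F) :
    ∑ j, v j * ex w (y j) = dot (bform v y) w + ∑ j, v j * ex 0 (y j) := by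
  simp only [dot, bform, sum_mul]
  rw [sum_comm, ← sum_add_distrib]
  refine sum_congr rfl fun j _ => ?_
  rcases y j with x | k
  · simp [ex]
  · simp [ex]

lemma pair_bound (u : Fin m → F) (hu : ∀ i, u i ≠ 0) (α β : Fin m → Fin n) (h : α ≠ β) (s : F) :
    #{w : Fin m × Fin n → F | dot (aform u α) w = s ∧ dot (aform u β) w = s} *
      (Fintype.card F) ^ 2 = Fintype.card (Fin m × Fin n → F) := by
  obtain ⟨i, hi⟩ := Function.ne_iff.1 h
  refine two_form _ _ (i, α i) (i, β i) ?_ s s
  simp [aform, hi, hu i]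

lemma bad_bound (u v : Fin m → F) (hu : ∀ i, u i ≠ 0)
    (huv : ∀ (τ : Equiv.Perm (Fin m)) (l : F), l ≠ 0 → ¬ ∀ i, v (τ i) = l * u i)
    (P : Finset F) (h0 : (0 : F) ∈ P) (hP : Good v P) (α : Fin m → Fin n) (i0 : Fin m)
    (y : Fin m → F ⊕ (Fin m × Fin n)) (hy : ∀ j, y j ∈ P.disjSum univ) (s : F) :
    #{w : Fin m × Fin n → F | dot (aform u α) w = s ∧ ∑ j, v j * ex w (y j) = 1} *
      (Fintype.card F) ^ 2 ≤ Fintype.card (Fin m × Fin n → F) := by
  by_cases hb : ∃ k, aform u α (i0, α i0) * bform v y k - bform v y (i0, α i0) * aform u α k ≠ 0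
  · obtain ⟨k, hk⟩ := hb
    have := two_form _ _ _ _ hk s (1 - ∑ j, v j * ex 0 (y j))
    rw [← this]
    refine le_of_eq ?_
    congr 2
    ext w
    simp only [mem_filter, mem_univ, true_and, dot_bform v y w]
    constructor
    · rintro ⟨h1, h2⟩; exact ⟨h1, by rw [← h2]; ring⟩
    · rintro ⟨h1, h2⟩; exact ⟨h1, by rw [h2]; ring⟩
  · push Not at hb
    have ha0 : aform u α (i0, α i0) = u i0 := by simp [aform]
    set l := bform v y (i0, α i0) / u i0 with hl
    have hb' : ∀ k, bform v y k = l * aform u α k := by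
      intro k
      have := hb k
      rw [ha0] at this
      rw [hl]
      have h1 := hu i0
      field_simp
      linear_combination this
    by_cases hl0 : l = 0
    · have : ({w : Fin m × Fin n → F | dot (aform u α) w = s ∧ ∑ j, v j * ex w (y j) = 1} :
          Finset _) = ∅ := by
        rw [filter_eq_empty_iff]
        rintro w - ⟨-, h2⟩
        rw [dot_bform] at h2
        have : dot (bform v y) w = 0 := by simp [dot, hb', hl0]
        rw [this, zero_add] at h2
        refine hP _ (fun j => ?_) h2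
        have := hy j
        rcases hj : y j with x | k
        · rw [hj] at this; simpa [ex] using this
        · simpa [ex] using h0
      rw [this]; simp
    · exfalso
      have hex : ∀ i, ∃ j, y j = Sum.inr (i, α i) := by
        intro i
        by_contra hc
        push Not at hc
        have := hb' (i, α i)
        simp [bform, aform, hc, hl0, hu i] at this
      choose τ hτ using hex
      have hinj : Function.Injective τ := by
        intro i i' h
        have := hτ i
        rw [h, hτ i'] at this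
        simpa using (congrArg (fun z => Sum.elim (fun _ => i) Prod.fst z) this).symm
      have hbij : Function.Bijective τ := Finite.injective_iff_bijective.1 hinj
      refine huv (Equiv.ofBijective τ hbij) l hl0 fun i => ?_
      have := hb' (i, α i)
      simp only [bform, aform, if_true] at this
      rw [← this, Finset.sum_eq_single (τ i)]
      · simp [hτ i]
      · intro j _ hj
        obtain ⟨i', rfl⟩ := hbij.2 j
        rw [if_neg]
        rw [hτ i']
        intro h
        apply hj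
        have : i' = i := by
          simpa using (congrArg (fun z => Sum.elim (fun _ => i) Prod.fst z) h)
        rw [this]
      · simp

open Classical in
/-- elements of the block that take part in a solution of the forbidden equation -/
def Bad (v : Fin m → F) (P : Finset F) (w : Fin m × Fin n → F) (b : Fin m × Fin n) : Prop :=
  ∃ j, ∃ y ∈ Fintype.piFinset (fun _ : Fin m => P.disjSum (univ : Finset (Fin m × Fin n))),
    y j = Sum.inr b ∧ ∑ j, v j * ex w (y j) = 1

open Classical in
noncomputable def newP (v : Fin m → F) (P : Finset F) (w : Fin m × Fin n → F) : Finset F :=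
  P ∪ (univ.filter fun b => ¬ Bad v P w b).image w

lemma newP_good (v : Fin m → F) (P : Finset F) (hP : Good v P) (w : Fin m × Fin n → F) :
    Good v (newP v P w) := by
  classical
  intro y hy hs
  have : ∀ j, ∃ z ∈ P.disjSum (univ : Finset (Fin m × Fin n)), ex w z = y j ∧
      ∀ b, z = Sum.inr b → ¬ Bad v P w b := by
    intro j
    have := hy j
    simp only [newP, mem_union, mem_image, mem_filter, mem_univ, true_and] at this
    rcases this with h | ⟨b, hb, h⟩
    · exact ⟨Sum.inl (y j), by simpa using h, rfl, by simp⟩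
    · refine ⟨Sum.inr b, by simp, h, ?_⟩
      intro b' hb'
      obtain rfl : b = b' := by simpa using hb'
      exact hb
  choose z hz1 hz2 hz3 using this
  by_cases hc : ∃ j b, z j = Sum.inr b
  · obtain ⟨j, b, hj⟩ := hc
    refine hz3 j b hj ⟨j, z, by simpa using hz1, hj, ?_⟩
    simpa [hz2] using hs
  · push Not at hc
    refine hP y (fun j => ?_) hs
    have h1 := hz1 j
    have h2 := hz2 j
    rcases hj : z j with x | b
    · rw [hj] at h1 h2
      simp only [ex, Sum.elim_inl, id] at h2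
      rw [← h2]; simpa using h1
    · exact absurd hj (hc j b)

lemma newP_card (v : Fin m → F) (P : Finset F) (w : Fin m × Fin n → F) :
    #(newP v P w) ≤ #P + m * n := by
  classical
  refine (card_union_le _ _).trans (Nat.add_le_add_left (card_image_le.trans ?_) _)
  refine (card_le_univ _).trans ?_
  simp

open Classical in
lemma cover_count (u v : Fin m → F) (hm : 0 < m) (hu : ∀ i, u i ≠ 0)
    (huv : ∀ (τ : Equiv.Perm (Fin m)) (l : F), l ≠ 0 → ¬ ∀ i, v (τ i) = l * u i)
    (P : Finset F) (h0 : (0 : F) ∈ P) (hP : Good v P)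
    (h1 : 2 * n ^ m ≤ Fintype.card F)
    (h2 : 4 * m ^ 2 * (#P + m * n) ^ (m - 1) ≤ Fintype.card F) (s : F) :
    n ^ m * Fintype.card (Fin m × Fin n → F) ≤
      4 * Fintype.card F * #{w : Fin m × Fin n → F | Cov u (newP v P w) s} := by
  set p := Fintype.card F with hp
  set T := Fintype.card (Fin m × Fin n → F) with hT
  have hp0 : 0 < p := Fintype.card_pos
  set Y := Fintype.piFinset (fun _ : Fin m => P.disjSum (univ : Finset (Fin m × Fin n))) with hY
  let E : (Fin m → Fin n) → Finset (Fin m × Fin n → F) := fun α =>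
    {w | dot (aform u α) w = s}
  let D : (Fin m → Fin n) → Finset (Fin m × Fin n → F) := fun α =>
    {w | dot (aform u α) w = s ∧ (∀ β, β ≠ α → dot (aform u β) w ≠ s) ∧
      ∀ i, ¬ Bad v P w (i, α i)}
  have hD : ∀ α, T ≤ 4 * p * #(D α) := by
    intro α
    have hE : #(E α) * p = T := one_form _ (⟨0, hm⟩, α ⟨0, hm⟩) (by simp [aform, hu]) s
    let A1 : Finset (Fin m × Fin n → F) := (univ.erase α).biUnion fun β =>
      {w | dot (aform u α) w = s ∧ dot (aform u β) w = s}
    let A2 : Finset (Fin m × Fin n → F) := (univ : Finset (Fin m × Fin m)).biUnion fun ij =>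
      (Y.filter fun y => y ij.2 = Sum.inr (ij.1, α ij.1)).biUnion fun y =>
        {w | dot (aform u α) w = s ∧ ∑ j, v j * ex w (y j) = 1}
    have hsub : E α ⊆ D α ∪ A1 ∪ A2 := by
      intro w hw
      simp only [E, mem_filter, mem_univ, true_and] at hw
      by_cases c1 : ∃ β, β ≠ α ∧ dot (aform u β) w = s
      · obtain ⟨β, hβ, h⟩ := c1
        refine mem_union_left _ (mem_union_right _ ?_)
        simp only [A1, mem_biUnion, mem_erase, mem_univ, and_true, mem_filter, true_and]
        exact ⟨β, hβ, hw, h⟩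
      by_cases c2 : ∃ i, Bad v P w (i, α i)
      · obtain ⟨i, j, y, hy, h, h'⟩ := c2
        refine mem_union_right _ ?_
        simp only [A2, mem_biUnion, mem_univ, mem_filter, true_and]
        exact ⟨(i, j), y, ⟨hy, h⟩, hw, h'⟩
      · push Not at c1 c2
        refine mem_union_left _ (mem_union_left _ ?_)
        simp only [D, mem_filter, mem_univ, true_and]
        exact ⟨hw, c1, c2⟩
    have hA1 : #A1 * p ^ 2 ≤ n ^ m * T := by
      refine (Nat.mul_le_mul_right _ card_biUnion_le).trans ?_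
      rw [sum_mul]
      refine (sum_le_card_nsmul _ _ T ?_).trans ?_
      · intro β hβ
        exact (pair_bound u hu α β (ne_of_mem_erase hβ).symm s).le
      · rw [smul_eq_mul]
        refine Nat.mul_le_mul_right _ ((card_le_univ _).trans ?_)
        simp
    have hA2 : #A2 * p ^ 2 ≤ m ^ 2 * (#P + m * n) ^ (m - 1) * T := by
      refine (Nat.mul_le_mul_right _ card_biUnion_le).trans ?_
      rw [sum_mul]
      refine (sum_le_card_nsmul _ _ ((#P + m * n) ^ (m - 1) * T) ?_).trans ?_
      · intro ij _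
        refine (Nat.mul_le_mul_right _ card_biUnion_le).trans ?_
        rw [sum_mul]
        refine (sum_le_card_nsmul _ _ T ?_).trans ?_
        · intro y hy
          refine bad_bound u v hu huv P h0 hP α ij.1 y ?_ s
          simpa [hY] using (mem_filter.1 hy).1
        · rw [smul_eq_mul, hY, Fintype.card_filter_piFinset_const_eq_of_mem _ _ (by simp)]
          simp
      · simp [sq, mul_assoc]
    have hc : #(E α) ≤ #(D α) + #A1 + #A2 :=
      (card_le_card hsub).trans ((card_union_le _ _).trans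
        (Nat.add_le_add_right (card_union_le _ _) _))
    have k1 : 2 * (#A1 * p) ≤ T := by
      refine Nat.le_of_mul_le_mul_right ?_ hp0
      calc 2 * (#A1 * p) * p = 2 * (#A1 * p ^ 2) := by ring
        _ ≤ 2 * (n ^ m * T) := by omega
        _ = (2 * n ^ m) * T := by ring
        _ ≤ p * T := Nat.mul_le_mul_right _ h1
        _ = T * p := by ring
    have k2 : 4 * (#A2 * p) ≤ T := by
      refine Nat.le_of_mul_le_mul_right ?_ hp0
      calc 4 * (#A2 * p) * p = 4 * (#A2 * p ^ 2) := by ring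
        _ ≤ 4 * (m ^ 2 * (#P + m * n) ^ (m - 1) * T) := by omega
        _ = (4 * m ^ 2 * (#P + m * n) ^ (m - 1)) * T := by ring
        _ ≤ p * T := Nat.mul_le_mul_right _ h2
        _ = T * p := by ring
    have k3 : #(E α) * p ≤ #(D α) * p + #A1 * p + #A2 * p := by
      rw [← add_mul, ← add_mul]; exact Nat.mul_le_mul_right _ hc
    have : 4 * p * #(D α) = 4 * (#(D α) * p) := by ring
    omega
  have hdisj : ((univ : Finset (Fin m → Fin n)) : Set (Fin m → Fin n)).PairwiseDisjoint D := by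
    intro α _ β _ hne
    rw [Function.onFun, disjoint_left]
    intro w h1 h2
    simp only [D, mem_filter, mem_univ, true_and] at h1 h2
    exact h2.2.1 α hne h1.1
  have hsub : univ.biUnion D ⊆
      univ.filter fun w : Fin m × Fin n → F => Cov u (newP v P w) s := by
    intro w hw
    simp only [D, mem_biUnion, mem_filter, mem_univ, true_and] at hw ⊢
    obtain ⟨α, h1, -, h3⟩ := hw
    refine ⟨fun i => w (i, α i), fun i => ?_, by rw [← dot_aform, h1]⟩
    simp only [newP, mem_union, mem_image, mem_filter, mem_univ, true_and]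
    exact Or.inr ⟨_, h3 i, rfl⟩
  have := card_le_card hsub
  rw [card_biUnion hdisj] at this
  refine le_trans ?_ (Nat.mul_le_mul_left _ this)
  rw [mul_sum]
  refine le_trans ?_ (card_nsmul_le_sum _ _ T fun α _ => hD α)
  simp

open Classical in
lemma step (u v : Fin m → F) (hm : 0 < m) (hu : ∀ i, u i ≠ 0)
    (huv : ∀ (τ : Equiv.Perm (Fin m)) (l : F), l ≠ 0 → ¬ ∀ i, v (τ i) = l * u i)
    (P : Finset F) (h0 : (0 : F) ∈ P) (hP : Good v P)
    (h1 : 2 * n ^ m ≤ Fintype.card F) (c : ℝ) (hc : c * (4 * Fintype.card F) ≤ n ^ m)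
    (h2 : 4 * m ^ 2 * (#P + m * n) ^ (m - 1) ≤ Fintype.card F) :
    ∃ P' : Finset F, (0 : F) ∈ P' ∧ Good v P' ∧ #P' ≤ #P + m * n ∧
      (#{s | ¬ Cov u P' s} : ℝ) ≤ (1 - c) * #{s | ¬ Cov u P s} := by
  set U : Finset F := {s | ¬ Cov u P s} with hU
  have hp0 : (0 : ℝ) < Fintype.card F := by exact_mod_cast Fintype.card_pos
  have key : ∃ w : Fin m × Fin n → F, c * #U ≤ (#{s ∈ U | Cov u (newP v P w) s} : ℝ) := by
    by_contra hcon
    push Not at hcon
    have hlt : ∑ w : Fin m × Fin n → F, (#{s ∈ U | Cov u (newP v P w) s} : ℝ) <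
        ∑ _w : Fin m × Fin n → F, c * #U :=
      sum_lt_sum_of_nonempty univ_nonempty fun w _ => hcon w
    have hsw : ∑ w : Fin m × Fin n → F, (#{s ∈ U | Cov u (newP v P w) s} : ℝ) =
        ∑ s ∈ U, (#{w : Fin m × Fin n → F | Cov u (newP v P w) s} : ℝ) := by
      simp only [card_filter, Nat.cast_sum]
      rw [sum_comm]
    rw [hsw] at hlt
    have hge : ∀ s ∈ U, c * Fintype.card (Fin m × Fin n → F) ≤
        (#{w : Fin m × Fin n → F | Cov u (newP v P w) s} : ℝ) := by
      intro s _
      have := cover_count (n := n) u v hm hu huv P h0 hP h1 h2 s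
      have h' : (n : ℝ) ^ m * Fintype.card (Fin m × Fin n → F) ≤
        4 * Fintype.card F * #{w : Fin m × Fin n → F | Cov u (newP v P w) s} := by
        exact_mod_cast this
      have hT : (0 : ℝ) ≤ Fintype.card (Fin m × Fin n → F) := by positivity
      have := mul_le_mul_of_nonneg_right hc hT
      refine le_of_mul_le_mul_left ?_ (show (0 : ℝ) < 4 * Fintype.card F by positivity)
      nlinarith
    have := card_nsmul_le_sum _ _ _ hge
    simp only [sum_const, card_univ, nsmul_eq_mul] at hlt this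
    nlinarith
  obtain ⟨w, hw⟩ := key
  refine ⟨newP v P w, by simp [newP, h0], newP_good v P hP w, newP_card v P w, ?_⟩
  have e : ({s | ¬ Cov u (newP v P w) s} : Finset F) = {s ∈ U | ¬ Cov u (newP v P w) s} := by
    ext s
    simp only [hU, mem_filter, mem_univ, true_and]
    refine ⟨fun h => ⟨?_, h⟩, fun h => h.2⟩
    rintro ⟨x, hx, hs⟩
    exact h ⟨x, fun i => by simp [newP, hx i], hs⟩
  rw [e]
  have := card_filter_add_card_filter_not (s := U) (fun s => Cov u (newP v P w) s)
  have h' : (#{s ∈ U | Cov u (newP v P w) s} : ℝ) + #{s ∈ U | ¬ Cov u (newP v P w) s} = #U := by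
    exact_mod_cast this
  linarith

open Classical in
lemma iter (u v : Fin m → F) (hm : 0 < m) (hu : ∀ i, u i ≠ 0)
    (huv : ∀ (τ : Equiv.Perm (Fin m)) (l : F), l ≠ 0 → ¬ ∀ i, v (τ i) = l * u i)
    (h1 : 2 * n ^ m ≤ Fintype.card F) (c : ℝ) (hc1 : c ≤ 1)
    (hc : c * (4 * Fintype.card F) ≤ n ^ m) (L : ℕ)
    (h2 : 4 * m ^ 2 * (1 + L * (m * n)) ^ (m - 1) ≤ Fintype.card F) :
    ∃ P : Finset F, (0 : F) ∈ P ∧ Good v P ∧ #P ≤ 1 + L * (m * n) ∧
      (#{s | ¬ Cov u P s} : ℝ) ≤ (1 - c) ^ L * Fintype.card F := by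
  induction L with
  | zero =>
    refine ⟨{0}, by simp, ?_, by simp, ?_⟩
    · intro y hy
      have : ∀ j, y j = 0 := fun j => by simpa using hy j
      simp [this]
    · simp only [pow_zero, one_mul]
      exact_mod_cast card_le_univ _
  | succ L ih =>
    obtain ⟨P, a1, a2, a3, a4⟩ := ih (le_trans (by gcongr; omega) h2)
    have a5 : #P + m * n ≤ 1 + (L + 1) * (m * n) := by rw [add_mul]; omega
    obtain ⟨P', b1, b2, b3, b4⟩ := step (n := n) u v hm hu huv P a1 a2 h1 c hc
      (le_trans (by gcongr) h2)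
    refine ⟨P', b1, b2, b3.trans a5, b4.trans ?_⟩
    rw [pow_succ', mul_assoc]
    exact mul_le_mul_of_nonneg_left a4 (by linarith)

end Field

lemma bracket (g : ℕ → ℕ) (hg : ∀ k, k ≤ g k) (a x : ℕ) (ha : g a ≤ x) :
    ∃ L, a ≤ L ∧ g L ≤ x ∧ x < g (L + 1) := by
  classical
  have hex : ∃ k, x < g (a + k + 1) := ⟨x, lt_of_lt_of_le (by omega) (hg _)⟩
  refine ⟨a + Nat.find hex, by omega, ?_, Nat.find_spec hex⟩
  rcases h : Nat.find hex with _ | k
  · simpa using ha
  · have := Nat.find_min hex (m := k) (by omega)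
    push Not at this
    exact this

lemma params (m : ℕ) (hm : 2 ≤ m) : ∃ p0 : ℕ, ∀ p ≥ p0, ∃ n L : ℕ, 2 * n ^ m ≤ p ∧
    (1 / 2 ^ (m + 3) : ℝ) * (4 * p) ≤ n ^ m ∧ 4 * m ^ 2 * (1 + L * (m * n)) ^ (m - 1) ≤ p ∧
    (1 - 1 / 2 ^ (m + 3) : ℝ) ^ L * p < 1 := by
  set r : ℝ := 1 - 1 / 2 ^ (m + 3) with hr
  have hr1 : (1 / 2 ^ (m + 3) : ℝ) < 1 := by
    rw [div_lt_one (by positivity)]; exact one_lt_pow₀ (by norm_num) (by omega)
  have hr0 : 0 < r := by rw [hr]; linarith
  have hr2 : r < 1 := by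
    have : (0 : ℝ) < 1 / 2 ^ (m + 3) := by positivity
    rw [hr]; linarith
  set K := 2 * m ^ (m + 1) with hK
  have hK1 : 1 ≤ K := by
    have : 0 < m ^ (m + 1) := by positivity
    omega
  have ht := tendsto_pow_const_mul_const_pow_of_abs_lt_one ((m - 1) * m) (r := r)
    (by rw [abs_of_pos hr0]; exact hr2)
  have hε : (0 : ℝ) < r ^ 2 / (2 * (K : ℝ) ^ m) := by positivity
  obtain ⟨L0, hL0⟩ := Filter.eventually_atTop.1 (ht.eventually (gt_mem_nhds hε))
  refine ⟨2 * (K * (L0 + 1) ^ (m - 1)) ^ m, fun p hp => ?_⟩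
  obtain ⟨n, hn1, hn2, hn3⟩ := bracket (fun k => 2 * k ^ m)
    (fun k => by
      have := Nat.le_self_pow (show m ≠ 0 by omega) k
      show k ≤ 2 * k ^ m
      omega) _ p hp
  obtain ⟨L, hL1, hL2, hL3⟩ := bracket (fun k => K * (k + 1) ^ (m - 1))
    (fun k => by
      have := Nat.le_self_pow (show m - 1 ≠ 0 by omega) (k + 1)
      show k ≤ K * (k + 1) ^ (m - 1)
      nlinarith) L0 n hn1
  have hn0 : 1 ≤ n := le_trans (Nat.mul_pos hK1 (by positivity)) hL2
  refine ⟨n, L, hn2, ?_, ?_, ?_⟩
  · have : p ≤ 2 * (2 * n) ^ m := hn3.le.trans (by gcongr; omega)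
    have h' : (p : ℝ) ≤ 2 * (2 * n) ^ m := by exact_mod_cast this
    rw [mul_pow] at h'
    rw [div_mul_eq_mul_div, div_le_iff₀ (by positivity), pow_add]
    nlinarith
  · obtain ⟨k, rfl⟩ : ∃ k, m = k + 1 := ⟨m - 1, by omega⟩
    simp only [Nat.add_sub_cancel] at *
    have hmn : 1 ≤ (k + 1) * n := Nat.mul_pos (by omega) hn0
    calc 4 * (k + 1) ^ 2 * (1 + L * ((k + 1) * n)) ^ k
        ≤ 4 * (k + 1) ^ 2 * ((L + 1) * ((k + 1) * n)) ^ k := by
          gcongr; rw [add_mul L]; omega
      _ = 2 * (K * (L + 1) ^ k) * n ^ k := by rw [hK, mul_pow, mul_pow]; ring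
      _ ≤ 2 * n * n ^ k := by gcongr
      _ = 2 * n ^ (k + 1) := by ring
      _ ≤ p := hn2
  · have h1 : p ≤ 2 * (K * (L + 2) ^ (m - 1)) ^ m := hn3.le.trans (by gcongr; exact hL3)
    have h2 : (p : ℝ) ≤ 2 * ((K : ℝ) * ((L + 2 : ℕ) : ℝ) ^ (m - 1)) ^ m := by exact_mod_cast h1
    have h3 := hL0 (L + 2) (by omega)
    rw [mul_pow, ← pow_mul] at h2
    rw [lt_div_iff₀ (by positivity), pow_add] at h3
    have h4 : 0 < r ^ 2 := by positivity
    have h5 : 0 < r ^ L := by positivity
    refine lt_of_mul_lt_mul_right ?_ h4.le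
    calc r ^ L * p * r ^ 2 ≤ r ^ L * (2 * ((K : ℝ) ^ m * ((L + 2 : ℕ) : ℝ) ^ ((m - 1) * m))) * r ^ 2 := by
          gcongr
      _ = ((L + 2 : ℕ) : ℝ) ^ ((m - 1) * m) * (r ^ L * r ^ 2) * (2 * (K : ℝ) ^ m) := by ring
      _ < r ^ 2 := h3
      _ = 1 * r ^ 2 := by ring

lemma prop_int {m : ℕ} (u w : Fin m → ℤ) (i0 : Fin m) (hu : u i0 ≠ 0)
    (gu : univ.gcd u = 1) (gw : univ.gcd w = 1) (h : ∀ i, w i * u i0 = w i0 * u i) :
    (∀ i, w i = u i) ∨ (∀ i, w i = - u i) := by
  have d1 : u i0 ∣ w i0 := by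
    have : u i0 ∣ univ.gcd fun i => w i0 * u i :=
      dvd_gcd fun i _ => ⟨w i, by rw [← h i]; ring⟩
    rw [Finset.gcd_mul_left, gu, mul_one] at this
    exact dvd_normalize_iff.1 this
  have d2 : w i0 ∣ u i0 := by
    have : w i0 ∣ univ.gcd fun i => u i0 * w i :=
      dvd_gcd fun i _ => ⟨u i, by rw [← h i]; ring⟩
    rw [Finset.gcd_mul_left, gw, mul_one] at this
    exact dvd_normalize_iff.1 this
  rcases Int.natAbs_eq_natAbs_iff.1 (Nat.dvd_antisymm (Int.natAbs_dvd_natAbs.2 d2)
    (Int.natAbs_dvd_natAbs.2 d1)) with e | e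
  · left; intro i
    refine mul_right_cancel₀ hu ?_
    rw [h i, e]; ring
  · right; intro i
    refine mul_right_cancel₀ hu ?_
    rw [h i, e]; ring

lemma local_set (m : ℕ) (hm : 2 ≤ m) (u v : Fin m → ℤ) (hu : ∀ i, u i ≠ 0)
    (gu : univ.gcd u = 1) (gv : univ.gcd v = 1)
    (hadm : ¬ ∃ σ : Equiv.Perm (Fin m), (∀ i, v i = u (σ i)) ∨ (∀ i, v i = -u (σ i))) :
    ∃ p0 : ℕ, ∀ p ≥ p0, p.Prime → ∃ S : Set (ZMod p),
      (∀ y : Fin m → ZMod p, (∀ j, y j ∈ S) → ∑ j, (v j : ZMod p) * y j ≠ 1) ∧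
      ∀ s, ∃ x : Fin m → ZMod p, (∀ i, x i ∈ S) ∧ ∑ i, (u i : ZMod p) * x i = s := by
  classical
  obtain ⟨p1, hp1⟩ := params m hm
  set B := ∑ i, (u i).natAbs + ∑ i, (v i).natAbs with hB
  have hBu : ∀ i, (u i).natAbs ≤ B := fun i =>
    (single_le_sum (f := fun i => (u i).natAbs) (fun _ _ => Nat.zero_le _) (mem_univ i)).trans
      (Nat.le_add_right _ _)
  have hBv : ∀ i, (v i).natAbs ≤ B := fun i =>
    (single_le_sum (f := fun i => (v i).natAbs) (fun _ _ => Nat.zero_le _) (mem_univ i)).trans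
      (Nat.le_add_left _ _)
  refine ⟨p1 + (2 * (B * B) + B + 1), fun p hp hpp => ?_⟩
  haveI := Fact.mk hpp
  obtain ⟨n, L, a1, a2, a3, a4⟩ := hp1 p (by omega)
  have hz : ∀ z : ℤ, z.natAbs < p → (z : ZMod p) = 0 → z = 0 := by
    intro z h1 h2
    rw [ZMod.intCast_zmod_eq_zero_iff_dvd] at h2
    exact Int.eq_zero_of_dvd_of_natAbs_lt_natAbs h2 (by simpa using h1)
  have hu' : ∀ i, (u i : ZMod p) ≠ 0 := fun i h => hu i (hz _ (by have := hBu i; omega) h)
  have huv : ∀ (τ : Equiv.Perm (Fin m)) (l : ZMod p), l ≠ 0 →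
      ¬ ∀ i, (v (τ i) : ZMod p) = l * (u i : ZMod p) := by
    intro τ l _ h
    let i0 : Fin m := ⟨0, by omega⟩
    have e : ∀ i, v (τ i) * u i0 = v (τ i0) * u i := by
      intro i
      refine sub_eq_zero.1 (hz _ ?_ ?_)
      · refine lt_of_le_of_lt (Int.natAbs_sub_le _ _) ?_
        rw [Int.natAbs_mul, Int.natAbs_mul]
        have := Nat.mul_le_mul (hBv (τ i)) (hBu i0)
        have := Nat.mul_le_mul (hBv (τ i0)) (hBu i)
        omega
      · push_cast
        rw [h i, h i0]; ring
    have gw : univ.gcd (fun i => v (τ i)) = 1 := by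
      rw [← gv]
      refine dvd_antisymm_of_normalize_eq (normalize_gcd) (normalize_gcd) ?_ ?_
      · exact dvd_gcd fun i _ => by
          simpa using (gcd_dvd (f := fun i => v (τ i)) (mem_univ (τ.symm i)))
      · exact dvd_gcd fun i _ => gcd_dvd (mem_univ _)
    refine hadm ⟨τ.symm, ?_⟩
    rcases prop_int u (fun i => v (τ i)) i0 (hu i0) gu gw e with h | h
    · left; intro i; simpa using h (τ.symm i)
    · right; intro i; simpa using h (τ.symm i)
  have hc1 : (1 / 2 ^ (m + 3) : ℝ) ≤ 1 := by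
    rw [div_le_one (by positivity)]; exact one_le_pow₀ (by norm_num)
  obtain ⟨P, -, b2, -, b4⟩ := iter (F := ZMod p) (n := n) (fun i => (u i : ZMod p))
    (fun i => (v i : ZMod p)) (by omega) hu' huv (by simpa using a1) _ hc1 (by simpa using a2) L
    (by simpa using a3)
  refine ⟨P, b2, fun s => ?_⟩
  rw [ZMod.card] at b4
  have h0 := lt_of_le_of_lt b4 a4
  rw [Nat.cast_lt_one, card_eq_zero, filter_eq_empty_iff] at h0
  exact not_not.1 (h0 (mem_univ s))

lemma primes_prod (p0 : ℕ) (W : ℕ) : ∃ T : Finset ℕ, (∀ p ∈ T, p.Prime ∧ p0 ≤ p) ∧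
    W * ∏ p ∈ T, (p - 1) < ∏ p ∈ T, p := by
  classical
  have hns := not_summable_one_div_on_primes
  have : ∃ s : Finset ℕ, (W : ℝ) + p0 <
      ∑ k ∈ s, Set.indicator {p : ℕ | p.Prime} (fun n : ℕ => (1 : ℝ) / n) k := by
    by_contra hc
    push Not at hc
    exact hns (summable_of_sum_le (fun k => Set.indicator_nonneg (fun _ _ => by positivity) k) hc)
  obtain ⟨s, hs⟩ := this
  refine ⟨s.filter fun p => p.Prime ∧ p0 ≤ p, fun p hp => (mem_filter.1 hp).2, ?_⟩
  set T := s.filter fun p => p.Prime ∧ p0 ≤ p with hT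
  have hTp : ∀ p ∈ T, p.Prime := fun p hp => (mem_filter.1 hp).2.1
  have h1 : (W : ℝ) < ∑ p ∈ T, (1 : ℝ) / p := by
    have : ∑ k ∈ s, Set.indicator {p : ℕ | p.Prime} (fun n : ℕ => (1 : ℝ) / n) k ≤
        ∑ k ∈ s, ((if k.Prime ∧ p0 ≤ k then (1 : ℝ) / k else 0) + if k < p0 then 1 else 0) := by
      refine sum_le_sum fun k _ => ?_
      by_cases hk : k.Prime
      · rw [Set.indicator_of_mem (by exact hk)]
        by_cases h : p0 ≤ k
        · simp [hk, h, not_lt.2 h]
        · have : (1 : ℝ) ≤ k := by exact_mod_cast hk.one_lt.le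
          simp only [h, and_false, if_false, not_le.1 h, if_true, zero_add]
          rw [div_le_one (by linarith)]; exact this
      · rw [Set.indicator_of_notMem (by exact hk)]
        positivity
    rw [sum_add_distrib, ← sum_filter, ← sum_filter, sum_const, nsmul_eq_mul, mul_one] at this
    have h2 : #{k ∈ s | k < p0} ≤ p0 := by
      refine (card_le_card (t := range p0) fun k hk => ?_).trans (by simp)
      simpa using (mem_filter.1 hk).2
    have h3 : (#{k ∈ s | k < p0} : ℝ) ≤ p0 := by exact_mod_cast h2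
    linarith
  have h2 : ∀ p ∈ T, ((p - 1 : ℕ) : ℝ) * (1 + 1 / p) ≤ p := by
    intro p hp
    have h := (hTp p hp).one_lt
    have h' : (1 : ℝ) < p := by exact_mod_cast h
    rw [Nat.cast_sub h.le]
    field_simp
    push_cast
    nlinarith
  have h3 : ∏ p ∈ T, (((p - 1 : ℕ) : ℝ) * (1 + 1 / p)) ≤ ∏ p ∈ T, (p : ℝ) :=
    prod_le_prod (fun p _ => by positivity) h2
  rw [prod_mul_distrib] at h3
  have h4 : ∀ T : Finset ℕ, 1 + ∑ p ∈ T, (1 : ℝ) / p ≤ ∏ p ∈ T, (1 + (1 : ℝ) / p) := by
    intro T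
    induction T using Finset.induction_on with
    | empty => simp
    | insert a T ha ih =>
      rw [sum_insert ha, prod_insert ha]
      have : (0 : ℝ) ≤ 1 / a := by positivity
      have : (0 : ℝ) ≤ ∑ p ∈ T, (1 : ℝ) / p := sum_nonneg fun _ _ => by positivity
      nlinarith
  have h4 := h4 T
  have h5 : (0 : ℝ) < ∏ p ∈ T, ((p - 1 : ℕ) : ℝ) := prod_pos fun p hp => by
    have := (hTp p hp).one_lt
    exact_mod_cast (show 0 < p - 1 by omega)
  have : (W : ℝ) * ∏ p ∈ T, ((p - 1 : ℕ) : ℝ) < ∏ p ∈ T, (p : ℝ) := by nlinarith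
  rw [← Nat.cast_prod, ← Nat.cast_prod, ← Nat.cast_mul, Nat.cast_lt] at this
  exact this

theorem main (m : ℕ) (hm : 2 ≤ m) (u v : Fin m → ℤ) (hu : ∀ i, u i ≠ 0)
    (gu : univ.gcd u = 1) (gv : univ.gcd v = 1)
    (hadm : ¬ ∃ σ : Equiv.Perm (Fin m), (∀ i, v i = u (σ i)) ∨ (∀ i, v i = -u (σ i))) :
    ∃ A : Finset ℤ,
      ((Fintype.piFinset fun _ : Fin m => A).image
          (fun a : Fin m → ℤ => ∑ i, v i * a i)).card <
      ((Fintype.piFinset fun _ : Fin m => A).image
          (fun a : Fin m → ℤ => ∑ i, u i * a i)).card := by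
  classical
  obtain ⟨p0, hp0⟩ := local_set m hm u v hu gu gv hadm
  set W := ∑ i, (v i).natAbs with hW
  obtain ⟨T, hT, hlt⟩ := primes_prod p0 (2 * W + 1)
  have hS := fun p : T => hp0 p (hT p p.2).2 (hT p p.2).1
  choose S hS1 hS2 using hS
  have hcop : Pairwise (Function.onFun Nat.Coprime fun p : T => (p : ℕ)) := by
    intro p q hpq
    exact (Nat.coprime_primes (hT p p.2).1 (hT q q.2).1).2 fun h => hpq (Subtype.ext h)
  set Q := ∏ p : T, (p : ℕ) with hQ
  have hQ0 : 0 < Q := prod_pos fun p _ => (hT p p.2).1.pos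
  haveI : NeZero Q := ⟨hQ0.ne'⟩
  haveI : ∀ p : T, NeZero (p : ℕ) := fun p => ⟨(hT p p.2).1.ne_zero⟩
  let φ : ZMod Q ≃+* ∀ p : T, ZMod p := ZMod.prodEquivPi (fun p : T => (p : ℕ)) hcop
  let A : Finset ℤ := (Ico (0 : ℤ) Q).filter fun a => ∀ p, φ (a : ZMod Q) p ∈ S p
  refine ⟨A, lt_of_lt_of_le (b := Q) ?_ ?_⟩
  · let R : Finset (ZMod Q) := (Fintype.piFinset fun p : T => univ.erase (1 : ZMod p)).map
      φ.symm.toEquiv.toEmbedding
    have hR : #R = ∏ p ∈ T, (p - 1) := by
      rw [card_map, Fintype.card_piFinset, ← prod_coe_sort T (fun p => p - 1)]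
      refine prod_congr rfl fun p _ => ?_
      rw [card_erase_of_mem (mem_univ _), card_univ, ZMod.card]
    have hle : ((Fintype.piFinset fun _ : Fin m => A).image
          (fun a : Fin m → ℤ => ∑ i, v i * a i)).card ≤ #(Icc (-(W : ℤ)) W ×ˢ R) := by
      refine card_le_card_of_injOn (fun z => (z / Q, (z : ZMod Q))) ?_ ?_
      · intro z hz
        simp only [coe_image, Set.mem_image, mem_coe, Fintype.mem_piFinset] at hz
        obtain ⟨a, ha, rfl⟩ := hz
        simp only [A, mem_filter, mem_Ico] at ha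
        have hQ' : (0 : ℤ) < Q := by exact_mod_cast hQ0
        have hab : |∑ i, v i * a i| ≤ W * Q := by
          refine (abs_sum_le_sum_abs _ _).trans ?_
          rw [hW]
          push_cast
          rw [sum_mul]
          refine sum_le_sum fun i _ => ?_
          rw [abs_mul, abs_of_nonneg (ha i).1.1]
          exact mul_le_mul_of_nonneg_left (ha i).1.2.le (abs_nonneg _)
        rw [abs_le] at hab
        simp only [coe_product, Set.mem_prod, mem_coe, mem_Icc]
        refine ⟨⟨?_, ?_⟩, ?_⟩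
        · rw [Int.le_ediv_iff_mul_le hQ']; linarith [hab.1]
        · exact Int.ediv_le_of_le_mul hQ' hab.2
        · simp only [R, mem_map_equiv, Fintype.mem_piFinset, mem_erase, mem_univ, and_true]
          intro p
          have := hS1 p (fun j => φ (a j : ZMod Q) p) fun j => (ha j).2 p
          intro h
          apply this
          rw [← h]
          show _ = φ _ p
          push_cast
          simp [map_sum, map_mul, map_intCast]
      · intro z _ z' _ h
        simp only [Prod.mk.injEq] at h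
        have h2 := (ZMod.intCast_eq_intCast_iff _ _ _).1 h.2
        rw [← Int.emod_add_mul_ediv z Q, ← Int.emod_add_mul_ediv z' Q, h.1, h2]
    refine lt_of_le_of_lt hle ?_
    rw [card_product, hR, Int.card_Icc, hQ, prod_coe_sort T (fun p => p)]
    have e : ((W : ℤ) + 1 - -(W : ℤ)).toNat = 2 * W + 1 := by omega
    rw [e]; exact hlt
  · have : (univ : Finset (ZMod Q)) ⊆ ((Fintype.piFinset fun _ : Fin m => A).image
          (fun a : Fin m → ℤ => ∑ i, u i * a i)).image (fun z : ℤ => (z : ZMod Q)) := by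
      intro s _
      choose x hx1 hx2 using fun p : T => hS2 p (φ s p)
      simp only [mem_image, Fintype.mem_piFinset, exists_exists_and_eq_and]
      refine ⟨fun i => ((φ.symm fun p => x p i).val : ℤ), fun i => ?_, ?_⟩
      · simp only [A, mem_filter, mem_Ico]
        refine ⟨⟨by positivity, by exact_mod_cast ZMod.val_lt _⟩, fun p => ?_⟩
        simpa using hx1 p i
      · apply φ.injective
        funext p
        rw [← hx2 p]
        push_cast
        simp [map_sum, map_mul, map_intCast]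
    have h := (card_le_card this).trans card_image_le
    rwa [card_univ, ZMod.card] at h

end Pool.Agent.H18.LinForms
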