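import Pool.Agent.H18.Cod

set_option autoImplicit false

namespace H18.Pac
open Pool.Agent.H37 Encodable H18.Cod Filter

/-- Kleene–Brouwer position -/
def hat (σ : List ℕ) : Lex (ℕ → ℕ∞) := toLex fun i => (σ[i]?).elim ⊤ (↑)
def hatf (f : ℕ → ℕ) : Lex (ℕ → ℕ∞) := toLex fun i => f i

lemma lt_iff {x y : Lex (ℕ → ℕ∞)} : x < y ↔ ∃ i, (∀ j < i, x j = y j) ∧ x i < y i := Iff.rfl

lemma hat_app {σ τ : List ℕ} {i : ℕ} : hat σ i = hat τ i ↔ σ[i]? = τ[i]? := by
  simp only [hat, Pi.toLex_apply]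
  cases σ[i]? <;> cases τ[i]? <;> simp [eq_comm]

lemma hat_f {σ : List ℕ} {i v : ℕ} : hat σ i = v ↔ σ[i]? = some v := by
  simp only [hat, Pi.toLex_apply]
  cases σ[i]? <;> simp [eq_comm]

lemma hat_top {σ : List ℕ} {i : ℕ} : hat σ i = ⊤ ↔ σ.length ≤ i := by
  simp only [hat, Pi.toLex_apply, ← List.getElem?_eq_none_iff]
  cases σ[i]? <;> simp

lemma hat_inj {σ τ : List ℕ} (h : hat σ = hat τ) : σ = τ :=
  List.ext_getElem? fun i => hat_app.1 (congrFun h i)

def kb (σ τ : List ℕ) : Bool := (List.range σ.length).any fun i =>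
  ((List.range i).all fun j => σ[j]? == τ[j]?) && (τ[i]?).elim true fun b => decide (σ.getD i 0 < b)

lemma kb_iff {σ τ : List ℕ} : kb σ τ = true ↔ hat σ < hat τ := by
  simp only [kb, List.any_eq_true, List.mem_range, Bool.and_eq_true, List.all_eq_true, beq_iff_eq,
    lt_iff, hat_app]
  refine exists_congr fun i => ?_
  rw [and_left_comm]
  refine and_congr_right fun _ => ?_
  simp only [hat, Pi.toLex_apply]
  by_cases h : i < σ.length
  · cases τ[i]? <;> simp [h]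
  · simp [h]

@[fun_prop] lemma ci_kb {α : Type} [Primcodable α] {σ τ : α → List ℕ} (h1 : CI ∅ σ) (h2 : CI ∅ τ) :
    CI ∅ fun a => kb (σ a) (τ a) := by unfold kb; fun_prop

lemma conv (s : ℕ → List ℕ) (hs : StrictAnti fun n => hat (s n)) (i : ℕ) :
    ∃ v : ℕ, ∀ᶠ n in atTop, hat (s n) i = v := by
  induction i using Nat.strong_induction_on with
  | _ i ih =>
  choose g hg using ih
  obtain ⟨N, hN⟩ := eventually_atTop.1 ((eventually_all_finite (Set.finite_Iio i)).2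
    fun j (hj : j < i) => (hg j hj).mono (q := fun n => ∀ h, hat (s n) j = g j h) fun _ h _ => h)
  have an : ∀ m n, N ≤ m → m ≤ n → hat (s n) i ≤ hat (s m) i := fun m n h1 h2 =>
    Pi.apply_le_of_toLex (hs.antitone h2) fun j hj =>
      (hN n (h1.trans h2) j hj hj).trans (hN m h1 j hj hj).symm
  obtain ⟨_, ⟨m, hm, rfl⟩, h⟩ := wellFounded_lt.has_min ((fun n => hat (s n) i) '' Set.Ici N)
    ⟨_, N, Set.mem_Ici.2 le_rfl, rfl⟩
  have e : ∀ n, m ≤ n → hat (s n) i = hat (s m) i := fun n hn =>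
    le_antisymm (an m n hm hn) (not_lt.1 (h _ ⟨n, le_trans hm hn, rfl⟩))
  have : hat (s m) i ≠ ⊤ := fun ht => by
    obtain ⟨j, -, h2⟩ := lt_iff.1 (hs (Nat.lt_succ_self m))
    by_cases hj : j < i
    · exact h2.ne ((hN _ (le_trans hm m.le_succ) j hj hj).trans (hN m hm j hj hj).symm)
    · exact h2.ne_top (hat_top.2 ((hat_top.1 ((e _ m.le_succ).trans ht)).trans (not_lt.1 hj)))
  obtain ⟨v, hv⟩ := ENat.ne_top_iff_exists.1 this
  exact ⟨v, eventually_atTop.2 ⟨m, fun n hn => (e n hn).trans hv.symm⟩⟩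

lemma pre_prefix {f : ℕ → ℕ} {k : ℕ} {σ : List ℕ} (h : ∀ i < k, σ[i]? = some (f i)) :
    pre f k <+: σ := by
  rw [List.prefix_iff_getElem?]
  intro i hi
  simp only [pre, List.length_map, List.length_range] at hi
  simp [pre, h i hi]

variable {T : List ℕ → Bool} {f : ℕ → ℕ}

lemma conv_f (h1 : ∀ σ τ, T (σ ++ τ) = true → T σ = true)
    (h2 : ∀ g, (∀ k, T (pre g k) = true) ↔ g = f) (s : ℕ → List ℕ) (hT : ∀ n, T (s n) = true)
    (hs : StrictAnti fun n => hat (s n)) (k : ℕ) : ∃ n, ∀ i < k, hat (s n) i = hatf f i := by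
  choose g hg using conv s hs
  have a : ∀ k, ∃ n, ∀ i < k, hat (s n) i = g i := fun k =>
    ((eventually_all_finite (Set.finite_Iio k)).2 fun j _ => hg j).exists
  rw [← (h2 g).1 fun k => ?_]
  · exact a k
  · obtain ⟨n, hn⟩ := a k
    obtain ⟨τ, hτ⟩ := pre_prefix fun i hi => hat_f.1 (hn i hi)
    exact h1 _ τ (hτ ▸ hT n)

abbrev E : Type := List ℕ × ℕ × ℕ

def val (x : E) : ℤ :=
  if x.2.1 = 0 then x.2.2 else if x.2.2 % 2 = 0 then x.2.2 / 2 else -(x.2.2 / 2) - 1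

def Dm (T : List ℕ → Bool) (x : E) : Prop :=
  T x.1 = true ∧ (x.2.1 = 0 ∧ x.2.2 ≤ encode x.1 ∨ x.2.1 = 1)

def r (x y : E) : Prop :=
  hat x.1 < hat y.1 ∨ x.1 = y.1 ∧ (x.2.1 < y.2.1 ∨ x.2.1 = y.2.1 ∧ val x < val y)

lemma val_surj (σ : List ℕ) (z : ℤ) : ∃ b, val (σ, 1, b) = z := by
  by_cases h : 0 ≤ z
  · exact ⟨2 * z.toNat, by simp only [val]; rw [if_neg (by omega), if_pos (by omega)]; omega⟩
  · exact ⟨2 * (-z - 1).toNat + 1, by
      simp only [val]; rw [if_neg (by omega), if_neg (by omega)]; omega⟩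

lemma r_irrefl (x : E) : ¬ r x x := fun h => h.elim (lt_irrefl _) fun h => by omega

lemma r_le {x y : E} (h : r x y) : hat x.1 ≤ hat y.1 := h.elim le_of_lt fun h => by rw [h.1]

lemma r_trans {x y z : E} (h1 : r x y) (h2 : r y z) : r x z := by
  rcases h1 with h1 | h1
  · exact .inl (h1.trans_le (r_le h2))
  · rcases h2 with h2 | h2
    · exact .inl (h1.1 ▸ h2)
    · exact .inr ⟨h1.1.trans h2.1, by omega⟩

lemma r_tri {x y : E} (h : x ≠ y) : r x y ∨ r y x := by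
  rcases lt_trichotomy (hat x.1) (hat y.1) with h1 | h1 | h1
  · exact .inl (.inl h1)
  · obtain ⟨σ, a, b⟩ := x
    obtain ⟨τ, c, d⟩ := y
    obtain rfl : σ = τ := hat_inj h1
    simp only [r, lt_irrefl, false_or, true_and, val, ne_eq, Prod.mk.injEq] at h ⊢
    split_ifs <;> omega
  · exact .inr (.inl h1)

lemma r_same {x y : E} (h : x.1 = y.1) :
    r x y ↔ x.2.1 < y.2.1 ∨ x.2.1 = y.2.1 ∧ val x < val y :=
  ⟨fun H => H.elim (fun H => absurd (h ▸ H) (lt_irrefl _)) And.right, fun H => .inr ⟨h, H⟩⟩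

lemma scattered (h1 : ∀ σ τ, T (σ ++ τ) = true → T σ = true)
    (h2 : ∀ g, (∀ k, T (pre g k) = true) ↔ g = f) (e : ℚ → E) (hD : ∀ q, Dm T (e q))
    (he : ∀ p q, p < q → r (e p) (e q)) : False := by
  have btw : ∀ p q m, p < m → m < q → (e p).1 = (e q).1 → (e p).1 = (e m).1 := fun p q m a b c =>
    hat_inj (le_antisymm (r_le (he _ _ a)) (c ▸ r_le (he _ _ b)))
  have k1 : ∀ N : ℕ, ∀ p q, p < q → (e p).1 = (e q).1 → (e p).2.1 = (e q).2.1 →
      val (e p) + N ≤ val (e q) := by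
    intro N
    induction N with
    | zero => intro p q a b c; have := (r_same b).1 (he p q a); omega
    | succ N ih =>
      intro p q a b c
      obtain ⟨m, m1, m2⟩ := exists_between a
      have d := btw p q m m1 m2 b
      have := (r_same d).1 (he p m m1)
      have := (r_same (d.symm.trans b)).1 (he m q m2)
      have := ih p m m1 d (by omega)
      omega
  have k2 : ∀ p q, p < q → hat (e p).1 < hat (e q).1 := fun p q a =>
    (r_le (he p q a)).lt_of_ne fun b => by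
      replace b := hat_inj b
      obtain ⟨m, m1, m2⟩ := exists_between a
      have d := btw p q m m1 m2 b
      have := (r_same d).1 (he p m m1)
      have := (r_same (d.symm.trans b)).1 (he m q m2)
      have := k1 ((val (e m) - val (e p)).toNat + 1) p m m1 d
      have := k1 ((val (e q) - val (e m)).toNat + 1) m q m2 (d.symm.trans b)
      have := (hD p).2
      have := (hD q).2
      omega
  by_cases h : hat (e 0).1 < hatf f
  · obtain ⟨i, a, b⟩ := lt_iff.1 h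
    have an : StrictAnti fun n : ℕ => hat (e (-n)).1 := fun m n h => k2 _ _ (by simpa using h)
    obtain ⟨n, hn⟩ := conv_f h1 h2 (fun n => (e (-n)).1) (fun n => (hD _).1) an (i + 1)
    have := an.antitone (Nat.zero_le n)
    simp only [Nat.cast_zero, neg_zero] at this
    exact this.not_gt (lt_iff.2 ⟨i, fun j hj => (a j hj).trans (hn j (by omega)).symm,
      by rw [hn i (by omega)]; exact b⟩)
  · obtain ⟨n, hn⟩ := conv_f h1 h2 (fun n => (e (1 / (n + 1))).1) (fun n => (hD _).1)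
      (fun m n h => k2 _ _ (one_div_lt_one_div_of_lt (by positivity) (by simpa using h)))
      (e 0).1.length
    obtain ⟨i, a, b⟩ := lt_iff.1 (k2 0 (1 / (n + 1)) (by positivity))
    have hi : i < (e 0).1.length := not_le.1 fun h => b.ne_top (hat_top.2 h)
    exact h (lt_iff.2 ⟨i, fun j hj => (a j hj).trans (hn j (by omega)), by rw [← hn i hi]; exact b⟩)

section
variable {X Y : Type}

def Adj (I : X → Prop) (r : X → X → Prop) (a b : X) : Prop := r a b ∧ ∀ z, I z → ¬ (r a z ∧ r z b)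

def Bd (I : X → Prop) (r : X → X → Prop) (good : X → Prop) (n : ℕ) (u : ℕ → X) : Prop :=
  (∀ i, i ≤ n → I (u i)) ∧ (∀ i, i < n → Adj I r (u i) (u (i + 1))) ∧
    (∀ z, I z → ¬ Adj I r z (u 0)) ∧ (∀ z, I z → ¬ Adj I r (u n) z) ∧ good (u 0)

lemma Bd.transfer {I : X → Prop} {r : X → X → Prop} {g : X → Prop} {J : Y → Prop}
    {s : Y → Y → Prop} {h : Y → Prop} (ρ : X → Y → Prop) (h1 : ∀ x, I x → ∃ y, J y ∧ ρ x y)
    (h2 : ∀ y, J y → ∃ x, I x ∧ ρ x y)
    (h3 : ∀ x x' y y', I x → I x' → ρ x y → ρ x' y' → (r x x' ↔ s y y'))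
    (h4 : ∀ x y, I x → ρ x y → g x → h y) {n : ℕ} {u : ℕ → X} (H : Bd I r g n u) :
    ∃ v, Bd J s h n v := by
  have adj : ∀ x x' y y', I x → I x' → ρ x y → ρ x' y' → (Adj I r x x' ↔ Adj J s y y') := by
    intro x x' y y' a b c d
    refine and_congr (h3 _ _ _ _ a b c d) ⟨fun H z hz => ?_, fun H z hz => ?_⟩
    · obtain ⟨w, w1, w2⟩ := h2 z hz
      rw [← h3 _ _ _ _ a w1 c w2, ← h3 _ _ _ _ w1 b w2 d]; exact H w w1
    · obtain ⟨w, w1, w2⟩ := h1 z hz
      rw [h3 _ _ _ _ a hz c w2, h3 _ _ _ _ hz b w2 d]; exact H w w1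
  obtain ⟨a, b, c, d, e⟩ := H
  choose v v1 v2 using fun i => h1 (u (min i n)) (a _ (min_le_right _ _))
  have v3 : ∀ i, i ≤ n → ρ (u i) (v i) := fun i hi => by simpa [hi] using v2 i
  refine ⟨v, fun i _ => v1 i, fun i hi => (adj _ _ _ _ (a i hi.le) (a _ hi) (v3 i hi.le)
    (v3 _ hi)).1 (b i hi), fun z hz => ?_, fun z hz => ?_, h4 _ _ (a 0 n.zero_le) (v3 0 n.zero_le) e⟩
  · obtain ⟨w, w1, w2⟩ := h2 z hz
    rw [← adj _ _ _ _ w1 (a 0 n.zero_le) w2 (v3 0 n.zero_le)]; exact c w w1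
  · obtain ⟨w, w1, w2⟩ := h2 z hz
    rw [← adj _ _ _ _ (a n le_rfl) w1 (v3 n le_rfl) w2]; exact d w w1

lemma Bd.list {I : ℕ → Prop} {r : ℕ → ℕ → Prop} {g : ℕ → Prop} {n : ℕ} {u : ℕ → ℕ}
    (H : Bd I r g n u) : ∃ l : List ℕ, Bd I r g n fun i => l.getD i 0 := by
  have e : ∀ i, i ≤ n → (pre u (n + 1)).getD i 0 = u i := fun i hi => by
    simp [pre, Nat.lt_succ_of_le hi]
  obtain ⟨a, b, c, d, e'⟩ := H
  refine ⟨pre u (n + 1), fun i hi => ?_, fun i hi => ?_, ?_⟩
  · simpa only [e i hi] using a i hi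
  · simpa only [e i hi.le, e _ hi] using b i hi
  · simpa only [e 0 n.zero_le, e n le_rfl] using And.intro c (And.intro d e')

end

lemma adj_iff {x y : E} (hx : Dm T x) (hy : Dm T y) :
    Adj (Dm T) r x y ↔ x.1 = y.1 ∧ x.2.1 = y.2.1 ∧ val y = val x + 1 := by
  constructor
  · rintro ⟨h | ⟨h1, h2⟩, H⟩
    · obtain ⟨b, hb⟩ := val_surj x.1 (val x + 1)
      refine absurd ⟨(r_same (by rfl)).2 ?_, .inl h⟩ (H (x.1, 1, b) ⟨hx.1, .inr rfl⟩)
      have := hx.2
      simp only; omega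
    · refine ⟨h1, ?_⟩
      by_contra hn
      have a := hx.2
      have b := hy.2
      by_cases h0 : y.2.1 = 0
      · have x0 : x.2.1 = 0 := by omega
        have v1 : val x = x.2.2 := by simp [val, x0]
        have v2 : val y = y.2.2 := by simp [val, h0]
        have v3 : val (x.1, 0, x.2.2 + 1) = x.2.2 + 1 := by simp [val]
        rw [← h1] at b
        refine H (x.1, 0, x.2.2 + 1) ⟨hx.1, .inl ⟨rfl, ?_⟩⟩
          ⟨(r_same (by rfl)).2 ?_, (r_same (by exact h1)).2 ?_⟩ <;> simp only <;> omega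
      · obtain ⟨b, hb⟩ := val_surj x.1 (val y - 1)
        refine H (x.1, 1, b) ⟨hx.1, .inr rfl⟩ ⟨(r_same (by rfl)).2 ?_, (r_same (by exact h1)).2 ?_⟩ <;>
          simp only <;> omega
  · rintro ⟨h1, h2, h3⟩
    refine ⟨(r_same h1).2 (by omega), fun z _ ⟨a, b⟩ => ?_⟩
    have e : x.1 = z.1 := hat_inj (le_antisymm (r_le a) (h1 ▸ r_le b))
    have := (r_same e).1 a
    have := (r_same (e.symm.trans h1)).1 b
    omega

lemma blk_iff (g : E → Prop) (σ : List ℕ) :
    (∃ u, Bd (Dm T) r g (encode σ) u) ↔ T σ = true ∧ g (σ, 0, 0) := by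
  constructor
  · rintro ⟨u, a, b, c, d, e⟩
    have a0 := a 0 (Nat.zero_le _)
    have h0 : (u 0).2.1 = 0 ∧ (u 0).2.2 = 0 := by
      by_contra hn
      rcases a0.2 with h | h
      · have hd : Dm T ((u 0).1, 0, (u 0).2.2 - 1) := ⟨a0.1, .inl ⟨rfl, by simp only; omega⟩⟩
        exact c _ hd ((adj_iff hd a0).2 ⟨rfl, h.1.symm, by simp only [val, h.1, if_true]; omega⟩)
      · obtain ⟨b, hb⟩ := val_surj (u 0).1 (val (u 0) - 1)
        have hd : Dm T ((u 0).1, 1, b) := ⟨a0.1, .inr rfl⟩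
        exact c _ hd ((adj_iff hd a0).2 ⟨rfl, h.symm, by omega⟩)
    have hi : ∀ i, i ≤ encode σ → u i = ((u 0).1, 0, i) := by
      intro i
      induction i with
      | zero => exact fun _ => Prod.ext rfl (Prod.ext h0.1 h0.2)
      | succ i ih =>
        intro hi
        have := (adj_iff (a i (by omega)) (a _ hi)).1 (b i hi)
        rw [ih (by omega)] at this
        refine Prod.ext this.1.symm (Prod.ext this.2.1.symm ?_)
        have h := this.2.2
        simp only [val, ← this.2.1, if_true] at h ⊢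
        omega
    have hn := a _ le_rfl
    have : encode (u 0).1 = encode σ := by
      by_contra hne
      rw [hi _ le_rfl] at hn d
      have hd : Dm T ((u 0).1, 0, encode σ + 1) := ⟨a0.1, .inl ⟨rfl, by
        have := hn.2; simp only at this ⊢; omega⟩⟩
      exact d _ hd ((adj_iff hn hd).2 ⟨rfl, rfl, by simp [val]⟩)
    rw [hi 0 (Nat.zero_le _)] at e
    exact encode_injective this ▸ ⟨a0.1, e⟩
  · rintro ⟨h1, h2⟩
    have hd : ∀ i, i ≤ encode σ → Dm T (σ, 0, i) := fun i hi => ⟨h1, .inl ⟨rfl, hi⟩⟩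
    refine ⟨fun i => (σ, 0, i), hd, fun i hi => (adj_iff (hd i hi.le) (hd _ hi)).2
      ⟨rfl, rfl, by simp [val]⟩, fun z hz h => ?_, fun z hz h => ?_, h2⟩
    · obtain ⟨a, b, c⟩ := (adj_iff hz (hd 0 (Nat.zero_le _))).1 h
      simp only [val, b, if_true] at c
      omega
    · obtain ⟨a, b, c⟩ := (adj_iff (hd _ le_rfl) hz).1 h
      have := hz.2
      simp only [val, ← b, ← a, if_true] at c this
      omega

end H18.Pac
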