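import Pool.Agent.H18.Pac1

set_option autoImplicit false

namespace H18.Pac
open Pool.Agent.H37 Encodable H18.Cod

def V (c n : ℕ) : Prop := ∃ s, ev c n s = some 1
def Path (t c : ℕ) : Prop :=
  ∀ σ : List Bool, (∀ i, i < σ.length → (σ.getD i false = true ↔ V c i)) → V t (encode σ)
def Iso (t c : ℕ) : Prop := Path t c ∧ ∃ n, ∀ c', Path t c' →
  (∀ i, i < n → (V c' i ↔ V c i)) → ∀ i, (V c' i ↔ V c i)
def Lt (c c' : ℕ) : Prop := ∃ n, (∀ i, i < n → (V c i ↔ V c' i)) ∧ ¬ V c n ∧ V c' n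
def Bc (e : ℕ) (σ : List ℕ) : Prop := ∃ l : List ℕ,
  Bd (Iso e.unpair.1) Lt (fun c => ¬ Lt c e.unpair.2) (encode σ) fun i => l.getD i 0
def U (e : ℕ) : Prop := ∃ σ : List ℕ, Bc e σ ∧
  (∀ τ : List ℕ, Bc e τ → kb τ σ = true → τ.take σ.length = σ) ∧ σ[3 * e + 2]? = some 0

section
variable {α : Type} [Primcodable α] {t c d : α → ℕ}

lemma cod_V (hc : CI ∅ c) (hd : CI ∅ d) : Cod fun a => V (c a) (d a) :=
  Cod.ex (Cod.dec (by fun_prop))

lemma cod_lt (hc : CI ∅ c) (hd : CI ∅ d) : Cod fun a => c a < d a := Cod.dec (by fun_prop)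
lemma cod_le (hc : CI ∅ c) (hd : CI ∅ d) : Cod fun a => c a ≤ d a := Cod.dec (by fun_prop)

lemma cod_Path (ht : CI ∅ t) (hc : CI ∅ c) : Cod fun a => Path (t a) (c a) :=
  Cod.all ((Cod.all ((cod_lt (by fun_prop) (by fun_prop)).imp ((Cod.bool (by fun_prop)).iff
    (cod_V (by fun_prop) (by fun_prop))))).imp (cod_V (by fun_prop) (by fun_prop)))

lemma cod_Iso (ht : CI ∅ t) (hc : CI ∅ c) : Cod fun a => Iso (t a) (c a) :=
  (cod_Path ht hc).and (Cod.ex (Cod.all ((cod_Path (by fun_prop) (by fun_prop)).imp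
    ((Cod.all ((cod_lt (by fun_prop) (by fun_prop)).imp ((cod_V (by fun_prop) (by fun_prop)).iff
      (cod_V (by fun_prop) (by fun_prop))))).imp
    (Cod.all ((cod_V (by fun_prop) (by fun_prop)).iff (cod_V (by fun_prop) (by fun_prop))))))))

lemma cod_Lt (hc : CI ∅ c) (hd : CI ∅ d) : Cod fun a => Lt (c a) (d a) :=
  Cod.ex ((Cod.all ((cod_lt (by fun_prop) (by fun_prop)).imp ((cod_V (by fun_prop) (by fun_prop)).iff
    (cod_V (by fun_prop) (by fun_prop))))).and ((cod_V (by fun_prop) (by fun_prop)).not.and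
    (cod_V (by fun_prop) (by fun_prop))))

lemma cod_Adj (ht : CI ∅ t) (hc : CI ∅ c) (hd : CI ∅ d) :
    Cod fun a => Adj (Iso (t a)) Lt (c a) (d a) :=
  (cod_Lt hc hd).and (Cod.all ((cod_Iso (by fun_prop) (by fun_prop)).imp
    ((cod_Lt (by fun_prop) (by fun_prop)).and (cod_Lt (by fun_prop) (by fun_prop))).not))

lemma cod_Bc {σ : α → List ℕ} (ht : CI ∅ t) (hσ : CI ∅ σ) : Cod fun a => Bc (t a) (σ a) :=
  Cod.ex ((Cod.all ((cod_le (by fun_prop) (by fun_prop)).imp
      (cod_Iso (by fun_prop) (by fun_prop)))).and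
    ((Cod.all ((cod_lt (by fun_prop) (by fun_prop)).imp
      (cod_Adj (by fun_prop) (by fun_prop) (by fun_prop)))).and
    ((Cod.all ((cod_Iso (by fun_prop) (by fun_prop)).imp
      (cod_Adj (by fun_prop) (by fun_prop) (by fun_prop)).not)).and
    ((Cod.all ((cod_Iso (by fun_prop) (by fun_prop)).imp
      (cod_Adj (by fun_prop) (by fun_prop) (by fun_prop)).not)).and
    (cod_Lt (by fun_prop) (by fun_prop)).not))))

lemma cod_U : Cod U :=
  Cod.ex (R := fun e σ => Bc e σ ∧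
    (∀ τ : List ℕ, Bc e τ → kb τ σ = true → τ.take σ.length = σ) ∧ σ[3 * e + 2]? = some 0)
    ((cod_Bc (by fun_prop) (by fun_prop)).and ((Cod.all ((cod_Bc (by fun_prop) (by fun_prop)).imp
      ((Cod.bool (by fun_prop)).imp (Cod.dec (by fun_prop))))).and (Cod.dec (by fun_prop))))

end

lemma exists_code {h : ℕ → Bool} (hh : CI ∅ h) : ∃ c, ∀ n, V c n ↔ h n = true := by
  obtain ⟨e, he⟩ := exists_index (f := fun n => (h n).toNat) (by fun_prop)
  refine ⟨e, fun n => ?_⟩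
  obtain ⟨s, hs⟩ := he n
  refine ⟨fun ⟨s', h'⟩ => ?_, fun h' => ⟨s, by simp [hs, h']⟩⟩
  have := ev_unique hs h'
  cases e : h n <;> simp_all

lemma diag {T : List ℕ → Bool} {f : ℕ → ℕ} (hp : ∀ k, T (pre f k) = true) {e : ℕ}
    (H : ∀ σ, Bc e σ ↔ T σ = true ∧ ¬ hat σ < hatf f) : U e ↔ f (3 * e + 2) = 0 := by
  have pf : ∀ k i, i < k → hat (pre f k) i = hatf f i := fun k i hi =>
    hat_f.2 (by simp [pre, hi])
  have pB : ∀ k, Bc e (pre f k) := fun k => (H _).2 ⟨hp k, fun h => by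
    obtain ⟨i, -, h⟩ := lt_iff.1 h
    exact h.ne (pf k i (not_le.1 fun h' => h.ne_top (hat_top.2 (by simpa [pre] using h'))))⟩
  constructor
  · rintro ⟨σ, h1, h2, h3⟩
    have hne : hat σ ≠ hatf f := fun h => by
      have := congrFun h σ.length
      rw [hat_top.2 le_rfl] at this
      exact ENat.top_ne_coe _ this
    obtain ⟨i, a, b⟩ := lt_iff.1 (hne.lt_or_gt.resolve_left ((H σ).1 h1).2)
    by_cases hi : 3 * e + 2 < i
    · have := (a _ hi).trans (hat_f.2 h3)
      simpa [hatf] using this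
    · have := h2 _ (pB (i + 1)) (kb_iff.2 (lt_iff.2 ⟨i, fun j hj => (pf _ j (by omega)).trans
        (a j hj), by rw [pf _ i (by omega)]; exact b⟩))
      have h4 : i < σ.length := by
        have := (List.getElem?_eq_some_iff.1 h3).1; omega
      refine absurd ?_ b.ne
      rw [← pf (i + 1) i (by omega), hat_app, ← this, List.getElem?_take_of_lt h4]
  · intro h
    refine ⟨pre f (3 * e + 3), pB _, fun τ h1 h2 => ?_, by simp [pre, h]⟩
    obtain ⟨i, a, b⟩ := lt_iff.1 (kb_iff.1 h2)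
    have hi : 3 * e + 3 ≤ i := not_lt.1 fun hi => ((H τ).1 h1).2 (lt_iff.2
      ⟨i, fun j hj => (a j hj).trans (pf _ j (by omega)), by rw [← pf _ i hi]; exact b⟩)
    exact (List.prefix_iff_eq_take.1 (pre_prefix fun j hj =>
      hat_f.1 ((a j (by omega)).trans (pf _ j hj)))).symm

open Classical in
/-- lexicographic infimum -/
noncomputable def infP (S : Set (ℕ → Bool)) (n : ℕ) : Bool :=
  decide (¬ ∃ g ∈ S, (∀ i : Fin n, g i = infP S i) ∧ g n = false)
termination_by n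
decreasing_by exact i.2

lemma infP_false {S : Set (ℕ → Bool)} {n : ℕ} :
    infP S n = false ↔ ∃ g ∈ S, (∀ i < n, g i = infP S i) ∧ g n = false := by
  rw [infP]
  simp only [decide_eq_false_iff_not, not_not, Fin.forall_iff]

lemma infP_ext {S : Set (ℕ → Bool)} (h : S.Nonempty) (n : ℕ) :
    ∃ g ∈ S, ∀ i < n, g i = infP S i := by
  induction n with
  | zero => exact h.imp fun g hg => ⟨hg, by simp⟩
  | succ n ih =>
    cases e : infP S n with
    | false =>
      obtain ⟨g, h1, h2, h3⟩ := infP_false.1 e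
      exact ⟨g, h1, fun i hi => (Nat.lt_succ_iff_lt_or_eq.1 hi).elim (h2 i) fun h => by
        rw [h, h3, e]⟩
    | true =>
      obtain ⟨g, h1, h2⟩ := ih
      refine ⟨g, h1, fun i hi => (Nat.lt_succ_iff_lt_or_eq.1 hi).elim (h2 i) fun h => ?_⟩
      subst h
      by_contra h3
      have := infP_false.2 ⟨g, h1, h2, by simpa [e] using h3⟩
      simp [e] at this

def LT (g h : ℕ → Bool) : Prop := ∃ n, (∀ i < n, g i = h i) ∧ g n = false ∧ h n = true

lemma LT_tri (g h : ℕ → Bool) : LT g h ∨ g = h ∨ LT h g := by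
  classical
  by_cases e : ∃ n, g n ≠ h n
  · have h1 := Nat.find_spec e
    have h2 : ∀ i < Nat.find e, g i = h i := fun i hi => not_not.1 (Nat.find_min e hi)
    cases e' : g (Nat.find e)
    · exact .inl ⟨_, h2, e', by simpa [e'] using h1⟩
    · exact .inr (.inr ⟨_, fun i hi => (h2 i hi).symm, by simpa [e'] using h1, e'⟩)
  · exact .inr (.inl (funext (by simpa using e)))

lemma Lt_iff {c c' : ℕ} {g h : ℕ → Bool} (h1 : ∀ n, V c n ↔ g n = true)
    (h2 : ∀ n, V c' n ↔ h n = true) : Lt c c' ↔ LT g h := by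
  simp only [Lt, LT, h1, h2, ← Bool.eq_iff_iff, Bool.not_eq_true]

lemma Path_iff {T : Set (List Bool)} {t c : ℕ} {g : ℕ → Bool} (h1 : ∀ σ, V t (encode σ) ↔ σ ∈ T)
    (h2 : ∀ n, V c n ↔ g n = true) :
    Path t c ↔ ∀ n, List.ofFn (fun i : Fin n => g i) ∈ T := by
  simp only [Path, h1, h2, ← Bool.eq_iff_iff]
  refine ⟨fun H n => H _ fun i hi => by simp [List.getElem?_ofFn, show i < n by simpa using hi],
    fun H σ h => ?_⟩
  have : σ = List.ofFn fun i : Fin σ.length => g i :=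
    List.ext_getElem (by simp) fun i h1 _ => by simp [← h i h1, h1]
  rw [this]; exact H _

lemma ofFn_iff {n : ℕ} {g h : ℕ → Bool} :
    List.ofFn (fun i : Fin n => g i) = List.ofFn (fun i : Fin n => h i) ↔ ∀ i < n, g i = h i := by
  rw [List.ofFn_inj, funext_iff, Fin.forall_iff]

lemma Iso_iff {T : Set (List Bool)} {t c : ℕ} {g : ℕ → Bool} (h1 : ∀ σ, V t (encode σ) ↔ σ ∈ T)
    (h2 : ∀ n, V c n ↔ g n = true)
    (h3 : ∀ f : ℕ → Bool, (∀ n : ℕ, List.ofFn (fun i : Fin n => f i) ∈ T) → Computable f) :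
    Iso t c ↔ (∀ n, List.ofFn (fun i : Fin n => g i) ∈ T) ∧
      ∃ σ : List Bool, List.ofFn (fun i : Fin σ.length => g i) = σ ∧
        ∀ h : ℕ → Bool, (∀ n : ℕ, List.ofFn (fun i : Fin n => h i) ∈ T) →
          List.ofFn (fun i : Fin σ.length => h i) = σ → h = g := by
  classical
  refine and_congr (Path_iff h1 h2) ⟨fun ⟨n, H⟩ => ?_, fun ⟨σ, a, b⟩ => ⟨σ.length, fun c' p q i => ?_⟩⟩
  · obtain ⟨σ, rfl, hσ⟩ : ∃ σ : List Bool, σ.length = n ∧
        List.ofFn (fun i : Fin σ.length => g i) = σ :=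
      ⟨List.ofFn fun i : Fin n => g i, by simp, List.ext_getElem (by simp) fun i _ _ => by simp⟩
    refine ⟨σ, hσ, fun h p q => ?_⟩
    obtain ⟨c', hc⟩ := exists_code (CI.of_comp (h3 h p))
    have := H c' ((Path_iff h1 hc).2 p)
    simp only [hc, h2, ← Bool.eq_iff_iff] at this
    exact funext (this (ofFn_iff.1 (q.trans hσ.symm)))
  · have hc : ∀ n, V c' n ↔ (fun n => decide (V c' n)) n = true := by simp
    have := b (fun n => decide (V c' n)) ((Path_iff h1 hc).1 p)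
      (((ofFn_iff (g := fun n => decide (V c' n)) (h := g)).2 fun i hi => by
        rw [Bool.eq_iff_iff, ← h2, ← q i hi]; simp).trans a)
    rw [hc, this, h2]

def dc (x : ℕ) : E := (decode x).getD ([], 0, 0)

lemma dc_enc (x : E) : dc (encode x) = x := by rw [dc, encodek]; rfl

@[fun_prop] lemma ci_dc {α : Type} [Primcodable α] {x : α → ℕ} (h : CI ∅ x) :
    CI ∅ fun a => dc (x a) := by unfold dc; fun_prop

def rb (x y : E) : Bool := kb x.1 y.1 || (decide (x.1 = y.1) && (decide (x.2.1 < y.2.1) ||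
  (decide (x.2.1 = y.2.1) && bif decide (x.2.1 = 0) then decide (x.2.2 < y.2.2) else
    bif decide (x.2.2 % 2 = 0) then decide (y.2.2 % 2 = 0) && decide (x.2.2 < y.2.2)
    else decide (y.2.2 % 2 = 0) || decide (y.2.2 < x.2.2))))

lemma rb_iff {x y : E} : rb x y = true ↔ r x y := by
  simp only [rb, r, Bool.or_eq_true, kb_iff, Bool.and_eq_true, decide_eq_true_eq, Bool.cond_decide]
  refine or_congr_right (and_congr_right fun _ => or_congr_right (and_congr_right fun h => ?_))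
  simp only [val, ← h]
  split_ifs <;> simp <;> omega

end H18.Pac
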