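import Pool.Agent.H18.PerDefs

/-!
Rank calculus for perspectives.
-/

namespace Pool.Agent.H18.Per

open Finset

variable {α : Type} [DecidableEq α] {E A B C X Y U I P Q : Finset α} {r r' : Finset α → ℕ} {e f : α}

theorem IsRk.zero (h : IsRk E r) : r ∅ = 0 := by simpa using h.1 ∅ (empty_subset _)
theorem IsRk.mono (h : IsRk E r) (X Y) (h1 : X ⊆ Y) (h2 : Y ⊆ E) : r X ≤ r Y := h.2.1 X Y h1 h2
theorem IsRk.one (h : IsRk E r) (he : e ∈ E) : r {e} ≤ 1 := by simpa using h.1 {e} (by simpa)
theorem IsRk.sub (h : IsRk E r) (X Y U I) (hX : X ⊆ E) (hY : Y ⊆ E) (hU : U ⊆ X ∪ Y)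
    (hI : I ⊆ X ∩ Y) : r U + r I ≤ r X + r Y := by
  have := h.2.2 X hX Y hY
  have := h.mono U _ hU (union_subset hX hY)
  have := h.mono I _ hI (inter_subset_left.trans hX)
  omega
theorem IsRk.sadd (h : IsRk E r) (X Y U) (hX : X ⊆ E) (hY : Y ⊆ E) (hU : U ⊆ X ∪ Y) :
    r U ≤ r X + r Y := by
  have := h.sub X Y U ∅ hX hY hU (empty_subset _); omega
theorem IsRk.res (h : IsRk E r) (hA : A ⊆ E) : IsRk A r :=
  ⟨fun X hX => h.1 X (hX.trans hA), fun X Y a b => h.2.1 X Y a (b.trans hA),
    fun X a Y b => h.2.2 X (a.trans hA) Y (b.trans hA)⟩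
theorem IsRk.con (h : IsRk E r) (he : e ∈ E) : IsRk (E.erase e) (con r e) := by
  refine ⟨fun X hX => ?_, fun X Y a b => ?_, fun X a Y b => ?_⟩ <;> simp only [Per.con]
  · have := h.sadd {e} X (insert e X) (by grind) (by grind) (by grind)
    have := h.1 X (by grind); omega
  · have := h.mono (insert e X) (insert e Y) (by grind) (by grind); omega
  · have := h.sub (insert e X) (insert e Y) (insert e (X ∪ Y)) (insert e (X ∩ Y)) (by grind)
      (by grind) (by grind) (by grind)
    have := h.mono {e} (insert e (X ∩ Y)) (by grind) (by grind)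
    have := h.mono {e} (insert e (X ∪ Y)) (by grind) (by grind)
    have := h.mono {e} (insert e X) (by grind) (by grind)
    have := h.mono {e} (insert e Y) (by grind) (by grind)
    omega

theorem Persp.le (h : Persp E r r') (A B) (h1 : A ⊆ B) (h2 : B ⊆ E) : r' B + r A ≤ r B + r' A :=
  h.2.2 A B h1 h2
theorem Persp.le0 (h : Persp E r r') (X) (hX : X ⊆ E) : r' X ≤ r X := by
  have := h.le ∅ X (empty_subset _) hX
  have := h.1.zero; have := h.2.1.zero; omega
theorem Persp.eq (h : Persp E r r') (Y) (hY : Y ⊆ E) (e : r Y = r' Y) (X) (hX : X ⊆ Y) :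
    r X = r' X := by
  have := h.le X Y hX hY; have := h.le0 X (hX.trans hY); omega
theorem Persp.res (h : Persp E r r') (hA : A ⊆ E) : Persp A r r' :=
  ⟨h.1.res hA, h.2.1.res hA, fun X Y a b => h.le X Y a (b.trans hA)⟩
theorem Persp.del (h : Persp E r r') (e : α) : Persp (E.erase e) r r' := h.res (erase_subset _ _)
theorem Persp.con (h : Persp E r r') (he : e ∈ E) : Persp (E.erase e) (con r e) (con r' e) := by
  refine ⟨h.1.con he, h.2.1.con he, fun X Y a b => ?_⟩
  simp only [Per.con]
  have := h.le (insert e X) (insert e Y) (by grind) (by grind)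
  have := h.1.mono {e} (insert e X) (by grind) (by grind)
  have := h.1.mono {e} (insert e Y) (by grind) (by grind)
  have := h.2.1.mono {e} (insert e X) (by grind) (by grind)
  have := h.2.1.mono {e} (insert e Y) (by grind) (by grind)
  omega

theorem con_top (he : e ∈ E) : con r e (E.erase e) = r E - r {e} := by rw [con, insert_erase he]

/-- separator -/
def Sep (E : Finset α) (r : Finset α → ℕ) (A : Finset α) : Prop := r A + r (E \ A) ≤ r E

theorem Sep.add (hs : Sep E r A) (h : IsRk E r) (hA : A ⊆ E) (X P Q) (hX : X ⊆ E)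
    (hP : P = X ∩ A) (hQ : Q = X \ A) : r X = r P + r Q := by
  subst hP hQ
  have := h.sadd (X ∩ A) (X \ A) X (by grind) (by grind) (by grind)
  have := h.sub X A (X ∪ A) (X ∩ A) hX hA (by grind) (by grind)
  have := h.sub (X ∪ A) (E \ A) E (X \ A) (by grind) (by grind) (by grind) (by grind)
  unfold Sep at hs; omega

theorem Sep.addc (hs : Sep (E.erase e) (con r e) A) (h : IsRk E r) (he : e ∈ E) (hA : A ⊆ E.erase e)
    (X P Q) (hX : X ⊆ E) (hx : e ∈ X) (hP : P = insert e (X ∩ A)) (hQ : Q = X \ A) :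
    r X + r {e} = r P + r Q := by
  have h1 := hs.add (h.con he) hA (X.erase e) (X ∩ A) ((X \ A).erase e) (by grind) (by grind)
    (by grind)
  simp only [con] at h1
  rw [insert_erase hx, insert_erase (by grind), ← hP, ← hQ] at h1
  have := h.mono {e} X (by grind) hX
  have := h.mono {e} P (by grind) (by grind)
  have := h.mono {e} Q (by grind) (by grind)
  omega

/-- factors, short form -/
def F (E : Finset α) (r r' : Finset α → ℕ) (A : Finset α) : Prop := A ⊆ E ∧ Sep E r A ∧ Sep E r' A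

theorem Persp.factor_iff (h : Persp E r r') : Factor E r r' A ↔ F E r r' A := by
  refine ⟨fun ⟨a, b⟩ => ⟨a, ?_, ?_⟩, fun ⟨a, b, c⟩ => ⟨a, fun X hX =>
    ⟨b.add h.1 a X _ _ hX rfl rfl, c.add h.2.1 a X _ _ hX rfl rfl⟩⟩⟩
  · have := (b E subset_rfl).1; rw [inter_eq_right.2 a] at this; exact this.ge
  · have := (b E subset_rfl).2; rw [inter_eq_right.2 a] at this; exact this.ge

/-- connected, short form -/
def Cn (E : Finset α) (r r' : Finset α → ℕ) : Prop := ∀ A, F E r r' A → A.Nonempty → A = E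

theorem Persp.conn_iff (h : Persp E r r') : Conn E r r' ↔ Cn E r r' := by
  simp only [Conn, Cn, h.factor_iff]

/-- a factor without rank drop -/
def ZF (E : Finset α) (r r' : Finset α → ℕ) (A : Finset α) : Prop :=
  F E r r' A ∧ A.Nonempty ∧ r A = r' A

theorem Sep.compl (hs : Sep E r A) (hA : A ⊆ E) : Sep E r (E \ A) := by
  unfold Sep at *; rw [Finset.sdiff_sdiff_eq_self hA]; omega
theorem F.compl (h : F E r r' A) : F E r r' (E \ A) :=
  ⟨sdiff_subset, h.2.1.compl h.1, h.2.2.compl h.1⟩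
theorem Sep.trans (h : IsRk E r) (hA : A ⊆ E) (hB : B ⊆ A) (h1 : Sep E r A) (h2 : Sep A r B) :
    Sep E r B := by
  have := h1.add h hA (E \ B) (A \ B) (E \ A) (by grind) (by grind) (by grind)
  unfold Sep at *; omega
theorem F.trans (h : Persp E r r') (h1 : F E r r' A) (h2 : F A r r' B) : F E r r' B :=
  ⟨h2.1.trans h1.1, Sep.trans h.1 h1.1 h2.1 h1.2.1 h2.2.1, Sep.trans h.2.1 h1.1 h2.1 h1.2.2 h2.2.2⟩
theorem Cn.empty (h : Cn E r r') (he : e ∈ E) (hA : A ⊆ E.erase e) (h1 : Sep E r A)
    (h2 : Sep E r' A) : A = ∅ := by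
  by_contra h3
  have := h A ⟨by grind, h1, h2⟩ (nonempty_iff_ne_empty.2 h3)
  grind

/-- the evaluation at `(0, 0, 1)` -/
def s (E : Finset α) (r r' : Finset α → ℕ) : ℤ :=
  ∑ X ∈ E.powerset, (-1) ^ (r' E + r' X + X.card + r X)

theorem neg_cg {a b : ℕ} (h : a % 2 = b % 2) : (-1 : ℤ) ^ a = (-1) ^ b := by
  rw [neg_one_pow_eq_pow_mod_two, h, ← neg_one_pow_eq_pow_mod_two]

theorem Persp.tutte_eq (h : Persp E r r') : tutte E r r' 0 0 1 = s E r r' := by
  refine sum_congr rfl fun X hX => ?_
  have hX := mem_powerset.1 hX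
  have := h.1.1 X hX
  have := h.2.1.mono X E hX subset_rfl
  rw [one_pow, mul_one, zero_sub, ← pow_add]
  exact neg_cg (by omega)

theorem Persp.s_rec (h : Persp E r r') (he : e ∈ E) (h1 : r {e} = 1) (h2 : r' (E.erase e) = r' E) :
    s E r r' = s (E.erase e) r r' + s (E.erase e) (Per.con r e) (Per.con r' e) := by
  unfold s
  rw [con_top he, h2]
  conv_lhs => rw [← insert_erase he, sum_powerset_insert (notMem_erase e E), insert_erase he]
  congr 1
  refine sum_congr rfl fun X hX => ?_
  have hX := mem_powerset.1 hX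
  have := h.1.mono {e} (insert e X) (by grind) (by grind)
  have := h.2.1.mono {e} (insert e X) (by grind) (by grind)
  have := h.2.1.mono {e} E (by grind) (by grind)
  rw [card_insert_of_notMem (by grind)]
  simp only [Per.con]
  exact neg_cg (by omega)

theorem Persp.s_mul (h : Persp E r r') (hA : F E r r' A) :
    s E r r' = s A r r' * s (E \ A) r r' := by
  unfold s
  rw [sum_mul_sum, ← sum_product']
  refine sum_nbij' (fun X => (X ∩ A, X \ A)) (fun p => p.1 ∪ p.2) (fun X hX => ?_) (fun p hp => ?_)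
    (fun X hX => ?_) (fun p hp => ?_) (fun X hX => ?_)
  · simp only [mem_product, mem_powerset] at *; grind
  · have := hA.1
    simp only [mem_product, mem_powerset] at *; grind
  · grind
  · simp only [mem_product, mem_powerset] at hp
    ext <;> grind
  · have hX := mem_powerset.1 hX
    have := hA.2.1.add h.1 hA.1 X _ _ hX rfl rfl
    have := hA.2.2.add h.2.1 hA.1 X _ _ hX rfl rfl
    have := hA.2.2.add h.2.1 hA.1 E A _ subset_rfl (inter_eq_right.2 hA.1).symm rfl
    have := card_inter_add_card_sdiff X A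
    rw [← pow_add]
    exact neg_cg (by dsimp only; omega)

theorem Persp.s_zero (h : Persp E r r') (hA : ZF E r r' A) : s E r r' = 0 := by
  rw [h.s_mul hA.1, mul_eq_zero]
  left
  have : s A r r' = ∑ X ∈ A.powerset, (-1) ^ r' A * (-1) ^ X.card := sum_congr rfl fun X hX => by
    have := h.eq A hA.1.1 hA.2.2 X (mem_powerset.1 hX)
    rw [← pow_add]; exact neg_cg (by omega)
  rw [this, ← mul_sum, sum_powerset_neg_one_pow_card_of_nonempty hA.2.1, mul_zero]

theorem IsRk.bc (h : IsRk E r) (he : e ∈ E) (hA : A ⊆ E.erase e) (hC : C ⊆ E.erase e)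
    (h1 : Sep (E.erase e) r A) (h2 : Sep (E.erase e) (Per.con r e) C) (X Y) (hX : X = A ∩ C)
    (hY : Y = (E.erase e \ A) \ C) :
    r X + r (E \ X) + (r Y + r (E \ Y)) ≤ r (E.erase e) + r E + r {e} ∧
      r E ≤ r X + r (E \ X) ∧ r E ≤ r Y + r (E \ Y) := by
  have := h2.addc h he hC E (insert e C) (E \ C) subset_rfl he (by grind) rfl
  have := h.sub A (insert e C) (E \ Y) X (by grind) (by grind) (by grind) (by grind)
  have := h.sub (E.erase e \ A) (E \ C) (E \ X) Y (by grind) (by grind) (by grind) (by grind)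
  have := h.sadd X (E \ X) E (by grind) (by grind) (by grind)
  have := h.sadd Y (E \ Y) E (by grind) (by grind) (by grind)
  unfold Sep at h1
  omega

end Pool.Agent.H18.Per
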