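import Pool.Agent.H18.Per1

/-!
The lower bound.
-/

namespace Pool.Agent.H18.Per

open Finset

variable {α : Type} [DecidableEq α] {E A B C X Y : Finset α} {r r' : Finset α → ℕ} {e f : α}

theorem Cn.r1 (hc : Cn E r r') (h : Persp E r r') (h2 : 2 ≤ E.card) (he : e ∈ E) :
    r {e} = 1 ∧ r' (E.erase e) = r' E ∧ (r (E.erase e) = r E ∨ r' {e} = 1) := by
  have key : ¬ (r {e} + r (E.erase e) ≤ r E ∧ r' {e} + r' (E.erase e) ≤ r' E) := fun ⟨a, b⟩ => by
    have := hc {e} ⟨by simpa, by rwa [Sep, sdiff_singleton_eq_erase],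
      by rwa [Sep, sdiff_singleton_eq_erase]⟩ (singleton_nonempty _)
    rw [← this] at h2; simp at h2
  have := h.1.one he
  have := h.2.1.one he
  have := h.le0 {e} (by simpa)
  have := h.le (E.erase e) E (erase_subset _ _) subset_rfl
  have := h.1.mono (E.erase e) E (erase_subset _ _) subset_rfl
  have := h.2.1.mono (E.erase e) E (erase_subset _ _) subset_rfl
  omega

theorem IsRk.er (h : IsRk E r) (he : e ∈ E) : r (E.erase e) ≤ r E ∧ r E ≤ r (E.erase e) + r {e} :=
  ⟨h.mono _ _ (erase_subset _ _) subset_rfl, h.sadd _ _ _ (by grind) (by grind) (by grind)⟩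

theorem not_cn (h : ¬ Cn E r r') : ∃ A, F E r r' A ∧ A.Nonempty ∧ (E \ A).Nonempty := by
  simp only [Cn, not_forall] at h
  obtain ⟨A, h1, h2, h3⟩ := h
  exact ⟨A, h1, h2, sdiff_nonempty.2 fun h => h3 (subset_antisymm h1.1 h)⟩

/-- if `e` is a coloop of `M` or a loop of `M'`, deletion or contraction is connected -/
theorem Cn.either (hc : Cn E r r') (h : Persp E r r') (he : e ∈ E)
    (h1 : r (E.erase e) ≠ r E ∨ r' {e} = 0) :
    Cn (E.erase e) r r' ∨ Cn (E.erase e) (con r e) (con r' e) := by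
  by_contra hh
  obtain ⟨A, hA, ⟨a, ha⟩, ⟨b, hb⟩⟩ := not_cn fun x => hh (Or.inl x)
  obtain ⟨C, hC, ⟨c, hc1⟩, ⟨d, hd⟩⟩ := not_cn fun x => hh (Or.inr x)
  have key : ∀ C, F (E.erase e) (con r e) (con r' e) C → A ∩ C = ∅ ∨ (E.erase e \ A) \ C = ∅ := by
    intro C hC
    have k1 := h.1.bc he hA.1 hC.1 hA.2.1 hC.2.1 _ _ rfl rfl
    have k2 := h.2.1.bc he hA.1 hC.1 hA.2.2 hC.2.2 _ _ rfl rfl
    have := h.1.one he
    have := h.2.1.one he
    have := h.1.er he
    have := h.2.1.er he
    have := hA.1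
    by_cases h3 : Sep E r (A ∩ C) ∧ Sep E r' (A ∩ C)
    · exact Or.inl (hc.empty he (by grind) h3.1 h3.2)
    · refine Or.inr (hc.empty he (by grind) ?_ ?_) <;> simp only [Sep] at h3 ⊢ <;> omega
  have k1 := key C hC
  have k2 := key _ hC.compl
  have := hA.1
  have := hC.1
  simp only [eq_empty_iff_forall_notMem] at k1 k2
  rcases k1 with k1 | k1 <;> rcases k2 with k2 | k2
  · have := k1 a; have := k2 a; grind
  · have := k1 c; have := k2 c; grind
  · have := k1 d; have := k2 d; grind
  · have := k1 b; have := k2 b; grind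

theorem Cn.zf_del (hc : Cn E r r') (h : Persp E r r') (he : e ∈ E) (h1 : r (E.erase e) = r E)
    (hk : r' E < r E) (hA : ZF (E.erase e) r r' A) : Cn (E.erase e) (con r e) (con r' e) := by
  by_contra hh
  obtain ⟨C, hC, ⟨c, hc1⟩, ⟨d, hd⟩⟩ := not_cn hh
  obtain ⟨hA, ⟨a, ha⟩, e0⟩ := hA
  have hA1 := hA.1
  have k0 : ∀ X ⊆ A, Sep E r X ∨ Sep E r' X → X = ∅ := fun X hX hs => by
    have e1 := h.eq A (by grind) e0 X hX
    have e2 := h.eq A (by grind) e0 (A \ X) (by grind)
    have := h.le (E \ X) E (by grind) (by grind)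
    have s1 : Sep E r X := by simp only [Sep] at hs ⊢; omega
    refine hc.empty he (by grind) s1 ?_
    have := s1.add h.1 (by grind) (E.erase e) X (E.erase e \ X) (by grind) (by grind) rfl
    have := s1.add h.1 (by grind) A X (A \ X) (by grind) (by grind) rfl
    have := h.le (E.erase e \ X) (E \ X) (by grind) (by grind)
    have := hA.2.2.add (h.2.1.res (erase_subset _ _)) hA1 (E.erase e \ X) (A \ X) (E.erase e \ A)
      (by grind) (by grind) (by grind)
    have := hA.2.2
    have := h.2.1.er he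
    simp only [Sep] at *
    omega
  have key : ∀ C, F (E.erase e) (con r e) (con r' e) C → A ∩ C = ∅ ∨ (E.erase e \ A) \ C = ∅ := by
    intro C hC
    have k1 := h.1.bc he hA.1 hC.1 hA.2.1 hC.2.1 _ _ rfl rfl
    have k2 := h.2.1.bc he hA.1 hC.1 hA.2.2 hC.2.2 _ _ rfl rfl
    have := h.1.one he
    have := h.2.1.one he
    have := h.1.er he
    have := h.2.1.er he
    by_cases h3 : Sep E r (A ∩ C) ∨ Sep E r' (A ∩ C)
    · exact Or.inl (k0 _ inter_subset_left h3)
    · refine Or.inr (hc.empty he (by grind) ?_ ?_) <;> simp only [Sep] at h3 ⊢ <;> omega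
  have k1 := key C hC
  have k2 := key _ hC.compl
  have := hC.1
  have : A = E.erase e := by
    simp only [eq_empty_iff_forall_notMem] at k1 k2
    rcases k1 with k1 | k1 <;> rcases k2 with k2 | k2
    · have := k1 a; have := k2 a; grind
    · have := k1 c; have := k2 c; grind
    · have := k1 d; have := k2 d; grind
    · ext b; have := k1 b; have := k2 b; grind
  have := h.2.1.er he
  subst A
  omega

theorem Cn.zf_con (hc : Cn E r r') (h : Persp E r r') (he : e ∈ E) (h1 : r' {e} = 1)
    (hk : r' E < r E) (hC : ZF (E.erase e) (con r e) (con r' e) C) : Cn (E.erase e) r r' := by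
  by_contra hh
  obtain ⟨A, hA, ⟨a, ha⟩, ⟨b, hb⟩⟩ := not_cn hh
  obtain ⟨hC, ⟨c, hc1⟩, e0⟩ := hC
  have hC1 := hC.1
  have := h.1.one he
  have := h.le0 {e} (by simpa)
  have e0 : r (insert e C) = r' (insert e C) := by
    have := h.1.mono {e} (insert e C) (by grind) (by grind)
    have := h.2.1.mono {e} (insert e C) (by grind) (by grind)
    simp only [con] at e0; omega
  have k0 : ∀ X ⊆ C, Sep E r X ∨ Sep E r' X → X = ∅ := fun X hX hs => by
    have e1 := h.eq _ (by grind) e0 X (by grind)
    have e2 := h.eq _ (by grind) e0 (insert e C \ X) (by grind)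
    have := h.le (E \ X) E (by grind) (by grind)
    have s1 : Sep E r X := by simp only [Sep] at hs ⊢; omega
    refine hc.empty he (by grind) s1 ?_
    have := s1.add h.1 (by grind) (insert e C) X (insert e C \ X) (by grind) (by grind) rfl
    have := hC.2.2.addc h.2.1 he hC1 (E \ X) (insert e C \ X) (E \ C) (by grind) (by grind)
      (by grind) (by grind)
    have := hC.2.2.addc h.2.1 he hC1 E (insert e C) (E \ C) (by grind) (by grind)
      (by grind) (by grind)
    simp only [Sep] at *
    omega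
  have key : ∀ A, F (E.erase e) r r' A → A ∩ C = ∅ ∨ (E.erase e \ A) \ C = ∅ := by
    intro A hA
    have k1 := h.1.bc he hA.1 hC.1 hA.2.1 hC.2.1 _ _ rfl rfl
    have k2 := h.2.1.bc he hA.1 hC.1 hA.2.2 hC.2.2 _ _ rfl rfl
    have := h.1.er he
    have := h.2.1.er he
    by_cases h3 : Sep E r (A ∩ C) ∨ Sep E r' (A ∩ C)
    · exact Or.inl (k0 _ inter_subset_right h3)
    · refine Or.inr (hc.empty he (by grind) ?_ ?_) <;> simp only [Sep] at h3 ⊢ <;> omega
  have k1 := key A hA
  have k2 := key _ hA.compl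
  have := hA.1
  have : insert e C = E := by
    simp only [eq_empty_iff_forall_notMem] at k1 k2
    rcases k1 with k1 | k1 <;> rcases k2 with k2 | k2
    · have := k1 c; have := k2 c; grind
    · have := k1 a; have := k2 a; have := k1 b; have := k2 b; grind
    · have := k1 a; have := k2 a; have := k1 b; have := k2 b; grind
    · ext b; have := k1 b; have := k2 b; grind
  rw [this] at e0
  omega

theorem Cn.no_zf_con (hc : Cn E r r') (h : Persp E r r') (he : e ∈ E) (h1 : r (E.erase e) ≠ r E)
    (h2 : r' {e} = 1) (hC : ZF (E.erase e) (con r e) (con r' e) C) : False := by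
  obtain ⟨hC, hc1, e0⟩ := hC
  have hC1 := hC.1
  have := h.1.one he
  have := h.1.er he
  have := h.le0 C (by grind)
  have := h.1.sub (insert e C) (E.erase e) E C (by grind) (by grind) (by grind) (by grind)
  have := h.2.1.sadd {e} C (insert e C) (by grind) (by grind) (by grind)
  have := h.2.1.mono {e} (insert e C) (by grind) (by grind)
  have := hC.2.1.addc h.1 he hC1 E (insert e C) (E \ C) (by grind) (by grind) (by grind) rfl
  have := hC.2.2.addc h.2.1 he hC1 E (insert e C) (E \ C) (by grind) (by grind) (by grind) rfl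
  simp only [con] at e0
  refine hc1.ne_empty (hc.empty he hC1 ?_ ?_) <;> simp only [Sep] <;> omega

theorem Cn.no_zf_del (hc : Cn E r r') (h : Persp E r r') (he : e ∈ E) (h2 : r' {e} = 0)
    (hA : ZF (E.erase e) r r' A) : False := by
  obtain ⟨hA, ha, e0⟩ := hA
  have hA1 := hA.1
  have := h.2.1.er he
  have := h.le (E \ A) E (by grind) (by grind)
  have := h.2.1.sadd {e} (E.erase e \ A) (E \ A) (by grind) (by grind) (by grind)
  have := hA.2.2
  refine ha.ne_empty (hc.empty he hA1 ?_ ?_) <;> simp only [Sep] at * <;> omega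

theorem two_pow_pos' (k : ℕ) : (0 : ℤ) < 2 ^ k := by positivity

theorem Persp.lb (h : Persp E r r') (k : ℕ) (hk : r E = r' E + k) :
    0 ≤ s E r r' ∧ ((∀ A, ¬ ZF E r r' A) → 2 ^ k ≤ s E r r') ∧
      (Cn E r r' → 2 ^ (k + 1) - 2 ≤ s E r r') := by
  induction hn : E.card using Nat.strong_induction_on generalizing E r r' k with
  | _ n ih =>
  subst hn
  by_cases hz : ∃ A, ZF E r r' A
  · obtain ⟨A, hA⟩ := hz
    refine ⟨(h.s_zero hA).ge, fun h1 => absurd hA (h1 A), fun hc => ?_⟩
    have := hA.2.2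
    rw [hc A hA.1 hA.2.1] at this
    rw [h.s_zero hA, show k = 0 by omega]; norm_num
  push Not at hz
  have p := two_pow_pos' k
  suffices H : 2 ^ k ≤ s E r r' ∧ (Cn E r r' → 2 ^ (k + 1) - 2 ≤ s E r r') from
    ⟨by omega, fun _ => H.1, H.2⟩
  by_cases hc : Cn E r r'
  swap
  · obtain ⟨A, hA, a, b⟩ := not_cn hc
    refine ⟨?_, fun x => absurd x hc⟩
    have := h.le0 A hA.1
    have := h.le0 (E \ A) sdiff_subset
    have := hA.2.1.add h.1 hA.1 E A _ subset_rfl (inter_eq_right.2 hA.1).symm rfl
    have := hA.2.2.add h.2.1 hA.1 E A _ subset_rfl (inter_eq_right.2 hA.1).symm rfl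
    have := card_sdiff_add_card_eq_card hA.1
    have := a.card_pos
    have := b.card_pos
    have h1 := (ih _ (by omega) (h.res hA.1) (r A - r' A) (by omega) rfl).2.1 fun B hB =>
      hz B ⟨F.trans h hA hB.1, hB.2⟩
    have h2 := (ih _ (by omega) (h.res sdiff_subset) (r (E \ A) - r' (E \ A)) (by omega) rfl).2.1
      fun B hB => hz B ⟨F.trans h hA.compl hB.1, hB.2⟩
    rw [h.s_mul hA, show k = (r A - r' A) + (r (E \ A) - r' (E \ A)) by omega, pow_add]
    exact mul_le_mul h1 h2 (by positivity) ((two_pow_pos' _).le.trans h1)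
  rcases E.eq_empty_or_nonempty with rfl | hE
  · have := h.1.zero
    have := h.2.1.zero
    obtain rfl : k = 0 := by omega
    simp [s, *]
  have k1 : k ≠ 0 := fun e => hz E ⟨⟨subset_rfl, by simp [Sep, h.1.zero], by simp [Sep, h.2.1.zero]⟩,
    hE, by omega⟩
  obtain ⟨k, rfl⟩ := Nat.exists_eq_succ_of_ne_zero k1
  have q := two_pow_pos' k
  suffices H : 2 ^ (k + 1 + 1) - 2 ≤ s E r r' from ⟨by simp only [pow_succ] at *; omega, fun _ => H⟩
  obtain ⟨e, he⟩ := hE
  by_cases h2 : 2 ≤ E.card
  swap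
  · obtain ⟨a, rfl⟩ := card_eq_one.1 (show E.card = 1 by have := card_pos.2 ⟨e, he⟩; omega)
    have := h.1.one (mem_singleton_self a)
    have := h.1.zero
    have := h.2.1.zero
    obtain rfl : k = 0 := by omega
    have e1 : r {a} = 1 := by omega
    have e2 : r' {a} = 0 := by omega
    rw [s, ← insert_empty_eq, sum_powerset_insert (notMem_empty _)]
    simp [*]
  obtain ⟨a1, a2, a3⟩ := hc.r1 h h2 he
  have := h.1.er he
  have := h.2.1.one he
  have := h.2.1.mono {e} E (by simpa) subset_rfl
  have hlt : (E.erase e).card < E.card := card_erase_lt_of_mem he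
  rw [h.s_rec he a1 a2]
  by_cases c1 : r (E.erase e) = r E <;> by_cases c2 : r' {e} = 0
  · have d := ih _ hlt (h.del e) (k + 1) (by omega) rfl
    have c := ih _ hlt (h.con he) k (by rw [con_top he, con_top he]; omega) rfl
    have := d.2.1 fun A => hc.no_zf_del h he c2
    rcases hc.either h he (Or.inr c2) with x | x
    · have := d.2.2 x; omega
    · have := c.2.2 x; simp only [pow_succ] at *; omega
  · have d := ih _ hlt (h.del e) (k + 1) (by omega) rfl
    have c := ih _ hlt (h.con he) (k + 1) (by rw [con_top he, con_top he]; omega) rfl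
    by_cases z1 : ∃ A, ZF (E.erase e) r r' A
    · have := c.2.2 (hc.zf_del h he c1 (by omega) z1.choose_spec); omega
    by_cases z2 : ∃ A, ZF (E.erase e) (Per.con r e) (Per.con r' e) A
    · have := d.2.2 (hc.zf_con h he (by omega) (by omega) z2.choose_spec); omega
    have := d.2.1 (not_exists.1 z1)
    have := c.2.1 (not_exists.1 z2)
    simp only [pow_succ] at *; omega
  · omega
  · have d := ih _ hlt (h.del e) k (by omega) rfl
    have c := ih _ hlt (h.con he) (k + 1) (by rw [con_top he, con_top he]; omega) rfl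
    have := c.2.1 fun A => hc.no_zf_con h he c1 (by omega)
    rcases hc.either h he (Or.inl c1) with x | x
    · have := d.2.2 x; simp only [pow_succ] at *; omega
    · have := c.2.2 x; omega

end Pool.Agent.H18.Per
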