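import Pool.Agent.H18.Per2

/-!
The listed perspectives are connected and extremal.
-/

namespace Pool.Agent.H18.Per

open Finset

variable {α : Type} [DecidableEq α] {E A B C X Y : Finset α} {r r' : Finset α → ℕ} {e f : α}

theorem Sep.del (hs : Sep E r A) (h : IsRk E r) (hA : A ⊆ E) (e : α) :
    Sep (E.erase e) r (A.erase e) :=
  (hs.add h hA (E.erase e) _ _ (erase_subset _ _) (by grind) (by grind)).ge

theorem Sep.con (hs : Sep E r A) (h : IsRk E r) (hA : A ⊆ E) (he : e ∈ E) :
    Sep (E.erase e) (con r e) (A.erase e) := by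
  rw [Sep, con_top he]
  simp only [Per.con]
  have := h.zero
  have := hs
  unfold Sep at this
  by_cases ha : e ∈ A
  · have := hs.add h hA (insert e (E.erase e \ A.erase e)) {e} (E \ A) (by grind) (by grind)
      (by grind)
    have := h.mono {e} A (by grind) hA
    rw [insert_erase ha]; omega
  · have := hs.add h hA (insert e (A.erase e)) A {e} (by grind) (by grind) (by grind)
    have := h.mono {e} (E \ A) (by grind) (by grind)
    rw [show insert e (E.erase e \ A.erase e) = E \ A by grind]; omega

theorem cn_lift {t t' : Finset α → ℕ} (he : e ∈ E) (hc : Cn (E.erase e) t t')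
    (h1 : ∀ A, F E r r' A → F (E.erase e) t t' (A.erase e)) (h2 : ¬ F E r r' {e}) : Cn E r r' := by
  intro A hA ha
  have := hA.1
  rcases (A.erase e).eq_empty_or_nonempty with h3 | h3
  · obtain ⟨a, ha⟩ := ha
    rw [eq_empty_iff_forall_notMem] at h3
    have : A = {e} := by ext x; have := h3 x; have := h3 a; grind
    exact absurd (this ▸ hA) h2
  · have h4 := hc _ (h1 A hA) h3
    by_contra h5
    have : E \ A = {e} := by
      ext x
      have : x ∈ A.erase e ↔ x ∈ E.erase e := by rw [h4]
      simp only [mem_erase] at this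
      have h6 : e ∉ A := fun h => h5 (by rw [← insert_erase h, h4, insert_erase he])
      grind
    exact h2 (this ▸ hA.compl)

theorem Persp.zf_par (h : Persp E r r') (he : e ∈ E) (hf : f ∈ E) (hef : e ≠ f) (h1 : r {e} = 1)
    (h2 : r {e, f} = 1) : ZF (E.erase e) (Per.con r e) (Per.con r' e) {f} := by
  have hc := h.con he
  have a1 : Per.con r e {f} = 0 := by simp only [Per.con]; omega
  have := hc.le0 {f} (by grind)
  have := hc.1.mono (E.erase e \ {f}) _ sdiff_subset subset_rfl
  have := hc.2.1.mono (E.erase e \ {f}) _ sdiff_subset subset_rfl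
  exact ⟨⟨by grind, by unfold Sep; omega, by unfold Sep; omega⟩, singleton_nonempty _, by omega⟩

theorem Persp.zf_ser (h : Persp E r r') (hf : f ∈ E) (hef : e ≠ f)
    (h2 : r' ((E.erase e).erase f) < r' (E.erase e)) : ZF (E.erase e) r r' {f} := by
  have hc := h.del e
  have hf' : f ∈ E.erase e := by grind
  have := hc.le0 {f} (by grind)
  have := hc.1.one hf'
  have := hc.2.1.er hf'
  have := hc.le _ _ (erase_subset f _) subset_rfl
  refine ⟨⟨by grind, ?_, ?_⟩, singleton_nonempty _, by omega⟩ <;>
    rw [Sep, sdiff_singleton_eq_erase] <;> omega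

theorem sum_one (g : Finset α → ℤ) (hY : Y ⊆ E) (h1 : g Y = -1) (h2 : ∀ X ⊆ E, X ≠ Y → g X = 1) :
    ∑ X ∈ E.powerset, g X = 2 ^ E.card - 2 := by
  have hm : Y ∈ E.powerset := mem_powerset.2 hY
  rw [← add_sum_erase _ _ hm, h1, sum_congr rfl (g := fun _ => (1 : ℤ))
    fun X hX => h2 X (by simpa using mem_of_mem_erase hX) (ne_of_mem_erase hX)]
  have := card_erase_add_one hm
  rw [card_powerset] at this
  have : (((E.powerset.erase Y).card : ℕ) : ℤ) + 1 = 2 ^ E.card := by exact_mod_cast this
  simp only [sum_const, nsmul_eq_mul, mul_one]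
  omega

theorem Ext.good (hx : Ext E r r') (h : Persp E r r') (k : ℕ) (hk : r E = r' E + k) :
    Cn E r r' ∧ 1 ≤ k ∧ s E r r' = 2 ^ (k + 1) - 2 := by
  induction hx generalizing k with
  | @one E r r' h1 h2 h3 =>
    obtain ⟨a, rfl⟩ := card_eq_one.1 h1
    obtain rfl : k = 1 := by omega
    refine ⟨fun A hA ha => (subset_singleton_iff.1 hA.1).resolve_left ha.ne_empty, le_rfl, ?_⟩
    have := h.1.zero
    have := h.2.1.zero
    rw [s, ← insert_empty_eq, sum_powerset_insert (notMem_empty _)]
    simp [*]
  | @circ E r r' h1 h2 =>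
    have := h2 E subset_rfl
    refine ⟨fun A hA ha => ?_, by omega, ?_⟩
    · have := h2 A hA.1
      have := h2 (E \ A) sdiff_subset
      have := card_sdiff_add_card_eq_card hA.1
      have := ha.card_pos
      have := hA.2.1
      unfold Sep at this
      exact eq_of_subset_of_card_le hA.1 (by omega)
    · rw [show k + 1 = E.card by omega]
      refine sum_one _ subset_rfl ((neg_cg (b := 1) (by omega)).trans (by norm_num)) fun X a b => ?_
      have := h2 X a
      have := card_lt_card (Finset.ssubset_iff_subset_ne.2 ⟨a, b⟩)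
      exact (neg_cg (b := 0) (by omega)).trans (by norm_num)
  | @free E r r' h1 h2 =>
    have := h2 E subset_rfl
    refine ⟨fun A hA ha => ?_, by omega, ?_⟩
    · have := h2 A hA.1
      have := h2 (E \ A) sdiff_subset
      have := card_sdiff_add_card_eq_card hA.1
      have := ha.card_pos
      have := hA.2.2
      unfold Sep at this
      exact eq_of_subset_of_card_le hA.1 (by omega)
    · rw [show k + 1 = E.card by omega]
      have := h2 ∅ (empty_subset _)
      have : (∅ : Finset α).card = 0 := rfl
      refine sum_one _ (empty_subset _) ((neg_cg (b := 1) (by omega)).trans (by norm_num))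
        fun X a b => ?_
      have := h2 X a
      have := card_pos.2 (nonempty_iff_ne_empty.2 b)
      exact (neg_cg (b := 0) (by omega)).trans (by norm_num)
  | @par E r r' e f he hf hef h1 h2 h3 _ ih =>
    have := h.1.sub (E.erase e) {e, f} E {f} (by grind) (by grind) (by grind) (by grind)
    have := h.1.er he
    have := h.2.1.er he
    have := h.le _ _ (erase_subset e _) subset_rfl
    obtain ⟨a, b, c⟩ := ih (h.del e) k (by omega)
    refine ⟨cn_lift he a (fun A hA => ⟨erase_subset_erase _ hA.1, hA.2.1.del h.1 hA.1 e,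
      hA.2.2.del h.2.1 hA.1 e⟩) fun x => ?_, b, ?_⟩
    · have := x.2.1
      rw [Sep, sdiff_singleton_eq_erase] at this; omega
    · rw [h.s_rec he h1 (by omega), c, (h.con he).s_zero (h.zf_par he hf hef h1 h3), add_zero]
  | @ser E r r' e f he hf hef h1 h2 h3 _ ih =>
    have := h.2.1.sadd {e} ((E.erase e).erase f) (E.erase f) (by grind) (by grind) (by grind)
    have := h.1.one he
    have := h.le0 {e} (by grind)
    obtain ⟨a, b, c⟩ := ih (h.con he) k (by rw [con_top he, con_top he]; omega)
    refine ⟨cn_lift he a (fun A hA => ⟨erase_subset_erase _ hA.1, hA.2.1.con h.1 hA.1 he,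
      hA.2.2.con h.2.1 hA.1 he⟩) fun x => ?_, b, ?_⟩
    · have := x.2.2
      rw [Sep, sdiff_singleton_eq_erase] at this; omega
    · rw [h.s_rec he (by omega) h1, c, (h.del e).s_zero (h.zf_ser hf hef (by omega)), zero_add]

end Pool.Agent.H18.Per
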