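import Pool.Agent.H18.Per3

/-!
Connected extremal perspectives are listed.
-/

namespace Pool.Agent.H18.Per

open Finset

variable {α : Type} [DecidableEq α] {E A B C W X Y : Finset α} {r r' : Finset α → ℕ} {e f : α}

theorem cn_of (h : ∀ A, F E r r' A → f ∉ A → A = ∅) : Cn E r r' := fun A hA ha => by
  by_cases hf : f ∈ A
  · exact subset_antisymm hA.1 (sdiff_eq_empty_iff_subset.1 (h _ hA.compl (by grind)))
  · exact absurd (h A hA hf) ha.ne_empty

theorem Cn.par_del (hc : Cn E r r') (h : Persp E r r') (he : e ∈ E) (hf : f ∈ E) (hef : e ≠ f)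
    (h1 : r {f} = 1) (h2 : r {e, f} = 1) : Cn (E.erase e) r r' := cn_of (f := f) fun A hA ha => by
  obtain ⟨a, b, c⟩ := hA
  have := h.1.sub (E.erase e \ A) {e, f} (E \ A) {f} (by grind) (by grind) (by grind) (by grind)
  have := h.le (E.erase e \ A) (E \ A) (by grind) (by grind)
  have := h.1.er he
  have := h.2.1.er he
  refine hc.empty he a ?_ ?_ <;> unfold Sep at * <;> omega

theorem Cn.ser_con (hc : Cn E r r') (h : Persp E r r') (he : e ∈ E) (hf : f ∈ E) (hef : e ≠ f)
    (h1 : r' (E.erase f) = r' E) (h2 : r' ((E.erase e).erase f) < r' E) :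
    Cn (E.erase e) (con r e) (con r' e) := cn_of (f := f) fun A hA ha => by
  obtain ⟨a, b, c⟩ := hA
  have := h.2.1.sub (insert e A) ((E.erase e).erase f) (E.erase f) A (by grind) (by grind)
    (by grind) (by grind)
  have := h.le A (insert e A) (by grind) (by grind)
  have := b.addc h.1 he a E (insert e A) (E \ A) subset_rfl he (by grind) rfl
  have := c.addc h.2.1 he a E (insert e A) (E \ A) subset_rfl he (by grind) rfl
  have := h.1.one he
  have := h.2.1.one he
  refine hc.empty he a ?_ ?_ <;> unfold Sep <;> omega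

theorem IsRk.cross (h : IsRk E r) (P Q P' Q' X U I) (h1 : P ⊆ E) (h2 : Q ⊆ E) (h3 : P' ⊆ E)
    (h4 : Q' ⊆ E) (a : X ⊆ P ∩ P') (b : E \ X ⊆ Q ∪ Q') (c : U ⊆ (P ∪ P') ∪ (Q ∩ Q'))
    (d : I ⊆ (P ∪ P') ∩ (Q ∩ Q')) :
    r X + r (E \ X) + (r U + r I) ≤ r P + r Q + (r P' + r Q') := by
  have := h.sub P P' _ X h1 h3 subset_rfl a
  have := h.sub Q Q' _ _ h2 h4 b subset_rfl
  have := h.sub _ _ U I (union_subset h1 h3) (inter_subset_left.trans h2) c d
  omega

/-- connected, with rank drop, no parallel pair in `M` and no series pair in `M'` -/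
structure Irr (E : Finset α) (r r' : Finset α → ℕ) : Prop where
  p : Persp E r r'
  c : Cn E r r'
  two : 2 ≤ E.card
  k : r' E < r E
  sim : ∀ e ∈ E, ∀ f ∈ E, e ≠ f → 2 ≤ r {e, f}
  cos : ∀ e ∈ E, ∀ f ∈ E, e ≠ f → r' E ≤ r' ((E.erase e).erase f)

/-- a zero factor in a single element minor -/
def Z (E : Finset α) (r r' : Finset α → ℕ) (e : α) (A : Finset α) : Prop :=
  ZF (E.erase e) r r' A ∨ ZF (E.erase e) (con r e) (con r' e) A

theorem ZF.ins (hA : ZF (E.erase e) (con r e) (con r' e) A) (h : Persp E r r') (he : e ∈ E)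
    (h1 : r' {e} = 1) : r (insert e A) = r' (insert e A) := by
  have := hA.1.1
  have := h.1.one he
  have := h.le0 {e} (by simpa)
  have := h.1.mono {e} (insert e A) (by grind) (by grind)
  have := h.2.1.mono {e} (insert e A) (by grind) (by grind)
  have := hA.2.2
  simp only [con] at this; omega

theorem Irr.step (hi : Irr E r r') (he : e ∈ E) (h1 : r (E.erase e) = r E) (h2 : r' {e} = 1)
    (hA : Z E r r' e A) (hf : f ∈ A) :
    r (E.erase f) = r E ∧ r' {f} = 1 ∧ ∀ W, e ∉ W →
      F (E.erase f) r r' W ∨ F (E.erase f) (con r f) (con r' f) W → W ⊆ A := by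
  have h := hi.p
  have hA1 : A ⊆ E.erase e := by rcases hA with a | a <;> exact a.1.1
  have hf' : f ∈ E := by grind
  have hef : e ≠ f := by grind
  obtain ⟨a1, a2, -⟩ := hi.c.r1 h hi.two he
  obtain ⟨b1, b2, -⟩ := hi.c.r1 h hi.two hf'
  have := hi.sim e he f hf' hef
  have := hi.cos e he f hf' hef
  have := h.1.er hf'
  have := h.1.zero
  have := h.2.1.zero
  have fin : ∀ W ⊆ E.erase f, e ∉ W → Sep E r (W \ A) ∧ Sep E r' (W \ A) → W ⊆ A := fun W a b c =>
    sdiff_eq_empty_iff_subset.1 (hi.c.empty he (by grind) c.1 c.2)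
  rcases hA with ⟨⟨-, s1, s2⟩, -, e0⟩ | hA
  · have := h.eq A (by grind) e0 {f} (by grind)
    have := h.eq A (by grind) e0 (A.erase f) (by grind)
    have := s1.add (h.del e).1 hA1 ((E.erase e).erase f) (A.erase f) (E.erase e \ A) (by grind)
      (by grind) (by grind)
    have := s2.add (h.del e).2.1 hA1 ((E.erase e).erase f) (A.erase f) (E.erase e \ A) (by grind)
      (by grind) (by grind)
    have := s1.add (h.del e).1 hA1 _ A (E.erase e \ A) subset_rfl (by grind) rfl
    have := s2.add (h.del e).2.1 hA1 _ A (E.erase e \ A) subset_rfl (by grind) rfl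
    have := h.2.1.mono (A.erase f) A (by grind) (by grind)
    have := h.1.mono ((E.erase e).erase f) (E.erase f) (by grind) (by grind)
    refine ⟨by omega, by omega, fun W hW hF => ?_⟩
    rcases hF with ⟨w, t1, t2⟩ | ⟨w, t1, t2⟩
    · have k := fun r (h : IsRk E r) => h.cross W (E.erase f \ W) (E.erase e \ A) A (W \ A)
        ((E.erase e).erase f) ∅ (by grind) (by grind) (by grind) (by grind) (by grind) (by grind)
        (by grind) (by grind)
      have := k r h.1
      have := k r' h.2.1
      refine fin W w hW ?_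
      unfold Sep at *; omega
    · have k := fun r (h : IsRk E r) => h.cross (insert f W) (E \ W) (E.erase e \ A) A (W \ A)
        (E.erase e) {f} (by grind) (by grind) (by grind) (by grind) (by grind) (by grind)
        (by grind) (by grind)
      have := k r h.1
      have := k r' h.2.1
      have := t1.addc h.1 hf' w E (insert f W) (E \ W) subset_rfl hf' (by grind) rfl
      have := t2.addc h.2.1 hf' w E (insert f W) (E \ W) subset_rfl hf' (by grind) rfl
      refine fin W w hW ?_
      unfold Sep; omega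
  · have e0 := hA.ins h he h2
    obtain ⟨⟨-, s1, s2⟩, -⟩ := hA
    have := h.eq _ (by grind) e0 {f} (by grind)
    have := h.eq _ (by grind) e0 {e, f} (by grind)
    have := h.eq _ (by grind) e0 ((insert e A).erase f) (by grind)
    have := s1.addc h.1 he hA1 E (insert e A) (E \ A) subset_rfl he (by grind) rfl
    have := s2.addc h.2.1 he hA1 E (insert e A) (E \ A) subset_rfl he (by grind) rfl
    have := s1.addc h.1 he hA1 (E.erase f) ((insert e A).erase f) (E \ A) (by grind) (by grind)
      (by grind) (by grind)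
    have := s2.addc h.2.1 he hA1 (E.erase f) ((insert e A).erase f) (E \ A) (by grind) (by grind)
      (by grind) (by grind)
    refine ⟨by omega, by omega, fun W hW hF => ?_⟩
    rcases hF with ⟨w, t1, t2⟩ | ⟨w, t1, t2⟩
    · have k := fun r (h : IsRk E r) => h.cross W (E.erase f \ W) (E \ A) (insert e A) (W \ A)
        (E.erase f) {e} (by grind) (by grind) (by grind) (by grind) (by grind) (by grind)
        (by grind) (by grind)
      have := k r h.1
      have := k r' h.2.1
      refine fin W w hW ?_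
      unfold Sep at *; omega
    · have k := fun r (h : IsRk E r) => h.cross (insert f W) (E \ W) (E \ A) (insert e A) (W \ A)
        E {e, f} (by grind) (by grind) (by grind) (by grind) (by grind) (by grind)
        (by grind) (by grind)
      have := k r h.1
      have := k r' h.2.1
      have := t1.addc h.1 hf' w E (insert f W) (E \ W) subset_rfl hf' (by grind) rfl
      have := t2.addc h.2.1 hf' w E (insert f W) (E \ W) subset_rfl hf' (by grind) rfl
      refine fin W w hW ?_
      unfold Sep; omega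

theorem Irr.noN (hi : Irr E r r')
    (hz : ∀ e ∈ E, r (E.erase e) = r E → r' {e} = 1 → ∃ A, Z E r r' e A) (he : e ∈ E)
    (h1 : r (E.erase e) = r E) (h2 : r' {e} = 1) : False := by
  obtain ⟨A, hA⟩ := hz e he h1 h2
  have h := hi.p
  induction hn : A.card using Nat.strong_induction_on generalizing e A with
  | _ n ih =>
  subst hn
  have hA1 : A ⊆ E.erase e := by rcases hA with a | a <;> exact a.1.1
  obtain ⟨f, hf⟩ : A.Nonempty := by rcases hA with a | a <;> exact a.2.1
  have hf' : f ∈ E := by grind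
  obtain ⟨b1, b2, b3⟩ := hi.step he h1 h2 hA hf
  obtain ⟨B, hB⟩ := hz f hf' b1 b2
  have hB1 : B ⊆ E.erase f := by rcases hB with a | a <;> exact a.1.1
  by_cases hb : e ∈ B
  swap
  · have := b3 B hb (hB.imp (·.1) (·.1))
    exact ih _ (card_lt_card ⟨this, by grind⟩) hf' b1 b2 B hB rfl
  have hW := b3 (E.erase f \ B) (by grind) (hB.imp (·.1.compl) (·.1.compl))
  have k0 : ∀ X ⊆ A, r X = r' X := by
    rcases hA with a | a
    · exact h.eq A (by grind) a.2.2
    · exact fun X hX => h.eq _ (by grind) (a.ins h he h2) X (by grind)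
  have := hi.k
  obtain ⟨c1, c2, -⟩ := hi.c.r1 h hi.two hf'
  rcases hB with a | a
  · have := k0 _ hW
    have := a.1.2.1.add (h.del f).1 hB1 _ B (E.erase f \ B) subset_rfl (by grind) rfl
    have := a.1.2.2.add (h.del f).2.1 hB1 _ B (E.erase f \ B) subset_rfl (by grind) rfl
    have := a.2.2
    omega
  · have := k0 (E \ B) (by grind)
    have := a.1.2.1.addc h.1 hf' hB1 E (insert f B) (E \ B) subset_rfl hf' (by grind) rfl
    have := a.1.2.2.addc h.2.1 hf' hB1 E (insert f B) (E \ B) subset_rfl hf' (by grind) rfl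
    have := a.ins h hf' b2
    omega

theorem Persp.tight (h : Persp E r r') (k : ℕ) (hk : r E = r' E + k) (hz : ∀ A, ¬ ZF E r r' A)
    (hs : s E r r' ≤ 2 ^ k) (h2 : ∀ A, F E r r' A → 2 ≤ A.card → r' A + 2 ≤ r A) : k = E.card := by
  induction hn : E.card using Nat.strong_induction_on generalizing E k with
  | _ n ih =>
  subst hn
  have hE : F E r r' E := ⟨subset_rfl, by simp [Sep, h.1.zero], by simp [Sep, h.2.1.zero]⟩
  by_cases hc : Cn E r r'
  · have := (h.lb k hk).2.2 hc
    have k1 : k ≤ 1 := by
      by_contra hh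
      obtain ⟨j, rfl⟩ : ∃ j, k = j + 2 := ⟨k - 2, by omega⟩
      have := two_pow_pos' j
      simp only [pow_succ] at *; omega
    have := h2 E hE
    have := h.1.1 E subset_rfl
    have : 0 < E.card → r E ≠ r' E := fun a b => hz E ⟨hE, card_pos.1 a, b⟩
    omega
  obtain ⟨A, hA, a, b⟩ := not_cn hc
  have := h.le0 A hA.1
  have := h.le0 (E \ A) sdiff_subset
  have := hA.2.1.add h.1 hA.1 E A _ subset_rfl (inter_eq_right.2 hA.1).symm rfl
  have := hA.2.2.add h.2.1 hA.1 E A _ subset_rfl (inter_eq_right.2 hA.1).symm rfl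
  have := card_sdiff_add_card_eq_card hA.1
  have := a.card_pos
  have := b.card_pos
  have z1 : ∀ B, ¬ ZF A r r' B := fun B hB => hz B ⟨F.trans h hA hB.1, hB.2⟩
  have z2 : ∀ B, ¬ ZF (E \ A) r r' B := fun B hB => hz B ⟨F.trans h hA.compl hB.1, hB.2⟩
  have l1 := ((h.res hA.1).lb (r A - r' A) (by omega)).2.1 z1
  have l2 := ((h.res sdiff_subset).lb (r (E \ A) - r' (E \ A)) (by omega)).2.1 z2
  rw [h.s_mul hA, show k = (r A - r' A) + (r (E \ A) - r' (E \ A)) by omega, pow_add] at hs
  have p1 := two_pow_pos' (r A - r' A)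
  have p2 := two_pow_pos' (r (E \ A) - r' (E \ A))
  have := ih _ (by omega) (h.res hA.1) (r A - r' A) (by omega) z1 (by nlinarith)
    (fun B hB => h2 B (F.trans h hA hB)) rfl
  have := ih _ (by omega) (h.res sdiff_subset) (r (E \ A) - r' (E \ A)) (by omega) z2 (by nlinarith)
    (fun B hB => h2 B (F.trans h hA.compl hB)) rfl
  omega

theorem IsRk.loops (h : IsRk E r) (hA : A ⊆ E) (h1 : ∀ e ∈ A, r {e} = 0) : r A = 0 := by
  induction A using Finset.induction_on with
  | empty => exact h.zero
  | insert a A ha ih =>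
    have := ih (by grind) (by grind)
    have := h1 a (by grind)
    have := h.sadd {a} A (insert a A) (by grind) (by grind) (by grind)
    omega

theorem IsRk.coloops (h : IsRk E r) (hA : A ⊆ E) (h1 : ∀ e ∈ A, r (E.erase e) ≠ r E) :
    r (E \ A) + A.card ≤ r E := by
  induction A using Finset.induction_on with
  | empty => simp
  | insert a A ha ih =>
    have := ih (by grind) (by grind)
    have := h1 a (by grind)
    have := h.er (e := a) (by grind)
    have := h.sub (E \ A) (E.erase a) E (E \ insert a A) (by grind) (by grind) (by grind) (by grind)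
    rw [card_insert_of_notMem ha]
    omega

theorem IsRk.indep (h : IsRk E r) (hA : A ⊆ E) (h1 : r A = A.card) (X) (hX : X ⊆ A) :
    r X = X.card := by
  have := h.sadd X (A \ X) A (by grind) (by grind) (by grind)
  have := h.1 X (by grind)
  have := h.1 (A \ X) (by grind)
  have := card_sdiff_add_card_eq_card hX
  omega

end Pool.Agent.H18.Per
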