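import Pool.Agent.H18.Per4

/-!
Connected extremal perspectives are listed, end of the proof.
-/

namespace Pool.Agent.H18.Per

open Finset

variable {α : Type} [DecidableEq α] {E A B C W X Y : Finset α} {r r' : Finset α → ℕ} {e f : α}

theorem Irr.ext (hi : Irr E r r') (k : ℕ) (hk : r E = r' E + (k + 1))
    (hs : s E r r' = 2 ^ (k + 1 + 1) - 2) : Ext E r r' := by
  have h := hi.p
  have hc := hi.c
  have q := two_pow_pos' k
  have r1 := fun e he => hc.r1 h hi.two (e := e) he
  have nn : ∀ e ∈ E, r (E.erase e) = r E → r' {e} = 1 → False := fun e he => by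
    refine hi.noN (fun e he c1 c2 => ?_) he
    by_contra hh
    simp only [Z, not_exists, not_or] at hh
    obtain ⟨a1, a2, -⟩ := r1 e he
    have := h.2.1.mono {e} E (by simpa) subset_rfl
    have := ((h.del e).lb (k + 1) (by omega)).2.1 fun A => (hh A).1
    have := ((h.con he).lb (k + 1) (by rw [con_top he, con_top he]; omega)).2.1 fun A => (hh A).2
    have := h.s_rec he a1 a2
    simp only [pow_succ] at *; omega
  obtain ⟨K, hK⟩ : ∃ K, K = E.filter fun e => r (E.erase e) ≠ r E := ⟨_, rfl⟩
  have hK1 : K ⊆ E := hK ▸ filter_subset _ _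
  have lp : ∀ e ∈ E \ K, r' {e} = 0 := fun e he => by
    have : r' {e} ≠ 1 := nn e (by grind) (by grind)
    have := h.2.1.one (e := e) (by grind)
    grind
  have k1 := h.1.coloops hK1 (by grind)
  have k2 := h.2.1.loops sdiff_subset lp
  have := h.1.1 K hK1
  have := h.2.1.mono K E hK1 subset_rfl
  have two := hi.two
  rcases K.eq_empty_or_nonempty with h0 | h0
  · rw [h0, sdiff_empty] at lp
    have z : ∀ X ⊆ E, r' X = 0 := fun X hX => h.2.1.loops hX fun e he => lp e (hX he)
    have := z E subset_rfl
    have key : ∀ e ∈ E, r (E.erase e) = r E ∧ r E + 1 = E.card := fun e he => by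
      obtain ⟨a1, a2, a3⟩ := r1 e he
      have := lp e he
      have := card_erase_add_one he
      have d := (h.del e).lb (k + 1) (by omega)
      have c := (h.con he).lb k (by rw [con_top he, con_top he]; omega)
      have c0 := c.2.1 fun A ⟨⟨a, _⟩, ⟨x, hx⟩, b⟩ => by
        have := z (insert e A) (by grind)
        have := hi.sim e he x (by grind) (by grind)
        have := h.1.mono {e, x} (insert e A) (by grind) (by grind)
        simp only [con] at b; omega
      have := h.s_rec he a1 a2
      have hd : s (E.erase e) r r' ≤ 2 ^ (k + 1) := by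
        rcases hc.either h he (Or.inr (lp e he)) with x | x
        · have := d.2.2 x; omega
        · have := c.2.2 x; simp only [pow_succ] at *; omega
      have := (h.del e).tight (k + 1) (by omega) (fun A => hc.no_zf_del h he (lp e he)) hd
        fun A hA h2 => by
          obtain ⟨x, hx, y, hy, hxy⟩ := one_lt_card.1 h2
          have := hA.1
          have := z A (by grind)
          have := hi.sim x (by grind) y (by grind) hxy
          have := h.1.mono {x, y} A (by grind) (by grind)
          omega
      omega
    refine Ext.circ two fun X hX => ⟨?_, z X hX⟩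
    by_cases hx : X = E
    · obtain ⟨e, he⟩ := card_pos.1 (show 0 < E.card by omega)
      have := key e he
      rw [hx]; omega
    · obtain ⟨e, he, he'⟩ := exists_of_ssubset (Finset.ssubset_iff_subset_ne.2 ⟨hX, hx⟩)
      have := key e he
      have := card_erase_add_one he
      have := h.1.indep (erase_subset e E) (by omega) X (by grind)
      have := card_lt_card (Finset.ssubset_iff_subset_ne.2 ⟨hX, hx⟩)
      omega
  · have hKE := hc K ⟨hK1, by unfold Sep; omega, by unfold Sep; omega⟩ h0
    have cl : ∀ e ∈ E, r (E.erase e) ≠ r E := by grind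
    have z : ∀ X ⊆ E, r X = X.card := h.1.indep subset_rfl (by
      have := h.1.1 E subset_rfl
      rw [hKE] at k1; omega)
    obtain ⟨e, he⟩ := card_pos.1 (show 0 < E.card by omega)
    obtain ⟨a1, a2, a3⟩ := r1 e he
    have := cl e he
    have := h.1.er he
    have := card_erase_add_one he
    have := h.2.1.mono {e} E (by simpa) subset_rfl
    have d := (h.del e).lb k (by omega)
    have ck : con r e (E.erase e) = con r' e (E.erase e) + (k + 1) := by
      rw [con_top he, con_top he]; omega
    have c := (h.con he).lb _ ck
    have d0 := d.2.1 fun A ⟨⟨a, _, s2⟩, ⟨x, hx⟩, b⟩ => by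
      have := hi.cos e he x (by grind) (by grind)
      have := s2.add (h.del e).2.1 a ((E.erase e).erase x) (A.erase x) (E.erase e \ A) (by grind)
        (by grind) (by grind)
      have := h.2.1.1 (A.erase x) (by grind)
      have := card_erase_add_one hx
      have := z A (by grind)
      unfold Sep at s2; omega
    have := h.s_rec he a1 a2
    have hd : s (E.erase e) (con r e) (con r' e) ≤ 2 ^ (k + 1) := by
      rcases hc.either h he (Or.inl (cl e he)) with x | x
      · have := d.2.2 x; simp only [pow_succ] at *; omega
      · have := c.2.2 x; omega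
    have := (h.con he).tight _ ck (fun A => hc.no_zf_con h he (cl e he) (by omega)) hd
      fun A hA h2 => by
        obtain ⟨x, hx, y, hy, hxy⟩ := one_lt_card.1 h2
        have hA1 := hA.1
        have := hi.cos x (by grind) y (by grind) hxy
        have := hA.2.2.addc h.2.1 he hA1 E (insert e A) (E \ A) subset_rfl he (by grind) rfl
        have := hA.2.2.addc h.2.1 he hA1 ((E.erase x).erase y) (insert e ((A.erase x).erase y))
          (E \ A) (by grind) (by grind) (by grind) (by grind)
        have := h.2.1.1 (insert e ((A.erase x).erase y)) (by grind)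
        have := card_insert_le e ((A.erase x).erase y)
        have := card_erase_add_one hx
        have := card_erase_add_one (show y ∈ A.erase x by grind)
        have := z (insert e A) (by grind)
        have := card_insert_of_notMem (show e ∉ A by grind)
        simp only [con]; omega
    have := z E subset_rfl
    refine Ext.free two fun X hX => ⟨z X hX, ?_⟩
    rcases X.eq_empty_or_nonempty with rfl | ⟨x, hx⟩
    · simp [h.2.1.zero]
    · have := (r1 x (hX hx)).2.2
      have := cl x (hX hx)
      have := h.2.1.mono {x} X (by simpa) hX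
      have := h.2.1.mono X E hX subset_rfl
      have := card_pos.2 ⟨x, hx⟩
      omega

theorem Persp.ext (h : Persp E r r') (hc : Cn E r r') (k : ℕ) (hk : r E = r' E + (k + 1))
    (hs : s E r r' = 2 ^ (k + 1 + 1) - 2) : Ext E r r' := by
  induction hn : E.card using Nat.strong_induction_on generalizing E r r' with
  | _ n ih =>
  subst hn
  have := h.1.1 E subset_rfl
  by_cases two : 2 ≤ E.card
  swap
  · exact Ext.one (by omega) (by omega) (by omega)
  have r1 := fun e he => hc.r1 h two (e := e) he
  by_cases h1 : ∀ e ∈ E, ∀ f ∈ E, e ≠ f → 2 ≤ r {e, f}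
  swap
  · push Not at h1
    obtain ⟨e, he, f, hf, hef, h1⟩ := h1
    obtain ⟨a1, a2, -⟩ := r1 e he
    obtain ⟨b1, -⟩ := r1 f hf
    have := h.1.mono {e} {e, f} (by grind) (by grind)
    have h3 : r {e, f} = 1 := by omega
    have := h.1.sub (E.erase e) {e, f} E {f} (by grind) (by grind) (by grind) (by grind)
    have := h.1.er he
    rw [h.s_rec he a1 a2, (h.con he).s_zero (h.zf_par he hf hef a1 h3), add_zero] at hs
    exact Ext.par e f he hf hef a1 b1 h3 (ih _ (card_erase_lt_of_mem he) (h.del e)
      (hc.par_del h he hf hef b1 h3) (by omega) hs rfl)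
  by_cases h2 : ∀ e ∈ E, ∀ f ∈ E, e ≠ f → r' E ≤ r' ((E.erase e).erase f)
  · exact Irr.ext ⟨h, hc, two, by omega, h1, h2⟩ k hk hs
  push Not at h2
  obtain ⟨e, he, f, hf, hef, h2⟩ := h2
  obtain ⟨a1, a2, -⟩ := r1 e he
  obtain ⟨b1, b2, -⟩ := r1 f hf
  have := h.2.1.sadd {e} ((E.erase e).erase f) (E.erase f) (by grind) (by grind) (by grind)
  have := h.2.1.one he
  rw [h.s_rec he a1 a2, (h.del e).s_zero (h.zf_ser hf hef (by omega)), zero_add] at hs
  exact Ext.ser e f he hf hef a2 b2 (by omega) (ih _ (card_erase_lt_of_mem he) (h.con he)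
    (hc.ser_con h he hf hef b2 h2) (by rw [con_top he, con_top he]; omega) hs rfl)

theorem isRk_min (E : Finset α) (k : ℕ) : IsRk E fun X => min X.card k := by
  refine ⟨fun X _ => ?_, fun X Y a _ => ?_, fun X _ Y _ => ?_⟩ <;> dsimp only
  · omega
  · have := card_le_card a; omega
  · have := card_union_add_card_inter X Y
    have := card_le_card (inter_subset_left (s₁ := X) (s₂ := Y))
    have := card_le_card (inter_subset_right (s₁ := X) (s₂ := Y))
    omega

theorem persp_min (E : Finset α) (k : ℕ) : Persp E (fun X => min X.card k) fun _ => 0 :=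
  ⟨isRk_min E k, by simp [IsRk], fun A B a _ => by have := card_le_card a; dsimp only; omega⟩

end Pool.Agent.H18.Per
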