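import Mathlib

/-!
Matroid perspectives, given by rank functions.
-/

namespace Pool.Agent.H18.Per

open Finset

variable {α : Type} [DecidableEq α]

/-- `r` is the rank function of a matroid on the ground set `E`. -/
def IsRk (E : Finset α) (r : Finset α → ℕ) : Prop :=
  (∀ X ⊆ E, r X ≤ X.card) ∧ (∀ X Y, X ⊆ Y → Y ⊆ E → r X ≤ r Y) ∧
    ∀ X ⊆ E, ∀ Y ⊆ E, r (X ∪ Y) + r (X ∩ Y) ≤ r X + r Y

/-- `r`, `r'` are the rank functions of a matroid perspective `M → M'` on `E`. -/
def Persp (E : Finset α) (r r' : Finset α → ℕ) : Prop :=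
  IsRk E r ∧ IsRk E r' ∧ ∀ A B, A ⊆ B → B ⊆ E → r' B + r A ≤ r B + r' A

/-- The Tutte polynomial of the perspective, evaluated at integers. -/
def tutte (E : Finset α) (r r' : Finset α → ℕ) (x y z : ℤ) : ℤ :=
  ∑ X ∈ E.powerset, (x - 1) ^ (r' E - r' X) * (y - 1) ^ (X.card - r X) *
    z ^ ((r E - r' E) - (r X - r' X))

/-- `A` is a factor: both matroids are the direct sum of their restrictions to `A` and `E \ A`. -/
def Factor (E : Finset α) (r r' : Finset α → ℕ) (A : Finset α) : Prop :=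
  A ⊆ E ∧ ∀ X ⊆ E, r X = r (X ∩ A) + r (X \ A) ∧ r' X = r' (X ∩ A) + r' (X \ A)

/-- `E` is the only non-empty factor. -/
def Conn (E : Finset α) (r r' : Finset α → ℕ) : Prop :=
  ∀ A, Factor E r r' A → A.Nonempty → A = E

/-- Rank function of the contraction of `e`. -/
def con (r : Finset α → ℕ) (e : α) (X : Finset α) : ℕ := r (insert e X) - r {e}

/-- The perspectives obtained from `U(1,1) → U(0,1)`, `U(n-1,n) → U(0,n)` or `U(n,n) → U(1,n)`
(`n ≥ 2`) by adding, one at a time, an element `e` parallel in `M` to an element `f`, or an element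
`e` in series in `M'` with an element `f`. -/
inductive Ext : Finset α → (Finset α → ℕ) → (Finset α → ℕ) → Prop
  | one {E r r'} : E.card = 1 → r E = 1 → r' E = 0 → Ext E r r'
  | circ {E r r'} : 2 ≤ E.card → (∀ X ⊆ E, r X = min X.card (E.card - 1) ∧ r' X = 0) → Ext E r r'
  | free {E r r'} : 2 ≤ E.card → (∀ X ⊆ E, r X = X.card ∧ r' X = min X.card 1) → Ext E r r'
  | par {E r r'} (e f : α) : e ∈ E → f ∈ E → e ≠ f → r {e} = 1 → r {f} = 1 → r {e, f} = 1 →
      Ext (E.erase e) r r' → Ext E r r'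
  | ser {E r r'} (e f : α) : e ∈ E → f ∈ E → e ≠ f → r' (E.erase e) = r' E → r' (E.erase f) = r' E →
      r' ((E.erase e).erase f) + 1 = r' E → Ext (E.erase e) (con r e) (con r' e) → Ext E r r'

end Pool.Agent.H18.Per
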