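import Pool.Agent.H18.PgaDefs

/-!
Coefficients of elements of `A1` and the scalar dynamics of the greedy algorithm.
-/

namespace Pool.Agent.H18.Pga

open scoped RealInnerProductSpace
open Filter Topology Finset

variable {H : Type} [NormedAddCommGroup H] [InnerProductSpace ℝ H]

/-- lower Riesz bound -/
def Low (c : ℝ) (D : Set H) : Prop :=
  ∀ (s : Finset H) (x : H → ℝ), ↑s ⊆ D → c * ∑ g ∈ s, x g ^ 2 ≤ ‖∑ g ∈ s, x g • g‖ ^ 2

theorem RB.low {C₁ C₂ : ℝ} {D : Set H} (h : RB C₁ C₂ D) (h1 : 0 ≤ C₁) : Low (C₁ ^ 2) D := by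
  intro s x hs
  have h0 : 0 ≤ ∑ g ∈ s, x g ^ 2 := sum_nonneg fun _ _ => sq_nonneg _
  have := pow_le_pow_left₀ (by positivity) (h.2 s x hs).1 2
  rwa [mul_pow, Real.sq_sqrt h0] at this

theorem coef {c : ℝ} (hc : 0 < c) {D : Set H} (hD : Low c D) {f : H} (hf : f ∈ A1 D) :
    ∃ ξ : H → ℝ, ∀ S : Finset H, ↑S ⊆ D → ∑ g ∈ S, |ξ g| ≤ 1 ∧
      (∀ w : H → ℝ, c * ∑ g ∈ S, (ξ g - w g) ^ 2 ≤ ‖f - ∑ g ∈ S, w g • g‖ ^ 2) ∧
      ∀ (h : H) (l : ℝ), 0 ≤ l → (∀ g ∈ D, |⟪h, g⟫| ≤ l) → ⟪h, f - ∑ g ∈ S, ξ g • g⟫ ≤ l := by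
  classical
  obtain ⟨F, hF, hl⟩ := mem_closure_iff_seq_limit.1 hf
  choose s x hs h1 e using hF
  let y : ℕ → H → ℝ := fun k g => if g ∈ s k then x k g else 0
  have e1 : ∀ k (T : Finset H), s k ⊆ T → F k = ∑ g ∈ T, y k g • g := fun k T hT => by
    rw [e k, ← sum_subset hT (fun g _ hg => by simp [y, hg])]
    exact sum_congr rfl fun g hg => by simp [y, hg]
  have e2 : ∀ k (T : Finset H), ∑ g ∈ T, |y k g| ≤ 1 := fun k T => by
    refine le_trans ?_ (h1 k)
    rw [← sum_subset (inter_subset_left (s₂ := s k)) (fun g h hg => by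
      have : g ∉ s k := fun h' => hg (mem_inter.2 ⟨h, h'⟩)
      simp [y, this])]
    refine le_trans (le_of_eq (sum_congr rfl fun g hg => ?_))
      (sum_le_sum_of_subset_of_nonneg inter_subset_right fun _ _ _ => abs_nonneg _)
    simp [y, (mem_inter.1 hg).2]
  have e3 : ∀ k (S : Finset H), ↑S ⊆ D → ∀ w : H → ℝ,
      c * ∑ g ∈ S, (y k g - w g) ^ 2 ≤ ‖F k - ∑ g ∈ S, w g • g‖ ^ 2 := fun k S hS w => by
    have := hD (s k ∪ S) (fun g => y k g - if g ∈ S then w g else 0)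
      (by rw [coe_union]; exact Set.union_subset (hs k) hS)
    have e4 : ∑ g ∈ s k ∪ S, (y k g - if g ∈ S then w g else 0) • g = F k - ∑ g ∈ S, w g • g := by
      simp only [sub_smul, sum_sub_distrib]
      rw [← e1 k _ subset_union_left, ← sum_subset (subset_union_right (s₁ := s k))
        (fun g _ hg => by simp [hg])]
      congr 1
      exact sum_congr rfl fun g hg => by simp [hg]
    rw [e4] at this
    refine le_trans (mul_le_mul_of_nonneg_left ?_ hc.le) this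
    refine le_trans (le_of_eq (sum_congr rfl fun g hg => ?_))
      (sum_le_sum_of_subset_of_nonneg subset_union_right fun _ _ _ => sq_nonneg _)
    simp [hg]
  have cau : ∀ g ∈ D, ∃ a, Tendsto (fun k => y k g) atTop (𝓝 a) := fun g hg => by
    refine cauchySeq_tendsto_of_complete (Metric.cauchySeq_iff.2 fun ε hε => ?_)
    obtain ⟨N, hN⟩ := Metric.cauchySeq_iff.1 hl.cauchySeq (√c * ε) (by positivity)
    refine ⟨N, fun m hm n hn => ?_⟩
    have h2 := hN m hm n hn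
    have h3 := e3 m (insert g (s n)) (by rw [coe_insert]; exact Set.insert_subset hg (hs n)) (y n)
    rw [← e1 n _ (subset_insert _ _), ← dist_eq_norm] at h3
    have h4 : (y m g - y n g) ^ 2 ≤ ∑ g ∈ insert g (s n), (y m g - y n g) ^ 2 :=
      single_le_sum (f := fun g => (y m g - y n g) ^ 2) (fun _ _ => sq_nonneg _) (mem_insert_self _ _)
    have h5 := pow_lt_pow_left₀ h2 dist_nonneg two_ne_zero
    rw [mul_pow, Real.sq_sqrt hc.le] at h5
    rw [Real.dist_eq]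
    refine abs_lt_of_sq_lt_sq (lt_of_mul_lt_mul_left ?_ hc.le) hε.le
    nlinarith
  choose! ξ hξ using cau
  refine ⟨ξ, fun S hS => ⟨?_, fun w => ?_, fun h l hl0 hh => ?_⟩⟩
  · exact le_of_tendsto' (tendsto_finset_sum S fun g hg => (hξ g (hS hg)).abs) fun k => e2 k S
  · exact le_of_tendsto_of_tendsto' ((tendsto_finset_sum S fun g hg =>
      ((hξ g (hS hg)).sub_const _).pow 2).const_mul c) ((hl.sub_const _).norm.pow 2)
      fun k => e3 k S hS w
  · refine le_of_tendsto' (Tendsto.inner tendsto_const_nhds (hl.sub (tendsto_finset_sum S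
      fun g hg => (hξ g (hS hg)).smul_const g))) fun k => ?_
    rw [e1 k (s k ∪ S) subset_union_left, ← sum_sdiff (subset_union_right (s₁ := s k)),
      add_sub_cancel_right, inner_sum]
    refine le_trans (sum_le_sum fun g hg => ?_) (le_trans (le_of_eq (sum_mul _ _ l).symm)
      (mul_le_of_le_one_left hl0 (e2 k ((s k ∪ S) \ S))))
    have hg' : g ∈ D := by
      rcases mem_union.1 (mem_sdiff.1 hg).1 with h | h
      exacts [hs k h, hS h]
    rw [inner_smul_right]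
    exact (le_abs_self _).trans (by
      rw [abs_mul]; exact mul_le_mul_of_nonneg_left (hh g hg') (abs_nonneg _))

theorem norm_le_one {D : Set H} (hD : ∀ g ∈ D, ‖g‖ = 1) {f : H} (hf : f ∈ A1 D) : ‖f‖ ≤ 1 := by
  refine closure_minimal (t := {f : H | ‖f‖ ≤ 1}) ?_ (isClosed_le continuous_norm continuous_const) hf
  rintro _ ⟨s, c, hs, h1, rfl⟩
  refine (norm_sum_le _ _).trans (le_trans (le_of_eq (sum_congr rfl fun g hg => ?_)) h1)
  rw [norm_smul, hD g (hs hg), mul_one, Real.norm_eq_abs]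

/-- the scalar data of a run -/
structure Dyn (c : ℝ) (a l W Z : ℕ → ℝ) (n : ℕ → ℕ) : Prop where
  a0 : a 0 ≤ 1
  n0 : n 0 = 0
  a_nn : ∀ t, 0 ≤ a t
  l_nn : ∀ t, 0 ≤ l t
  W_nn : ∀ t, 0 ≤ W t
  WZ : ∀ t, W t ≤ Z t
  ZW : ∀ t, Z t ≤ W t + 1
  step : ∀ t, a (t + 1) = a t - l t ^ 2
  low : ∀ t, a t ≤ l t * (1 + W t)
  cs : ∀ t, c * W t ^ 2 ≤ n t * a t
  alt : ∀ t, (n (t + 1) = n t + 1 ∧ Z t + l t ≤ Z (t + 1)) ∨ (n (t + 1) = n t ∧ Z t - l t ≤ Z (t + 1))

theorem exists_dyn {c : ℝ} (hc : 0 < c) {D : Set H} (h1 : ∀ g ∈ D, ‖g‖ = 1) (hD : Low c D) {f : H}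
    (hf : f ∈ A1 D) {r : ℕ → H} (hr : IsPGA D f r) :
    ∃ l W Z n, Dyn c (fun t => ‖r t‖ ^ 2) l W Z n := by
  classical
  obtain ⟨ξ, hξ⟩ := coef hc hD hf
  obtain ⟨r0, hr⟩ := hr
  choose φ hφ hmax hstep using hr
  let S : ℕ → Finset H := fun t => (range t).image φ
  let w : ℕ → H → ℝ := fun t g => ∑ i ∈ range t, if φ i = g then ⟪r i, φ i⟫ else 0
  have hS : ∀ t, ↑(S t) ⊆ D := fun t g hg => by
    obtain ⟨i, -, rfl⟩ := mem_image.1 (mem_coe.1 hg); exact hφ i
  have Ss : ∀ t, S (t + 1) = insert (φ t) (S t) := fun t => by simp [S, range_add_one]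
  have ws : ∀ t g, w (t + 1) g = w t g + if φ t = g then ⟪r t, φ t⟫ else 0 := fun t g =>
    sum_range_succ _ _
  have w0 : ∀ t g, g ∉ S t → w t g = 0 := fun t g hg => sum_eq_zero fun i hi =>
    if_neg fun e => hg (mem_image.2 ⟨i, hi, e⟩)
  have er : ∀ t, r t = f - ∑ g ∈ S t, w t g • g := fun t => by
    induction t with
    | zero => simp [S, r0]
    | succ t ih =>
      rw [hstep, Ss]
      simp only [ws, add_smul, sum_add_distrib, ite_smul, zero_smul]
      rw [sum_ite_eq, if_pos (mem_insert_self _ _), sum_insert_of_eq_zero_if_notMem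
        (fun h => by simp [w0 t _ h]), ← sub_sub, ← ih]
  refine ⟨fun t => |⟪r t, φ t⟫|, fun t => ∑ g ∈ S t, |ξ g - w t g|,
    fun t => ∑ g ∈ S t, (|ξ g - w t g| + |ξ g|), fun t => (S t).card, ?_, by simp [S],
    fun t => sq_nonneg _, fun t => abs_nonneg _, fun t => sum_nonneg fun _ _ => abs_nonneg _,
    fun t => sum_le_sum fun _ _ => le_add_of_nonneg_right (abs_nonneg _), fun t => ?_, fun t => ?_,
    fun t => ?_, fun t => ?_, fun t => ?_⟩
  · rw [r0]; exact pow_le_one₀ (norm_nonneg _) (norm_le_one h1 hf)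
  · rw [sum_add_distrib]; linarith [(hξ _ (hS t)).1]
  · rw [hstep, norm_sub_sq_real, inner_smul_right, norm_smul, h1 _ (hφ t), sq_abs, Real.norm_eq_abs,
      mul_one, sq_abs]
    ring
  · have e : r t = (f - ∑ g ∈ S t, ξ g • g) + ∑ g ∈ S t, (ξ g - w t g) • g := by
      simp only [sub_smul, sum_sub_distrib]; rw [er t]; abel
    have h2 := (hξ _ (hS t)).2.2 (r t) _ (abs_nonneg _) (hmax t)
    have h3 : ⟪r t, ∑ g ∈ S t, (ξ g - w t g) • g⟫ ≤ |⟪r t, φ t⟫| * ∑ g ∈ S t, |ξ g - w t g| := by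
      rw [inner_sum, mul_sum]
      refine sum_le_sum fun g hg => ?_
      rw [inner_smul_right]
      exact (le_abs_self _).trans (by
        rw [abs_mul, mul_comm]; exact mul_le_mul_of_nonneg_right (hmax t g (hS t hg)) (abs_nonneg _))
    have h4 : ‖r t‖ ^ 2 = ⟪r t, (f - ∑ g ∈ S t, ξ g • g) + ∑ g ∈ S t, (ξ g - w t g) • g⟫ := by
      rw [← e, real_inner_self_eq_norm_sq]
    rw [h4, inner_add_right]; linarith
  · have h2 := (hξ _ (hS t)).2.1 (w t)
    rw [← er t] at h2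
    have h3 := sq_sum_le_card_mul_sum_sq (s := S t) (f := fun g => |ξ g - w t g|)
    simp only [sq_abs] at h3
    have h4 : (0 : ℝ) ≤ (S t).card := Nat.cast_nonneg _
    nlinarith [mul_le_mul_of_nonneg_left h3 hc.le, mul_le_mul_of_nonneg_left h2 h4]
  · by_cases h : φ t ∈ S t
    · refine Or.inr ⟨by rw [Ss, insert_eq_of_mem h], ?_⟩
      rw [Ss, insert_eq_of_mem h, ← add_sum_erase _ _ h, ← add_sum_erase _ _ h]
      have : ∑ g ∈ (S t).erase (φ t), (|ξ g - w (t + 1) g| + |ξ g|)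
          = ∑ g ∈ (S t).erase (φ t), (|ξ g - w t g| + |ξ g|) := sum_congr rfl fun g hg => by
        rw [ws, if_neg (ne_of_mem_erase hg).symm, add_zero]
      rw [this, ws, if_pos rfl]
      have := abs_add_le (ξ (φ t) - (w t (φ t) + ⟪r t, φ t⟫)) ⟪r t, φ t⟫
      rw [show ξ (φ t) - (w t (φ t) + ⟪r t, φ t⟫) + ⟪r t, φ t⟫ = ξ (φ t) - w t (φ t) by ring] at this
      linarith
    · refine Or.inl ⟨by rw [Ss, card_insert_of_notMem h], ?_⟩
      rw [Ss, sum_insert h]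
      have : ∑ g ∈ S t, (|ξ g - w (t + 1) g| + |ξ g|)
          = ∑ g ∈ S t, (|ξ g - w t g| + |ξ g|) := sum_congr rfl fun g hg => by
        rw [ws, if_neg (fun e : φ t = g => h (e ▸ hg)), add_zero]
      rw [this, ws, if_pos rfl, w0 t _ h, zero_add]
      have := abs_sub (ξ (φ t)) (ξ (φ t) - ⟪r t, φ t⟫)
      rw [sub_sub_cancel] at this
      linarith

end Pool.Agent.H18.Pga
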