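import Pool.Agent.H18.Pga1

/-!
The Lyapunov function `n a - κ Z ^ 2` for the greedy algorithm.
-/

namespace Pool.Agent.H18.Pga

variable {c : ℝ} {a l W Z : ℕ → ℝ} {n : ℕ → ℕ}

theorem Dyn.a_le (h : Dyn c a l W Z n) (t : ℕ) : a t ≤ 1 := by
  induction t with
  | zero => exact h.a0
  | succ t ih => rw [h.step]; nlinarith [sq_nonneg (l t)]

theorem Dyn.n_le (h : Dyn c a l W Z n) (t : ℕ) : n t ≤ t := by
  induction t with
  | zero => exact h.n0.le
  | succ t ih => rcases h.alt t with e | e <;> omega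

theorem lyap {c η b a l W Z N L a' Z' : ℝ} (hc1 : c ≤ 1) (hη : 0 < η) (hηc : η ≤ c) (hb0 : 0 ≤ b)
    (hb1 : b ≤ 1) (hb : η ≤ 2 * c - η + b - 1) (hL : 2 ≤ η * L) (hP : N * a = c * L ^ 2)
    (hN : 0 ≤ N) (hl : 0 ≤ l) (hW : 0 ≤ W) (hWL : W ≤ L) (hWZ : W ≤ Z) (hZW : Z ≤ W + 1)
    (hlow : a ≤ l * (1 + W)) (ha' : a' = a - l ^ 2) (hZ' : 0 ≤ Z') :
    N * a ≤ 2 * (N * a - (c - η) / 2 * Z ^ 2) ∧
    (Z + l ≤ Z' → (N + 1) * a' - (c - η) / 2 * Z' ^ 2 ≤ N * a - (c - η) / 2 * Z ^ 2 + b * a) ∧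
    (Z - l ≤ Z' → N * a' - (c - η) / 2 * Z' ^ 2 ≤ N * a - (c - η) / 2 * Z ^ 2) := by
  have hL0 : 0 ≤ L := hW.trans hWL
  have hZ : 0 ≤ Z := hW.trans hWZ
  have hk : 0 ≤ c - η := by linarith
  have h1 : c * (L - 1) ≤ N * l := by
    by_contra h
    push Not at h
    have h2 : N * a ≤ N * l * (1 + L) := by
      have := mul_le_mul_of_nonneg_left (hlow.trans (mul_le_mul_of_nonneg_left
        (show 1 + W ≤ 1 + L by linarith) hl)) hN
      linarith
    have h3 := mul_lt_mul_of_pos_right h (show 0 < 1 + L by linarith)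
    nlinarith
  refine ⟨?_, fun h => ?_, fun h => ?_⟩
  · have h2 : Z ^ 2 ≤ (L + 1) ^ 2 := pow_le_pow_left₀ hZ (by linarith) 2
    have h3 := mul_le_mul_of_nonneg_left h2 hk
    have h4 : 2 * (L + 1) ≤ η * L * (L + 1) := mul_le_mul_of_nonneg_right hL (by linarith)
    have h5 : c * (2 * L + 1) ≤ 2 * L + 1 := mul_le_of_le_one_left (by linarith) hc1
    have h6 : 0 ≤ η * (L + 1) := by positivity
    nlinarith
  · have h2 : (Z + l) ^ 2 ≤ Z' ^ 2 := pow_le_pow_left₀ (by linarith) h 2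
    have h3 := mul_le_mul_of_nonneg_left h2 hk
    have h4 : (1 - b) * (1 + W) ≤ c * (L - 1) + (c - η) * W := by
      rcases le_total 0 (1 - b - (c - η)) with h5 | h5
      · have := mul_le_mul_of_nonneg_left hWL h5
        have := mul_le_mul_of_nonneg_right hb hL0
        nlinarith
      · have := mul_nonneg (neg_nonneg.2 h5) hW
        have := mul_le_mul_of_nonneg_right hηc hL0
        nlinarith
    have h5 := mul_le_mul_of_nonneg_left h4 hl
    have h6 := mul_le_mul_of_nonneg_left hlow (show 0 ≤ 1 - b by linarith)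
    have h7 := mul_le_mul_of_nonneg_left h1 hl
    have h8 := mul_le_mul_of_nonneg_left hWZ (mul_nonneg hk hl)
    have h9 := mul_nonneg hk (sq_nonneg l)
    subst ha'
    nlinarith [sq_nonneg l]
  · have h2 : Z ^ 2 - 2 * Z * l ≤ Z' ^ 2 := by
      rcases le_total Z l with h3 | h3
      · nlinarith [sq_nonneg Z']
      · have := pow_le_pow_left₀ (by linarith) h 2
        nlinarith [sq_nonneg l]
    have h3 := mul_le_mul_of_nonneg_left h2 hk
    have h4 : (c - η) * Z ≤ N * l := by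
      have := mul_le_mul_of_nonneg_left (show Z ≤ L + 1 by linarith) hk
      nlinarith
    have h5 := mul_le_mul_of_nonneg_left h4 hl
    subst ha'
    nlinarith

theorem growth {b N : ℝ} (hb : 0 ≤ b) (hN : 2 ≤ N) : (1 + b / N) * (N - 1) ^ b ≤ N ^ b := by
  have h0 : 0 < N := by linarith
  have h1 : 0 < N - 1 := by linarith
  have h2 := Real.log_le_sub_one_of_pos (div_pos h1 h0)
  rw [Real.log_div h1.ne' h0.ne'] at h2
  have h3 : (N - 1) / N - 1 = -(1 / N) := by field_simp; ring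
  rw [Real.rpow_def_of_pos h1, Real.rpow_def_of_pos h0]
  refine le_trans (mul_le_mul_of_nonneg_right (by linarith [Real.add_one_le_exp (b / N)] :
    1 + b / N ≤ Real.exp (b / N)) (Real.exp_pos _).le) ?_
  rw [← Real.exp_add, Real.exp_le_exp]
  have := mul_le_mul_of_nonneg_left h2 hb
  rw [h3] at this
  have e : b / N = b * (1 / N) := by ring
  nlinarith

theorem Dyn.rate {b : ℝ} (hc : 0 < c) (hc1 : c ≤ 1) (hb0 : 0 ≤ b) (hb1 : b ≤ 1)
    (hb : 1 - 2 * c < b) : ∃ K, 0 < K ∧ ∀ a l W Z n, Dyn c a l W Z n →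
      ∀ m : ℕ, 1 ≤ m → a m ≤ K * (m : ℝ) ^ (2 * b) / m := by
  obtain ⟨η, hη, hηc, hη2⟩ : ∃ η, 0 < η ∧ η ≤ c ∧ η ≤ 2 * c - η + b - 1 :=
    ⟨min c ((2 * c + b - 1) / 2), lt_min hc (by linarith), min_le_left _ _, by
      linarith [min_le_right c ((2 * c + b - 1) / 2)]⟩
  set K₀ := (2 / η) ^ 2 + 1 with hK
  have hK0 : 0 < K₀ := by positivity
  refine ⟨2 + 2 * K₀ + 4 * K₀ / c, by positivity, fun a l W Z n h m hm => ?_⟩
  let L : ℕ → ℝ := fun t => √(n t * a t / c)
  have hP : ∀ t, n t * a t = c * L t ^ 2 := fun t => by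
    rw [Real.sq_sqrt (div_nonneg (mul_nonneg (Nat.cast_nonneg _) (h.a_nn t)) hc.le)]
    field_simp
  have hL0 : ∀ t, 0 ≤ L t := fun t => Real.sqrt_nonneg _
  have hWL : ∀ t, W t ≤ L t := fun t => Real.le_sqrt_of_sq_le (by
    rw [le_div_iff₀ hc]; linarith [h.cs t])
  have small : ∀ t, η * L t < 2 → L t ^ 2 ≤ (2 / η) ^ 2 := fun t ht =>
    pow_le_pow_left₀ (hL0 t) (by rw [le_div_iff₀ hη]; linarith) 2
  have ly := fun t (ht : 2 ≤ η * L t) => lyap hc1 hη hηc hb0 hb1 hη2 ht (hP t) (Nat.cast_nonneg _)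
    (h.l_nn t) (h.W_nn t) (hWL t) (h.WZ t) (h.ZW t) (h.low t) (h.step t)
    ((h.W_nn _).trans (h.WZ (t + 1)))
  have one : ∀ x : ℝ, 1 ≤ (max 1 x) ^ (2 * b) := fun x =>
    Real.one_le_rpow (le_max_left _ _) (by linarith)
  have key : ∀ t, n t * a t - (c - η) / 2 * Z t ^ 2 ≤ K₀ * (max 1 (n t - 1 : ℝ)) ^ (2 * b) := by
    intro t
    have k0 : ∀ t, 0 ≤ (c - η) / 2 * Z t ^ 2 := fun t => mul_nonneg (by linarith) (sq_nonneg _)
    induction t with
    | zero =>
      have := k0 0
      have := mul_pos hK0 (lt_of_lt_of_le one_pos (one ((n 0 : ℝ) - 1)))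
      have : (n 0 : ℝ) * a 0 = 0 := by simp [h.n0]
      linarith
    | succ t ih =>
      by_cases ht : 2 ≤ η * L t
      · obtain ⟨h1, h2, h3⟩ := ly t ht
        rcases h.alt t with ⟨e, hz⟩ | ⟨e, hz⟩
        · have hn : (2 : ℝ) ≤ n t := by
            have e1 := mul_le_mul_of_nonneg_left (h.a_le t) (Nat.cast_nonneg (α := ℝ) (n t))
            have e2 := mul_le_mul_of_nonneg_right hηc (sq_nonneg (L t))
            have e3 := mul_le_mul_of_nonneg_right ht (hL0 t)
            have e4 := mul_le_mul_of_nonneg_right (hηc.trans hc1) (hL0 t)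
            nlinarith [hP t]
          have hn0 : (0 : ℝ) < n t := by linarith
          rw [max_eq_right (by linarith)] at ih
          rw [e, Nat.cast_succ, add_sub_cancel_right, max_eq_right (by linarith)]
          refine (h2 hz).trans (le_trans ?_ (mul_le_mul_of_nonneg_left
            (growth (b := 2 * b) (by linarith) hn) hK0.le))
          have e1 : b * a t = b / n t * (n t * a t) := by field_simp
          have e2 := mul_le_mul_of_nonneg_left (h1.trans (mul_le_mul_of_nonneg_left ih zero_le_two))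
            (div_nonneg hb0 hn0.le)
          have e3 : 2 * b / n t = 2 * (b / n t) := by ring
          rw [e1, e3]
          nlinarith
        · rw [e]; exact (h3 hz).trans ih
      · have h1 := small t (not_le.1 ht)
        have h2 : (n (t + 1) : ℝ) ≤ n t + 1 := by
          rcases h.alt t with ⟨e, -⟩ | ⟨e, -⟩ <;> simp [e]
        have h3 : a (t + 1) ≤ a t := by rw [h.step]; nlinarith [sq_nonneg (l t)]
        have h4 := mul_le_mul h2 h3 (h.a_nn _) (by positivity)
        have h5 := mul_le_mul_of_nonneg_right hc1 (sq_nonneg (L t))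
        have h6 := mul_le_mul_of_nonneg_left (one ((n (t + 1) : ℝ) - 1)) hK0.le
        have := k0 (t + 1)
        have := h.a_le t
        have := hP t
        nlinarith
  have hm1 : (1 : ℝ) ≤ m := by exact_mod_cast hm
  have hX : 1 ≤ (m : ℝ) ^ (2 * b) := Real.one_le_rpow hm1 (by linarith)
  set X := (m : ℝ) ^ (2 * b)
  set M := (2 + 2 * K₀ + 4 * K₀ / c) * X with hM
  have hq : 0 ≤ 4 * K₀ / c := by positivity
  have hM1 : 1 ≤ M := by nlinarith
  have bd : ∀ t ≤ m, (1 + W t) ^ 2 ≤ M := fun t ht => by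
    have h1 : (1 + W t) ^ 2 ≤ 2 + 2 * L t ^ 2 := by
      have := pow_le_pow_left₀ (h.W_nn t) (hWL t) 2
      nlinarith [sq_nonneg (1 - W t)]
    by_cases hl : 2 ≤ η * L t
    · have h2 := (ly t hl).1
      have h3 : (max 1 (n t - 1 : ℝ)) ^ (2 * b) ≤ X := by
        refine Real.rpow_le_rpow (by positivity) (max_le hm1 ?_) (by linarith)
        have : (n t : ℝ) ≤ m := by exact_mod_cast (h.n_le t).trans ht
        linarith
      have h4 := (key t).trans (mul_le_mul_of_nonneg_left h3 hK0.le)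
      have h5 : 2 * L t ^ 2 ≤ 4 * K₀ / c * X := by
        rw [div_mul_eq_mul_div, le_div_iff₀ hc]; nlinarith [hP t]
      nlinarith
    · have := small t (not_le.1 hl)
      nlinarith
  have fin : ∀ t ≤ m, (t + 1) * a t ≤ M := fun t ht => by
    induction t with
    | zero => simpa using h.a0.trans hM1
    | succ t ih =>
      have ih := ih (by omega)
      have h1 : a t ^ 2 ≤ l t ^ 2 * M := by
        have := pow_le_pow_left₀ (h.a_nn t) (h.low t) 2
        rw [mul_pow] at this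
        exact this.trans (mul_le_mul_of_nonneg_left (bd t (by omega)) (sq_nonneg _))
      have h0 : (0 : ℝ) ≤ t := Nat.cast_nonneg _
      rw [h.step, Nat.cast_succ]
      by_contra hh
      push Not at hh
      have ha := h.a_nn t
      have h2 : M < (t + 1 + 1) * a t := by nlinarith [sq_nonneg (l t)]
      have h3 := mul_lt_mul_of_pos_right hh (show 0 < M by linarith)
      have h4 := mul_le_mul_of_nonneg_left h1 (show (0 : ℝ) ≤ t + 1 + 1 by linarith)
      have h5 := mul_le_mul_of_nonneg_right h2.le ha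
      have h6 := mul_le_mul_of_nonneg_right ih (show 0 ≤ M by linarith)
      nlinarith
  rw [le_div_iff₀ (by linarith)]
  nlinarith [fin m le_rfl, h.a_nn m]

end Pool.Agent.H18.Pga
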