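import Pool.Agent.H18.Pga2

/-!
Upper and lower bounds for the worst error.
-/

namespace Pool.Agent.H18.Pga

open scoped RealInnerProductSpace
open Finset

theorem upper {C₁ r : ℝ} (C₂ : ℝ) (h0 : 0 < C₁) (h1 : C₁ ≤ 1) (hr0 : 0 ≤ r) (hr : r ≤ 1 / 2)
    (hc : r < 2 * C₁ ^ 2 - 1 / 2) : ∃ C, 0 < C ∧ ∀ (H : Type) [NormedAddCommGroup H]
      [InnerProductSpace ℝ H] (m : ℕ), 1 ≤ m → ∀ (D : Set H) (f : H) (R : ℕ → H),
      RB C₁ C₂ D → f ∈ A1 D → IsPGA D f R → ‖R m‖ ≤ C * (m : ℝ) ^ (-r) := by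
  obtain ⟨K, hK, h⟩ := Dyn.rate (c := C₁ ^ 2) (b := 1 / 2 - r) (by positivity)
    (pow_le_one₀ h0.le h1) (by linarith) (by linarith) (by linarith)
  refine ⟨√K, Real.sqrt_pos.2 hK, fun H _ _ m hm D f R hD hf hR => ?_⟩
  obtain ⟨l, W, Z, n, hd⟩ := exists_dyn (by positivity) hD.1.1 (hD.low h0.le) hf hR
  have h2 := h _ _ _ _ _ hd m hm
  have hm0 : (0 : ℝ) < m := by exact_mod_cast hm
  refine (sq_le_sq₀ (norm_nonneg _) (by positivity)).1 (h2.trans (le_of_eq ?_))
  rw [mul_pow, Real.sq_sqrt hK.le, mul_div_assoc, ← Real.rpow_sub_one hm0.ne', ← Real.rpow_natCast,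
    ← Real.rpow_mul hm0.le]
  congr 2
  push_cast
  ring

theorem lower {C₁ C₂ : ℝ} (h1 : C₁ ≤ 1) (h2 : 1 ≤ C₂) (H : Type) [NormedAddCommGroup H]
    [InnerProductSpace ℝ H] [CompleteSpace H] (hH : ¬ FiniteDimensional ℝ H) (m : ℕ) (hm : 1 ≤ m) :
    ∃ (D : Set H) (f : H) (R : ℕ → H), RB C₁ C₂ D ∧ f ∈ A1 D ∧ IsPGA D f R ∧
      1 / 2 * (m : ℝ) ^ (-(1 / 2) : ℝ) = ‖R m‖ := by
  classical
  obtain ⟨w, b, hb⟩ := exists_hilbertBasis ℝ H
  have ho : Orthonormal ℝ ((↑) : w → H) := hb ▸ b.orthonormal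
  have hd : (Submodule.span ℝ w).topologicalClosure = ⊤ := by
    have := b.dense_span
    rwa [hb, Subtype.range_coe] at this
  have ip : ∀ x ∈ w, ∀ y ∈ w, ⟪x, y⟫ = if x = y then 1 else 0 := fun x hx y hy => by
    have := orthonormal_iff_ite.1 ho ⟨x, hx⟩ ⟨y, hy⟩
    simpa using this
  have hinf : w.Infinite := fun hf => hH (by
    have := FiniteDimensional.span_of_finite ℝ hf
    have e : Submodule.span ℝ w = ⊤ := by
      rw [← hd, (Submodule.closed_of_finiteDimensional _).submodule_topologicalClosure_eq]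
    rw [e] at this
    exact Submodule.topEquiv.finiteDimensional)
  have nsq : ∀ (s : Finset H) (c : H → ℝ), ↑s ⊆ w → ‖∑ g ∈ s, c g • g‖ = √(∑ g ∈ s, c g ^ 2) := by
    intro s c hs
    rw [← Real.sqrt_sq (norm_nonneg _), ← real_inner_self_eq_norm_sq, sum_inner]
    congr 1
    refine sum_congr rfl fun x hx => ?_
    rw [inner_sum, sum_eq_single x (fun y hy e => by
      simp [inner_smul_left, inner_smul_right, ip x (hs hx) y (hs hy), e.symm]) (fun h => absurd hx h)]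
    simp only [inner_smul_left, inner_smul_right, ip x (hs hx) x (hs hx)]
    simp [sq]
  let e : ℕ → H := fun i => hinf.natEmbedding w i
  have ew : ∀ i, e i ∈ w := fun i => (hinf.natEmbedding w i).2
  have ei : Function.Injective e := fun i j h => (hinf.natEmbedding w).injective (Subtype.ext h)
  have hm0 : (0 : ℝ) < m := by exact_mod_cast hm
  let s : ℕ → Finset H := fun k => (Ico k (2 * m)).image e
  have sw : ∀ k, ↑(s k) ⊆ w := fun k g hg => by
    obtain ⟨i, -, rfl⟩ := mem_image.1 (mem_coe.1 hg); exact ew i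
  have sc : ∀ k, (s k).card = 2 * m - k := fun k => by rw [card_image_of_injective _ ei, Nat.card_Ico]
  let R : ℕ → H := fun k => ∑ g ∈ s k, (1 / (2 * m) : ℝ) • g
  have ipR : ∀ k, ∀ g ∈ w, ⟪R k, g⟫ = if g ∈ s k then (1 / (2 * m) : ℝ) else 0 := fun k g hg => by
    rw [sum_inner, ← sum_ite_eq' (s k) g fun _ => (1 / (2 * m) : ℝ)]
    refine sum_congr rfl fun x hx => ?_
    rw [real_inner_smul_left, ip x (sw k hx) g hg]
    split_ifs <;> simp
  refine ⟨w, R 0, R, ⟨⟨fun g hg => ho.1 ⟨g, hg⟩, Submodule.dense_iff_topologicalClosure_eq_top.2 hd⟩,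
    fun s c hs => ?_⟩, subset_closure ⟨s 0, fun _ => 1 / (2 * m), sw 0, ?_, rfl⟩,
    ⟨rfl, fun k => ⟨e k, ew k, fun g hg => ?_, ?_⟩⟩, ?_⟩
  · rw [nsq s c hs]
    exact ⟨mul_le_of_le_one_left (Real.sqrt_nonneg _) h1, le_mul_of_one_le_left (Real.sqrt_nonneg _) h2⟩
  · rw [sum_const, sc, abs_of_pos (by positivity), nsmul_eq_mul]
    simp only [Nat.sub_zero, Nat.cast_mul, Nat.cast_ofNat]
    exact le_of_eq (by field_simp)
  · rw [ipR k g hg, ipR k _ (ew k)]
    by_cases h : g ∈ s k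
    · obtain ⟨i, hi, -⟩ := mem_image.1 h
      have := mem_Ico.1 hi
      rw [if_pos h, if_pos (mem_image_of_mem _ (mem_Ico.2 ⟨le_rfl, by omega⟩))]
    · rw [if_neg h, abs_zero]; exact abs_nonneg _
  · rw [ipR k _ (ew k)]
    by_cases h : k < 2 * m
    · have e1 : s k = insert (e k) (s (k + 1)) := by
        simp only [s]; rw [← image_insert, insert_Ico_add_one_left_eq_Ico h]
      have e2 : e k ∉ s (k + 1) := fun h => by
        obtain ⟨i, hi, e⟩ := mem_image.1 h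
        have := mem_Ico.1 hi
        have := ei e
        omega
      rw [if_pos (e1 ▸ mem_insert_self _ _)]
      simp only [R]
      rw [e1, sum_insert e2, add_sub_cancel_left]
    · have e1 : ∀ j, 2 * m ≤ j → s j = ∅ := fun j hj => by simp [s, Ico_eq_empty_of_le hj]
      simp [R, e1 k (by omega), e1 (k + 1) (by omega)]
  · rw [nsq (s m) (fun _ => 1 / (2 * m)) (sw m), sum_const, sc, show 2 * m - m = m by omega,
      nsmul_eq_mul, eq_comm, Real.sqrt_eq_iff_mul_self_eq (by positivity) (by positivity),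
      mul_mul_mul_comm, ← Real.rpow_add hm0, show (-(1 / 2) + -(1 / 2) : ℝ) = -1 by norm_num,
      Real.rpow_neg_one]
    field_simp

end Pool.Agent.H18.Pga
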