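import Mathlib

/-!
The Pure Greedy Algorithm over Riesz bases.
-/

namespace Pool.Agent.H18.Pga

open scoped RealInnerProductSpace

variable {H : Type} [NormedAddCommGroup H] [InnerProductSpace ℝ H]

/-- A dictionary: unit vectors with dense linear span. -/
def IsDict (D : Set H) : Prop := (∀ g ∈ D, ‖g‖ = 1) ∧ Dense (Submodule.span ℝ D : Set H)

/-- The closure of the finite sums of elements of `D` with coefficient sum at most one. -/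
def A1 (D : Set H) : Set H :=
  closure {f | ∃ (s : Finset H) (c : H → ℝ), ↑s ⊆ D ∧ ∑ g ∈ s, |c g| ≤ 1 ∧ f = ∑ g ∈ s, c g • g}

/-- The class `RB(C₁, C₂)`. -/
def RB (C₁ C₂ : ℝ) (D : Set H) : Prop :=
  IsDict D ∧ ∀ (s : Finset H) (c : H → ℝ), ↑s ⊆ D →
    C₁ * √(∑ g ∈ s, c g ^ 2) ≤ ‖∑ g ∈ s, c g • g‖ ∧ ‖∑ g ∈ s, c g • g‖ ≤ C₂ * √(∑ g ∈ s, c g ^ 2)

/-- `r m = f - G_m` are the residuals of a realization of the Pure Greedy Algorithm. -/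
def IsPGA (D : Set H) (f : H) (r : ℕ → H) : Prop :=
  r 0 = f ∧ ∀ m, ∃ φ ∈ D, (∀ g ∈ D, |⟪r m, g⟫| ≤ |⟪r m, φ⟫|) ∧ r (m + 1) = r m - ⟪r m, φ⟫ • φ

/-- The worst error after `m` steps. -/
noncomputable def gamma (H : Type) [NormedAddCommGroup H] [InnerProductSpace ℝ H]
    (C₁ C₂ : ℝ) (m : ℕ) : ℝ :=
  sSup {x | ∃ (D : Set H) (f : H) (r : ℕ → H), RB C₁ C₂ D ∧ f ∈ A1 D ∧ IsPGA D f r ∧ x = ‖r m‖}

end Pool.Agent.H18.Pga
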