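import Mathlib

/-!
Finite algebras with a Maltsev operation and guarded symmetric operations: Chinese remainder theorem.
-/

namespace Pool.Agent.H18.Ppc

/-- abstract operations with minors -/
structure Mn : Type 1 where
  C : Type → Type
  mn : ∀ {I J : Type}, (I → J) → C I → C J
  one : C Unit

/-- an action of the abstract operations on `C` -/
structure Alg (K : Mn) (C : Type) : Type 1 where
  act : ∀ {I : Type}, K.C I → (I → C) → C
  minor : ∀ {I J : Type} (α : I → J) (f : K.C I) (x : J → C), act (K.mn α f) x = act f (x ∘ α)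
  one : ∀ x, act K.one x = x ()

/-- idempotent, Maltsev, guarded symmetric -/
structure Nice (K : Mn) : Prop where
  idem : ∀ {C : Type} (a : Alg K C) {I : Type} (f : K.C I) (c : C), a.act f (fun _ => c) = c
  malt : ∃ m : K.C (Fin 3), ∀ {C : Type} (a : Alg K C) (x y : C),
    a.act m ![x, y, y] = x ∧ a.act m ![y, y, x] = x
  sym : ∀ n, ∃ s : K.C (Option (Fin (n + 1))), ∀ {C : Type} (a : Alg K C) (x : C),
    (∀ (y : Fin (n + 1) → C) (σ : Equiv.Perm (Fin (n + 1))),
      a.act s (fun o => o.elim x (y ∘ σ)) = a.act s (fun o => o.elim x y)) ∧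
    ∀ y, a.act s (fun o => o.elim x fun _ => y) = y

variable {K : Mn} {C : Type}

/-- congruences -/
def Alg.Cong (a : Alg K C) (θ : Setoid C) : Prop :=
  ∀ ⦃I : Type⦄ (f : K.C I) (x y : I → C), (∀ i, θ (x i) (y i)) → θ (a.act f x) (a.act f y)

theorem Alg.Cong.inf {a : Alg K C} {α β : Setoid C} (h1 : a.Cong α) (h2 : a.Cong β) :
    a.Cong (α ⊓ β) := fun _ f x y h => ⟨h1 f x y fun i => (h i).1, h2 f x y fun i => (h i).2⟩

theorem Nice.malt' (hK : Nice K) (a : Alg K C) : ∃ M : C → C → C → C, (∀ x y, M x y y = x) ∧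
    (∀ x y, M y y x = x) ∧ (∀ θ, a.Cong θ → ∀ x y z x' y' z', θ x x' → θ y y' → θ z z' →
      θ (M x y z) (M x' y' z')) := by
  obtain ⟨m, hm⟩ := hK.malt
  exact ⟨fun x y z => a.act m ![x, y, z], fun x y => (hm a x y).1, fun x y => (hm a x y).2,
    fun θ h x y z x' y' z' h1 h2 h3 => h m _ _ fun i => by fin_cases i <;> simpa⟩

theorem Nice.crt3 (hK : Nice K) [Finite C] (a : Alg K C) {α β γ : Setoid C} (hα : a.Cong α)
    (hβ : a.Cong β) (hγ : a.Cong γ) {u v w : C} (h1 : α u v) (h2 : β u w) (h3 : γ v w) :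
    ∃ d, α u d ∧ β u d ∧ γ d v := by
  obtain ⟨M, m1, m2, mc⟩ := hK.malt' a
  have ma := mc α hα
  have mb := mc β hβ
  have mg := mc γ hγ
  let ρ : C → C → Prop := fun p q => ∃ s t, γ p s ∧ α s t ∧ β s t ∧ γ t q
  have one : ∀ p q, ρ p q → ∃ t, α p t ∧ β p t ∧ γ t q := fun p q ⟨s, t, a1, a2, a3, a4⟩ =>
    ⟨M p s t, by simpa [m1] using ma p s s p s t (α.refl _) (α.refl _) a2,
      by simpa [m1] using mb p s s p s t (β.refl _) (β.refl _) a3,
      by simpa [m2] using mg p s t s s q a1 (γ.refl _) a4⟩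
  have rf : ∀ p, ρ p p := fun p => ⟨p, p, γ.refl _, α.refl _, β.refl _, γ.refl _⟩
  have sy : ∀ p q, ρ p q → ρ q p := fun p q ⟨s, t, a1, a2, a3, a4⟩ =>
    ⟨t, s, γ.symm a4, α.symm a2, β.symm a3, γ.symm a1⟩
  have tr : ∀ p q r, ρ p q → ρ q r → ρ p r := fun p q r ⟨s, t, a1, a2, a3, a4⟩ b => by
    obtain ⟨s', t', b1, b2, b3, b4⟩ := b
    obtain ⟨t'', c1, c2, c3⟩ := one t r ⟨s', t', γ.trans a4 b1, b2, b3, b4⟩
    exact ⟨s, t'', a1, α.trans a2 c1, β.trans a3 c2, c3⟩
  have cp : ∀ c p q, ρ p q → ρ (M c u p) (M c u q) := fun c p q ⟨s, t, a1, a2, a3, a4⟩ =>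
    ⟨M c u s, M c u t, mg _ _ _ _ _ _ (γ.refl _) (γ.refl _) a1,
      ma _ _ _ _ _ _ (α.refl _) (α.refl _) a2, mb _ _ _ _ _ _ (β.refl _) (β.refl _) a3,
      mg _ _ _ _ _ _ (γ.refl _) (γ.refl _) a4⟩
  let Z : C → Prop := fun z => (∃ x, β x u ∧ γ x z) ∧ ∃ y, α y u ∧ γ y z
  have zu : Z u := ⟨⟨u, β.refl _, γ.refl _⟩, u, α.refl _, γ.refl _⟩
  have zv : Z v := ⟨⟨w, β.symm h2, γ.symm h3⟩, v, α.symm h1, γ.refl _⟩
  have zf : ∀ {I : Type} (f : K.C I) (z : I → C), (∀ i, Z (z i)) → Z (a.act f z) := fun f z h => by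
    choose x x1 x2 using fun i => (h i).1
    choose y y1 y2 using fun i => (h i).2
    exact ⟨⟨_, hK.idem a f u ▸ hβ f _ _ x1, hγ f _ _ x2⟩, _, hK.idem a f u ▸ hα f _ _ y1, hγ f _ _ y2⟩
  have zm : ∀ c z, Z c → Z z → Z (M c u z) := fun c z ⟨⟨x, x1, x2⟩, y, y1, y2⟩
    ⟨⟨x', x3, x4⟩, y', y3, y4⟩ =>
    ⟨⟨M x u x', by simpa [m1] using mb _ _ _ _ _ _ x1 (β.refl u) x3, mg _ _ _ _ _ _ x2 (γ.refl _) x4⟩,
      M y u y', by simpa [m1] using ma _ _ _ _ _ _ y1 (α.refl u) y3, mg _ _ _ _ _ _ y2 (γ.refl _) y4⟩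
  have pa : ∀ x y, α y u → α (M x u y) x := fun x y h => by
    simpa [m1] using ma x u y x u u (α.refl _) (α.refl _) h
  have pb : ∀ x y, β x u → β (M x u y) y := fun x y h => by
    simpa [m2] using mb x u y u u y h (β.refl _) (β.refl _)
  have hom : ∀ {I : Type} (f : K.C I) (z z' : I → C), (∀ i, Z (z i)) → (∀ i, Z (z' i)) →
      ρ (a.act f fun i => M (z i) u (z' i)) (M (a.act f z) u (a.act f z')) := fun f z z' h h' => by
    choose x x1 x2 using fun i => (h i).1
    choose y y1 y2 using fun i => (h' i).2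
    refine ⟨a.act f fun i => M (x i) u (y i), M (a.act f x) u (a.act f y),
      hγ f _ _ fun i => mg _ _ _ _ _ _ (γ.symm (x2 i)) (γ.refl _) (γ.symm (y2 i)), ?_, ?_,
      mg _ _ _ _ _ _ (hγ f _ _ x2) (γ.refl _) (hγ f _ _ y2)⟩
    · exact α.trans (hα f _ _ fun i => pa _ _ (y1 i)) (α.symm (pa _ _ (hK.idem a f u ▸ hα f _ _ y1)))
    · exact β.trans (hβ f _ _ fun i => pb _ _ (x1 i)) (β.symm (pb _ _ (hK.idem a f u ▸ hβ f _ _ x1)))
  have can : ∀ c z z', Z c → Z z → Z z' → ρ (M c u z) (M c u z') → ρ z z' :=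
    fun c z z' ⟨⟨x, x1, x2⟩, _⟩ ⟨_, y, y1, y2⟩ ⟨_, y', y3, y4⟩ ⟨s, t, a1, a2, a3, a4⟩ => by
    obtain ⟨r, b1, b2, b3⟩ := one (M x u y) (M x u y') ⟨s, t,
      γ.trans (mg _ _ _ _ _ _ x2 (γ.refl _) y2) a1, a2, a3,
      γ.trans a4 (mg _ _ _ _ _ _ (γ.symm x2) (γ.refl _) (γ.symm y4))⟩
    refine ⟨y, M y' (M x u y') r, γ.symm y2, ?_, ?_, ?_⟩
    · have := ma y' (M x u y') r y' x x (α.refl _) (pa _ _ y3) (α.trans (α.symm b1) (pa _ _ y1))
      rw [m1] at this
      exact α.trans (α.trans y1 (α.symm y3)) (α.symm this)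
    · have := mb y' (M x u y') r y' y' y (β.refl _) (pb _ _ x1) (β.trans (β.symm b2) (pb _ _ x1))
      rw [m2] at this
      exact β.symm this
    · simpa [m1] using mg y' (M x u y') r z' r r y4 (γ.symm b3) (γ.refl _)
  obtain ⟨n, hn⟩ : ∃ n, (Nat.card C).factorial = n + 1 :=
    Nat.exists_eq_succ_of_ne_zero (Nat.factorial_ne_zero _)
  have per : ∀ c, Z c → ρ ((M c u)^[n + 1] u) u := fun c hc => by
    have zs : ∀ k z, Z z → Z ((M c u)^[k] z) := fun k z hz => by
      induction k with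
      | zero => exact hz
      | succ k ih => rw [Function.iterate_succ_apply']; exact zm _ _ hc ih
    have c1 : ∀ k z, Z z → ρ ((M c u)^[k] z) ((M c u)^[k] u) → ρ z u := fun k z hz h => by
      induction k with
      | zero => exact h
      | succ k ih =>
        simp only [Function.iterate_succ_apply'] at h
        exact ih (can c _ _ hc (zs k z hz) (zs k u zu) h)
    have c2 : ∀ k z, ρ z u → ρ ((M c u)^[k] z) ((M c u)^[k] u) := fun k z h => by
      induction k with
      | zero => exact h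
      | succ k ih => simp only [Function.iterate_succ_apply']; exact cp _ _ _ ih
    have := Fintype.ofFinite C
    obtain ⟨i, j, hij, e⟩ : ∃ i j, i < j ∧ j ≤ Nat.card C ∧ (M c u)^[i] u = (M c u)^[j] u := by
      obtain ⟨i, j, h1, h2⟩ := Fintype.exists_ne_map_eq_of_card_lt
        (fun i : Fin (Nat.card C + 1) => (M c u)^[i] u) (by simp)
      rcases lt_or_gt_of_ne h1 with h | h
      exacts [⟨i, j, h, by omega, h2⟩, ⟨j, i, h, by omega, h2.symm⟩]
    obtain ⟨p, rfl⟩ := Nat.exists_eq_add_of_lt hij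
    have c3 : ρ ((M c u)^[p + 1] u) u := c1 i _ (zs _ _ zu) (by
      rw [← Function.iterate_add_apply, ← add_assoc, ← e.2]; exact rf _)
    obtain ⟨k, hk⟩ : p + 1 ∣ n + 1 := hn ▸ Nat.dvd_factorial (by omega) (by omega)
    rw [hk]
    clear hk
    induction k with
    | zero => exact rf _
    | succ k ih => rw [Nat.mul_succ, Function.iterate_add_apply]; exact tr _ _ _ (c2 _ _ c3) ih
  obtain ⟨s, hs⟩ := hK.sym n
  obtain ⟨s1, s2⟩ := hs a u
  let E : Fin (n + 1) → Option (Fin (n + 1)) → C := fun k o => o.elim u fun i => if i = k then v else u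
  let W : ℕ → Option (Fin (n + 1)) → C := fun k o => o.elim u fun i => if i.1 < k then v else u
  have ze : ∀ k o, Z (E k o) := fun k o => by
    cases o <;> simp only [E, Option.elim] <;> [skip; split_ifs] <;> assumption
  have zw : ∀ k o, Z (W k o) := fun k o => by
    cases o <;> simp only [W, Option.elim] <;> [skip; split_ifs] <;> assumption
  have e1 : ∀ k, a.act s (E k) = a.act s (E 0) := fun k => by
    rw [← s1 _ (Equiv.swap 0 k)]
    congr 1
    funext o
    cases o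
    · rfl
    · simp only [E, Option.elim, Function.comp, Equiv.swap_apply_eq_iff, Equiv.swap_apply_right]
  have key : ∀ k ≤ n + 1, ρ (a.act s (W k)) ((M (a.act s (E 0)) u)^[k] u) := fun k hk => by
    induction k with
    | zero => simp only [W, Nat.not_lt_zero, if_false, s2]; exact rf _
    | succ k ih =>
      rw [Function.iterate_succ_apply']
      refine tr _ _ _ ?_ (cp _ _ _ (ih (by omega)))
      have := hom s _ _ (ze ⟨k, hk⟩) (zw k)
      rw [e1] at this
      have e : W (k + 1) = fun o => M (E ⟨k, hk⟩ o) u (W k o) := by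
        funext o
        cases o with
        | none => exact (m1 u u).symm
        | some i =>
          simp only [W, E, Option.elim, Fin.ext_iff]
          split_ifs <;> first | omega | simp only [m1, m2]
      rwa [e]
  have k := key _ le_rfl
  simp only [W, Fin.is_lt, if_true, s2] at k
  exact one u v (sy _ _ (tr _ _ _ k (per _ (zf s _ (ze 0)))))

theorem Nice.crt (hK : Nice K) [Finite C] [Nonempty C] (a : Alg K C) (L : List (Setoid C × C))
    (h1 : ∀ p ∈ L, a.Cong p.1) (h2 : ∀ p ∈ L, ∀ q ∈ L, ∃ c, p.1 c p.2 ∧ q.1 c q.2) :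
    ∃ c, ∀ p ∈ L, p.1 c p.2 := by
  induction hn : L.length generalizing L with
  | zero => rw [List.length_eq_zero_iff] at hn; simp [hn]
  | succ n ih =>
    match L, hn with
    | [p], _ => exact ⟨p.2, by simp⟩
    | p :: q :: L, hn =>
      obtain ⟨u, u1, u2⟩ := h2 p (by simp) q (by simp)
      have k : ∀ r ∈ L, ∃ c, (p.1 ⊓ q.1) c u ∧ r.1 c r.2 := fun r hr => by
        obtain ⟨v, v1, v2⟩ := h2 p (by simp) r (by simp [hr])
        obtain ⟨w, w1, w2⟩ := h2 q (by simp) r (by simp [hr])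
        obtain ⟨d, d1, d2, d3⟩ := hK.crt3 a (h1 p (by simp)) (h1 q (by simp)) (h1 r (by simp [hr]))
          (p.1.trans u1 (p.1.symm v1)) (q.1.trans u2 (q.1.symm w1)) (r.1.trans v2 (r.1.symm w2))
        exact ⟨d, ⟨p.1.symm d1, q.1.symm d2⟩, r.1.trans d3 v2⟩
      obtain ⟨c, hc⟩ := ih ((p.1 ⊓ q.1, u) :: L) (fun r hr => by
        rcases List.mem_cons.1 hr with rfl | hr
        exacts [(h1 p (by simp)).inf (h1 q (by simp)), h1 r (by simp [hr])]) (fun r hr t ht => by
        rcases List.mem_cons.1 hr with rfl | hr <;> rcases List.mem_cons.1 ht with rfl | ht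
        · exact ⟨u, Setoid.refl' _ _, Setoid.refl' _ _⟩
        · exact k t ht
        · exact (k r hr).imp fun _ h => h.symm
        · exact h2 r (by simp [hr]) t (by simp [ht])) (by simpa using hn)
      have := hc _ List.mem_cons_self
      refine ⟨c, fun r hr => ?_⟩
      rcases List.mem_cons.1 hr with rfl | hr
      · exact r.1.trans this.1 u1
      rcases List.mem_cons.1 hr with rfl | hr
      · exact r.1.trans this.2 u2
      · exact hc r (by simp [hr])

end Pool.Agent.H18.Ppc
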