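import Pool.Agent.H18.Ppc1

/-!
A natural choice of a point in every small algebra equipped with a function.
-/

namespace Pool.Agent.H18.Ppc

open Function

theorem Nice.join {K : Mn} {C : Type} (hK : Nice K) (a : Alg K C) {α β : Setoid C} (h1 : a.Cong α)
    (h2 : a.Cong β) : ∃ η : Setoid C, a.Cong η ∧ ∀ p q, η p q ↔ ∃ c, α c p ∧ β c q := by
  obtain ⟨m, m1, m2, mc⟩ := hK.malt' a
  have sy : ∀ {p q}, (∃ c, α c p ∧ β c q) → ∃ c, α c q ∧ β c p := fun {p q} ⟨c, e1, e2⟩ =>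
    ⟨m p c q, by simpa [m2] using mc _ h1 p c q p p q (α.refl _) e1 (α.refl _),
      by simpa [m1] using mc _ h2 p c q p q q (β.refl _) e2 (β.refl _)⟩
  refine ⟨⟨fun p q => ∃ c, α c p ∧ β c q, fun p => ⟨p, α.refl _, β.refl _⟩, sy,
    fun ⟨c, e1, e2⟩ ⟨d, e3, e4⟩ => ?_⟩, fun _ f x y h => ?_, fun _ _ => Iff.rfl⟩
  · obtain ⟨t, t1, t2⟩ := sy ⟨_, α.symm e3, β.symm e2⟩
    exact ⟨t, α.trans t1 e1, β.trans t2 e4⟩
  · choose c c1 c2 using h
    exact ⟨a.act f c, h1 f _ _ c1, h2 f _ _ c2⟩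

theorem Nice.crt' {K : Mn} {C S : Type} (hK : Nice K) [Finite C] [Nonempty C] (a : Alg K C)
    [Finite S] (θ : S → Setoid C) (y : S → C) (h1 : ∀ s, a.Cong (θ s))
    (h2 : ∀ s t, ∃ c, θ s c (y s) ∧ θ t c (y t)) : ∃ c, ∀ s, θ s c (y s) := by
  have := Fintype.ofFinite S
  simpa using hK.crt a ((Finset.univ : Finset S).toList.map fun s => (θ s, y s))
    (by simpa using h1) (by simpa using h2)

/-- a family of non-constant functions closed under minors -/
structure FM (X : Type) : Type 1 where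
  P : ∀ {I : Type}, ((I → X) → X) → Prop
  minor : ∀ {I J : Type} (α : I → J) (φ : (I → X) → X), P φ → P fun x : J → X => φ (x ∘ α)
  nc : ∀ {I : Type} (φ : (I → X) → X), P φ → ∃ x y, φ x ≠ φ y

/-- a finite algebra with a function indexed by it -/
structure Obj (K : Mn) {X : Type} (M : FM X) : Type 1 where
  C : Type
  fin : Finite C
  a : Alg K C
  φ : (C → X) → X
  p : M.P φ

attribute [instance] Obj.fin

variable {K : Mn} {X : Type} {M : FM X} {U V W : Obj K M}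

/-- morphisms -/
def Mor (U V : Obj K M) (α : U.C → V.C) : Prop :=
  (∀ ⦃I : Type⦄ (f : K.C I) (x : I → U.C), α (U.a.act f x) = V.a.act f (α ∘ x)) ∧
    ∀ x, V.φ x = U.φ (x ∘ α)

theorem Obj.ne (U : Obj K M) : Nonempty U.C := by
  obtain ⟨x, y, h⟩ := M.nc _ U.p
  by_contra h1
  exact h (congrArg _ (funext fun c => absurd ⟨c⟩ h1))

theorem Obj.neX (U : Obj K M) : Nonempty X := by
  obtain ⟨x, y, h⟩ := M.nc _ U.p
  exact ⟨U.φ x⟩

theorem Mor.id (U : Obj K M) : Mor U U id := ⟨fun _ _ _ => rfl, fun _ => rfl⟩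

theorem Mor.comp {α β} (h1 : Mor U V α) (h2 : Mor V W β) : Mor U W (β ∘ α) :=
  ⟨fun _ f x => by rw [comp_apply, h1.1, h2.1]; rfl, fun x => by rw [h2.2, h1.2]; rfl⟩

theorem Mor.of_surj {q α β} (h1 : Mor U V q) (hq : Surjective q) (h2 : Mor U W α) (e : β ∘ q = α) :
    Mor V W β := by
  subst e
  refine ⟨fun _ f x => ?_, fun x => by rw [h2.2, h1.2]; rfl⟩
  obtain ⟨y, rfl⟩ := hq.comp_left x
  exact (congrArg β (h1.1 f y).symm).trans (h2.1 f y)

theorem Mor.of_inj {ι α β} (h1 : Mor V W ι) (hi : Injective ι) (h2 : Mor U W α) (e : ι ∘ β = α) :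
    Mor U V β := by
  subst e
  refine ⟨fun _ f x => hi ((h2.1 f x).trans (h1.1 f _).symm), fun x => ?_⟩
  obtain ⟨d⟩ := U.neX
  have := h1.2 (extend ι x fun _ => d)
  rw [h2.2, ← comp_assoc, extend_comp hi] at this
  exact this.symm

/-- quotient -/
noncomputable def Obj.quot (U : Obj K M) (θ : Setoid U.C) : Obj K M where
  C := Quotient θ
  fin := inferInstance
  a := ⟨fun f x => Quotient.mk θ (U.a.act f fun i => (x i).out),
    fun α f x => congrArg _ (U.a.minor α f _), fun x => by rw [U.a.one, Quotient.out_eq]⟩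
  φ := fun x => U.φ (x ∘ Quotient.mk θ)
  p := M.minor _ _ U.p

theorem Obj.quot_mor (U : Obj K M) {θ : Setoid U.C} (h : U.a.Cong θ) :
    Mor U (U.quot θ) (Quotient.mk θ) :=
  ⟨fun _ f x => Quotient.sound (h f _ _ fun i => θ.symm (Quotient.mk_out (x i))), fun _ => rfl⟩

theorem Mor.cong {α} (h : Mor U V α) : U.a.Cong (Setoid.ker α) := fun _ f x y e => by
  rw [Setoid.ker_def, h.1, h.1]
  exact congrArg _ (funext e)

theorem Mor.fac {α} (h : Mor U V α) : ∃ (Q : Obj K M) (q : U.C → Q.C) (β : Q.C → V.C), Mor U Q q ∧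
    Mor Q V β ∧ Surjective q ∧ Injective β ∧ β ∘ q = α :=
  ⟨U.quot (Setoid.ker α), _, Quotient.lift α fun _ _ e => e, U.quot_mor h.cong,
    (U.quot_mor h.cong).of_surj Quotient.mk_surjective h rfl, Quotient.mk_surjective,
    fun a b => Quotient.inductionOn₂ a b fun _ _ e => Quotient.sound e, rfl⟩

theorem Obj.sub (U : Obj K M) (J : Set U.C)
    (h1 : ∀ ⦃I : Type⦄ (f : K.C I) (x : I → U.C), (∀ i, x i ∈ J) → U.a.act f x ∈ J)
    (h2 : ∀ x y : U.C → X, (∀ c ∈ J, x c = y c) → U.φ x = U.φ y) :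
    ∃ (V : Obj K M) (ι : V.C → U.C), Mor V U ι ∧ Injective ι ∧ ∀ c, ι c ∈ J := by
  classical
  obtain ⟨j, hj⟩ : J.Nonempty := by
    obtain ⟨x, y, h⟩ := M.nc _ U.p
    by_contra h3
    exact h (h2 x y fun c hc => absurd ⟨c, hc⟩ h3)
  exact ⟨⟨J, inferInstance, ⟨fun f x => ⟨U.a.act f fun i => x i, h1 f _ fun i => (x i).2⟩,
    fun α f x => Subtype.ext (U.a.minor α f _), fun x => Subtype.ext (U.a.one _)⟩, _,
    M.minor (fun c => if h : c ∈ J then (⟨c, h⟩ : J) else ⟨j, hj⟩) _ U.p⟩, Subtype.val,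
    ⟨fun _ _ _ => rfl, fun x => h2 _ _ fun c hc => by simp [hc]⟩, Subtype.val_injective,
    fun c => c.2⟩

/-- naturality on objects of size at most `j` -/
def Natl (j : ℕ) (h : ∀ U : Obj K M, U.C) : Prop :=
  ∀ U V : Obj K M, ∀ α, Mor U V α → Nat.card U.C ≤ j → Nat.card V.C ≤ j → h V = α (h U)

variable {j : ℕ} {h : ∀ U : Obj K M, U.C}

theorem Natl.uniq (hh : Natl j h) {α β} (h1 : Mor V U α) (h2 : Mor W U β) (c1 : Nat.card V.C ≤ j)
    (c2 : Nat.card W.C ≤ j) : α (h V) = β (h W) := by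
  obtain ⟨V', q, α', a1, a2, a3, a4, rfl⟩ := h1.fac
  obtain ⟨W', r, β', b1, b2, b3, b4, rfl⟩ := h2.fac
  have c3 := (Nat.card_le_card_of_surjective _ a3).trans c1
  have c4 := (Nat.card_le_card_of_surjective _ b3).trans c2
  rw [comp_apply, comp_apply, ← hh _ _ _ a1 c1 c3, ← hh _ _ _ b1 c2 c4]
  obtain ⟨d⟩ := U.neX
  obtain ⟨J, ι, d1, d2, d3⟩ := V'.sub (α' ⁻¹' Set.range β') (fun _ f x hx => by
    choose y hy using hx
    exact ⟨W'.a.act f y, by rw [b2.1, a2.1]; exact congrArg _ (funext hy)⟩) fun x y e => by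
      have k : ∀ x, V'.φ x = W'.φ ((extend α' x fun _ => d) ∘ β') := fun x => by
        rw [← b2.2, a2.2, extend_comp a4]
      rw [k, k]
      congr 1
      funext w
      by_cases hw : ∃ v, α' v = β' w
      · obtain ⟨v, hv⟩ := hw
        simp only [comp_apply, ← hv, a4.extend_apply]
        exact e v ⟨w, hv.symm⟩
      · simp only [comp_apply, extend_apply' _ _ _ hw]
  choose κ hκ using d3
  have c5 := (Nat.card_le_card_of_injective _ d2).trans c3
  rw [hh _ _ _ d1 c5 c3, hh _ _ _ (b2.of_inj b4 (d1.comp a2) (funext hκ)) c5 c4, hκ]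

/-- admissible values on an object of size `j + 1` -/
def Good (j : ℕ) (h : ∀ U : Obj K M, U.C) (U : Obj K M) (c : U.C) : Prop :=
  (∀ σ : U.C ≃ U.C, Mor U U σ → σ c = c) ∧ (∀ V α, Mor U V α → Nat.card V.C ≤ j → h V = α c) ∧
    ∀ V α, Mor V U α → Nat.card V.C ≤ j → c = α (h V)

theorem Natl.good (hh : Natl j h) (hK : Nice K) (U : Obj K M)
    (hx : ∃ x, ∀ σ : U.C ≃ U.C, Mor U U σ → σ x = x) : ∃ c, Good j h U c := by
  by_cases h0 : ∃ V α, Mor V U α ∧ Nat.card V.C ≤ j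
  · obtain ⟨V, α, h1, h2⟩ := h0
    exact ⟨α (h V), fun σ a => hh.uniq (h1.comp a) h1 h2 h2, fun W β a b => hh _ _ _ (h1.comp a) h2 b,
      fun W β a b => hh.uniq h1 a h2 b⟩
  have := U.ne
  obtain ⟨y, hy⟩ : ∃ y, ∀ V α, Mor U V α → Nat.card V.C ≤ j → h V = α y := by
    have : Finite (Setoid U.C) := Finite.of_injective (fun θ : Setoid U.C => θ.r) fun _ _ e =>
      Setoid.ext fun a b => iff_of_eq (congrFun (congrFun e a) b)
    have k : ∀ θ : {θ : Setoid U.C // U.a.Cong θ ∧ Nat.card (Quotient θ) ≤ j}, ∃ y, ∀ V α,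
        Mor U V α → Nat.card V.C ≤ j → (∀ p q, θ.1 p q → α p = α q) → h V = α y := fun θ => by
      obtain ⟨y, hy⟩ := Quotient.exists_rep (h (U.quot θ.1))
      exact ⟨y, fun V α a b c => by
        rw [hh _ _ _ ((U.quot_mor θ.2.1).of_surj (β := Quotient.lift α c) Quotient.mk_surjective a
          rfl) θ.2.2 b, ← hy]; rfl⟩
    choose y hy using k
    obtain ⟨c, hc⟩ := hK.crt' U.a (fun θ => θ.1) y (fun θ => θ.2.1) fun θ θ' => by
      obtain ⟨η, e1, e2⟩ := hK.join U.a θ.2.1 θ'.2.1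
      have l1 : ∀ p q, θ.1 p q → Quotient.mk η p = Quotient.mk η q := fun p q e =>
        Quotient.sound ((e2 _ _).2 ⟨q, θ.1.symm e, θ'.1.refl _⟩)
      have l2 : ∀ p q, θ'.1 p q → Quotient.mk η p = Quotient.mk η q := fun p q e =>
        Quotient.sound ((e2 _ _).2 ⟨p, θ.1.refl _, e⟩)
      have c : Nat.card (U.quot η).C ≤ j := (Nat.card_le_card_of_surjective
        (Quotient.lift (Quotient.mk η) l1) fun x => by
          obtain ⟨x, rfl⟩ := Quotient.exists_rep x
          exact ⟨Quotient.mk _ x, rfl⟩).trans θ.2.2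
      exact (e2 _ _).1 (Quotient.exact ((hy θ _ _ (U.quot_mor e1) c l1).symm.trans
        (hy θ' _ _ (U.quot_mor e1) c l2)))
    refine ⟨c, fun V α a b => ?_⟩
    have c1 : Nat.card (Quotient (Setoid.ker α)) ≤ j := (Nat.card_le_card_of_injective
      (Quotient.lift α fun _ _ e => e)
        fun a b => Quotient.inductionOn₂ a b fun _ _ e => Quotient.sound e).trans b
    exact (hy ⟨_, a.cong, c1⟩ V α a b fun _ _ e => e).trans (hc ⟨_, a.cong, c1⟩).symm
  obtain ⟨x, hx⟩ := hx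
  let H := {σ : U.C ≃ U.C // Mor U U σ}
  have : Nonempty H := ⟨⟨Equiv.refl _, Mor.id U⟩⟩
  obtain ⟨n, hn⟩ : ∃ n, Nat.card H = n + 1 := Nat.exists_eq_succ_of_ne_zero Nat.card_pos.ne'
  obtain ⟨s, hs⟩ := hK.sym n
  let e : H ≃ Fin (n + 1) := Finite.equivFinOfCardEq hn
  refine ⟨U.a.act s fun o => o.elim x fun i => (e.symm i).1 y, fun σ a => ?_, fun V α a b => ?_,
    fun V α a b => absurd ⟨V, α, a, b⟩ h0⟩
  · let t : H → H := fun τ => ⟨τ.1.trans σ, τ.2.comp a⟩
    have ht : Bijective t := Finite.injective_iff_bijective.1 fun τ τ' e => Subtype.ext <|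
      Equiv.ext fun c => σ.injective (congrArg (fun z : H => z.1 c) e)
    rw [a.1, ← (hs U.a x).1 _ (e.symm.trans ((Equiv.ofBijective t ht).trans e))]
    congr 1
    funext o
    cases o with
    | none => exact hx σ a
    | some i => simp [t]
  · rw [a.1, ← (hs V.a (α x)).2 (h V)]
    congr 1
    funext o
    cases o with
    | none => rfl
    | some i => exact hy V _ ((e.symm i).2.comp a) b

theorem Mor.symm {e : U.C ≃ V.C} (h : Mor U V e) : Mor V U e.symm :=
  h.of_surj e.surjective (Mor.id U) e.symm_comp_self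

theorem Natl.step (hh : Natl j h) (hK : Nice K) (hx : ∀ U : Obj K M, Nat.card U.C = j + 1 →
    ∃ x, ∀ σ : U.C ≃ U.C, Mor U U σ → σ x = x) : ∃ h' : ∀ U : Obj K M, U.C, Natl (j + 1) h' := by
  classical
  let S : Setoid (Obj K M) := ⟨fun U V => ∃ e : U.C ≃ V.C, Mor U V e,
    fun U => ⟨Equiv.refl _, Mor.id U⟩, fun ⟨e, a⟩ => ⟨e.symm, a.symm⟩,
    fun ⟨e, a⟩ ⟨e', b⟩ => ⟨e.trans e', a.comp b⟩⟩
  have k1 : ∀ U : Obj K M, ∃ c, Nat.card U.C = j + 1 → Good j h U c := fun U => by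
    by_cases a : Nat.card U.C = j + 1
    · exact (hh.good hK U (hx U a)).imp fun _ b _ => b
    · exact ⟨U.ne.some, fun b => absurd b a⟩
  choose c hc using k1
  have k2 : ∀ U : Obj K M, ∃ d : U.C, Nat.card U.C = j + 1 → ∀ R : Obj K M,
      R = (Quotient.mk S U).out → ∀ e : R.C ≃ U.C, Mor R U e → d = e (c R) := fun U => by
    obtain ⟨e, he⟩ : S _ _ := Quotient.mk_out (s := S) U
    refine ⟨e (c _), fun a R hR e' he' => ?_⟩
    subst hR
    have := (hc _ ((Nat.card_congr e).trans a)).1 (e.trans e'.symm) (he.comp he'.symm)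
    exact e'.symm_apply_eq.1 this
  choose d hd using k2
  have k3 : ∀ U : Obj K M, Nat.card U.C = j + 1 → Good j h U (d U) := fun U a => by
    obtain ⟨e, he⟩ : S _ _ := Quotient.mk_out (s := S) U
    obtain ⟨g1, g2, g3⟩ := hc _ ((Nat.card_congr e).trans a)
    refine ⟨fun σ b => ?_, fun V α b l => ?_, fun V α b l => ?_⟩
    · rw [hd U a _ rfl e he]
      exact (hd U a _ rfl (e.trans σ) (he.comp b)).symm.trans (hd U a _ rfl e he)
    · rw [hd U a _ rfl e he]; exact g2 V _ (he.comp b) l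
    · rw [hd U a _ rfl e he, g3 V _ (b.comp he.symm) l]; simp
  refine ⟨fun U => if Nat.card U.C = j + 1 then d U else h U, fun U V α a c1 c2 => ?_⟩
  by_cases b1 : Nat.card U.C = j + 1 <;> by_cases b2 : Nat.card V.C = j + 1 <;>
    simp only [b1, b2, if_true, if_false]
  · by_cases hi : Injective α
    · have hb : Bijective α := (Nat.bijective_iff_injective_and_card α).2 ⟨hi, by omega⟩
      obtain ⟨e, he⟩ : S _ _ := Quotient.mk_out (s := S) U
      rw [hd U b1 _ rfl e he]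
      exact hd V b2 _ (congrArg Quotient.out (Quotient.sound ⟨Equiv.ofBijective α hb, a⟩))
        (e.trans (Equiv.ofBijective α hb)) (he.comp a)
    · obtain ⟨Q, q, β, a1, a2, a3, a4, rfl⟩ := a.fac
      have : Nat.card Q.C ≤ j := by
        have := Nat.card_le_card_of_surjective _ a3
        by_contra l
        exact hi (a4.comp ((Nat.bijective_iff_surjective_and_card q).2 ⟨a3, by omega⟩).1)
      rw [(k3 V b2).2.2 Q β a2 this, (k3 U b1).2.1 Q q a1 this]; rfl
  · exact (k3 U b1).2.1 V α a (by omega)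
  · exact (k3 V b2).2.2 U α a (by omega)
  · exact hh U V α a (by omega) (by omega)

theorem Nice.natl (hK : Nice K) (N : ℕ) (hx : ∀ U : Obj K M, Nat.card U.C ≤ N →
    ∃ x, ∀ σ : U.C ≃ U.C, Mor U U σ → σ x = x) : ∃ h : ∀ U : Obj K M, U.C, Natl N h := by
  induction N with
  | zero => exact ⟨fun U => U.ne.some, fun U V α _ a _ => by
      have := U.ne; have := Nat.card_pos (α := U.C); omega⟩
  | succ N ih =>
    obtain ⟨h, hh⟩ := ih fun U a => hx U (by omega)
    exact hh.step hK fun U a => hx U a.le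

end Pool.Agent.H18.Ppc
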