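import Pool.Agent.H18.PpcDefs

/-!
Constructions and polymorphisms.
-/

namespace Pool.Agent.H18.Ppc

open Function

attribute [instance] Str.fin Str.finσ

variable {S T : Str} {V W : Type}

theorem PP.of_eq {P Q : Set (V → S.A)} (h : PP S V P) (e : ∀ a, a ∈ P ↔ a ∈ Q) : PP S V Q :=
  Set.ext e ▸ h

theorem mem_of {A : Type} (P : Set (V → A)) {a b} (h : a ∈ P) (e : ∀ v, a v = b v) : b ∈ P :=
  funext e ▸ h

theorem PP.ren {P : Set (V → S.A)} (h : PP S V P) (e : V → W) : PP S W {a | a ∘ e ∈ P} := by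
  induction h generalizing W with
  | rel s v => exact PP.rel s (e ∘ v)
  | eq i j => exact PP.eq (e i) (e j)
  | tru => exact PP.tru
  | and _ _ a b => exact (a e).and (b e)
  | @ex V P _ a =>
    exact (a (Option.map e)).ex.of_eq fun x => exists_congr fun y =>
      ⟨fun h => mem_of P h fun o => by cases o <;> rfl, fun h => mem_of P h fun o => by cases o <;> rfl⟩

theorem PP.all {ι : Type} [Finite ι] {P : ι → Set (V → S.A)} (h : ∀ i, PP S V (P i)) :
    PP S V {a | ∀ i, a ∈ P i} := by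
  induction ι using Finite.induction_empty_option with
  | of_equiv e ih => exact (ih fun i => h (e i)).of_eq fun a => e.forall_congr_right (q := fun i => a ∈ P i)
  | h_empty => exact PP.tru.of_eq (by simp)
  | h_option ih => exact ((h none).and (ih fun i => h (some i))).of_eq fun a =>
      (Option.forall (p := fun i => a ∈ P i)).symm

theorem PP.exs [Finite W] {P : Set (V ⊕ W → S.A)} (h : PP S _ P) :
    PP S V {a | ∃ b, Sum.elim a b ∈ P} := by
  induction W using Finite.induction_empty_option with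
  | of_equiv e ih =>
    refine (ih (h.ren (Sum.map id e.symm))).of_eq fun a => ⟨fun ⟨b, hb⟩ => ⟨b ∘ e.symm, ?_⟩,
      fun ⟨b, hb⟩ => ⟨b ∘ e, ?_⟩⟩
    · exact mem_of P hb fun o => by cases o <;> rfl
    · exact mem_of P hb fun o => by cases o <;> simp
  | h_empty =>
    refine (h.ren (Sum.elim id PEmpty.elim)).of_eq fun a => ⟨fun hb => ⟨PEmpty.elim, ?_⟩,
      fun ⟨b, hb⟩ => ?_⟩
    · exact mem_of P hb fun o => by rcases o with _ | ⟨⟨⟩⟩; rfl
    · exact mem_of P hb fun o => by rcases o with _ | ⟨⟨⟩⟩; rfl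
  | h_option ih =>
    refine (ih (h.ren (Sum.elim (fun v => some (Sum.inl v))
      fun o => o.map Sum.inr)).ex).of_eq fun a => ⟨fun ⟨b, x, hb⟩ => ⟨fun o => o.elim x b, ?_⟩,
      fun ⟨b, hb⟩ => ⟨b ∘ some, b none, ?_⟩⟩
    · exact mem_of P hb fun o => by rcases o with _ | _ | _ <;> rfl
    · exact mem_of P hb fun o => by rcases o with _ | _ | _ <;> rfl

theorem PP.pol {I : Type} [Finite I] (v : (I → S.A) → V) : PP S V {a | Pol S (a ∘ v)} :=
  (PP.all fun s => PP.all fun t : {t : I → Fin (S.ar s) → S.A // ∀ i, t i ∈ S.R s} =>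
    PP.rel s fun k => v fun i => t.1 i k).of_eq fun _ => forall_congr' fun _ => Subtype.forall

theorem Pol.minor {I J : Type} {f : (I → S.A) → S.A} (h : Pol S f) (α : I → J) :
    Pol S fun x : J → S.A => f (x ∘ α) := fun s t ht => h s (t ∘ α) fun i => ht (α i)

theorem constructs_of (h : ∀ f : (T.A → S.A) → S.A, Pol S f → T.A)
    (H : ∀ s (ψ : (T.R s → S.A) → S.A) (hψ : Pol S ψ),
      (fun k => h _ (hψ.minor fun t => t.1 k)) ∈ T.R s) : Constructs S T := by
  obtain ⟨n, ⟨e⟩⟩ := Finite.exists_equiv_fin (T.A → S.A)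
  refine ⟨n, {a | Pol S (a ∘ e)}, fun s => {a | ∃ ψ : (T.R s → S.A) → S.A, Pol S ψ ∧
    ∀ k x, a (k, e x) = ψ fun t => x (t.1 k)}, PP.pol e, fun s => ?_,
    ⟨fun a => h _ a.2, fun s t ⟨ψ, h1, h2⟩ => ?_⟩, fun b => ⟨fun j => e.symm j b, fun s t ht => ?_⟩,
    fun s t ht => ⟨fun x => x ⟨t, ht⟩, fun s t ht => ht _, fun k x => by simp⟩⟩
  · exact ((PP.pol Sum.inr).and (PP.all fun k => PP.all fun x : T.A → S.A =>
      PP.eq (Sum.inl (k, e x)) (Sum.inr fun t : T.R s => x (t.1 k)))).exs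
  · have := H s ψ h1
    refine mem_of _ this fun k => ?_
    have : ((t k).1 ∘ e) = fun x => ψ (x ∘ fun t => t.1 k) := funext (h2 k)
    simp only [comp_apply, this]
  · simpa using ht b

theorem PP.pres {P : Set (V → S.A)} (h : PP S V P) {I : Type} {f : (I → S.A) → S.A} (hf : Pol S f)
    (t : I → V → S.A) (ht : ∀ i, t i ∈ P) : (fun v => f fun i => t i v) ∈ P := by
  induction h with
  | rel s v => exact hf s _ ht
  | eq i j => exact congrArg f (funext ht)
  | tru => trivial
  | and _ _ a b => exact ⟨a t fun i => (ht i).1, b t fun i => (ht i).2⟩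
  | @ex V P _ a =>
    choose x hx using ht
    exact ⟨f x, mem_of P (a _ hx) fun o => by cases o <;> rfl⟩

theorem Constructs.transfer (h : Constructs S T) {I : Type} {f : (I → S.A) → S.A} (hf : Pol S f) :
    ∃ g : (I → T.A) → T.A, Pol T g ∧ ∀ (J : Type) (α β : I → J),
      (∀ x : J → S.A, f (x ∘ α) = f (x ∘ β)) → ∀ x : J → T.A, g (x ∘ α) = g (x ∘ β) := by
  obtain ⟨n, D, Φ, h1, h2, ⟨p, hp⟩, q, hq⟩ := h
  refine ⟨fun a => p ⟨_, h1.pres hf (fun i => (q (a i)).1) fun i => (q (a i)).2⟩, fun s t ht =>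
    hp s _ ((h2 s).pres hf _ fun i => hq s _ (ht i)), fun J α β e x => congrArg p (Subtype.ext ?_)⟩
  exact funext fun j => e fun i => (q (x i)).1 j

theorem Constructs.conds (h : Constructs S T) (h1 : CondM S) (h2 : CondS S) : CondM T ∧ CondS T := by
  refine ⟨?_, fun n hn => ?_⟩
  · obtain ⟨f, hf, e⟩ := h1
    obtain ⟨g, hg, k⟩ := h.transfer hf
    have c : ∀ {A : Type} (x : Fin 2 → A) (a b c), x ∘ ![a, b, c] = ![x a, x b, x c] :=
      fun x a b c => funext fun i => by fin_cases i <;> rfl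
    refine ⟨g, hg, fun x y => ⟨?_, ?_⟩⟩
    · simpa [c] using k _ ![0, 1, 1] ![0, 0, 0] (fun x => by simpa [c] using (e _ _).1) ![x, y]
    · simpa [c] using k _ ![0, 0, 0] ![1, 1, 0] (fun x => by simpa [c] using (e _ _).2) ![x, y]
  · obtain ⟨f, hf, e1, e2⟩ := h2 n hn
    obtain ⟨g, hg, k⟩ := h.transfer hf
    refine ⟨g, hg, fun x y σ => ?_, fun a b y => ?_⟩
    · have c : ∀ {A : Type} (x : Option (Fin n) → A), x = fun o => o.elim (x none) (x ∘ some) :=
        fun x => funext fun o => by cases o <;> rfl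
      have d : ∀ {A : Type} (x : Option (Fin n) → A), x ∘ Option.map σ =
          fun o => o.elim (x none) ((x ∘ some) ∘ σ) := fun x => funext fun o => by cases o <;> rfl
      have := k _ id (Option.map σ) (fun x => by rw [d, ← e1, ← c]; rfl) fun o => o.elim x y
      rwa [d] at this
    · have d : ∀ {A : Type} (x : Fin 3 → A) (i), x ∘ (fun o : Option (Fin n) => o.elim i fun _ => 2) =
          fun o => o.elim (x i) fun _ => x 2 := fun x i => funext fun o => by cases o <;> rfl
      have := k _ (fun o => o.elim 0 fun _ => 2) (fun o => o.elim 1 fun _ => 2)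
        (fun x => by rw [d, d, e2]) ![a, b, y]
      rwa [d, d] at this

theorem conds_of (H : ∀ {I : Type} (f : (I → S.A) → S.A) (c : (I → S.A) → I), (∀ x, f x = x (c x)) →
    (∀ x y : I → S.A, (∀ i j, x i = x j ↔ y i = y j) → c x = c y) → Pol S f) :
    CondM S ∧ CondS S := by
  classical
  refine ⟨⟨_, H _ (fun x : Fin 3 → S.A => if x 0 = x 1 then 2 else 0) (fun _ => rfl)
    fun x y e => by simp only [e], fun x y => ?_⟩, fun n hn => ⟨_, H _
      (fun x => if ∀ i j, x (some i) = x (some j) then some ⟨0, hn⟩ else none) (fun _ => rfl)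
    fun x y e => by simp only [e], fun x y σ => ?_, fun a b y => by simp⟩⟩
  · by_cases e : x = y <;> simp [e]
  · by_cases e : ∀ i j, y i = y j
    · simp [e, e _ ⟨0, hn⟩]
    · have : ¬ ∀ i j, y (σ i) = y (σ j) := fun k => e fun i j => by simpa using k (σ.symm i) (σ.symm j)
      simp [e, this]

end Pool.Agent.H18.Ppc
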