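import Pool.Agent.H18.Ppc2
import Pool.Agent.H18.Ppc3

/-!
Cores and the normalised polymorphisms.
-/

namespace Pool.Agent.H18.Ppc

open Function

variable {S T : Str}

/-- endomorphisms -/
def End (S : Str) (u : S.A → S.A) : Prop := ∀ s, ∀ t ∈ S.R s, u ∘ t ∈ S.R s

theorem End.comp {u v} (h1 : End S u) (h2 : End S v) : End S (u ∘ v) := fun s t ht =>
  h1 s _ (h2 s t ht)

theorem End.iter {u} (h : End S u) (k : ℕ) : End S u^[k] := by
  induction k with
  | zero => exact fun _ _ h => h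
  | succ k ih => exact ih.comp h

theorem iter_id {A : Type} [Finite A] (w : A → A) (B : Set A) (h1 : Set.MapsTo w B B)
    (h2 : B.ncard ≤ (w '' B).ncard) : ∃ k, ∀ b ∈ B, w^[k + 1] b = b := by
  have h3 : Set.BijOn w B B := by
    have e : w '' B = B := Set.eq_of_subset_of_ncard_le h1.image_subset h2
    exact ⟨h1, Set.injOn_of_ncard_image_eq (by rw [e]), e.ge⟩
  let σ : Equiv.Perm B := h3.equiv w
  obtain ⟨k, hk⟩ := Nat.exists_eq_succ_of_ne_zero (orderOf_pos σ).ne'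
  have : ∀ k (b : B), ((σ ^ k) b : A) = w^[k] b := fun k b => by
    induction k with
    | zero => rfl
    | succ k ih => rw [pow_succ', iterate_succ_apply', ← ih]; rfl
  exact ⟨k, fun b hb => by rw [← this _ ⟨b, hb⟩, ← Nat.succ_eq_add_one, ← hk, pow_orderOf_eq_one]; rfl⟩

theorem core (S : Str) : ∃ e, End S e ∧ (∀ a, e (e a) = e a) ∧ ∀ u, End S u → ∃ v, End S v ∧
    (∀ a, v (u (e a)) = e a) ∧ ∀ a, e (v a) = v a := by
  obtain ⟨⟨e, he⟩, hm⟩ := @exists_minimalFor_of_wellFoundedLT {u // End S u} ℕ _ _ (fun _ => True)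
    (fun u => (Set.range u.1).ncard) ⟨⟨id, fun _ _ h => h⟩, trivial⟩
  have key : ∀ u, End S u → ∃ k, ∀ b ∈ Set.range e, (e ∘ u)^[k + 1] b = b := fun u hu =>
    iter_id _ _ (fun _ _ => ⟨_, rfl⟩) (by
      rw [← Set.range_comp]
      exact not_lt.1 fun h => h.not_ge (hm.2 (j := ⟨_, (he.comp hu).comp he⟩) trivial h.le))
  obtain ⟨k, hk⟩ := key id fun _ _ h => h
  rw [comp_id] at hk
  have r : ∀ a, e^[k + 1] a ∈ Set.range e := fun a => by rw [iterate_succ_apply']; exact ⟨_, rfl⟩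
  refine ⟨e^[k + 1], he.iter _, fun a => hk _ (r a), fun u hu => ?_⟩
  obtain ⟨l, hl⟩ := key u hu
  exact ⟨e^[k + 1] ∘ (e ∘ u)^[l] ∘ e, (he.iter _).comp (((he.comp hu).iter _).comp he),
    fun a => (congrArg _ (hl _ (r a))).trans (hk _ (r a)), fun a => hk _ (r _)⟩

theorem Pol.diag {I : Type} {f : (I → S.A) → S.A} (h : Pol S f) : End S fun a => f fun _ => a :=
  fun s t ht => h s (fun _ => t) fun _ => ht

/-- normalised polymorphisms -/
def KK (S : Str) (e : S.A → S.A) (he : End S e) (h2 : ∀ a, e (e a) = e a) : Mn where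
  C := fun I => {f : (I → S.A) → S.A // Pol S f ∧ (∀ a, f (fun _ => a) = e a) ∧ ∀ x, e (f x) = f x}
  mn := fun α f => ⟨_, f.2.1.minor α, f.2.2.1, fun _ => f.2.2.2 _⟩
  one := ⟨fun x => e (x ()), fun s t ht => he s _ (ht ()), fun _ => rfl, fun _ => h2 _⟩

theorem Alg.tr {K : Mn} {C : Type} (a : Alg K C) {I J : Type} {f : K.C I} {α : I → J} {j : J}
    (h : K.mn α f = K.mn (fun _ => j) K.one) (x : J → C) : a.act f (x ∘ α) = x j := by
  rw [← a.minor, h, a.minor, a.one]; rfl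

theorem setup (S : Str) (h1 : CondM S) (h2 : CondS S) : ∃ (e : S.A → S.A) (he : End S e)
    (h2 : ∀ a, e (e a) = e a), Nice (KK S e he h2) ∧
    ∃ nm : ∀ {I : Type} (f : (I → S.A) → S.A), Pol S f → (KK S e he h2).C I,
      ∀ {I J : Type} (f : (I → S.A) → S.A) (hf : Pol S f) (α : I → J),
        nm _ (hf.minor α) = (KK S e he h2).mn α (nm f hf) := by
  obtain ⟨e, he, e2, hv⟩ := core S
  choose v v1 v2 v3 using hv
  let nm : ∀ {I : Type} (f : (I → S.A) → S.A), Pol S f → (KK S e he e2).C I := fun f hf =>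
    ⟨fun x => v _ hf.diag (f (e ∘ x)), fun s t ht => v1 _ hf.diag s _ (hf s _ fun i => he s _ (ht i)),
      v2 _ hf.diag, fun _ => v3 _ _ _⟩
  refine ⟨e, he, e2, ⟨fun a _ f c => a.tr (α := fun _ => ()) (j := ())
    (Subtype.ext (funext fun x => f.2.2.1 _)) fun _ => c, ?_, fun n => ?_⟩, nm, fun _ _ _ => rfl⟩
  · obtain ⟨f, hf, k⟩ := h1
    have c : ∀ {A : Type} (x : Fin 2 → A) (a b c), x ∘ ![a, b, c] = ![x a, x b, x c] :=
      fun x a b c => funext fun i => by fin_cases i <;> rfl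
    have d : ∀ a : S.A, ![a, a, a] = fun _ => a := fun a => funext fun i => by fin_cases i <;> rfl
    refine ⟨nm f hf, fun a x y => ⟨?_, ?_⟩⟩
    · simpa [c] using a.tr (f := nm f hf) (α := ![0, 1, 1]) (j := 0) (Subtype.ext (funext fun x => by
        show v _ _ (f ((e ∘ x) ∘ _)) = _
        rw [c, (k _ _).1, d]; exact v2 _ hf.diag _)) ![x, y]
    · simpa [c] using a.tr (f := nm f hf) (α := ![1, 1, 0]) (j := 0) (Subtype.ext (funext fun x => by
        show v _ _ (f ((e ∘ x) ∘ _)) = _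
        rw [c, ← (k _ _).2, d]; exact v2 _ hf.diag _)) ![x, y]
  · obtain ⟨f, hf, k1, k2⟩ := h2 (n + 1) (by omega)
    refine ⟨nm f hf, fun {C} a x => ⟨fun y σ => ?_, fun y => ?_⟩⟩
    · have c : ∀ {A : Type} (x : Option (Fin (n + 1)) → A), x = fun o => o.elim (x none) (x ∘ some) :=
        fun x => funext fun o => by cases o <;> rfl
      have d : ∀ {A : Type} (x : Option (Fin (n + 1)) → A), x ∘ Option.map σ =
          fun o => o.elim (x none) ((x ∘ some) ∘ σ) := fun x => funext fun o => by cases o <;> rfl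
      have := a.minor (Option.map σ) (nm f hf) fun o => o.elim x y
      rw [d, show (KK S e he e2).mn (Option.map σ) (nm f hf) = nm f hf from
        Subtype.ext (funext fun x => by
          show v _ _ (f ((e ∘ x) ∘ _)) = v _ _ (f (e ∘ x))
          rw [d, ← k1, ← c])] at this
      exact this.symm
    · have d : ∀ {A : Type} (x : Fin 2 → A), x ∘ (fun o : Option (Fin (n + 1)) =>
          o.elim 0 fun _ => 1) = fun o => o.elim (x 0) fun _ => x 1 :=
        fun x => funext fun o => by cases o <;> rfl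
      have := a.tr (f := nm f hf) (α := fun o => o.elim 0 fun _ => 1) (j := 1)
        (Subtype.ext (funext fun x => by
          show v _ _ (f ((e ∘ x) ∘ _)) = _
          rw [d, k2 _ ((e ∘ x) 1)]
          exact (congrArg (fun z => v _ hf.diag (f z)) (funext fun o => by cases o <;> rfl)).trans
            (v2 _ hf.diag _))) ![x, y]
      rwa [d] at this

theorem back {e : S.A → S.A} {he : End S e} {h2 : ∀ a, e (e a) = e a} (hK : Nice (KK S e he h2)) :
    ∃ N : ℕ, ∀ (T : Str) (nc : ∀ {I : Type} (φ : (I → T.A) → T.A), Pol T φ → ∃ x y, φ x ≠ φ y),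
    (∀ U : Obj (KK S e he h2) (⟨Pol T, fun α _ h => h.minor α, nc⟩ : FM T.A), Nat.card U.C ≤ N →
      ∃ x, ∀ σ : U.C ≃ U.C, Mor U U σ → σ x = x) → Constructs T S := by
  obtain ⟨N, hN⟩ := Finite.exists_le fun s => Nat.card (S.R s)
  refine ⟨N + Nat.card S.A, fun T nc hx => ?_⟩
  obtain ⟨h, hh⟩ := hK.natl _ hx
  let B : ∀ φ : (S.A → T.A) → T.A, Pol T φ →
      Obj (KK S e he h2) (⟨Pol T, fun α _ h => h.minor α, nc⟩ : FM T.A) := fun φ hφ =>
    ⟨{a // e a = a}, inferInstance, ⟨fun f x => ⟨f.1 fun i => x i, f.2.2.2 _⟩, fun _ _ _ => rfl,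
      fun x => Subtype.ext (x ()).2⟩, fun x => φ fun a => x ⟨e a, h2 a⟩,
      hφ.minor fun a => (⟨e a, h2 a⟩ : {a // e a = a})⟩
  refine constructs_of (fun φ hφ => (h (B φ hφ)).1) fun s ψ hψ => ?_
  let R : Obj (KK S e he h2) (⟨Pol T, fun α _ h => h.minor α, nc⟩ : FM T.A) :=
    ⟨{t : S.R s // e ∘ t.1 = t.1}, inferInstance, ⟨fun f x => ⟨⟨fun k => f.1 fun i => (x i).1.1 k,
      f.2.1 s _ fun i => (x i).1.2⟩, funext fun _ => f.2.2.2 _⟩, fun _ _ _ => rfl,
      fun x => Subtype.ext (Subtype.ext (x ()).2)⟩,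
      fun x => ψ fun t => x ⟨⟨e ∘ t.1, he s _ t.2⟩, funext fun _ => h2 _⟩,
      hψ.minor fun t => (⟨⟨e ∘ t.1, he s _ t.2⟩, funext fun _ => h2 _⟩ :
        {t : S.R s // e ∘ t.1 = t.1})⟩
  refine mem_of _ (h R).1.2 fun k => (congrArg Subtype.val (hh R (B _ (hψ.minor fun t => t.1 k))
    (fun t => ⟨t.1.1 k, congrFun t.2 k⟩) ⟨fun _ _ _ => rfl, fun _ => rfl⟩ ?_ ?_)).symm
  · exact (Finite.card_subtype_le _).trans ((hN s).trans (Nat.le_add_right _ _))
  · exact (Finite.card_subtype_le _).trans (Nat.le_add_left _ _)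

end Pool.Agent.H18.Ppc
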