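import Mathlib

/-!
Finite structures, primitive positive constructions, polymorphisms.
-/

namespace Pool.Agent.H18.Ppc

/-- a finite relational structure with finitely many relations -/
structure Str : Type 1 where
  A : Type
  fin : Finite A
  σ : Type
  finσ : Finite σ
  ar : σ → ℕ
  R : ∀ s, Set (Fin (ar s) → A)

/-- `PP S V P`: the set `P` of assignments to the variables `V` is defined in `S` by a pp-formula -/
inductive PP (S : Str) : (V : Type) → Set (V → S.A) → Prop
  | rel {V : Type} (s : S.σ) (v : Fin (S.ar s) → V) : PP S V {a | a ∘ v ∈ S.R s}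
  | eq {V : Type} (i j : V) : PP S V {a | a i = a j}
  | tru {V : Type} : PP S V Set.univ
  | and {V : Type} {P Q : Set (V → S.A)} : PP S V P → PP S V Q → PP S V (P ∩ Q)
  | ex {V : Type} {P : Set (Option V → S.A)} : PP S (Option V) P →
      PP S V {a | ∃ x, (fun o : Option V => o.elim x a) ∈ P}

/-- `S` pp-constructs `T` -/
def Constructs (S T : Str) : Prop :=
  ∃ (n : ℕ) (D : Set (Fin n → S.A)) (Φ : ∀ s : T.σ, Set (Fin (T.ar s) × Fin n → S.A)),
    PP S _ D ∧ (∀ s, PP S _ (Φ s)) ∧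
    (∃ p : D → T.A, ∀ s (t : Fin (T.ar s) → D), (fun k => (t k.1).1 k.2) ∈ Φ s → p ∘ t ∈ T.R s) ∧
    ∃ q : T.A → D, ∀ s, ∀ t ∈ T.R s, (fun k => (q (t k.1)).1 k.2) ∈ Φ s

/-- `f` is a polymorphism of `S` with arguments indexed by `I` -/
def Pol (S : Str) {I : Type} (f : (I → S.A) → S.A) : Prop :=
  ∀ s (t : I → Fin (S.ar s) → S.A), (∀ i, t i ∈ S.R s) → (fun k => f fun i => t i k) ∈ S.R s

/-- the structure of a finite group acting on a finite set -/
def perm (G X : Type) [Group G] [Finite G] [Finite X] [MulAction G X] : Str :=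
  ⟨X, inferInstance, G, inferInstance, fun _ => 2, fun g => {t | t 1 = g • t 0}⟩

/-- the single edge -/
def P1 : Str := ⟨Fin 2, inferInstance, Unit, inferInstance, fun _ => 2, fun _ => {t | t 0 < t 1}⟩

/-- condition (M) -/
def CondM (S : Str) : Prop := ∃ f : (Fin 3 → S.A) → S.A, Pol S f ∧
  ∀ x y, f ![x, y, y] = f ![x, x, x] ∧ f ![x, x, x] = f ![y, y, x]

/-- condition (S); the argument `none` is the guard -/
def CondS (S : Str) : Prop := ∀ n, 1 ≤ n → ∃ f : (Option (Fin n) → S.A) → S.A, Pol S f ∧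
  (∀ x (y : Fin n → S.A) (σ : Equiv.Perm (Fin n)),
    f (fun o => o.elim x y) = f fun o => o.elim x (y ∘ σ)) ∧
  ∀ x₁ x₂ y, f (fun o => o.elim x₁ fun _ => y) = f fun o => o.elim x₂ fun _ => y

end Pool.Agent.H18.Ppc
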