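import Pool.Agent.H18.QpDefs

namespace Pool.Agent.H18.Qp

variable {A : Type}

theorem occ_pre (w : ℕ → A) (m : ℕ) : Occ (pre w m) w 0 := by
  intro i h
  simp [pre]

theorem pre_len (w : ℕ → A) (m : ℕ) : (pre w m).length = m := by simp [pre]

theorem occ_of_le {u v : List A} {w : ℕ → A} {o : ℕ} (h : u <+: v) (hv : Occ v w o) :
    Occ u w o := by
  intro i hi
  rw [hv i (lt_of_lt_of_le hi h.length_le), h.getElem hi]

theorem le_of_occ {u v : List A} {w : ℕ → A} {o : ℕ} (hu : Occ u w o) (hv : Occ v w o)
    (h : u.length ≤ v.length) : u <+: v := by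
  rw [List.prefix_iff_getElem]
  exact ⟨h, fun i hi => (hu i hi).symm.trans (hv i (by omega))⟩

theorem occ_right {u v : List A} {w : ℕ → A} {o : ℕ} (h : Occ (u ++ v) w o) :
    Occ v w (o + u.length) := by
  intro i hi
  rw [Nat.add_assoc, h (u.length + i) (by simp; omega)]
  simp

theorem app_append (f : A → List A) (u v : List A) : app f (u ++ v) = app f u ++ app f v := by
  simp [app]

theorem it_append (f : A → List A) (n : ℕ) (u v : List A) :
    (app f)^[n] (u ++ v) = (app f)^[n] u ++ (app f)^[n] v := by
  induction n with
  | zero => rfl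
  | succ n ih => simp only [Function.iterate_succ_apply', ih, app_append]

theorem it_mono (f : A → List A) (n : ℕ) {u v : List A} (h : u <+: v) :
    (app f)^[n] u <+: (app f)^[n] v := by
  obtain ⟨t, rfl⟩ := h
  rw [it_append]
  exact List.prefix_append _ _

theorem app_rep (f : A → List A) (S : List A) (k : ℕ) :
    app f (List.replicate k S).flatten = (List.replicate k (app f S)).flatten := by
  induction k with
  | zero => simp [app]
  | succ k ih => simp only [List.replicate_succ, List.flatten_cons, app_append, ih]

/-- the word `R S S S ...` -/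
def om (d : A) (R S : List A) (t : ℕ) : A :=
  if t < R.length then R.getD t d else S.getD ((t - R.length) % S.length) d

theorem om_R (d : A) (R S : List A) : Occ R (om d R S) 0 := by
  intro i hi
  simp [om, hi]

theorem om_S (d : A) (R S : List A) (k : ℕ) : Occ S (om d R S) (R.length + k * S.length) := by
  intro i hi
  have : (R.length + k * S.length + i - R.length) % S.length = i := by
    rw [show R.length + k * S.length + i - R.length = i + k * S.length by omega,
      Nat.add_mul_mod_self_right, Nat.mod_eq_of_lt hi]
  simp only [om, this]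
  rw [if_neg (by omega)]
  simp [hi]

theorem occ_append {u v : List A} {w : ℕ → A} {o : ℕ} (hu : Occ u w o)
    (hv : Occ v w (o + u.length)) : Occ (u ++ v) w o := by
  intro i hi
  rw [List.getElem_append]
  split_ifs with c
  · exact hu i c
  · rw [← hv (i - u.length) (by simp at hi; omega)]
    congr 1; omega

theorem rep_len (S : List A) (k : ℕ) : (List.replicate k S).flatten.length = k * S.length := by
  simp

theorem om_U (d : A) (R S : List A) (k : ℕ) :
    Occ (R ++ (List.replicate k S).flatten) (om d R S) 0 := by
  induction k with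
  | zero => simpa using om_R d R S
  | succ k ih =>
    rw [List.replicate_succ', List.flatten_append, ← List.append_assoc]
    apply occ_append ih
    simpa using om_S d R S k

theorem img_om (d : A) (f : A → List A) (R S : List A) (hS : S ≠ []) (hS' : app f S ≠ []) :
    Img f (om d R S) (om d (app f R) (app f S)) := by
  have p1 : 0 < S.length := List.length_pos_iff.2 hS
  have p2 : 0 < (app f S).length := List.length_pos_iff.2 hS'
  constructor
  · intro m
    have h1 : pre (om d R S) m <+: R ++ (List.replicate m S).flatten :=
      le_of_occ (occ_pre _ _) (om_U d R S m) (by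
        rw [pre_len, List.length_append, rep_len]; nlinarith)
    have h2 := it_mono f 1 h1
    simp only [Function.iterate_one, app_append, app_rep] at h2
    exact occ_of_le h2 (om_U d _ _ m)
  · intro L
    refine ⟨R.length + L * S.length, ?_⟩
    have h1 : R ++ (List.replicate L S).flatten <+: pre (om d R S) (R.length + L * S.length) :=
      le_of_occ (om_U d R S L) (occ_pre _ _) (by
        rw [pre_len, List.length_append, rep_len])
    have h2 := (it_mono f 1 h1).length_le
    simp only [Function.iterate_one, app_append, app_rep, List.length_append, rep_len] at h2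
    nlinarith

theorem not_qp (a : A) (r s : List A) (hr0 : 0 < r.length) (hs0 : 0 < s.length)
    (hr : ∀ c (h : c < r.length), r[c] = a ↔ c = 0) (hs : ∀ c (h : c < s.length), s[c] = a ↔ c = 0)
    (h : ¬ r <+: s) : ¬ QP (om a r s) := by
  rintro ⟨y, hy⟩
  have hR := om_R a r s
  obtain ⟨o0, a0, b0, c0⟩ := hy 0
  obtain rfl : o0 = 0 := by omega
  have y0 : y[0]'(by omega) = a := by
    rw [← c0 0 (by omega), hR 0 hr0, hr]
  obtain ⟨o1, a1, b1, c1⟩ := hy (r.length - 1)
  have e1 : o1 = 0 := by
    have := c1 0 (by omega)
    rw [y0, Nat.add_zero, ← Nat.zero_add o1, hR o1 (by omega), hr] at this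
    exact this
  obtain ⟨o, a2, b2, c2⟩ := hy (r.length + y.length)
  have hm := Nat.mod_lt (o - r.length) hs0
  have hd := Nat.div_add_mod (o - r.length) s.length
  have e2 : (o - r.length) % s.length = 0 := by
    have := c2 0 (by omega)
    have h3 := om_S a r s ((o - r.length) / s.length) _ hm
    rw [show r.length + (o - r.length) / s.length * s.length + (o - r.length) % s.length = o by
      rw [Nat.mul_comm]; omega] at h3
    rw [y0, Nat.add_zero, h3, hs] at this
    exact this
  have e3 : o = r.length + (o - r.length) / s.length * s.length := by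
    rw [Nat.mul_comm]; omega
  generalize (o - r.length) / s.length = k at e3
  have hry : Occ r (om a r s) o := occ_of_le (le_of_occ hR c0 (by omega)) c2
  have hS := om_S a r s k
  rw [← e3] at hS
  apply h
  apply le_of_occ hry hS
  by_contra c
  have h4 := hry s.length (by omega)
  have h5 := om_S a r s (k + 1) 0 hs0
  rw [show r.length + (k + 1) * s.length + 0 = o + s.length by rw [e3]; ring, h4,
    (hs 0 hs0).2 rfl, hr] at h5
  omega

/-- covering of the block `B` inside `B q` -/
def Cov (q B : List A) : Prop :=
  ∀ (z : ℕ → A) (P : ℕ), Occ (B ++ q) z P → ∀ t < B.length,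
    ∃ o, o ≤ P + t ∧ P + t < o + q.length ∧ Occ q z o

theorem cov_self (q : List A) : Cov q q := fun _ P h _ ht =>
  ⟨P, by omega, by omega, occ_of_le (List.prefix_append _ _) h⟩

theorem cov_of (q B : List A) (x : ℕ → A) (hx : ∀ t, ∃ o, o ≤ t ∧ t < o + q.length ∧ Occ q x o)
    (P' : ℕ) (h1 : Occ (B ++ q) x P') (h2 : q <+: B) : Cov q B := by
  intro z P hz t ht
  obtain ⟨o, a, b, c⟩ := hx (P' + t)
  rcases Nat.lt_or_ge o P' with d | d
  · exact ⟨P, by omega, by omega, occ_of_le (h2.trans (List.prefix_append _ _)) hz⟩
  · refine ⟨P + (o - P'), by omega, by omega, fun i hi => ?_⟩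
    rw [Nat.add_assoc, hz _ (by simp; omega), ← h1 _ (by simp; omega), ← c i hi]
    congr 1; omega

theorem qp_om (d : A) (q R S : List A) (hS : 0 < S.length) (h : q <+: S) (h1 : Cov q R)
    (h2 : Cov q S) : QP (om d R S) := by
  refine ⟨q, fun t => ?_⟩
  rcases Nat.lt_or_ge t R.length with c | c
  · have := h1 (om d R S) 0 (occ_append (om_R d R S)
      (occ_of_le h (by simpa using om_S d R S 0))) t c
    simpa using this
  · have hm := Nat.mod_lt (t - R.length) hS
    have hd := Nat.div_add_mod (t - R.length) S.length
    have := h2 (om d R S) _ (occ_append (om_S d R S ((t - R.length) / S.length))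
      (occ_of_le h (by
        have := om_S d R S ((t - R.length) / S.length + 1)
        rwa [Nat.succ_mul, ← Nat.add_assoc] at this))) _ hm
    rwa [show R.length + (t - R.length) / S.length * S.length + (t - R.length) % S.length = t by
      rw [Nat.mul_comm]; omega] at this

end Pool.Agent.H18.Qp
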