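import Pool.Agent.H18.Qp1

namespace Pool.Agent.H18.Qp

variable {A : Type}

theorem it_head (f : A → List A) (a : A) (h : (f a).head? = some a) (n : ℕ) :
    [a] <+: (app f)^[n] [a] := by
  have h1 : [a] <+: app f [a] := by
    obtain ⟨t, ht⟩ := List.head?_eq_some_iff.1 h
    simp [app, ht]
  induction n with
  | zero => exact List.prefix_refl _
  | succ n ih =>
    rw [Function.iterate_succ_apply']
    exact h1.trans (it_mono f 1 ih)

theorem chain (f : A → List A) (a : A) (h : (f a).head? = some a) (r s : List A)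
    (hs : [a] <+: s) (h0 : ¬ QP (om a r s)) (n : ℕ)
    (hn : QP (om a ((app f)^[n] r) ((app f)^[n] s))) : WeaklyQP f := by
  have ne : ∀ i, (app f)^[i] s ≠ [] := by
    intro i e
    have := ((it_head f a h i).trans (it_mono f i hs)).length_le
    simp [e] at this
  induction n with
  | zero => exact absurd hn h0
  | succ n ih =>
    by_cases c : QP (om a ((app f)^[n] r) ((app f)^[n] s))
    · exact ih c
    · rw [Function.iterate_succ_apply', Function.iterate_succ_apply'] at hn
      refine ⟨_, _, c, img_om a f _ _ (ne n) ?_, hn⟩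
      have := ne (n + 1)
      rwa [Function.iterate_succ_apply'] at this

/-- the block of `x` between `i` and `j` -/
def seg (x : ℕ → A) (i j : ℕ) : List A := (List.range (j - i)).map (fun c => x (i + c))

theorem occ_seg (x : ℕ → A) (i j : ℕ) : Occ (seg x i j) x i := by
  intro c h
  simp [seg]

theorem seg_len (x : ℕ → A) (i j : ℕ) : (seg x i j).length = j - i := by simp [seg]

theorem img_occ {f : A → List A} {a : A} {x : ℕ → A} (hg : Generates f a x) (n : ℕ)
    (u : List A) (i : ℕ) (hu : Occ u x i) : ∃ P, Occ ((app f)^[n] u) x P := by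
  obtain ⟨N, hN⟩ := hg.2.1 (i + u.length)
  have h1 : Occ (pre x i ++ u) x 0 := occ_append (occ_pre x i) (by simpa [pre_len] using hu)
  have h2 := it_mono f n (le_of_occ h1 (hg.2.2 N) (by simpa [pre_len] using hN))
  rw [← Function.iterate_add_apply, it_append] at h2
  exact ⟨_, occ_right (occ_of_le h2 (hg.2.2 _))⟩

def Ret (x : ℕ → A) (a : A) (i j : ℕ) : Prop :=
  i < j ∧ x i = a ∧ x j = a ∧ ∀ c, i < c → c < j → x c ≠ a

theorem ret_seg {x : ℕ → A} {a : A} {i j : ℕ} (h : Ret x a i j) :
    ∀ c (hc : c < (seg x i j).length), (seg x i j)[c] = a ↔ c = 0 := by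
  intro c hc
  rw [← occ_seg x i j c hc]
  rw [seg_len] at hc
  constructor
  · intro e
    by_contra d
    exact h.2.2.2 (i + c) (by omega) (by omega) e
  · rintro rfl
    exact h.2.1

theorem ret_pre {x : ℕ → A} {a : A} {i j : ℕ} (h : Ret x a i j) : [a] <+: seg x i j :=
  le_of_occ (w := x) (o := i) (fun c hc => by
    obtain rfl : c = 0 := by simpa using hc
    simpa using h.2.1) (occ_seg x i j) (by have := h.1; simp [seg_len]; omega)

theorem ret_cov {f : A → List A} {a : A} {x : ℕ → A} (hg : Generates f a x) (n : ℕ)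
    (q : List A) (hq : q <+: (app f)^[n] [a])
    (hx : ∀ t, ∃ o, o ≤ t ∧ t < o + q.length ∧ Occ q x o) {i j : ℕ} (h : Ret x a i j) :
    Cov q ((app f)^[n] (seg x i j)) := by
  have h1 : Occ (seg x i j ++ [a]) x i := occ_append (occ_seg x i j) (fun c hc => by
    obtain rfl : c = 0 := by simpa using hc
    have := h.1
    rw [seg_len, show i + (j - i) + 0 = j by omega]
    simpa using h.2.2.1)
  obtain ⟨P, hP⟩ := img_occ hg n _ i h1
  rw [it_append] at hP
  exact cov_of q _ x hx P (occ_of_le ((List.prefix_append_right_inj _).2 hq) hP)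
    (hq.trans (it_mono f n (ret_pre h)))

theorem main (f : A → List A) (a : A) (x : ℕ → A) (hg : Generates f a x) (hx : QP x)
    (hf : ¬ ∃ k, f a = List.replicate k a) : WeaklyQP f := by
  classical
  obtain ⟨q, hq⟩ := hx
  have x0 : x 0 = a := by simpa using hg.2.2 0 0 (by simp)
  obtain ⟨o0, a0, b0, c0⟩ := hq 0
  obtain rfl : o0 = 0 := by omega
  have nxt : ∀ i, x i = a → ∃ j, Ret x a i j := by
    intro i hi
    have : ∃ j, i < j ∧ x j = a := by
      obtain ⟨o, a1, b1, c1⟩ := hq (i + q.length)
      refine ⟨o, by omega, ?_⟩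
      rw [← Nat.add_zero o, c1 0 (by omega), ← c0 0 (by omega), x0]
    refine ⟨Nat.find this, (Nat.find_spec this).1, hi, (Nat.find_spec this).2, ?_⟩
    intro c c1 c2 e
    exact Nat.find_min this c2 ⟨c1, e⟩
  by_cases hc : ∃ i j i' j', Ret x a i j ∧ Ret x a i' j' ∧ ¬ seg x i j <+: seg x i' j'
  · obtain ⟨i, j, i', j', h1, h2, h3⟩ := hc
    obtain ⟨n, hn⟩ := hg.2.1 q.length
    have hqa : q <+: (app f)^[n] [a] := le_of_occ c0 (hg.2.2 n) hn
    have hqs := hqa.trans (it_mono f n (ret_pre h2))
    refine chain f a hg.1 (seg x i j) (seg x i' j') (ret_pre h2)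
      (not_qp a _ _ (by have := h1.1; rw [seg_len]; omega) (by have := h2.1; rw [seg_len]; omega)
        (ret_seg h1) (ret_seg h2) h3) n ?_
    exact qp_om a q _ _ (by have := hqs.length_le; omega) hqs (ret_cov hg n q hqa hq h1)
      (ret_cov hg n q hqa hq h2)
  · push Not at hc
    obtain ⟨p, hp⟩ := nxt 0 x0
    have p0 := hp.1
    have per : ∀ k, x (k * p) = a ∧ ∀ c < p, x (k * p + c) = x c := by
      have st : ∀ k, x (k * p) = a → x ((k + 1) * p) = a ∧ ∀ c < p, x (k * p + c) = x c := by
        intro k hk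
        obtain ⟨j, hj⟩ := nxt _ hk
        have e1 := hc _ _ _ _ hj hp
        have e2 := (hc _ _ _ _ hp hj).length_le
        have e3 := e1.length_le
        have := hj.1
        rw [seg_len, seg_len] at e2 e3
        refine ⟨by rw [show (k + 1) * p = j by rw [Nat.succ_mul]; omega]; exact hj.2.2.1, ?_⟩
        intro c hc'
        have e4 := occ_of_le e1 (occ_seg x 0 p) c (by rw [seg_len]; omega)
        rw [occ_seg x (k * p) j c (by rw [seg_len]; omega), ← e4, Nat.zero_add]
      have s1 : ∀ k, x (k * p) = a := by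
        intro k
        induction k with
        | zero => simpa using x0
        | succ k ih => exact (st k ih).1
      exact fun k => ⟨s1 k, (st k (s1 k)).2⟩
    have md : ∀ t, x t = x (t % p) := by
      intro t
      rw [← (per (t / p)).2 _ (Nat.mod_lt t p0)]
      congr 1
      rw [Nat.mul_comm]
      exact (Nat.div_add_mod t p).symm
    have p1 : 1 < p := by
      by_contra c
      obtain rfl : p = 1 := by omega
      apply hf
      refine ⟨(f a).length, List.eq_replicate_iff.2 ⟨rfl, fun b hb => ?_⟩⟩
      obtain ⟨i, hi, rfl⟩ := List.getElem_of_mem hb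
      have h1 : Occ (f a) x 0 := by simpa [app] using hg.2.2 1
      rw [← h1 i hi, md, Nat.mod_one, x0]
    obtain ⟨n, hn⟩ := hg.2.1 p
    refine chain f a hg.1 (seg x 0 p) [a] (List.prefix_refl _)
      (not_qp a _ _ (by rw [seg_len]; omega) (by simp) (ret_seg hp) (fun c hc' => by
        obtain rfl : c = 0 := by simpa using hc'
        simp) (fun e => by
          have := e.length_le
          simp [seg_len] at this
          omega)) n ?_
    refine qp_om a _ _ _ (by omega) (List.prefix_refl _)
      (ret_cov hg n _ (List.prefix_refl _) (fun t => ?_) hp) (cov_self _)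
    have hm := Nat.mod_lt t p0
    have hd := Nat.div_add_mod t p
    refine ⟨p * (t / p), by omega, by omega, fun i hi => ?_⟩
    rw [← hg.2.2 n i hi, md, Nat.mul_add_mod, Nat.zero_add, ← md]

end Pool.Agent.H18.Qp
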