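import Mathlib

namespace Pool.Agent.H18.Qp

/-- the morphism of the free monoid given by the images `f c` of the letters -/
def app {A : Type} (f : A → List A) (u : List A) : List A := u.flatMap f

/-- the initial segment of length `m` of an infinite word -/
def pre {A : Type} (w : ℕ → A) (m : ℕ) : List A := (List.range m).map w

/-- `q` occurs in `w` at position `o` -/
def Occ {A : Type} (q : List A) (w : ℕ → A) (o : ℕ) : Prop :=
  ∀ i (h : i < q.length), w (o + i) = q[i]

/-- some finite word covers `w`: every position lies inside one of its occurrences -/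
def QP {A : Type} (w : ℕ → A) : Prop :=
  ∃ q : List A, ∀ t, ∃ o, o ≤ t ∧ t < o + q.length ∧ Occ q w o

/-- `f(w) = f(w_0) f(w_1) ...` is infinite and equal to `z` -/
def Img {A : Type} (f : A → List A) (w z : ℕ → A) : Prop :=
  (∀ m, Occ (app f (pre w m)) z 0) ∧ ∀ L, ∃ m, L ≤ (app f (pre w m)).length

/-- `f(a)` begins with `a`, the lengths `|f^n(a)|` are unbounded and `x = f^ω(a)` -/
def Generates {A : Type} (f : A → List A) (a : A) (x : ℕ → A) : Prop :=
  (f a).head? = some a ∧ (∀ L, ∃ n, L ≤ ((app f)^[n] [a]).length) ∧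
    ∀ n, Occ ((app f)^[n] [a]) x 0

/-- weakly quasiperiodic on infinite words -/
def WeaklyQP {A : Type} (f : A → List A) : Prop :=
  ∃ w z : ℕ → A, ¬ QP w ∧ Img f w z ∧ QP z

end Pool.Agent.H18.Qp
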