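import Mathlib

set_option autoImplicit false

namespace Pool.Agent.H18.Rcwa

/-- States of a reversible counter machine. -/
inductive St
  | M (b : Bool)
  | D1 (b : Bool)
  | D2 (b : Bool)
  | U1 (b : Bool)
  | U2 (b : Bool)
  | F (j : Fin 24)
  deriving DecidableEq

open St

/-- The swap performed at the bottom of the computation. -/
def bot : Bool → ℤ → Bool × ℤ
  | true, n => if n % 169 ≠ 0 ∧ n % 2 = 1 then (false, 13 * n) else (true, n)
  | false, n => if n % 169 = 0 ∧ n % 2 = 1 then (true, n / 13) else (false, n)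

def g : St × ℤ → St × ℤ
  | (M b, n) => if n % 6 = 1 ∧ n % 13 = 0 then (D1 b, n) else (M b, n + 1)
  | (D1 b, n) =>
      if n % 2197 = 0 then (D1 b, n / 2197 * 2)
      else if n % 13 ≠ 0 then (D2 b, n)
      else (U1 (bot b n).1, (bot b n).2)
  | (D2 b, n) => if n % 2 = 0 then (D2 b, n / 2 * 13) else (D1 b, 3 * n)
  | (U1 b, n) =>
      if n % 2 = 0 then (U1 b, n / 2 * 2197)
      else if n % 3 = 0 then (U2 b, n / 3)
      else if n % 6 = 1 ∧ n % 13 = 0 then (M b, n + 1)
      else (D1 b, n)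
  | (U2 b, n) => if n % 13 = 0 then (U2 b, n / 13 * 2) else (U1 b, n)
  | (F j, n) => (F j, n)

def g' : St × ℤ → St × ℤ
  | (M b, n) => if (n - 1) % 6 = 1 ∧ (n - 1) % 13 = 0 then (U1 b, n - 1) else (M b, n - 1)
  | (D1 b, n) =>
      if n % 2 = 0 then (D1 b, n / 2 * 2197)
      else if n % 3 = 0 then (D2 b, n / 3)
      else if n % 6 = 1 ∧ n % 13 = 0 then (M b, n)
      else (U1 b, n)
  | (D2 b, n) => if n % 13 = 0 then (D2 b, n / 13 * 2) else (D1 b, n)
  | (U1 b, n) =>
      if n % 2197 = 0 then (U1 b, n / 2197 * 2)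
      else if n % 13 ≠ 0 then (U2 b, n)
      else (D1 (bot b n).1, (bot b n).2)
  | (U2 b, n) => if n % 2 = 0 then (U2 b, n / 2 * 13) else (U1 b, 3 * n)
  | (F j, n) => (F j, n)

theorem bot_t1 (n : ℤ) (h : n % 169 ≠ 0 ∧ n % 2 = 1) : bot true n = (false, 13 * n) := if_pos h
theorem bot_t2 (n : ℤ) (h : ¬ (n % 169 ≠ 0 ∧ n % 2 = 1)) : bot true n = (true, n) := if_neg h
theorem bot_f1 (n : ℤ) (h : n % 169 = 0 ∧ n % 2 = 1) : bot false n = (true, n / 13) := if_pos h
theorem bot_f2 (n : ℤ) (h : ¬ (n % 169 = 0 ∧ n % 2 = 1)) : bot false n = (false, n) := if_neg h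

theorem bot_spec (b : Bool) (n : ℤ) (h1 : ¬ n % 2197 = 0) (h2 : ¬ n % 13 ≠ 0) :
    ¬ (bot b n).2 % 2197 = 0 ∧ ¬ (bot b n).2 % 13 ≠ 0 ∧ bot (bot b n).1 (bot b n).2 = (b, n) := by
  cases b
  · by_cases h : n % 169 = 0 ∧ n % 2 = 1
    · have a5 : 13 * (n / 13) = n := by clear h h1; omega
      have a1 : ¬ n / 13 % 2197 = 0 := by
        clear h h2; generalize n / 13 = k at *; subst a5; omega
      have a2 : ¬ n / 13 % 13 ≠ 0 := by
        have := h.1; clear h h1 h2 a1; generalize n / 13 = k at *; subst a5; omega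
      have a3 : n / 13 % 169 ≠ 0 := by
        clear h h2 a1 a2; generalize n / 13 = k at *; subst a5; omega
      have a4 : n / 13 % 2 = 1 := by
        have := h.2; clear h h1 h2 a1 a2 a3; generalize n / 13 = k at *; subst a5; omega
      rw [bot_f1 n h]
      refine ⟨a1, a2, ?_⟩
      show bot true (n / 13) = (false, n)
      rw [bot_t1 _ ⟨a3, a4⟩, a5]
    · rw [bot_f2 n h]
      exact ⟨h1, h2, bot_f2 n h⟩
  · by_cases h : n % 169 ≠ 0 ∧ n % 2 = 1
    · have a1 : ¬ 13 * n % 2197 = 0 := by have := h.1; clear h h1 h2; omega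
      have a2 : ¬ 13 * n % 13 ≠ 0 := by clear h h1 h2 a1; omega
      have a3 : 13 * n % 169 = 0 := by clear h h1 a1 a2; omega
      have a4 : 13 * n % 2 = 1 := by have := h.2; clear h h1 h2 a1 a2 a3; omega
      have a5 : 13 * n / 13 = n := by clear h h1 h2 a1 a2 a3 a4; omega
      rw [bot_t1 n h]
      refine ⟨a1, a2, ?_⟩
      show bot false (13 * n) = (true, n)
      rw [bot_f1 _ ⟨a3, a4⟩, a5]
    · rw [bot_t2 n h]
      exact ⟨h1, h2, bot_t2 n h⟩

theorem g'_g (x : St × ℤ) : g' (g x) = x := by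
  obtain ⟨s, n⟩ := x
  rcases s with b | b | b | b | b | j
  · by_cases h : n % 6 = 1 ∧ n % 13 = 0
    · have e1 : ¬ n % 2 = 0 := by omega
      have e2 : ¬ n % 3 = 0 := by omega
      simp only [g, g', if_pos h, if_neg e1, if_neg e2]
    · simp only [g, g', if_neg h, add_sub_cancel_right]
  · by_cases h1 : n % 2197 = 0
    · have e : n / 2197 * 2 % 2 = 0 := by omega
      simp only [g, g', if_pos h1, if_pos e]
      congr 1; omega
    by_cases h2 : n % 13 ≠ 0
    · have h2' : ¬ n % 13 = 0 := h2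
      simp only [g, g', if_neg h1, if_pos h2, if_neg h2']
    · obtain ⟨e1, e2, e3⟩ := bot_spec b n h1 h2
      simp only [g, g', if_neg h1, if_neg h2, if_neg e1, if_neg e2, e3]
  · by_cases h : n % 2 = 0
    · have e : n / 2 * 13 % 13 = 0 := by omega
      simp only [g, g', if_pos h, if_pos e]
      congr 1; omega
    · have e1 : ¬ 3 * n % 2 = 0 := by omega
      have e2 : 3 * n % 3 = 0 := by omega
      simp only [g, g', if_neg h, if_neg e1, if_pos e2]
      congr 1; omega
  · by_cases h1 : n % 2 = 0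
    · have e : n / 2 * 2197 % 2197 = 0 := by omega
      simp only [g, g', if_pos h1, if_pos e]
      congr 1; omega
    by_cases h2 : n % 3 = 0
    · have e : ¬ n / 3 % 2 = 0 := by omega
      simp only [g, g', if_neg h1, if_pos h2, if_neg e]
      congr 1; omega
    by_cases h3 : n % 6 = 1 ∧ n % 13 = 0
    · simp only [g, g', if_neg h1, if_neg h2, if_pos h3, add_sub_cancel_right]
    · simp only [g, g', if_neg h1, if_neg h2, if_neg h3]
  · by_cases h : n % 13 = 0
    · have e : n / 13 * 2 % 2 = 0 := by omega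
      simp only [g, g', if_pos h, if_pos e]
      congr 1; omega
    · have e1 : ¬ n % 2197 = 0 := by omega
      have e2 : n % 13 ≠ 0 := h
      simp only [g, g', if_neg h, if_neg e1, if_pos e2]
  · rfl

theorem g_g' (x : St × ℤ) : g (g' x) = x := by
  obtain ⟨s, n⟩ := x
  rcases s with b | b | b | b | b | j
  · by_cases h : (n - 1) % 6 = 1 ∧ (n - 1) % 13 = 0
    · have e1 : ¬ (n - 1) % 2 = 0 := by omega
      have e2 : ¬ (n - 1) % 3 = 0 := by omega
      simp only [g, g', if_pos h, if_neg e1, if_neg e2, sub_add_cancel]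
    · simp only [g, g', if_neg h, sub_add_cancel]
  · by_cases h1 : n % 2 = 0
    · have e : n / 2 * 2197 % 2197 = 0 := by omega
      simp only [g, g', if_pos h1, if_pos e]
      congr 1; omega
    by_cases h2 : n % 3 = 0
    · have e : ¬ n / 3 % 2 = 0 := by omega
      simp only [g, g', if_neg h1, if_pos h2, if_neg e]
      congr 1; omega
    by_cases h3 : n % 6 = 1 ∧ n % 13 = 0
    · simp only [g, g', if_neg h1, if_neg h2, if_pos h3]
    · simp only [g, g', if_neg h1, if_neg h2, if_neg h3]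
  · by_cases h : n % 13 = 0
    · have e : n / 13 * 2 % 2 = 0 := by omega
      simp only [g, g', if_pos h, if_pos e]
      congr 1; omega
    · have e1 : ¬ n % 2197 = 0 := by omega
      have e2 : n % 13 ≠ 0 := h
      simp only [g, g', if_neg h, if_neg e1, if_pos e2]
  · by_cases h1 : n % 2197 = 0
    · have e : n / 2197 * 2 % 2 = 0 := by omega
      simp only [g, g', if_pos h1, if_pos e]
      congr 1; omega
    by_cases h2 : n % 13 ≠ 0
    · have h2' : ¬ n % 13 = 0 := h2
      simp only [g, g', if_neg h1, if_pos h2, if_neg h2']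
    · obtain ⟨e1, e2, e3⟩ := bot_spec b n h1 h2
      simp only [g, g', if_neg h1, if_neg h2, if_neg e1, if_neg e2, e3]
  · by_cases h : n % 2 = 0
    · have e : n / 2 * 13 % 13 = 0 := by omega
      simp only [g, g', if_pos h, if_pos e]
      congr 1; omega
    · have e1 : ¬ 3 * n % 2 = 0 := by omega
      have e2 : 3 * n % 3 = 0 := by omega
      simp only [g, g', if_neg h, if_neg e1, if_pos e2]
      congr 1; omega
  · rfl

theorem g_bij : Function.Bijective g :=
  Function.bijective_iff_has_inverse.2 ⟨g', g'_g, g_g'⟩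

theorem g_pos (x : St × ℤ) (h : 0 < x.2) : 0 < (g x).2 := by
  obtain ⟨s, n⟩ := x
  simp only at h
  rcases s with b | b | b | b | b | j
  · simp only [g]; split_ifs <;> (simp only; omega)
  · simp only [g]
    split_ifs with h1 h2
    · simp only; omega
    · exact h
    · cases b <;> simp only [bot] <;> split_ifs <;> (simp only; omega)
  · simp only [g]; split_ifs <;> (simp only; omega)
  · simp only [g]
    split_ifs with h1 h2 h3
    · simp only; omega
    · simp only; omega
    · simp only; omega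
    · exact h
  · simp only [g]; split_ifs <;> (simp only; omega)
  · exact h

theorem loc (s : St) (n₀ : ℤ) : ∃ (s' : St) (a b : ℚ), ∀ n : ℤ, n % 13182 = n₀ % 13182 →
    (g (s, n)).1 = s' ∧ (((g (s, n)).2 : ℤ) : ℚ) = a * n + b := by
  have key : ∀ (n k : ℤ), k ≠ 0 → n % k = 0 → ((n / k : ℤ) : ℚ) = (n : ℚ) / k := by
    intro n k hk h
    rw [Int.cast_div (Int.dvd_of_emod_eq_zero h) (by exact_mod_cast hk)]
  have cg : ∀ (k : ℤ), k ∣ 13182 → ∀ n : ℤ, n % 13182 = n₀ % 13182 → n % k = n₀ % k := by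
    intro k hk n hn
    rw [← Int.emod_emod_of_dvd n hk, hn, Int.emod_emod_of_dvd n₀ hk]
  have c2 := cg 2 (by norm_num)
  have c3 := cg 3 (by norm_num)
  have c6 := cg 6 (by norm_num)
  have c13 := cg 13 (by norm_num)
  have c169 := cg 169 (by norm_num)
  have c2197 := cg 2197 (by norm_num)
  rcases s with b | b | b | b | b | j
  · by_cases h : n₀ % 6 = 1 ∧ n₀ % 13 = 0
    · refine ⟨D1 b, 1, 0, fun n hn => ?_⟩
      simp only [g, c6 n hn, c13 n hn, if_pos h]; simp
    · refine ⟨M b, 1, 1, fun n hn => ?_⟩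
      simp only [g, c6 n hn, c13 n hn, if_neg h]; simp
  · by_cases h1 : n₀ % 2197 = 0
    · refine ⟨D1 b, 2 / 2197, 0, fun n hn => ?_⟩
      simp only [g, c2197 n hn, if_pos h1]
      refine ⟨trivial, ?_⟩
      rw [Int.cast_mul, key n 2197 (by norm_num) ((c2197 n hn).trans h1)]; push_cast; ring
    by_cases h2 : n₀ % 13 ≠ 0
    · refine ⟨D2 b, 1, 0, fun n hn => ?_⟩
      simp only [g, c2197 n hn, c13 n hn, if_neg h1, if_pos h2]; simp
    cases b
    · by_cases h4 : n₀ % 169 = 0 ∧ n₀ % 2 = 1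
      · refine ⟨U1 true, 1 / 13, 0, fun n hn => ?_⟩
        simp only [g, bot, c2197 n hn, c13 n hn, c169 n hn, c2 n hn, if_neg h1, if_neg h2,
          if_pos h4]
        refine ⟨trivial, ?_⟩
        rw [key n 13 (by norm_num) ((c13 n hn).trans (not_not.1 h2))]; push_cast; ring
      · refine ⟨U1 false, 1, 0, fun n hn => ?_⟩
        simp only [g, bot, c2197 n hn, c13 n hn, c169 n hn, c2 n hn, if_neg h1, if_neg h2,
          if_neg h4]; simp
    · by_cases h3 : n₀ % 169 ≠ 0 ∧ n₀ % 2 = 1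
      · refine ⟨U1 false, 13, 0, fun n hn => ?_⟩
        simp only [g, bot, c2197 n hn, c13 n hn, c169 n hn, c2 n hn, if_neg h1, if_neg h2,
          if_pos h3]; simp
      · refine ⟨U1 true, 1, 0, fun n hn => ?_⟩
        simp only [g, bot, c2197 n hn, c13 n hn, c169 n hn, c2 n hn, if_neg h1, if_neg h2,
          if_neg h3]; simp
  · by_cases h : n₀ % 2 = 0
    · refine ⟨D2 b, 13 / 2, 0, fun n hn => ?_⟩
      simp only [g, c2 n hn, if_pos h]
      refine ⟨trivial, ?_⟩
      rw [Int.cast_mul, key n 2 (by norm_num) ((c2 n hn).trans h)]; push_cast; ring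
    · refine ⟨D1 b, 3, 0, fun n hn => ?_⟩
      simp only [g, c2 n hn, if_neg h]; simp
  · by_cases h1 : n₀ % 2 = 0
    · refine ⟨U1 b, 2197 / 2, 0, fun n hn => ?_⟩
      simp only [g, c2 n hn, if_pos h1]
      refine ⟨trivial, ?_⟩
      rw [Int.cast_mul, key n 2 (by norm_num) ((c2 n hn).trans h1)]; push_cast; ring
    by_cases h2 : n₀ % 3 = 0
    · refine ⟨U2 b, 1 / 3, 0, fun n hn => ?_⟩
      simp only [g, c2 n hn, c3 n hn, if_neg h1, if_pos h2]
      refine ⟨trivial, ?_⟩
      rw [key n 3 (by norm_num) ((c3 n hn).trans h2)]; push_cast; ring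
    by_cases h3 : n₀ % 6 = 1 ∧ n₀ % 13 = 0
    · refine ⟨M b, 1, 1, fun n hn => ?_⟩
      simp only [g, c2 n hn, c3 n hn, c6 n hn, c13 n hn, if_neg h1, if_neg h2, if_pos h3]; simp
    · refine ⟨D1 b, 1, 0, fun n hn => ?_⟩
      simp only [g, c2 n hn, c3 n hn, c6 n hn, c13 n hn, if_neg h1, if_neg h2, if_neg h3]; simp
  · by_cases h : n₀ % 13 = 0
    · refine ⟨U2 b, 2 / 13, 0, fun n hn => ?_⟩
      simp only [g, c13 n hn, if_pos h]
      refine ⟨trivial, ?_⟩
      rw [Int.cast_mul, key n 13 (by norm_num) ((c13 n hn).trans h)]; push_cast; ring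
    · refine ⟨U1 b, 1, 0, fun n hn => ?_⟩
      simp only [g, c13 n hn, if_neg h]; simp
  · exact ⟨F j, 1, 0, fun n _ => by simp [g]⟩

end Pool.Agent.H18.Rcwa
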