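import Pool.Agent.H18.Rcwa1

set_option autoImplicit false

namespace Pool.Agent.H18.Rcwa

open St

/-- Reachability along `g`. -/
def R (x y : St × ℤ) : Prop := ∃ k : ℕ, g^[k] x = y

theorem R.refl (x : St × ℤ) : R x x := ⟨0, rfl⟩

theorem R.trans {x y z : St × ℤ} (h1 : R x y) (h2 : R y z) : R x z := by
  obtain ⟨k, rfl⟩ := h1
  obtain ⟨l, rfl⟩ := h2
  exact ⟨l + k, by rw [Function.iterate_add_apply]⟩

theorem R.step {x y : St × ℤ} (h : g x = y) : R x y := ⟨1, h⟩

theorem R.of_eq {x y : St × ℤ} (h : x = y) : R x y := h ▸ R.refl x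

theorem loopD1 (b : Bool) (t : ℕ) : ∀ n : ℤ, R (D1 b, 2197 ^ t * n) (D1 b, 2 ^ t * n) := by
  induction t with
  | zero => intro n; simpa using R.refl _
  | succ t ih =>
    intro n
    have h : g (D1 b, 2197 ^ (t + 1) * n) = (D1 b, 2197 ^ t * (2 * n)) := by
      have e : (2197 : ℤ) ^ (t + 1) * n = 2197 * (2197 ^ t * n) := by ring
      have e' : (2197 : ℤ) ^ t * (2 * n) = 2 * (2197 ^ t * n) := by ring
      rw [e, e']
      generalize (2197 : ℤ) ^ t * n = m
      have : 2197 * m % 2197 = 0 := by omega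
      simp only [g, if_pos this]
      congr 1; omega
    refine (R.step h).trans ((ih _).trans (R.of_eq ?_))
    congr 1; ring

theorem loopD2 (b : Bool) (t : ℕ) : ∀ n : ℤ, R (D2 b, 2 ^ t * n) (D2 b, 13 ^ t * n) := by
  induction t with
  | zero => intro n; simpa using R.refl _
  | succ t ih =>
    intro n
    have h : g (D2 b, 2 ^ (t + 1) * n) = (D2 b, 2 ^ t * (13 * n)) := by
      have e : (2 : ℤ) ^ (t + 1) * n = 2 * (2 ^ t * n) := by ring
      have e' : (2 : ℤ) ^ t * (13 * n) = 13 * (2 ^ t * n) := by ring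
      rw [e, e']
      generalize (2 : ℤ) ^ t * n = m
      have : 2 * m % 2 = 0 := by omega
      simp only [g, if_pos this]
      congr 1; omega
    refine (R.step h).trans ((ih _).trans (R.of_eq ?_))
    congr 1; ring

theorem loopU1 (b : Bool) (t : ℕ) : ∀ n : ℤ, R (U1 b, 2 ^ t * n) (U1 b, 2197 ^ t * n) := by
  induction t with
  | zero => intro n; simpa using R.refl _
  | succ t ih =>
    intro n
    have h : g (U1 b, 2 ^ (t + 1) * n) = (U1 b, 2 ^ t * (2197 * n)) := by
      have e : (2 : ℤ) ^ (t + 1) * n = 2 * (2 ^ t * n) := by ring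
      have e' : (2 : ℤ) ^ t * (2197 * n) = 2197 * (2 ^ t * n) := by ring
      rw [e, e']
      generalize (2 : ℤ) ^ t * n = m
      have : 2 * m % 2 = 0 := by omega
      simp only [g, if_pos this]
      congr 1; omega
    refine (R.step h).trans ((ih _).trans (R.of_eq ?_))
    congr 1; ring

theorem loopU2 (b : Bool) (t : ℕ) : ∀ n : ℤ, R (U2 b, 13 ^ t * n) (U2 b, 2 ^ t * n) := by
  induction t with
  | zero => intro n; simpa using R.refl _
  | succ t ih =>
    intro n
    have h : g (U2 b, 13 ^ (t + 1) * n) = (U2 b, 13 ^ t * (2 * n)) := by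
      have e : (13 : ℤ) ^ (t + 1) * n = 13 * (13 ^ t * n) := by ring
      have e' : (13 : ℤ) ^ t * (2 * n) = 2 * (13 ^ t * n) := by ring
      rw [e, e']
      generalize (13 : ℤ) ^ t * n = m
      have : 13 * m % 13 = 0 := by omega
      simp only [g, if_pos this]
      congr 1; omega
    refine (R.step h).trans ((ih _).trans (R.of_eq ?_))
    congr 1; ring

open Classical in
/-- The involution linking `(true, 3^j)` with `(false, 2 * 3^j)`. -/
noncomputable def gam (x : Bool × ℕ) : Bool × ℕ :=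
  if x.1 = true ∧ ∃ j, x.2 = 3 ^ j then (false, 2 * x.2)
  else if x.1 = false ∧ ∃ j, x.2 = 2 * 3 ^ j then (true, x.2 / 2)
  else x

theorem gam_true (j : ℕ) : gam (true, 3 ^ j) = (false, 2 * 3 ^ j) := by
  unfold gam; rw [if_pos ⟨rfl, j, rfl⟩]

theorem gam_false (j : ℕ) : gam (false, 2 * 3 ^ j) = (true, 3 ^ j) := by
  unfold gam; rw [if_neg (by simp), if_pos ⟨rfl, j, rfl⟩]; simp

theorem gam_true' (a : ℕ) (h : ∀ j, a ≠ 3 ^ j) : gam (true, a) = (true, a) := by
  unfold gam; rw [if_neg (by simpa using h), if_neg (by simp)]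

theorem gam_false' (a : ℕ) (h : ∀ j, a ≠ 2 * 3 ^ j) : gam (false, a) = (false, a) := by
  unfold gam; rw [if_neg (by simp), if_neg (by simpa using h)]

theorem gam_cases (x : Bool × ℕ) :
    (∃ j, x = (true, 3 ^ j)) ∨ (∃ j, x = (false, 2 * 3 ^ j)) ∨
      ((x.1 = true ∧ ∀ j, x.2 ≠ 3 ^ j) ∨ (x.1 = false ∧ ∀ j, x.2 ≠ 2 * 3 ^ j)) := by
  obtain ⟨b, a⟩ := x
  cases b
  · by_cases h : ∃ j, a = 2 * 3 ^ j
    · obtain ⟨j, rfl⟩ := h; exact Or.inr (Or.inl ⟨j, rfl⟩)
    · push Not at h; exact Or.inr (Or.inr (Or.inr ⟨rfl, h⟩))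
  · by_cases h : ∃ j, a = 3 ^ j
    · obtain ⟨j, rfl⟩ := h; exact Or.inl ⟨j, rfl⟩
    · push Not at h; exact Or.inr (Or.inr (Or.inl ⟨rfl, h⟩))

theorem gam_gam (x : Bool × ℕ) : gam (gam x) = x := by
  rcases gam_cases x with ⟨j, rfl⟩ | ⟨j, rfl⟩ | ⟨h1, h2⟩ | ⟨h1, h2⟩
  · rw [gam_true, gam_false]
  · rw [gam_false, gam_true]
  · obtain ⟨b, a⟩ := x
    simp only at h1 h2; subst h1
    rw [gam_true' a h2, gam_true' a h2]
  · obtain ⟨b, a⟩ := x
    simp only at h1 h2; subst h1
    rw [gam_false' a h2, gam_false' a h2]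

/-- Rank preserved by `gam`. -/
def rho (x : Bool × ℕ) : ℕ := if x.1 = true then 2 * x.2 else x.2

theorem rho_gam (x : Bool × ℕ) : rho (gam x) = rho x := by
  rcases gam_cases x with ⟨j, rfl⟩ | ⟨j, rfl⟩ | ⟨h1, h2⟩ | ⟨h1, h2⟩
  · rw [gam_true]; simp [rho]
  · rw [gam_false]; simp [rho]
  · obtain ⟨b, a⟩ := x
    simp only at h1 h2; subst h1
    rw [gam_true' a h2]
  · obtain ⟨b, a⟩ := x
    simp only at h1 h2; subst h1
    rw [gam_false' a h2]

theorem gam_mul3 (b : Bool) (t : ℕ) :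
    gam (b, 3 * t) = ((gam (b, t)).1, 3 * (gam (b, t)).2) := by
  rcases gam_cases (b, t) with ⟨j, h⟩ | ⟨j, h⟩ | ⟨h1, h2⟩ | ⟨h1, h2⟩
  · obtain ⟨rfl, rfl⟩ := Prod.mk.inj h
    rw [gam_true, show 3 * 3 ^ j = 3 ^ (j + 1) by ring, gam_true]
    simp only [Prod.mk.injEq, true_and]; ring
  · obtain ⟨rfl, rfl⟩ := Prod.mk.inj h
    rw [gam_false, show 3 * (2 * 3 ^ j) = 2 * 3 ^ (j + 1) by ring, gam_false]
    simp only [Prod.mk.injEq, true_and]; ring
  · simp only at h1 h2; subst h1
    rw [gam_true' t h2, gam_true']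
    intro j hj
    cases j with
    | zero => simp at hj
    | succ j => exact h2 j (by rw [pow_succ] at hj; omega)
  · simp only at h1 h2; subst h1
    rw [gam_false' t h2, gam_false']
    intro j hj
    cases j with
    | zero => omega
    | succ j => exact h2 j (by rw [pow_succ] at hj; omega)

theorem gam_fix (b : Bool) (a : ℕ) (h3 : a % 3 ≠ 0) (h : 3 ≤ a) : gam (b, a) = (b, a) := by
  cases b
  · refine gam_false' a fun j hj => ?_
    cases j with
    | zero => omega
    | succ j => rw [pow_succ] at hj; omega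
  · refine gam_true' a fun j hj => ?_
    cases j with
    | zero => omega
    | succ j => rw [pow_succ] at hj; omega

theorem pow13_odd (t : ℕ) : (13 : ℤ) ^ t % 6 = 1 := by
  induction t with
  | zero => rfl
  | succ t ih => rw [pow_succ]; omega

theorem mul13 (t : ℕ) (U : ℤ) : (13 ^ t * U) % 6 = U % 6 := by
  rw [Int.mul_emod, pow13_odd]; simp

theorem mul2_13 (t : ℕ) (U : ℤ) (h : U % 13 ≠ 0) : (2 ^ t * U) % 13 ≠ 0 := by
  induction t with
  | zero => simpa using h
  | succ t ih =>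
    rw [show (2 : ℤ) ^ (t + 1) * U = 2 * (2 ^ t * U) by ring]
    omega

theorem machine (a : ℕ) : 1 ≤ a → ∀ (b : Bool) (U : ℤ), U % 2 = 1 → U % 13 ≠ 0 →
    R (D1 b, 13 ^ a * U) (U1 (gam (b, a)).1, 13 ^ (gam (b, a)).2 * U) := by
  induction a using Nat.strong_induction_on with
  | _ a ih =>
  intro ha b U hU2 hU
  obtain ⟨t, x, hx, rfl⟩ : ∃ t x, x < 3 ∧ a = 3 * t + x := ⟨a / 3, a % 3, by omega, by omega⟩
  have e0 : (13 : ℤ) ^ (3 * t + x) * U = 2197 ^ t * (13 ^ x * U) := by
    rw [pow_add, pow_mul]; norm_num; ring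
  rcases Nat.eq_zero_or_pos x with rfl | hx0
  · simp only [add_zero, pow_zero, one_mul] at e0 ha ⊢
    rw [e0, gam_mul3]
    have h1 := mul2_13 t U hU
    have s1 : g (D1 b, 2 ^ t * U) = (D2 b, 2 ^ t * U) := by
      have : ¬ (2 ^ t * U) % 2197 = 0 := by omega
      simp only [g, if_neg this, if_pos h1]
    have h2 := mul13 t U
    have s2 : g (D2 b, 13 ^ t * U) = (D1 b, 13 ^ t * (3 * U)) := by
      have : ¬ (13 ^ t * U) % 2 = 0 := by omega
      simp only [g, if_neg this]
      congr 1; ring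
    have s3 := ih t (by omega) (by omega) b (3 * U) (by omega) (by omega)
    set b' := (gam (b, t)).1
    set t' := (gam (b, t)).2
    have h3 := mul13 t' U
    have s4 : g (U1 b', 13 ^ t' * (3 * U)) = (U2 b', 13 ^ t' * U) := by
      rw [show (13 : ℤ) ^ t' * (3 * U) = 3 * (13 ^ t' * U) by ring]
      generalize (13 : ℤ) ^ t' * U = m at h3
      have e1 : ¬ (3 * m) % 2 = 0 := by omega
      have e2 : (3 * m) % 3 = 0 := by omega
      simp only [g, if_neg e1, if_pos e2]
      congr 1; omega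
    have h4 := mul2_13 t' U hU
    have s5 : g (U2 b', 2 ^ t' * U) = (U1 b', 2 ^ t' * U) := by
      simp only [g, if_neg h4]
    refine (loopD1 b t U).trans ((R.step s1).trans ((loopD2 b t U).trans ((R.step s2).trans
      (s3.trans ((R.step s4).trans ((loopU2 b' t' U).trans ((R.step s5).trans
      ((loopU1 b' t' U).trans (R.of_eq ?_)))))))))
    simp only [pow_mul]; norm_num
  · rcases Nat.eq_zero_or_pos t with rfl | ht
    · simp only [mul_zero, zero_add]
      have hx' : x = 1 ∨ x = 2 := by omega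
      rcases hx' with rfl | rfl <;> cases b
      · rw [gam_false' 1 (fun j hj => by omega)]
        refine R.step ?_
        have e1 : ¬ (13 ^ 1 * U) % 2197 = 0 := by clear hU2; omega
        have e2 : ¬ (13 ^ 1 * U) % 13 ≠ 0 := by clear hU2 hU e1; omega
        have e4 : ¬ ((13 ^ 1 * U) % 169 = 0 ∧ (13 ^ 1 * U) % 2 = 1) := by
          rintro ⟨e, -⟩; clear hU2 e1 e2; omega
        simp only [g, if_neg e1, if_neg e2, bot_f2 _ e4]
      · rw [show gam (true, 1) = (false, 2) from gam_true 0]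
        refine R.step ?_
        have e1 : ¬ (13 ^ 1 * U) % 2197 = 0 := by clear hU2; omega
        have e2 : ¬ (13 ^ 1 * U) % 13 ≠ 0 := by clear hU2 hU e1; omega
        have e3 : ((13 ^ 1 * U) % 169 ≠ 0 ∧ (13 ^ 1 * U) % 2 = 1) :=
          ⟨by clear hU2 e1 e2; omega, by clear hU e1 e2; omega⟩
        simp only [g, if_neg e1, if_neg e2, bot_t1 _ e3]
        congr 1; ring
      · rw [show gam (false, 2) = (true, 1) from gam_false 0]
        refine R.step ?_
        have e1 : ¬ (13 ^ 2 * U) % 2197 = 0 := by clear hU2; omega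
        have e2 : ¬ (13 ^ 2 * U) % 13 ≠ 0 := by clear hU2 hU e1; omega
        have e4 : ((13 ^ 2 * U) % 169 = 0 ∧ (13 ^ 2 * U) % 2 = 1) :=
          ⟨by clear hU2 hU e1 e2; omega, by clear hU e1 e2; omega⟩
        simp only [g, if_neg e1, if_neg e2, bot_f1 _ e4]
        congr 1; clear hU2 hU e1 e2 e4; omega
      · rw [gam_true' 2 (fun j hj => by
          cases j with
          | zero => omega
          | succ j => rw [pow_succ] at hj; omega)]
        refine R.step ?_
        have e1 : ¬ (13 ^ 2 * U) % 2197 = 0 := by clear hU2; omega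
        have e2 : ¬ (13 ^ 2 * U) % 13 ≠ 0 := by clear hU2 hU e1; omega
        have e3 : ¬ ((13 ^ 2 * U) % 169 ≠ 0 ∧ (13 ^ 2 * U) % 2 = 1) := by
          rintro ⟨e, -⟩; clear hU2 hU e1 e2; omega
        simp only [g, if_neg e1, if_neg e2, bot_t2 _ e3]
    · rw [gam_fix b _ (by omega) (by omega), e0]
      obtain ⟨t, rfl⟩ : ∃ s, t = s + 1 := ⟨t - 1, by omega⟩
      have h1 := mul2_13 (t + 1) U hU
      have s1 : g (D1 b, 2 ^ (t + 1) * (13 ^ x * U)) = (U1 b, 2 ^ (t + 1) * (13 ^ x * U)) := by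
        have hx' : x = 1 ∨ x = 2 := by omega
        have q1 : (2 : ℤ) ^ (t + 1) * U % 2 = 0 := by
          rw [show (2 : ℤ) ^ (t + 1) * U = 2 * (2 ^ t * U) by ring]; omega
        rw [show (2 : ℤ) ^ (t + 1) * (13 ^ x * U) = 13 ^ x * (2 ^ (t + 1) * U) by ring]
        generalize (2 : ℤ) ^ (t + 1) * U = m at h1 q1
        clear e0 hU hU2 ih
        have e1 : ¬ (13 ^ x * m) % 2197 = 0 := by
          clear q1; rcases hx' with rfl | rfl <;> omega
        have e2 : ¬ (13 ^ x * m) % 13 ≠ 0 := by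
          clear q1 h1 e1; rcases hx' with rfl | rfl <;> omega
        have e5 : ¬ (13 ^ x * m) % 2 = 1 := by
          clear h1 e1 e2; rcases hx' with rfl | rfl <;> omega
        have e6 : bot b (13 ^ x * m) = (b, 13 ^ x * m) := by
          cases b
          · exact bot_f2 _ fun e => e5 e.2
          · exact bot_t2 _ fun e => e5 e.2
        simp only [g, if_neg e1, if_neg e2, e6]
      exact (loopD1 b _ _).trans ((R.step s1).trans (loopU1 b _ _))

/-- One step on the main tracks. -/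
theorem tau (x : Bool × ℕ) (V : ℤ) (hV : V % 13 ≠ 0) :
    R (M x.1, 13 ^ x.2 * V)
      (M (if V % 6 = 1 then gam x else x).1, 13 ^ (if V % 6 = 1 then gam x else x).2 * V + 1) := by
  obtain ⟨b, a⟩ := x
  have h1 := mul13 a V
  by_cases h6 : V % 6 = 1
  · simp only [if_pos h6]
    rcases Nat.eq_zero_or_pos a with rfl | ha
    · have : gam (b, 0) = (b, 0) := by
        cases b
        · exact gam_false' 0 fun j hj => by have := pow_pos (show 0 < 3 by norm_num) j; omega
        · exact gam_true' 0 fun j hj => by have := pow_pos (show 0 < 3 by norm_num) j; omega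
      rw [this]
      refine R.step ?_
      have e : ¬ ((13 ^ 0 * V) % 6 = 1 ∧ (13 ^ 0 * V) % 13 = 0) := by omega
      simp only [g, if_neg e]
    · have h13 : ∀ c : ℕ, 1 ≤ c → (13 ^ c * V) % 13 = 0 := by
        intro c hc
        obtain ⟨c, rfl⟩ : ∃ d, c = d + 1 := ⟨c - 1, by omega⟩
        rw [show (13 : ℤ) ^ (c + 1) * V = 13 * (13 ^ c * V) by ring]; omega
      have s1 : g (M b, 13 ^ a * V) = (D1 b, 13 ^ a * V) := by
        have e : (13 ^ a * V) % 6 = 1 ∧ (13 ^ a * V) % 13 = 0 := ⟨by omega, h13 a ha⟩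
        simp only [g, if_pos e]
      have hr := rho_gam (b, a)
      have ha' : 1 ≤ (gam (b, a)).2 := by
        unfold rho at hr
        simp only at hr
        split_ifs at hr <;> omega
      have s2 := machine a ha b V (by omega) hV
      set b' := (gam (b, a)).1
      set a' := (gam (b, a)).2
      have h2 := mul13 a' V
      have s3 : g (U1 b', 13 ^ a' * V) = (M b', 13 ^ a' * V + 1) := by
        have e1 : ¬ (13 ^ a' * V) % 2 = 0 := by omega
        have e2 : ¬ (13 ^ a' * V) % 3 = 0 := by omega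
        have e : (13 ^ a' * V) % 6 = 1 ∧ (13 ^ a' * V) % 13 = 0 := ⟨by omega, h13 a' ha'⟩
        simp only [g, if_neg e1, if_neg e2, if_pos e]
      exact (R.step s1).trans (s2.trans (R.step s3))
  · simp only [if_neg h6]
    refine R.step ?_
    have e : ¬ ((13 ^ a * V) % 6 = 1 ∧ (13 ^ a * V) % 13 = 0) := by omega
    simp only [g, if_neg e]

end Pool.Agent.H18.Rcwa
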