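import Pool.Agent.H18.Rcwa2

set_option autoImplicit false

namespace Pool.Agent.H18.Rcwa

open St

/-- Parity of the number of `d' ∈ [1, d]` with `w + d' ≡ 1 (mod 6)`. -/
def swr (w : ℤ) : ℕ → Bool
  | 0 => false
  | d + 1 => xor (swr w d) (decide ((w + (d + 1 : ℕ)) % 6 = 1))

noncomputable def al (s : Bool) (x : Bool × ℕ) : Bool × ℕ := if s = true then gam x else x

theorem al_al (s : Bool) (x : Bool × ℕ) : al s (al s x) = x := by
  cases s <;> simp [al, gam_gam]

theorem rho_al (s : Bool) (x : Bool × ℕ) : rho (al s x) = rho x := by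
  cases s <;> simp [al, rho_gam]

theorem al_xor (s : Bool) (p : Prop) [Decidable p] (x : Bool × ℕ) :
    al (xor s (decide p)) x = if p then gam (al s x) else al s x := by
  by_cases h : p <;> cases s <;> simp [al, h, gam_gam]

theorem swr_12 (W : ℤ) : swr (W % 6) 12 = false := by
  have h1 : 0 ≤ W % 6 := by omega
  have h2 : W % 6 < 6 := by omega
  generalize W % 6 = r at h1 h2
  interval_cases r <;> decide

theorem swr_card (W : ℤ) :
    ((Finset.range 13).filter fun d => swr (W % 6) d = true).card = 6 := by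
  have h1 : 0 ≤ W % 6 := by omega
  have h2 : W % 6 < 6 := by omega
  generalize W % 6 = r at h1 h2
  interval_cases r <;> decide

theorem swr_card' (W : ℤ) :
    ((Finset.range 13).filter fun d => swr (W % 6) (12 - d) = true).card = 6 := by
  have h1 : 0 ≤ W % 6 := by omega
  have h2 : W % 6 < 6 := by omega
  generalize W % 6 = r at h1 h2
  interval_cases r <;> decide

def pre (x : Bool × ℕ) (V : ℤ) : St × ℤ := (M x.1, 13 ^ x.2 * V)
def post (x : Bool × ℕ) (V : ℤ) : St × ℤ := (M x.1, 13 ^ x.2 * V + 1)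
def shift (x : Bool × ℕ) : Bool × ℕ := (x.1, x.2 + 1)

def Blk (x : Bool × ℕ) : Prop := ∀ W : ℤ, R (post x W) (pre x (W + 1))

theorem pre_post (x : Bool × ℕ) (W : ℤ) (d : ℕ) (hd : d + 1 ≤ 12) :
    R (pre (al (swr (W % 6) d) x) (13 * W + (d + 1 : ℕ)))
      (post (al (swr (W % 6) (d + 1)) x) (13 * W + (d + 1 : ℕ))) := by
  have h := tau (al (swr (W % 6) d) x) (13 * W + (d + 1 : ℕ)) (by omega)
  have e : ((13 * W + (d + 1 : ℕ)) % 6 = 1) ↔ ((W % 6 + (d + 1 : ℕ)) % 6 = 1) := by omega
  unfold pre post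
  rw [swr, al_xor]
  simp only [e] at h
  exact h

theorem chain1 (x : Bool × ℕ) (hB : ∀ s, Blk (al s x)) (W : ℤ) (d : ℕ) (hd : d ≤ 12) :
    R (post x (13 * W)) (post (al (swr (W % 6) d) x) (13 * W + d)) := by
  induction d with
  | zero => simpa [swr, al] using R.refl _
  | succ d ih =>
    refine (ih (by omega)).trans ((hB _ _).trans ?_)
    have := pre_post x W d hd
    rw [show 13 * W + (d : ℤ) + 1 = 13 * W + (d + 1 : ℕ) by push_cast; ring]
    exact this

theorem chain2 (x : Bool × ℕ) (hB : ∀ s, Blk (al s x)) (W : ℤ) (r : ℕ) (hr : r ≤ 12) :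
    R (pre (al (swr (W % 6) (12 - r)) x) (13 * W + 13 - r)) (pre x (13 * W + 13)) := by
  induction r with
  | zero => simpa [swr_12, al] using R.refl _
  | succ r ih =>
    refine R.trans ?_ (ih (by omega))
    have h1 := pre_post x W (12 - (r + 1)) (by omega)
    have h2 := hB (swr (W % 6) (12 - (r + 1) + 1)) (13 * W + (12 - (r + 1) + 1 : ℕ))
    have e1 : 12 - (r + 1) + 1 = 12 - r := by omega
    rw [e1] at h1 h2
    have e2 : (13 * W + 13 - (r + 1 : ℕ)) = 13 * W + (12 - r : ℕ) := by omega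
    have e3 : (13 * W + 13 - (r : ℕ)) = 13 * W + (12 - r : ℕ) + 1 := by omega
    rw [e2, e3]
    exact h1.trans h2

theorem post_shift (x : Bool × ℕ) (W : ℤ) : post (shift x) W = post x (13 * W) := by
  unfold post shift; simp only; congr 1; ring

theorem pre_shift (x : Bool × ℕ) (W : ℤ) : pre (shift x) W = pre x (13 * W) := by
  unfold pre shift; simp only; congr 1; ring

theorem blk (x : Bool × ℕ) : Blk x := by
  induction h : rho x using Nat.strong_induction_on generalizing x with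
  | _ n ih =>
  obtain ⟨b, k⟩ := x
  intro W
  cases k with
  | zero => exact R.of_eq (by simp [post, pre])
  | succ k =>
    have hB : ∀ s, Blk (al s (b, k)) := fun s =>
      ih _ (by rw [rho_al, ← h]; unfold rho; simp only; split_ifs <;> omega) _ rfl
    have h1 := chain1 (b, k) hB W 12 le_rfl
    rw [swr_12] at h1
    have h2 := hB false (13 * W + (12 : ℕ))
    show R (post (shift (b, k)) W) (pre (shift (b, k)) (W + 1))
    rw [post_shift, pre_shift]
    refine h1.trans (h2.trans (R.of_eq ?_))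
    simp only [al, Bool.false_eq_true, if_false]
    congr 1; push_cast; ring

/-- The label read off from the `L` lowest base-13 digits. -/
noncomputable def lab (sw : ℕ → ℕ → Bool) : ℕ → Bool × ℕ → ℕ → Bool
  | 0, x, _ => x.1
  | L + 1, x, v => lab sw L (shift (al (sw (v / 13) (v % 13)) x)) (v / 13)

def swP (v r : ℕ) : Bool := swr ((v : ℤ) % 6) r
def swN (v r : ℕ) : Bool := swr ((-(v : ℤ) - 1) % 6) (12 - r)

theorem reachP (L : ℕ) : ∀ (x : Bool × ℕ) (v : ℕ), v < 13 ^ L →
    R (M (lab swP L x v), 1) (post x v) := by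
  induction L with
  | zero =>
    intro x v hv
    obtain rfl : v = 0 := by omega
    exact R.of_eq (by simp [lab, post])
  | succ L ih =>
    intro x v hv
    have h1 := ih (shift (al (swP (v / 13) (v % 13)) x)) (v / 13) (by rw [pow_succ] at hv; omega)
    rw [post_shift] at h1
    have h2 := chain1 (al (swP (v / 13) (v % 13)) x) (fun s => blk _) ((v / 13 : ℕ) : ℤ) (v % 13)
      (by omega)
    have e : (13 * ((v / 13 : ℕ) : ℤ) + (v % 13 : ℕ)) = v := by omega
    rw [e] at h2
    have e2 : al (swr (((v / 13 : ℕ) : ℤ) % 6) (v % 13)) (al (swP (v / 13) (v % 13)) x) = x :=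
      al_al _ _
    rw [e2] at h2
    exact h1.trans h2

theorem reachN (L : ℕ) : ∀ (x : Bool × ℕ) (v : ℕ), v < 13 ^ L →
    R (pre x (-(v : ℤ))) (M (lab swN L x v), 0) := by
  induction L with
  | zero =>
    intro x v hv
    obtain rfl : v = 0 := by omega
    exact R.of_eq (by simp [lab, pre])
  | succ L ih =>
    intro x v hv
    have h1 := ih (shift (al (swN (v / 13) (v % 13)) x)) (v / 13) (by rw [pow_succ] at hv; omega)
    rw [pre_shift] at h1
    have h2 := chain2 (al (swN (v / 13) (v % 13)) x) (fun s => blk _)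
      (-((v / 13 : ℕ) : ℤ) - 1) (v % 13) (by omega)
    have e : (13 * (-((v / 13 : ℕ) : ℤ) - 1) + 13 - (v % 13 : ℕ)) = -(v : ℤ) := by omega
    have e' : (13 * (-((v / 13 : ℕ) : ℤ) - 1) + 13) = 13 * -((v / 13 : ℕ) : ℤ) := by ring
    rw [e, e'] at h2
    have e2 : al (swr ((-((v / 13 : ℕ) : ℤ) - 1) % 6) (12 - v % 13))
        (al (swN (v / 13) (v % 13)) x) = x := al_al _ _
    rw [e2] at h2
    exact h2.trans h1

/-- Probability that the label is `true`. -/
noncomputable def ee : ℕ → Bool × ℕ → ℚ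
  | 0, x => if x.1 = true then 1 else 0
  | L + 1, x => 7 / 13 * ee L (shift x) + 6 / 13 * ee L (shift (gam x))

theorem sum_div_mod (f : ℕ → ℕ → ℚ) (n : ℕ) :
    ∑ v ∈ Finset.range (13 * n), f (v / 13) (v % 13) =
      ∑ u ∈ Finset.range n, ∑ r ∈ Finset.range 13, f u r := by
  induction n with
  | zero => simp
  | succ n ih =>
    rw [show 13 * (n + 1) = 13 * n + 13 by ring, Finset.sum_range_add, ih,
      Finset.sum_range_succ (fun u => ∑ r ∈ Finset.range 13, f u r) n]
    refine congrArg _ (Finset.sum_congr rfl fun r hr => ?_)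
    have := Finset.mem_range.1 hr
    congr 1 <;> omega

theorem count (sw : ℕ → ℕ → Bool)
    (hsw : ∀ u, ((Finset.range 13).filter fun r => sw u r = true).card = 6) (L : ℕ) :
    ∀ x : Bool × ℕ, ∑ v ∈ Finset.range (13 ^ L), (if lab sw L x v = true then (1 : ℚ) else 0) =
      13 ^ L * ee L x := by
  induction L with
  | zero => intro x; simp [lab, ee]
  | succ L ih =>
    intro x
    rw [show 13 ^ (L + 1) = 13 * 13 ^ L by ring]
    have h1 := sum_div_mod
      (fun u r => if lab sw L (shift (al (sw u r) x)) u = true then (1 : ℚ) else 0) (13 ^ L)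
    refine Eq.trans (Eq.trans rfl h1) ?_
    have h2 : ∀ u, ∑ r ∈ Finset.range 13,
        (if lab sw L (shift (al (sw u r) x)) u = true then (1 : ℚ) else 0) =
        7 * (if lab sw L (shift x) u = true then (1 : ℚ) else 0) +
        6 * (if lab sw L (shift (gam x)) u = true then (1 : ℚ) else 0) := by
      intro u
      have h3 := hsw u
      have h4 := Finset.card_filter_add_card_filter_not (s := Finset.range 13)
        (fun r => sw u r = true)
      rw [h3, Finset.card_range] at h4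
      have h5 : ((Finset.range 13).filter fun r => ¬ sw u r = true).card = 7 := by omega
      rw [← Finset.sum_filter_add_sum_filter_not (Finset.range 13) (fun r => sw u r = true)]
      rw [Finset.sum_congr rfl (g := fun _ =>
          (if lab sw L (shift (gam x)) u = true then (1 : ℚ) else 0))
          (fun r hr => by rw [al, if_pos (Finset.mem_filter.1 hr).2]),
        Finset.sum_congr (s₁ := (Finset.range 13).filter fun r => ¬ sw u r = true) rfl
          (g := fun _ => (if lab sw L (shift x) u = true then (1 : ℚ) else 0))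
          (fun r hr => by rw [al, if_neg (Finset.mem_filter.1 hr).2])]
      rw [Finset.sum_const, Finset.sum_const, h3, h5]
      simp only [nsmul_eq_mul]
      push_cast; ring
    simp only [h2]
    rw [Finset.sum_add_distrib, ← Finset.mul_sum, ← Finset.mul_sum, ih, ih, ee]
    ring

theorem ee_run (b : Bool) (t : ℕ) : ∀ (k L : ℕ),
    (∀ k', k ≤ k' → k' < k + t → gam (b, k') = (b, k')) → ee (L + t) (b, k) = ee L (b, k + t) := by
  induction t with
  | zero => intro k L _; rfl
  | succ t ih =>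
    intro k L h
    rw [← add_assoc, ee, h k le_rfl (by omega)]
    have := ih (k + 1) L (fun k' h1 h2 => h k' (by omega) (by omega))
    simp only [shift]
    rw [this, show k + 1 + t = k + (t + 1) by ring]
    ring

theorem gapA (j k : ℕ) (h1 : 3 ^ j < k) (h2 : k < 3 ^ (j + 1)) : gam (true, k) = (true, k) := by
  refine gam_true' k fun i hi => ?_
  subst hi
  have a1 := (Nat.pow_lt_pow_iff_right (show 1 < 3 by norm_num)).1 h1
  have a2 := (Nat.pow_lt_pow_iff_right (show 1 < 3 by norm_num)).1 h2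
  omega

theorem gapB (j k : ℕ) (h1 : 2 * 3 ^ j < k) (h2 : k < 2 * 3 ^ (j + 1)) :
    gam (false, k) = (false, k) := by
  refine gam_false' k fun i hi => ?_
  subst hi
  have a1 := (Nat.pow_lt_pow_iff_right (show 1 < 3 by norm_num) (n := j) (m := i)).1 (by omega)
  have a2 := (Nat.pow_lt_pow_iff_right (show 1 < 3 by norm_num) (n := i) (m := j + 1)).1
    (by omega)
  omega

noncomputable def Ap (j L : ℕ) : ℚ := ee L (true, 3 ^ j + 1)
noncomputable def Bp (j L : ℕ) : ℚ := ee L (false, 2 * 3 ^ j + 1)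

theorem linkA (j L : ℕ) : ee (L + 1) (true, 3 ^ j) = 7 / 13 * Ap j L + 6 / 13 * Bp j L := by
  rw [ee, gam_true]; rfl

theorem linkB (j L : ℕ) : ee (L + 1) (false, 2 * 3 ^ j) = 7 / 13 * Bp j L + 6 / 13 * Ap j L := by
  rw [ee, gam_false]; rfl

theorem Ap_step (j L : ℕ) :
    Ap j (L + 2 * 3 ^ j) = 7 / 13 * Ap (j + 1) L + 6 / 13 * Bp (j + 1) L := by
  have hp : 0 < 3 ^ j := by positivity
  have e : 3 ^ (j + 1) = 3 * 3 ^ j := by ring
  rw [← linkA, Ap, show L + 2 * 3 ^ j = (L + 1) + (2 * 3 ^ j - 1) by omega,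
    ee_run true _ _ _ (fun k' h1 h2 => gapA j k' (by omega) (by omega))]
  congr 2; omega

theorem Bp_step (j L : ℕ) :
    Bp j (L + 4 * 3 ^ j) = 7 / 13 * Bp (j + 1) L + 6 / 13 * Ap (j + 1) L := by
  have hp : 0 < 3 ^ j := by positivity
  have e : 3 ^ (j + 1) = 3 * 3 ^ j := by ring
  rw [← linkB, Bp, show L + 4 * 3 ^ j = (L + 1) + (4 * 3 ^ j - 1) by omega,
    ee_run false _ _ _ (fun k' h1 h2 => gapB j k' (by omega) (by omega))]
  congr 2; omega

theorem Ap_small (j L : ℕ) (h : L < 2 * 3 ^ j) : Ap j L = 1 := by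
  have e : 3 ^ (j + 1) = 3 * 3 ^ j := by ring
  have := ee_run true L (3 ^ j + 1) 0 (fun k' h1 h2 => gapA j k' (by omega) (by omega))
  rw [zero_add] at this
  rw [Ap, this]; simp [ee]

theorem Bp_small (j L : ℕ) (h : L < 4 * 3 ^ j) : Bp j L = 0 := by
  have e : 3 ^ (j + 1) = 3 * 3 ^ j := by ring
  have := ee_run false L (2 * 3 ^ j + 1) 0 (fun k' h1 h2 => gapB j k' (by omega) (by omega))
  rw [zero_add] at this
  rw [Bp, this]; simp [ee]

def Win (j lo hi : ℕ) (s : ℚ) : Prop :=
  ∃ α β : ℚ, α + β = s ∧ ∀ L, lo ≤ L → L ≤ hi → Ap j L = α ∧ Bp j L = β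

theorem Win.down {j lo hi : ℕ} {s : ℚ} (h : Win (j + 1) lo hi s) :
    Win j (lo + 4 * 3 ^ j) (hi + 2 * 3 ^ j) s := by
  obtain ⟨α, β, hs, h⟩ := h
  refine ⟨7 / 13 * α + 6 / 13 * β, 7 / 13 * β + 6 / 13 * α, by rw [← hs]; ring, ?_⟩
  intro L h1 h2
  have a1 := Ap_step j (L - 2 * 3 ^ j)
  have a2 := Bp_step j (L - 4 * 3 ^ j)
  rw [Nat.sub_add_cancel (by omega)] at a1 a2
  obtain ⟨b1, b2⟩ := h (L - 2 * 3 ^ j) (by omega) (by omega)
  obtain ⟨b3, b4⟩ := h (L - 4 * 3 ^ j) (by omega) (by omega)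
  rw [a1, a2, b1, b2, b3, b4]
  exact ⟨rfl, rfl⟩

theorem Win.down_all {s : ℚ} (j : ℕ) : ∀ lo hi : ℕ, Win j lo hi s →
    Win 0 (lo + 2 * 3 ^ j - 2) (hi + 3 ^ j - 1) s := by
  induction j with
  | zero => intro lo hi h; simpa using h
  | succ j ih =>
    intro lo hi h
    have := ih _ _ h.down
    have hp : 0 < 3 ^ j := by positivity
    have e : 3 ^ (j + 1) = 3 * 3 ^ j := by ring
    rw [show lo + 2 * 3 ^ (j + 1) - 2 = lo + 4 * 3 ^ j + 2 * 3 ^ j - 2 by omega,
      show hi + 3 ^ (j + 1) - 1 = hi + 2 * 3 ^ j + 3 ^ j - 1 by omega]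
    exact this

theorem Win.final {lo hi : ℕ} {s : ℚ} (h : Win 0 lo hi s) (L : ℕ) (h1 : lo + 3 ≤ L)
    (h2 : L ≤ hi + 2) : ee L (true, 0) + ee L (false, 0) = s := by
  obtain ⟨α, β, hs, h⟩ := h
  have a1 := ee_run true 1 0 (L - 2 + 1) (fun k' _ h2 => gam_true' k' fun j hj => by
    have : 0 < 3 ^ j := by positivity
    omega)
  have a2 := ee_run false 2 0 (L - 3 + 1) (fun k' _ h2 => gam_false' k' fun j hj => by
    have : 0 < 3 ^ j := by positivity
    omega)
  rw [show L - 2 + 1 + 1 = L by omega] at a1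
  rw [show L - 3 + 1 + 2 = L by omega] at a2
  have a3 := linkA 0 (L - 2)
  have a4 := linkB 0 (L - 3)
  obtain ⟨b1, b2⟩ := h (L - 2) (by omega) (by omega)
  obtain ⟨b3, b4⟩ := h (L - 3) (by omega) (by omega)
  simp only [pow_zero, mul_one, zero_add] at a1 a2 a3 a4
  rw [a1, a2, a3, a4, b1, b2, b3, b4, ← hs]; ring

theorem F1 (J : ℕ) : ee (3 * 3 ^ J) (true, 0) + ee (3 * 3 ^ J) (false, 0) = 1 := by
  have hp : 0 < 3 ^ J := by positivity
  have h : Win J 0 (2 * 3 ^ J - 1) 1 :=
    ⟨1, 0, by norm_num, fun L _ h2 => ⟨Ap_small J L (by omega), Bp_small J L (by omega)⟩⟩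
  exact (Win.down_all J _ _ h).final _ (by omega) (by omega)

theorem F2 (J : ℕ) : ee (5 * 3 ^ J) (true, 0) + ee (5 * 3 ^ J) (false, 0) = 7 / 13 := by
  have hp : 0 < 3 ^ J := by positivity
  have e : 3 ^ (J + 1) = 3 * 3 ^ J := by ring
  have h : Win J (2 * 3 ^ J) (4 * 3 ^ J - 1) (7 / 13) := by
    refine ⟨7 / 13, 0, by norm_num, fun L h1 h2 => ⟨?_, Bp_small J L (by omega)⟩⟩
    have a1 := Ap_step J (L - 2 * 3 ^ J)
    rw [Nat.sub_add_cancel (by omega), Ap_small (J + 1) _ (by omega),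
      Bp_small (J + 1) _ (by omega)] at a1
    rw [a1]; ring
  exact (Win.down_all J _ _ h).final _ (by omega) (by omega)

end Pool.Agent.H18.Rcwa
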