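import Pool.Agent.H18.Rcwa3

set_option autoImplicit false

namespace Pool.Agent.H18.Rcwa

open St

def wt : St → ℤ
  | M _ => 3
  | _ => 96

def off : St → ℤ
  | M true => 0
  | M false => 1
  | D1 true => 2
  | D1 false => 5
  | D2 true => 8
  | D2 false => 11
  | U1 true => 14
  | U1 false => 17
  | U2 true => 20
  | U2 false => 23
  | F j => 26 + 3 * (j : ℕ)

def enc (x : St × ℤ) : ℤ := wt x.1 * x.2 + off x.1

def aux (r : ℤ) : St :=
  if r = 0 then D1 true else if r = 1 then D1 false else if r = 2 then D2 true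
  else if r = 3 then D2 false else if r = 4 then U1 true else if r = 5 then U1 false
  else if r = 6 then U2 true else if r = 7 then U2 false
  else F ⟨(r - 8).toNat % 24, Nat.mod_lt _ (by norm_num)⟩

def dec (z : ℤ) : St × ℤ :=
  if z % 3 = 0 then (M true, z / 3) else if z % 3 = 1 then (M false, z / 3)
  else (aux (z / 3 % 32), z / 96)

theorem aux_spec (r : ℤ) (h0 : 0 ≤ r) (h1 : r < 32) : wt (aux r) = 96 ∧ off (aux r) = 3 * r + 2 := by
  interval_cases r <;> decide

theorem enc_dec (z : ℤ) : enc (dec z) = z := by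
  unfold dec
  split_ifs with h1 h2
  · simp only [enc, wt, off]; omega
  · simp only [enc, wt, off]; omega
  · obtain ⟨a, b⟩ := aux_spec (z / 3 % 32) (by omega) (by omega)
    simp only [enc, a, b]; omega

theorem dec_aux (n r : ℤ) (h0 : 0 ≤ r) (h1 : r < 32) : dec (96 * n + (3 * r + 2)) = (aux r, n) := by
  have e1 : ¬ (96 * n + (3 * r + 2)) % 3 = 0 := by omega
  have e2 : ¬ (96 * n + (3 * r + 2)) % 3 = 1 := by omega
  have e3 : (96 * n + (3 * r + 2)) / 3 % 32 = r := by omega
  have e4 : (96 * n + (3 * r + 2)) / 96 = n := by omega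
  unfold dec
  rw [if_neg e1, if_neg e2, e3, e4]

theorem dec_enc (x : St × ℤ) : dec (enc x) = x := by
  obtain ⟨s, n⟩ := x
  rcases s with b | b | b | b | b | j
  · cases b
    · have e1 : ¬ (3 * n + 1) % 3 = 0 := by omega
      have e2 : (3 * n + 1) % 3 = 1 := by omega
      have e3 : (3 * n + 1) / 3 = n := by omega
      simp only [enc, wt, off, dec, if_neg e1, if_pos e2, e3]
    · have e1 : (3 * n + 0) % 3 = 0 := by omega
      have e3 : (3 * n + 0) / 3 = n := by omega
      simp only [enc, wt, off, dec, if_pos e1, e3]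
  · cases b
    · exact dec_aux n 1 (by norm_num) (by norm_num)
    · exact dec_aux n 0 (by norm_num) (by norm_num)
  · cases b
    · exact dec_aux n 3 (by norm_num) (by norm_num)
    · exact dec_aux n 2 (by norm_num) (by norm_num)
  · cases b
    · exact dec_aux n 5 (by norm_num) (by norm_num)
    · exact dec_aux n 4 (by norm_num) (by norm_num)
  · cases b
    · exact dec_aux n 7 (by norm_num) (by norm_num)
    · exact dec_aux n 6 (by norm_num) (by norm_num)
  · have h := dec_aux n (8 + (j : ℕ)) (by omega) (by omega)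
    have e : enc (F j, n) = 96 * n + (3 * (8 + (j : ℕ)) + 2) := by
      simp only [enc, wt, off]; ring
    have e2 : aux (8 + (j : ℕ)) = F j := by
      clear h e; revert j; decide
    rw [e, h, e2]

theorem enc_inj : Function.Injective enc := Function.LeftInverse.injective dec_enc

def G (z : ℤ) : ℤ := enc (g (dec z))

theorem G_bij : Function.Bijective G := by
  have h1 : Function.Bijective enc :=
    Function.bijective_iff_has_inverse.2 ⟨dec, dec_enc, enc_dec⟩
  have h2 : Function.Bijective dec :=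
    Function.bijective_iff_has_inverse.2 ⟨enc, enc_dec, dec_enc⟩
  exact h1.comp (g_bij.comp h2)

theorem G_iter (i : ℕ) (x : St × ℤ) : G^[i] (enc x) = enc (g^[i] x) := by
  induction i generalizing x with
  | zero => rfl
  | succ i ih =>
    rw [Function.iterate_succ_apply, Function.iterate_succ_apply, ← ih, G, dec_enc]

theorem wt_cases (s : St) : wt s = 3 ∨ wt s = 96 := by
  cases s <;> simp [wt]

theorem G_loc (i : ℤ) : ∃ a b : ℚ, ∀ z : ℤ, z % 1265472 = i % 1265472 → (G z : ℚ) = a * z + b := by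
  obtain ⟨⟨s, n₀⟩, rfl⟩ : ∃ x, enc x = i := ⟨_, enc_dec i⟩
  obtain ⟨s', a, b, h⟩ := loc s n₀
  refine ⟨wt s' * a / wt s, wt s' * (b - a * off s / wt s) + off s', fun z hz => ?_⟩
  obtain ⟨t, ht⟩ : ∃ t, z = enc (s, n₀) + 1265472 * t :=
    ⟨(z - enc (s, n₀)) / 1265472, by omega⟩
  obtain ⟨n, hn, hz'⟩ : ∃ n, n % 13182 = n₀ % 13182 ∧ z = enc (s, n) := by
    rcases wt_cases s with hw | hw
    · refine ⟨n₀ + 13182 * (32 * t), by rw [Int.add_mul_emod_self_left], ?_⟩
      rw [ht]; simp only [enc, hw]; ring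
    · refine ⟨n₀ + 13182 * t, by rw [Int.add_mul_emod_self_left], ?_⟩
      rw [ht]; simp only [enc, hw]; ring
  obtain ⟨h1, h2⟩ := h n hn
  have hw : (wt s : ℚ) ≠ 0 := by rcases wt_cases s with hw | hw <;> simp [hw]
  rw [hz', G, dec_enc]
  simp only [enc, h1]
  push_cast
  rw [h2]
  field_simp
  ring

def Orb (x y : St × ℤ) : Prop := R x y ∨ R y x

theorem R.comm_src {x y z : St × ℤ} (h1 : R y x) (h2 : R y z) : Orb x z := by
  obtain ⟨k, rfl⟩ := h1
  obtain ⟨l, rfl⟩ := h2
  rcases le_total k l with h | h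
  · exact Or.inl ⟨l - k, by rw [← Function.iterate_add_apply, Nat.sub_add_cancel h]⟩
  · exact Or.inr ⟨k - l, by rw [← Function.iterate_add_apply, Nat.sub_add_cancel h]⟩

theorem R.comm_tgt {x y z : St × ℤ} (h1 : R x y) (h2 : R z y) : Orb x z := by
  obtain ⟨k, rfl⟩ := h1
  obtain ⟨l, h2⟩ := h2
  rcases le_total k l with h | h
  · refine Or.inr ⟨l - k, (g_bij.1.iterate k) ?_⟩
    rw [← Function.iterate_add_apply, Nat.add_sub_cancel' h, h2]
  · refine Or.inl ⟨k - l, (g_bij.1.iterate l) ?_⟩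
    rw [← Function.iterate_add_apply, Nat.add_sub_cancel' h, h2]

theorem Orb.trans {x y z : St × ℤ} (h1 : Orb x y) (h2 : Orb y z) : Orb x z := by
  rcases h1 with h1 | h1 <;> rcases h2 with h2 | h2
  · exact Or.inl (h1.trans h2)
  · exact h1.comm_tgt h2
  · exact h1.comm_src h2
  · exact Or.inr (h2.trans h1)

theorem g_zero (b : Bool) : g (M b, 0) = (M b, 1) := by simp [g]

theorem not_R (b b' : Bool) (h : R (M b, 0) (M b', 0)) : b = b' := by
  obtain ⟨k, hk⟩ := h
  cases k with
  | zero => simpa using hk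
  | succ k =>
    exfalso
    have : ∀ k, 0 < (g^[k] (M b, 1)).2 := by
      intro k
      induction k with
      | zero => simp
      | succ k ih => rw [Function.iterate_succ_apply']; exact g_pos _ ih
    have h2 := this k
    rw [Function.iterate_succ_apply, g_zero] at hk
    rw [hk] at h2
    simp at h2

theorem not_Orb : ¬ Orb (M true, 0) (M false, 0) := by
  rintro (h | h) <;> simpa using not_R _ _ h

theorem not_Orb_F (j : Fin 24) (n : ℤ) : ¬ Orb (M true, 0) (F j, n) := by
  have hf : ∀ k, g^[k] (F j, n) = (F j, n) := fun k => Function.iterate_fixed rfl k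
  rintro (⟨k, hk⟩ | ⟨k, hk⟩)
  · rw [← hf k] at hk
    have := g_bij.1.iterate k hk
    simp at this
  · rw [hf] at hk; simp at hk

def pt (p : Bool × Bool × ℕ) : St × ℤ := (M p.2.1, if p.1 = true then (p.2.2 : ℤ) + 1 else -p.2.2)

noncomputable def lb (L : ℕ) (p : Bool × Bool × ℕ) : Bool :=
  lab (if p.1 = true then swP else swN) L (p.2.1, 0) p.2.2

theorem orb_pt (L : ℕ) (p : Bool × Bool × ℕ) (hp : p.2.2 < 13 ^ L) :
    Orb (M (lb L p), 0) (pt p) := by
  obtain ⟨σ, b, v⟩ := p
  cases σ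
  · have := reachN L (b, 0) v hp
    refine Or.inr ?_
    simpa [pre, pt, lb] using this
  · have := reachP L (b, 0) v hp
    refine Or.inl ((R.step (g_zero _)).trans ?_)
    simpa [post, pt, lb] using this

theorem pt_inj : Function.Injective pt := by
  rintro ⟨σ, b, v⟩ ⟨σ', b', v'⟩ h
  simp only [pt, Prod.mk.injEq, M.injEq] at h
  obtain ⟨rfl, h⟩ := h
  cases σ <;> cases σ' <;> simp at h ⊢ <;> omega

noncomputable def SS (L : ℕ) : Finset (Bool × Bool × ℕ) :=
  ((Finset.univ : Finset Bool) ×ˢ (Finset.univ : Finset Bool) ×ˢ Finset.range (13 ^ L)).filter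
    fun p => lb L p = true

theorem card_SS (L : ℕ) :
    ((SS L).card : ℚ) = 2 * 13 ^ L * (ee L (true, 0) + ee L (false, 0)) := by
  have hP := count swP (fun u => swr_card _) L
  have hN := count swN (fun u => swr_card' _) L
  rw [SS, Finset.card_filter]
  push_cast
  rw [Finset.sum_product, Fintype.sum_bool, Finset.sum_product, Finset.sum_product,
    Fintype.sum_bool, Fintype.sum_bool]
  have e1 := hP (true, 0)
  have e2 := hP (false, 0)
  have e3 := hN (true, 0)
  have e4 := hN (false, 0)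
  have : ∀ a b c d : ℚ, a = 13 ^ L * ee L (true, 0) → b = 13 ^ L * ee L (false, 0) →
      c = 13 ^ L * ee L (true, 0) → d = 13 ^ L * ee L (false, 0) →
      a + b + (c + d) = 2 * 13 ^ L * (ee L (true, 0) + ee L (false, 0)) := by
    intro a b c d h1 h2 h3 h4; rw [h1, h2, h3, h4]; ring
  exact this _ _ _ _ e1 e2 e3 e4

def OS (N : ℕ) : Set ℤ :=
  {k : ℤ | -(N : ℤ) ≤ k ∧ k ≤ (N : ℤ) ∧ ∃ i : ℕ, G^[i] 0 = k ∨ G^[i] k = 0}

theorem mem_OS (N : ℕ) (y : St × ℤ) :
    enc y ∈ OS N ↔ -(N : ℤ) ≤ enc y ∧ enc y ≤ N ∧ Orb (M true, 0) y := by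
  have e0 : (0 : ℤ) = enc (M true, 0) := by simp [enc, wt, off]
  have e1 : ∀ i, G^[i] 0 = enc y ↔ g^[i] (M true, 0) = y := fun i => by
    rw [← enc_inj.eq_iff, ← G_iter, ← e0]
  have e2 : ∀ i, G^[i] (enc y) = 0 ↔ g^[i] y = (M true, 0) := fun i => by
    rw [← enc_inj.eq_iff, ← G_iter, ← e0]
  unfold OS Orb R
  simp only [Set.mem_setOf_eq, e1, e2, exists_or]

theorem OS_fin (N : ℕ) : (OS N).Finite :=
  (Set.finite_Icc (-(N : ℤ)) N).subset fun _ hk => ⟨hk.1, hk.2.1⟩

theorem lower (L : ℕ) : (SS L).card ≤ (OS (3 * 13 ^ L + 1)).ncard := by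
  rw [← Finset.card_image_of_injective (SS L) (enc_inj.comp pt_inj), ← Set.ncard_coe_finset]
  refine Set.ncard_le_ncard ?_ (OS_fin _)
  intro k hk
  simp only [Finset.coe_image, Set.mem_image, Finset.mem_coe] at hk
  obtain ⟨p, hp, rfl⟩ := hk
  simp only [SS, Finset.mem_filter, Finset.mem_product, Finset.mem_univ, true_and,
    Finset.mem_range] at hp
  have h := orb_pt L p hp.1
  rw [hp.2] at h
  refine (mem_OS _ _).2 ⟨?_, ?_, h⟩
  all_goals
    obtain ⟨σ, b, v⟩ := p
    have h1 := hp.1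
    simp only at h1
    generalize 13 ^ L = X at h1
    cases σ <;> cases b <;> simp [pt, enc, wt, off] <;> omega

theorem upper (L : ℕ) :
    (OS (3 * 13 ^ L + 1)).ncard ≤ (SS L).card + 2 + (2 * (13 ^ L / 32) + 3) * 8 := by
  set X := 13 ^ L with hX
  let A : Finset ℤ := (SS L).image (enc ∘ pt)
  let B : Finset ℤ := {-3 * (X : ℤ), -3 * (X : ℤ) + 1}
  let C : Finset ℤ := (Finset.range (2 * (X / 32) + 3) ×ˢ Finset.range 8).image
    fun q => 96 * ((q.1 : ℤ) - (X / 32 : ℕ) - 1) + 3 * (q.2 : ℤ) + 2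
  have hA : A.card ≤ (SS L).card := Finset.card_image_le
  have hB : B.card ≤ 2 := Finset.card_le_two
  have hC : C.card ≤ (2 * (X / 32) + 3) * 8 := by
    refine Finset.card_image_le.trans ?_
    rw [Finset.card_product, Finset.card_range, Finset.card_range]
  have hsub : OS (3 * X + 1) ⊆ ↑(A ∪ B ∪ C) := by
    intro k hk
    obtain ⟨⟨s, n⟩, rfl⟩ : ∃ x, enc x = k := ⟨_, enc_dec k⟩
    obtain ⟨h1, h2, h3⟩ := (mem_OS _ _).1 hk
    have hCm : ∀ r : ℕ, r < 8 → enc (s, n) = 96 * n + 3 * (r : ℤ) + 2 →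
        enc (s, n) ∈ (↑(A ∪ B ∪ C) : Set ℤ) := by
      intro r hr he
      simp only [Finset.coe_union, Set.mem_union, Finset.mem_coe]
      refine Or.inr (Finset.mem_image.2 ⟨((n + (X / 32 : ℕ) + 1).toNat, r), ?_, ?_⟩)
      · rw [he] at h1 h2
        simp only [Finset.mem_product, Finset.mem_range]
        omega
      · rw [he] at h1 h2 ⊢
        simp only
        omega
    have hAm : ∀ p : Bool × Bool × ℕ, p.2.2 < X → pt p = (s, n) →
        enc (s, n) ∈ (↑(A ∪ B ∪ C) : Set ℤ) := by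
      intro p hp he
      simp only [Finset.coe_union, Set.mem_union, Finset.mem_coe]
      refine Or.inl (Or.inl (Finset.mem_image.2 ⟨p, ?_, by rw [← he]; rfl⟩))
      simp only [SS, Finset.mem_filter, Finset.mem_product, Finset.mem_univ, true_and,
        Finset.mem_range]
      refine ⟨hp, ?_⟩
      by_contra hl
      have h := orb_pt L p hp
      rw [Bool.not_eq_true] at hl
      rw [hl, he] at h
      exact not_Orb (h3.trans (Or.symm h))
    rcases s with b | b | b | b | b | j
    · have hb : 3 * n ≤ enc (M b, n) ∧ enc (M b, n) ≤ 3 * n + 1 := by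
        cases b <;> simp [enc, wt, off]
      by_cases c1 : 1 ≤ n
      · refine hAm (true, b, (n - 1).toNat) (by simp only; omega) ?_
        simp only [pt, if_true]; congr 1; omega
      by_cases c2 : -(X : ℤ) < n
      · refine hAm (false, b, (-n).toNat) (by simp only; omega) ?_
        simp only [pt, Bool.false_eq_true, if_false]; congr 1; omega
      · simp only [Finset.coe_union, Set.mem_union, Finset.mem_coe]
        refine Or.inl (Or.inr ?_)
        simp only [B, Finset.mem_insert, Finset.mem_singleton]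
        omega
    · cases b
      · exact hCm 1 (by norm_num) (by simp [enc, wt, off]; ring)
      · exact hCm 0 (by norm_num) (by simp [enc, wt, off])
    · cases b
      · exact hCm 3 (by norm_num) (by simp [enc, wt, off]; ring)
      · exact hCm 2 (by norm_num) (by simp [enc, wt, off]; ring)
    · cases b
      · exact hCm 5 (by norm_num) (by simp [enc, wt, off]; ring)
      · exact hCm 4 (by norm_num) (by simp [enc, wt, off]; ring)
    · cases b
      · exact hCm 7 (by norm_num) (by simp [enc, wt, off]; ring)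
      · exact hCm 6 (by norm_num) (by simp [enc, wt, off]; ring)
    · exact absurd h3 (not_Orb_F j n)
  have h := Set.ncard_le_ncard hsub (Finset.finite_toSet _)
  rw [Set.ncard_coe_finset] at h
  have h4 := Finset.card_union_le (A ∪ B) C
  have h5 := Finset.card_union_le A B
  omega

theorem low_ratio (J : ℕ) : (3 / 10 : ℝ) ≤ ((OS (3 * 13 ^ (3 * 3 ^ J) + 1)).ncard : ℝ) /
    (2 * ((3 * 13 ^ (3 * 3 ^ J) + 1 : ℕ) : ℝ) + 1) := by
  have h1 := lower (3 * 3 ^ J)
  have h2 := card_SS (3 * 3 ^ J)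
  rw [F1, mul_one] at h2
  have h3 : (SS (3 * 3 ^ J)).card = 2 * 13 ^ (3 * 3 ^ J) := by exact_mod_cast h2
  have h4 : 13 ≤ 13 ^ (3 * 3 ^ J) := Nat.le_self_pow (by positivity) 13
  rw [h3] at h1
  generalize 13 ^ (3 * 3 ^ J) = X at h1 h4 ⊢
  generalize (OS (3 * X + 1)).ncard = c at h1
  have h5 : (2 * X : ℝ) ≤ c := by exact_mod_cast h1
  have h6 : (13 : ℝ) ≤ X := by exact_mod_cast h4
  rw [le_div_iff₀ (by positivity)]
  push_cast
  linarith

theorem up_ratio (J : ℕ) : ((OS (3 * 13 ^ (5 * 3 ^ J) + 1)).ncard : ℝ) /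
    (2 * ((3 * 13 ^ (5 * 3 ^ J) + 1 : ℕ) : ℝ) + 1) ≤ 29 / 100 := by
  have h1 := upper (5 * 3 ^ J)
  have h2 := card_SS (5 * 3 ^ J)
  rw [F2] at h2
  have h3 : 13 * (SS (5 * 3 ^ J)).card = 14 * 13 ^ (5 * 3 ^ J) := by
    have : (13 : ℚ) * (SS (5 * 3 ^ J)).card = 14 * 13 ^ (5 * 3 ^ J) := by rw [h2]; ring
    exact_mod_cast this
  have h4 : 13 ^ 5 ≤ 13 ^ (5 * 3 ^ J) := by
    refine Nat.pow_le_pow_right (by norm_num) ?_
    have : 0 < 3 ^ J := by positivity
    omega
  generalize 13 ^ (5 * 3 ^ J) = X at h1 h3 h4 ⊢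
  generalize (OS (3 * X + 1)).ncard = c at h1
  have h5 : 100 * c ≤ 29 * (6 * X + 3) := by omega
  have h6 : (100 * c : ℝ) ≤ 29 * (6 * X + 3) := by exact_mod_cast h5
  rw [div_le_iff₀ (by positivity)]
  push_cast
  linarith

theorem no_density (d : ℝ) : ¬ Filter.Tendsto
    (fun N : ℕ => ((OS N).ncard : ℝ) / (2 * (N : ℝ) + 1)) Filter.atTop (nhds d) := by
  intro h
  have t : ∀ c : ℕ, 0 < c →
      Filter.Tendsto (fun J : ℕ => 3 * 13 ^ (c * 3 ^ J) + 1) Filter.atTop Filter.atTop := by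
    intro c hc
    refine Filter.tendsto_atTop_mono (fun J => ?_) Filter.tendsto_id
    have a1 : J < 3 ^ J := Nat.lt_pow_self (by norm_num)
    have a2 : c * 3 ^ J < 13 ^ (c * 3 ^ J) := Nat.lt_pow_self (by norm_num)
    have a3 : 3 ^ J ≤ c * 3 ^ J := Nat.le_mul_of_pos_left _ hc
    simp only [id]; omega
  have h1 := ge_of_tendsto' (h.comp (t 3 (by norm_num))) low_ratio
  have h2 := le_of_tendsto' (h.comp (t 5 (by norm_num))) up_ratio
  linarith

end Pool.Agent.H18.Rcwa
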