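import Mathlib

namespace Pool.Agent.H18.RookA

open Finset

variable {k : ℕ}

def rho (F : Fin k → Fin k → ℝ) (a : Fin k) : ℝ := ∑ j, F a j
def kap (F : Fin k → Fin k → ℝ) (b : Fin k) : ℝ := ∑ i, F i b
def G (F : Fin k → Fin k → ℝ) (a b : Fin k) : ℝ := rho F a + kap F b - F a b

lemma sum_kap (F : Fin k → Fin k → ℝ) : ∑ b, kap F b = ∑ a, rho F a := by
  unfold kap rho; exact sum_comm

lemma row_G (F : Fin k → Fin k → ℝ) (h0 : ∑ a, rho F a = 0) (a : Fin k) :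
    ∑ b, G F a b = (k - 1) * rho F a := by
  unfold G
  rw [sum_sub_distrib, sum_add_distrib, sum_kap, h0]
  simp only [sum_const, card_univ, Fintype.card_fin, nsmul_eq_mul]
  unfold rho; ring

lemma col_G (F : Fin k → Fin k → ℝ) (h0 : ∑ a, rho F a = 0) (b : Fin k) :
    ∑ a, G F a b = (k - 1) * kap F b := by
  unfold G
  rw [sum_sub_distrib, sum_add_distrib, h0]
  simp only [sum_const, card_univ, Fintype.card_fin, nsmul_eq_mul]
  unfold kap; ring

lemma tot_G (F : Fin k → Fin k → ℝ) (h0 : ∑ a, rho F a = 0) : ∑ a, ∑ b, G F a b = 0 := by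
  simp only [row_G F h0]; rw [← mul_sum, h0, mul_zero]

/-- pairing of `F` with an additive function -/
lemma pair_add (F : Fin k → Fin k → ℝ) (r c : Fin k → ℝ) :
    ∑ a, ∑ b, F a b * (r a + c b) = ∑ a, r a * rho F a + ∑ b, c b * kap F b := by
  simp only [mul_add, sum_add_distrib]
  congr 1
  · refine sum_congr rfl fun a _ => ?_
    unfold rho; rw [mul_sum]; exact sum_congr rfl fun b _ => mul_comm _ _
  · rw [sum_comm]
    refine sum_congr rfl fun b _ => ?_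
    unfold kap; rw [mul_sum]; exact sum_congr rfl fun a _ => mul_comm _ _

lemma sum_add2 (r c : Fin k → ℝ) :
    ∑ a, ∑ b, (r a + c b) = k * ∑ a, r a + k * ∑ b, c b := by
  simp only [sum_add_distrib, sum_const, card_univ, Fintype.card_fin, nsmul_eq_mul, ← mul_sum]

lemma M_nonneg (hk : 2 ≤ k) (F : Fin k → Fin k → ℝ) (h0 : ∑ a, rho F a = 0) {M : ℝ}
    (hG : ∀ a b, G F a b ≤ M) : 0 ≤ M := by
  have h1 : ∑ a, ∑ b, G F a b ≤ ∑ _a : Fin k, ∑ _b : Fin k, M :=
    sum_le_sum fun a _ => sum_le_sum fun b _ => hG a b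
  rw [tot_G F h0] at h1
  simp only [sum_const, card_univ, Fintype.card_fin, nsmul_eq_mul] at h1
  have hk' : (2 : ℝ) ≤ k := by exact_mod_cast hk
  by_contra hM
  push Not at hM
  have : (k : ℝ) * (k * M) < 0 := by
    apply mul_neg_of_pos_of_neg (by linarith); apply mul_neg_of_pos_of_neg (by linarith) hM
  linarith

lemma lin_le {x M K : ℝ} (hK : 2 ≤ K) (hM : 0 ≤ M) (h : (K - 1) * x ≤ K * M) : x ≤ 2 * M := by
  by_contra hx
  push Not at hx
  nlinarith

lemma rho_le (hk : 2 ≤ k) (F : Fin k → Fin k → ℝ) (h0 : ∑ a, rho F a = 0) {M : ℝ}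
    (hG : ∀ a b, G F a b ≤ M) (a : Fin k) : rho F a ≤ 2 * M := by
  have hk' : (2 : ℝ) ≤ k := by exact_mod_cast hk
  refine lin_le hk' (M_nonneg hk F h0 hG) ?_
  rw [← row_G F h0]
  have : ∑ b, G F a b ≤ ∑ _b : Fin k, M := sum_le_sum fun b _ => hG a b
  simpa using this

lemma kap_le (hk : 2 ≤ k) (F : Fin k → Fin k → ℝ) (h0 : ∑ a, rho F a = 0) {M : ℝ}
    (hG : ∀ a b, G F a b ≤ M) (b : Fin k) : kap F b ≤ 2 * M := by
  have hk' : (2 : ℝ) ≤ k := by exact_mod_cast hk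
  refine lin_le hk' (M_nonneg hk F h0 hG) ?_
  rw [← col_G F h0]
  have : ∑ a, G F a b ≤ ∑ _a : Fin k, M := sum_le_sum fun a _ => hG a b
  simpa using this

lemma trunc_bound {x W M : ℝ} (hW : 0 ≤ W) (hM : 0 ≤ M) (hx : x ≤ 2 * M) :
    max x (-W - 2 * M) * x ≤ (W + 2 * M) * (4 * M - x) := by
  rcases le_total x (-W - 2 * M) with h | h
  · rw [max_eq_right h]; nlinarith [mul_nonneg (add_nonneg hW (by linarith : 0 ≤ 2 * M)) hM]
  · rw [max_eq_left h]
    rcases le_total 0 x with h' | h'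
    · nlinarith
    · nlinarith

lemma trunc_sum (x : Fin k → ℝ) (h0 : ∑ a, x a = 0) {W M : ℝ} (hW : 0 ≤ W) (hM : 0 ≤ M)
    (hx : ∀ a, x a ≤ 2 * M) :
    ∑ a, max (x a) (-W - 2 * M) * x a ≤ (W + 2 * M) * (4 * k * M) := by
  refine (sum_le_sum fun a _ => trunc_bound hW hM (hx a)).trans (le_of_eq ?_)
  rw [← mul_sum, sum_sub_distrib, h0]
  simp only [sum_const, card_univ, Fintype.card_fin, nsmul_eq_mul]; ring

theorem one_sided (hk : 2 ≤ k) (F : Fin k → Fin k → ℝ) (h0 : ∑ a, rho F a = 0) {W M : ℝ}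
    (hW : 0 ≤ W) (hF : ∀ a b, |F a b| ≤ W) (hG : ∀ a b, G F a b ≤ M) :
    ∑ a, ∑ b, F a b ^ 2 ≤ W * (k ^ 2 * M) + 8 * k * M * (W + 2 * M) := by
  have hM := M_nonneg hk F h0 hG
  have hr := rho_le hk F h0 hG
  have hc := kap_le hk F h0 hG
  set r : Fin k → ℝ := fun a => max (rho F a) (-W - 2 * M) with hrdef
  set c : Fin k → ℝ := fun b => max (kap F b) (-W - 2 * M) with hcdef
  have hr2 : ∀ a, r a ≤ 2 * M := fun a => max_le (hr a) (by linarith)
  have hc2 : ∀ b, c b ≤ 2 * M := fun b => max_le (hc b) (by linarith)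
  have hh : ∀ a b, 0 ≤ F a b - (r a + c b) + M := by
    intro a b
    have h1 := (abs_le.1 (hF a b)).1
    have h2 := hG a b
    unfold G at h2
    have h3 := hr2 a
    have h4 := hc2 b
    rcases max_choice (rho F a) (-W - 2 * M) with e1 | e1 <;>
      rcases max_choice (kap F b) (-W - 2 * M) with e2 | e2 <;>
      simp only [hrdef, hcdef, e1, e2] at h3 h4 ⊢ <;> linarith
  have hpos : 0 ≤ ∑ a, ∑ b, (F a b - (r a + c b) + M) * (W - F a b) :=
    sum_nonneg fun a _ => sum_nonneg fun b _ =>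
      mul_nonneg (hh a b) (by linarith [(abs_le.1 (hF a b)).2])
  have hexp : ∑ a, ∑ b, (F a b - (r a + c b) + M) * (W - F a b) =
      (W - M) * ∑ a, rho F a - W * ∑ a, ∑ b, (r a + c b) + W * (k ^ 2 * M)
        - ∑ a, ∑ b, F a b ^ 2 + ∑ a, ∑ b, F a b * (r a + c b) := by
    have e : ∀ a b, (F a b - (r a + c b) + M) * (W - F a b) =
        (W - M) * F a b - W * (r a + c b) + W * M - F a b ^ 2 + F a b * (r a + c b) := by
      intro a b; ring
    simp only [e]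
    simp only [sum_add_distrib (f := fun b => (W - M) * F _ b - W * (r _ + c b) + W * M - F _ b ^ 2),
      sum_sub_distrib (f := fun b => (W - M) * F _ b - W * (r _ + c b) + W * M),
      sum_add_distrib (f := fun b => (W - M) * F _ b - W * (r _ + c b)),
      sum_sub_distrib (f := fun b => (W - M) * F _ b), ← mul_sum]
    rw [sum_add_distrib, sum_sub_distrib, sum_add_distrib, sum_sub_distrib, ← mul_sum, ← mul_sum]
    simp only [sum_const, card_univ, Fintype.card_fin, nsmul_eq_mul, rho]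
    ring
  rw [hexp, h0, pair_add, sum_add2] at hpos
  have t1 := trunc_sum (rho F) h0 hW hM hr
  have t2 := trunc_sum (kap F) (by rw [sum_kap, h0]) hW hM hc
  have s1 : 0 ≤ ∑ a, r a := by
    rw [← h0]; exact sum_le_sum fun a _ => le_max_left _ _
  have s2 : 0 ≤ ∑ b, c b := by
    rw [← h0, ← sum_kap]; exact sum_le_sum fun a _ => le_max_left _ _
  have hk0 : (0 : ℝ) ≤ k := by positivity
  have s3 : 0 ≤ W * (k * ∑ a, r a + k * ∑ b, c b) := by positivity
  simp only [hrdef, hcdef] at hpos s3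
  nlinarith

lemma FG (F : Fin k → Fin k → ℝ) : ∑ a, ∑ b, F a b * G F a b =
    ∑ a, rho F a ^ 2 + ∑ b, kap F b ^ 2 - ∑ a, ∑ b, F a b ^ 2 := by
  have e : ∀ a b, F a b * G F a b = F a b * (rho F a + kap F b) - F a b ^ 2 := by
    intro a b; unfold G; ring
  simp only [e, sum_sub_distrib, pair_add, sq]

lemma GG (F : Fin k → Fin k → ℝ) (h0 : ∑ a, rho F a = 0) : ∑ a, ∑ b, G F a b ^ 2 =
    (k - 2) * (∑ a, rho F a ^ 2 + ∑ b, kap F b ^ 2) + ∑ a, ∑ b, F a b ^ 2 := by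
  have e : ∀ a b, G F a b ^ 2 = G F a b * (rho F a + kap F b) - F a b * G F a b := by
    intro a b; unfold G; ring
  simp only [e, sum_sub_distrib]
  rw [pair_add, FG]
  have e1 : ∀ a, rho (G F) a = (k - 1) * rho F a := row_G F h0
  have e2 : ∀ b, kap (G F) b = (k - 1) * kap F b := col_G F h0
  simp only [e1, e2]
  have e3 : ∀ x : ℝ, x * ((k - 1) * x) = (k - 1) * x ^ 2 := fun x => by ring
  simp only [e3, ← mul_sum]; ring

theorem two_sided_a (hk : 2 ≤ k) (F : Fin k → Fin k → ℝ) (h0 : ∑ a, rho F a = 0) {m M : ℝ}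
    (hG : ∀ a b, G F a b ≤ M) (hG' : ∀ a b, m ≤ G F a b) :
    4 * ∑ a, ∑ b, F a b ^ 2 ≤ k ^ 2 * (M - m) ^ 2 := by
  have hpos : 0 ≤ ∑ a, ∑ b, (M - G F a b) * (G F a b - m) :=
    sum_nonneg fun a _ => sum_nonneg fun b _ =>
      mul_nonneg (by linarith [hG a b]) (by linarith [hG' a b])
  have e : ∀ a b, (M - G F a b) * (G F a b - m) = (M + m) * G F a b - G F a b ^ 2 - M * m := by
    intro a b; ring
  simp only [e, sum_sub_distrib, ← mul_sum] at hpos
  rw [tot_G F h0, GG F h0] at hpos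
  simp only [sum_const, card_univ, Fintype.card_fin, nsmul_eq_mul] at hpos
  have hk' : (2 : ℝ) ≤ k := by exact_mod_cast hk
  have h1 : 0 ≤ ((k : ℝ) - 2) * (∑ a, rho F a ^ 2 + ∑ b, kap F b ^ 2) :=
    mul_nonneg (by linarith) (by positivity)
  nlinarith [mul_nonneg (sq_nonneg (k : ℝ)) (sq_nonneg (M + m))]

lemma rho_neg (F : Fin k → Fin k → ℝ) (a : Fin k) : rho (fun a b => - F a b) a = - rho F a := by
  simp [rho]

lemma kap_neg (F : Fin k → Fin k → ℝ) (a : Fin k) : kap (fun a b => - F a b) a = - kap F a := by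
  simp [kap]

lemma G_neg (F : Fin k → Fin k → ℝ) (a b : Fin k) : G (fun a b => - F a b) a b = - G F a b := by
  simp only [G, rho_neg, kap_neg]; ring

theorem two_sided_b (hk : 2 ≤ k) (F : Fin k → Fin k → ℝ) (h0 : ∑ a, rho F a = 0) {m M : ℝ}
    (hG : ∀ a b, G F a b ≤ M) (hG' : ∀ a b, m ≤ G F a b) :
    ∑ a, ∑ b, F a b ^ 2 ≤ (M - m) / 2 * ∑ a, ∑ b, |F a b| + 8 * k * (M - m) ^ 2 := by
  have h0' : ∑ a, rho (fun a b => - F a b) a = 0 := by simp [rho_neg, h0]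
  have hGn : ∀ a b, G (fun a b => - F a b) a b ≤ -m := by
    intro a b; rw [G_neg]; linarith [hG' a b]
  have hM := M_nonneg hk F h0 hG
  have hm := M_nonneg hk _ h0' hGn
  have r1 := rho_le hk F h0 hG
  have r2 := rho_le hk _ h0' hGn
  have c1 := kap_le hk F h0 hG
  have c2 := kap_le hk _ h0' hGn
  simp only [rho_neg, kap_neg] at r2 c2
  have sq1 : ∀ x : ℝ, x ≤ 2 * M → -x ≤ 2 * -m → x ^ 2 ≤ 4 * (M - m) ^ 2 := by
    intro x h1 h2; nlinarith
  have s1 : ∑ a, rho F a ^ 2 ≤ k * (4 * (M - m) ^ 2) := by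
    have : ∑ a, rho F a ^ 2 ≤ ∑ _a : Fin k, 4 * (M - m) ^ 2 :=
      sum_le_sum fun a _ => sq1 _ (r1 a) (r2 a)
    simpa using this
  have s2 : ∑ a, kap F a ^ 2 ≤ k * (4 * (M - m) ^ 2) := by
    have : ∑ a, kap F a ^ 2 ≤ ∑ _a : Fin k, 4 * (M - m) ^ 2 :=
      sum_le_sum fun a _ => sq1 _ (c1 a) (c2 a)
    simpa using this
  have hpt : ∀ a b, (M + m) / 2 * F a b - F a b * G F a b ≤ (M - m) / 2 * |F a b| := by
    intro a b
    have h1 := hG a b
    have h2 := hG' a b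
    rcases le_total 0 (F a b) with h | h
    · rw [abs_of_nonneg h]; nlinarith
    · rw [abs_of_nonpos h]; nlinarith
  have hs : ∑ a, ∑ b, ((M + m) / 2 * F a b - F a b * G F a b) ≤
      ∑ a, ∑ b, (M - m) / 2 * |F a b| := sum_le_sum fun a _ => sum_le_sum fun b _ => hpt a b
  simp only [sum_sub_distrib, ← mul_sum] at hs
  rw [FG] at hs
  have h00 : ∑ a, ∑ b, F a b = 0 := h0
  rw [h00] at hs
  linarith

lemma sum_lin (n : ℕ) : ∑ i ∈ range n, (i : ℝ) = n * (n - 1) / 2 := by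
  induction n with
  | zero => simp
  | succ n ih => rw [sum_range_succ, ih]; push_cast; ring

lemma sum_sq' (n : ℕ) : ∑ i ∈ range n, (i : ℝ) ^ 2 = n * (n - 1) * (2 * n - 1) / 6 := by
  induction n with
  | zero => simp
  | succ n ih => rw [sum_range_succ, ih]; push_cast; ring

lemma sum_c1 (n : ℕ) : ∑ i ∈ range n, ((i : ℝ) - (n - 1) / 2) = 0 := by
  rw [sum_sub_distrib, sum_lin]; simp; ring

lemma sum_c2 (n : ℕ) :
    ∑ i ∈ range n, ((i : ℝ) - (n - 1) / 2) ^ 2 = (n : ℝ) * ((n : ℝ) ^ 2 - 1) / 12 := by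
  have e : ∀ x y : ℝ, (x - y / 2) ^ 2 = x ^ 2 - y * x + (y / 2) ^ 2 := by
    intro x y; ring
  simp only [e, sum_add_distrib, sum_sub_distrib, ← mul_sum, sum_lin, sum_sq']
  simp; ring

lemma sum_abs (n : ℕ) : ∑ i ∈ range n, |(i : ℝ) - (n - 1) / 2| ≤ (n : ℝ) ^ 2 / 4 := by
  induction n using Nat.twoStepInduction with
  | zero => simp
  | one => simp
  | more n ih _ =>
    rw [sum_range_succ, sum_range_succ']
    have e : ∀ i : ℕ, |((i + 1 : ℕ) : ℝ) - (((n + 2 : ℕ) : ℝ) - 1) / 2| = |(i : ℝ) - (n - 1) / 2| := by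
      intro i; congr 1; push_cast; ring
    have e' : ∑ i ∈ range n, |((i + 1 : ℕ) : ℝ) - (((n + 2 : ℕ) : ℝ) - 1) / 2| =
        ∑ i ∈ range n, |(i : ℝ) - (n - 1) / 2| := sum_congr rfl fun i _ => e i
    rw [e']
    have hn : (0 : ℝ) ≤ n := by positivity
    have a1 : |((0 : ℕ) : ℝ) - (((n + 2 : ℕ) : ℝ) - 1) / 2| = (n + 1) / 2 := by
      rw [abs_of_nonpos (by push_cast; linarith)]; push_cast; ring
    have a2 : |((n + 1 : ℕ) : ℝ) - (((n + 2 : ℕ) : ℝ) - 1) / 2| = (n + 1) / 2 := by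
      rw [abs_of_nonneg (by push_cast; linarith)]; push_cast; ring
    rw [a1, a2]; push_cast; nlinarith

end Pool.Agent.H18.RookA
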