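import Pool.Agent.H18.RookA

namespace Pool.Agent.H18.RookB

open Finset Pool.Agent.H18.RookA

/-- The `k × k` rooks graph. -/
def rook (k : ℕ) : SimpleGraph (Fin k × Fin k) where
  Adj v w := v ≠ w ∧ (v.1 = w.1 ∨ v.2 = w.2)
  symm := ⟨fun _ _ h => ⟨h.1.symm, h.2.imp Eq.symm Eq.symm⟩⟩
  loopless := ⟨fun _ h => h.1 rfl⟩

/-- `f` is a bijection from the vertex set onto `{1, …, k ^ 2}`. -/
def IsLab (k : ℕ) (f : Fin k × Fin k → ℕ) : Prop := Set.BijOn f Set.univ (Set.Icc 1 (k ^ 2))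

open Classical in
/-- The closed neighbourhood sum `f (N[v])`. -/
noncomputable def nsum {k : ℕ} (f : Fin k × Fin k → ℕ) (v : Fin k × Fin k) : ℕ :=
  ∑ w ∈ univ.filter (fun w => w = v ∨ (rook k).Adj v w), f w

noncomputable def nsMax {k : ℕ} (f : Fin k × Fin k → ℕ) : ℕ := sSup (Set.range (nsum f))

noncomputable def nsMin {k : ℕ} (f : Fin k × Fin k → ℕ) : ℕ := sInf (Set.range (nsum f))

noncomputable def NS (k : ℕ) : ℕ := sInf {m | ∃ f, IsLab k f ∧ nsMax f = m}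

noncomputable def NSminus (k : ℕ) : ℕ := sSup {m | ∃ f, IsLab k f ∧ nsMin f = m}

noncomputable def NSsp (k : ℕ) : ℕ := sInf {m | ∃ f, IsLab k f ∧ nsMax f - nsMin f = m}

variable {k : ℕ}

lemma nsum_eq (f : Fin k × Fin k → ℕ) (a b : Fin k) :
    nsum f (a, b) + f (a, b) = ∑ j, f (a, j) + ∑ i, f (i, b) := by
  classical
  have h1 : ∑ w ∈ univ.filter (fun w : Fin k × Fin k => w.1 = a), f w = ∑ j, f (a, j) := by
    rw [sum_filter, Fintype.sum_prod_type, sum_eq_single a] <;> simp +contextual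
  have h2 : ∑ w ∈ univ.filter (fun w : Fin k × Fin k => w.2 = b), f w = ∑ i, f (i, b) := by
    rw [sum_filter, Fintype.sum_prod_type]; simp
  have h3 := sum_union_inter (s₁ := univ.filter (fun w : Fin k × Fin k => w.1 = a))
    (s₂ := univ.filter (fun w : Fin k × Fin k => w.2 = b)) (f := f)
  have h4 : univ.filter (fun w : Fin k × Fin k => w.1 = a) ∩
      univ.filter (fun w : Fin k × Fin k => w.2 = b) = {(a, b)} := by
    ext ⟨x, y⟩; simp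
  rw [h4, sum_singleton, h1, h2] at h3
  rw [← h3]
  congr 1
  unfold nsum
  refine sum_congr ?_ fun _ _ => rfl
  ext ⟨x, y⟩
  simp only [rook, mem_filter, mem_univ, true_and, mem_union, Prod.mk.injEq, ne_eq]
  constructor
  · rintro (⟨h, -⟩ | ⟨-, h | h⟩)
    · exact Or.inl h
    · exact Or.inl h.symm
    · exact Or.inr h.symm
  · intro h
    by_cases e : x = a ∧ y = b
    · exact Or.inl e
    · exact Or.inr ⟨fun h' => e ⟨h'.1.symm, h'.2.symm⟩, h.imp Eq.symm Eq.symm⟩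

lemma le_nsMax (f : Fin k × Fin k → ℕ) (v) : nsum f v ≤ nsMax f :=
  le_csSup (Set.finite_range _).bddAbove ⟨v, rfl⟩

lemma nsMin_le (f : Fin k × Fin k → ℕ) (v) : nsMin f ≤ nsum f v := Nat.sInf_le ⟨v, rfl⟩

lemma sum_Icc1 (φ : ℕ → ℝ) (n : ℕ) : ∑ y ∈ Icc 1 n, φ y = ∑ i ∈ range n, φ (i + 1) := by
  induction n with
  | zero => simp
  | succ n ih => rw [sum_Icc_succ_top (by omega), ih, sum_range_succ]

lemma sum_lab {f : Fin k × Fin k → ℕ} (hf : IsLab k f) (φ : ℕ → ℝ) :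
    ∑ a, ∑ b, φ (f (a, b)) = ∑ i ∈ range (k ^ 2), φ (i + 1) := by
  rw [← sum_Icc1, ← Fintype.sum_prod_type']
  refine sum_nbij f (fun v _ => ?_) (fun v _ w _ h => hf.injOn trivial trivial h) ?_ fun _ _ => rfl
  · simpa using hf.mapsTo (Set.mem_univ v)
  · intro y hy
    obtain ⟨v, -, hv⟩ := hf.surjOn (by simpa using hy : y ∈ Set.Icc 1 (k ^ 2))
    exact ⟨v, by simp, hv⟩

noncomputable def FF (f : Fin k × Fin k → ℕ) (a b : Fin k) : ℝ :=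
  f (a, b) - ((k : ℝ) ^ 2 + 1) / 2

lemma G_FF (f : Fin k × Fin k → ℕ) (a b : Fin k) :
    G (FF f) a b = nsum f (a, b) - (2 * k - 1) * ((k : ℝ) ^ 2 + 1) / 2 := by
  have h : (nsum f (a, b) : ℝ) + f (a, b) = ∑ j, (f (a, j) : ℝ) + ∑ i, (f (i, b) : ℝ) := by
    exact_mod_cast nsum_eq f a b
  unfold G rho kap FF
  simp only [sum_sub_distrib, sum_const, card_univ, Fintype.card_fin, nsmul_eq_mul]
  linarith

lemma shift (n i : ℕ) : ((i + 1 : ℕ) : ℝ) - ((n : ℝ) + 1) / 2 = (i : ℝ) - (n - 1) / 2 := by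
  push_cast; ring

lemma FF_sum {f : Fin k × Fin k → ℕ} (hf : IsLab k f) : ∑ a, rho (FF f) a = 0 := by
  have := sum_lab hf (fun y => (y : ℝ) - (((k ^ 2 : ℕ) : ℝ) + 1) / 2)
  simp only [shift, sum_c1] at this
  simpa [rho, FF] using this

lemma FF_sq {f : Fin k × Fin k → ℕ} (hf : IsLab k f) :
    ∑ a, ∑ b, FF f a b ^ 2 = (k : ℝ) ^ 2 * ((k : ℝ) ^ 4 - 1) / 12 := by
  have := sum_lab hf (fun y => ((y : ℝ) - (((k ^ 2 : ℕ) : ℝ) + 1) / 2) ^ 2)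
  simp only [shift, sum_c2] at this
  push_cast at this
  unfold FF; rw [this]; ring

lemma FF_abs {f : Fin k × Fin k → ℕ} (hf : IsLab k f) :
    ∑ a, ∑ b, |FF f a b| ≤ (k : ℝ) ^ 4 / 4 := by
  have := sum_lab hf (fun y => |(y : ℝ) - (((k ^ 2 : ℕ) : ℝ) + 1) / 2|)
  simp only [shift] at this
  have h2 := sum_abs (k ^ 2)
  rw [← this] at h2
  push_cast at h2
  unfold FF; linarith

lemma FF_bd {f : Fin k × Fin k → ℕ} (hf : IsLab k f) (a b : Fin k) :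
    |FF f a b| ≤ (k : ℝ) ^ 2 / 2 := by
  obtain ⟨h1, h2⟩ := hf.mapsTo (Set.mem_univ (a, b))
  have h1' : (1 : ℝ) ≤ f (a, b) := by exact_mod_cast h1
  have h2' : (f (a, b) : ℝ) ≤ (k : ℝ) ^ 2 := by exact_mod_cast h2
  unfold FF; rw [abs_le]; constructor <;> linarith

lemma arith1 {K M : ℝ} (hK : 2 ≤ K) (hM : 0 ≤ M)
    (h : K ^ 2 * (K ^ 4 - 1) / 12 ≤ K ^ 2 / 2 * (K ^ 2 * M) + 8 * K * M * (K ^ 2 / 2 + 2 * M)) :
    K ^ 2 / 6 - 3 * K ≤ M := by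
  by_contra hc
  push Not at hc
  have hK0 : 0 < K := by linarith
  have h1 : M ≤ K ^ 2 / 6 := by linarith
  have h2 : 8 * K * M * (K ^ 2 / 2 + 2 * M) ≤ 8 * K * (K ^ 2 / 6) * (K ^ 2 / 2 + 2 * (K ^ 2 / 6)) := by
    gcongr
  have h3 : K ^ 2 / 2 * (K ^ 2 * M) ≤ K ^ 2 / 2 * (K ^ 2 * (K ^ 2 / 6 - 3 * K)) := by gcongr
  have h4 : K ^ 2 * 1 ≤ K ^ 2 * K ^ 3 := by
    gcongr; exact one_le_pow₀ (by linarith)
  have h5 : 0 < K ^ 5 := by positivity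
  nlinarith

lemma arith2 {K D A : ℝ} (hK : 2 ≤ K) (hD : 0 ≤ D) (hA : A ≤ K ^ 4 / 4)
    (h : K ^ 2 * (K ^ 4 - 1) / 12 ≤ D / 2 * A + 8 * K * D ^ 2) :
    2 * K ^ 2 / 3 - 30 * K ≤ D := by
  by_contra hc
  push Not at hc
  have hK0 : 0 < K := by linarith
  have h1 : D ≤ 2 * K ^ 2 / 3 := by linarith
  have h2 : 8 * K * D ^ 2 ≤ 8 * K * (2 * K ^ 2 / 3) ^ 2 := by gcongr
  have h3 : D / 2 * A ≤ D / 2 * (K ^ 4 / 4) := by gcongr
  have h3' : D / 2 * (K ^ 4 / 4) ≤ (2 * K ^ 2 / 3 - 30 * K) / 2 * (K ^ 4 / 4) := by gcongr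
  have h4 : K ^ 2 * 1 ≤ K ^ 2 * K ^ 3 := by
    gcongr; exact one_le_pow₀ (by linarith)
  have h5 : 0 < K ^ 5 := by positivity
  nlinarith

theorem lab_bounds (hk : 2 ≤ k) {f : Fin k × Fin k → ℕ} (hf : IsLab k f) :
    (2 * k - 1) * ((k : ℝ) ^ 2 + 1) / 2 + (k ^ 2 / 6 - 3 * k) ≤ nsMax f ∧
    (nsMin f : ℝ) ≤ (2 * k - 1) * ((k : ℝ) ^ 2 + 1) / 2 - (k ^ 2 / 6 - 3 * k) ∧
    (k : ℝ) ^ 4 - 1 ≤ 3 * ((nsMax f : ℝ) - nsMin f) ^ 2 ∧
    2 * (k : ℝ) ^ 2 / 3 - 30 * k ≤ (nsMax f : ℝ) - nsMin f := by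
  have hK : (2 : ℝ) ≤ k := by exact_mod_cast hk
  set μ : ℝ := (2 * k - 1) * ((k : ℝ) ^ 2 + 1) / 2 with hμ
  have hG : ∀ a b, G (FF f) a b ≤ nsMax f - μ := by
    intro a b; rw [G_FF]
    have : (nsum f (a, b) : ℝ) ≤ nsMax f := by exact_mod_cast le_nsMax f _
    linarith
  have hG' : ∀ a b, nsMin f - μ ≤ G (FF f) a b := by
    intro a b; rw [G_FF]
    have : (nsMin f : ℝ) ≤ nsum f (a, b) := by exact_mod_cast nsMin_le f _
    linarith
  have h0 := FF_sum hf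
  have h0' : ∑ a, rho (fun a b => - FF f a b) a = 0 := by simp [rho_neg, h0]
  have hGn : ∀ a b, G (fun a b => - FF f a b) a b ≤ μ - nsMin f := by
    intro a b; rw [G_neg]; linarith [hG' a b]
  have hM := M_nonneg hk _ h0 hG
  have hm := M_nonneg hk _ h0' hGn
  have hW : (0 : ℝ) ≤ (k : ℝ) ^ 2 / 2 := by positivity
  have o1 := one_sided hk _ h0 hW (FF_bd hf) hG
  have o2 := one_sided hk _ h0' hW (fun a b => by rw [abs_neg]; exact FF_bd hf a b) hGn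
  simp only [neg_sq] at o2
  have t1 := two_sided_a hk _ h0 hG hG'
  have t2 := two_sided_b hk _ h0 hG hG'
  rw [FF_sq hf] at o1 o2 t1 t2
  have e : (nsMax f : ℝ) - μ - (nsMin f - μ) = nsMax f - nsMin f := by ring
  rw [e] at t1 t2
  refine ⟨by linarith [arith1 hK hM o1], by linarith [arith1 hK hm o2], ?_,
    arith2 hK (by linarith) (FF_abs hf) t2⟩
  have hk2 : (0 : ℝ) < (k : ℝ) ^ 2 := by positivity
  refine le_of_mul_le_mul_left ?_ hk2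
  linarith

lemma exists_lab (k : ℕ) : ∃ f, IsLab k f := by
  let e : Fin k × Fin k ≃ Fin (k ^ 2) := Fintype.equivFinOfCardEq (by simp [sq])
  refine ⟨fun v => (e v : ℕ) + 1, fun v _ => ⟨by simp, by have := (e v).2; simp only; omega⟩,
    fun v _ w _ h => e.injective (Fin.ext (by simpa using h)), fun y hy => ?_⟩
  obtain ⟨h1, h2⟩ := hy
  exact ⟨e.symm ⟨y - 1, by omega⟩, trivial, by simp; omega⟩

end Pool.Agent.H18.RookB
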