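import Mathlib

namespace Pool.Agent.H18.RookC

open Finset

def sp (m u : ℕ) : ℕ := (3 * (m * m) + m * u) / 4

noncomputable def P (m t : ℕ) : ℕ := Nat.nth (fun x => x ∉ (range m).image (sp m)) t

lemma inf_set (m : ℕ) : (setOf (fun x => x ∉ (range m).image (sp m))).Infinite :=
  ((range m).image (sp m)).finite_toSet.infinite_compl

lemma P_mono (m : ℕ) : StrictMono (P m) := Nat.nth_strictMono (inf_set m)

lemma P_ge (m t : ℕ) : t ≤ P m t := (P_mono m).le_apply

lemma P_ne (m t u : ℕ) (hu : u < m) : P m t ≠ sp m u := by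
  intro h
  have := Nat.nth_mem_of_infinite (inf_set m) t
  exact this (mem_image.2 ⟨u, mem_range.2 hu, h.symm⟩)

lemma P_lt (m t : ℕ) (ht : t + m < m * m) : P m t < m * m := by
  classical
  apply Nat.nth_lt_of_lt_count
  rw [Nat.count_eq_card_filter_range]
  have h1 : range (m * m) ⊆ (range (m * m)).filter (fun x => x ∉ (range m).image (sp m)) ∪
      (range m).image (sp m) := by
    intro x hx
    by_cases h : x ∈ (range m).image (sp m)
    · exact mem_union_right _ h
    · exact mem_union_left _ (mem_filter.2 ⟨hx, h⟩)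
  have h2 := (card_le_card h1).trans (card_union_le _ _)
  have h3 : ((range m).image (sp m)).card ≤ m := card_image_le.trans (by simp)
  rw [card_range] at h2
  convert (by omega : t < ((range (m * m)).filter (fun x => x ∉ (range m).image (sp m))).card)

lemma sp_lt (m u : ℕ) (hu : u < m) : sp m u < m * m := by
  unfold sp
  have : m * u < m * m := Nat.mul_lt_mul_of_pos_left hu (by omega)
  omega

lemma sp_inj (m u v : ℕ) (hm : 4 ≤ m) (h : sp m u = sp m v) : u = v := by
  unfold sp at h
  rcases lt_trichotomy u v with h' | h' | h'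
  · have : m * (u + 1) ≤ m * v := Nat.mul_le_mul_left _ h'
    rw [mul_add] at this; omega
  · exact h'
  · have : m * (v + 1) ≤ m * u := Nat.mul_le_mul_left _ h'
    rw [mul_add] at this; omega

lemma idx_inj (n j i j' i' : ℕ) (hi : i < n) (hi' : i' < n) (h : j * n + i = j' * n + i') :
    j = j' ∧ i = i' := by
  have : j = j' := by
    rcases lt_trichotomy j j' with h' | h' | h'
    · have : (j + 1) * n ≤ j' * n := Nat.mul_le_mul_right _ h'
      rw [add_mul] at this; omega
    · exact h'
    · have : (j' + 1) * n ≤ j * n := Nat.mul_le_mul_right _ h'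
      rw [add_mul] at this; omega
  subst this; omega

lemma idx_lt (m j i : ℕ) (hj : j < m) (hi : i < m - 1) : j * (m - 1) + i + m < m * m := by
  obtain ⟨n, rfl⟩ : ∃ n, m = n + 1 := ⟨m - 1, by omega⟩
  simp only [Nat.add_sub_cancel] at *
  have : j * n ≤ n * n := Nat.mul_le_mul_right _ (by omega)
  nlinarith

/-- pair index of an inner cell -/
noncomputable def pr (m a b : ℕ) : ℕ :=
  if b / 2 < m - 1 then P m ((a / 2) * (m - 1) + b / 2)
  else if a < m then sp m a else sp m (2 * m - 1 - a)

noncomputable def lowv (m a b : ℕ) : ℕ :=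
  if a < 2 * m ∧ b < 2 * m then 2 * pr m a b + 1 + b % 2
  else if a < 2 * m then 2 * (m * m) + 1 + a / 2
  else if b < 2 * m then 2 * (m * m) + m + 1 + b / 2
  else 2 * (m * m) + 2 * m + 1

def isLow (m a b : ℕ) : Prop :=
  if a < 2 * m ∧ b < 2 * m then (if b / 2 < m - 1 then a % 2 = b % 2 else a < m)
  else if a < 2 * m then a % 2 = 0
  else if b < 2 * m then b % 2 = 0
  else True

open Classical in
noncomputable def val (m N a b : ℕ) : ℕ := if isLow m a b then lowv m a b else N - lowv m a b

lemma pr_lt (m a b : ℕ) (ha : a < 2 * m) : pr m a b < m * m := by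
  unfold pr
  split_ifs with h1 h2
  · exact P_lt _ _ (idx_lt m _ _ (by omega) h1)
  · exact sp_lt _ _ h2
  · exact sp_lt _ _ (by omega)

/-- the size condition: `k = 2m` or `k = 2m+1`, `N = k ^ 2 + 1` -/
def OK (m k N : ℕ) : Prop :=
  4 ≤ m ∧ ((k = 2 * m ∧ N = 4 * (m * m) + 1) ∨ (k = 2 * m + 1 ∧ N = 4 * (m * m) + 4 * m + 2))

lemma lowv_bd {m k N a b : ℕ} (h : OK m k N) (ha : a < k) (hb : b < k) :
    1 ≤ lowv m a b ∧ (2 * lowv m a b < N ∨ (2 * lowv m a b = N ∧ a = 2 * m ∧ b = 2 * m)) := by
  obtain ⟨hm, h⟩ := h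
  unfold lowv
  split_ifs with h1 h2 h3
  · have := pr_lt m a b h1.1; omega
  all_goals omega

lemma inner_le {m a b : ℕ} (ha : a < 2 * m) (hb : b < 2 * m) : lowv m a b ≤ 2 * (m * m) := by
  have := pr_lt m a b ha
  unfold lowv; rw [if_pos ⟨ha, hb⟩]; omega

lemma low_inj {m k N a b a' b' : ℕ} (h : OK m k N) (ha : a < k) (hb : b < k) (ha' : a' < k)
    (hb' : b' < k) (e : lowv m a b = lowv m a' b') (s : isLow m a b ↔ isLow m a' b') :
    a = a' ∧ b = b' := by
  obtain ⟨hm, h⟩ := h
  by_cases h1 : a < 2 * m ∧ b < 2 * m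
  · by_cases h1' : a' < 2 * m ∧ b' < 2 * m
    · unfold lowv at e
      unfold isLow at s
      rw [if_pos h1, if_pos h1'] at e s
      have e1 : pr m a b = pr m a' b' := by omega
      have e2 : b % 2 = b' % 2 := by omega
      unfold pr at e1
      by_cases c : b / 2 < m - 1
      · by_cases c' : b' / 2 < m - 1
        · rw [if_pos c, if_pos c'] at e1 s
          have := idx_inj _ _ _ _ _ c c' ((P_mono m).injective e1)
          omega
        · rw [if_pos c, if_neg c'] at e1
          split_ifs at e1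
          · exact absurd e1 (P_ne _ _ _ (by omega))
          · exact absurd e1 (P_ne _ _ _ (by omega))
      · by_cases c' : b' / 2 < m - 1
        · rw [if_neg c, if_pos c'] at e1
          split_ifs at e1
          · exact absurd e1.symm (P_ne _ _ _ (by omega))
          · exact absurd e1.symm (P_ne _ _ _ (by omega))
        · rw [if_neg c, if_neg c'] at e1 s
          split_ifs at e1 <;> have := sp_inj _ _ _ hm e1 <;> omega
    · have := inner_le h1.1 h1.2
      rw [e] at this
      unfold lowv at this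
      rw [if_neg h1'] at this
      split_ifs at this <;> omega
  · by_cases h1' : a' < 2 * m ∧ b' < 2 * m
    · have := inner_le h1'.1 h1'.2
      rw [← e] at this
      unfold lowv at this
      rw [if_neg h1] at this
      split_ifs at this <;> omega
    · unfold lowv at e
      unfold isLow at s
      rw [if_neg h1, if_neg h1'] at e s
      split_ifs at e s <;> omega

lemma val_cases (m N a b : ℕ) : (isLow m a b ∧ val m N a b = lowv m a b) ∨
    (¬ isLow m a b ∧ val m N a b = N - lowv m a b) := by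
  unfold val
  by_cases h : isLow m a b
  · exact Or.inl ⟨h, if_pos h⟩
  · exact Or.inr ⟨h, if_neg h⟩

lemma val_bd {m k N a b : ℕ} (h : OK m k N) (ha : a < k) (hb : b < k) :
    1 ≤ val m N a b ∧ val m N a b < N := by
  have := lowv_bd h ha hb
  rcases val_cases m N a b with ⟨-, e⟩ | ⟨-, e⟩ <;> omega

lemma val_inj {m k N a b a' b' : ℕ} (h : OK m k N) (ha : a < k) (hb : b < k) (ha' : a' < k)
    (hb' : b' < k) (e : val m N a b = val m N a' b') : a = a' ∧ b = b' := by
  have l1 := lowv_bd h ha hb
  have l2 := lowv_bd h ha' hb'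
  rcases val_cases m N a b with ⟨s1, e1⟩ | ⟨s1, e1⟩ <;>
    rcases val_cases m N a' b' with ⟨s2, e2⟩ | ⟨s2, e2⟩
  · exact low_inj h ha hb ha' hb' (by omega) (iff_of_true s1 s2)
  · omega
  · omega
  · exact low_inj h ha hb ha' hb' (by omega) (iff_of_false s1 s2)

lemma val_ge {m k N a b : ℕ} (h : OK m k N) (ha : a < k) (hb : b < k) :
    m * a ≤ val m N a b + 3 * m := by
  have l1 := lowv_bd h ha hb
  obtain ⟨hm, h⟩ := h
  have hma : m * a ≤ 2 * (m * m) := by
    have : m * a ≤ m * (2 * m) := Nat.mul_le_mul_left _ (by omega)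
    nlinarith
  rcases val_cases m N a b with ⟨s1, e1⟩ | ⟨s1, e1⟩
  · rw [e1]
    unfold isLow at s1
    unfold lowv
    split_ifs with h1 h2 h3
    · rw [if_pos h1] at s1
      unfold pr
      split_ifs with c1 c2
      · have := P_ge m (a / 2 * (m - 1) + b / 2)
        obtain ⟨n, rfl⟩ : ∃ n, m = n + 1 := ⟨m - 1, by omega⟩
        simp only [Nat.add_sub_cancel] at *
        have h5 : a ≤ 2 * (a / 2) + 1 := by omega
        have h6 : n * a ≤ n * (2 * (a / 2) + 1) := Nat.mul_le_mul_left _ h5
        have h7 : n * (2 * (a / 2) + 1) = 2 * (a / 2 * n) + n := by ring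
        have h8 : (n + 1) * a = n * a + a := by ring
        omega
      · unfold sp
        have : m * a ≤ m * m := Nat.mul_le_mul_left _ (by omega)
        omega
      · rw [if_neg c1] at s1; omega
    all_goals omega
  · omega

lemma sum_pairs (g : ℕ → ℕ) (n : ℕ) :
    ∑ b ∈ range (2 * n), g b = ∑ i ∈ range n, (g (2 * i) + g (2 * i + 1)) := by
  induction n with
  | zero => simp
  | succ n ih => rw [mul_add, mul_one, sum_range_succ, sum_range_succ, ih, sum_range_succ]; ring

lemma sum_le_const (g : ℕ → ℕ) (n c : ℕ) (h : ∀ i < n, g i ≤ c) : ∑ i ∈ range n, g i ≤ n * c := by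
  have := sum_le_card_nsmul (range n) g c (fun i hi => h i (mem_range.1 hi))
  simpa using this

lemma row_pair {m k N a i : ℕ} (h : OK m k N) (ha : a < k) (hi : i < m - 1 ∨ (i < m ∧ a = 2 * m)) :
    val m N a (2 * i) + val m N a (2 * i + 1) ≤ N + 1 := by
  have hk : 2 * m ≤ k := by rcases h.2 with h | h <;> omega
  have l1 := lowv_bd h ha (by omega : 2 * i < k)
  have l2 := lowv_bd h ha (by omega : 2 * i + 1 < k)
  obtain ⟨hm, h⟩ := h
  have d1 : 2 * i / 2 = i := by omega
  have d2 : (2 * i + 1) / 2 = i := by omega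
  have e : lowv m a (2 * i) ≤ lowv m a (2 * i + 1) ∧ lowv m a (2 * i + 1) ≤ lowv m a (2 * i) + 1 := by
    unfold lowv pr
    rw [d1, d2]
    split_ifs <;> omega
  have s : ¬ (isLow m a (2 * i) ↔ isLow m a (2 * i + 1)) := by
    unfold isLow
    rw [d1, d2]
    split_ifs <;> omega
  rcases val_cases m N a (2 * i) with ⟨s1, e1⟩ | ⟨s1, e1⟩ <;>
    rcases val_cases m N a (2 * i + 1) with ⟨s2, e2⟩ | ⟨s2, e2⟩
  · exact absurd (iff_of_true s1 s2) s
  · omega
  · omega
  · exact absurd (iff_of_false s1 s2) s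

lemma row_special {m k N a : ℕ} (h : OK m k N) (ha : a < k) :
    val m N a (2 * (m - 1)) + val m N a (2 * (m - 1) + 1) ≤ 3 * (m * m) + m * a + 9 * m + 4 := by
  by_cases ha2 : a < 2 * m
  · obtain ⟨hm, h⟩ := h
    have d1 : 2 * (m - 1) / 2 = m - 1 := by omega
    have d2 : (2 * (m - 1) + 1) / 2 = m - 1 := by omega
    have c1 : a < 2 * m ∧ 2 * (m - 1) < 2 * m := by omega
    have c2 : a < 2 * m ∧ 2 * (m - 1) + 1 < 2 * m := by omega
    unfold val isLow lowv pr
    rw [d1, d2]
    simp only [c1, c2, and_self, if_true, lt_irrefl, if_false]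
    split_ifs with c
    · unfold sp; omega
    · have hs := sp_lt m (2 * m - 1 - a) (by omega)
      have hu : m * (2 * m - 1 - a) + m * a + m = 2 * (m * m) := by
        have : 2 * m - 1 - a + a + 1 = 2 * m := by omega
        calc m * (2 * m - 1 - a) + m * a + m = m * (2 * m - 1 - a + a + 1) := by ring
          _ = 2 * (m * m) := by rw [this]; ring
      unfold sp at hs ⊢
      omega
  · have hk := h.2
    have e : a = 2 * m := by omega
    have := row_pair (i := m - 1) h ha (Or.inr ⟨by have := h.1; omega, e⟩)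
    have h2 : m * a = 2 * (m * m) := by rw [e]; ring
    omega

lemma extra_le {m k N a b : ℕ} (h : OK m k N) (ha : a < k) (hb : b < k)
    (hx : a = 2 * m ∨ b = 2 * m) : val m N a b ≤ 2 * (m * m) + 4 * m + 1 := by
  have l1 := lowv_bd h ha hb
  obtain ⟨hm, h⟩ := h
  have : 2 * (m * m) + 1 ≤ lowv m a b := by
    unfold lowv; split_ifs <;> omega
  rcases val_cases m N a b with ⟨-, e⟩ | ⟨-, e⟩ <;> omega

lemma row_inner {m k N a : ℕ} (h : OK m k N) (ha : a < k) :
    ∑ b ∈ range (2 * m), val m N a b ≤ (m - 1) * (N + 1) + (3 * (m * m) + m * a + 9 * m + 4) := by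
  rw [sum_pairs]
  have hm := h.1
  have e : ∑ i ∈ range m, (val m N a (2 * i) + val m N a (2 * i + 1)) =
      ∑ i ∈ range (m - 1 + 1), (val m N a (2 * i) + val m N a (2 * i + 1)) := by
    rw [Nat.sub_add_cancel (by omega)]
  rw [e, sum_range_succ]
  exact add_le_add (sum_le_const _ _ _ fun i hi => row_pair h ha (Or.inl hi)) (row_special h ha)

lemma col_pair {m k N b j : ℕ} (h : OK m k N) (hb : b < k) (hj : j < m)
    (hc : b / 2 < m - 1 ∨ b = 2 * m) :
    val m N (2 * j) b + val m N (2 * j + 1) b ≤ N := by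
  have hk : 2 * m ≤ k := by rcases h.2 with h | h <;> omega
  have l1 := lowv_bd h (by omega : 2 * j < k) hb
  have l2 := lowv_bd h (by omega : 2 * j + 1 < k) hb
  obtain ⟨hm, h⟩ := h
  have d1 : 2 * j / 2 = j := by omega
  have d2 : (2 * j + 1) / 2 = j := by omega
  have e : lowv m (2 * j) b = lowv m (2 * j + 1) b := by
    unfold lowv pr
    rw [d1, d2]
    split_ifs <;> omega
  have s : ¬ (isLow m (2 * j) b ↔ isLow m (2 * j + 1) b) := by
    unfold isLow
    split_ifs <;> omega
  rcases val_cases m N (2 * j) b with ⟨s1, e1⟩ | ⟨s1, e1⟩ <;>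
    rcases val_cases m N (2 * j + 1) b with ⟨s2, e2⟩ | ⟨s2, e2⟩
  · exact absurd (iff_of_true s1 s2) s
  · omega
  · omega
  · exact absurd (iff_of_false s1 s2) s

lemma col_spec {m k N b j : ℕ} (h : OK m k N) (hb : b < 2 * m) (hj : j < m)
    (hc : ¬ b / 2 < m - 1) : val m N j b + val m N (m + (m - 1 - j)) b ≤ N := by
  have hk : 2 * m ≤ k := by rcases h.2 with h | h <;> omega
  have l1 := lowv_bd h (by omega : j < k) (by omega : b < k)
  have c1 : j < 2 * m ∧ b < 2 * m := by omega
  have c2 : m + (m - 1 - j) < 2 * m ∧ b < 2 * m := by omega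
  have c3 : ¬ m + (m - 1 - j) < m := by omega
  have c4 : 2 * m - 1 - (m + (m - 1 - j)) = j := by omega
  have e : lowv m (m + (m - 1 - j)) b = lowv m j b := by
    unfold lowv pr
    simp only [c1, c2, c3, c4, hc, hj, and_self, if_true, if_false]
  have s1 : isLow m j b := by
    unfold isLow; simp only [c1, hc, hj, and_self, if_true, if_false]
  have s2 : ¬ isLow m (m + (m - 1 - j)) b := by
    unfold isLow; simp only [c2, hc, c3, and_self, if_true, if_false]; exact not_false
  unfold val
  rw [if_pos s1, if_neg s2, e]; omega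

lemma col_inner {m k N b : ℕ} (h : OK m k N) (hb : b < k) :
    ∑ a ∈ range (2 * m), val m N a b ≤ m * N := by
  by_cases hc : b / 2 < m - 1 ∨ b = 2 * m
  · rw [sum_pairs]
    exact sum_le_const _ _ _ fun j hj => col_pair h hb hj hc
  · have hk := h.2
    rw [two_mul, sum_range_add, ← sum_range_reflect (fun j => val m N (m + j) b) m,
      ← sum_add_distrib]
    exact sum_le_const _ _ _ fun j hj => col_spec h (by omega) hj (by omega)

theorem main {m k N a b : ℕ} (h : OK m k N) (ha : a < k) (hb : b < k) :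
    2 * (∑ j ∈ range k, val m N a j + ∑ i ∈ range k, val m N i b) + N ≤
      2 * val m N a b + 2 * k * N + 2 * (m * m) + 30 * m + 5 := by
  have r := row_inner h ha
  have c := col_inner h hb
  have g := val_ge h ha hb
  have hm := h.1
  have e1 : (m - 1) * (N + 1) + N + 1 = m * N + m := by
    obtain ⟨n, rfl⟩ : ∃ n, m = n + 1 := ⟨m - 1, by omega⟩
    simp only [Nat.add_sub_cancel]; ring
  rcases h.2 with ⟨hk, hN⟩ | ⟨hk, hN⟩
  · have e2 : 2 * k * N = 4 * (m * N) := by rw [hk]; ring
    rw [e2]
    subst hk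
    omega
  · have e2 : 2 * k * N = 4 * (m * N) + 2 * N := by rw [hk]; ring
    have x1 := extra_le h ha (by omega : 2 * m < k) (Or.inr rfl)
    have x2 := extra_le h (by omega : 2 * m < k) hb (Or.inl rfl)
    rw [e2]
    subst hk
    rw [sum_range_succ, sum_range_succ]
    omega

end Pool.Agent.H18.RookC
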