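import Pool.Agent.H18.RookB
import Pool.Agent.H18.RookC

namespace Pool.Agent.H18.RookD

open Finset Pool.Agent.H18.RookA Pool.Agent.H18.RookB

variable {k : ℕ}

lemma isLab_of_inj {f : Fin k × Fin k → ℕ} (h1 : ∀ v, 1 ≤ f v ∧ f v ≤ k ^ 2)
    (h2 : Function.Injective f) : IsLab k f := by
  have hb := (h2.injOn (s := Set.univ)).bijOn_image
  have : f '' Set.univ = Set.Icc 1 (k ^ 2) := by
    apply Set.eq_of_subset_of_ncard_le
    · rintro _ ⟨v, -, rfl⟩; exact h1 v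
    · rw [Set.ncard_image_of_injective _ h2, Set.ncard_univ, ← Finset.coe_Icc, Set.ncard_coe_finset]
      simp [sq]
    · exact Set.finite_Icc _ _
  unfold IsLab; rw [← this]; exact hb

lemma isLab_compl {f : Fin k × Fin k → ℕ} (hf : IsLab k f) :
    IsLab k (fun v => k ^ 2 + 1 - f v) := by
  have hb : ∀ v, 1 ≤ f v ∧ f v ≤ k ^ 2 := fun v => hf.mapsTo (Set.mem_univ v)
  refine isLab_of_inj (fun v => by have := hb v; omega) fun v w h => ?_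
  refine hf.injOn trivial trivial ?_
  have := hb v; have := hb w
  omega

lemma nsum_compl {f : Fin k × Fin k → ℕ} (hf : IsLab k f) (v : Fin k × Fin k) :
    (nsum (fun v => k ^ 2 + 1 - f v) v : ℝ) = (2 * k - 1) * ((k : ℝ) ^ 2 + 1) - nsum f v := by
  obtain ⟨a, b⟩ := v
  have hb : ∀ v, 1 ≤ f v ∧ f v ≤ k ^ 2 := fun v => hf.mapsTo (Set.mem_univ v)
  have e : FF (fun v => k ^ 2 + 1 - f v) = fun a b => - FF f a b := by
    funext a b
    unfold FF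
    rw [Nat.cast_sub (by have := hb (a, b); omega)]; push_cast; ring
  have h1 := G_FF (fun v => k ^ 2 + 1 - f v) a b
  rw [e, G_neg, G_FF] at h1
  linarith

lemma nsMax_mem (hk : 0 < k) (f : Fin k × Fin k → ℕ) : ∃ v, nsum f v = nsMax f :=
  Nat.sSup_mem (s := Set.range (nsum f)) ⟨_, (⟨0, hk⟩, ⟨0, hk⟩), rfl⟩ (Set.finite_range _).bddAbove

lemma nsMin_mem (hk : 0 < k) (f : Fin k × Fin k → ℕ) : ∃ v, nsum f v = nsMin f :=
  Nat.sInf_mem (s := Set.range (nsum f)) ⟨_, (⟨0, hk⟩, ⟨0, hk⟩), rfl⟩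

lemma good (hk : 8 ≤ k) : ∃ f, IsLab k f ∧ ∀ v,
    (nsum f v : ℝ) ≤ (2 * k - 1) * ((k : ℝ) ^ 2 + 1) / 2 + (k ^ 2 / 4 + 8 * k) := by
  have hOK : RookC.OK (k / 2) k (k ^ 2 + 1) := by
    refine ⟨by omega, ?_⟩
    rcases Nat.even_or_odd' k with ⟨m, h | h⟩
    · left
      have : k / 2 = m := by omega
      rw [this, h]; exact ⟨rfl, by ring⟩
    · right
      have : k / 2 = m := by omega
      rw [this, h]; exact ⟨rfl, by ring⟩
  let f : Fin k × Fin k → ℕ := fun v => RookC.val (k / 2) (k ^ 2 + 1) v.1 v.2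
  refine ⟨f, isLab_of_inj (fun v => ?_) (fun v w h => ?_), fun v => ?_⟩
  · have := RookC.val_bd hOK v.1.2 v.2.2
    simp only [f]; omega
  · have := RookC.val_inj hOK v.1.2 v.2.2 w.1.2 w.2.2 h
    exact Prod.ext (Fin.ext this.1) (Fin.ext this.2)
  · obtain ⟨a, b⟩ := v
    have h1 := nsum_eq f a b
    have h2 := RookC.main hOK a.2 b.2
    rw [← Fin.sum_univ_eq_sum_range (fun j => RookC.val (k / 2) (k ^ 2 + 1) a j),
      ← Fin.sum_univ_eq_sum_range (fun i => RookC.val (k / 2) (k ^ 2 + 1) i b)] at h2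
    simp only [f] at h1
    have hm : 2 * (k / 2) ≤ k := by omega
    have hmm : 4 * (k / 2 * (k / 2)) ≤ k ^ 2 := by
      have := Nat.mul_le_mul hm hm
      calc 4 * (k / 2 * (k / 2)) = 2 * (k / 2) * (2 * (k / 2)) := by ring
        _ ≤ k * k := this
        _ = k ^ 2 := by ring
    have h3 : 4 * nsum f (a, b) + 2 * (k ^ 2 + 1) ≤ 2 * (2 * k * (k ^ 2 + 1)) + k ^ 2 + 32 * k := by
      simp only [f]; omega
    have h4 : 4 * (nsum f (a, b) : ℝ) + 2 * ((k : ℝ) ^ 2 + 1) ≤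
        2 * (2 * k * ((k : ℝ) ^ 2 + 1)) + k ^ 2 + 32 * k := by exact_mod_cast h3
    linarith

lemma NS_mem (k : ℕ) : ∃ f, IsLab k f ∧ nsMax f = NS k := by
  obtain ⟨f, hf⟩ := exists_lab k
  exact Nat.sInf_mem (s := {m | ∃ f, IsLab k f ∧ nsMax f = m}) ⟨_, f, hf, rfl⟩

lemma NSsp_mem (k : ℕ) : ∃ f, IsLab k f ∧ nsMax f - nsMin f = NSsp k := by
  obtain ⟨f, hf⟩ := exists_lab k
  exact Nat.sInf_mem (s := {m | ∃ f, IsLab k f ∧ nsMax f - nsMin f = m}) ⟨_, f, hf, rfl⟩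

lemma bddMin (hk : 2 ≤ k) : BddAbove {m | ∃ f, IsLab k f ∧ nsMin f = m} := by
  obtain ⟨B, hB⟩ := exists_nat_ge
    ((2 * k - 1) * ((k : ℝ) ^ 2 + 1) / 2 - (k ^ 2 / 6 - 3 * k))
  refine ⟨B, ?_⟩
  rintro _ ⟨f, hf, rfl⟩
  exact_mod_cast (lab_bounds hk hf).2.1.trans hB

lemma NSminus_mem (hk : 2 ≤ k) : ∃ f, IsLab k f ∧ nsMin f = NSminus k := by
  obtain ⟨f, hf⟩ := exists_lab k
  exact Nat.sSup_mem (s := {m | ∃ f, IsLab k f ∧ nsMin f = m}) ⟨_, f, hf, rfl⟩ (bddMin hk)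

lemma min_le_max (hk : 0 < k) (f : Fin k × Fin k → ℕ) : nsMin f ≤ nsMax f :=
  (nsMin_le f (⟨0, hk⟩, ⟨0, hk⟩)).trans (le_nsMax f _)

end Pool.Agent.H18.RookD
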