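import Pool.Agent.H18.RookD

namespace Pool.Agent.H18.RookE

open Finset Pool.Agent.H18.RookB Pool.Agent.H18.RookD

def rw0 (M a : ℕ) : ℕ := if a < 2 * M then a else a - 2 * M

def tt (M a g : ℕ) : ℕ := g * (2 * M) + rw0 M a

def uu (M a b : ℕ) : ℕ := (b % 4) * (2 * (M * M)) + tt M a (b / 4)

def sg (M b : ℕ) : Prop :=
  if b / 4 = 0 then (b % 4 = 0 ∨ b % 4 = 2)
  else if b / 4 = 3 * M / 4 then b % 4 ≠ 3 else (b % 4 = 1 ∨ b % 4 = 2)

open Classical in
noncomputable def val (M a b : ℕ) : ℕ :=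
  if (a < 2 * M ↔ sg M b) then 8 * (M * M) + 1 + uu M a b else 8 * (M * M) - uu M a b

lemma rw0_lt {M a : ℕ} (ha : a < 4 * M) : rw0 M a < 2 * M := by
  unfold rw0; split_ifs <;> omega

lemma tt_lt {M a g : ℕ} (ha : a < 4 * M) (hg : g < M) : tt M a g < 2 * (M * M) := by
  have h1 := rw0_lt ha
  have h2 : (g + 1) * (2 * M) ≤ M * (2 * M) := Nat.mul_le_mul_right _ hg
  unfold tt; nlinarith

lemma uu_cases (M a b : ℕ) :
    (b % 4 = 0 ∧ uu M a b = tt M a (b / 4)) ∨ (b % 4 = 1 ∧ uu M a b = 2 * (M * M) + tt M a (b / 4)) ∨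
    (b % 4 = 2 ∧ uu M a b = 4 * (M * M) + tt M a (b / 4)) ∨
    (b % 4 = 3 ∧ uu M a b = 6 * (M * M) + tt M a (b / 4)) := by
  have : b % 4 = 0 ∨ b % 4 = 1 ∨ b % 4 = 2 ∨ b % 4 = 3 := by omega
  unfold uu
  rcases this with h | h | h | h <;> rw [h] <;> omega

lemma val_cases (M a b : ℕ) :
    ((a < 2 * M ↔ sg M b) ∧ val M a b = 8 * (M * M) + 1 + uu M a b) ∨
    (¬ (a < 2 * M ↔ sg M b) ∧ val M a b = 8 * (M * M) - uu M a b) := by
  unfold val
  by_cases h : (a < 2 * M ↔ sg M b)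
  · exact Or.inl ⟨h, if_pos h⟩
  · exact Or.inr ⟨h, if_neg h⟩

lemma val_bd {M a b : ℕ} (ha : a < 4 * M) (hb : b < 4 * M) :
    1 ≤ val M a b ∧ val M a b ≤ 16 * (M * M) := by
  have h1 := tt_lt ha (show b / 4 < M by omega)
  have h2 := uu_cases M a b
  have h3 := val_cases M a b
  omega

lemma val_inj {M a b a' b' : ℕ} (ha : a < 4 * M) (hb : b < 4 * M) (ha' : a' < 4 * M)
    (hb' : b' < 4 * M) (e : val M a b = val M a' b') : a = a' ∧ b = b' := by
  have h1 := tt_lt ha (show b / 4 < M by omega)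
  have h1' := tt_lt ha' (show b' / 4 < M by omega)
  have h2 := uu_cases M a b
  have h2' := uu_cases M a' b'
  have key : uu M a b = uu M a' b' → rw0 M a = rw0 M a' ∧ b = b' := by
    intro h
    have e1 : tt M a (b / 4) = tt M a' (b' / 4) := by omega
    have := RookC.idx_inj _ _ _ _ _ (rw0_lt ha) (rw0_lt ha') e1
    omega
  rcases val_cases M a b with ⟨s1, e1⟩ | ⟨s1, e1⟩ <;>
    rcases val_cases M a' b' with ⟨s2, e2⟩ | ⟨s2, e2⟩
  · obtain ⟨h3, rfl⟩ := key (by omega)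
    have := s1.trans s2.symm
    unfold rw0 at h3; split_ifs at h3 <;> omega
  · omega
  · omega
  · obtain ⟨h3, rfl⟩ := key (by omega)
    have : a < 2 * M ↔ a' < 2 * M := by tauto
    unfold rw0 at h3; split_ifs at h3 <;> omega

lemma val_range {M a b : ℕ} (ha : a < 4 * M) (hb : b < 4 * M) :
    (a < 2 * M → val M a b ≤ 14 * (M * M)) ∧ (¬ a < 2 * M → 2 * (M * M) + 1 ≤ val M a b) := by
  have h1 := tt_lt ha (show b / 4 < M by omega)
  have h2 := uu_cases M a b
  have h4 : sg M b → b % 4 ≠ 3 := by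
    unfold sg; split_ifs <;> omega
  rcases val_cases M a b with ⟨s1, e1⟩ | ⟨s1, e1⟩
  · refine ⟨fun h => ?_, fun h => by omega⟩
    have := h4 (s1.1 h); omega
  · refine ⟨fun h => by omega, fun h => ?_⟩
    have := h4 (by tauto); omega

lemma col_sum {M b : ℕ} (hb : b < 4 * M) :
    ∑ a ∈ range (4 * M), val M a b = 2 * M * (16 * (M * M) + 1) := by
  rw [show 4 * M = 2 * M + 2 * M by ring, sum_range_add, ← sum_add_distrib]
  rw [sum_congr rfl (g := fun _ => 16 * (M * M) + 1)]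
  · simp
  · intro a ha
    have ha' := mem_range.1 ha
    have e : uu M (2 * M + a) b = uu M a b := by
      unfold uu tt rw0
      rw [if_neg (by omega), if_pos ha', Nat.add_sub_cancel_left]
    have h1 := tt_lt (show a < 4 * M by omega) (show b / 4 < M by omega)
    have h2 := uu_cases M a b
    rcases val_cases M a b with ⟨s1, e1⟩ | ⟨s1, e1⟩ <;>
      rcases val_cases M (2 * M + a) b with ⟨s2, e2⟩ | ⟨s2, e2⟩
    · have := s1.trans s2.symm; omega
    · omega
    · omega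
    · have : a < 2 * M ↔ 2 * M + a < 2 * M := by tauto
      omega

lemma sum_quads (g : ℕ → ℤ) (n : ℕ) : ∑ b ∈ range (4 * n), g b =
    ∑ i ∈ range n, (g (4 * i) + g (4 * i + 1) + g (4 * i + 2) + g (4 * i + 3)) := by
  induction n with
  | zero => simp
  | succ n ih =>
    rw [mul_add, mul_one, sum_range_succ, sum_range_succ, sum_range_succ, sum_range_succ, ih,
      sum_range_succ]; ring

lemma quad {M a g : ℕ} (hM : 2 ≤ M) (ha : a < 4 * M) (hg : g < M) :
    (val M a (4 * g) : ℤ) + val M a (4 * g + 1) + val M a (4 * g + 2) + val M a (4 * g + 3) =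
      2 * (16 * ((M * M : ℕ) : ℤ) + 1) + (if a < 2 * M then (1 : ℤ) else -1) *
        ((if g = 0 then -4 * ((M * M : ℕ) : ℤ) else 0) +
          (if g = 3 * M / 4 then 2 * (tt M a g : ℤ) + 1 else 0)) := by
  have h1 := tt_lt ha hg
  have d0 : 4 * g / 4 = g ∧ 4 * g % 4 = 0 := by omega
  have d1 : (4 * g + 1) / 4 = g ∧ (4 * g + 1) % 4 = 1 := by omega
  have d2 : (4 * g + 2) / 4 = g ∧ (4 * g + 2) % 4 = 2 := by omega
  have d3 : (4 * g + 3) / 4 = g ∧ (4 * g + 3) % 4 = 3 := by omega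
  have h0 : 3 * M / 4 ≠ 0 := by omega
  unfold val sg uu
  rw [d0.1, d0.2, d1.1, d1.2, d2.1, d2.2, d3.1, d3.2]
  generalize tt M a g = t at *
  generalize M * M = Q at *
  by_cases c1 : a < 2 * M <;> by_cases c2 : g = 0 <;> by_cases c3 : g = 3 * M / 4 <;>
    simp [c1, c2, c3, h0, h0.symm] <;> omega

lemma row_sum {M a : ℕ} (hM : 2 ≤ M) (ha : a < 4 * M) :
    ((∑ b ∈ range (4 * M), val M a b : ℕ) : ℤ) = M * (2 * (16 * (M * M : ℕ) + 1)) +
      (if a < 2 * M then 1 else -1) * (-4 * (M * M : ℕ) + (2 * (tt M a (3 * M / 4) : ℤ) + 1)) := by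
  rw [Nat.cast_sum, sum_quads (fun b => (val M a b : ℤ)),
    sum_congr rfl (fun g hg => quad hM ha (mem_range.1 hg)), sum_add_distrib, ← mul_sum,
    ← mul_sum, sum_add_distrib, sum_add_distrib, sum_ite_eq', sum_ite_eq', if_pos (mem_range.2 (by omega)),
    if_pos (mem_range.2 (by omega))]
  simp; ring

theorem spread {M : ℕ} (hM : 2 ≤ M) : NSsp (4 * M) ≤ 14 * (M * M) + 8 * M + 2 := by
  let f : Fin (4 * M) × Fin (4 * M) → ℕ := fun v => val M v.1 v.2
  have hf : IsLab (4 * M) f := by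
    refine isLab_of_inj (fun v => ?_) (fun v w h => ?_)
    · have := val_bd v.1.2 v.2.2
      have e : (4 * M) ^ 2 = 16 * (M * M) := by ring
      simp only [f]; omega
    · have := val_inj v.1.2 v.2.2 w.1.2 w.2.2 h
      exact Prod.ext (Fin.ext this.1) (Fin.ext this.2)
  have hb : ∀ v, 4 * (M * (16 * (M * M) + 1)) ≤ nsum f v + 15 * (M * M) + 4 * M + 1 ∧
      nsum f v + M * M ≤ 4 * (M * (16 * (M * M) + 1)) + 4 * M := by
    rintro ⟨a, b⟩
    have h1 := nsum_eq f a b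
    have h2 := row_sum hM a.2
    have h3 := col_sum b.2
    have h4 := val_bd a.2 b.2
    have h5 := val_range a.2 b.2
    have h6 := rw0_lt a.2
    rw [← Fin.sum_univ_eq_sum_range (fun j => val M a j)] at h2
    rw [← Fin.sum_univ_eq_sum_range (fun i => val M i b)] at h3
    simp only [f] at h1
    rw [h3] at h1
    have h7 : 4 * (3 * M / 4) * M ≤ 3 * M * M := Nat.mul_le_mul_right _ (by omega)
    have h8 : 3 * M * M ≤ (4 * (3 * M / 4) + 3) * M := Nat.mul_le_mul_right _ (by omega)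
    have h9 : 2 * tt M a (3 * M / 4) = 4 * (3 * M / 4) * M + 2 * rw0 M a := by unfold tt; ring
    have h10 : 3 * M * M = 3 * (M * M) := by ring
    have h11 : (4 * (3 * M / 4) + 3) * M = 4 * (3 * M / 4) * M + 3 * M := by ring
    have h12 : 2 * M * (16 * (M * M) + 1) = 2 * (M * (16 * (M * M) + 1)) := by ring
    have h13 : (M : ℤ) * (2 * (16 * (M * M : ℕ) + 1)) = 2 * ((M * (16 * (M * M) + 1) : ℕ) : ℤ) := by
      push_cast; ring
    rw [h13] at h2
    simp only [f]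
    generalize M * (16 * (M * M) + 1) = W at *
    generalize 4 * (3 * M / 4) * M = X at *
    split_ifs at h2 <;> omega
  have h0 : 0 < 4 * M := by omega
  obtain ⟨v, hv⟩ := nsMax_mem h0 f
  obtain ⟨w, hw⟩ := nsMin_mem h0 f
  have h1 : NSsp (4 * M) ≤ nsMax f - nsMin f := Nat.sInf_le ⟨f, hf, rfl⟩
  have := hb v
  have := hb w
  omega

end Pool.Agent.H18.RookE
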