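import Mathlib

namespace Pool.Agent.H18.Shp1

open Finset

def Hit (f : ℤ → Bool) (u v : ℤ) : Prop :=
  ∀ t, f t = true ∨ f (t + u) = true ∨ f (t + u + v) = true

def cnt (f : ℤ → Bool) (n : ℕ) : ℕ := ∑ i ∈ range n, if f (i : ℤ) = true then 1 else 0

def Sol (u v p q : ℤ) : Prop :=
  ∃ (N : ℕ) (f : ℤ → Bool), 0 < N ∧ (∀ i, f (i + N) = f i) ∧ 2 * cnt f N ≤ N ∧
    Hit f u v ∧ Hit f p q

lemma Hit.cyc {f : ℤ → Bool} {u v : ℤ} (h : Hit f u v) {w : ℤ} (hw : u + v + w = 0) :
    Hit f v w := by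
  intro t
  have h1 := h (t - u)
  have e1 : t - u + u = t := by ring
  have e2 : t + v + w = t - u := by linarith
  rw [e1] at h1; rw [e2]; tauto

lemma Hit.rev {f : ℤ → Bool} {u v : ℤ} (h : Hit f (-v) (-u)) : Hit f u v := by
  intro t
  have h1 := h (t + u + v)
  have e1 : t + u + v + -v = t + u := by ring
  have e2 : t + u + -u = t := by ring
  rw [e1, e2] at h1; tauto

def col (M m : ℤ) (i : ℤ) : Bool := decide ((m * i) % (2 * M) < M)

def NM (M m u v : ℤ) : Prop := Hit (col M m) u v ∧ Hit (fun i => !col M m i) u v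

lemma NM.rev {M m u v : ℤ} (h : NM M m (-v) (-u)) : NM M m u v := ⟨h.1.rev, h.2.rev⟩

lemma cnt_not (f : ℤ → Bool) (n : ℕ) : cnt f n + cnt (fun i => !f i) n = n := by
  unfold cnt
  rw [← Finset.sum_add_distrib]
  have : ∀ i ∈ range n, ((if f (i : ℤ) = true then 1 else 0) +
      (if (!f (i : ℤ)) = true then 1 else 0) : ℕ) = 1 := by
    intro i _
    cases f (i : ℤ) <;> simp
  rw [Finset.sum_congr rfl this]; simp

lemma sol_of_NM {M m u v p q : ℤ} (hM : 0 < M) (h1 : NM M m u v) (h2 : NM M m p q) :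
    Sol u v p q := by
  have hN : ((2 * M).toNat : ℤ) = 2 * M := Int.toNat_of_nonneg (by omega)
  have hper : ∀ i, col M m (i + ((2 * M).toNat : ℤ)) = col M m i := by
    intro i
    unfold col
    rw [hN, mul_add, mul_comm m (2 * M), Int.add_mul_emod_self_left]
  have hc := cnt_not (col M m) (2 * M).toNat
  by_cases hle : 2 * cnt (col M m) (2 * M).toNat ≤ (2 * M).toNat
  · exact ⟨_, _, by omega, hper, hle, h1.1, h2.1⟩
  · exact ⟨(2 * M).toNat, fun i => !col M m i, by omega, fun i => by simp only [hper],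
      by omega, h1.2, h2.2⟩

lemma md {M z : ℤ} (h0 : 0 ≤ z) (h1 : z < 4 * M) :
    z % (2 * M) = if z < 2 * M then z else z - 2 * M := by
  split_ifs with h
  · exact Int.emod_eq_of_lt h0 h
  · have e : z = (z - 2 * M) + (2 * M) * 1 := by ring
    conv_lhs => rw [e]
    rw [Int.add_mul_emod_self_left]
    exact Int.emod_eq_of_lt (by omega) (by omega)

lemma shift {M m t u x : ℤ} (h : 2 * M ∣ m * u - x) :
    (m * (t + u)) % (2 * M) = ((m * t) % (2 * M) + x) % (2 * M) := by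
  obtain ⟨k, hk⟩ := h
  have e : m * (t + u) = (m * t + x) + (2 * M) * k := by linear_combination hk
  rw [e, Int.add_mul_emod_self_left, Int.emod_add_emod]

lemma good {M m u v x y : ℤ} (hM : 0 < M) (hx0 : 0 ≤ x) (hx : x ≤ M) (hy0 : 0 ≤ y) (hy : y ≤ M)
    (hs : M ≤ x + y) (h1 : 2 * M ∣ m * u - x) (h2 : 2 * M ∣ m * v - y) : NM M m u v := by
  have key : ∀ t, ∃ r, 0 ≤ r ∧ r < 2 * M ∧ (m * t) % (2 * M) = r ∧
      (m * (t + u)) % (2 * M) = (if r + x < 2 * M then r + x else r + x - 2 * M) ∧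
      (m * (t + u + v)) % (2 * M) =
        (if r + (x + y) < 2 * M then r + (x + y) else r + (x + y) - 2 * M) := by
    intro t
    have a0 : 0 ≤ (m * t) % (2 * M) := Int.emod_nonneg _ (by omega)
    have a1 : (m * t) % (2 * M) < 2 * M := Int.emod_lt_of_pos _ (by omega)
    refine ⟨_, a0, a1, rfl, ?_, ?_⟩
    · rw [shift h1, md (by omega) (by omega)]
    · have h3 : 2 * M ∣ m * (u + v) - (x + y) := by
        have e : m * (u + v) - (x + y) = (m * u - x) + (m * v - y) := by ring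
        rw [e]; exact dvd_add h1 h2
      rw [add_assoc t u v, shift h3, md (by omega) (by omega)]
  constructor
  · intro t
    obtain ⟨r, r0, r1, e0, e1, e2⟩ := key t
    unfold col
    rw [e0, e1, e2]
    simp only [decide_eq_true_eq]
    split_ifs <;> omega
  · intro t
    obtain ⟨r, r0, r1, e0, e1, e2⟩ := key t
    unfold col
    simp only [e0, e1, e2, Bool.not_eq_true', decide_eq_false_iff_not]
    split_ifs <;> omega

lemma flip {M m X : ℤ} (hM : 0 < M) (h : 2 * M ∣ m * X - M) (t : ℤ) :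
    col M m (t + X) = !col M m t := by
  have a0 : 0 ≤ (m * t) % (2 * M) := Int.emod_nonneg _ (by omega)
  have a1 : (m * t) % (2 * M) < 2 * M := Int.emod_lt_of_pos _ (by omega)
  unfold col
  rw [shift h, md (by omega) (by omega)]
  by_cases hh : m * t % (2 * M) < M
  · simp only [hh, decide_true, Bool.not_true, decide_eq_false_iff_not]
    split_ifs <;> omega
  · simp only [hh, decide_false, Bool.not_false, decide_eq_true_eq]
    split_ifs <;> omega

lemma anti {M m u v X : ℤ} (hM : 0 < M) (h : 2 * M ∣ m * X - M)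
    (hX : X = u ∨ X = v ∨ X = u + v) : NM M m u v := by
  have hf := flip hM h
  rcases hX with rfl | rfl | rfl
  · constructor <;> intro t <;> simp only [hf] <;> cases col M m t <;> simp
  · constructor <;> intro t <;> simp only [hf] <;> cases col M m (t + u) <;> simp
  · constructor <;> intro t <;> simp only [add_assoc t u v, hf] <;> cases col M m t <;> simp

/-- folding by the half shift -/
lemma fold {X m u v x y : ℤ} (hX : 0 < X) (hXe : Even X) (hm : Odd m) (hu : Odd u) (hv : Odd v)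
    (hx0 : 0 ≤ x) (hx : x ≤ X) (hy0 : 0 ≤ y) (hy : y ≤ X)
    (h1 : 2 * X ∣ m * u - x) (h2 : 2 * X ∣ m * v - y) : ∃ m', Odd m' ∧ NM X m' u v := by
  by_cases hs : X ≤ x + y
  · exact ⟨m, hm, good hX hx0 hx hy0 hy hs h1 h2⟩
  · refine ⟨m + X, hm.add_even hXe, NM.rev (good (x := X - y) (y := X - x) hX (by omega)
      (by omega) (by omega) (by omega) (by omega) ?_ ?_)⟩
    · obtain ⟨k, hk⟩ := h2
      obtain ⟨j, rfl⟩ := hv
      exact ⟨-k - j - 1, by linear_combination -hk⟩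
    · obtain ⟨k, hk⟩ := h1
      obtain ⟨j, rfl⟩ := hu
      exact ⟨-k - j - 1, by linear_combination -hk⟩

lemma tele (φ : ℝ) (n : ℕ) :
    2 * Real.sin φ * ∑ k ∈ range n, Real.cos ((2 * k + 1) * φ) = Real.sin (2 * n * φ) := by
  induction n with
  | zero => simp
  | succ n ih =>
    rw [Finset.sum_range_succ, mul_add, ih]
    have e1 : 2 * (n : ℝ) * φ = (2 * n + 1) * φ - φ := by ring
    have e2 : 2 * ((n + 1 : ℕ) : ℝ) * φ = (2 * n + 1) * φ + φ := by push_cast; ring
    rw [e1, e2, Real.sin_sub, Real.sin_add]; ring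

noncomputable def S (X : ℕ) (j : ℤ) : ℝ :=
  ∑ k ∈ range X, Real.cos ((2 * k + 1) * (Real.pi * j / X))

lemma S_zero {X : ℕ} (hX : 0 < X) {j : ℤ} (h : ¬ (X : ℤ) ∣ j) : S X j = 0 := by
  have hX' : (X : ℝ) ≠ 0 := by positivity
  have h1 := tele (Real.pi * j / X) X
  have e : 2 * (X : ℝ) * (Real.pi * j / X) = ((2 * j : ℤ) : ℝ) * Real.pi := by
    push_cast; field_simp
  rw [e, Real.sin_int_mul_pi] at h1
  have h2 : Real.sin (Real.pi * j / X) ≠ 0 := by
    intro h0
    obtain ⟨n, hn⟩ := Real.sin_eq_zero_iff.mp h0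
    apply h
    refine ⟨n, ?_⟩
    have hp := Real.pi_pos
    have h3 : (j : ℝ) = X * n := by
      field_simp at hn
      linarith
    exact_mod_cast h3
  unfold S
  rcases mul_eq_zero.mp h1 with h3 | h3
  · exact absurd (by linarith) h2
  · exact h3

lemma S_mul {X : ℕ} (hX : 0 < X) (l : ℤ) : S X (X * l) = X * (-1) ^ l := by
  have hX' : (X : ℝ) ≠ 0 := by positivity
  unfold S
  have : ∀ k ∈ range X, Real.cos ((2 * k + 1) * (Real.pi * ((X * l : ℤ) : ℝ) / X)) = (-1) ^ l := by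
    intro k _
    have e : (2 * (k : ℝ) + 1) * (Real.pi * ((X * l : ℤ) : ℝ) / X) =
        (l : ℝ) * Real.pi + ((k * l : ℤ) : ℝ) * (2 * Real.pi) := by
      push_cast; field_simp; ring
    rw [e, Real.cos_add_int_mul_two_pi, Real.cos_int_mul_pi]
  rw [Finset.sum_congr rfl this]; simp

lemma fourier {X : ℕ} (hX : 0 < X) {u v : ℤ}
    (h : ∀ k : ℕ, Real.sin ((2 * k + 1) * (Real.pi * u / X)) *
      Real.sin ((2 * k + 1) * (Real.pi * v / X)) < 0) :
    (∃ l, Odd l ∧ u - v = X * l) ∨ 2 * (X : ℤ) ∣ u + v := by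
  have hlt : S X (u - v) < S X (u + v) := by
    unfold S
    apply Finset.sum_lt_sum_of_nonempty (Finset.nonempty_range_iff.mpr (by omega))
    intro k _
    have e1 : (2 * (k : ℝ) + 1) * (Real.pi * ((u - v : ℤ) : ℝ) / X) =
        (2 * k + 1) * (Real.pi * u / X) - (2 * k + 1) * (Real.pi * v / X) := by
      push_cast; ring
    have e2 : (2 * (k : ℝ) + 1) * (Real.pi * ((u + v : ℤ) : ℝ) / X) =
        (2 * k + 1) * (Real.pi * u / X) + (2 * k + 1) * (Real.pi * v / X) := by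
      push_cast; ring
    rw [e1, e2, Real.cos_sub, Real.cos_add]
    linarith [h k]
  by_contra hc
  push Not at hc
  obtain ⟨hc1, hc2⟩ := hc
  have hX' : (0 : ℝ) < X := by positivity
  have a1 : 0 ≤ S X (u - v) := by
    by_cases hd : (X : ℤ) ∣ u - v
    · obtain ⟨l, hl⟩ := hd
      have hle : Even l := by
        rcases Int.even_or_odd l with h0 | h0
        · exact h0
        · exact absurd hl (hc1 l h0)
      rw [hl, S_mul hX, hle.neg_one_zpow]; positivity
    · rw [S_zero hX hd]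
  have a2 : S X (u + v) ≤ 0 := by
    by_cases hd : (X : ℤ) ∣ u + v
    · obtain ⟨l, hl⟩ := hd
      have hlo : Odd l := by
        rcases Int.even_or_odd l with h0 | h0
        · exfalso
          obtain ⟨j, rfl⟩ := h0
          exact hc2 ⟨j, by rw [hl]; ring⟩
        · exact h0
      rw [hl, S_mul hX, hlo.neg_one_zpow]; linarith
    · rw [S_zero hX hd]
  linarith

lemma sin_res {X : ℕ} (hX : 0 < X) (k : ℕ) (u : ℤ) :
    Real.sin ((2 * k + 1) * (Real.pi * u / X)) =
      Real.sin (Real.pi * ((((2 * k + 1) * u) % (2 * X) : ℤ) : ℝ) / X) := by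
  have hX' : (X : ℝ) ≠ 0 := by positivity
  have h := Int.emod_add_mul_ediv ((2 * k + 1) * u) (2 * X)
  set r := ((2 * k + 1) * u) % (2 * (X : ℤ))
  set q := ((2 * k + 1) * u) / (2 * (X : ℤ))
  have h' : (r : ℝ) + 2 * X * q = (2 * k + 1) * u := by exact_mod_cast h
  have e : (2 * (k : ℝ) + 1) * (Real.pi * u / X) = Real.pi * r / X + q * (2 * Real.pi) := by
    field_simp
    linarith
  rw [e, Real.sin_add_int_mul_two_pi]

lemma sin_pos' {X : ℕ} (hX : 0 < X) {r : ℤ} (h0 : 0 < r) (h1 : r < X) :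
    0 < Real.sin (Real.pi * r / X) := by
  have hX' : (0 : ℝ) < X := by positivity
  have h0' : (0 : ℝ) < r := by exact_mod_cast h0
  have h1' : (r : ℝ) < X := by exact_mod_cast h1
  have hp := Real.pi_pos
  apply Real.sin_pos_of_pos_of_lt_pi (by positivity)
  rw [div_lt_iff₀ hX']; nlinarith

lemma sin_neg' {X : ℕ} (hX : 0 < X) {r : ℤ} (h0 : X < r) (h1 : r < 2 * X) :
    Real.sin (Real.pi * r / X) < 0 := by
  have hX' : (X : ℝ) ≠ 0 := by positivity
  have h := sin_pos' hX (r := r - X) (by omega) (by omega)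
  have e : Real.pi * r / X = Real.pi * ((r - X : ℤ) : ℝ) / X + Real.pi := by
    push_cast; field_simp; ring
  rw [e, Real.sin_add_pi]; linarith

lemma dich {X u v : ℤ} (hX : 0 < X) (hXe : Even X) (hu : Odd u) (hv : Odd v) :
    (∃ m, Odd m ∧ NM X m u v) ∨ (∃ l, Odd l ∧ u - v = X * l) ∨ 2 * X ∣ u + v := by
  obtain ⟨Y, rfl⟩ := Int.eq_ofNat_of_zero_le hX.le
  have hY : 0 < Y := by exact_mod_cast hX
  by_cases hA : ∃ m, Odd m ∧ NM Y m u v
  · exact Or.inl hA
  right
  apply fourier hY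
  intro k
  rw [sin_res hY, sin_res hY]
  have hm : Odd (2 * (k : ℤ) + 1) := odd_two_mul_add_one _
  have hx := Int.emod_add_mul_ediv ((2 * k + 1) * u) (2 * Y)
  have hy := Int.emod_add_mul_ediv ((2 * k + 1) * v) (2 * Y)
  have x0 := Int.emod_nonneg ((2 * k + 1) * u) (by omega : 2 * (Y : ℤ) ≠ 0)
  have y0 := Int.emod_nonneg ((2 * k + 1) * v) (by omega : 2 * (Y : ℤ) ≠ 0)
  have x1 := Int.emod_lt_of_pos ((2 * k + 1) * u) (by omega : 0 < 2 * (Y : ℤ))
  have y1 := Int.emod_lt_of_pos ((2 * k + 1) * v) (by omega : 0 < 2 * (Y : ℤ))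
  have ou := hm.mul hu
  have ov := hm.mul hv
  generalize ((2 * (k : ℤ) + 1) * u) % (2 * Y) = x at *
  generalize ((2 * (k : ℤ) + 1) * v) % (2 * Y) = y at *
  generalize ((2 * (k : ℤ) + 1) * u) / (2 * Y) = a at *
  generalize ((2 * (k : ℤ) + 1) * v) / (2 * Y) = b at *
  have xn : x ≠ 0 := by
    rintro rfl
    rw [← hx] at ou
    obtain ⟨c, hc⟩ := ou
    have : 2 * (Y * a) = 2 * c + 1 := by linarith
    omega
  have yn : y ≠ 0 := by
    rintro rfl
    rw [← hy] at ov
    obtain ⟨c, hc⟩ := ov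
    have : 2 * (Y * b) = 2 * c + 1 := by linarith
    omega
  have c1 : ¬ (x ≤ Y ∧ y ≤ Y) := by
    rintro ⟨h1, h2⟩
    exact hA (fold hX hXe hm hu hv x0 h1 y0 h2 ⟨a, by linarith⟩ ⟨b, by linarith⟩)
  have c2 : ¬ ((Y : ℤ) ≤ x ∧ (Y : ℤ) ≤ y) := by
    rintro ⟨h1, h2⟩
    exact hA (fold (x := 2 * Y - x) (y := 2 * Y - y) hX hXe hm.neg hu hv (by omega) (by omega)
      (by omega) (by omega) ⟨-a - 1, by linarith⟩ ⟨-b - 1, by linarith⟩)
  by_cases hxy : x < Y
  · exact mul_neg_of_pos_of_neg (sin_pos' hY (by omega) hxy) (sin_neg' hY (by omega) y1)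
  · exact mul_neg_of_neg_of_pos (sin_neg' hY (by omega) x1) (sin_pos' hY (by omega) (by omega))

end Pool.Agent.H18.Shp1
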