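import Pool.Agent.H18.Shp1

namespace Pool.Agent.H18.Shp2

open Finset Pool.Agent.H18.Shp1

lemma exists_m0 {c e δ : ℤ} (hco : IsCoprime c e) (hpar : Even (c + e + δ)) (hδ : δ = 0 ∨ δ = 1) :
    ∃ m s, Odd m ∧ c * m = e - δ + 2 * e * s := by
  obtain ⟨a, b, hab⟩ := hco
  have base : ∀ j : ℤ, c * (a * (e - δ) + e * j) = e - δ + e * (c * j - b * (e - δ)) := by
    intro j; linear_combination (e - δ) * hab
  rcases Int.even_or_odd c with hc | hc
  · have he : Odd e := by
      rcases Int.even_or_odd e with he | he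
      · exfalso
        have : Even (a * c + b * e) := (hc.mul_left a).add (he.mul_left b)
        rw [hab] at this
        exact absurd this (by decide)
      · exact he
    have hd : δ = 1 := by
      obtain ⟨x, hx⟩ := hc
      obtain ⟨y, hy⟩ := he
      obtain ⟨z, hz⟩ := hpar
      omega
    subst hd
    have h1 : Even (e - 1) := he.sub_odd odd_one
    obtain ⟨s, hs⟩ : Even (c * 1 - b * (e - 1)) := (hc.mul_right 1).sub (h1.mul_left b)
    refine ⟨a * (e - 1) + e * 1, s, (h1.mul_left a).add_odd (he.mul odd_one), ?_⟩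
    rw [base, hs]; ring
  · have hed : Odd (e - δ) := by
      obtain ⟨x, hx⟩ := hc
      obtain ⟨z, hz⟩ := hpar
      exact ⟨z - x - δ - 1, by omega⟩
    obtain ⟨s, hs⟩ : Even (c * (b * (e - δ)) - b * (e - δ)) := by
      have e1 : c * (b * (e - δ)) - b * (e - δ) = (c - 1) * (b * (e - δ)) := by ring
      rw [e1]; exact (hc.sub_odd odd_one).mul_right _
    have hh : c * (a * (e - δ) + e * (b * (e - δ))) = e - δ + 2 * e * s := by
      rw [base, hs]; ring
    refine ⟨_, s, ?_, hh⟩
    have : Odd (c * (a * (e - δ) + e * (b * (e - δ)))) := by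
      rw [hh]
      exact hed.add_even ⟨e * s, by ring⟩
    exact (Int.odd_mul.mp this).2

lemma long {U c e g δ : ℤ} (hU : 0 < U) (hc : 0 < c) (he : 0 < e) (hg : 0 < g) (hge : Even g)
    (hco : IsCoprime c e) (hpar : Even (c + e + δ)) (hδ : δ = 0 ∨ δ = 1) (hUo : Odd U)
    (hb : (g * e - 1) * (c + e) ≤ U * (e - δ)) :
    ∃ k, Odd k ∧ NM U k (g * c) (g * e) ∧ NM U k (g * e) (g * c) := by
  obtain ⟨m, s, hm, hs⟩ := exists_m0 hco hpar hδ
  have hge0 : 0 < g * e := mul_pos hg he
  have h1 := Int.emod_add_mul_ediv (U * m) (g * e)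
  have r0 := Int.emod_nonneg (U * m) hge0.ne'
  have r1 := Int.emod_lt_of_pos (U * m) hge0
  generalize (U * m) % (g * e) = ρ at *
  generalize (U * m) / (g * e) = k at *
  obtain ⟨j, rfl⟩ := hm
  obtain ⟨g2, rfl⟩ := hge
  set x := k * ((g2 + g2) * c) - 2 * U * s with hx
  have hxe : x * e = U * (e - δ) - c * ρ := by
    rw [hx]; linear_combination c * h1 + U * hs
  have hx1 : x ≤ U := by
    by_contra hh
    have : (U + 1) * e ≤ x * e := mul_le_mul_of_nonneg_right (by omega) he.le
    have h2 : 0 ≤ c * ρ := mul_nonneg hc.le r0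
    rcases hδ with rfl | rfl <;> nlinarith
  have hx2 : ρ ≤ x := by
    by_contra hh
    have h3 : x * e ≤ (ρ - 1) * e := mul_le_mul_of_nonneg_right (by omega) he.le
    have h4 : ρ * (c + e) ≤ ((g2 + g2) * e - 1) * (c + e) :=
      mul_le_mul_of_nonneg_right (by omega) (by omega)
    nlinarith
  have main : ∀ k', (k' = k ∨ k' = k + U) →
      NM U k' ((g2 + g2) * c) ((g2 + g2) * e) ∧ NM U k' ((g2 + g2) * e) ((g2 + g2) * c) := by
    intro k' hk'
    have d1 : 2 * U ∣ k' * ((g2 + g2) * c) - x := by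
      rcases hk' with rfl | rfl
      · exact ⟨s, by rw [hx]; ring⟩
      · exact ⟨s + g2 * c, by rw [hx]; ring⟩
    have d2 : 2 * U ∣ k' * ((g2 + g2) * e) - (U - ρ) := by
      rcases hk' with rfl | rfl
      · exact ⟨j, by linear_combination h1⟩
      · exact ⟨j + g2 * e, by linear_combination h1⟩
    exact ⟨good hU (by omega) hx1 (by omega) (by omega) (by omega) d1 d2,
      good hU (by omega) (by omega) (by omega) hx1 (by omega) d2 d1⟩
  rcases Int.even_or_odd k with hk | hk
  · exact ⟨k + U, hk.add_odd hUo, main _ (Or.inr rfl)⟩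
  · exact ⟨k, hk, main _ (Or.inl rfl)⟩

lemma hit_of_per {N : ℕ} (hN : 0 < N) {f : ℤ → Bool} (hp : ∀ i, f (i + N) = f i) {u v : ℤ}
    (h : ∀ r ∈ range N, f r = true ∨ f (r + u) = true ∨ f (r + u + v) = true) : Hit f u v := by
  have hper : Function.Periodic f (N : ℤ) := hp
  intro t
  have h1 := Int.emod_add_mul_ediv t N
  have r0 := Int.emod_nonneg t (by omega : (N : ℤ) ≠ 0)
  have r1 := Int.emod_lt_of_pos t (by omega : (0 : ℤ) < N)
  obtain ⟨r, hr⟩ := Int.eq_ofNat_of_zero_le r0
  have h2 := h r (Finset.mem_range.mpr (by omega))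
  have key : ∀ s, f (t + s) = f (r + s) := by
    intro s
    have e : t + s = (r + s) + (t / N) * N := by rw [← hr]; linarith
    rw [e]; exact (hper.int_mul (t / N)) _
  have k0 := key 0
  have k2 := key (u + v)
  rw [add_zero, add_zero] at k0
  rw [← add_assoc, ← add_assoc] at k2
  rw [k0, key u, k2]; exact h2

def fA (i : ℤ) : Bool := decide (i % 10 = 0 ∨ i % 10 = 2 ∨ i % 10 = 3 ∨ i % 10 = 5 ∨ i % 10 = 6)
def fB (i : ℤ) : Bool := decide (i % 10 = 0 ∨ i % 10 = 1 ∨ i % 10 = 3 ∨ i % 10 = 4 ∨ i % 10 = 6)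

lemma fA_per (i : ℤ) : fA (i + (10 : ℕ)) = fA i := by
  unfold fA
  have : (i + ((10 : ℕ) : ℤ)) % 10 = i % 10 := by omega
  rw [this]

lemma fB_per (i : ℤ) : fB (i + (10 : ℕ)) = fB i := by
  unfold fB
  have : (i + ((10 : ℕ) : ℤ)) % 10 = i % 10 := by omega
  rw [this]

lemma excA {u v : ℤ} (h : (u = 1 ∧ v = 7) ∨ (u = -7 ∧ v = -1)) : Sol u v 2 4 ∧ Sol u v 4 2 := by
  have h0 : Hit fA u v := by
    rcases h with ⟨rfl, rfl⟩ | ⟨rfl, rfl⟩ <;> exact hit_of_per (by norm_num) fA_per (by decide)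
  exact ⟨⟨10, fA, by norm_num, fA_per, by decide, h0, hit_of_per (by norm_num) fA_per (by decide)⟩,
    ⟨10, fA, by norm_num, fA_per, by decide, h0, hit_of_per (by norm_num) fA_per (by decide)⟩⟩

lemma excB {u v : ℤ} (h : (u = 7 ∧ v = 1) ∨ (u = -1 ∧ v = -7)) : Sol u v 2 4 ∧ Sol u v 4 2 := by
  have h0 : Hit fB u v := by
    rcases h with ⟨rfl, rfl⟩ | ⟨rfl, rfl⟩ <;> exact hit_of_per (by norm_num) fB_per (by decide)
  exact ⟨⟨10, fB, by norm_num, fB_per, by decide, h0, hit_of_per (by norm_num) fB_per (by decide)⟩,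
    ⟨10, fB, by norm_num, fB_per, by decide, h0, hit_of_per (by norm_num) fB_per (by decide)⟩⟩

lemma abs_ge {W A j : ℤ} (hA : 0 < A) (h : W = A * j) {n : ℤ} (hj : n ≤ |j|) : A * n ≤ |W| := by
  rw [h, abs_mul, abs_of_pos hA]; exact mul_le_mul_of_nonneg_left hj hA.le

lemma one_le_abs' {j : ℤ} (h : j ≠ 0) : 1 ≤ |j| := Int.one_le_abs h

lemma two_le_abs {j : ℤ} (h : j ≠ 0) (he : Even j) : 2 ≤ |j| := by
  obtain ⟨k, rfl⟩ := he
  rcases abs_cases (k + k) with h1 | h1 <;> omega

/-- the arithmetic heart: `q` odd, `r` even, odd span -/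
lemma arith_odd {u v g q r e U : ℤ} (hu : Odd u) (hv : Odd v) (hw : u + v ≠ 0) (hg : 0 < g)
    (hge : Even g) (hq : 0 < q) (hr : 0 < r) (hqo : Odd q) (hre : Even r) (hco : IsCoprime q r)
    (hprim : ∀ h : ℤ, 0 < h → h ∣ u → h ∣ v → h ∣ g → h = 1)
    (he : q ≤ e ∧ r ≤ e ∧ (e = q ∨ e = r)) (hU : 2 * U = |u - v| + |u + v|)
    (F : ∀ X, (X = g * q ∨ X = g * r ∨ X = g * (q + r)) →
      (∃ l, Odd l ∧ u - v = X * l) ∨ 2 * X ∣ u + v) :
    (g * e - 1) * (q + r) ≤ U * (e - 1) ∨ (g = 2 ∧ q = 1 ∧ r = 2 ∧ |u - v| = 6 ∧ |u + v| = 8) := by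
  obtain ⟨g2, rfl⟩ := hge
  obtain ⟨r2, rfl⟩ := hre
  have hdo : Odd (q + (r2 + r2)) := hqo.add_even ⟨r2, rfl⟩
  obtain ⟨u2, hu2⟩ := hu
  obtain ⟨v2, hv2⟩ := hv
  have he2 : 2 ≤ e := by omega
  have hD0 := abs_nonneg (u - v)
  -- the even difference
  have Fr : 2 * ((g2 + g2) * (r2 + r2)) ∣ u + v := by
    rcases F _ (Or.inr (Or.inl rfl)) with ⟨l, hl, h1⟩ | h1
    · exfalso
      rcases F _ (Or.inl rfl) with ⟨l', hl', h2⟩ | ⟨j, h2⟩
      · have h3 : (g2 + g2) * (q * l') = (g2 + g2) * ((r2 + r2) * l) := by linarith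
        have h4 := mul_left_cancel₀ hg.ne' h3
        have h5 : Odd (q * l') := hqo.mul hl'
        rw [h4] at h5
        obtain ⟨z, hz⟩ := h5
        have : 2 * (r2 * l) = 2 * z + 1 := by linarith
        omega
      · have a1 : u - v = 4 * (g2 * r2 * l) := by linarith
        have a2 : u + v = 4 * (g2 * q * j) := by linarith
        omega
    · exact h1
  obtain ⟨i, hi⟩ := Fr
  have hi0 : i ≠ 0 := by rintro rfl; exact hw (by simpa using hi)
  rcases F _ (Or.inr (Or.inr rfl)) with ⟨l, hl, h1⟩ | ⟨j, hj⟩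
  swap
  · left
    have hj0 : j ≠ 0 := by rintro rfl; exact hw (by simpa using hj)
    have h3 : (2 * (g2 + g2)) * ((q + (r2 + r2)) * j) = (2 * (g2 + g2)) * ((r2 + r2) * i) := by
      linarith
    have h4 := mul_left_cancel₀ (by omega) h3
    have hje : Even j := by
      rcases Int.even_or_odd j with h | h
      · exact h
      · exfalso
        have h5 := hdo.mul h
        rw [h4] at h5
        obtain ⟨z, hz⟩ := h5
        have : 2 * (r2 * i) = 2 * z + 1 := by linarith
        omega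
    have h6 := abs_ge (by positivity) hj (two_le_abs hj0 hje)
    have h7 : 2 * ((g2 + g2) * (q + (r2 + r2))) ≤ U := by linarith
    have h8 : 0 < (g2 + g2) * (q + (r2 + r2)) := by positivity
    have h9 : 2 * ((g2 + g2) * (q + (r2 + r2))) * (e - 1) ≤ U * (e - 1) :=
      mul_le_mul_of_nonneg_right h7 (by omega)
    nlinarith
  · have hg1 : g2 = 1 := by
      apply hprim g2 (by omega)
      · exact ⟨(q + (r2 + r2)) * l + 2 * (r2 + r2) * i, by linarith⟩
      · exact ⟨2 * (r2 + r2) * i - (q + (r2 + r2)) * l, by linarith⟩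
      · exact ⟨2, by ring⟩
    subst hg1
    have hl0 : l ≠ 0 := by rintro rfl; exact absurd hl (by decide)
    have hD := abs_ge (by positivity) h1 (one_le_abs' hl0)
    have hW := abs_ge (by positivity) hi (one_le_abs' hi0)
    by_cases hq1 : q = 1
    · subst hq1
      have her : e = r2 + r2 := by omega
      subst her
      by_cases hr1 : r2 = 1
      · subst hr1
        by_cases hU9 : 9 ≤ U
        · left; linarith
        · right
          obtain ⟨l2, rfl⟩ := hl
          refine ⟨rfl, rfl, rfl, ?_, ?_⟩ <;>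
            rcases abs_cases (u - v) with h | h <;> rcases abs_cases (u + v) with h' | h' <;> omega
      · left
        have h7 : 3 * (r2 + r2) + 1 ≤ U := by linarith
        have h9 : (3 * (r2 + r2) + 1) * (r2 + r2 - 1) ≤ U * (r2 + r2 - 1) :=
          mul_le_mul_of_nonneg_right h7 (by omega)
        have : 2 ≤ r2 := by omega
        nlinarith
    · left
      have hq3 : 3 ≤ q := by obtain ⟨z, hz⟩ := hqo; omega
      have nd : ¬ q ∣ r2 + r2 := by
        intro hd
        have := hco.isUnit_of_dvd' dvd_rfl hd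
        rcases Int.isUnit_iff.mp this with h | h <;> omega
      have h7 : 5 * (q + (r2 + r2)) ≤ 2 * U := by
        rcases F _ (Or.inl rfl) with ⟨l', hl', h2⟩ | ⟨j, hj⟩
        · have h3 : 3 ≤ |l| := by
            by_contra hh
            have : l = 1 ∨ l = -1 := by
              obtain ⟨z, hz⟩ := hl
              rcases abs_cases l with h | h <;> omega
            rcases this with rfl | rfl
            · exact nd ⟨l' - 1, by linarith⟩
            · exact nd ⟨-l' - 1, by linarith⟩
          have := abs_ge (by positivity) h1 h3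
          have := abs_nonneg (u + v)
          linarith
        · have hj0 : j ≠ 0 := by rintro rfl; exact hw (by simpa using hj)
          have h4 : q * j = (r2 + r2) * i := by linarith
          have hje : Even j := by
            rcases Int.even_or_odd j with h | h
            · exact h
            · exfalso
              have h5 := hqo.mul h
              rw [h4] at h5
              obtain ⟨z, hz⟩ := h5
              have : 2 * (r2 * i) = 2 * z + 1 := by linarith
              omega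
          have h6 := abs_ge (by positivity) hj (two_le_abs hj0 hje)
          have h3 : 2 ≤ |i| := by
            by_contra hh
            have : i = 1 ∨ i = -1 := by rcases abs_cases i with h | h <;> omega
            rcases this with rfl | rfl
            · exact nd ⟨j, by linarith⟩
            · exact nd ⟨-j, by linarith⟩
          have h8 := abs_ge (by positivity) hi h3
          linarith
      have h9 : 5 * (q + (r2 + r2)) * (e - 1) ≤ 2 * U * (e - 1) :=
        mul_le_mul_of_nonneg_right h7 (by omega)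
      have h10 : 0 ≤ (q + (r2 + r2)) * (e - 3) := mul_nonneg (by omega) (by omega)
      nlinarith

lemma arith_even {u v g c e U : ℤ} (hu : Odd u) (hv : Odd v) (hw : u + v ≠ 0) (hg : 0 < g)
    (hge : Even g) (hc : 0 < c) (he : 0 < e) (hco : Odd c) (heo : Odd e)
    (hU : 2 * U = |u - v| + |u + v|)
    (F : ∀ X, (X = g * c ∨ X = g * (c + e)) → (∃ l, Odd l ∧ u - v = X * l) ∨ 2 * X ∣ u + v) :
    (g * e - 1) * (c + e) ≤ U * (e - 0) := by
  obtain ⟨g2, rfl⟩ := hge
  obtain ⟨r2, hr2⟩ : Even (c + e) := hco.add_odd heo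
  obtain ⟨u2, hu2⟩ := hu
  obtain ⟨v2, hv2⟩ := hv
  have hD0 := abs_nonneg (u - v)
  have Fr : 2 * ((g2 + g2) * (c + e)) ∣ u + v := by
    rcases F _ (Or.inr rfl) with ⟨l, hl, h1⟩ | h1
    · exfalso
      rw [hr2] at h1
      rcases F _ (Or.inl rfl) with ⟨l', hl', h2⟩ | ⟨j, h2⟩
      · have h3 : (g2 + g2) * (c * l') = (g2 + g2) * ((r2 + r2) * l) := by linarith
        have h4 := mul_left_cancel₀ hg.ne' h3
        have h5 : Odd (c * l') := hco.mul hl'
        rw [h4] at h5
        obtain ⟨z, hz⟩ := h5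
        have : 2 * (r2 * l) = 2 * z + 1 := by linarith
        omega
      · have a1 : u - v = 4 * (g2 * r2 * l) := by linarith
        have a2 : u + v = 4 * (g2 * c * j) := by linarith
        omega
    · exact h1
  obtain ⟨i, hi⟩ := Fr
  have hi0 : i ≠ 0 := by rintro rfl; exact hw (by simpa using hi)
  have hW := abs_ge (by positivity) hi (one_le_abs' hi0)
  have h7 : (g2 + g2) * (c + e) ≤ U := by linarith
  have h9 : (g2 + g2) * (c + e) * e ≤ U * e := mul_le_mul_of_nonneg_right h7 he.le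
  nlinarith

end Pool.Agent.H18.Shp2
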