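import Pool.Agent.H18.Shp2

namespace Pool.Agent.H18.Shp3

open Finset Pool.Agent.H18.Shp1 Pool.Agent.H18.Shp2

lemma core {u v c e : ℤ} (hu : Odd u) (hv : Odd v) (hw : u + v ≠ 0) (hc : 0 < c) (hce : c ≤ e)
    (hc2 : Even c) (he2 : Even e)
    (hprim : ∀ h : ℤ, 0 < h → h ∣ u → h ∣ v → h ∣ c → h ∣ e → h = 1) :
    Sol u v c e ∧ Sol u v e c := by
  have he : 0 < e := by omega
  by_cases hA : ∃ X, (X = c ∨ X = e ∨ X = c + e) ∧ ∃ m, Odd m ∧ NM X m u v
  · obtain ⟨X, hX, m, ⟨j, rfl⟩, hm⟩ := hA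
    have hX0 : 0 < X := by omega
    have hd : 2 * X ∣ (2 * j + 1) * X - X := ⟨j, by ring⟩
    exact ⟨sol_of_NM hX0 hm (anti hX0 hd hX), sol_of_NM hX0 hm (anti hX0 hd (by omega))⟩
  have F : ∀ X, (X = c ∨ X = e ∨ X = c + e) → (∃ l, Odd l ∧ u - v = X * l) ∨ 2 * X ∣ u + v := by
    intro X hX
    have hXe : Even X := by
      rcases hX with rfl | rfl | rfl
      exacts [hc2, he2, hc2.add he2]
    rcases dich (by omega : 0 < X) hXe hu hv with h | h
    · exact absurd ⟨X, hX, h⟩ hA
    · exact h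
  have hg0 : 0 < Int.gcd c e := Int.gcd_pos_of_ne_zero_left _ hc.ne'
  obtain ⟨c', e', hco, h1, h2⟩ := Int.exists_gcd_one hg0
  have hge : Even (Int.gcd c e : ℤ) :=
    even_iff_two_dvd.mpr (Int.dvd_coe_gcd (even_iff_two_dvd.mp hc2) (even_iff_two_dvd.mp he2))
  have hg : (0 : ℤ) < Int.gcd c e := by exact_mod_cast hg0
  generalize (Int.gcd c e : ℤ) = g at h1 h2 hge hg
  rw [mul_comm] at h1 h2
  subst h1 h2
  have hcop : IsCoprime c' e' := Int.isCoprime_iff_gcd_eq_one.mpr hco
  have hc' : 0 < c' := by nlinarith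
  have he' : 0 < e' := by nlinarith
  have hce' : c' ≤ e' := le_of_mul_le_mul_left hce hg
  have hprim' : ∀ h : ℤ, 0 < h → h ∣ u → h ∣ v → h ∣ g → h = 1 := fun h h0 a b d =>
    hprim h h0 a b (d.mul_right _) (d.mul_right _)
  obtain ⟨U, hU0, hUo, hU, hUa⟩ : ∃ U : ℤ, 0 < U ∧ Odd U ∧ 2 * U = |u - v| + |u + v| ∧
      (U = u ∨ U = -u ∨ U = v ∨ U = -v) := by
    have u0 : u ≠ 0 := by rintro rfl; exact absurd hu (by decide)
    have : ∃ U, 2 * U = |u - v| + |u + v| ∧ (U = u ∨ U = -u ∨ U = v ∨ U = -v) := by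
      rcases abs_cases (u - v) with h | h <;> rcases abs_cases (u + v) with h' | h'
      · exact ⟨u, by omega, by omega⟩
      · exact ⟨-v, by omega, by omega⟩
      · exact ⟨v, by omega, by omega⟩
      · exact ⟨-u, by omega, by omega⟩
    obtain ⟨U, a, b⟩ := this
    refine ⟨U, ?_, ?_, a, b⟩
    · have := abs_pos.mpr hw
      have := abs_nonneg (u - v)
      omega
    · rcases b with rfl | rfl | rfl | rfl
      exacts [hu, hu.neg, hv, hv.neg]
  have fin : ∀ δ : ℤ, Even (c' + e' + δ) → (δ = 0 ∨ δ = 1) →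
      (g * e' - 1) * (c' + e') ≤ U * (e' - δ) →
      Sol u v (g * c') (g * e') ∧ Sol u v (g * e') (g * c') := by
    intro δ a b d
    obtain ⟨k, ⟨j, rfl⟩, n1, n2⟩ := long hU0 hc' he' hg hge hcop a b hUo d
    have n0 : NM U (2 * j + 1) u v := by
      rcases hUa with h | h | h | h
      · exact anti (X := u) hU0 ⟨j, by rw [h]; ring⟩ (by tauto)
      · exact anti (X := u) hU0 ⟨-j - 1, by rw [h]; ring⟩ (by tauto)
      · exact anti (X := v) hU0 ⟨j, by rw [h]; ring⟩ (by tauto)
      · exact anti (X := v) hU0 ⟨-j - 1, by rw [h]; ring⟩ (by tauto)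
    exact ⟨sol_of_NM hU0 n0 n1, sol_of_NM hU0 n0 n2⟩
  rcases Int.even_or_odd c' with pc | pc <;> rcases Int.even_or_odd e' with pe | pe
  · exfalso
    have := hcop.isUnit_of_dvd' (even_iff_two_dvd.mp pc) (even_iff_two_dvd.mp pe)
    rcases Int.isUnit_iff.mp this with h | h <;> omega
  · rcases arith_odd (e := e') hu hv hw hg hge he' hc' pe pc hcop.symm hprim'
      ⟨le_rfl, hce', Or.inl rfl⟩ hU (fun X hX => F X (by
        rcases hX with h | h | h
        · exact Or.inr (Or.inl h)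
        · exact Or.inl h
        · exact Or.inr (Or.inr (by rw [h]; ring)))) with h | h
    · exact fin 1 ((pc.add_odd pe).add_odd odd_one) (Or.inr rfl) (by rw [add_comm c' e']; exact h)
    · omega
  · rcases arith_odd (e := e') hu hv hw hg hge hc' he' pc pe hcop hprim'
      ⟨hce', le_rfl, Or.inr rfl⟩ hU (fun X hX => F X (by
        rcases hX with h | h | h
        · exact Or.inl h
        · exact Or.inr (Or.inl h)
        · exact Or.inr (Or.inr (by rw [h]; ring)))) with h | ⟨rfl, rfl, rfl, h1, h2⟩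
    · exact fin 1 ((pc.add_even pe).add_odd odd_one) (Or.inr rfl) h
    · have hh : ((u = 1 ∧ v = 7) ∨ (u = -7 ∧ v = -1)) ∨ ((u = 7 ∧ v = 1) ∨ (u = -1 ∧ v = -7)) := by
        rcases abs_cases (u - v) with h | h <;> rcases abs_cases (u + v) with h' | h' <;> omega
      rcases hh with hh | hh
      · exact excA hh
      · exact excB hh
  · exact fin 0 (by rw [add_zero]; exact pc.add_odd pe) (Or.inl rfl)
      (arith_even hu hv hw hg hge hc' he' pc pe hU (fun X hX => F X (by
        rcases hX with h | h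
        · exact Or.inl h
        · exact Or.inr (Or.inr (by rw [h]; ring)))))

lemma core' {u v c e : ℤ} (hu : Odd u) (hv : Odd v) (hw : u + v ≠ 0) (hc : 0 < c) (he : 0 < e)
    (hc2 : Even c) (he2 : Even e)
    (hprim : ∀ h : ℤ, 0 < h → h ∣ u → h ∣ v → h ∣ c → h ∣ e → h = 1) : Sol u v c e := by
  rcases le_total c e with h | h
  · exact (core hu hv hw hc h hc2 he2 hprim).1
  · exact (core hu hv hw he h he2 hc2 (fun k k0 a b d f => hprim k k0 a b f d)).2

lemma mixed {a b c e : ℤ} (ha : 0 < a) (hb : 0 < b) (hc : 0 < c) (he : 0 < e)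
    (hab : Odd a ∨ Odd b) (hc2 : Even c) (he2 : Even e)
    (hprim : ∀ h : ℤ, 0 < h → h ∣ a → h ∣ b → h ∣ c → h ∣ e → h = 1) : Sol a b c e := by
  rcases Int.even_or_odd a with pa | pa <;> rcases Int.even_or_odd b with pb | pb
  · exfalso
    rcases hab with h | h
    · exact (Int.not_odd_iff_even.mpr pa) h
    · exact (Int.not_odd_iff_even.mpr pb) h
  · obtain ⟨N, f, h1, h2, h3, h4, h5⟩ := core' (u := b) (v := -(a + b)) pb (pa.add_odd pb).neg
      (by omega) hc he hc2 he2 (fun k k0 x y z w => hprim k k0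
        (by have := dvd_sub (dvd_neg.mp y) x; simpa using this) x z w)
    exact ⟨N, f, h1, h2, h3, (h4.cyc (w := a) (by ring)).cyc (by ring), h5⟩
  · obtain ⟨N, f, h1, h2, h3, h4, h5⟩ := core' (u := -(a + b)) (v := a) (pa.add_even pb).neg pa
      (by omega) hc he hc2 he2 (fun k k0 x y z w => hprim k k0 y
        (by have := dvd_sub (dvd_neg.mp x) y; simpa using this) z w)
    exact ⟨N, f, h1, h2, h3, h4.cyc (by ring), h5⟩
  · exact core' pa pb (by omega) hc he hc2 he2 hprim

lemma par {a b : ℤ} (h : Odd a ∨ Odd b) : NM 1 1 a b := by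
  rcases h with ⟨j, rfl⟩ | ⟨j, rfl⟩
  · exact anti (X := 2 * j + 1) one_pos ⟨j, by ring⟩ (by tauto)
  · exact anti (X := 2 * j + 1) one_pos ⟨j, by ring⟩ (by tauto)

lemma prim_case {a b c e : ℤ} (ha : 0 < a) (hb : 0 < b) (hc : 0 < c) (he : 0 < e)
    (hprim : ∀ h : ℤ, 0 < h → h ∣ a → h ∣ b → h ∣ c → h ∣ e → h = 1) : Sol a b c e := by
  by_cases h1 : Odd a ∨ Odd b <;> by_cases h2 : Odd c ∨ Odd e
  · exact sol_of_NM one_pos (par h1) (par h2)
  · push Not at h2
    exact mixed ha hb hc he h1 (Int.not_odd_iff_even.mp h2.1) (Int.not_odd_iff_even.mp h2.2) hprim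
  · push Not at h1
    obtain ⟨N, f, k1, k2, k3, k4, k5⟩ := mixed hc he ha hb h2 (Int.not_odd_iff_even.mp h1.1)
      (Int.not_odd_iff_even.mp h1.2) (fun k k0 x y z w => hprim k k0 z w x y)
    exact ⟨N, f, k1, k2, k3, k5, k4⟩
  · push Not at h1 h2
    have := hprim 2 (by norm_num) (even_iff_two_dvd.mp (Int.not_odd_iff_even.mp h1.1))
      (even_iff_two_dvd.mp (Int.not_odd_iff_even.mp h1.2))
      (even_iff_two_dvd.mp (Int.not_odd_iff_even.mp h2.1))
      (even_iff_two_dvd.mp (Int.not_odd_iff_even.mp h2.2))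
    omega

lemma cnt_dil (f : ℤ → Bool) {h : ℕ} (hh : 0 < h) (N : ℕ) :
    cnt (fun i => f (i / h)) (h * N) = h * cnt f N := by
  induction N with
  | zero => simp [cnt]
  | succ N ih =>
    unfold cnt at *
    rw [mul_add, mul_one, Finset.sum_range_add, ih, Finset.sum_range_succ, mul_add]
    congr 1
    have : ∀ x ∈ range h, (if f (((h * N + x : ℕ) : ℤ) / h) = true then 1 else 0 : ℕ) =
        if f (N : ℤ) = true then 1 else 0 := by
      intro x hx
      have e : ((h * N + x : ℕ) : ℤ) / h = N := by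
        have h1 : (h * N + x) / h = N := by
          rw [Nat.add_comm, Nat.add_mul_div_left _ _ hh, Nat.div_eq_of_lt (mem_range.mp hx)]; simp
        exact_mod_cast h1
      rw [e]
    rw [Finset.sum_congr rfl this]; simp

lemma dil {a b c e : ℤ} {h : ℕ} (hh : 0 < h) (H : Sol a b c e) :
    Sol (h * a) (h * b) (h * c) (h * e) := by
  obtain ⟨N, f, h1, h2, h3, h4, h5⟩ := H
  have h0 : (h : ℤ) ≠ 0 := by omega
  have hit : ∀ u v, Hit f u v → Hit (fun i => f (i / h)) (h * u) (h * v) := by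
    intro u v hf t
    simp only [Int.add_mul_ediv_left _ _ h0]
    exact hf _
  refine ⟨h * N, fun i => f (i / h), Nat.mul_pos hh h1, ?_, ?_, hit _ _ h4, hit _ _ h5⟩
  · intro i
    push_cast
    rw [Int.add_mul_ediv_left _ _ h0]; exact h2 _
  · rw [cnt_dil f hh]; nlinarith

theorem all (n : ℕ) : ∀ a b c e : ℤ, 0 < a → 0 < b → 0 < c → 0 < e → a ≤ n → Sol a b c e := by
  induction n with
  | zero => intro a b c e ha _ _ _ h; omega
  | succ n ih =>
    intro a b c e ha hb hc he hn
    by_cases hprim : ∀ h : ℤ, 0 < h → h ∣ a → h ∣ b → h ∣ c → h ∣ e → h = 1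
    · exact prim_case ha hb hc he hprim
    · push Not at hprim
      obtain ⟨h, h0, ⟨a', rfl⟩, ⟨b', rfl⟩, ⟨c', rfl⟩, ⟨e', rfl⟩, h1⟩ := hprim
      obtain ⟨k, rfl⟩ := Int.eq_ofNat_of_zero_le h0.le
      have h2 : (2 : ℤ) ≤ k := by omega
      have pa : 0 < a' := by nlinarith
      apply dil (by omega)
      apply ih _ _ _ _ pa (by nlinarith) (by nlinarith) (by nlinarith)
      push_cast at hn
      nlinarith

/-- window counts -/
def G (f : ℤ → Bool) (s : ℤ) (L : ℕ) : ℤ := ∑ i ∈ range L, if f (s + i) = true then 1 else 0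

lemma G_add (f : ℤ → Bool) (s : ℤ) (L K : ℕ) : G f s (L + K) = G f s L + G f (s + L) K := by
  unfold G
  rw [Finset.sum_range_add]
  congr 1
  apply Finset.sum_congr rfl
  intro x _
  push_cast
  rw [add_assoc]

lemma G_bd (f : ℤ → Bool) (s : ℤ) (L : ℕ) : 0 ≤ G f s L ∧ G f s L ≤ L := by
  induction L with
  | zero => simp [G]
  | succ L ih =>
    unfold G at *
    rw [Finset.sum_range_succ]
    push_cast
    split_ifs <;> omega

lemma G_per {f : ℤ → Bool} {N : ℕ} (hp : ∀ i, f (i + N) = f i) (s : ℤ) :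
    G f s N = cnt f N := by
  have step : ∀ s, G f (s + 1) N = G f s N := by
    intro s
    have h1 := G_add f s N 1
    have h2 := G_add f s 1 N
    rw [add_comm 1 N] at h2
    have h3 : G f (s + N) 1 = G f s 1 := by
      simp only [G, Finset.sum_range_one, Nat.cast_zero, add_zero, hp]
    push_cast at h2
    linarith
  induction s using Int.induction_on with
  | zero => simp [G, cnt]
  | succ i ih => rw [step, ih]
  | pred i ih => rw [← step, ← ih]; congr 1; ring

lemma G_approx {f : ℤ → Bool} {N : ℕ} (hN : 0 < N) (hp : ∀ i, f (i + N) = f i) (L : ℕ) :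
    ∀ s, |N * G f s L - L * cnt f N| ≤ N * N := by
  induction L using Nat.strong_induction_on with
  | _ L ih =>
    intro s
    have k := G_bd f 0 N
    rw [G_per hp] at k
    by_cases h : L < N
    · have g := G_bd f s L
      have hL : (L : ℤ) ≤ N := by omega
      have hL0 : (0 : ℤ) ≤ L := by omega
      rw [abs_le]; constructor <;> nlinarith
    · obtain ⟨K, rfl⟩ : ∃ K, L = N + K := ⟨L - N, by omega⟩
      have := ih K (by omega) (s + N)
      rw [G_add, G_per hp]
      push_cast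
      have e : (N : ℤ) * (cnt f N + G f (s + N) K) - (N + K) * cnt f N =
          N * G f (s + N) K - K * cnt f N := by ring
      rw [e]; exact this

def D (f : ℤ → Bool) (i : ℤ) : ℤ :=
  if f i = false then (if f (i - 1) = false then 2 else 1)
  else (if f (i - 1) = false ∧ f (i - 2) = false then 1 else 0)

lemma G_low {f : ℤ → Bool} (h1 : Hit f 1 1) (h2 : Hit f 1 2) (s : ℤ) (L : ℕ) :
    (L : ℤ) ≤ 2 * G f s L + 2 := by
  have key : (L : ℤ) - 2 * G f s L ≤ D f (s + L - 1) := by
    induction L with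
    | zero => simp only [G, D]; simp; split_ifs <;> omega
    | succ L ih =>
      unfold G at *
      rw [Finset.sum_range_succ]
      push_cast
      have a1 := h1 (s + L - 2)
      have a2 := h2 (s + L - 3)
      have a3 := h1 (s + L - 3)
      have e1 : s + L - 2 + 1 + 1 = s + L := by ring
      have e2 : s + L - 2 + 1 = s + L - 1 := by ring
      have e3 : s + L - 3 + 1 + 2 = s + L := by ring
      have e4 : s + L - 3 + 1 = s + L - 2 := by ring
      have e5 : s + (L + 1) - 1 = s + L := by ring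
      have e6 : s + L - 1 - 1 = s + L - 2 := by ring
      have e7 : s + L - 1 - 2 = s + L - 3 := by ring
      rw [e1, e2] at a1
      rw [e3, e4] at a2
      rw [e4, e2] at a3
      rw [e5]
      unfold D at *
      rw [e6, e7] at ih
      revert ih a1 a2 a3
      cases f (s + L) <;> cases f (s + L - 1) <;> cases f (s + L - 2) <;> cases f (s + L - 3) <;>
        simp <;> omega
  have : D f (s + L - 1) ≤ 2 := by unfold D; split_ifs <;> omega
  omega

lemma sum_Icc (f : ℤ → Bool) (n : ℕ) :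
    ∑ i ∈ Finset.Icc (-(n : ℤ)) n, (if f i = true then (1 : ℝ) else 0) =
      (G f (-n) (2 * n + 1) : ℝ) := by
  unfold G
  push_cast
  symm
  apply Finset.sum_bij (fun (i : ℕ) _ => -(n : ℤ) + i)
  · intro a ha
    simp only [mem_range, mem_Icc] at *
    omega
  · intro a _ b _ h
    omega
  · intro b hb
    simp only [mem_Icc] at hb
    exact ⟨(b + n).toNat, mem_range.mpr (by omega), by omega⟩
  · intro a _
    rfl

end Pool.Agent.H18.Shp3
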