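import Mathlib

namespace Pool.Agent.H18.ShpDefs

/-- A `k`-ship `[a_1, …, a_k]`: integers `a_1 < … < a_k`. -/
def Ship (k : ℕ) : Type := {a : Fin k → ℤ // StrictMono a}

/-- The 0-1 sequence `x` (`true` = shot) hits every translate of `S`. -/
def Hits {k : ℕ} (x : ℤ → Bool) (S : Ship k) : Prop := ∀ t : ℤ, ∃ j, x (t + S.1 j) = true

/-- `x` has density `r`: the proportion of shots in `[-N, N]` tends to `r`. -/
def HasDensity (x : ℤ → Bool) (r : ℝ) : Prop :=
  Filter.Tendsto
    (fun N : ℕ => (∑ i ∈ Finset.Icc (-(N : ℤ)) N, if x i = true then (1 : ℝ) else 0) / (2 * N + 1))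
    Filter.atTop (nhds r)

/-- `π(F)`: infimum of the densities of patterns hitting every ship of the family. -/
noncomputable def piF {n k : ℕ} (F : Fin n → Ship k) : ℝ :=
  sInf {r | ∃ x : ℤ → Bool, HasDensity x r ∧ ∀ i, Hits x (F i)}

/-- `M^n_k`: supremum of `π` over families of `n` ships of size `k`. -/
noncomputable def M (n k : ℕ) : ℝ := sSup (Set.range (piF : (Fin n → Ship k) → ℝ))

end Pool.Agent.H18.ShpDefs
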