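import Mathlib

set_option autoImplicit false

namespace H18.SubG
open Finset

/-- legal moves from heap `h` -/
def legal (S : Finset ℕ) (h : ℕ) : Finset ℕ := S.filter (fun s => 0 < s ∧ s ≤ h)

/-- Equilibrium totals (first player, second player) from heap `h`; the mover uses convention `c`,
the other player `d`; `true` = friendly, `false` = antagonistic. -/
noncomputable def o (S : Finset ℕ) (c d : Bool) (h : ℕ) : ℕ × ℕ :=
  let cand : {s // s ∈ legal S h} → ℕ × ℕ :=
    fun s => (s.1 + (o S d c (h - s.1)).2, (o S d c (h - s.1)).1)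
  let a : ℕ := (legal S h).attach.sup fun s => (cand s).1
  let M : Finset ℕ := ((legal S h).attach.filter fun s => (cand s).1 = a).image fun s => (cand s).2
  (a, if c then sSup (M : Set ℕ) else sInf (M : Set ℕ))
termination_by h
decreasing_by
  all_goals
    have := s.2
    simp only [legal, Finset.mem_filter] at this
    omega

lemma mem_legal {S : Finset ℕ} {h s : ℕ} : s ∈ legal S h ↔ s ∈ S ∧ 0 < s ∧ s ≤ h := mem_filter

lemma o_fst (S : Finset ℕ) (c d : Bool) (h : ℕ) :
    (o S c d h).1 = (legal S h).sup fun s => s + (o S d c (h - s)).2 := by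
  rw [o]
  exact sup_attach (legal S h) (fun s => s + (o S d c (h - s)).2)

lemma o_snd (S : Finset ℕ) (c d : Bool) (h : ℕ) :
    (o S c d h).2 = if c then sSup {b | ∃ s ∈ legal S h, s + (o S d c (h - s)).2 = (o S c d h).1 ∧
        (o S d c (h - s)).1 = b} else sInf {b | ∃ s ∈ legal S h, s + (o S d c (h - s)).2 = (o S c d h).1 ∧
        (o S d c (h - s)).1 = b} := by
  rw [o_fst]
  conv_lhs => rw [o]
  simp only [sup_attach (legal S h) (fun s => s + (o S d c (h - s)).2)]
  congr 2 <;> ext b <;> simp only [coe_image, coe_filter, mem_attach, true_and, Set.mem_image,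
    Set.mem_setOf_eq, Subtype.exists] <;>
    exact ⟨fun ⟨s, hs, e1, e2⟩ => ⟨s, hs, e1, e2⟩, fun ⟨s, hs, e1, e2⟩ => ⟨s, hs, e1, e2⟩⟩

lemma le_fst {S : Finset ℕ} (c d : Bool) {h s : ℕ} (hs : s ∈ legal S h) :
    s + (o S d c (h - s)).2 ≤ (o S c d h).1 := by
  rw [o_fst]; exact le_sup (f := fun s => s + (o S d c (h - s)).2) hs

lemma chosen {S : Finset ℕ} (c d : Bool) {h : ℕ} (hne : (legal S h).Nonempty) :
    ∃ s ∈ legal S h, s + (o S d c (h - s)).2 = (o S c d h).1 ∧ (o S d c (h - s)).1 = (o S c d h).2 := by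
  obtain ⟨s, hs, e⟩ := exists_mem_eq_sup _ hne (fun s => s + (o S d c (h - s)).2)
  rw [← o_fst] at e
  have ne : {b | ∃ s ∈ legal S h, s + (o S d c (h - s)).2 = (o S c d h).1 ∧
      (o S d c (h - s)).1 = b}.Nonempty := ⟨_, s, hs, e.symm, rfl⟩
  have bd : BddAbove {b | ∃ s ∈ legal S h, s + (o S d c (h - s)).2 = (o S c d h).1 ∧
      (o S d c (h - s)).1 = b} :=
    (((legal S h).finite_toSet.image fun s => (o S d c (h - s)).1).subset
      (by rintro b ⟨s, h1, _, h3⟩; exact ⟨s, h1, h3⟩)).bddAbove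
  rw [o_snd]
  split_ifs
  · exact Nat.sSup_mem ne bd
  · exact Nat.sInf_mem ne

lemma o_empty {S : Finset ℕ} (c d : Bool) {h : ℕ} (he : legal S h = ∅) : o S c d h = (0, 0) := by
  refine Prod.ext ?_ ?_
  · rw [o_fst, he]; rfl
  · rw [o_snd, he]; simp

lemma sum_le (S : Finset ℕ) (h : ℕ) : ∀ c d, (o S c d h).1 + (o S c d h).2 ≤ h := by
  induction h using Nat.strong_induction_on with
  | _ h ih =>
  intro c d
  rcases (legal S h).eq_empty_or_nonempty with he | hne
  · simp [o_empty c d he]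
  · obtain ⟨s, hs, e1, e2⟩ := chosen c d hne
    rw [mem_legal] at hs
    have := ih (h - s) (by omega) d c
    omega

lemma fst_ge {S : Finset ℕ} {m : ℕ} (hm : m ∈ S) (h0 : 0 < m) (hS : ∀ s ∈ S, s ≤ m) (h : ℕ) :
    ∀ c d, h ≤ 2 * (o S c d h).1 + 2 * m := by
  induction h using Nat.strong_induction_on with
  | _ h ih =>
  intro c d
  by_cases h2 : h ≤ 2 * m
  · omega
  have a := le_fst c d (h := h) (mem_legal.2 ⟨hm, h0, by omega⟩)
  obtain ⟨s, hs, _, e2⟩ := chosen d c (h := h - m) ⟨m, mem_legal.2 ⟨hm, h0, by omega⟩⟩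
  rw [mem_legal] at hs
  have := hS s hs.1
  have := ih (h - m - s) (by omega) c d
  omega

lemma snd_ge {S : Finset ℕ} {m : ℕ} (hm : m ∈ S) (h0 : 0 < m) (hS : ∀ s ∈ S, s ≤ m) (h : ℕ) (c d : Bool) :
    h ≤ 2 * (o S c d h).2 + 3 * m := by
  by_cases h2 : h ≤ m
  · omega
  obtain ⟨s, hs, _, e2⟩ := chosen c d (h := h) ⟨m, mem_legal.2 ⟨hm, h0, by omega⟩⟩
  rw [mem_legal] at hs
  have := hS s hs.1
  have := fst_ge hm h0 hS (h - s) d c
  omega

end H18.SubG
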