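import Pool.Agent.H18.SubG

set_option autoImplicit false

namespace H18.SubG
open Finset

/-- local consistency of a table of outcomes -/
def Good (S : Finset ℕ) (T : Bool → Bool → ℕ → ℕ × ℕ) (c d : Bool) (h : ℕ) : Prop :=
  (legal S h = ∅ ∧ T c d h = (0, 0)) ∨
  ((∀ s ∈ legal S h, s + (T d c (h - s)).2 ≤ (T c d h).1 ∧ (s + (T d c (h - s)).2 = (T c d h).1 →
      if c then (T d c (h - s)).1 ≤ (T c d h).2 else (T c d h).2 ≤ (T d c (h - s)).1)) ∧
    ∃ s ∈ legal S h, s + (T d c (h - s)).2 = (T c d h).1 ∧ (T d c (h - s)).1 = (T c d h).2)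

instance (S : Finset ℕ) (T : Bool → Bool → ℕ → ℕ × ℕ) (c d : Bool) (h : ℕ) :
    Decidable (Good S T c d h) := by unfold Good; infer_instance

lemma o_eq (S : Finset ℕ) (T : Bool → Bool → ℕ → ℕ × ℕ) (N : ℕ)
    (hT : ∀ h < N, ∀ c d, Good S T c d h) : ∀ h < N, ∀ c d, o S c d h = T c d h := by
  intro h
  induction h using Nat.strong_induction_on with
  | _ h ih =>
  intro hN c d
  have e : ∀ s ∈ legal S h, o S d c (h - s) = T d c (h - s) := fun s hs => by
    rw [mem_legal] at hs
    exact ih (h - s) (by omega) (by omega) d c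
  rcases hT h hN c d with ⟨he, h0⟩ | ⟨hall, s, hs, e1, e2⟩
  · rw [o_empty c d he, h0]
  · have f : (o S c d h).1 = (T c d h).1 := by
      apply le_antisymm
      · rw [o_fst]
        exact Finset.sup_le fun t ht => by rw [e t ht]; exact (hall t ht).1
      · have := le_fst c d hs
        rw [e s hs] at this
        omega
    refine Prod.ext f ?_
    have mem : (T c d h).2 ∈ {b | ∃ s ∈ legal S h, s + (o S d c (h - s)).2 = (o S c d h).1 ∧
        (o S d c (h - s)).1 = b} := ⟨s, hs, by rw [e s hs, f, e1], by rw [e s hs, e2]⟩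
    rw [o_snd]
    split_ifs with hc
    · refine IsGreatest.csSup_eq ⟨mem, ?_⟩
      rintro b ⟨t, ht, g1, g2⟩
      rw [e t ht] at g1 g2
      have := (hall t ht).2 (by rw [g1, f])
      rw [if_pos hc] at this
      omega
    · refine IsLeast.csInf_eq ⟨mem, ?_⟩
      rintro b ⟨t, ht, g1, g2⟩
      rw [e t ht] at g1 g2
      have := (hall t ht).2 (by rw [g1, f])
      rw [if_neg hc] at this
      omega

end H18.SubG
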