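import Pool.Agent.H18.SubG2

set_option autoImplicit false

namespace H18.SubG

def tAA : ℕ := 0x17b35ccd7325cc57305cbd72e56b95ae56b93ae4eb93ae4eb93ac4eb13ab4ea93a74e9d3a73cbcf2e38bce2e36b8cae32b8bae2eb8bab2eacbab2e9cba72e9cba72a9caa716b85ae16b842e10b842e0eb83ab0eac3ab0e9c3a70e9c3a7089c227089c027009c027009c41e0e7841c0e7039b0e643990e5c397085c217085c017005c017005c015005438b0e2c38b0e203880e20387081c207081c007001c007001c004001000400000000000000
def tAF : ℕ := 0x17335ccd7325cc57305cbd72e56b95ae56b93ae4eb93ae4eb93ac4eb13ab4ea93a74e9d3a73cbcf2e38bce2e36b8cae32b8bae2eb8bab2eacbab2e9cba72e9cba72a9caa716bc5af16b842e10b842e0eb83ab0eac3ab0e9c3a70e9c3a7089c227089c027009c027009c41e0e7841c0e7039b0e643990e5c397085c217085c017005c017005c015005438b0e2c38b0e203880e20387081c207081c007001c007001c004001000400000000000000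
def tFA : ℕ := 0x17b35ccd7325cc57305cbd72e58b962e56b952e4eb93ae4eb93ac4eb13ab4ea93a74e9d3a73cbcf2e38bce2e36b8cae32b8bae2eb8bab2eacbab2e9cba72e9cba72a9caa716b85ae16b842e10b842e0eb83ab0eac3ab0e9c3a70e9c3a7089c227089c027009c027009c41e0e7841c0e7039b0e643990e5c397085c217085c017005c017005c015005440b102c38b0e203880e20387081c207081c007001c007001c004001000400000000000000
def tFF : ℕ := 0x17b35ccd7325cc57305cbd72e58b962e56b952e4eb93ae4eb93ac4eb13ab4ea93a74e9d3a73cbcf2e38bce2e36b8cae32b8bae2eb8bab2eacbab2e9cba72e9cba72a9caa716bc5af16b842e10b842e0eb83ab0eac3ab0e9c3a70e9c3a7089c227089c027009c027009c41e0e7841c0e7039b0e643990e5c397085c217085c017005c017005c015005440b102c38b0e203880e20387081c207081c007001c007001c004001000400000000000000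

def tab (c d : Bool) (h : ℕ) : ℕ × ℕ :=
  let n := (if c then (if d then tFF else tFA) else (if d then tAF else tAA)) / 2 ^ (14 * h)
  (n % 128, n / 128 % 128)

lemma tab_good : ∀ h < 99, ∀ c d, Good {4, 7, 21, 23, 39} tab c d h := by decide +kernel

lemma vals : o {4, 7, 21, 23, 39} false false 98 = (51, 47) ∧
    o {4, 7, 21, 23, 39} false true 98 = (51, 46) := by
  rw [o_eq _ tab 99 tab_good 98 (by norm_num), o_eq _ tab 99 tab_good 98 (by norm_num)]
  decide +kernel

end H18.SubG
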