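import Mathlib

/-! Extending countably many involutions of closed sets of even sequences to involutions of Baire
space, freely: new identifications are only tail-like. -/

set_option autoImplicit false

namespace Pool.Agent.H18.TJ

open Function

abbrev N := ℕ → ℕ

def Ag {γ : Type} (n : ℕ) (u v : ℕ → γ) : Prop := ∀ i < n, u i = v i

theorem Ag.symm {γ : Type} {n : ℕ} {u v : ℕ → γ} (h : Ag n u v) : Ag n v u :=
  fun i hi => (h i hi).symm
theorem Ag.trans {γ : Type} {n : ℕ} {u v w : ℕ → γ} (h : Ag n u v) (h' : Ag n v w) : Ag n u w :=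
  fun i hi => (h i hi).trans (h' i hi)
theorem Ag.mono {γ : Type} {n m : ℕ} {u v : ℕ → γ} (h : Ag n u v) (h' : m ≤ n) : Ag m u v :=
  fun i hi => h i (by omega)
theorem Ag.rfl {γ : Type} {n : ℕ} {u : ℕ → γ} : Ag n u u := fun _ _ => Eq.refl _

def EvEq {γ : Type} (u v : ℕ → γ) : Prop := ∃ n, ∀ i, n ≤ i → u i = v i

theorem EvEq.rfl {γ : Type} {u : ℕ → γ} : EvEq u u := ⟨0, fun _ _ => Eq.refl _⟩
theorem EvEq.symm {γ : Type} {u v : ℕ → γ} (h : EvEq u v) : EvEq v u :=
  h.imp fun _ h i hi => (h i hi).symm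
theorem EvEq.trans {γ : Type} {u v w : ℕ → γ} (h : EvEq u v) (h' : EvEq v w) : EvEq u w := by
  obtain ⟨n, h⟩ := h
  obtain ⟨m, h'⟩ := h'
  exact ⟨max n m, fun i hi => (h i (by omega)).trans (h' i (by omega))⟩

def Ev (u : N) : Prop := ∀ m, u m % 2 = 0

theorem ag_nhds {γ : Type} [TopologicalSpace γ] [DiscreteTopology γ] (u : ℕ → γ) (m : ℕ) :
    ∀ᶠ v in nhds u, Ag m u v := by
  have : ∀ᶠ v in nhds u, ∀ i ∈ Finset.range m, u i = v i :=
    (Filter.eventually_all_finset _).2 fun i _ =>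
      ((continuous_apply i).continuousAt (x := u)).eventually
        (p := fun a => u i = a) (by simp [nhds_discrete])
  exact this.mono fun v h i hi => h i (Finset.mem_range.2 hi)

theorem cont_of {γ δ : Type} [TopologicalSpace γ] [DiscreteTopology γ] [TopologicalSpace δ]
    {s : (ℕ → γ) → ℕ → δ} (h : ∀ u n, ∃ m, ∀ v, Ag m u v → Ag n (s u) (s v)) : Continuous s := by
  refine continuous_pi fun i => continuous_iff_continuousAt.2 fun u => ?_
  obtain ⟨m, hm⟩ := h u (i + 1)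
  exact continuousAt_const.congr ((ag_nhds u m).mono fun v hv => hm v hv i (by omega))

def pc (u : N) : ℕ → ℕ
  | 0 => u 0
  | p + 1 => Nat.pair (pc u p) (u (p + 1))

theorem le_pc (u : N) (p : ℕ) : u p ≤ pc u p := by
  cases p
  · exact le_rfl
  · exact Nat.right_le_pair _ _

theorem pc_iff {u v : N} {p : ℕ} : pc u p = pc v p ↔ Ag (p + 1) u v := by
  induction p with
  | zero => exact ⟨fun h i hi => by obtain rfl : i = 0 := by omega
                                    exact h, fun h => h 0 (by omega)⟩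
  | succ p ih =>
    simp only [pc, Nat.pair_eq_pair, ih]
    refine ⟨fun h i hi => ?_, fun h => ⟨h.mono (by omega), h _ (by omega)⟩⟩
    rcases (by omega : i < p + 1 ∨ i = p + 1) with h' | rfl
    exacts [h.1 i h', h.2]

def spl (p : ℕ) (u t : N) : N := fun m => if m ≤ p then u m else t m

theorem ag_spl (p : ℕ) (u t : N) : Ag (p + 1) u (spl p u t) := fun i hi => by
  simp [spl, show i ≤ p by omega]

theorem spl_eq {p : ℕ} {u t : N} (h : Ag (p + 1) u t) : spl p u t = t := by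
  funext m
  by_cases hm : m ≤ p
  · simp [spl, hm, h m (by omega)]
  · simp [spl, hm]

theorem exists_new {α : Type} (I : α → α) (D : α → Prop) (μ : α → ℕ)
    (h : ∀ v, D v → μ v < μ (I v)) :
    ∃ P : α → Prop, ∀ u, P u ↔ ∃ v, D v ∧ I v = u ∧ ¬ P v := by
  have wf : WellFounded (InvImage (· < ·) μ) := InvImage.wf μ wellFounded_lt
  refine ⟨wf.fix fun u R => ∃ v, ∃ hv : D v ∧ I v = u, ¬ R v (by
    have := h v hv.1
    rw [hv.2] at this
    exact this), fun u => ?_⟩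
  rw [WellFounded.fix_eq]
  exact ⟨fun ⟨v, hv, h⟩ => ⟨v, hv.1, hv.2, h⟩, fun ⟨v, h1, h2, h⟩ => ⟨v, ⟨h1, h2⟩, h⟩⟩

/-- a continuous involution of a nonempty closed set of even sequences, with a name -/
structure Sys where
  c : ℕ
  K : Set N
  θ : N → N
  ne : K.Nonempty
  cl : ∀ y, (∀ n, ∃ z ∈ K, Ag n y z) → y ∈ K
  ev : ∀ y ∈ K, Ev y
  map : ∀ y ∈ K, θ y ∈ K
  inv : ∀ y ∈ K, θ (θ y) = y
  cont : ∀ y ∈ K, ∀ n, ∃ m, ∀ z ∈ K, Ag m y z → Ag n (θ y) (θ z)

namespace Sys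

variable (S : Sys)

noncomputable def ex (u : N) : ℕ := sInf {p | ¬ ∃ z ∈ S.K, Ag (p + 1) u z}

theorem ex_out {u : N} (h : u ∉ S.K) : ¬ ∃ z ∈ S.K, Ag (S.ex u + 1) u z := by
  have : {p | ¬ ∃ z ∈ S.K, Ag (p + 1) u z}.Nonempty := by
    by_contra hc
    refine h (S.cl u fun n => ?_)
    by_contra h2
    exact hc ⟨n, fun ⟨z, hz, h3⟩ => h2 ⟨z, hz, h3.mono (by omega)⟩⟩
  exact Nat.sInf_mem this

theorem ex_in (u : N) : ∃ z ∈ S.K, Ag (S.ex u) u z := by
  rcases h : S.ex u with _ | p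
  · obtain ⟨z, hz⟩ := S.ne
    exact ⟨z, hz, fun i hi => by omega⟩
  · have : p < S.ex u := by omega
    exact not_not.1 (Nat.notMem_of_lt_sInf this)

theorem le_ex {u : N} (h : u ∉ S.K) {p : ℕ} {z : N} (hz : z ∈ S.K) (h1 : Ag p u z) :
    p ≤ S.ex u := by
  by_contra hc
  exact S.ex_out h ⟨z, hz, h1.mono (by omega)⟩

theorem ex_eq {u : N} {p : ℕ} (h1 : ∃ z ∈ S.K, Ag p u z) (h2 : ¬ ∃ z ∈ S.K, Ag (p + 1) u z) :
    u ∉ S.K ∧ S.ex u = p := by
  have h : u ∉ S.K := fun h => h2 ⟨u, h, Ag.rfl⟩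
  obtain ⟨z, hz, h1⟩ := h1
  exact ⟨h, le_antisymm (Nat.sInf_le h2) (S.le_ex h hz h1)⟩

noncomputable def pi (u : N) : N := Classical.epsilon fun z => z ∈ S.K ∧ Ag (S.ex u) u z

theorem pi_spec (u : N) : S.pi u ∈ S.K ∧ Ag (S.ex u) u (S.pi u) :=
  Classical.epsilon_spec (p := fun z => z ∈ S.K ∧ Ag (S.ex u) u z) (S.ex_in u)

noncomputable def I (u : N) : N := fun m =>
  if m < S.ex u then S.θ (S.pi u) m
  else if m = S.ex u then 2 * Nat.pair S.c (pc u (S.ex u)) + 1 else u m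

theorem I_lt (u : N) : Ag (S.ex u) (S.I u) (S.θ (S.pi u)) := fun i hi => by simp [I, hi]
theorem I_at (u : N) : S.I u (S.ex u) = 2 * Nat.pair S.c (pc u (S.ex u)) + 1 := by simp [I]
theorem I_gt (u : N) {m : ℕ} (h : S.ex u < m) : S.I u m = u m := by
  simp [I, h.ne', h.le.not_gt]

theorem I_ex (u : N) : S.I u ∉ S.K ∧ S.ex (S.I u) = S.ex u := by
  refine S.ex_eq ⟨_, S.map _ (S.pi_spec u).1, S.I_lt u⟩ fun ⟨z, hz, h⟩ => ?_
  have h1 := h _ (Nat.lt_succ_self _)
  have h2 := S.ev z hz (S.ex u)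
  rw [S.I_at] at h1
  omega

theorem loc {u v : N} (h : u ∉ S.K) (h1 : Ag (S.ex u + 1) u v) :
    v ∉ S.K ∧ S.ex v = S.ex u ∧ Ag (S.ex u + 1) (S.I u) (S.I v) := by
  obtain ⟨z, hz, h2⟩ := S.ex_in u
  obtain ⟨h3, h4⟩ := S.ex_eq (u := v) (p := S.ex u) ⟨z, hz, (h1.symm.mono (by omega)).trans h2⟩
    fun ⟨z, hz, h2⟩ => S.ex_out h ⟨z, hz, h1.trans h2⟩
  have h5 : S.pi v = S.pi u := by
    unfold pi
    rw [h4]
    congr 1
    funext z
    exact propext (and_congr_right fun _ => ⟨fun h => (h1.mono (by omega)).trans h,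
      fun h => (h1.symm.mono (by omega)).trans h⟩)
  refine ⟨h3, h4, fun i hi => ?_⟩
  unfold I
  rw [h4, h5, pc_iff.2 h1]
  split_ifs
  · rfl
  · rfl
  · omega

theorem I_inj {S' : Sys} {u v : N} (h : S.I u = S'.I v) : S.c = S'.c ∧ u = v := by
  have key : ∀ {S S' : Sys} {u v : N}, S.I u = S'.I v → S'.ex v ≤ S.ex u := by
    intro S S' u v h
    by_contra hc
    have h1 := S'.I_lt v (S.ex u) (by omega)
    have h2 := S'.ev _ (S'.map _ (S'.pi_spec v).1) (S.ex u)
    rw [← h, S.I_at] at h1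
    omega
  have h1 : S.ex u = S'.ex v := le_antisymm (key h.symm) (key h)
  have h2 := S.I_at u
  rw [h, h1, S'.I_at] at h2
  have h3 := Nat.pair_eq_pair.1 (show Nat.pair S.c (pc u (S'.ex v)) = Nat.pair S'.c (pc v (S'.ex v))
    by omega)
  refine ⟨h3.1, funext fun m => ?_⟩
  by_cases hm : m < S'.ex v + 1
  · exact pc_iff.1 h3.2 m hm
  · rw [← S.I_gt u (by omega), h, S'.I_gt v (by omega)]

theorem I_mu (v : N) : v (S.ex v) < S.I v (S.ex (S.I v)) := by
  rw [(S.I_ex v).2, S.I_at]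
  have := le_pc v (S.ex v)
  have := Nat.right_le_pair S.c (pc v (S.ex v))
  omega

noncomputable def New : N → Prop :=
  (exists_new S.I (· ∉ S.K) (fun u => u (S.ex u)) fun v _ => S.I_mu v).choose

theorem new_iff (u : N) : S.New u ↔ ∃ v, v ∉ S.K ∧ S.I v = u ∧ ¬ S.New v :=
  (exists_new S.I (· ∉ S.K) (fun u => u (S.ex u)) fun v _ => S.I_mu v).choose_spec u

theorem I_spl {v : N} (h : v ∉ S.K) {p : ℕ} (hp : S.ex v ≤ p) (t : N) :
    S.I (spl p v t) = spl p (S.I v) t := by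
  obtain ⟨-, h2, h3⟩ := S.loc h ((ag_spl p v t).mono (by omega))
  funext m
  by_cases hm : m < S.ex v + 1
  · rw [← h3 m hm, ← ag_spl p _ t m (by omega)]
  · rw [S.I_gt _ (by omega)]
    unfold spl
    rw [S.I_gt _ (by omega)]

theorem new_loc (n : ℕ) : ∀ u v : N, u ∉ S.K → u (S.ex u) < n → Ag (S.ex u + 1) u v →
    S.New u → S.New v := by
  induction n with
  | zero => intro u v _ h; omega
  | succ n ih =>
    intro u v _ h2 h3 h4
    obtain ⟨w, hw, rfl, h5⟩ := (S.new_iff u).1 h4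
    have h6 := S.I_mu w
    rw [(S.I_ex w).2] at *
    obtain ⟨h7, h8, -⟩ := S.loc hw (ag_spl (S.ex w) w v)
    refine (S.new_iff v).2 ⟨spl (S.ex w) w v, h7, by rw [S.I_spl hw le_rfl, spl_eq h3],
      fun h9 => h5 (ih _ _ h7 ?_ ?_ h9)⟩
    · rw [h8, ← ag_spl _ w v _ (by omega)]; omega
    · rw [h8]; exact (ag_spl _ w v).symm

def Arr (u v : N) : Prop := v ∉ S.K ∧ ¬ S.New v ∧ S.I v = u

theorem Arr.spl {u v : N} (h : S.Arr u v) {p : ℕ} (hp : S.ex v ≤ p) (t : N) :
    S.Arr (spl p u t) (spl p v t) ∧ S.ex (TJ.spl p v t) = S.ex v := by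
  obtain ⟨h1, h2, rfl⟩ := h
  obtain ⟨h3, h4, -⟩ := S.loc h1 ((ag_spl p v t).mono (by omega))
  refine ⟨⟨h3, fun h => h2 (S.new_loc _ _ _ h3 (Nat.lt_succ_self _) ?_ h), S.I_spl h1 hp t⟩, h4⟩
  rw [h4]
  exact (ag_spl p v t).symm.mono (by omega)

theorem Arr.tail {u v : N} (h : S.Arr u v) {m : ℕ} (hm : S.ex v < m) : u m = v m := by
  rw [← h.2.2, S.I_gt v hm]

theorem Arr.not_ev {u v : N} (h : S.Arr u v) : ¬ Ev u := fun h1 => by
  have := h1 (S.ex v)
  rw [← h.2.2, S.I_at] at this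
  omega

open Classical in
noncomputable def s (u : N) : N :=
  if u ∈ S.K then S.θ u else if h : S.New u then ((S.new_iff u).1 h).choose else S.I u

theorem s_in {u : N} (h : u ∈ S.K) : S.s u = S.θ u := if_pos h

theorem s_cases {u : N} (h : u ∉ S.K) : S.Arr u (S.s u) ∨ S.Arr (S.s u) u := by
  unfold s
  rw [if_neg h]
  split_ifs with h1
  · have := ((S.new_iff u).1 h1).choose_spec
    exact Or.inl ⟨this.1, this.2.2, this.2.1⟩
  · exact Or.inr ⟨h, h1, rfl⟩

theorem Arr.s {u v : N} (h : S.Arr u v) : S.s u = v ∧ S.s v = u := by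
  have hu : u ∉ S.K := h.2.2 ▸ (S.I_ex v).1
  constructor
  · rcases S.s_cases hu with h1 | h1
    · exact (S.I_inj (h1.2.2.trans h.2.2.symm)).2
    · exact absurd ((S.new_iff u).2 ⟨v, h.1, h.2.2, h.2.1⟩) h1.2.1
  · rcases S.s_cases h.1 with h1 | h1
    · exact absurd ((S.new_iff v).2 ⟨_, h1.1, h1.2.2, h1.2.1⟩) h.2.1
    · exact h1.2.2.symm.trans h.2.2

theorem s_s (u : N) : S.s (S.s u) = u := by
  by_cases h : u ∈ S.K
  · rw [S.s_in h, S.s_in (S.map u h), S.inv u h]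
  · rcases S.s_cases h with h1 | h1
    exacts [h1.s.2, h1.s.1]

theorem s_cont : Continuous S.s := by
  refine cont_of fun u n => ?_
  by_cases h : u ∈ S.K
  · obtain ⟨m, hm⟩ := S.cont u h n
    refine ⟨max m n, fun v hv => ?_⟩
    rw [S.s_in h]
    by_cases h' : v ∈ S.K
    · rw [S.s_in h']
      exact hm v h' (hv.mono (by omega))
    have h1 := S.le_ex h' h hv.symm
    rcases S.s_cases h' with h2 | h2
    · generalize S.s v = w at h2
      obtain ⟨-, -, rfl⟩ := h2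
      rw [(S.I_ex w).2] at h1
      have h3 := hm _ (S.map _ (S.pi_spec w).1)
        ((hv.mono (by omega)).trans ((S.I_lt w).mono (by omega)))
      rw [S.inv _ (S.pi_spec w).1] at h3
      exact h3.trans ((S.pi_spec w).2.symm.mono (by omega))
    · rw [← h2.2.2]
      exact (hm _ (S.pi_spec v).1 ((hv.mono (by omega)).trans
        ((S.pi_spec v).2.mono (by omega)))).trans ((S.I_lt v).symm.mono (by omega))
  · refine ⟨max n (S.ex u + 1), fun v hv i hi => ?_⟩
    have h3 : spl (S.ex u) u v = v := spl_eq (hv.mono (by omega))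
    have key : S.s v = spl (S.ex u) (S.s u) v → (S.ex u < i → S.s u i = u i) →
        S.s u i = S.s v i := fun h1 h2 => by
      rw [h1]
      unfold spl
      split_ifs with h4
      · rfl
      · rw [h2 (by omega), hv i (by omega)]
    rcases S.s_cases h with h1 | h1
    · have h4 : S.ex (S.s u) = S.ex u := by
        conv_rhs => rw [← h1.2.2]
        exact (S.I_ex _).2.symm
      have h2 := (h1.spl S h4.le v).1.s.1
      rw [h3] at h2
      exact key h2 fun h5 => (h1.tail S (by omega)).symm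
    · have h2 := (h1.spl S le_rfl v).1.s.2
      rw [h3] at h2
      exact key h2 fun h5 => h1.tail S h5

end Sys

def Orb {ι : Type} (s : ι → N → N) : N → N → Prop :=
  Relation.ReflTransGen fun u v => ∃ e, v = s e u

theorem Orb.symm {ι : Type} {s : ι → N → N} (hs : ∀ e u, s e (s e u) = u) {u v : N}
    (h : Orb s u v) : Orb s v u := by
  induction h with
  | refl => exact .refl
  | tail _ h ih =>
    obtain ⟨e, rfl⟩ := h
    exact .head ⟨e, (hs _ _).symm⟩ ih

theorem extend {ι : Type} (S : ι → Sys) (hc : Injective fun e => (S e).c) :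
    ∃ b : N → N, Continuous b ∧ Injective b ∧
      (∀ e u, u ∉ (S e).K → EvEq (b u) (b ((S e).s u))) ∧
      (∀ u v, EvEq (b u) (b v) → Orb (fun e => (S e).s) u v) ∧
      ∀ P : N → Prop, (∀ e, ∀ y ∈ (S e).K, P y → P ((S e).θ y)) → ∀ y0 u, Ev y0 → P y0 →
        Orb (fun e => (S e).s) y0 u → ∃ y, P y ∧ EvEq u y ∧ (Ev u → u = y) := by
  let A : ℕ → N → N → Prop := fun p u v => ∃ e, (S e).Arr u v ∧ (S e).ex v ≤ p
  have t1 : ∀ p u v, Relation.EqvGen (A p) u v → ∀ m, p < m → u m = v m := by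
    intro p u v h m hm
    induction h with
    | rel _ _ h => obtain ⟨e, h, h'⟩ := h; exact h.tail _ (by omega)
    | refl => rfl
    | symm _ _ _ h => exact h.symm
    | trans _ _ _ _ _ h h' => exact h.trans h'
  have t2 : ∀ p u v t, Relation.EqvGen (A p) u v →
      Relation.EqvGen (A p) (spl p u t) (spl p v t) := by
    intro p u v t h
    induction h with
    | rel _ _ h =>
      obtain ⟨e, h, h'⟩ := h
      exact .rel _ _ ⟨e, (h.spl _ h' t).1, (h.spl _ h' t).2 ▸ h'⟩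
    | refl => exact .refl _
    | symm _ _ _ h => exact .symm _ _ h
    | trans _ _ _ _ _ h h' => exact .trans _ _ _ h h'
  have t3 : ∀ p u v, Relation.EqvGen (A p) u v → Orb (fun e => (S e).s) u v := by
    intro p u v h
    induction h with
    | rel _ _ h => obtain ⟨e, h, -⟩ := h; exact .single ⟨e, h.s.1.symm⟩
    | refl => exact .refl
    | symm _ _ _ h => exact h.symm fun e => (S e).s_s
    | trans _ _ _ _ _ h h' => exact h.trans h'
  let Q : ℕ → N → Set ℕ := fun p u => {k | ∃ v, Relation.EqvGen (A p) u v ∧ pc v p = k}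
  have q1 : ∀ p u v, Ag (p + 1) u v → Q p u ⊆ Q p v := by
    rintro p u v h k ⟨w, hw, rfl⟩
    have := t2 p u w v hw
    rw [spl_eq h] at this
    exact ⟨_, this, pc_iff.2 (ag_spl p w v).symm⟩
  have q2 : ∀ p u v, A p u v → Q p u = Q p v := fun p u v h => Set.ext fun k =>
    ⟨fun ⟨w, hw, h'⟩ => ⟨w, .trans _ _ _ (.symm _ _ (.rel _ _ h)) hw, h'⟩,
      fun ⟨w, hw, h'⟩ => ⟨w, .trans _ _ _ (.rel _ _ h) hw, h'⟩⟩
  have q3 : ∀ e u v, (S e).Arr u v → EvEq (fun p => Nat.pair (sInf (Q p u)) (u p))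
      fun p => Nat.pair (sInf (Q p v)) (v p) := fun e u v h =>
    ⟨(S e).ex v + 1, fun p hp => by
      simp only
      rw [q2 p u v ⟨e, h, by omega⟩, h.tail _ (by omega)]⟩
  refine ⟨fun u p => Nat.pair (sInf (Q p u)) (u p), cont_of fun u n => ⟨n, fun v h p hp => ?_⟩,
    fun u v h => funext fun p => (Nat.pair_eq_pair.1 (congrFun h p)).2, fun e u h => ?_,
    fun u v ⟨p, h⟩ => ?_, fun P hP y0 u h0 h1 h => ?_⟩
  · have h' : Ag (p + 1) u v := h.mono (by omega)
    simp only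
    rw [(q1 p u v h').antisymm (q1 p v u h'.symm), h p hp]
  · rcases (S e).s_cases h with h1 | h1
    exacts [q3 e _ _ h1, (q3 e _ _ h1).symm]
  · obtain ⟨u', h1, h2⟩ : sInf (Q p u) ∈ Q p u := Nat.sInf_mem ⟨_, u, .refl _, rfl⟩
    obtain ⟨v', h3, h4⟩ : sInf (Q p v) ∈ Q p v := Nat.sInf_mem ⟨_, v, .refl _, rfl⟩
    have h5 : u' = v' := funext fun m => by
      by_cases hm : m < p + 1
      · exact pc_iff.1 (by rw [h2, h4, (Nat.pair_eq_pair.1 (h p le_rfl)).1]) m hm
      · rw [← t1 p _ _ h1 m (by omega), ← t1 p _ _ h3 m (by omega),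
          (Nat.pair_eq_pair.1 (h m (by omega))).2]
    subst h5
    exact t3 p _ _ (.trans _ _ _ h1 (.symm _ _ h3))
  · let R : N → N → Prop := Relation.ReflTransGen fun u v => ∃ e, (S e).Arr u v
    have r1 : ∀ u y, R u y → Ev u → u = y := fun u y h h' => by
      rcases h.cases_head with h | ⟨v, ⟨e, h⟩, -⟩
      exacts [h, absurd h' (h.not_ev _)]
    have r2 : ∀ u y, R u y → EvEq u y := fun u y h => by
      induction h with
      | refl => exact EvEq.rfl
      | tail _ h ih =>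
        obtain ⟨e, h⟩ := h
        exact ih.trans ⟨_, fun m hm => h.tail _ (Nat.lt_of_succ_le hm)⟩
    suffices ∃ y, Ev y ∧ P y ∧ R u y by
      obtain ⟨y, -, h2, h3⟩ := this
      exact ⟨y, h2, r2 _ _ h3, r1 _ _ h3⟩
    induction h with
    | refl => exact ⟨y0, h0, h1, .refl⟩
    | @tail u _ _ h ih =>
      obtain ⟨e, rfl⟩ := h
      obtain ⟨y, h2, h3, h4⟩ := ih
      by_cases hu : u ∈ (S e).K
      · obtain rfl := r1 _ _ h4 ((S e).ev u hu)
        simp only [(S e).s_in hu]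
        exact ⟨_, (S e).ev _ ((S e).map u hu), hP e u hu h3, .refl⟩
      rcases (S e).s_cases hu with h5 | h5
      · rcases h4.cases_head with rfl | ⟨v, ⟨e', h6⟩, h7⟩
        · exact absurd h2 (h5.not_ev _)
        · obtain rfl := ((S e).I_inj (h5.2.2.trans h6.2.2.symm)).2
          exact ⟨y, h2, h3, h7⟩
      · exact ⟨y, h2, h3, .head ⟨e, h5⟩ h4⟩

end Pool.Agent.H18.TJ
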