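import Mathlib

/-! Gluing Borel injections that respect a relation. -/

set_option autoImplicit false

namespace Pool.Agent.H18.TJ

open Function Set

variable {A B Z : Type} [MeasurableSpace A] [MeasurableSpace B] [MeasurableSpace Z]

def PI (R : A → B → Prop) (S : Set A) : Prop :=
  MeasurableSet S ∧ ∃ p : A → B, Measurable p ∧ InjOn p S ∧ ∀ x ∈ S, R x (p x)

theorem PI.graph [StandardBorelSpace A] [StandardBorelSpace Z] [Nonempty B] {R : A → B → Prop}
    {T : Set Z} (hT : MeasurableSet T) {a : Z → A} {c : Z → B} (ha : Measurable a)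
    (hc : Measurable c) (ia : InjOn a T) (ic : InjOn c T) (h : ∀ z ∈ T, R (a z) (c z)) :
    PI R (a '' T) := by
  have := hT.standardBorel
  have he : MeasurableEmbedding fun z : T => a z :=
    (ha.comp measurable_subtype_coe).measurableEmbedding fun z w h => Subtype.ext (ia z.2 w.2 h)
  obtain ⟨p, h1, h2⟩ := he.exists_measurable_extend (hc.comp measurable_subtype_coe)
    fun _ => inferInstance
  have h3 : ∀ z ∈ T, p (a z) = c z := fun z hz => congrFun h2 ⟨z, hz⟩
  refine ⟨by rw [image_eq_range]; exact he.measurableSet_range, p, h1, ?_, ?_⟩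
  · rintro _ ⟨z, hz, rfl⟩ _ ⟨w, hw, rfl⟩ h
    rw [h3 z hz, h3 w hw] at h
    rw [ic hz hw h]
  · rintro _ ⟨z, hz, rfl⟩
    rw [h3 z hz]
    exact h z hz

/-- a padding of `B` that respects `R` -/
def Pad (R : A → B → Prop) : Prop := ∃ j : ℕ → B → B, (∀ n, Measurable (j n)) ∧
  (∀ n m u v, j n u = j m v → n = m ∧ u = v) ∧ ∀ n x u, R x u → R x (j n u)

theorem PI.iUnion {R : A → B → Prop} (hR : Pad R) {ι : Type} [Countable ι] [Nonempty ι]
    {S : ι → Set A} (h : ∀ i, PI R (S i)) : PI R (⋃ i, S i) := by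
  classical
  obtain ⟨j, j1, j2, j3⟩ := hR
  obtain ⟨κ, hκ⟩ := exists_surjective_nat ι
  choose p p1 p2 p3 using fun i => (h i).2
  have hm : MeasurableSet (⋃ i, S i) := .iUnion fun i => (h i).1
  have he : ∀ x, ∃ n, x ∈ S (κ n) ∨ x ∉ ⋃ i, S i := fun x => by
    by_cases hx : x ∈ ⋃ i, S i
    · obtain ⟨i, hi⟩ := mem_iUnion.1 hx
      obtain ⟨n, rfl⟩ := hκ i
      exact ⟨n, Or.inl hi⟩
    · exact ⟨0, Or.inr hx⟩
  refine ⟨hm, fun x => j (Nat.find (he x)) (p (κ (Nat.find (he x))) x),
    Measurable.find (f := fun n x => j n (p (κ n) x))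
      (p := fun n x => x ∈ S (κ n) ∨ x ∉ ⋃ i, S i) (fun n => (j1 n).comp (p1 _))
      (fun n => ((h _).1.union hm.compl)) he, fun x hx y hy hxy => ?_,
    fun x hx => j3 _ _ _ (p3 _ _ ((Nat.find_spec (he x)).resolve_right (not_not.2 hx)))⟩
  obtain ⟨h1, h2⟩ := j2 _ _ _ _ hxy
  have h3 := (Nat.find_spec (he x)).resolve_right (not_not.2 hx)
  have h4 := (Nat.find_spec (he y)).resolve_right (not_not.2 hy)
  rw [← h1] at h2 h4
  exact p2 _ h3 h4 h2

theorem PI.union {R : A → B → Prop} (hR : Pad R) {S T : Set A} (h : PI R S) (h' : PI R T) :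
    PI R (S ∪ T) := by
  rw [union_eq_iUnion]
  exact PI.iUnion hR fun b => by cases b <;> assumption

theorem sb [StandardBorelSpace A] [StandardBorelSpace B] [Nonempty A] [Nonempty B]
    {R : A → B → Prop} (h : PI R univ) (h' : PI (flip R) univ) :
    ∃ Φ : A ≃ᵐ B, ∀ x, R x (Φ x) := by
  classical
  obtain ⟨-, f, f1, f2, f3⟩ := h
  obtain ⟨-, g, g1, g2, g3⟩ := h'
  have hf := f1.measurableEmbedding (injOn_univ.1 f2)
  have hg := g1.measurableEmbedding (injOn_univ.1 g2)
  let F : Set A → Set A := fun C => (g '' (f '' C)ᶜ)ᶜ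
  obtain ⟨C, C1, C2⟩ : ∃ C : Set A, MeasurableSet C ∧ F C = C := by
    have Fmono : ∀ {A B}, A ⊆ B → F A ⊆ F B := fun h =>
      compl_subset_compl.mpr <| Set.image_mono <| compl_subset_compl.mpr <| Set.image_mono h
    let X : ℕ → Set A := fun n => F^[n] univ
    refine ⟨iInter X, ?_, ?_⟩
    · refine MeasurableSet.iInter fun n ↦ ?_
      induction n with
      | zero => exact MeasurableSet.univ
      | succ n ih =>
        rw [Function.iterate_succ', Function.comp_apply]
        exact (hg.measurableSet_image' (hf.measurableSet_image' ih).compl).compl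
    apply subset_antisymm
    · apply subset_iInter
      intro n
      cases n
      · exact subset_univ _
      simp only [X]
      rw [Function.iterate_succ', Function.comp_apply]
      exact Fmono (iInter_subset _ _)
    rintro x hx ⟨y, hy, rfl⟩
    rw [mem_iInter] at hx
    apply hy
    rw [hf.injective.injOn.image_iInter_eq]
    rw [mem_iInter]
    intro n
    specialize hx n.succ
    rw [Function.iterate_succ', Function.comp_apply] at hx
    by_contra h
    apply hx
    exact ⟨y, h, rfl⟩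
  obtain ⟨f', f4, f5⟩ := hf.exists_measurable_extend measurable_id fun _ => inferInstance
  obtain ⟨g', g4, g5⟩ := hg.exists_measurable_extend measurable_id fun _ => inferInstance
  have f6 : ∀ x, f' (f x) = x := congrFun f5
  have g6 : ∀ x, g' (g x) = x := congrFun g5
  have c1 : ∀ x, x ∉ C → ∃ y, y ∉ f '' C ∧ g y = x := fun x hx => by
    rw [← C2] at hx
    exact not_not.1 hx
  have c2 : ∀ y, y ∉ f '' C → g y ∉ C := fun y hy h => by
    rw [← C2] at h
    exact h ⟨y, hy, rfl⟩
  refine ⟨⟨⟨C.piecewise f g', (f '' C).piecewise f' g, fun x => ?_, fun y => ?_⟩,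
    f1.piecewise C1 g4, f4.piecewise (hf.measurableSet_image' C1) g1⟩, fun x => ?_⟩
  · by_cases hx : x ∈ C
    · rw [piecewise_eq_of_mem _ _ _ hx, piecewise_eq_of_mem _ _ _ (mem_image_of_mem f hx), f6]
    · obtain ⟨y, h1, rfl⟩ := c1 x hx
      rw [piecewise_eq_of_notMem _ _ _ hx, g6, piecewise_eq_of_notMem _ _ _ h1]
  · by_cases hy : y ∈ f '' C
    · obtain ⟨x, hx, rfl⟩ := hy
      rw [piecewise_eq_of_mem _ _ _ (mem_image_of_mem f hx), f6, piecewise_eq_of_mem _ _ _ hx]
    · rw [piecewise_eq_of_notMem _ _ _ hy, piecewise_eq_of_notMem _ _ _ (c2 y hy), g6]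
  · show R x (C.piecewise f g' x)
    by_cases hx : x ∈ C
    · rw [piecewise_eq_of_mem _ _ _ hx]
      exact f3 x trivial
    · obtain ⟨y, h1, rfl⟩ := c1 x hx
      rw [piecewise_eq_of_notMem _ _ _ hx, g6]
      exact g3 y trivial

end Pool.Agent.H18.TJ
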