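import Pool.Agent.H18.TJ1
import Pool.Agent.H37.NF

/-! Turing functionals on Cantor space, and an embedding of eventual equality. -/

set_option autoImplicit false

namespace Pool.Agent.H18.TJ

open Function Pool.Agent.H37 Filter

abbrev C := ℕ → Bool

def bt (x : C) : ℕ → ℕ := fun n => (x n).toNat

theorem bt_inj {x y : C} {n m : ℕ} (h : bt x n = bt y m) : x n = y m := by
  unfold bt at h
  revert h
  cases x n <;> cases y m <;> simp

theorem Ag.bt {x y : C} {n : ℕ} (h : Ag n x y) : Ag n (bt x) (bt y) := fun i hi => by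
  unfold TJ.bt; rw [h i hi]

def Le (x y : C) : Prop := CI (orc (bt y)) (bt x)

theorem Le.rfl {x : C} : Le x x := CI.self _
theorem Le.trans {x y z : C} (h : Le x y) (h' : Le y z) : Le x z := CI.trans h h'

def Eqv (x y : C) : Prop := Le x y ∧ Le y x

theorem Eqv.rfl {x : C} : Eqv x x := ⟨Le.rfl, Le.rfl⟩
theorem Eqv.symm {x y : C} (h : Eqv x y) : Eqv y x := ⟨h.2, h.1⟩
theorem Eqv.trans {x y z : C} (h : Eqv x y) (h' : Eqv y z) : Eqv x z :=
  ⟨h.1.trans h'.1, h'.2.trans h.2⟩

theorem EvEq.ci {u v : ℕ → ℕ} (h : EvEq u v) : CI (orc v) u := by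
  obtain ⟨n, h⟩ := h
  have hv := CI.self v
  refine CI.of_eq (f := fun m => if m < n then (pre u n).getD m 0 else v m) (by fun_prop)
    fun m => ?_
  split_ifs with hm
  · exact getD_pre u hm 0
  · exact (h m (by omega)).symm

theorem EvEq.eqv {x y : C} (h : EvEq x y) : Eqv x y := by
  have : EvEq (bt x) (bt y) := h.imp fun n h i hi => by unfold bt; rw [h i hi]
  exact ⟨this.ci, this.symm.ci⟩

theorem use {e n v : ℕ} {x : N} (h : v ∈ app e x n) : ∃ k, ∀ y, Ag k x y → v ∈ app e y n := by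
  obtain ⟨k, hk⟩ := mem_app.1 h
  exact ⟨k, fun y hy => mem_app.2 ⟨k, pre_congr hy ▸ hk⟩⟩

theorem exists_comp (c i : ℕ) : ∃ e, ∀ x y : N, (∀ n, y n ∈ app i x n) →
    ∀ n v, v ∈ app e x n ↔ v ∈ app c y n := by
  let l : List ℕ → ℕ → ℕ := fun σ k =>
    Nat.rec 0 (fun _ a => if (U i σ a).isSome = true then a + 1 else a) k
  have ls : ∀ σ k, l σ (k + 1) = if (U i σ (l σ k)).isSome = true then l σ k + 1 else l σ k :=
    fun _ _ => rfl
  have l1 : ∀ σ k m, m < l σ k → (U i σ m).isSome = true := fun σ k => by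
    induction k with
    | zero => intro m h; exact absurd h (Nat.not_lt_zero _)
    | succ k ih =>
      intro m h
      rw [ls] at h
      split_ifs at h with h1
      · rcases (by omega : m < l σ k ∨ m = l σ k) with h2 | rfl
        exacts [ih m h2, h1]
      · exact ih m h
  have l2 : ∀ σ τ, σ <+: τ → ∀ k, l σ k ≤ l τ k := fun σ τ h k => by
    induction k with
    | zero => exact le_rfl
    | succ k ih =>
      rw [ls, ls]
      split_ifs with h1 h2
      · omega
      · obtain ⟨v, hv⟩ := Option.isSome_iff_exists.1 h1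
        have : l σ k ≠ l τ k := fun h3 => h2 (by rw [← h3, U_mon i _ _ _ _ h hv]; rfl)
        omega
      all_goals omega
  have l3 : ∀ σ, Monotone (l σ) := fun σ => monotone_nat_of_le_succ fun k => by
    rw [ls]; split_ifs <;> omega
  have l4 : ∀ σ M, (∀ m < M, (U i σ m).isSome = true) → ∀ k, min M k ≤ l σ k := fun σ M h k => by
    induction k with
    | zero => simp
    | succ k ih =>
      rw [ls]
      split_ifs with h1
      · omega
      · have : ¬ l σ k < M := fun h2 => h1 (h _ h2)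
        omega
  have hl : CI ∅ fun q : List ℕ × ℕ => l q.1 q.1.length :=
    CI.nat_rec (f := fun q : List ℕ × ℕ => q.1.length) (g := fun _ => 0)
      (h := fun q _ a => if (U i q.1 a).isSome = true then a + 1 else a)
      (by fun_prop) (by fun_prop) (by fun_prop)
  obtain ⟨e, -, he⟩ := exists_U (Φ := fun σ n =>
    U c (pre (fun m => (U i σ m).getD 0) (l σ σ.length)) n)
    (CI.U (by fun_prop) (CI.pre (x := fun (q : List ℕ × ℕ) m => (U i q.1 m).getD 0)
      (by fun_prop) hl) (by fun_prop)) (by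
      intro σ τ n v h hv
      refine U_mon c _ _ _ _ ?_ hv
      rw [pre_congr (y := fun m => (U i τ m).getD 0) fun m hm => by
        obtain ⟨w, hw⟩ := Option.isSome_iff_exists.1 (l1 _ _ _ hm)
        simp only [hw, U_mon i _ _ _ _ h hw]]
      exact pre_pf _ ((l2 _ _ h _).trans (l3 _ h.length_le)))
  refine ⟨e, fun x y h n v => ?_⟩
  have h1 : ∀ k, pre (fun m => (U i (pre x k) m).getD 0) (l (pre x k) (pre x k).length) =
      pre y (l (pre x k) (pre x k).length) := fun k => pre_congr fun m hm => by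
    obtain ⟨w, hw⟩ := Option.isSome_iff_exists.1 (l1 _ _ _ hm)
    simp only [hw, Option.getD_some]
    exact Part.mem_unique (mem_app.2 ⟨k, hw⟩) (h m)
  rw [he, mem_app]
  simp only [h1]
  refine ⟨fun ⟨k, hk⟩ => ⟨_, hk⟩, fun ⟨M, hM⟩ => ?_⟩
  obtain ⟨k, h2, h3⟩ := ((eventually_ge_atTop M).and ((eventually_all_finset (Finset.range M)).2
    fun m _ => mem_app'.1 (h m))).exists
  refine ⟨k, U_mon c _ _ _ _ (pre_pf y ?_) hM⟩
  have := l4 (pre x k) M (fun m hm => by rw [h3 m (Finset.mem_range.2 hm)]; rfl) (pre x k).length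
  rw [length_pre] at this ⊢
  omega

open Classical in
noncomputable def th (i : ℕ) (x : C) : C := fun n => decide (1 ∈ app i (bt x) n)

theorem th_val {i n v : ℕ} {x : C} (h : v ∈ app i (bt x) n) (hv : v ≤ 1) : bt (th i x) n = v := by
  classical
  show (th i x n).toNat = v
  unfold th
  by_cases h1 : 1 ∈ app i (bt x) n
  · rw [Part.mem_unique h h1, decide_eq_true h1]; rfl
  · have : v ≠ 1 := fun h2 => h1 (h2 ▸ h)
    rw [decide_eq_false h1, Bool.toNat_false]; omega

theorem bt_le (x : C) (n : ℕ) : bt x n ≤ 1 := Bool.toNat_le _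

theorem th_eq {i : ℕ} {x y : C} (h : ∀ n, bt y n ∈ app i (bt x) n) : th i x = y :=
  funext fun n => bt_inj (th_val (h n) (bt_le _ _))

def AA (i j : ℕ) : Set C :=
  {x | (∀ n, bt (th i x) n ∈ app i (bt x) n) ∧ ∀ n, bt x n ∈ app j (bt (th i x)) n}

theorem AA_inv {i j : ℕ} {x : C} (h : x ∈ AA i j) : th j (th i x) = x := th_eq h.2

theorem AA_map {i j : ℕ} {x : C} (h : x ∈ AA i j) : th i x ∈ AA j i :=
  ⟨by rw [AA_inv h]; exact h.2, by rw [AA_inv h]; exact h.1⟩

theorem AA_inj (i j : ℕ) : Set.InjOn (th i) (AA i j) := fun x hx y hy h => by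
  rw [← AA_inv hx, h, AA_inv hy]

theorem AA_eqv {i j : ℕ} {x : C} (h : x ∈ AA i j) : Eqv x (th i x) :=
  ⟨RI.ci_of_tot (ri_app j (CI.self _)) h.2, RI.ci_of_tot (ri_app i (CI.self _)) h.1⟩

theorem Eqv.aa {x y : C} (h : Eqv x y) : ∃ i j, x ∈ AA i j ∧ th i x = y := by
  obtain ⟨i, hi⟩ := exists_app_tot h.2
  obtain ⟨j, hj⟩ := exists_app_tot h.1
  exact ⟨i, j, ⟨by rw [th_eq hi]; exact hi, by rw [th_eq hi]; exact hj⟩, th_eq hi⟩

theorem meas_app (e n v : ℕ) : MeasurableSet {x : C | v ∈ app e (bt x) n} := by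
  refine IsOpen.measurableSet (isOpen_iff_mem_nhds.2 fun x hx => ?_)
  obtain ⟨k, hk⟩ := use hx
  exact (ag_nhds x k).mono fun y hy => hk _ hy.bt

theorem meas_th (i : ℕ) : Measurable (th i) :=
  measurable_pi_lambda _ fun n => measurable_to_bool (by
    convert meas_app i n 1 using 1
    ext x
    simp [th])

theorem meas_app' {F G : C → C} (hF : Measurable F) (hG : Measurable G) (e : ℕ) :
    MeasurableSet {x : C | ∀ n, bt (F x) n ∈ app e (bt (G x)) n} := by
  rw [Set.setOf_forall]
  refine .iInter fun n => ?_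
  have : {x : C | bt (F x) n ∈ app e (bt (G x)) n} = ⋃ b : Bool,
      (fun x => F x n) ⁻¹' {b} ∩ G ⁻¹' {y | b.toNat ∈ app e (bt y) n} := by
    ext x
    simp only [Set.mem_setOf_eq, Set.mem_iUnion, Set.mem_inter_iff, Set.mem_preimage,
      Set.mem_singleton_iff, exists_eq_left']
    rfl
  rw [this]
  exact .iUnion fun b => (((measurable_pi_apply n).comp hF) (measurableSet_singleton b)).inter
    (hG (meas_app e n _))

theorem meas_AA (i j : ℕ) : MeasurableSet (AA i j) :=
  (meas_app' (meas_th i) measurable_id i).inter (meas_app' measurable_id (meas_th i) j)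

theorem step (L n : ℕ) : ∃ L', L < L' ∧ ∃ s : Bool → C, s false L ≠ s true L ∧
    ∀ e ≤ n, ∀ i, ∀ x y : C, (∀ m, L ≤ m → m < L' → x m = s i m ∧ y m = s (!i) m) →
      ¬ ∀ k, bt y k ∈ app e (bt x) k := by
  have key : ∀ T : Finset (ℕ × Bool × (Fin L → Bool)), ∃ L', L < L' ∧ ∃ s : Bool → C,
      s false L ≠ s true L ∧ ∀ t ∈ T, ∀ x y : C, (∀ m : Fin L, x m = t.2.2 m) →
        (∀ m, L ≤ m → m < L' → x m = s t.2.1 m ∧ y m = s (!t.2.1) m) →
        ¬ ∀ k, bt y k ∈ app t.1 (bt x) k := by
    classical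
    intro T
    induction T using Finset.induction_on with
    | empty => exact ⟨L + 1, by omega, fun b _ => b, by simp, by simp⟩
    | insert t T _ ih =>
      obtain ⟨L1, h1, s, h2, h3⟩ := ih
      obtain ⟨e, i, p⟩ := t
      by_cases hc : ∃ x : C, (∀ m : Fin L, x m = p m) ∧ (∀ m, L ≤ m → m < L1 → x m = s i m) ∧
          ∃ v, v ∈ app e (bt x) L1
      · obtain ⟨x0, h4, h5, v, hv⟩ := hc
        obtain ⟨k, hk⟩ := use hv
        let s' : Bool → C := fun b => if b = i then x0 else update (s b) L1 (decide (v = 0))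
        have h6 : ∀ b m, L ≤ m → m < L1 → s' b m = s b m := fun b m hm hm' => by
          simp only [s']
          split_ifs with hb
          · rw [hb, h5 m hm hm']
          · rw [update_of_ne (by omega)]
        refine ⟨max k (L1 + 1), by omega, s', by rwa [h6 _ _ le_rfl h1, h6 _ _ le_rfl h1],
          fun t ht x y hx hxy => ?_⟩
        rcases Finset.mem_insert.1 ht with rfl | ht
        · intro h7
          have h8 := hk (bt x) (Ag.bt fun m hm => by
            by_cases hm' : m < L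
            · exact (h4 ⟨m, hm'⟩).trans (hx ⟨m, hm'⟩).symm
            · rw [(hxy m (by omega) (by omega)).1]; simp [s'])
          have h9 := Part.mem_unique h8 (h7 L1)
          have h10 := (hxy L1 (by omega) (by omega)).2
          simp only [s', Bool.not_eq_eq_eq_not, Bool.eq_not_self, if_false, update_self,
            Bool.not_eq_self] at h10
          unfold bt at h9
          rw [h10] at h9
          by_cases h : v = 0
          · rw [decide_eq_true h, Bool.toNat_true] at h9; omega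
          · rw [decide_eq_false h, Bool.toNat_false] at h9; omega
        · refine h3 t ht x y hx fun m hm hm' => ?_
          rw [← h6 _ m hm hm', ← h6 _ m hm hm']
          exact hxy m hm (by omega)
      · refine ⟨L1, h1, s, h2, fun t ht x y hx hxy => ?_⟩
        rcases Finset.mem_insert.1 ht with rfl | ht
        · exact fun h7 => hc ⟨x, hx, fun m hm hm' => (hxy m hm hm').1, _, h7 L1⟩
        · exact h3 t ht x y hx hxy
  obtain ⟨L', h1, s, h2, h3⟩ := key (Finset.range (n + 1) ×ˢ Finset.univ)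
  exact ⟨L', h1, s, h2, fun e he i x y h => h3 (e, i, fun m => x m)
    (by simp; omega) x y (fun _ => rfl) h⟩

theorem gen : ∃ f : C → C, Continuous f ∧ Injective f ∧ (∀ a b, EvEq a b → EvEq (f a) (f b)) ∧
    ∀ a b, Le (f b) (f a) → EvEq a b := by
  choose nx h1 s h2 h3 using step
  let L : ℕ → ℕ := fun n => Nat.rec 0 (fun n a => nx a n) n
  have Ls : ∀ n, L (n + 1) = nx (L n) n := fun _ => rfl
  have Lm : StrictMono L := strictMono_nat_of_lt_succ fun n => h1 _ _
  have ex : ∀ m, ∃ n, m < L (n + 1) := fun m => ⟨m, Lm.le_apply (x := m + 1)⟩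
  let bl : ℕ → ℕ := fun m => Nat.find (ex m)
  have b1 : ∀ n m, L n ≤ m → m < L (n + 1) → bl m = n := fun n m h h' =>
    (Nat.find_eq_iff _).2 ⟨h', fun k hk => not_lt.2 ((Lm.monotone hk).trans h)⟩
  have b2 : ∀ m, bl m ≤ m := fun m => Nat.find_min' _ (Lm.le_apply (x := m + 1))
  have b3 : ∀ n m, L n ≤ m → n ≤ bl m := fun n m h => by
    have : L n < L (bl m + 1) := h.trans_lt (Nat.find_spec (ex m))
    exact Nat.le_of_lt_succ (Lm.lt_iff_lt.1 this)
  refine ⟨fun a m => s (L (bl m)) (bl m) (a (bl m)) m, cont_of fun a n => ⟨n, fun b h m hm => ?_⟩,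
    fun a b h => funext fun n => ?_, fun a b ⟨n, h⟩ => ⟨L n, fun m hm => ?_⟩, fun a b h => ?_⟩
  · simp only
    rw [h _ ((b2 m).trans_lt hm)]
  · have := congrFun h (L n)
    simp only [b1 n (L n) le_rfl (Lm n.lt_succ_self)] at this
    have h4 := h2 (L n) n
    revert this
    cases a n <;> cases b n <;> simp [h4, h4.symm]
  · simp only
    rw [h _ (b3 n m hm)]
  · obtain ⟨e, he⟩ := exists_app_tot h
    refine ⟨e, fun n hn => by_contra fun hc => h3 (L n) n e hn (a n) _ _ (fun m hm hm' => ?_) he⟩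
    simp only [b1 n m hm hm', true_and]
    rw [show b n = !a n by revert hc; cases a n <;> cases b n <;> simp]

theorem gen2 : ∃ f : ℕ → N → C, (∀ m, Continuous (f m)) ∧ (∀ m, Injective (f m)) ∧
    (∀ m a b, EvEq a b → Eqv (f m a) (f m b)) ∧
    ∀ m m' a b, Le (f m a) (f m' b) → m = m' ∧ EvEq a b := by
  obtain ⟨f, h1, h2, h3, h4⟩ := gen
  let cd : ℕ → N → C := fun m a k => decide (Nat.pair m (a k.unpair.1) = k.unpair.2)
  have c1 : ∀ m m' a b i, cd m a (Nat.pair i (Nat.pair m (a i))) =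
      cd m' b (Nat.pair i (Nat.pair m (a i))) → m = m' ∧ a i = b i := fun m m' a b i h => by
    simp only [cd, Nat.unpair_pair, decide_true, true_eq_decide_iff, Nat.pair_eq_pair] at h
    exact ⟨h.1.symm, h.2.symm⟩
  refine ⟨fun m a => f (cd m a), fun m => h1.comp (cont_of fun a n => ⟨n, fun b h k hk => ?_⟩),
    fun m a b h => funext fun i => (c1 m m a b i (congrFun (h2 h) _)).2,
    fun m a b ⟨n, h⟩ => (h3 _ _ ?_).eqv, fun m m' a b h => ?_⟩
  · simp only [cd]
    rw [h _ ((Nat.unpair_left_le k).trans_lt hk)]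
  · refine ⟨(Finset.range n).sup (fun i => Nat.pair i (Nat.pair m (a i)) +
      Nat.pair i (Nat.pair m (b i))) + 1, fun k hk => ?_⟩
    simp only [cd]
    by_cases hn : n ≤ k.unpair.1
    · rw [h _ hn]
    · have := Finset.le_sup (f := fun i => Nat.pair i (Nat.pair m (a i)) +
        Nat.pair i (Nat.pair m (b i))) (Finset.mem_range.2 (not_le.1 hn))
      have h5 := Nat.pair_unpair k
      rw [decide_eq_false fun h6 => by rw [h6] at this; omega,
        decide_eq_false fun h6 => by rw [h6] at this; omega]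
  · obtain ⟨n, h5⟩ := (h4 _ _ h).symm
    have := fun i (hi : n ≤ i) => c1 m m' a b i (h5 _ (hi.trans (Nat.left_le_pair _ _)))
    exact ⟨(this n le_rfl).1, n, fun i hi => (this i hi).2⟩

end Pool.Agent.H18.TJ
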