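import Pool.Agent.H18.TJ3

/-! Labels recording a point of Cantor space together with its jump. -/

set_option autoImplicit false

namespace Pool.Agent.H18.TJ

open Function Pool.Agent.H37 Filter

open Classical in
noncomputable def hw (x : C) (k : ℕ) : ℕ :=
  if h : ∃ t, (U k.unpair.1 (pre (bt x) t) k.unpair.2).isSome = true then Nat.find h + 1 else 0

noncomputable def lab (x : C) : N := fun m =>
  if m % 2 = 0 then 2 * bt x (m / 2) else 2 * hw x (m / 2)

def dc (y : N) : C := fun k => decide (y (2 * k) ≠ 0)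

theorem lab_even (x : C) (k : ℕ) : lab x (2 * k) = 2 * bt x k := by simp [lab]

theorem lab_odd (x : C) (k : ℕ) : lab x (2 * k + 1) = 2 * hw x k := by
  unfold lab
  rw [if_neg (by omega), show (2 * k + 1) / 2 = k by omega]

theorem dc_lab (x : C) : dc (lab x) = x := funext fun k => by
  simp only [dc, lab_even, bt]
  cases x k <;> simp

theorem lab_inj : Injective lab := fun x y h => by rw [← dc_lab x, h, dc_lab]

theorem lab_ev (x : C) : Ev (lab x) := fun m => by
  unfold lab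
  split_ifs <;> omega

theorem hw_ne {x : C} {k : ℕ} : hw x k ≠ 0 ↔ (app k.unpair.1 (bt x) k.unpair.2).Dom := by
  rw [dom_app, hw]
  split_ifs with h <;> simp [h]

theorem hw_loc {x y : C} {k : ℕ} (h : hw x k ≠ 0) (h1 : Ag (hw x k) x y) : hw y k = hw x k := by
  have h2 := dom_app.1 (hw_ne.1 h)
  unfold hw at h1 ⊢
  rw [dif_pos h2] at h1 ⊢
  have h3 : ∀ t ≤ Nat.find h2, pre (bt y) t = pre (bt x) t := fun t ht =>
    pre_congr (h1.symm.bt.mono (by omega))
  have h4 := Nat.find_spec h2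
  rw [← h3 _ le_rfl] at h4
  rw [dif_pos ⟨_, h4⟩]
  congr 1
  exact (Nat.find_eq_iff _).2 ⟨h4, fun t ht => by
    rw [h3 t ht.le]; exact Nat.find_min h2 ht⟩

theorem Ag.dc {n : ℕ} {y z : N} (h : Ag (2 * n) y z) : Ag n (dc y) (dc z) := fun i hi => by
  unfold TJ.dc
  rw [h _ (by omega)]

theorem ag_lab {n : ℕ} {x y : C} (h : Ag n x y) (h' : ∀ k < n, hw x k = hw y k) :
    Ag n (lab x) (lab y) := fun i hi => by
  unfold lab
  rw [h.bt _ (by omega), h' _ (by omega)]

theorem lab_cl {y : N} (h : ∀ n, ∃ x, Ag n y (lab x)) : y = lab (dc y) := by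
  funext m
  obtain ⟨k, rfl | rfl⟩ := Nat.even_or_odd' m
  · obtain ⟨x, hx⟩ := h (2 * (k + 1))
    have := hx.dc.bt k (by omega)
    rw [dc_lab] at this
    rw [hx _ (by omega), lab_even, lab_even, this]
  · obtain ⟨x, hx⟩ := h (2 * (k + 1 + hw (dc y) k + y (2 * k + 1)))
    have h1 := hx.dc
    rw [dc_lab] at h1
    have h2 := hx (2 * k + 1) (by omega)
    rw [lab_odd] at h2 ⊢
    rw [h2]
    by_cases h3 : hw (dc y) k = 0
    · by_cases h4 : hw x k = 0
      · rw [h3, h4]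
      · rw [hw_loc h4 (h1.symm.mono (by omega))]
    · rw [hw_loc h3 (h1.mono (by omega))]

theorem meas_lab : Measurable lab := by
  have h1 : ∀ k, Measurable fun x : C => bt x k := fun k =>
    (measurable_from_top (f := Bool.toNat)).comp (measurable_pi_apply k)
  have h2 : ∀ k, Measurable fun x : C => hw x k := fun k => by
    have : ∀ t, MeasurableSet {x : C | hw x k = t + 1} := fun t =>
      IsOpen.measurableSet (isOpen_iff_mem_nhds.2 fun x (hx : hw x k = t + 1) =>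
        (ag_nhds x (hw x k)).mono fun y hy => (hw_loc (by omega) hy).trans hx)
    refine measurable_to_countable' fun t => ?_
    cases t with
    | succ t => exact this t
    | zero =>
      convert (MeasurableSet.iUnion this).compl using 1
      ext x
      simp only [Set.mem_preimage, Set.mem_singleton_iff, Set.mem_compl_iff, Set.mem_iUnion,
        Set.mem_setOf_eq]
      exact ⟨fun h ⟨t, ht⟩ => by omega, fun h => by_contra fun h' => h ⟨hw x k - 1, by omega⟩⟩
  refine measurable_pi_lambda _ fun m => ?_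
  unfold lab
  split_ifs
  exacts [(h1 _).const_mul 2, (h2 _).const_mul 2]

def Near (x : C) (P : C → Prop) : Prop := ∃ m, ∀ y, Ag m (lab x) (lab y) → P y

theorem Near.mono {x : C} {P Q : C → Prop} (h : Near x P) (h' : ∀ y, P y → Q y) : Near x Q :=
  h.imp fun _ h y hy => h' y (h y hy)

theorem Near.and {x : C} {P Q : C → Prop} (h : Near x P) (h' : Near x Q) :
    Near x fun y => P y ∧ Q y := by
  obtain ⟨m, h⟩ := h
  obtain ⟨n, h'⟩ := h'
  exact ⟨max m n, fun y hy => ⟨h y (hy.mono (by omega)), h' y (hy.mono (by omega))⟩⟩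

theorem Near.all {x : C} {P : ℕ → C → Prop} (h : ∀ i, Near x (P i)) (n : ℕ) :
    Near x fun y => ∀ i < n, P i y := by
  induction n with
  | zero => exact ⟨0, fun _ _ _ h => absurd h (Nat.not_lt_zero _)⟩
  | succ n ih =>
    refine (ih.and (h n)).mono fun y hy i hi => ?_
    rcases (by omega : i < n ∨ i = n) with h | rfl
    exacts [hy.1 i h, hy.2]

theorem near_ag (x : C) (n : ℕ) : Near x (Ag n x) := ⟨2 * n, fun y h => by
  simpa only [dc_lab] using h.dc⟩

theorem near_dom {x : C} {e n : ℕ} (h : ¬ (app e (bt x) n).Dom) :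
    Near x fun y => ¬ (app e (bt y) n).Dom := ⟨2 * Nat.pair e n + 2, fun y hy h1 => by
  have := hy (2 * Nat.pair e n + 1) (by omega)
  rw [lab_odd, lab_odd] at this
  have h2 := (hw_ne (x := y) (k := Nat.pair e n)).2 (by rwa [Nat.unpair_pair])
  have h3 := (hw_ne (x := x) (k := Nat.pair e n)).1 (by omega)
  rw [Nat.unpair_pair] at h3
  exact h h3⟩

theorem near_mem {x : C} {e n v : ℕ} (h : v ∈ app e (bt x) n) :
    Near x fun y => v ∈ app e (bt y) n := by
  obtain ⟨k, hk⟩ := use h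
  exact (near_ag x k).mono fun y hy => hk _ hy.bt

theorem AA_cl {i j : ℕ} {x : C} (h : ∀ P, Near x P → ∃ y ∈ AA i j, P y) : x ∈ AA i j := by
  have h1 : ∀ n, bt (th i x) n ∈ app i (bt x) n := fun n => by
    have h2 : (app i (bt x) n).Dom := by_contra fun hc => by
      obtain ⟨y, h3, h4⟩ := h _ (near_dom hc)
      exact h4 (Part.dom_iff_mem.2 ⟨_, h3.1 n⟩)
    obtain ⟨v, hv⟩ := Part.dom_iff_mem.1 h2
    obtain ⟨y, h3, h4⟩ := h _ (near_mem hv)
    rwa [th_val hv (Part.mem_unique (h3.1 n) h4 ▸ bt_le _ _)]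
  refine ⟨h1, fun n => ?_⟩
  obtain ⟨e, he⟩ := exists_comp j i
  rw [← he _ _ h1]
  have h2 : (app e (bt x) n).Dom := by_contra fun hc => by
    obtain ⟨y, h3, h4⟩ := h _ (near_dom hc)
    exact h4 (Part.dom_iff_mem.2 ⟨_, (he _ _ h3.1 _ _).2 (h3.2 n)⟩)
  obtain ⟨v, hv⟩ := Part.dom_iff_mem.1 h2
  obtain ⟨y, h3, h4, h5⟩ := h _ ((near_mem hv).and (near_ag x (n + 1)))
  rwa [h5.bt n (by omega), Part.mem_unique ((he _ _ h3.1 _ _).2 (h3.2 n)) h4]

theorem th_ag {i j : ℕ} {x : C} (h : x ∈ AA i j) (n : ℕ) :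
    Near x fun y => y ∈ AA i j → Ag n (th i x) (th i y) :=
  (Near.all (fun k => near_mem (h.1 k)) n).mono fun _ hy h' k hk =>
    bt_inj (Part.mem_unique (hy k hk) (h'.1 k))

theorem th_lab {i j : ℕ} {x : C} (h : x ∈ AA i j) (n : ℕ) :
    Near x fun y => y ∈ AA i j → Ag n (lab (th i x)) (lab (th i y)) := by
  have : ∀ k, Near x fun y => y ∈ AA i j → hw (th i x) k = hw (th i y) k := fun k => by
    by_cases h1 : hw (th i x) k = 0
    · obtain ⟨e, he⟩ := exists_comp k.unpair.1 i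
      have h2 : ¬ (app e (bt x) k.unpair.2).Dom := fun h2 => by
        obtain ⟨v, hv⟩ := Part.dom_iff_mem.1 h2
        exact hw_ne.2 (Part.dom_iff_mem.2 ⟨v, (he _ _ h.1 _ _).1 hv⟩) h1
      refine (near_dom h2).mono fun y h3 h4 => h1.trans (by_contra fun h5 => h3 ?_)
      obtain ⟨v, hv⟩ := Part.dom_iff_mem.1 (hw_ne.1 (Ne.symm h5))
      exact Part.dom_iff_mem.2 ⟨v, (he _ _ h4.1 _ _).2 hv⟩
    · exact (th_ag h _).mono fun y h2 h3 => (hw_loc h1 (h2 h3)).symm
  exact ((th_ag h n).and (Near.all this n)).mono fun y hy h' =>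
    ag_lab (hy.1 h') fun k hk => hy.2 k hk h'

def KK (t : (Bool → ℕ) × ℕ) : Set C :=
  {x | x ∈ AA (t.1 (x t.2)) (t.1 (!x t.2)) ∧ th (t.1 (x t.2)) x t.2 = !x t.2}

theorem KK_map {t : (Bool → ℕ) × ℕ} {x : C} (h : x ∈ KK t) : th (t.1 (x t.2)) x ∈ KK t ∧
    th (t.1 (th (t.1 (x t.2)) x t.2)) (th (t.1 (x t.2)) x) = x := by
  unfold KK
  rw [Set.mem_setOf_eq, h.2, Bool.not_not, AA_inv h.1]
  exact ⟨⟨AA_map h.1, rfl⟩, rfl⟩

noncomputable def sys (c : ℕ) (t : (Bool → ℕ) × ℕ) (h : (KK t).Nonempty) : Sys where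
  c := c
  K := lab '' KK t
  θ y := lab (th (t.1 (dc y t.2)) (dc y))
  ne := h.image _
  cl y hy := by
    have h1 := lab_cl fun n => by
      obtain ⟨_, ⟨x, -, rfl⟩, h⟩ := hy n
      exact ⟨x, h⟩
    generalize dc y = x at h1
    subst h1
    have h2 : ∀ P, Near x P → ∃ z ∈ KK t, z t.2 = x t.2 ∧ P z := fun P hP => by
      obtain ⟨m, hm⟩ := hP.and (near_ag x (t.2 + 1))
      obtain ⟨_, ⟨z, h3, rfl⟩, h4⟩ := hy m
      exact ⟨z, h3, ((hm z h4).2 _ (by omega)).symm, (hm z h4).1⟩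
    have h3 : x ∈ AA (t.1 (x t.2)) (t.1 (!x t.2)) := AA_cl fun P hP => by
      obtain ⟨z, h3, h4, h5⟩ := h2 P hP
      exact ⟨z, h4 ▸ h3.1, h5⟩
    obtain ⟨z, h4, h5, h6⟩ := h2 _ (th_ag h3 (t.2 + 1))
    exact ⟨x, ⟨h3, by rw [h6 (h5 ▸ h4.1) _ (by omega), ← h5]; exact h4.2⟩, rfl⟩
  ev := by
    rintro _ ⟨x, -, rfl⟩
    exact lab_ev x
  map := by
    rintro _ ⟨x, hx, rfl⟩
    simp only [dc_lab]
    exact ⟨_, (KK_map hx).1, rfl⟩
  inv := by
    rintro _ ⟨x, hx, rfl⟩
    simp only [dc_lab]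
    rw [(KK_map hx).2]
  cont := by
    rintro _ ⟨x, hx, rfl⟩ n
    obtain ⟨m, hm⟩ := (th_lab hx.1 n).and (near_ag x (t.2 + 1))
    refine ⟨m, ?_⟩
    rintro _ ⟨z, hz, rfl⟩ h
    simp only [dc_lab]
    have h1 := (hm z h).2 t.2 (by omega)
    rw [← h1]
    exact (hm z h).1 (h1 ▸ hz.1)

theorem action : ∃ (s : ℕ → N → N) (b : N → N), (∀ e, Continuous (s e)) ∧
    (∀ e u, s e (s e u) = u) ∧ Continuous b ∧ Injective b ∧
    (∀ e u, u ∉ Set.range lab → EvEq (b u) (b (s e u))) ∧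
    (∀ u v, EvEq (b u) (b v) → Orb s u v) ∧
    (∀ x y, Eqv x y → Orb s (lab x) (lab y)) ∧
    ∀ x u, Orb s (lab x) u → ∃ y, Eqv x y ∧ EvEq u (lab y) ∧ (Ev u → u = lab y) := by
  let ι := {t : (Bool → ℕ) × ℕ // (KK t).Nonempty}
  obtain ⟨c, hc⟩ := exists_injective_nat ι
  obtain ⟨κ, hκ⟩ := exists_surjective_nat (Option ι)
  let S : ι → Sys := fun t => sys (c t) t.1 t.2
  obtain ⟨b, b1, b2, b3, b4, b5⟩ := extend S hc
  let s : ℕ → N → N := fun n => (κ n).elim id fun e => (S e).s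
  have o1 : ∀ u v, Orb (fun e => (S e).s) u v → Orb s u v := fun u v h => by
    induction h with
    | refl => exact .refl
    | tail _ h ih =>
      obtain ⟨e, rfl⟩ := h
      obtain ⟨n, hn⟩ := hκ (some e)
      exact .tail ih ⟨n, by simp only [s, hn]; rfl⟩
  have o2 : ∀ u v, Orb s u v → Orb (fun e => (S e).s) u v := fun u v h => by
    induction h with
    | refl => exact .refl
    | tail _ h ih =>
      obtain ⟨n, rfl⟩ := h
      simp only [s]
      cases κ n with
      | none => exact ih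
      | some e => exact .tail ih ⟨e, rfl⟩
  refine ⟨s, b, fun n => ?_, fun n u => ?_, b1, b2, fun n u h => ?_,
    fun u v h => o1 _ _ (b4 u v h), fun x y h => o1 _ _ ?_, fun x u h => ?_⟩
  · simp only [s]
    cases κ n
    exacts [continuous_id, Sys.s_cont _]
  · simp only [s]
    cases κ n
    exacts [rfl, Sys.s_s _ _]
  · simp only [s]
    cases κ n
    exacts [EvEq.rfl, b3 _ _ fun ⟨x, _, hx⟩ => h ⟨x, hx⟩]
  · by_cases hxy : x = y
    · rw [hxy]; exact .refl
    obtain ⟨m, hm⟩ := Function.ne_iff.1 hxy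
    obtain ⟨i, j, h1, rfl⟩ := h.aa
    have h2 : x ∈ KK (fun b => if b = x m then i else j, m) := by
      simp only [KK, Set.mem_setOf_eq, if_true, Bool.not_eq_self, if_false]
      exact ⟨h1, by revert hm; cases x m <;> cases th i x m <;> simp⟩
    refine .single ⟨⟨_, x, h2⟩, ?_⟩
    refine Eq.trans ?_ (Sys.s_in (S ⟨_, x, h2⟩) ⟨x, h2, rfl⟩).symm
    simp [S, sys, dc_lab]
  · obtain ⟨_, ⟨y, h1, rfl⟩, h2⟩ := b5 (fun u => ∃ y, Eqv x y ∧ lab y = u) (by
      rintro e _ ⟨z, hz, rfl⟩ ⟨y, h1, h2⟩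
      obtain rfl := lab_inj h2
      exact ⟨_, h1.trans (AA_eqv hz.1), by simp [S, sys, dc_lab]⟩) (lab x) u (lab_ev x)
      ⟨x, Eqv.rfl, rfl⟩ (o2 _ _ h)
    exact ⟨y, h1, h2⟩

/-! ### the jump -/

def J (x : C) : Set ℕ := {k | (app k.unpair.1 (bt x) k.unpair.2).Dom}

noncomputable def ind (A : Set ℕ) : ℕ → ℕ := A.indicator fun _ => 1

theorem J_ce {x y : C} (h : Le y x) :
    ∃ f : ℕ →. ℕ, RecursiveIn (orc (bt x)) f ∧ ∀ n, n ∈ J y ↔ (f n).Dom :=
  ⟨_, RI.app (e := fun k : ℕ => k.unpair.1) (x := fun _ => bt y) (n := fun k => k.unpair.2)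
    (by fun_prop) (CI.comp h (by fun_prop)) (by fun_prop), fun _ => Iff.rfl⟩

theorem J_compl {x y : C} (h : Le x y) (B : Set ℕ)
    (hB : ∃ f : ℕ →. ℕ, RecursiveIn (orc (bt x)) f ∧ ∀ n, n ∈ B ↔ (f n).Dom) :
    CI (orc (ind (J y))) (ind B) := by
  obtain ⟨f, h1, h2⟩ := hB
  obtain ⟨e, rfl⟩ := exists_app (x := bt y) (RecursiveIn.subst h1 fun g hg => by
    obtain rfl : g = _ := hg
    exact h.ri)
  refine CI.of_eq ((CI.self (ind (J y))).comp (g := fun n => Nat.pair e n) (by fun_prop))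
    fun n => ?_
  have : Nat.pair e n ∈ J y ↔ n ∈ B := by rw [h2]; simp [J]
  classical
  simp only [ind, Set.indicator_apply, this]

theorem J_le (y : C) : CI (orc (lab y)) (ind (J y)) := by
  have h := CI.self (lab y)
  generalize hu : lab y = u at h
  refine CI.of_eq (f := fun k => if (u (2 * k + 1) : ℕ) = 0 then 0 else 1)
    (CI.ite (CI.eq (h.comp (by fun_prop)) (by fun_prop)) (by fun_prop) (by fun_prop)) fun k => ?_
  rw [← hu, lab_odd]
  by_cases hk : k ∈ J y
  · have := hw_ne.2 hk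
    rw [if_neg (by omega), ind, Set.indicator_of_mem hk]
  · have : hw y k = 0 := by_contra fun h => hk (hw_ne.1 h)
    rw [if_pos (by omega), ind, Set.indicator_of_notMem hk]

theorem le_J (y : C) : CI (orc (ind (J y))) (lab y) := by
  have h0 := CI.self (bt y)
  have h1 : CI (orc (ind (J y))) (bt y) := by
    refine CI.of_eq (J_compl Le.rfl {n | y n = true} ⟨fun n => Nat.rfind fun _ =>
      Part.some (bt y n == 1), RI.rfind (CI.ri (by fun_prop)), fun n => ?_⟩) fun n => ?_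
    · simp only [Set.mem_setOf_eq, Nat.rfind_dom, bt]
      cases y n <;> simp
    · by_cases h : y n = true
      · rw [ind, Set.indicator_of_mem (by exact h), bt, h]; rfl
      · rw [ind, Set.indicator_of_notMem (by exact h), bt, Bool.eq_false_iff.2 h]; rfl
  have h2 := CI.self (ind (J y))
  have ex : ∀ k : ℕ, ∃ t, (ind (J y) k == 0 ||
      (U k.unpair.1 (pre (bt y) t) k.unpair.2).isSome) = true := fun k => by
    by_cases hk : k ∈ J y
    · obtain ⟨t, ht⟩ := dom_app.1 hk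
      exact ⟨t, by simp [ht]⟩
    · exact ⟨0, by simp [ind, Set.indicator_of_notMem hk]⟩
  have h3 := CI.find (O := orc (ind (J y))) (by fun_prop) ex
  have h4 : CI (orc (ind (J y))) (hw y) := by
    refine CI.of_eq (f := fun k => if ind (J y) k = 0 then 0 else Nat.find (ex k) + 1)
      (by fun_prop) fun k => ?_
    by_cases hk : k ∈ J y
    · have h5 : ind (J y) k = 1 := Set.indicator_of_mem hk _
      rw [if_neg (by omega), hw, dif_pos (dom_app.1 hk)]
      congr 1
      exact Nat.find_congr' (by simp [h5])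
    · rw [if_pos (show ind (J y) k = 0 from Set.indicator_of_notMem hk _)]
      exact (by_contra fun h => hk (hw_ne.1 h) : hw y k = 0).symm
  show CI _ fun m => if m % 2 = 0 then 2 * bt y (m / 2) else 2 * hw y (m / 2)
  fun_prop

end Pool.Agent.H18.TJ
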