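import Pool.Agent.H18.TJ2
import Pool.Agent.H18.TJ4

/-! Matching Turing degrees with orbits. -/

set_option autoImplicit false

namespace Pool.Agent.H18.TJ

open Function Pool.Agent.H37 Set

theorem group_of {ι : Type} [Countable ι] {s : ι → N → N} (h1 : ∀ e, Continuous (s e))
    (h2 : ∀ e u, s e (s e u) = u) : ∃ (G : Type) (_ : Group G) (_ : Countable G)
      (_ : MulAction G N), (∀ g : G, Continuous fun y : N => g • y) ∧
      ∀ u v : N, Orb s u v ↔ ∃ g : G, g • u = v := by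
  let φ : FreeGroup ι →* Equiv.Perm N := FreeGroup.lift fun e => ⟨s e, s e, h2 e, h2 e⟩
  have key : ∀ g, Continuous (φ g) ∧ ∀ u, Orb s u (φ g u) := fun g => by
    induction g using FreeGroup.induction_on with
    | C1 => rw [map_one]; exact ⟨continuous_id, fun u => .refl⟩
    | of e => rw [FreeGroup.lift_apply_of]; exact ⟨h1 e, fun u => .single ⟨e, rfl⟩⟩
    | inv_of e _ =>
      rw [map_inv, FreeGroup.lift_apply_of]; exact ⟨h1 e, fun u => .single ⟨e, rfl⟩⟩
    | mul g g' h h' =>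
      rw [map_mul]; exact ⟨h.1.comp h'.1, fun u => (h'.2 u).trans (h.2 _)⟩
  refine ⟨FreeGroup ι, inferInstance, inferInstance, MulAction.compHom N φ, fun g => (key g).1,
    fun u v => ⟨fun h => ?_, fun ⟨g, h⟩ => h ▸ (key g).2 u⟩⟩
  show ∃ g, φ g u = v
  induction h with
  | refl => exact ⟨1, by rw [map_one]; rfl⟩
  | tail _ h ih =>
    obtain ⟨e, rfl⟩ := h
    obtain ⟨g, rfl⟩ := ih
    exact ⟨FreeGroup.of e * g, by rw [map_mul, FreeGroup.lift_apply_of]; rfl⟩

def cons (n : ℕ) (u : N) : N := fun m => Nat.casesOn m n u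
def tl (v : N) : N := fun m => v (m + 1)

theorem cons_tl (v : N) : cons (v 0) (tl v) = v := funext fun m => by cases m <;> rfl
theorem cons_inj (n : ℕ) : Injective (cons n) := fun _ _ h => congrArg tl h
theorem cont_tl : Continuous tl := continuous_pi fun _ => continuous_apply _
theorem cont_cons {X : Type} [TopologicalSpace X] {n : X → ℕ} {u : X → N} (hn : Continuous n)
    (hu : Continuous u) : Continuous fun x => cons (n x) (u x) :=
  continuous_pi fun m => by
    cases m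
    exacts [hn, (continuous_apply _).comp hu]
theorem meas_cons (n : ℕ) : Measurable (cons n) :=
  (cont_cons continuous_const continuous_id).measurable

theorem group_tl {s : ℕ → N → N} (h1 : ∀ e, Continuous (s e))
    (h2 : ∀ e u, s e (s e u) = u) : ∃ (G : Type) (_ : Group G) (_ : Countable G)
      (_ : MulAction G N), (∀ g : G, Continuous fun y : N => g • y) ∧
      ∀ u v : N, Orb s (tl u) (tl v) ↔ ∃ g : G, g • u = v := by
  let s' : ℕ ⊕ ℕ → N → N := Sum.elim (fun e v => cons (v 0) (s e (tl v)))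
    fun n v => cons (Equiv.swap 0 n (v 0)) (tl v)
  have h3 : ∀ e u, s' e (s' e u) = u := by
    rintro (e | n) u
    · exact (congrArg (cons (u 0)) (h2 e (tl u))).trans (cons_tl u)
    · exact (congrArg (cons · (tl u)) (Equiv.swap_apply_self 0 n (u 0))).trans (cons_tl u)
  obtain ⟨G, i1, i2, i3, h4, h5⟩ := group_of (s := s') (by
    rintro (e | n)
    · exact cont_cons (continuous_apply 0) ((h1 e).comp cont_tl)
    · exact cont_cons (continuous_of_discreteTopology.comp (continuous_apply 0)) cont_tl) h3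
  refine ⟨G, i1, i2, i3, h4, fun u v => Iff.trans ⟨fun h => ?_, fun h => ?_⟩ (h5 u v)⟩
  · have a1 : ∀ v, Orb s' v (cons 0 (tl v)) := fun v => .single ⟨.inr (v 0), by simp [s']⟩
    have a2 : ∀ a b, Orb s a b → Orb s' (cons 0 a) (cons 0 b) := fun a b h => by
      induction h with
      | refl => exact .refl
      | tail _ h ih =>
        obtain ⟨e, rfl⟩ := h
        exact .tail ih ⟨.inl e, rfl⟩
    exact ((a1 u).trans (a2 _ _ h)).trans ((a1 v).symm h3)
  · induction h with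
    | refl => exact .refl
    | tail _ h ih =>
      obtain ⟨e | n, rfl⟩ := h
      exacts [.tail ih ⟨e, rfl⟩, ih]

def pd (n : ℕ) (x : C) : C := fun m => if m < n then false else if m = n then true else x (m - n - 1)

theorem pd_eqv (n : ℕ) (x : C) : Eqv x (pd n x) := by
  constructor
  · refine CI.of_eq ((CI.self (bt (pd n x))).comp (g := fun m => m + n + 1) (by fun_prop))
      fun m => ?_
    simp only [bt, pd]
    rw [if_neg (by omega), if_neg (by omega), show m + n + 1 - n - 1 = m by omega]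
  · have := CI.self (bt x)
    refine CI.of_eq (f := fun m => if m < n then 0 else if m = n then 1 else bt x (m - n - 1))
      (by fun_prop) fun m => ?_
    simp only [bt, pd]
    split_ifs <;> rfl

theorem pd_inj {n m : ℕ} {x y : C} (h : pd n x = pd m y) : n = m ∧ x = y := by
  have key : ∀ {n m : ℕ} {x y : C}, pd n x = pd m y → m ≤ n := fun {n m x y} h => by
    have := congrFun h n
    by_contra hc
    simp [pd, not_le.1 hc] at this
  obtain rfl := le_antisymm (key h) (key h.symm)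
  refine ⟨rfl, funext fun k => ?_⟩
  have := congrFun h (k + m + 1)
  simp only [pd] at this
  rwa [if_neg (by omega), if_neg (by omega), if_neg (by omega), if_neg (by omega),
    show k + m + 1 - m - 1 = k by omega] at this

theorem meas_pd (n : ℕ) : Measurable (pd n) := measurable_pi_lambda _ fun m => by
  unfold pd
  split_ifs
  exacts [measurable_const, measurable_const, measurable_pi_apply _]

theorem main : ∃ (G : Type) (_ : Group G) (_ : Countable G) (_ : MulAction G N),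
    (∀ g : G, Continuous fun y : N => g • y) ∧ ∃ Φ : C ≃ᵐ N,
      (∀ x y, Eqv x y ↔ ∃ g : G, g • Φ x = Φ y) ∧
      ∃ z, ∀ x, Le z x → ∃ y, Eqv x y ∧ EvEq (tl (Φ x)) (lab y) := by
  obtain ⟨s, b, s1, s2, b1, b2, b3, b4, o1, o2⟩ := action
  obtain ⟨f, f1, f2, f3, f4⟩ := gen2
  obtain ⟨G, i1, i2, i3, g1, g2⟩ := group_tl s1 s2
  let h : ℕ → N → C := fun m u => f m (b u)
  have hm : ∀ m, Measurable (h m) := fun m => ((f1 m).comp b1).measurable
  have hi : ∀ m, Injective (h m) := fun m => (f2 m).comp b2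
  let B : Set N := {w | ∀ x, ¬ Orb s (lab x) w}
  let wd : List ℕ → N → N := fun l u => l.foldr s u
  have w1 : ∀ l, Continuous (wd l) := fun l => by
    induction l with
    | nil => exact continuous_id
    | cons e l ih => exact (s1 e).comp ih
  have w2 : ∀ l, Injective (wd l) := fun l => by
    induction l with
    | nil => exact injective_id
    | cons e l ih => exact (LeftInverse.injective (s2 e)).comp ih
  have w3 : ∀ u v, Orb s u v ↔ ∃ l, wd l u = v := fun u v => by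
    constructor
    · intro h
      induction h with
      | refl => exact ⟨[], rfl⟩
      | tail _ h ih =>
        obtain ⟨e, rfl⟩ := h
        obtain ⟨l, rfl⟩ := ih
        exact ⟨e :: l, rfl⟩
    · rintro ⟨l, rfl⟩
      induction l with
      | nil => exact .refl
      | cons e l ih => exact .tail ih ⟨e, rfl⟩
  have Bm : MeasurableSet B := by
    have : B = ⋂ l, wd l ⁻¹' (range lab)ᶜ := by
      ext w
      simp only [mem_iInter, mem_preimage, mem_compl_iff, mem_range, not_exists]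
      refine ⟨fun hw l x hx => hw x (((w3 _ _).2 ⟨l, hx.symm⟩).symm s2), fun hw x hx => ?_⟩
      obtain ⟨l, hl⟩ := (w3 _ _).1 (hx.symm s2)
      exact hw l x hl.symm
    rw [this]
    exact .iInter fun l => (w1 l).measurable
      (meas_lab.measurableEmbedding lab_inj).measurableSet_range.compl
  have F1 : ∀ x y, Orb s (lab x) (lab y) ↔ Eqv x y := fun x y => ⟨fun h => by
    obtain ⟨z, h1, -, h2⟩ := o2 _ _ h
    rw [lab_inj (h2 (lab_ev y))]
    exact h1, o1 x y⟩
  have F2 : ∀ m m' w w', Le (h m w) (h m' w') → m = m' ∧ Orb s w w' := fun m m' w w' h =>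
    ⟨(f4 _ _ _ _ h).1, b4 _ _ (f4 _ _ _ _ h).2⟩
  have F3 : ∀ m, ∀ w ∈ B, ∀ w', Orb s w w' → Eqv (h m w) (h m w') := fun m w hw w' h => by
    refine f3 _ _ _ ?_
    induction h with
    | refl => exact EvEq.rfl
    | tail h1 h ih =>
      obtain ⟨e, rfl⟩ := h
      exact ih.trans (b3 e _ fun ⟨x, hx⟩ => hw x (hx ▸ Orb.symm s2 h1))
  let T : C → N → Prop := fun x t => (∃ w ∈ B, Eqv x (h 0 w) ∧ t = w) ∨
    (∃ m, ∃ w ∈ B, Eqv x (h (m + 1) w) ∧ t = lab (h m w)) ∨
    (∀ m, ∀ w ∈ B, ¬ Eqv x (h m w)) ∧ t = lab x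
  have key : ∀ x y t t', T x t → T y t' → (Eqv x y ↔ Orb s t t') := by
    rintro x y _ _ (⟨w, hw, h1, rfl⟩ | ⟨m, w, hw, h1, rfl⟩ | ⟨h1, rfl⟩)
      (⟨w', hw', h2, rfl⟩ | ⟨m', w', hw', h2, rfl⟩ | ⟨h2, rfl⟩)
    · exact ⟨fun h => (F2 _ _ _ _ ((h1.symm.trans h).trans h2).1).2,
        fun h => (h1.trans (F3 0 _ hw _ h)).trans h2.symm⟩
    · exact ⟨fun h => absurd (F2 _ _ _ _ ((h1.symm.trans h).trans h2).1).1 (by omega),
        fun h => absurd (h.symm s2) (hw _)⟩
    · exact ⟨fun h => absurd (h.symm.trans h1) (h2 _ _ hw), fun h => absurd (h.symm s2) (hw _)⟩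
    · exact ⟨fun h => absurd (F2 _ _ _ _ ((h1.symm.trans h).trans h2).1).1 (by omega),
        fun h => absurd h (hw' _)⟩
    · rw [F1]
      constructor
      · intro h
        obtain ⟨h3, h4⟩ := F2 _ _ _ _ ((h1.symm.trans h).trans h2).1
        obtain rfl : m = m' := by omega
        exact F3 _ _ hw _ h4
      · intro h
        obtain ⟨rfl, h4⟩ := F2 _ _ _ _ h.1
        exact (h1.trans (F3 _ _ hw _ h4)).trans h2.symm
    · rw [F1]
      exact ⟨fun h => absurd (h.symm.trans h1) (h2 _ _ hw), fun h => absurd h.symm (h2 _ _ hw)⟩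
    · exact ⟨fun h => absurd (h.trans h2) (h1 _ _ hw'), fun h => absurd h (hw' _)⟩
    · rw [F1]
      exact ⟨fun h => absurd (h.trans h2) (h1 _ _ hw'), fun h => absurd h (h1 _ _ hw')⟩
    · exact (F1 _ _).symm
  let R : C → N → Prop := fun x v => ∃ t, T x t ∧ Orb s t (tl v)
  have P1 : Pad R := ⟨fun n v => cons (Nat.pair n (v 0)) (tl v), fun n => (cont_cons
    ((continuous_of_discreteTopology (f := Nat.pair n)).comp (continuous_apply 0))
      cont_tl).measurable, fun n m u v h => by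
      have h1 := Nat.pair_eq_pair.1 (congrFun h 0)
      exact ⟨h1.1, by rw [← cons_tl u, h1.2, show tl u = tl v from (congrArg tl h :), cons_tl]⟩,
    fun _ _ _ h => h⟩
  have P2 : Pad (flip R) := ⟨pd, meas_pd, fun _ _ _ _ => pd_inj, by
    rintro n v x ⟨_, ⟨w, hw, h1, rfl⟩ | ⟨m, w, hw, h1, rfl⟩ | ⟨h1, rfl⟩, h⟩
    · exact ⟨_, .inl ⟨_, hw, (pd_eqv n x).symm.trans h1, rfl⟩, h⟩
    · exact ⟨_, .inr (.inl ⟨m, w, hw, (pd_eqv n x).symm.trans h1, rfl⟩), h⟩
    · exact ⟨_, .inr (.inr ⟨fun m w hw h2 => h1 m w hw ((pd_eqv n x).trans h2), rfl⟩),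
        (o1 _ _ (pd_eqv n x).symm).trans h⟩⟩
  let Z : ℕ × ℕ × ℕ → Set N := fun t => B ∩ h t.1 ⁻¹' AA t.2.1 t.2.2
  have Zm : ∀ t, MeasurableSet (Z t) := fun t => Bm.inter (hm _ (meas_AA _ _))
  have Zi : ∀ t, InjOn (fun w => th t.2.1 (h t.1 w)) (Z t) := fun t w hw w' hw' h =>
    hi _ (AA_inj _ _ hw.2 hw'.2 h)
  let D : Set C := ⋃ t, (fun w => th t.2.1 (h t.1 w)) '' Z t
  have p1 : PI R D := PI.iUnion P1 fun ⟨m, i, j⟩ => by
    cases m with
    | zero =>
      exact PI.graph (Zm _) ((meas_th i).comp (hm 0)) (meas_cons 0) (Zi _) (cons_inj 0).injOn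
        fun w hw => ⟨w, .inl ⟨w, hw.1, (AA_eqv hw.2).symm, rfl⟩, .refl⟩
    | succ m =>
      exact PI.graph (c := fun w => cons 0 (lab (h m w))) (Zm _) ((meas_th i).comp (hm _))
        ((meas_cons 0).comp (meas_lab.comp (hm m))) (Zi _)
        ((cons_inj 0).comp (lab_inj.comp (hi m))).injOn
        fun w hw => ⟨_, .inr (.inl ⟨m, w, hw.1, (AA_eqv hw.2).symm, rfl⟩), .refl⟩
  have d1 : ∀ x ∈ Dᶜ, T x (lab x) := fun x hx => .inr (.inr ⟨fun m w hw h1 => by
    obtain ⟨i, j, h2, h3⟩ := h1.symm.aa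
    exact hx (mem_iUnion.2 ⟨(m, i, j), w, ⟨hw, h2⟩, h3⟩), rfl⟩)
  have p2 : PI R (id '' Dᶜ) := PI.graph (c := fun x => cons 0 (lab x)) p1.1.compl measurable_id
    ((meas_cons 0).comp meas_lab) (injOn_id _) ((cons_inj 0).comp lab_inj).injOn
    fun x hx => ⟨_, d1 x hx, .refl⟩
  have q0 : PI (flip R) (⋃ n, cons n '' B) := PI.iUnion P2 fun n =>
    PI.graph Bm (meas_cons n) (hm 0) (cons_inj n).injOn (hi 0).injOn
      fun w hw => ⟨w, .inl ⟨w, hw, Eqv.rfl, rfl⟩, .refl⟩
  have q1 : PI (flip R) (⋃ t : (ℕ × List ℕ) × ℕ × ℕ × ℕ,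
      (fun w => cons t.1.1 (wd t.1.2 (lab (th t.2.2.1 (h t.2.1 w))))) '' Z t.2) :=
    PI.iUnion P2 fun t => PI.graph (Zm _) ((meas_cons _).comp ((w1 _).measurable.comp
      (meas_lab.comp ((meas_th _).comp (hm _))))) (hm (t.2.1 + 1))
      (fun w hw w' hw' h => Zi _ hw hw' (lab_inj (w2 _ (cons_inj _ h)))) (hi _).injOn
      fun w hw => ⟨_, .inr (.inl ⟨_, w, hw.1, Eqv.rfl, rfl⟩),
        (o1 _ _ (AA_eqv hw.2)).trans ((w3 _ _).2 ⟨_, rfl⟩)⟩
  have q2 : PI (flip R) (⋃ t : ℕ × List ℕ, (fun x => cons t.1 (wd t.2 (lab x))) '' Dᶜ) :=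
    PI.iUnion P2 fun t => PI.graph p1.1.compl ((meas_cons _).comp ((w1 _).measurable.comp
      meas_lab)) measurable_id (fun w _ w' _ h => lab_inj (w2 _ (cons_inj _ h))) (injOn_id _)
      fun x hx => ⟨_, d1 x hx, (w3 _ _).2 ⟨_, rfl⟩⟩
  obtain ⟨Φ, hΦ⟩ := sb (R := R) (by simpa using p1.union P1 p2) (by
    convert q0.union P2 (q1.union P2 q2) using 1
    refine (eq_univ_of_forall fun v => ?_).symm
    by_cases hv : tl v ∈ B
    · exact .inl (mem_iUnion.2 ⟨v 0, _, hv, cons_tl v⟩)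
    obtain ⟨x, hx⟩ := not_forall.1 hv
    obtain ⟨l, hl⟩ := (w3 _ _).1 (not_not.1 hx)
    by_cases hD : x ∈ D
    · obtain ⟨t, w, hw, rfl⟩ := mem_iUnion.1 hD
      exact .inr (.inl (mem_iUnion.2 ⟨((v 0, l), t), w, hw, by
        simp only at hl ⊢; rw [hl, cons_tl]⟩))
    · exact .inr (.inr (mem_iUnion.2 ⟨(v 0, l), x, hD, by simp only; rw [hl, cons_tl]⟩)))
  refine ⟨G, i1, i2, i3, g1, Φ, fun x y => ?_, h 0 (lab fun _ => false), fun x hx => ?_⟩
  · obtain ⟨t, h1, h2⟩ := hΦ x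
    obtain ⟨t', h3, h4⟩ := hΦ y
    rw [← g2, key _ _ _ _ h1 h3]
    exact ⟨fun h => ((h2.symm s2).trans h).trans h4, fun h => (h2.trans h).trans (h4.symm s2)⟩
  · obtain ⟨_, ⟨w, hw, h1, rfl⟩ | ⟨m, w, hw, h1, rfl⟩ | ⟨-, rfl⟩, h⟩ := hΦ x
    · exact absurd (F2 _ _ _ _ (hx.trans h1.1)).2 (hw _)
    · exact absurd (F2 _ _ _ _ (hx.trans h1.1)).2 (hw _)
    · obtain ⟨y, h1, h2, -⟩ := o2 _ _ h
      exact ⟨y, h1, h2⟩

theorem tl_ci (v : ℕ → ℕ) : CI (orc v) (tl v) ∧ CI (orc (tl v)) v := by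
  refine ⟨(CI.self v).comp (g := fun m => m + 1) (by fun_prop), ?_⟩
  have := CI.self (tl v)
  refine CI.of_eq (f := fun m => if m = 0 then v 0 else tl v (m - 1))
    (CI.ite (by fun_prop) (by fun_prop) (this.comp (by fun_prop))) fun m => ?_
  cases m <;> simp [tl]

end Pool.Agent.H18.TJ
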