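import Mathlib

set_option autoImplicit false

namespace H18.TJ
open Finset

variable {V E : Type} [Fintype V] [DecidableEq V] [Fintype E] [DecidableEq E] (s t : E → V)

def pt (a : V) : V → ZMod 2 := Pi.single a 1
def bd (S : Finset E) : V → ZMod 2 := ∑ e, if e ∈ S then pt (s e) + pt (t e) else 0
def wt (w : E → ℝ) (S : Finset E) : ℝ := ∑ e, if e ∈ S then w e else 0

omit [Fintype V] in
lemma two (g : V → ZMod 2) : g + g = 0 := funext fun v => CharTwo.add_self_eq_zero (g v)

omit [Fintype V] in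
lemma bd_sd (S R : Finset E) : bd s t (symmDiff S R) = bd s t S + bd s t R := by
  rw [bd, bd, bd, ← sum_add_distrib]
  refine sum_congr rfl fun e _ => ?_
  by_cases h1 : e ∈ S <;> by_cases h2 : e ∈ R <;> simp [mem_symmDiff, h1, h2, two]

omit [Fintype V] in
lemma bd_one (e : E) : bd s t {e} = pt (s e) + pt (t e) := by simp [bd]

omit [Fintype V] in
lemma bd_empty : bd s t ∅ = 0 := by simp [bd]

omit [Fintype V] in
lemma bd_erase {S : Finset E} {e : E} (h : e ∈ S) :
    bd s t (S.erase e) = bd s t S + (pt (s e) + pt (t e)) := by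
  rw [← bd_one, ← bd_sd]
  congr 1
  ext x
  by_cases hx : x = e <;> simp [mem_symmDiff, hx, h]

lemma wt_erase (w : E → ℝ) {S : Finset E} {e : E} (h : e ∈ S) : wt w (S.erase e) = wt w S - w e := by
  simp only [wt, ← sum_filter, filter_mem_eq_inter, univ_inter]
  exact sum_erase_eq_sub h

lemma wt_zero {w : E → ℝ} (S : Finset E) {Q : Finset E} (h : ∀ e ∈ Q, w e = 0) :
    wt w (symmDiff S Q) = wt w S := by
  refine sum_congr rfl fun e _ => ?_
  by_cases h1 : e ∈ S <;> by_cases h2 : e ∈ Q <;> simp [mem_symmDiff, h1, h2, h e]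

lemma wt_swap (w : E → ℝ) {S J C : Finset E} (h : C ⊆ symmDiff J S) :
    wt w (symmDiff S C) + wt w (symmDiff J C) = wt w S + wt w J := by
  simp only [wt, ← sum_add_distrib]
  refine sum_congr rfl fun e _ => ?_
  have := @h e
  by_cases h1 : e ∈ S <;> by_cases h2 : e ∈ J <;> by_cases h3 : e ∈ C <;>
    simp_all [mem_symmDiff]

/-- the edges with exactly one end in `B` -/
def cut (B : Finset V) : Finset E := {e | ¬ (s e ∈ B ↔ t e ∈ B)}

omit [Fintype V] in
lemma sum_pt (B : Finset V) (a : V) : ∑ v ∈ B, pt a v = if a ∈ B then 1 else 0 := by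
  simp [pt, Pi.single_apply]

omit [Fintype V] in
lemma par (B : Finset V) (S : Finset E) : ∑ v ∈ B, bd s t S v = (#(S ∩ cut s t B) : ZMod 2) := by
  simp only [bd, Finset.sum_apply]
  rw [sum_comm, card_eq_sum_ones, Nat.cast_sum, ← univ_inter (S ∩ _), ← filter_mem_eq_inter,
    sum_filter]
  refine sum_congr rfl fun e _ => ?_
  by_cases h1 : e ∈ S
  · simp only [h1, if_true, Pi.add_apply, sum_add_distrib, sum_pt, mem_inter, true_and, cut,
      mem_filter, mem_univ]
    by_cases h2 : s e ∈ B <;> by_cases h3 : t e ∈ B <;> simp [h2, h3]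
    rfl
  · simp [h1]

/-- the vertices joined to `a` by edges with property `p` -/
noncomputable def comp (p : E → Prop) (a : V) : Finset V := by
  classical exact {x | ∃ Q : Finset E, (∀ e ∈ Q, p e) ∧ bd s t Q = pt a + pt x}

lemma mem_comp {p : E → Prop} {a x : V} :
    x ∈ comp s t p a ↔ ∃ Q : Finset E, (∀ e ∈ Q, p e) ∧ bd s t Q = pt a + pt x := by
  simp [comp]

lemma self_comp (p : E → Prop) (a : V) : a ∈ comp s t p a :=
  (mem_comp s t).2 ⟨∅, by simp, by rw [bd_empty, two]⟩

lemma comp_cut {p : E → Prop} {a : V} {e : E} (h : e ∈ cut s t (comp s t p a)) : ¬ p e := by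
  intro he
  simp only [cut, mem_filter, mem_univ, true_and, mem_comp] at h
  refine h ⟨fun ⟨Q, h1, h2⟩ => ⟨symmDiff Q {e}, fun x hx => ?_, ?_⟩,
    fun ⟨Q, h1, h2⟩ => ⟨symmDiff Q {e}, fun x hx => ?_, ?_⟩⟩
  · rcases mem_symmDiff.1 hx with h | h
    · exact h1 x h.1
    · rw [mem_singleton.1 h.1]; exact he
  · rw [bd_sd, bd_one, h2, add_assoc, ← add_assoc (pt (s e)), two, zero_add]
  · rcases mem_symmDiff.1 hx with h | h
    · exact h1 x h.1
    · rw [mem_singleton.1 h.1]; exact he
  · rw [bd_sd, bd_one, h2, add_comm (pt (s e)), add_assoc, ← add_assoc (pt (t e)), two, zero_add]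

omit [Fintype V] [Fintype E] [DecidableEq E] in
lemma ends {B : Finset V} {e : E} (h : s e ∈ B ∨ t e ∈ B) :
    ∃ u v, u ∈ B ∧ (u = s e ∧ v = t e ∨ u = t e ∧ v = s e) ∧
      pt (s e) + pt (t e) = pt u + pt v := by
  rcases h with h | h
  · exact ⟨s e, t e, h, .inl ⟨rfl, rfl⟩, rfl⟩
  · exact ⟨t e, s e, h, .inr ⟨rfl, rfl⟩, add_comm _ _⟩

omit [Fintype V] [DecidableEq E] in
lemma mem_cut {B : Finset V} {e : E} : e ∈ cut s t B ↔ ¬ (s e ∈ B ↔ t e ∈ B) := by simp [cut]

omit [Fintype V] [DecidableEq E] in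
lemma cut_or {B : Finset V} {e : E} (h : e ∈ cut s t B) : s e ∈ B ∨ t e ∈ B := by
  rw [mem_cut] at h; tauto

/-- Sebő's lemma, weighted form: some cut of positive edges meets every minimum join once. -/
lemma exists_cut {w : E → ℝ} (h0 : ∀ e, 0 ≤ w e) {J : Finset E}
    (hJ : ∀ S, bd s t S = bd s t J → wt w J ≤ wt w S) {j : E} (hj : j ∈ J) (hw : 0 < w j) :
    ∃ B : Finset V, (∀ e ∈ cut s t B, 0 < w e) ∧
      (∀ S, bd s t S = bd s t J → (S ∩ cut s t B).Nonempty) ∧
      ∀ S, bd s t S = bd s t J → wt w S ≤ wt w J → #(S ∩ cut s t B) ≤ 1 := by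
  classical
  obtain ⟨⟨S, a, b⟩, hS, hm⟩ := exists_min_image
    (univ.filter fun q : Finset E × V × V => bd s t q.1 = bd s t J + (pt q.2.1 + pt q.2.2))
    (fun q => wt w q.1) ⟨(J.erase j, s j, t j), by simp [bd_erase s t hj]⟩
  simp only [mem_filter, mem_univ, true_and, Prod.forall] at hS hm
  have lt : wt w S < wt w J := by
    have := hm _ _ _ (bd_erase s t hj)
    rw [wt_erase w hj] at this
    linarith
  let B := comp s t (fun e => w e = 0) b
  have pos : ∀ e ∈ cut s t B, 0 < w e := fun e he => (h0 e).lt_of_ne' (comp_cut s t he)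
  have A : ∀ R, bd s t R = bd s t S → wt w R ≤ wt w S → ∀ e ∈ R, e ∉ cut s t B := by
    intro R h1 h2 e he hc
    have hp := pos e hc
    obtain ⟨u, v, hu, -, huv⟩ := ends s t (cut_or s t hc)
    obtain ⟨Q, q1, q2⟩ := (mem_comp s t).1 hu
    have := hm (symmDiff (R.erase e) Q) a v (by
      rw [bd_sd, bd_erase s t he, h1, hS, huv, q2]
      linear_combination (exp := 1) two (pt b) + two (pt u))
    rw [wt_zero _ q1, wt_erase w he] at this
    linarith
  have ha : a ∉ B := fun ha => by
    obtain ⟨Q, q1, q2⟩ := (mem_comp s t).1 ha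
    have := hJ (symmDiff S Q) (by
      rw [bd_sd, hS, q2]; linear_combination (exp := 1) two (pt b) + two (pt a))
    rw [wt_zero _ q1] at this
    linarith
  have hb : b ∈ B := self_comp s t _ b
  refine ⟨B, pos, fun R hR => ?_, fun R hR hw => ?_⟩
  · have h1 := par s t B S
    have h2 := par s t B R
    rw [eq_empty_of_forall_notMem (s := S ∩ cut s t B) fun e he =>
      A S rfl le_rfl e (mem_inter.1 he).1 (mem_inter.1 he).2, hS, ← hR] at h1
    simp only [Pi.add_apply, sum_add_distrib, sum_pt, ha, hb, h2] at h1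
    rw [nonempty_iff_ne_empty]
    intro e
    simp [e] at h1
  · let D := symmDiff R S
    have hD : bd s t D = pt a + pt b := by
      rw [bd_sd, hR, hS, ← add_assoc, two, zero_add]
    let p : E → Prop := fun e => e ∈ D ∧ s e ∉ B ∧ t e ∉ B
    let K := comp s t p a
    have KB : ∀ x ∈ K, x ∉ B := fun x hx hxB => by
      obtain ⟨Q, q1, q2⟩ := (mem_comp s t).1 hx
      have h1 := par s t B Q
      rw [eq_empty_of_forall_notMem (s := Q ∩ cut s t B) fun e he => by
        have := q1 e (mem_inter.1 he).1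
        exact (cut_or s t (mem_inter.1 he).2).elim this.2.1 this.2.2, q2] at h1
      simp [sum_add_distrib, sum_pt, ha, hxB] at h1
    obtain ⟨e, he⟩ : (D ∩ cut s t K).Nonempty := by
      have h1 := par s t K D
      rw [hD] at h1
      simp only [Pi.add_apply, sum_add_distrib, sum_pt, self_comp s t p a, K,
        if_neg fun h => KB b h hb] at h1
      rw [nonempty_iff_ne_empty]
      intro e
      simp [K, e] at h1
    obtain ⟨eD, eK⟩ := mem_inter.1 he
    have np := comp_cut s t eK
    obtain ⟨u, v, hu, huv', huv⟩ := ends s t (B := B) (e := e) (by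
      by_contra h; exact np ⟨eD, not_or.1 h⟩)
    have hv : v ∈ K := by
      have : u ∉ K := fun h => KB u h hu
      rcases huv' with ⟨rfl, rfl⟩ | ⟨rfl, rfl⟩
      · exact (cut_or s t eK).resolve_left this
      · exact (cut_or s t eK).resolve_right this
    obtain ⟨P, p1, p2⟩ := (mem_comp s t).1 hv
    obtain ⟨Q, q1, q2⟩ := (mem_comp s t).1 hu
    let C := (symmDiff D P).erase e
    have eP : e ∉ P := fun h => np (p1 e h)
    have hC : bd s t C = pt b + pt u := by
      rw [bd_erase s t (mem_symmDiff.2 (.inl ⟨eD, eP⟩)), bd_sd, hD, p2, huv]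
      linear_combination (exp := 1) two (pt a) + two (pt v)
    have CD : C ⊆ D := fun x hx => by
      rcases mem_symmDiff.1 (mem_erase.1 hx).2 with h | h
      · exact h.1
      · exact (p1 x h.1).1
    have w1 := wt_swap w CD
    have w2 := hJ (symmDiff (symmDiff R C) Q) (by
      rw [bd_sd, bd_sd, hC, q2, add_assoc, two, add_zero, hR])
    rw [wt_zero _ q1] at w2
    have := A (symmDiff (symmDiff S C) Q) (by rw [bd_sd, bd_sd, hC, q2, add_assoc, two, add_zero])
      (by rw [wt_zero _ q1]; linarith)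
    refine (card_le_card (t := {e}) fun x hx => ?_).trans (card_singleton e).le
    obtain ⟨xR, xc⟩ := mem_inter.1 hx
    by_contra hne
    have xS : x ∉ S := fun h => A S rfl le_rfl x h xc
    have xP : x ∉ P := fun h => (cut_or s t xc).elim (p1 x h).2.1 (p1 x h).2.2
    refine this x (mem_symmDiff.2 (.inl ⟨mem_symmDiff.2 (.inr ⟨mem_erase.2 ⟨by simpa using hne,
      mem_symmDiff.2 (.inl ⟨mem_symmDiff.2 (.inl ⟨xR, xS⟩), xP⟩)⟩, xS⟩), fun h => ?_⟩)) xc
    exact (pos x xc).ne' (q1 x h)

end H18.TJ
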