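import Pool.Agent.H18.TJO1

set_option autoImplicit false

namespace H18.TJ
open Finset

variable {V E : Type} [Fintype V] [DecidableEq V] [Fintype E] [DecidableEq E] (s t : E → V)

lemma wt_cut (w : E → ℝ) (ε : ℝ) (C S : Finset E) :
    wt (fun e => w e - if e ∈ C then ε else 0) S = wt w S - ε * #(S ∩ C) := by
  rw [card_eq_sum_ones, Nat.cast_sum, ← univ_inter (S ∩ _), ← filter_mem_eq_inter, sum_filter,
    mul_sum, wt, wt, ← sum_sub_distrib]
  refine sum_congr rfl fun e _ => ?_
  by_cases h1 : e ∈ S <;> by_cases h2 : e ∈ C <;> simp [h1, h2]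

/-- fractional cut packing for a minimum join (Edmonds–Johnson), as functions -/
lemma packing (J : Finset E) (n : ℕ) : ∀ w : E → ℝ, (∀ e, 0 ≤ w e) →
    (∀ S, bd s t S = bd s t J → wt w J ≤ wt w S) →
    #{e | 0 < w e} + #{S | bd s t S = bd s t J ∧ wt w J < wt w S} = n →
    ∃ f : E → V → ℝ, (∀ j ∈ J, ∀ i ∈ J, f j (s i) - f j (t i) = if j = i then w i else 0) ∧
      ∀ e, ∑ j ∈ J, |f j (s e) - f j (t e)| ≤ w e := by
  induction n using Nat.strong_induction_on with
  | _ n ih =>
  intro w h0 hJ hn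
  by_cases hz : ∀ j ∈ J, w j ≤ 0
  · exact ⟨0, fun j _ i hi => by simp [le_antisymm (hz i hi) (h0 i)], fun e => by simp [h0]⟩
  push Not at hz
  obtain ⟨j, hj, hw⟩ := hz
  obtain ⟨B, b1, b2, b3⟩ := exists_cut s t h0 hJ hj hw
  have one : ∀ S, bd s t S = bd s t J → wt w S ≤ wt w J → #(S ∩ cut s t B) = 1 :=
    fun S h1 h2 => le_antisymm (b3 S h1 h2) (card_pos.2 (b2 S h1))
  obtain ⟨k, hk⟩ := card_eq_one.1 (one J rfl le_rfl)
  have hk' : ∀ e, e ∈ J ∧ e ∈ cut s t B ↔ e = k := fun e => by rw [← mem_inter, hk, mem_singleton]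
  obtain ⟨kJ, kc⟩ := (hk' k).2 rfl
  let A : Finset ℝ := (cut s t B).image w ∪
    (univ.filter fun S => bd s t S = bd s t J ∧ 2 ≤ #(S ∩ cut s t B)).image
      fun S => (wt w S - wt w J) / (#(S ∩ cut s t B) - 1)
  have ne : A.Nonempty := ⟨_, mem_union_left _ (mem_image_of_mem _ kc)⟩
  have c2 : ∀ S : Finset E, 2 ≤ #(S ∩ cut s t B) → (0 : ℝ) < #(S ∩ cut s t B) - 1 := fun S h => by
    have : (2 : ℝ) ≤ #(S ∩ cut s t B) := by exact_mod_cast h
    linarith
  have gt : ∀ S, bd s t S = bd s t J → 2 ≤ #(S ∩ cut s t B) → wt w J < wt w S := fun S h1 h2 =>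
    not_le.1 fun h => by have := b3 S h1 h; omega
  obtain ⟨ε, hε, hm⟩ : ∃ ε ∈ A, ∀ x ∈ A, ε ≤ x := ⟨_, A.min'_mem ne, fun x hx => A.min'_le x hx⟩
  simp only [A, mem_union, mem_image, mem_filter, mem_univ, true_and] at hε hm
  have e0 : 0 < ε := by
    rcases hε with ⟨e, he, rfl⟩ | ⟨S, hS, rfl⟩
    · exact b1 e he
    · exact div_pos (sub_pos.2 (gt S hS.1 hS.2)) (c2 S hS.2)
  let w' : E → ℝ := fun e => w e - if e ∈ cut s t B then ε else 0
  have wJ : wt w' J = wt w J - ε := by rw [wt_cut, hk]; simp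
  have c1 : ∀ S, bd s t S = bd s t J → (1 : ℝ) ≤ #(S ∩ cut s t B) := fun S h => by
    exact_mod_cast card_pos.2 (b2 S h)
  have s1 : (univ.filter fun e => 0 < w' e) ⊆ univ.filter fun e => 0 < w e := fun e he => by
    simp only [w', mem_filter, mem_univ, true_and] at he ⊢
    split_ifs at he <;> linarith
  have s2 : (univ.filter fun S => bd s t S = bd s t J ∧ wt w' J < wt w' S) ⊆
      univ.filter fun S => bd s t S = bd s t J ∧ wt w J < wt w S := fun S hS => by
    simp only [mem_filter, mem_univ, true_and] at hS ⊢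
    have := c1 S hS.1
    rw [wJ, wt_cut] at hS
    exact ⟨hS.1, by nlinarith [hS.2]⟩
  obtain ⟨f, f1, f2⟩ := ih _ (by
    rw [← hn]
    rcases hε with ⟨e, he, h⟩ | ⟨S, hS, h⟩
    · refine add_lt_add_of_lt_of_le (card_lt_card ⟨s1, fun h' => ?_⟩) (card_le_card s2)
      have := h' (mem_filter.2 ⟨mem_univ e, b1 e he⟩)
      simp [w', he, h] at this
    · refine add_lt_add_of_le_of_lt (card_le_card s1) (card_lt_card ⟨s2, fun h' => ?_⟩)
      have := (mem_filter.1 (h' (mem_filter.2 ⟨mem_univ S, hS.1, gt S hS.1 hS.2⟩))).2.2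
      rw [wJ, wt_cut] at this
      rw [div_eq_iff (c2 S hS.2).ne'] at h
      linarith) w' (fun e => by
      simp only [w']
      split_ifs with he
      · exact sub_nonneg.2 (hm _ (.inl ⟨e, he, rfl⟩))
      · simp [h0]) (fun S hS => by
      rw [wJ, wt_cut]
      by_cases h : 2 ≤ #(S ∩ cut s t B)
      · have := hm _ (.inr ⟨S, ⟨hS, h⟩, rfl⟩)
        rw [le_div_iff₀ (c2 S h)] at this
        linarith
      · have h1 := card_pos.2 (b2 S hS)
        rw [show #(S ∩ cut s t B) = 1 by omega]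
        have := hJ S hS
        simp only [Nat.cast_one]
        linarith) rfl
  let g : V → ℝ := fun v => if (v ∈ B ↔ s k ∈ B) then ε else 0
  have g1 : ∀ e, |g (s e) - g (t e)| = if e ∈ cut s t B then ε else 0 := fun e => by
    simp only [g, mem_cut]
    by_cases h1 : s e ∈ B <;> by_cases h2 : t e ∈ B <;> by_cases h3 : s k ∈ B <;>
      simp [h1, h2, h3, abs_of_pos e0]
  have g2 : g (s k) - g (t k) = ε := by
    have := (mem_cut s t).1 kc
    simp only [g, if_true, if_neg fun h : (t k ∈ B ↔ s k ∈ B) => this h.symm, sub_zero]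
  refine ⟨fun j v => f j v + if j = k then g v else 0, fun j hj i hi => ?_, fun e => ?_⟩
  · have h1 := f1 j hj i hi
    by_cases h2 : i = k
    · subst h2
      by_cases h3 : j = i
      · simp only [h3, if_true, w', kc] at h1 ⊢; linarith
      · simp only [h3, if_false] at h1 ⊢; linarith
    · have h3 : i ∉ cut s t B := fun h => h2 ((hk' i).1 ⟨hi, h⟩)
      have h4 := g1 i
      simp only [w', h3, if_false, sub_zero, abs_eq_zero] at h1 h4
      rw [← h1]
      beta_reduce
      split_ifs <;> linarith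
  · have h1 := f2 e
    have h2 : ∑ j ∈ J, (if j = k then |g (s e) - g (t e)| else 0) = |g (s e) - g (t e)| := by
      simp [kJ]
    refine le_trans (sum_le_sum (g := fun j => |f j (s e) - f j (t e)| +
      if j = k then |g (s e) - g (t e)| else 0) fun j _ => ?_) ?_
    · beta_reduce
      split_ifs
      · rw [add_sub_add_comm]; exact abs_add_le _ _
      · simp
    · rw [sum_add_distrib, h2, g1]
      simp only [w'] at h1
      linarith

omit [Fintype V] in
/-- balanced orientations -/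
lemma orient (S : Finset E) : ∀ a b, bd s t S = pt a + pt b → ∃ ε : E → ℝ, (∀ e, ε e = 1 ∨ ε e = -1) ∧
    ∀ g : V → ℝ, ∑ e ∈ S, ε e * (g (s e) - g (t e)) = g a - g b := by
  induction S using Finset.strongInduction with
  | H S ih =>
  have step : ∀ e ∈ S, ∀ a b u v, (u = s e ∧ v = t e ∨ u = t e ∧ v = s e) →
      bd s t S + (pt (s e) + pt (t e)) = pt a + pt b → ∃ ε : E → ℝ, (∀ e, ε e = 1 ∨ ε e = -1) ∧
      ∀ g : V → ℝ, ∑ e ∈ S, ε e * (g (s e) - g (t e)) = g a - g b + (g u - g v) := by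
    intro e he a b u v huv h
    obtain ⟨ε, h1, h2⟩ := ih _ (erase_ssubset he) a b ((bd_erase s t he).trans h)
    have key : ∀ c : ℝ, ∀ g : V → ℝ, ∑ x ∈ S, Function.update ε e c x * (g (s x) - g (t x)) =
        g a - g b + c * (g (s e) - g (t e)) := fun c g => by
      rw [← sum_erase_add _ _ he, ← h2, Function.update_self]
      congr 1
      exact sum_congr rfl fun x hx => by rw [Function.update_of_ne (mem_erase.1 hx).1]
    have k2 : ∀ c : ℝ, (c = 1 ∨ c = -1) → ∀ x, Function.update ε e c x = 1 ∨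
        Function.update ε e c x = -1 := fun c hc x => by
      by_cases h : x = e
      · rw [h, Function.update_self]; exact hc
      · rw [Function.update_of_ne h]; exact h1 x
    rcases huv with ⟨rfl, rfl⟩ | ⟨rfl, rfl⟩
    · exact ⟨_, k2 1 (.inl rfl), fun g => by rw [key]; ring⟩
    · exact ⟨_, k2 (-1) (.inr rfl), fun g => by rw [key]; ring⟩
  intro a b h
  by_cases hab : a = b
  · subst hab
    rcases S.eq_empty_or_nonempty with rfl | ⟨e, he⟩
    · exact ⟨1, by simp, by simp⟩
    · obtain ⟨ε, h1, h2⟩ := step e he (t e) (s e) _ _ (.inl ⟨rfl, rfl⟩)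
        (by rw [h, two, zero_add, add_comm])
      exact ⟨ε, h1, fun g => by rw [h2]; ring⟩
  · obtain ⟨e, he⟩ : (S ∩ cut s t {a}).Nonempty := by
      have h1 := par s t {a} S
      rw [nonempty_iff_ne_empty]
      intro e
      simp [e, h, pt, hab] at h1
    obtain ⟨u, v, hu, huv', huv⟩ := ends s t (cut_or s t (mem_inter.1 he).2)
    rw [mem_singleton] at hu
    subst hu
    obtain ⟨ε, h1, h2⟩ := step e (mem_inter.1 he).1 v b u v huv'
      (by rw [h, huv]; linear_combination (exp := 1) two (pt u))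
    exact ⟨ε, h1, fun g => by rw [h2]; ring⟩

end H18.TJ
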