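import Mathlib

namespace Pool.Agent.H18.TdpA

open Finset

/-- `S` is a total dominating set of `H`. -/
def IsTD {n : ℕ} (H : SimpleGraph (Fin n)) (S : Finset (Fin n)) : Prop := ∀ v, ∃ w ∈ S, H.Adj v w

/-- total domination number -/
noncomputable def gt {n : ℕ} (H : SimpleGraph (Fin n)) : ℕ :=
  sInf {m | ∃ S : Finset (Fin n), S.card = m ∧ IsTD H S}

/-- a `k`-factorization of the complete graph with no isolated vertex in any factor -/
def IsFact {n k : ℕ} (G : Fin k → SimpleGraph (Fin n)) : Prop :=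
  (∀ i j, i ≠ j → ∀ u v, ¬ ((G i).Adj u v ∧ (G j).Adj u v)) ∧
  (∀ u v, u ≠ v → ∃ i, (G i).Adj u v) ∧ (∀ i v, ∃ w, (G i).Adj v w)

noncomputable def P (n k : ℕ) : ℕ :=
  sSup {p | ∃ G : Fin k → SimpleGraph (Fin n), IsFact G ∧ ∏ j, gt (G j) = p}

variable {n : ℕ}

open Classical in
noncomputable def dg (H : SimpleGraph (Fin n)) (v : Fin n) : ℕ := (univ.filter (H.Adj v)).card

lemma gt_le (H : SimpleGraph (Fin n)) (hH : ∀ v, ∃ w, H.Adj v w) (S U : Finset (Fin n))
    (h : ∀ v, v ∉ U → ∃ w ∈ S, H.Adj v w) : gt H ≤ S.card + U.card := by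
  choose nb hnb using hH
  have : IsTD H (S ∪ U.image nb) := by
    intro v
    by_cases hv : v ∈ U
    · exact ⟨nb v, mem_union_right _ (mem_image_of_mem _ hv), hnb v⟩
    · obtain ⟨w, hw, h'⟩ := h v hv
      exact ⟨w, mem_union_left _ hw, h'⟩
  have h1 : gt H ≤ (S ∪ U.image nb).card := Nat.sInf_le ⟨_, rfl, this⟩
  exact h1.trans ((card_union_le _ _).trans (Nat.add_le_add_left card_image_le _))

lemma gt_le_n (H : SimpleGraph (Fin n)) (hH : ∀ v, ∃ w, H.Adj v w) : gt H ≤ n := by
  simpa using gt_le H hH ∅ univ (by simp)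

lemma greedy (hn : 0 < n) (H : SimpleGraph (Fin n)) (D s : ℕ) :
    ∃ S U : Finset (Fin n), S.card ≤ s ∧ U.card * (n + s * D) ≤ n * n ∧ (∀ u ∈ U, D ≤ dg H u) ∧
      ∀ v, D ≤ dg H v → v ∉ U → ∃ w ∈ S, H.Adj v w := by
  classical
  induction s with
  | zero =>
    refine ⟨∅, univ.filter (fun v => D ≤ dg H v), by simp, ?_, by simp, by simp⟩
    have := card_le_univ (univ.filter (fun v => D ≤ dg H v))
    simp only [Fintype.card_fin] at this
    simpa using Nat.mul_le_mul_right n this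
  | succ s ih =>
    obtain ⟨S, U, h1, h2, h3, h4⟩ := ih
    have hsum : ∑ _w : Fin n, D * U.card ≤ ∑ w : Fin n, n * (U.filter (fun u => H.Adj u w)).card := by
      rw [sum_const, card_univ, Fintype.card_fin, smul_eq_mul, ← mul_sum]
      apply Nat.mul_le_mul_left
      have e : ∑ w : Fin n, (U.filter (fun u => H.Adj u w)).card = ∑ u ∈ U, dg H u := by
        simp only [dg, card_filter]
        rw [sum_comm]
      rw [e, mul_comm]
      simpa using card_nsmul_le_sum U (dg H) D h3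
    obtain ⟨w, -, hw⟩ := exists_le_of_sum_le ⟨⟨0, hn⟩, mem_univ _⟩ hsum
    have hc := card_filter_add_card_filter_not (s := U) (fun u => H.Adj u w)
    refine ⟨insert w S, U.filter (fun u => ¬ H.Adj u w), (card_insert_le _ _).trans (by omega), ?_,
      fun u hu => h3 u (mem_filter.1 hu).1, fun v hv hv' => ?_⟩
    · generalize (U.filter (fun u => H.Adj u w)).card = a at *
      generalize (U.filter (fun u => ¬ H.Adj u w)).card = b at *
      rw [← hc] at h2 hw
      have h5 : D * b ≤ a * (n + s * D) := by nlinarith [Nat.zero_le (a * s * D), Nat.zero_le (D * a)]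
      nlinarith
    · by_cases hU : v ∈ U
      · refine ⟨w, mem_insert_self _ _, ?_⟩
        by_contra hc
        exact hv' (mem_filter.2 ⟨hU, hc⟩)
      · obtain ⟨x, hx, h'⟩ := h4 v hv hU
        exact ⟨x, mem_insert_of_mem hx, h'⟩

lemma gt_low (hn : 0 < n) (H : SimpleGraph (Fin n)) (hH : ∀ v, ∃ w, H.Adj v w) (r : ℕ)
    (hr : 0 < r) :
    (gt H : ℝ) ≤ (univ.filter (fun v => dg H v < r * r)).card + 2 * (n / r) + 1 := by
  obtain ⟨S, U, h1, h2, -, h4⟩ := greedy hn H (r * r) (n / r + 1)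
  have h5 := gt_le H hH S (U ∪ univ.filter (fun v => dg H v < r * r)) (fun v hv => by
    rw [mem_union, not_or, mem_filter] at hv
    exact h4 v (by have := hv.2; simp at this; exact this) hv.1)
  have h6 := card_union_le U (univ.filter (fun v => dg H v < r * r))
  have h7 : n ≤ (n / r + 1) * r := by
    have := Nat.div_add_mod n r
    have := Nat.mod_lt n hr
    nlinarith
  have h8 : U.card * r ≤ n := by
    refine Nat.le_of_mul_le_mul_right ?_ hn
    have : U.card * (n * r) ≤ U.card * (n + (n / r + 1) * (r * r)) :=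
      Nat.mul_le_mul_left _ (by nlinarith)
    nlinarith
  have hr' : (0 : ℝ) < r := by exact_mod_cast hr
  have h9 : (U.card : ℝ) ≤ n / r := by
    rw [le_div_iff₀ hr']; exact_mod_cast h8
  have h10 : ((n / r : ℕ) : ℝ) ≤ n / r := Nat.cast_div_le
  have h11 : gt H ≤ n / r + 1 + U.card + (univ.filter (fun v => dg H v < r * r)).card := by omega
  have h12 : (gt H : ℝ) ≤ ((n / r : ℕ) : ℝ) + 1 + U.card +
      (univ.filter (fun v => dg H v < r * r)).card := by exact_mod_cast h11
  linarith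

lemma amgm {k : ℕ} (hk : 0 < k) (x : Fin k → ℝ) (hx : ∀ i, 0 ≤ x i) (A : ℝ)
    (h : ∑ i, x i ≤ k * A) : ∏ i, x i ≤ A ^ k := by
  have hk' : (0 : ℝ) < k := by exact_mod_cast hk
  have h1 := Real.geom_mean_le_arith_mean_weighted univ (fun _ => (k : ℝ)⁻¹) x
    (fun _ _ => by positivity) (by simp; field_simp) (fun i _ => hx i)
  rw [← mul_sum] at h1
  have h2 : (k : ℝ)⁻¹ * ∑ i, x i ≤ A := by
    rw [inv_mul_le_iff₀ hk']; exact h
  have h3 : ∏ i, x i = (∏ i, x i ^ (k : ℝ)⁻¹) ^ k := by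
    rw [← prod_pow]
    exact prod_congr rfl fun i _ => (Real.rpow_inv_natCast_pow (hx i) hk.ne').symm
  rw [h3]
  exact pow_le_pow_left₀ (prod_nonneg fun i _ => Real.rpow_nonneg (hx i) _) (h1.trans h2) _

lemma dom_vertex {k : ℕ} {G : Fin k → SimpleGraph (Fin n)} (hG : IsFact G) (D : ℕ) (j : Fin k)
    (u : Fin n) (hu : ∀ i, i ≠ j → dg (G i) u < D) : gt (G j) ≤ k * D + 2 := by
  classical
  have h := gt_le (G j) (hG.2.2 j) {u}
    (insert u ((univ.filter (· ≠ j)).biUnion (fun i => univ.filter ((G i).Adj u)))) (fun v hv => by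
      rw [mem_insert, not_or] at hv
      obtain ⟨i, hi⟩ := hG.2.1 u v (Ne.symm hv.1)
      by_cases e : i = j
      · exact ⟨u, mem_singleton_self _, (e ▸ hi).symm⟩
      · exact absurd (mem_biUnion.2 ⟨i, by simp [e], by simp [hi]⟩) hv.2)
  have h2 : ((univ.filter (· ≠ j)).biUnion (fun i => univ.filter ((G i).Adj u))).card ≤ k * D := by
    refine card_biUnion_le.trans ?_
    refine (sum_le_card_nsmul _ _ D fun i hi => ?_).trans ?_
    · have := hu i (mem_filter.1 hi).2
      unfold dg at this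
      convert this.le
    · have := card_le_univ (univ.filter (· ≠ j))
      simpa using Nat.mul_le_mul_right D this
  have h3 := card_insert_le u ((univ.filter (· ≠ j)).biUnion (fun i => univ.filter ((G i).Adj u)))
  rw [card_singleton] at h
  omega

theorem upper {k : ℕ} (hk : 0 < k) (hn : 0 < n) {G : Fin k → SimpleGraph (Fin n)} (hG : IsFact G)
    (r : ℕ) (hr : 0 < r) :
    ∏ j, gt (G j) ≤ (k * (r * r) + 2) * n ^ (k - 1) ∨
    ((∏ j, gt (G j) : ℕ) : ℝ) ≤ ((1 - 2 / k) * n + 2 * (n / r) + 1) ^ k := by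
  classical
  by_cases h : ∃ j u, ∀ i, i ≠ j → dg (G i) u < r * r
  · left
    obtain ⟨j, u, hu⟩ := h
    rw [← mul_prod_erase _ _ (mem_univ j)]
    refine Nat.mul_le_mul (dom_vertex hG _ j u hu) ?_
    have := prod_le_pow_card (univ.erase j) (fun i => gt (G i)) n
      (fun i _ => gt_le_n _ (hG.2.2 i))
    simpa using this
  · right
    push Not at h
    push_cast
    refine amgm hk _ (fun _ => by positivity) _ ?_
    have h1 : ∀ u, (univ.filter (fun i => dg (G i) u < r * r)).card + 2 ≤ k := by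
      intro u
      obtain ⟨a, -, ha⟩ := h ⟨0, hk⟩ u
      obtain ⟨b, hba, hb⟩ := h a u
      have : univ.filter (fun i => dg (G i) u < r * r) ⊆ (univ.erase a).erase b := by
        intro i hi
        have := (mem_filter.1 hi).2
        simp only [mem_erase, mem_univ, and_true]
        constructor <;> rintro rfl <;> omega
      have h2 := card_le_card this
      rw [card_erase_of_mem (by simp [hba]), card_erase_of_mem (mem_univ _)] at h2
      have h3 : 1 < Fintype.card (Fin k) := Fintype.one_lt_card_iff.2 ⟨b, a, hba⟩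
      simp only [card_univ, Fintype.card_fin] at h2 h3
      omega
    have h2 : ∑ j, (univ.filter (fun v => dg (G j) v < r * r)).card =
        ∑ u, (univ.filter (fun i => dg (G i) u < r * r)).card := by
      simp only [card_filter]; exact sum_comm
    have h3 : ∑ u, ((univ.filter (fun i => dg (G i) u < r * r)).card + 2) ≤ ∑ _u : Fin n, k :=
      sum_le_sum fun u _ => h1 u
    rw [sum_add_distrib, ← h2] at h3
    simp only [sum_const, card_univ, Fintype.card_fin, smul_eq_mul] at h3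
    have h4 : (∑ j, ((univ.filter (fun v => dg (G j) v < r * r)).card : ℝ)) + n * 2 ≤ n * k := by
      exact_mod_cast h3
    have h5 : ∑ j, (gt (G j) : ℝ) ≤
        ∑ j, (((univ.filter (fun v => dg (G j) v < r * r)).card : ℝ) + (2 * (n / r) + 1)) :=
      sum_le_sum fun j _ => by linarith [gt_low hn (G j) (hG.2.2 j) r hr]
    rw [sum_add_distrib] at h5
    simp only [sum_const, card_univ, Fintype.card_fin, nsmul_eq_mul] at h5
    have hk' : (0 : ℝ) < k := by exact_mod_cast hk
    have e : (k : ℝ) * ((1 - 2 / k) * n + 2 * (n / r) + 1) = n * k - n * 2 + k * (2 * (n / r) + 1) := by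
      field_simp; ring
    rw [e]; linarith

def part (m v : ℕ) : ℕ := if v < 2 * m then 0 else if v < 4 * m then 1 else if v < 6 * m then 2 else 3

def col (m u v : ℕ) : ℕ :=
  if part m u = part m v then
    (if part m u = 3 then 0 else if u / 2 = v / 2 then part m u else (part m u + 1) % 3)
  else if part m u = 3 then (part m v + 1) % 3
  else if part m v = 3 then (part m u + 1) % 3
  else 3 - part m u - part m v

lemma part_cases (m v : ℕ) : (part m v = 0 ∧ v < 2 * m) ∨ (part m v = 1 ∧ 2 * m ≤ v ∧ v < 4 * m) ∨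
    (part m v = 2 ∧ 4 * m ≤ v ∧ v < 6 * m) ∨ (part m v = 3 ∧ 6 * m ≤ v) := by
  unfold part; split_ifs <;> omega

lemma col_symm (m u v : ℕ) : col m u v = col m v u := by
  unfold col; split_ifs <;> omega

lemma col_lt (m u v : ℕ) : col m u v < 3 := by
  have := part_cases m u
  have := part_cases m v
  unfold col; split_ifs <;> omega

def GG (m n : ℕ) (i : Fin 3) : SimpleGraph (Fin n) where
  Adj u v := u ≠ v ∧ col m u v = i
  symm := ⟨fun u v h => ⟨h.1.symm, by rw [col_symm]; exact h.2⟩⟩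
  loopless := ⟨fun _ h => h.1 rfl⟩

lemma nb_exists {m : ℕ} (hm : 0 < m) (i v : ℕ) (hi : i < 3) :
    ∃ w, w < 6 * m ∧ v ≠ w ∧ col m v w = i := by
  have hv := part_cases m v
  by_cases h : part m v = i
  · by_cases e : v % 2 = 0
    · have := part_cases m (v + 1)
      refine ⟨v + 1, by omega, by omega, ?_⟩
      unfold col; split_ifs <;> omega
    · have := part_cases m (v - 1)
      refine ⟨v - 1, by omega, by omega, ?_⟩
      unfold col; split_ifs <;> omega
  · have h0 := part_cases m 0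
    have h1 := part_cases m (2 * m)
    have h2 := part_cases m (4 * m)
    have key : col m v 0 = i ∧ part m v ≠ 0 ∨ col m v (2 * m) = i ∧ part m v ≠ 1 ∨
        col m v (4 * m) = i ∧ part m v ≠ 2 := by
      have a0 : part m 0 = 0 := by omega
      have a1 : part m (2 * m) = 1 := by omega
      have a2 : part m (4 * m) = 2 := by omega
      unfold col
      rw [a0, a1, a2]
      rcases hv with ⟨e, -⟩ | ⟨e, -⟩ | ⟨e, -⟩ | ⟨e, -⟩ <;> rw [e] at h ⊢ <;> simp <;> omega
    rcases key with h3 | h3 | h3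
    · exact ⟨0, by omega, by omega, h3.1⟩
    · exact ⟨2 * m, by omega, by omega, h3.1⟩
    · exact ⟨4 * m, by omega, by omega, h3.1⟩

lemma GG_fact {m : ℕ} (hm : 0 < m) (h : 6 * m ≤ n) : IsFact (GG m n) := by
  refine ⟨fun i j hij u v hh => hij (Fin.ext (hh.1.2.symm.trans hh.2.2)),
    fun u v huv => ⟨⟨col m u v, col_lt _ _ _⟩, huv, rfl⟩, fun i v => ?_⟩
  obtain ⟨w, h1, h2, h3⟩ := nb_exists hm i v i.2
  exact ⟨⟨w, by omega⟩, fun e => h2 (congrArg Fin.val e), h3⟩

lemma forced {m i v w : ℕ} (hi : i < 3) (hv : part m v = i) (h : col m v w = i) :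
    v / 2 = w / 2 := by
  have := part_cases m w
  unfold col at h; split_ifs at h <;> omega

lemma GG_gt {m : ℕ} (hm : 0 < m) (h : 6 * m ≤ n) (i : Fin 3) : 2 * m ≤ gt (GG m n i) := by
  have hF := GG_fact hm h
  have hne : {c | ∃ S : Finset (Fin n), S.card = c ∧ IsTD (GG m n i) S}.Nonempty :=
    ⟨_, univ, rfl, fun v => by obtain ⟨w, hw⟩ := hF.2.2 i v; exact ⟨w, mem_univ _, hw⟩⟩
  obtain ⟨S, h1, h2⟩ := Nat.sInf_mem hne
  have hi := i.2
  obtain ⟨o, ho⟩ : ∃ o, (i.1 = 0 ∧ o = 0) ∨ (i.1 = 1 ∧ o = 2 * m) ∨ (i.1 = 2 ∧ o = 4 * m) := by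
    have : i.1 = 0 ∨ i.1 = 1 ∨ i.1 = 2 := by omega
    rcases this with e | e | e
    · exact ⟨_, Or.inl ⟨e, rfl⟩⟩
    · exact ⟨_, Or.inr (Or.inl ⟨e, rfl⟩)⟩
    · exact ⟨_, Or.inr (Or.inr ⟨e, rfl⟩)⟩
  have hsub : Ico o (o + 2 * m) ⊆ S.image Fin.val := by
    intro x hx
    rw [mem_Ico] at hx
    obtain ⟨v, hv⟩ : ∃ v, v / 2 = x / 2 ∧ v ≠ x := by
      by_cases e : x % 2 = 0
      · exact ⟨x + 1, by omega⟩
      · exact ⟨x - 1, by omega⟩
    have hp := part_cases m v
    obtain ⟨w, hw, h3, h4⟩ := h2 ⟨v, by omega⟩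
    have h5 := forced hi (by omega : part m v = i) h4
    have h6 : v ≠ w.1 := fun e => h3 (Fin.ext e)
    exact mem_image.2 ⟨w, hw, by omega⟩
  have h7 := (card_le_card hsub).trans card_image_le
  unfold gt
  rw [← h1]
  simpa using h7

lemma bdd (n k : ℕ) :
    BddAbove {p | ∃ G : Fin k → SimpleGraph (Fin n), IsFact G ∧ ∏ j, gt (G j) = p} := by
  refine ⟨n ^ k, ?_⟩
  rintro _ ⟨G, hG, rfl⟩
  simpa using prod_le_pow_card univ (fun i => gt (G i)) n (fun i _ => gt_le_n _ (hG.2.2 i))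

lemma lower (h : 6 ≤ n) : (2 * (n / 6)) ^ 3 ≤ P n 3 := by
  have hm : 0 < n / 6 := by omega
  have h6 : 6 * (n / 6) ≤ n := by omega
  refine le_trans ?_ (le_csSup (bdd n 3) ⟨GG (n / 6) n, GG_fact hm h6, rfl⟩)
  simpa using pow_card_le_prod univ (fun i => gt (GG (n / 6) n i)) _ (fun i _ => GG_gt hm h6 i)

end Pool.Agent.H18.TdpA
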