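import Mathlib

set_option autoImplicit false

namespace Pool.Agent.H18.TreeRect

variable {α : Type} [LinearOrder α] {k : ℕ}

def R (s : Bool) (a b : α) : Prop := if s then a < b else b < a

lemma R_trans {s : Bool} {a b c : α} (h : R s a b) (h' : R s b c) : R s a c := by
  cases s <;> simp only [R, if_true, Bool.false_eq_true, if_false] at * <;> order

lemma R_total (s : Bool) {a b : α} (h : a ≠ b) : R s a b ∨ R s b a := by
  cases s <;> simp only [R, if_true, Bool.false_eq_true, if_false] <;>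
    rcases lt_or_gt_of_ne h with h | h <;> simp [h]

def In (f : List (Fin k) → α) (A : List (Fin k) → Prop) (z : List (Fin k)) : Prop :=
  ∃ u w, A u ∧ A w ∧ f u ≤ f z ∧ f z ≤ f w

lemma In.of_R {f : List (Fin k) → α} {A : List (Fin k) → Prop} {u z w : List (Fin k)} {s : Bool}
    (hu : A u) (hw : A w) (h1 : R s (f u) (f z)) (h2 : ¬ R s (f w) (f z)) : In f A z := by
  cases s <;> simp only [R, if_true, Bool.false_eq_true, if_false, not_lt] at h1 h2
  · exact ⟨w, u, hw, hu, h2, h1.le⟩
  · exact ⟨u, w, hu, hw, h1.le, h2⟩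

lemma R_asymm {s : Bool} {a b : α} (h : R s a b) : ¬ R s b a := by
  cases s <;> simp only [R, if_true, Bool.false_eq_true, if_false] at * <;> order

lemma In.mono {f : List (Fin k) → α} {A B : List (Fin k) → Prop} {z : List (Fin k)}
    (h : In f A z) (hAB : ∀ u, A u → B u) : In f B z := by
  obtain ⟨u, w, h1, h2, h3⟩ := h
  exact ⟨u, w, hAB u h1, hAB w h2, h3⟩

open Classical in
noncomputable def ty (f : List (Fin k) → α) (v z : List (Fin k)) : Option Bool :=
  if ∀ u, u <:+ v → f u < f z then some true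
  else if ∀ u, u <:+ v → f z < f u then some false else none

lemma ty_none {f : List (Fin k) → α} {v z : List (Fin k)} (h : ty f v z = none) :
    In f (· <:+ v) z := by
  unfold ty at h
  split_ifs at h with h1 h2
  push Not at h1 h2
  obtain ⟨w, hw, h1⟩ := h1
  obtain ⟨u, hu, h2⟩ := h2
  exact ⟨u, w, hu, hw, h2, h1⟩

lemma ty_some {f : List (Fin k) → α} {v z : List (Fin k)} {s : Bool} (h : ty f v z = some s) :
    ∀ u, u <:+ v → R s (f u) (f z) := by
  unfold ty at h
  split_ifs at h with h1 h2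
  · obtain rfl : true = s := by simpa using h
    exact h1
  · obtain rfl : false = s := by simpa using h
    exact h2

structure Real (X Y : List (Fin k) → α) : Prop where
  injX : ∀ u w, u.length < k → w.length < k → X u = X w → u = w
  injY : ∀ u w, u.length < k → w.length < k → Y u = Y w → u = w
  path : ∀ w z, w.length < k → z.length < k → In X (· <:+ w) z → In Y (· <:+ w) z →
    z <:+ w ∨ w <:+ z
  sib : ∀ v z, v.length + 1 < k → z.length < k → In X (fun u => ∃ a, u = a :: v) z →
    In Y (fun u => ∃ a, u = a :: v) z → ∃ a, z = a :: v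

def Forb (X Y : List (Fin k) → α) (v : List (Fin k)) (q : Bool × Bool) : Prop :=
  ∀ d, v <:+ d → d ≠ v → d.length < k →
    ∃ u, u <:+ v ∧ ¬ (R q.1 (X u) (X d) ∧ R q.2 (Y u) (Y d))

lemma Forb.mono {X Y : List (Fin k) → α} {v : List (Fin k)} {q : Bool × Bool}
    (h : Forb X Y v q) (a : Fin k) : Forb X Y (a :: v) q := by
  intro d h1 _ h3
  have h4 : v <:+ a :: v := List.suffix_cons a v
  obtain ⟨u, hu, h5⟩ := h d (h4.trans h1) (by
    rintro rfl
    have := h1.length_le
    simp at this) h3
  exact ⟨u, hu.trans h4, h5⟩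

lemma sib_not {X Y : List (Fin k) → α} (H : Real X Y) {v d : List (Fin k)} {a b : Fin k}
    (hd : d.length < k) (hb : b :: v <:+ d) (hab : a ≠ b)
    (h1 : In X (· <:+ d) (a :: v)) (h2 : In Y (· <:+ d) (a :: v)) : False := by
  have hl := hb.length_le
  simp only [List.length_cons] at hl
  have key : a :: v <:+ d := by
    rcases H.path d (a :: v) hd (by simp; omega) h1 h2 with h | h
    · exact h
    · rw [h.eq_of_length_le (by simpa using hl)]
  have := List.suffix_of_suffix_length_le key hb (by simp)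
  have := this.eq_of_length_le (by simp)
  exact hab (List.head_eq_of_cons_eq this)

lemma mid {X Y : List (Fin k) → α} (H : Real X Y) {v : List (Fin k)} (hv : v.length + 1 < k)
    {a b c : Fin k} {s t : Bool} (hab : a ≠ b) (hbc : b ≠ c)
    (xa : R s (X v) (X (a :: v))) (ya : R t (Y v) (Y (a :: v)))
    (yb : R t (Y v) (Y (b :: v))) (yc : R t (Y v) (Y (c :: v)))
    (h1 : R s (X (a :: v)) (X (b :: v))) (h2 : R s (X (b :: v)) (X (c :: v))) :
    Forb X Y (b :: v) (s, t) := by
  have L : ∀ a : Fin k, (a :: v).length < k := fun a => by simpa using hv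
  have sv : ∀ a : Fin k, v <:+ a :: v := fun a => List.suffix_cons a v
  have xb := R_trans xa h1
  have xc := R_trans xb h2
  have g1 : R t (Y (b :: v)) (Y (a :: v)) := by
    by_contra hc
    exact sib_not H (L b) List.suffix_rfl hab
      (In.of_R (sv b) List.suffix_rfl xa (R_asymm h1)) (In.of_R (sv b) List.suffix_rfl ya hc)
  have g2 : R t (Y (c :: v)) (Y (b :: v)) := by
    by_contra hc
    exact sib_not H (L c) List.suffix_rfl hbc
      (In.of_R (sv c) List.suffix_rfl xb (R_asymm h2)) (In.of_R (sv c) List.suffix_rfl yb hc)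
  intro d d1 d2 d3
  refine ⟨b :: v, List.suffix_rfl, ?_⟩
  rintro ⟨e1, e2⟩
  simp only at e1 e2
  have vd : v <:+ d := (sv b).trans d1
  by_cases c1 : R s (X (c :: v)) (X d)
  · exact sib_not H d3 d1 hbc.symm (In.of_R vd List.suffix_rfl xc (R_asymm c1))
      (In.of_R vd List.suffix_rfl yc (R_asymm (R_trans g2 e2)))
  by_cases c2 : R t (Y (a :: v)) (Y d)
  · exact sib_not H d3 d1 hab (In.of_R vd List.suffix_rfl xa (R_asymm (R_trans h1 e1)))
      (In.of_R vd List.suffix_rfl ya (R_asymm c2))
  obtain ⟨e, he⟩ := H.sib v d hv d3 (In.of_R ⟨b, rfl⟩ ⟨c, rfl⟩ e1 c1)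
    (In.of_R ⟨b, rfl⟩ ⟨a, rfl⟩ e2 c2)
  apply d2
  rw [d1.eq_of_length_le (by simp [he])]

lemma step {X Y : List (Fin k) → α} (H : Real X Y) (hk : 19 ≤ k) {v : List (Fin k)}
    (hv : v.length + 1 < k) (F : Finset (Bool × Bool)) (hF : ∀ q ∈ F, Forb X Y v q) :
    ∃ a q, q ∉ F ∧ Forb X Y (a :: v) q := by
  classical
  have L : ∀ a : Fin k, (a :: v).length < k := fun a => by simpa using hv
  have sv : ∀ a : Fin k, v <:+ a :: v := fun a => List.suffix_cons a v
  obtain ⟨τ, hτ⟩ := Fintype.exists_lt_card_fiber_of_mul_lt_card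
    (f := fun a : Fin k => (ty X v (a :: v), ty Y v (a :: v))) (n := 2) (by simp; omega)
  obtain ⟨a, b, c, ha, hb, hc, hab, hac, hbc⟩ := Finset.two_lt_card_iff.mp hτ
  simp only [Finset.mem_filter, Finset.mem_univ, true_and] at ha hb hc
  have nX : ∀ {a b : Fin k}, a ≠ b → X (a :: v) ≠ X (b :: v) := fun h e =>
    h (List.head_eq_of_cons_eq (H.injX _ _ (L _) (L _) e))
  have nY : ∀ {a b : Fin k}, a ≠ b → Y (a :: v) ≠ Y (b :: v) := fun h e =>
    h (List.head_eq_of_cons_eq (H.injY _ _ (L _) (L _) e))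
  have up : ∀ (b : Fin k) u, u <:+ v → u <:+ b :: v := fun b u h => h.trans (sv b)
  obtain ⟨τ1, τ2⟩ := τ
  simp only [Prod.mk.injEq] at ha hb hc
  rcases τ1 with _ | s <;> rcases τ2 with _ | t
  · exact (sib_not H (L b) List.suffix_rfl hab ((ty_none ha.1).mono (up b))
      ((ty_none ha.2).mono (up b))).elim
  · exfalso
    rcases R_total t (nY hab) with h | h
    · exact sib_not H (L b) List.suffix_rfl hab ((ty_none ha.1).mono (up b))
        (In.of_R (sv b) List.suffix_rfl (ty_some ha.2 v List.suffix_rfl) (R_asymm h))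
    · exact sib_not H (L a) List.suffix_rfl hab.symm ((ty_none hb.1).mono (up a))
        (In.of_R (sv a) List.suffix_rfl (ty_some hb.2 v List.suffix_rfl) (R_asymm h))
  · exfalso
    rcases R_total s (nX hab) with h | h
    · exact sib_not H (L b) List.suffix_rfl hab
        (In.of_R (sv b) List.suffix_rfl (ty_some ha.1 v List.suffix_rfl) (R_asymm h))
        ((ty_none ha.2).mono (up b))
    · exact sib_not H (L a) List.suffix_rfl hab.symm
        (In.of_R (sv a) List.suffix_rfl (ty_some hb.1 v List.suffix_rfl) (R_asymm h))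
        ((ty_none hb.2).mono (up a))
  · have hq : (s, t) ∉ F := by
      intro hq
      obtain ⟨u, hu, h⟩ := hF _ hq (a :: v) (sv a) (by simp) (L a)
      exact h ⟨ty_some ha.1 u hu, ty_some ha.2 u hu⟩
    have xa := ty_some ha.1 v List.suffix_rfl
    have xb := ty_some hb.1 v List.suffix_rfl
    have xc := ty_some hc.1 v List.suffix_rfl
    have ya := ty_some ha.2 v List.suffix_rfl
    have yb := ty_some hb.2 v List.suffix_rfl
    have yc := ty_some hc.2 v List.suffix_rfl
    rcases R_total s (nX hab) with h1 | h1 <;> rcases R_total s (nX hbc) with h2 | h2 <;>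
      rcases R_total s (nX hac) with h3 | h3
    · exact ⟨b, _, hq, mid H hv hab hbc xa ya yb yc h1 h2⟩
    · exact ⟨b, _, hq, mid H hv hab hbc xa ya yb yc h1 h2⟩
    · exact ⟨c, _, hq, mid H hv hac hbc.symm xa ya yc yb h3 h2⟩
    · exact ⟨a, _, hq, mid H hv hac.symm hab xc yc ya yb h3 h1⟩
    · exact ⟨a, _, hq, mid H hv hab.symm hac xb yb ya yc h1 h3⟩
    · exact ⟨c, _, hq, mid H hv hbc hac.symm xb yb yc ya h2 h3⟩
    · exact ⟨b, _, hq, mid H hv hbc.symm hab.symm xc yc yb ya h2 h1⟩
    · exact ⟨b, _, hq, mid H hv hbc.symm hab.symm xc yc yb ya h2 h1⟩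

theorem not_real {X Y : List (Fin k) → α} (H : Real X Y) (hk : 19 ≤ k) : False := by
  classical
  have : ∀ j ≤ 5, ∃ (v : List (Fin k)) (F : Finset (Bool × Bool)), v.length = j ∧ F.card = j ∧
      ∀ q ∈ F, Forb X Y v q := by
    intro j hj
    induction j with
    | zero => exact ⟨[], ∅, rfl, rfl, by simp⟩
    | succ j ih =>
      obtain ⟨v, F, h1, h2, h3⟩ := ih (by omega)
      obtain ⟨a, q, h4, h5⟩ := step H hk (by omega) F h3
      refine ⟨a :: v, insert q F, by simp [h1], by rw [Finset.card_insert_of_notMem h4, h2], ?_⟩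
      intro q' hq'
      rcases Finset.mem_insert.mp hq' with rfl | h
      · exact h5
      · exact (h3 q' h).mono a
  obtain ⟨v, F, -, h, -⟩ := this 5 le_rfl
  have := F.card_le_univ
  simp at this
  omega

end Pool.Agent.H18.TreeRect
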